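import Pool.Agent.MDC.StB

/-!
# MDC, module ACT: elementary properties of the action and of the grading (helper89)

Adapted from `Pool/Agent/MDH/ACT.lean` (helper58).
-/

set_option autoImplicit false
set_option linter.unusedSectionVars false

open MvPolynomial

namespace MDC

section
variable {a b : ℕ} {ι : Type} [Fintype ι] [DecidableEq ι]

theorem ACT_apply (w : Equiv.Perm ι) (c : T a b ι) (x : Ix a b ι) :
    actT w c x = rename w (c (fun s => w⁻¹ (x.1 s), fun t => w⁻¹ (x.2 t))) := rfl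

theorem ACT_hc_apply (i : ℕ) (c : T a b ι) (x : Ix a b ι) :
    hc i c x = homogeneousComponent i (c x) := rfl

theorem ACT_one (c : T a b ι) : actT 1 c = c := by
  funext x
  rw [ACT_apply]
  have h1 : ((fun s => (1 : Equiv.Perm ι)⁻¹ (x.1 s), fun t => (1 : Equiv.Perm ι)⁻¹ (x.2 t)) :
      Ix a b ι) = x := by
    rw [inv_one]
    rfl
  rw [h1, Equiv.Perm.coe_one, rename_id_apply]

theorem ACT_comp (w w' : Equiv.Perm ι) (c : T a b ι) :
    actT (w * w') c = actT w (actT w' c) := by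
  funext x
  rw [ACT_apply, ACT_apply, ACT_apply, rename_rename, mul_inv_rev]
  rfl

theorem ACT_mul (w : Equiv.Perm ι) (c c' : T a b ι) :
    actT w (c * c') = actT w c * actT w c' := by
  funext j
  rw [Pi.mul_apply, ACT_apply, ACT_apply, ACT_apply, Pi.mul_apply, map_mul]

theorem ACT_smul (w : Equiv.Perm ι) (s : S ι) (c : T a b ι) :
    actT w (s • c) = (rename w s) • actT w c := by
  funext j
  rw [Pi.smul_apply, ACT_apply, ACT_apply, Pi.smul_apply, smul_eq_mul, smul_eq_mul, map_mul]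

theorem ACT_u (w : Equiv.Perm ι) (x : Ix a b ι) :
    actT w (u x) = u (fun s => w (x.1 s), fun t => w (x.2 t)) := by
  funext x'
  rw [ACT_apply]
  unfold u
  by_cases h : x' = (fun s => w (x.1 s), fun t => w (x.2 t))
  · have h1 : ((fun s => w⁻¹ (x'.1 s), fun t => w⁻¹ (x'.2 t)) : Ix a b ι) = x := by
      rw [h]
      refine Prod.ext ?_ ?_
      · funext s
        exact w.symm_apply_apply (x.1 s)
      · funext s
        exact w.symm_apply_apply (x.2 s)
    rw [h1, h, Pi.single_eq_same, Pi.single_eq_same, map_one]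
  · have h1 : ((fun s => w⁻¹ (x'.1 s), fun t => w⁻¹ (x'.2 t)) : Ix a b ι) ≠ x := by
      intro h2
      apply h
      rw [← h2]
      refine Prod.ext ?_ ?_
      · funext s
        exact (w.apply_symm_apply (x'.1 s)).symm
      · funext s
        exact (w.apply_symm_apply (x'.2 s)).symm
    rw [Pi.single_eq_of_ne h1, Pi.single_eq_of_ne h, map_zero]

/-! ### the series `EE` -/

theorem ACT_lin (w : Equiv.Perm ι) (i : ι) :
    PowerSeries.map ((rename w : S ι →ₐ[ℂ] S ι) : S ι →+* S ι) (lin i) = lin (w i) := by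
  unfold lin
  rw [map_sub, map_one, map_mul, PowerSeries.map_C, PowerSeries.map_X, RingHom.coe_coe, rename_X]

theorem ACT_inv (w : Equiv.Perm ι) (i : ι) :
    PowerSeries.map ((rename w : S ι →ₐ[ℂ] S ι) : S ι →+* S ι) (inv i) = inv (w i) := by
  unfold inv
  ext1 q
  rw [PowerSeries.coeff_map, PowerSeries.coeff_mk, PowerSeries.coeff_mk, RingHom.coe_coe, map_pow,
    rename_X]

theorem ACT_EE (w : Equiv.Perm ι) (x : Ix a b ι) :
    PowerSeries.map ((rename w : S ι →ₐ[ℂ] S ι) : S ι →+* S ι) (EE x) =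
      EE (fun s => w (x.1 s), fun t => w (x.2 t)) := by
  unfold EE
  rw [map_mul, map_mul, map_prod, map_prod, map_prod]
  congr 1
  · congr 1
    · rw [← Equiv.prod_comp w (fun i => (lin i : PowerSeries (S ι)))]
      exact Finset.prod_congr rfl fun i _ => ACT_lin w i
    · exact Finset.prod_congr rfl fun s _ => ACT_inv w _
  · exact Finset.prod_congr rfl fun s _ => ACT_inv w _

theorem ACT_EEc (w : Equiv.Perm ι) (x : Ix a b ι) (r : ℕ) :
    rename w (PowerSeries.coeff r (EE x)) =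
      PowerSeries.coeff r (EE (fun s => w (x.1 s), fun t => w (x.2 t))) := by
  rw [← ACT_EE, PowerSeries.coeff_map, RingHom.coe_coe]

theorem ACT_ec (w : Equiv.Perm ι) (r : ℕ) : actT w (ec r : T a b ι) = ec r := by
  funext x
  rw [ACT_apply]
  unfold ec
  rw [ACT_EEc]
  have h1 : ((fun s => w (((fun s => w⁻¹ (x.1 s), fun t => w⁻¹ (x.2 t)) : Ix a b ι).1 s),
      fun t => w (((fun s => w⁻¹ (x.1 s), fun t => w⁻¹ (x.2 t)) : Ix a b ι).2 t)) : Ix a b ι) =
      x := by
    refine Prod.ext ?_ ?_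
    · funext s
      exact w.apply_symm_apply (x.1 s)
    · funext s
      exact w.apply_symm_apply (x.2 s)
  rw [h1]

theorem ACT_th (w : Equiv.Perm ι) (m : ℕ) (k : Fin m) :
    actT w (thC m k : T a b ι) = thC m k := by
  funext x
  rw [ACT_apply]
  exact rename_psum ι ℂ (k.val + 1) w

/-- power series whose coefficient of degree `r` is homogeneous of degree `r` -/
def ACT_H (f : PowerSeries (S ι)) : Prop := ∀ r, (PowerSeries.coeff r f).IsHomogeneous r

theorem ACT_H_mul {f g : PowerSeries (S ι)} (hf : ACT_H f) (hg : ACT_H g) : ACT_H (f * g) := by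
  intro r
  rw [PowerSeries.coeff_mul]
  refine IsHomogeneous.sum _ _ _ fun p hp => ?_
  rw [Finset.HasAntidiagonal.mem_antidiagonal] at hp
  rw [← hp]
  exact (hf p.1).mul (hg p.2)

theorem ACT_H_one : ACT_H (1 : PowerSeries (S ι)) := by
  intro r
  rw [PowerSeries.coeff_one]
  split_ifs with h
  · rw [h]
    exact isHomogeneous_one _ _
  · exact isHomogeneous_zero _ _ _

theorem ACT_H_prod {κ : Type} (t : Finset κ) (f : κ → PowerSeries (S ι))
    (hf : ∀ i, ACT_H (f i)) : ACT_H (∏ i ∈ t, f i) := by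
  classical
  induction t using Finset.induction_on with
  | empty => rw [Finset.prod_empty]; exact ACT_H_one
  | insert i t hi ih => rw [Finset.prod_insert hi]; exact ACT_H_mul (hf i) ih

theorem ACT_H_lin (i : ι) : ACT_H (lin i) := by
  intro r
  unfold lin
  rw [map_sub, PowerSeries.coeff_C_mul, PowerSeries.coeff_X]
  refine (ACT_H_one r).sub ?_
  split_ifs with h
  · rw [h, mul_one]
    exact isHomogeneous_X ℂ i
  · rw [mul_zero]
    exact isHomogeneous_zero _ _ _

theorem ACT_H_inv (i : ι) : ACT_H (inv i) := by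
  intro r
  unfold inv
  rw [PowerSeries.coeff_mk]
  exact isHomogeneous_X_pow i r

theorem ACT_H_EE (x : Ix a b ι) : ACT_H (EE x) := by
  unfold EE
  exact ACT_H_mul (ACT_H_mul (ACT_H_prod _ _ ACT_H_lin) (ACT_H_prod _ _ fun s => ACT_H_inv _))
    (ACT_H_prod _ _ fun s => ACT_H_inv _)

theorem ACT_echom (r : ℕ) (x : Ix a b ι) : (ec r x).IsHomogeneous r := ACT_H_EE x r

theorem ACT_psumhom (k : ℕ) : (psum ι ℂ k).IsHomogeneous k := by
  change (∑ i : ι, (X i : S ι) ^ k).IsHomogeneous k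
  exact IsHomogeneous.sum _ _ _ fun i _ => isHomogeneous_X_pow i _

theorem ACT_thhom (m : ℕ) (k : Fin m) (x : Ix a b ι) :
    (thC m k x).IsHomogeneous (k.val + 1) := ACT_psumhom _

theorem ACT_fd (w : Equiv.Perm ι) (i : ℕ) (c : T a b ι) (hc : c ∈ Fd a b ι i) :
    actT w c ∈ Fd a b ι i := by
  intro j
  rw [ACT_apply]
  exact (totalDegree_rename_le _ _).trans (hc _)

/-! ### homogeneous components -/

/-- homogeneous components of a product with a homogeneous polynomial -/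
theorem ACT_hcm {q : ℕ} {x : S ι} (hx : x.IsHomogeneous q) (p : S ι) (i : ℕ) :
    homogeneousComponent i (p * x) =
      if q ≤ i then homogeneousComponent (i - q) p * x else 0 := by
  have h1 : p * x = ∑ l ∈ Finset.range (p.totalDegree + 1), homogeneousComponent l p * x := by
    rw [← Finset.sum_mul, sum_homogeneousComponent]
  have h2 : ∀ l, homogeneousComponent i (homogeneousComponent l p * x) =
      if i = l + q then homogeneousComponent l p * x else 0 := fun l =>
    homogeneousComponent_of_mem ((homogeneousComponent_isHomogeneous l p).mul hx)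
  conv_lhs => rw [h1, map_sum]
  rw [Finset.sum_congr rfl fun l _ => h2 l]
  by_cases hqi : q ≤ i
  · rw [if_pos hqi, Finset.sum_eq_single (i - q)]
    · rw [if_pos (by omega)]
    · intro l _ hl
      rw [if_neg (by omega)]
    · intro h
      rw [Finset.mem_range, not_lt] at h
      rw [homogeneousComponent_eq_zero (i - q) p (by omega), zero_mul]
      split_ifs <;> rfl
  · rw [if_neg hqi]
    refine Finset.sum_eq_zero fun l _ => ?_
    rw [if_neg (by omega)]

theorem ACT_rename_hc (w : Equiv.Perm ι) (i : ℕ) (p : S ι) :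
    rename w (homogeneousComponent i p) = homogeneousComponent i (rename w p) := by
  have h1 : p = ∑ l ∈ Finset.range (p.totalDegree + 1), homogeneousComponent l p :=
    (sum_homogeneousComponent p).symm
  conv_rhs => rw [h1, map_sum, map_sum]
  have h2 : ∀ l, homogeneousComponent i (rename w (homogeneousComponent l p)) =
      if i = l then rename w (homogeneousComponent l p) else 0 := fun l =>
    homogeneousComponent_of_mem ((homogeneousComponent_isHomogeneous l p).rename_isHomogeneous)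
  rw [Finset.sum_congr rfl fun l _ => h2 l, Finset.sum_ite_eq]
  split_ifs with h
  · rfl
  · rw [Finset.mem_range, not_lt] at h
    rw [homogeneousComponent_eq_zero i p (by omega), map_zero]

theorem ACT_hcact (w : Equiv.Perm ι) (i : ℕ) (c : T a b ι) :
    actT w (hc i c) = hc i (actT w c) := by
  funext j
  rw [ACT_apply, ACT_hc_apply, ACT_hc_apply, ACT_apply, ACT_rename_hc]

theorem ACT_hcmT {q : ℕ} {x : T a b ι} (hx : ∀ j, (x j).IsHomogeneous q) (p : T a b ι) (i : ℕ) :
    hc i (p * x) = if q ≤ i then hc (i - q) p * x else 0 := by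
  funext j
  rw [ACT_hc_apply, Pi.mul_apply, ACT_hcm (hx j)]
  split_ifs with h
  · rw [Pi.mul_apply, ACT_hc_apply]
  · rfl

theorem ACT_hcsm {q : ℕ} {x : T a b ι} (hx : ∀ j, (x j).IsHomogeneous q) (s : S ι) (i : ℕ) :
    hc i (s • x) = if q ≤ i then homogeneousComponent (i - q) s • x else 0 := by
  funext j
  rw [ACT_hc_apply, Pi.smul_apply, smul_eq_mul, ACT_hcm (hx j)]
  split_ifs with h
  · rw [Pi.smul_apply, smul_eq_mul]
  · rfl

/-! ### the generators -/

theorem ACT_upd {d : ℕ} (w : Equiv.Perm ι) (j : Fin d → ι) (s : Fin d) (i : ι) :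
    (fun q => w (Function.update j s i q)) = Function.update (fun q => w (j q)) s (w i) := by
  funext q
  by_cases h : q = s
  · rw [h, Function.update_self, Function.update_self]
  · rw [Function.update_of_ne h, Function.update_of_ne h]

theorem ACT_rA (w : Equiv.Perm ι) (τ : Equiv.Perm (Fin a)) (x : Ix a b ι) :
    actT w (rA τ x) = rA τ (fun s => w (x.1 s), fun t => w (x.2 t)) := by
  unfold rA
  rw [map_sub, map_smul, ACT_u, ACT_u]
  rfl

theorem ACT_rB (w : Equiv.Perm ι) (τ : Equiv.Perm (Fin b)) (x : Ix a b ι) :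
    actT w (rB τ x) = rB τ (fun s => w (x.1 s), fun t => w (x.2 t)) := by
  unfold rB
  rw [map_sub, map_smul, ACT_u, ACT_u]
  rfl

theorem ACT_rTh (w : Equiv.Perm ι) (s : Fin a) (x : Ix a b ι) (l : ℕ) :
    actT w (rTh s x l) = rTh s (fun s => w (x.1 s), fun t => w (x.2 t)) l := by
  unfold rTh
  rw [map_sum]
  conv_rhs => rw [← Equiv.sum_comp w]
  refine Finset.sum_congr rfl fun i _ => ?_
  rw [ACT_smul, ACT_u, map_pow, rename_X, ACT_upd]

theorem ACT_rEt (w : Equiv.Perm ι) (t : Fin b) (x : Ix a b ι) (l : ℕ) :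
    actT w (rEt t x l) = rEt t (fun s => w (x.1 s), fun t => w (x.2 t)) l := by
  unfold rEt
  rw [map_sum]
  conv_rhs => rw [← Equiv.sum_comp w]
  refine Finset.sum_congr rfl fun i _ => ?_
  rw [ACT_smul, ACT_u, map_pow, rename_X, ACT_upd]

theorem ACT_rPh (w : Equiv.Perm ι) (s : Fin a) (t : Fin b) (x : Ix a b ι) (l : ℕ) :
    actT w (rPh s t x l) = rPh s t (fun s => w (x.1 s), fun t => w (x.2 t)) l := by
  unfold rPh
  rw [map_sum]
  conv_rhs => rw [← Equiv.sum_comp w]
  refine Finset.sum_congr rfl fun i _ => ?_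
  rw [ACT_smul, ACT_u, map_pow, rename_X, ACT_upd, ACT_upd]

theorem ACT_uhom (x x' : Ix a b ι) : (u x x').IsHomogeneous 0 := by
  unfold u
  by_cases h : x' = x
  · rw [h, Pi.single_eq_same]
    exact isHomogeneous_one _ _
  · rw [Pi.single_eq_of_ne h]
    exact isHomogeneous_zero _ _ _

/-- homogeneous elements of `T` -/
def ACT_HT (q : ℕ) (c : T a b ι) : Prop := ∀ x, (c x).IsHomogeneous q

theorem ACT_HT_su {q : ℕ} {s : S ι} (hs : s.IsHomogeneous q) (x : Ix a b ι) :
    ACT_HT q (s • u x) := by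
  intro x'
  rw [Pi.smul_apply, smul_eq_mul]
  exact hs.mul (ACT_uhom _ _)

theorem ACT_HT_sum {q : ℕ} {κ : Type} (t : Finset κ) (f : κ → T a b ι)
    (hf : ∀ i ∈ t, ACT_HT q (f i)) : ACT_HT q (∑ i ∈ t, f i) := by
  intro x
  rw [Finset.sum_apply]
  exact IsHomogeneous.sum _ _ _ fun i hi => hf i hi x

theorem ACT_rAhom (τ : Equiv.Perm (Fin a)) (x : Ix a b ι) : ACT_HT 0 (rA τ x) := by
  intro x'
  unfold rA
  rw [Pi.sub_apply, Pi.smul_apply, smul_eq_C_mul]
  exact (ACT_uhom _ _).sub ((ACT_uhom _ _).C_mul _)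

theorem ACT_rBhom (τ : Equiv.Perm (Fin b)) (x : Ix a b ι) : ACT_HT 0 (rB τ x) := by
  intro x'
  unfold rB
  rw [Pi.sub_apply, Pi.smul_apply, smul_eq_C_mul]
  exact (ACT_uhom _ _).sub ((ACT_uhom _ _).C_mul _)

theorem ACT_rThhom (s : Fin a) (x : Ix a b ι) (l : ℕ) : ACT_HT l (rTh s x l) :=
  ACT_HT_sum _ _ fun i _ => ACT_HT_su (isHomogeneous_X_pow i l) _

theorem ACT_rEthom (t : Fin b) (x : Ix a b ι) (l : ℕ) : ACT_HT l (rEt t x l) :=
  ACT_HT_sum _ _ fun i _ => ACT_HT_su (isHomogeneous_X_pow i l) _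

theorem ACT_rPhhom (s : Fin a) (t : Fin b) (x : Ix a b ι) (l : ℕ) : ACT_HT l (rPh s t x l) :=
  ACT_HT_sum _ _ fun i _ => ACT_HT_su (isHomogeneous_X_pow i l) _

/-! ### stability and homogeneity of spans -/

/-- stability of a span of a set of generators -/
theorem ACT_spanstab (G : Set (T a b ι)) (w : Equiv.Perm ι) (K : Submodule (S ι) (T a b ι))
    (hG : ∀ g ∈ G, actT w g ∈ K) : ∀ c ∈ Submodule.span (S ι) G, actT w c ∈ K := by
  intro c hc
  refine Submodule.span_induction (p := fun c _ => actT w c ∈ K) ?_ ?_ ?_ ?_ hc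
  · exact hG
  · rw [map_zero]
    exact Submodule.zero_mem _
  · intro x y _ _ hx hy
    rw [map_add]
    exact Submodule.add_mem _ hx hy
  · intro s x _ hx
    rw [ACT_smul]
    exact Submodule.smul_mem _ _ hx

/-- homogeneity of a span of homogeneous generators -/
theorem ACT_spanhom (G : Set (T a b ι)) (K : Submodule (S ι) (T a b ι)) (i : ℕ)
    (hG : ∀ g ∈ G, g ∈ K ∧ ∃ q, ACT_HT q g) : ∀ c ∈ Submodule.span (S ι) G, hc i c ∈ K := by
  intro c hc
  have key : ∀ s : S ι, MDC.hc i (s • c) ∈ K := by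
    refine Submodule.span_induction
      (p := fun c _ => ∀ s : S ι, MDC.hc i (s • c) ∈ K) ?_ ?_ ?_ ?_ hc
    · intro g hg s
      obtain ⟨h1, q, h2⟩ := hG g hg
      rw [ACT_hcsm h2]
      split_ifs
      · exact Submodule.smul_mem _ _ h1
      · exact Submodule.zero_mem _
    · intro s
      rw [smul_zero, map_zero]
      exact Submodule.zero_mem _
    · intro x y _ _ hx hy s
      rw [smul_add, map_add]
      exact Submodule.add_mem _ (hx s) (hy s)
    · intro t x _ hx s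
      rw [smul_smul]
      exact hx _
  have h1 := key 1
  rwa [one_smul] at h1

theorem ACT_supmem {K1 K2 K : Submodule (S ι) (T a b ι)} (P : T a b ι → T a b ι)
    (hadd : ∀ x y, P (x + y) = P x + P y)
    (h1 : ∀ c ∈ K1, P c ∈ K) (h2 : ∀ c ∈ K2, P c ∈ K) : ∀ c ∈ K1 ⊔ K2, P c ∈ K := by
  intro c hc
  obtain ⟨x, hx, y, hy, rfl⟩ := Submodule.mem_sup.1 hc
  rw [hadd]
  exact Submodule.add_mem _ (h1 x hx) (h2 y hy)

theorem ACT_relA_le : RelA a b ι ≤ Rel a b ι := le_sup_left.trans le_sup_left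

theorem ACT_relP_le : RelP a b ι ≤ Rel a b ι := le_sup_left

theorem ACT_mrA (τ : Equiv.Perm (Fin a)) (x : Ix a b ι) : rA τ x ∈ Rel a b ι :=
  ACT_relA_le (Submodule.subset_span (Or.inl ⟨_, _, rfl⟩))

theorem ACT_mrB (τ : Equiv.Perm (Fin b)) (x : Ix a b ι) : rB τ x ∈ Rel a b ι :=
  ACT_relA_le (Submodule.subset_span (Or.inr ⟨_, _, rfl⟩))

theorem ACT_mrPh (s : Fin a) (t : Fin b) (x : Ix a b ι) (l : ℕ) : rPh s t x l ∈ Rel a b ι :=
  ACT_relP_le (Submodule.mem_sup_right (Submodule.subset_span ⟨_, _, _, _, rfl⟩))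

theorem ACT_mrTh (s : Fin a) (x : Ix a b ι) (l : ℕ) : rTh s x l ∈ Rel a b ι :=
  Submodule.mem_sup_right (Submodule.subset_span (Or.inl ⟨_, _, _, rfl⟩))

theorem ACT_mrEt (t : Fin b) (x : Ix a b ι) (l : ℕ) : rEt t x l ∈ Rel a b ι :=
  Submodule.mem_sup_right (Submodule.subset_span (Or.inr ⟨_, _, _, rfl⟩))

theorem ACT_relstab (w : Equiv.Perm ι) : ∀ c ∈ Rel a b ι, actT w c ∈ Rel a b ι := by
  have hadd : ∀ x y : T a b ι, actT w (x + y) = actT w x + actT w y := fun x y => map_add _ x y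
  refine ACT_supmem _ hadd (ACT_supmem _ hadd ?_ ?_) ?_
  · refine ACT_spanstab _ w _ ?_
    rintro g (⟨τ, x, rfl⟩ | ⟨τ, x, rfl⟩)
    · rw [ACT_rA]
      exact ACT_mrA _ _
    · rw [ACT_rB]
      exact ACT_mrB _ _
  · refine ACT_spanstab _ w _ ?_
    rintro g ⟨s, t, x, l, rfl⟩
    rw [ACT_rPh]
    exact ACT_mrPh _ _ _ _
  · refine ACT_spanstab _ w _ ?_
    rintro g (⟨s, x, l, rfl⟩ | ⟨s, x, l, rfl⟩)
    · rw [ACT_rTh]
      exact ACT_mrTh _ _ _
    · rw [ACT_rEt]
      exact ACT_mrEt _ _ _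

theorem ACT_relhom (i : ℕ) : ∀ c ∈ Rel a b ι, hc i c ∈ Rel a b ι := by
  have hadd : ∀ x y : T a b ι, hc i (x + y) = hc i x + hc i y := fun x y => map_add _ x y
  refine ACT_supmem _ hadd (ACT_supmem _ hadd ?_ ?_) ?_
  · refine ACT_spanhom _ _ i ?_
    rintro g (⟨τ, x, rfl⟩ | ⟨τ, x, rfl⟩)
    · exact ⟨ACT_mrA _ _, _, ACT_rAhom _ _⟩
    · exact ⟨ACT_mrB _ _, _, ACT_rBhom _ _⟩
  · refine ACT_spanhom _ _ i ?_
    rintro g ⟨s, t, x, l, rfl⟩
    exact ⟨ACT_mrPh _ _ _ _, _, ACT_rPhhom _ _ _ _⟩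
  · refine ACT_spanhom _ _ i ?_
    rintro g (⟨s, x, l, rfl⟩ | ⟨s, x, l, rfl⟩)
    · exact ⟨ACT_mrTh _ _ _, _, ACT_rThhom _ _ _⟩
    · exact ⟨ACT_mrEt _ _ _, _, ACT_rEthom _ _ _⟩

theorem ACT_mLP (k : ℕ) (hk : 1 ≤ k) (x : Ix a b ι) : psum ι ℂ k • u x ∈ LP a b ι :=
  Submodule.mem_sup_right (Submodule.subset_span ⟨k, x, hk, rfl⟩)

theorem ACT_LPstab (w : Equiv.Perm ι) : ∀ c ∈ LP a b ι, actT w c ∈ LP a b ι := by
  have hadd : ∀ x y : T a b ι, actT w (x + y) = actT w x + actT w y := fun x y => map_add _ x y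
  refine ACT_supmem _ hadd (fun c hc => Submodule.mem_sup_left (ACT_relstab w c hc)) ?_
  refine ACT_spanstab _ w _ ?_
  rintro g ⟨k, x, hk, rfl⟩
  rw [ACT_smul, ACT_u, rename_psum]
  exact ACT_mLP k hk _

theorem ACT_LPhom (i : ℕ) : ∀ c ∈ LP a b ι, hc i c ∈ LP a b ι := by
  have hadd : ∀ x y : T a b ι, hc i (x + y) = hc i x + hc i y := fun x y => map_add _ x y
  refine ACT_supmem _ hadd (fun c hc => Submodule.mem_sup_left (ACT_relhom i c hc)) ?_
  refine ACT_spanhom _ _ i ?_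
  rintro g ⟨k, x, hk, rfl⟩
  exact ⟨ACT_mLP k hk _, _, ACT_HT_su (ACT_psumhom k) _⟩

theorem ACT_LZstab {m : ℕ} (z : Fin m → ℂ) (w : Equiv.Perm ι) :
    ∀ c ∈ LZ a b ι z, actT w c ∈ LZ a b ι z := by
  have hadd : ∀ x y : T a b ι, actT w (x + y) = actT w x + actT w y := fun x y => map_add _ x y
  refine ACT_supmem _ hadd (fun c hc => Submodule.mem_sup_left (ACT_relstab w c hc)) ?_
  refine ACT_spanstab _ w _ ?_
  rintro g ⟨r, x, rfl⟩
  rw [ACT_smul, ACT_u, map_sub, ACT_EEc, rename_C]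
  exact Submodule.mem_sup_right (Submodule.subset_span ⟨r, _, rfl⟩)

theorem ACT_mem_lop {m : ℕ} (f : Fin m → T a b ι) (k : Fin m) (c : T a b ι) :
    f k * c ∈ Lop f := by
  unfold Lop
  refine Submodule.mem_sup_right (Submodule.mem_iSup_of_mem k ?_)
  exact ⟨c, rfl⟩

theorem ACT_iSup {m : ℕ} (f : Fin m → T a b ι) (K : Submodule (S ι) (T a b ι))
    (P : T a b ι → T a b ι) (h0 : P 0 = 0) (hadd : ∀ x y, P (x + y) = P x + P y)
    (hk : ∀ k c, P (f k * c) ∈ K) :
    ∀ c ∈ ⨆ k, LinearMap.range (LinearMap.mulLeft (S ι) (f k)), P c ∈ K := by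
  intro c hc
  refine Submodule.iSup_induction _ (motive := fun t => P t ∈ K) hc ?_ ?_ ?_
  · rintro k x ⟨y, rfl⟩
    exact hk k y
  · rw [h0]
    exact Submodule.zero_mem _
  · intro x y hx hy
    rw [hadd]
    exact Submodule.add_mem _ hx hy

theorem ACT_lopstab {m : ℕ} (f : Fin m → T a b ι) (w : Equiv.Perm ι)
    (hf : ∀ k, actT w (f k) = f k) : ∀ c ∈ Lop f, actT w c ∈ Lop f := by
  have hadd : ∀ x y : T a b ι, actT w (x + y) = actT w x + actT w y := fun x y => map_add _ x y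
  refine ACT_supmem _ hadd (fun c hc => Submodule.mem_sup_left (ACT_relstab w c hc)) ?_
  refine ACT_iSup f _ _ (map_zero _) hadd fun k c => ?_
  rw [ACT_mul, hf]
  exact ACT_mem_lop f k _

theorem ACT_lophom {m : ℕ} (f : Fin m → T a b ι) (i : ℕ)
    (hf : ∀ k x, (f k x).IsHomogeneous (k.val + 1)) : ∀ c ∈ Lop f, hc i c ∈ Lop f := by
  have hadd : ∀ x y : T a b ι, hc i (x + y) = hc i x + hc i y := fun x y => map_add _ x y
  refine ACT_supmem _ hadd (fun c hc => Submodule.mem_sup_left (ACT_relhom i c hc)) ?_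
  refine ACT_iSup f _ _ (map_zero _) hadd fun k c => ?_
  rw [mul_comm, ACT_hcmT (hf k)]
  split_ifs
  · rw [mul_comm]
    exact ACT_mem_lop f k _
  · exact Submodule.zero_mem _

end

theorem thm_ACT : St_ACT := by
  refine ⟨fun ι _ _ a b => ⟨ACT_one, ACT_comp, ACT_mul, ACT_smul, ACT_u, ACT_ec, ACT_th,
    ACT_echom, ACT_thhom, ACT_fd, ACT_hcact⟩, fun ι _ _ a b => ⟨?_, ?_, ?_, ?_, ?_, ?_⟩⟩
  · intro w c hc
    exact ACT_relstab w c hc
  · intro c hc i
    exact ACT_relhom i c hc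
  · intro w c hc
    exact ACT_LPstab w c hc
  · intro c hc i
    exact ACT_LPhom i c hc
  · intro m z w c hc
    exact ACT_LZstab z w c hc
  · intro m
    refine ⟨?_, ?_, ?_, ?_⟩
    · intro w c hc
      exact ACT_lopstab _ w (fun k => ACT_ec w _) c hc
    · intro c hc i
      exact ACT_lophom _ i (fun k x => ACT_echom _ x) c hc
    · intro w c hc
      exact ACT_lopstab _ w (fun k => ACT_th w m k) c hc
    · intro c hc i
      exact ACT_lophom _ i (fun k x => ACT_thhom m k x) c hc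

end MDC
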