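import Pool.Agent.MDC.StA

/-!
# MDC [CAR]: the canonical anticommutation relation `{dl, mu i}`
-/

set_option autoImplicit false

open MvPolynomial

namespace MDC

section

variable {a b : ℕ} {ι : Type} [Fintype ι] [DecidableEq ι]

theorem CAR_dl (w : Ix (a + 1) b ι) : dl (u w) = ∑ σ : Equiv.Perm (Fin (a + 1)),
    (((Equiv.Perm.sign σ : ℤ) : ℂ)) • (u (Fin.tail (w.1 ∘ σ), w.2) : T a b ι) := by
  funext y
  rw [Finset.sum_apply]
  show (∑ σ : Equiv.Perm (Fin (a + 1)), ∑ i : ι, (((Equiv.Perm.sign σ : ℤ) : ℂ)) •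
    (u w : T (a + 1) b ι) ((Fin.cons i y.1 : Fin (a + 1) → ι) ∘ σ.symm, y.2)) = _
  refine Finset.sum_congr rfl fun σ _ => ?_
  rw [← Finset.smul_sum, Pi.smul_apply]
  have key : ∑ i : ι, (u w : T (a + 1) b ι) ((Fin.cons i y.1 : Fin (a + 1) → ι) ∘ σ.symm, y.2) =
      (u (Fin.tail (w.1 ∘ σ), w.2) : T a b ι) y := by
    rw [Finset.sum_eq_single (w.1 (σ 0))]
    · unfold u
      rw [Pi.single_apply, Pi.single_apply]
      have h : (((Fin.cons (w.1 (σ 0)) y.1 : Fin (a + 1) → ι) ∘ σ.symm, y.2) = w) ↔
          (y = (Fin.tail (w.1 ∘ σ), w.2)) := by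
        constructor
        · intro h
          have h1 := congrArg Prod.fst h
          have h2 := congrArg Prod.snd h
          refine Prod.ext ?_ h2
          funext s
          show y.1 s = w.1 (σ s.succ)
          rw [← h1]
          simp
        · intro h
          have h1 := congrArg Prod.fst h
          have h2 := congrArg Prod.snd h
          refine Prod.ext ?_ h2
          funext s
          show (Fin.cons (w.1 (σ 0)) y.1 : Fin (a + 1) → ι) (σ.symm s) = w.1 s
          obtain ⟨t, rfl⟩ := σ.surjective s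
          rw [Equiv.symm_apply_apply]
          refine Fin.cases ?_ (fun t => ?_) t
          · rfl
          · rw [Fin.cons_succ, h1]
            rfl
      exact if_congr h rfl rfl
    · intro i _ hi
      unfold u
      rw [Pi.single_apply, if_neg]
      intro h
      have h1 := congrFun (congrArg Prod.fst h) (σ 0)
      refine hi ?_
      simpa using h1
    · intro h
      exact absurd (Finset.mem_univ _) h
  rw [key]

omit [Fintype ι] in
theorem CAR_mu (i : ι) (y : Ix a b ι) :
    mu i (u y : T a b ι) = u ((Fin.cons i y.1 : Fin (a + 1) → ι), y.2) := by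
  funext x
  show (if x.1 0 = i then (u y : T a b ι) (Fin.tail x.1, x.2) else 0) = _
  unfold u
  rw [Pi.single_apply, Pi.single_apply]
  by_cases h0 : x.1 0 = i
  · rw [if_pos h0]
    refine if_congr ?_ rfl rfl
    constructor
    · intro h
      have h1 := congrArg Prod.fst h
      have h2 := congrArg Prod.snd h
      refine Prod.ext ?_ h2
      show x.1 = Fin.cons i y.1
      rw [← h1, ← h0]
      exact (Fin.cons_self_tail x.1).symm
    · intro h
      rw [h]
      rfl
  · rw [if_neg h0, if_neg]
    intro h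
    exact h0 (by rw [h]; rfl)

omit [Fintype ι] [DecidableEq ι] in
/-- expansion of an alternating sum along the first entry -/
theorem CAR_sum {Q : Type} [AddCommGroup Q] [Module ℂ Q] (n : ℕ)
    (G : (Fin n → ι) → Q)
    (hG : ∀ (τ : Equiv.Perm (Fin n)) (y : Fin n → ι), G (y ∘ τ) =
      (((Equiv.Perm.sign τ : ℤ) : ℂ)) • G y) (j : Fin (n + 1) → ι) :
    ∑ σ : Equiv.Perm (Fin (n + 1)), (((Equiv.Perm.sign σ : ℤ) : ℂ)) • G (Fin.tail (j ∘ σ)) =
      (n.factorial : ℂ) • ∑ p : Fin (n + 1), (if p = 0 then (1 : ℂ) else -1) •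
        G (fun s => j (Equiv.swap 0 p s.succ)) := by
  rw [← Equiv.sum_comp (Equiv.Perm.decomposeFin (n := n)).symm, Fintype.sum_prod_type,
    Finset.smul_sum]
  refine Finset.sum_congr rfl fun p _ => ?_
  have h1 : ∀ e : Equiv.Perm (Fin n),
      (((Equiv.Perm.sign (Equiv.Perm.decomposeFin.symm (p, e)) : ℤ) : ℂ)) •
        G (Fin.tail (j ∘ (Equiv.Perm.decomposeFin.symm (p, e) : Equiv.Perm (Fin (n + 1))))) =
      (if p = 0 then (1 : ℂ) else -1) • G (fun s => j (Equiv.swap 0 p s.succ)) := by
    intro e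
    have h2 : Fin.tail (j ∘ (Equiv.Perm.decomposeFin.symm (p, e) : Equiv.Perm (Fin (n + 1)))) =
        (fun s => j (Equiv.swap 0 p s.succ)) ∘ e := by
      funext s
      show j (Equiv.Perm.decomposeFin.symm (p, e) s.succ) = j (Equiv.swap 0 p (e s).succ)
      rw [Equiv.Perm.decomposeFin_symm_apply_succ]
    rw [h2, hG, smul_smul, Equiv.Perm.decomposeFin.symm_sign]
    have h3 : (((Equiv.Perm.sign e : ℤ) : ℂ)) * (((Equiv.Perm.sign e : ℤ) : ℂ)) = 1 := by
      rw [← Int.cast_mul, ← Units.val_mul, Int.units_mul_self]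
      simp
    congr 1
    by_cases hp : p = 0
    · rw [if_pos hp, if_pos hp, one_mul, h3]
    · rw [if_neg hp, if_neg hp]
      push_cast
      rw [mul_assoc, h3, mul_one]
  rw [Finset.sum_congr rfl fun e _ => h1 e, Finset.sum_const, Finset.card_univ,
    Fintype.card_perm, Fintype.card_fin, ← Nat.cast_smul_eq_nsmul ℂ]

end

theorem thm_CAR : St_CAR := by
  intro ι _ _ a b x i
  set q : T (a + 1) b ι →ₗ[S ι] (T (a + 1) b ι ⧸ RelA (a + 1) b ι) := (RelA (a + 1) b ι).mkQ
    with hq
  set G : (Fin (a + 1) → ι) → (T (a + 1) b ι ⧸ RelA (a + 1) b ι) := fun y => q (u (y, x.2))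
    with hGdef
  have qsm : ∀ (c : ℂ) (v : T (a + 1) b ι), q (c • v) = c • q v := fun c v => rfl
  have hG : ∀ (τ : Equiv.Perm (Fin (a + 1))) (y : Fin (a + 1) → ι), G (y ∘ τ) =
      (((Equiv.Perm.sign τ : ℤ) : ℂ)) • G y := by
    intro τ y
    show q _ = _ • q _
    rw [← qsm, ← sub_eq_zero, ← map_sub, hq, Submodule.mkQ_apply, Submodule.Quotient.mk_eq_zero]
    exact Submodule.subset_span (Or.inl ⟨τ, (y, x.2), rfl⟩)
  -- the first term
  have h1 : q (dl (u ((Fin.cons i x.1 : Fin (a + 2) → ι), x.2))) =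
      ((a + 1).factorial : ℂ) • (G x.1 - ∑ s : Fin (a + 1), G (Function.update x.1 s i)) := by
    rw [CAR_dl, map_sum]
    have h2 := CAR_sum (a + 1) G hG (Fin.cons i x.1 : Fin (a + 2) → ι)
    refine Eq.trans ?_ (h2.trans ?_)
    · exact Finset.sum_congr rfl fun σ _ => qsm _ _
    · congr 1
      rw [Fin.sum_univ_succ, if_pos rfl, one_smul, sub_eq_add_neg, ← Finset.sum_neg_distrib]
      refine congrArg₂ (· + ·) (congrArg G ?_) (Finset.sum_congr rfl fun s _ => ?_)
      · funext s
        rw [Equiv.swap_self]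
        rfl
      · rw [if_neg (Fin.succ_ne_zero s), neg_one_smul]
        refine congrArg Neg.neg (congrArg G ?_)
        funext t
        by_cases ht : t = s
        · subst ht
          rw [Equiv.swap_apply_right, Function.update_self]
          rfl
        · rw [Equiv.swap_apply_of_ne_of_ne (Fin.succ_ne_zero t)
            (fun h => ht (Fin.succ_injective _ h)), Function.update_of_ne ht]
          rfl
  -- the second term
  have h3 : q (mu i (dl (u x))) =
      (a.factorial : ℂ) • ∑ s : Fin (a + 1), G (Function.update x.1 s i) := by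
    have hG' : ∀ (τ : Equiv.Perm (Fin a)) (y : Fin a → ι),
        G (Fin.cons i (y ∘ τ) : Fin (a + 1) → ι) =
        (((Equiv.Perm.sign τ : ℤ) : ℂ)) • G (Fin.cons i y : Fin (a + 1) → ι) := by
      intro τ y
      have h4 : (Fin.cons i (y ∘ τ) : Fin (a + 1) → ι) = (Fin.cons i y : Fin (a + 1) → ι) ∘
          (Equiv.Perm.decomposeFin.symm (0, τ) : Equiv.Perm (Fin (a + 1))) := by
        funext s
        refine Fin.cases ?_ (fun t => ?_) s
        · show i = (Fin.cons i y : Fin (a + 1) → ι) (Equiv.Perm.decomposeFin.symm (0, τ) 0)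
          rw [Equiv.Perm.decomposeFin_symm_apply_zero]
          rfl
        · show y (τ t) = (Fin.cons i y : Fin (a + 1) → ι)
            (Equiv.Perm.decomposeFin.symm (0, τ) t.succ)
          rw [Equiv.Perm.decomposeFin_symm_apply_succ, Equiv.swap_self]
          rfl
      rw [h4, hG, Equiv.Perm.decomposeFin.symm_sign, if_pos rfl, one_mul]
    have h2 := CAR_sum a (fun y => G (Fin.cons i y : Fin (a + 1) → ι)) hG' x.1
    rw [CAR_dl, map_sum, map_sum]
    refine Eq.trans ?_ (h2.trans ?_)
    · refine Finset.sum_congr rfl fun σ _ => ?_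
      have h5 : mu i ((((Equiv.Perm.sign σ : ℤ) : ℂ)) •
          (u (Fin.tail (x.1 ∘ σ), x.2) : T a b ι)) = (((Equiv.Perm.sign σ : ℤ) : ℂ)) •
          mu i (u (Fin.tail (x.1 ∘ σ), x.2) : T a b ι) :=
        LinearMap.map_smul_of_tower _ _ _
      rw [h5, qsm, CAR_mu]
    · congr 1
      refine Finset.sum_congr rfl fun p _ => ?_
      have h6 : (Fin.cons i (fun s => x.1 (Equiv.swap 0 p s.succ)) : Fin (a + 1) → ι) =
          (Function.update x.1 p i) ∘ (Equiv.swap 0 p : Equiv.Perm (Fin (a + 1))) := by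
        funext s
        refine Fin.cases ?_ (fun t => ?_) s
        · show i = Function.update x.1 p i (Equiv.swap 0 p 0)
          rw [Equiv.swap_apply_left, Function.update_self]
        · show x.1 (Equiv.swap 0 p t.succ) = Function.update x.1 p i (Equiv.swap 0 p t.succ)
          rw [Function.update_of_ne]
          intro h
          have h7 : t.succ = 0 := by
            apply (Equiv.swap 0 p).injective
            rw [h, Equiv.swap_apply_left]
          exact Fin.succ_ne_zero t h7
      show (if p = 0 then (1 : ℂ) else -1) •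
        G (Fin.cons i (fun s => x.1 (Equiv.swap 0 p s.succ)) : Fin (a + 1) → ι) = _
      rw [h6, hG, smul_smul, Equiv.Perm.sign_swap']
      by_cases hp : p = 0
      · rw [if_pos hp, if_pos hp.symm]
        simp
      · rw [if_neg hp, if_neg (fun h => hp h.symm)]
        simp
  rw [← Submodule.Quotient.mk_eq_zero, ← Submodule.mkQ_apply, ← hq, map_sub, map_add, qsm, qsm,
    h1, h3]
  have h8 : q (u x) = G x.1 := rfl
  rw [h8, smul_smul, Nat.factorial_succ]
  push_cast
  module

end MDC
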