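import Pool.Agent.MDC.StA

/-!
# MDC / CNW: the counting identity for `rr`
-/

set_option autoImplicit false

open MvPolynomial

namespace MDC

open Finset

/-- the factor of an index -/
def CNW_f (w h : ℕ) : ℕ := if w = 0 then 1 else if w = 1 then h else h * (h - 1)

/-- the word of two subsets -/
def CNW_w (A B : Finset ℕ) (i : ℕ) : ℕ := (if i ∈ A then 1 else 0) + (if i ∈ B then 1 else 0)

/-- the product of the factors -/
def CNW_G (n : ℕ) (A B : Finset ℕ) : ℕ :=
  ∏ i ∈ range n, CNW_f (CNW_w A B i) (i - ∑ j ∈ range i, CNW_w A B j)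

/-- the sum of the products -/
def CNW_W (n a b : ℕ) : ℕ :=
  ∑ A ∈ (range n).powersetCard a, ∑ B ∈ (range n).powersetCard b, CNW_G n A B

theorem CNW_split (n a : ℕ) (f : Finset ℕ → ℕ) :
    ∑ A ∈ (range (n + 1)).powersetCard a, f A = ∑ A ∈ (range n).powersetCard a, f A +
      if 0 < a then ∑ A ∈ (range n).powersetCard (a - 1), f (insert n A) else 0 := by
  cases a with
  | zero => simp
  | succ a =>
    rw [range_add_one, powersetCard_succ_insert notMem_range_self, sum_union]
    · congr 1
      rw [if_pos (Nat.succ_pos a), sum_image]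
      · rfl
      · intro A hA B hB h
        have h1 : n ∉ A := fun h' => notMem_range_self ((mem_powersetCard.1 hA).1 h')
        have h2 : n ∉ B := fun h' => notMem_range_self ((mem_powersetCard.1 hB).1 h')
        rw [← erase_insert h1, ← erase_insert h2, h]
    · rw [disjoint_left]
      intro A hA hA'
      obtain ⟨B, hB, rfl⟩ := mem_image.1 hA'
      exact notMem_range_self ((mem_powersetCard.1 hA).1 (mem_insert_self n B))

theorem CNW_sum_w {n : ℕ} {A B : Finset ℕ} (hA : A ⊆ range n) (hB : B ⊆ range n) :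
    ∑ j ∈ range n, CNW_w A B j = A.card + B.card := by
  unfold CNW_w
  rw [sum_add_distrib]
  congr 1
  · rw [sum_boole, filter_mem_eq_inter, inter_eq_right.2 hA, Nat.cast_id]
  · rw [sum_boole, filter_mem_eq_inter, inter_eq_right.2 hB, Nat.cast_id]

theorem CNW_w_congr {A B A' B' : Finset ℕ} {n : ℕ} (hA : ∀ i < n, (i ∈ A ↔ i ∈ A'))
    (hB : ∀ i < n, (i ∈ B ↔ i ∈ B')) (i : ℕ) (hi : i < n) : CNW_w A B i = CNW_w A' B' i := by
  unfold CNW_w
  congr 1
  · exact if_congr (hA i hi) rfl rfl
  · exact if_congr (hB i hi) rfl rfl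

theorem CNW_G_congr {A B A' B' : Finset ℕ} {n : ℕ} (hA : ∀ i < n, (i ∈ A ↔ i ∈ A'))
    (hB : ∀ i < n, (i ∈ B ↔ i ∈ B')) : CNW_G n A B = CNW_G n A' B' := by
  unfold CNW_G
  refine prod_congr rfl fun i hi => ?_
  have hi' := mem_range.1 hi
  rw [CNW_w_congr hA hB i hi', sum_congr rfl fun j hj =>
    CNW_w_congr hA hB j ((mem_range.1 hj).trans hi')]

theorem CNW_G_succ {A B A' B' : Finset ℕ} {n : ℕ} (hA : A ⊆ range n) (hB : B ⊆ range n)
    (hA' : ∀ i < n, (i ∈ A' ↔ i ∈ A)) (hB' : ∀ i < n, (i ∈ B' ↔ i ∈ B)) :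
    CNW_G (n + 1) A' B' = CNW_G n A B * CNW_f (CNW_w A' B' n) (n - (A.card + B.card)) := by
  have h1 : CNW_G (n + 1) A' B' =
      CNW_G n A' B' * CNW_f (CNW_w A' B' n) (n - ∑ j ∈ range n, CNW_w A' B' j) := by
    unfold CNW_G
    rw [prod_range_succ]
  rw [h1, CNW_G_congr hA' hB', sum_congr rfl fun j hj =>
    CNW_w_congr hA' hB' j (mem_range.1 hj), CNW_sum_w hA hB]

theorem CNW_ins (n : ℕ) (A : Finset ℕ) (i : ℕ) (hi : i < n) : i ∈ insert n A ↔ i ∈ A := by
  rw [mem_insert]
  constructor
  · rintro (h | h)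
    · omega
    · exact h
  · exact Or.inr

theorem CNW_W_succ (n a b : ℕ) : CNW_W (n + 1) a b = CNW_W n a b +
    (if 0 < b then (n + 1 - a - b) * CNW_W n a (b - 1) else 0) +
    (if 0 < a then (n + 1 - a - b) * CNW_W n (a - 1) b else 0) +
    (if 0 < a ∧ 0 < b then (n + 2 - a - b) * (n + 1 - a - b) * CNW_W n (a - 1) (b - 1)
      else 0) := by
  have hn : n ∉ range n := notMem_range_self
  unfold CNW_W
  rw [CNW_split]
  have e1 : ∀ A ∈ (range n).powersetCard a, ∑ B ∈ (range (n + 1)).powersetCard b,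
      CNW_G (n + 1) A B = ∑ B ∈ (range n).powersetCard b, CNW_G n A B +
        if 0 < b then (n + 1 - a - b) * ∑ B ∈ (range n).powersetCard (b - 1), CNW_G n A B
          else 0 := by
    intro A hA
    obtain ⟨hA1, hA2⟩ := mem_powersetCard.1 hA
    rw [CNW_split]
    congr 1
    · refine sum_congr rfl fun B hB => ?_
      obtain ⟨hB1, hB2⟩ := mem_powersetCard.1 hB
      rw [CNW_G_succ hA1 hB1 (fun _ _ => Iff.rfl) (fun _ _ => Iff.rfl)]
      have : CNW_w A B n = 0 := by
        unfold CNW_w
        rw [if_neg fun h => hn (hA1 h), if_neg fun h => hn (hB1 h)]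
      rw [this, CNW_f, if_pos rfl, mul_one]
    · by_cases hb : 0 < b
      · rw [if_pos hb, if_pos hb, mul_sum]
        refine sum_congr rfl fun B hB => ?_
        obtain ⟨hB1, hB2⟩ := mem_powersetCard.1 hB
        rw [CNW_G_succ hA1 hB1 (fun _ _ => Iff.rfl) (CNW_ins n B)]
        have : CNW_w A (insert n B) n = 1 := by
          unfold CNW_w
          rw [if_neg fun h => hn (hA1 h), if_pos (mem_insert_self n B)]
        rw [this, CNW_f, if_neg one_ne_zero, if_pos rfl, hA2, hB2, mul_comm]
        congr 1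
        omega
      · rw [if_neg hb, if_neg hb]
  have e2 : ∀ A ∈ (range n).powersetCard (a - 1), 0 < a → ∑ B ∈ (range (n + 1)).powersetCard b,
      CNW_G (n + 1) (insert n A) B = (n + 1 - a - b) * ∑ B ∈ (range n).powersetCard b,
        CNW_G n A B + if 0 < b then (n + 2 - a - b) * (n + 1 - a - b) *
          ∑ B ∈ (range n).powersetCard (b - 1), CNW_G n A B else 0 := by
    intro A hA ha
    obtain ⟨hA1, hA2⟩ := mem_powersetCard.1 hA
    rw [CNW_split]
    congr 1
    · rw [mul_sum]
      refine sum_congr rfl fun B hB => ?_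
      obtain ⟨hB1, hB2⟩ := mem_powersetCard.1 hB
      rw [CNW_G_succ hA1 hB1 (CNW_ins n A) (fun _ _ => Iff.rfl)]
      have : CNW_w (insert n A) B n = 1 := by
        unfold CNW_w
        rw [if_pos (mem_insert_self n A), if_neg fun h => hn (hB1 h)]
      rw [this, CNW_f, if_neg one_ne_zero, if_pos rfl, hA2, hB2, mul_comm]
      congr 1
      omega
    · by_cases hb : 0 < b
      · rw [if_pos hb, if_pos hb, mul_sum]
        refine sum_congr rfl fun B hB => ?_
        obtain ⟨hB1, hB2⟩ := mem_powersetCard.1 hB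
        rw [CNW_G_succ hA1 hB1 (CNW_ins n A) (CNW_ins n B)]
        have : CNW_w (insert n A) (insert n B) n = 2 := by
          unfold CNW_w
          rw [if_pos (mem_insert_self n A), if_pos (mem_insert_self n B)]
        rw [this, CNW_f, if_neg two_ne_zero, if_neg (by norm_num), hA2, hB2, mul_comm]
        have h1 : n - (a - 1 + (b - 1)) = n + 2 - a - b := by omega
        have h2 : n - (a - 1 + (b - 1)) - 1 = n + 1 - a - b := by omega
        rw [h2, h1]
      · rw [if_neg hb, if_neg hb]
  rw [sum_congr rfl e1, sum_add_distrib]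
  by_cases ha : 0 < a
  · rw [if_pos ha, if_pos ha, sum_congr rfl fun A hA => e2 A hA ha, sum_add_distrib]
    by_cases hb : 0 < b
    · rw [if_pos hb, if_pos ⟨ha, hb⟩]
      simp only [if_pos hb]
      rw [← mul_sum, ← mul_sum, ← mul_sum]
      ring
    · have hab : ¬ (0 < a ∧ 0 < b) := fun h => hb h.2
      rw [if_neg hb, if_neg hab]
      simp only [if_neg hb]
      rw [← mul_sum]
      simp
  · have hab : ¬ (0 < a ∧ 0 < b) := fun h => ha h.1
    rw [if_neg ha, if_neg ha, if_neg hab]
    by_cases hb : 0 < b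
    · rw [if_pos hb]
      simp only [if_pos hb]
      rw [← mul_sum]
    · rw [if_neg hb]
      simp only [if_neg hb]
      simp

theorem CNW_vanish (n : ℕ) : ∀ a b : ℕ, n ≤ a + b → 1 ≤ a + b → CNW_W n a b = 0 := by
  induction n with
  | zero =>
    intro a b _ h
    unfold CNW_W
    rcases Nat.eq_zero_or_pos a with ha | ha
    · refine sum_eq_zero fun A _ => ?_
      rw [powersetCard_eq_empty.2 (by rw [card_range]; omega), sum_empty]
    · rw [powersetCard_eq_empty.2 (by rw [card_range]; omega), sum_empty]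
  | succ n ih =>
    intro a b h h1
    have h2 : n + 1 - a - b = 0 := by omega
    rw [CNW_W_succ, ih a b (by omega) h1, h2]
    simp

theorem CNW_main (n : ℕ) : ∀ a b : ℕ, (n - (a + b)).factorial * CNW_W n a b = rr n a b := by
  induction n with
  | zero =>
    intro a b
    rw [rr]
    by_cases h : a = 0 ∧ b = 0
    · obtain ⟨rfl, rfl⟩ := h
      simp [CNW_W, CNW_G]
    · rw [if_neg h, CNW_vanish 0 a b (Nat.zero_le _) (by omega), mul_zero]
  | succ n ih =>
    intro a b
    rw [rr]
    by_cases hab : n + 1 ≤ a + b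
    · have h2 : n + 1 - a - b = 0 := by omega
      rw [h2, zero_mul, CNW_vanish (n + 1) a b hab (by omega), mul_zero]
    · have h1 : n + 1 - a - b = (n - (a + b)) + 1 := by omega
      have h3 : n + 1 - (a + b) = (n - (a + b)) + 1 := by omega
      rw [CNW_W_succ, ← ih a b, h1, h3]
      have e1 : (if 0 < a then rr n (a - 1) b else 0) =
          if 0 < a then ((n - (a + b)) + 1).factorial * CNW_W n (a - 1) b else 0 := by
        by_cases ha : 0 < a
        · rw [if_pos ha, if_pos ha, ← ih (a - 1) b]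
          congr 2
          omega
        · rw [if_neg ha, if_neg ha]
      have e2 : (if 0 < b then rr n a (b - 1) else 0) =
          if 0 < b then ((n - (a + b)) + 1).factorial * CNW_W n a (b - 1) else 0 := by
        by_cases hb : 0 < b
        · rw [if_pos hb, if_pos hb, ← ih a (b - 1)]
          congr 2
          omega
        · rw [if_neg hb, if_neg hb]
      have e3 : (if 0 < a ∧ 0 < b then rr n (a - 1) (b - 1) else 0) =
          if 0 < a ∧ 0 < b then (n + 2 - a - b) * (((n - (a + b)) + 1).factorial *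
            CNW_W n (a - 1) (b - 1)) else 0 := by
        by_cases h : 0 < a ∧ 0 < b
        · rw [if_pos h, if_pos h, ← ih (a - 1) (b - 1)]
          have h4 : n - (a - 1 + (b - 1)) = (n - (a + b)) + 1 + 1 := by omega
          have h5 : n + 2 - a - b = (n - (a + b)) + 1 + 1 := by omega
          rw [h4, h5, Nat.factorial_succ ((n - (a + b)) + 1)]
          ring
        · rw [if_neg h, if_neg h]
      rw [e1, e2, e3, Nat.factorial_succ]
      split_ifs <;> ring

theorem CNW_pw {n p : ℕ} (hp : p ≤ n) (g : ℕ → ℕ) :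
    ∑ i ∈ univ.filter (fun i : Fin n => i.val < p), g i.val = ∑ j ∈ range p, g j := by
  rw [sum_filter, Fin.sum_univ_eq_sum_range (fun i => if i < p then g i else 0) n, ← sum_filter]
  congr 1
  ext i
  simp only [mem_filter, mem_range]
  omega

theorem thm_CNW : St_CNW := by
  intro n a b
  rw [← CNW_main]
  have hr : range n = (univ : Finset (Fin n)).map Fin.valEmbedding := by
    ext i
    simp only [mem_range, mem_map, mem_univ, true_and, Fin.valEmbedding_apply]
    exact ⟨fun h => ⟨⟨i, h⟩, rfl⟩, fun ⟨j, hj⟩ => hj ▸ j.2⟩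
  have hm : ∀ (c : ℕ) (f : Finset ℕ → ℕ), ∑ A ∈ (range n).powersetCard c, f A =
      ∑ A ∈ (univ : Finset (Fin n)).powersetCard c, f (A.map Fin.valEmbedding) := by
    intro c f
    rw [hr, powersetCard_map, sum_map]
    rfl
  unfold CNW_W
  rw [hm, mul_sum]
  refine sum_congr rfl fun A hA => ?_
  rw [hm, mul_sum]
  refine sum_congr rfl fun B hB => ?_
  obtain ⟨-, hA2⟩ := mem_powersetCard.1 hA
  obtain ⟨-, hB2⟩ := mem_powersetCard.1 hB
  have hw : ∀ i : Fin n, (if i ∈ A then 1 else 0) + (if i ∈ B then 1 else 0) =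
      CNW_w (A.map Fin.valEmbedding) (B.map Fin.valEmbedding) i.val := by
    intro i
    unfold CNW_w
    congr 1
    · refine if_congr ?_ rfl rfl
      exact (mem_map' Fin.valEmbedding).symm
    · refine if_congr ?_ rfl rfl
      exact (mem_map' Fin.valEmbedding).symm
  have hw' : (fun i : Fin n => (if i ∈ A then 1 else 0) + (if i ∈ B then 1 else 0)) =
      fun i : Fin n => CNW_w (A.map Fin.valEmbedding) (B.map Fin.valEmbedding) i.val :=
    funext hw
  have hsub : ∀ C : Finset (Fin n), C.map Fin.valEmbedding ⊆ range n := by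
    intro C
    rw [hr]
    exact map_subset_map.2 (subset_univ C)
  rw [hw', cw]
  congr 1
  · rw [Fin.sum_univ_eq_sum_range (fun i => CNW_w (A.map Fin.valEmbedding)
      (B.map Fin.valEmbedding) i) n, CNW_sum_w (hsub A) (hsub B), card_map, card_map, hA2, hB2]
  · unfold CNW_G
    rw [← Fin.prod_univ_eq_prod_range (fun i => CNW_f (CNW_w (A.map Fin.valEmbedding)
      (B.map Fin.valEmbedding) i) (i - ∑ j ∈ range i, CNW_w (A.map Fin.valEmbedding)
        (B.map Fin.valEmbedding) j)) n]
    refine prod_congr rfl fun i _ => ?_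
    rw [pw, CNW_pw i.2.le, CNW_f]

end MDC
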