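import Pool.Agent.MDC.StC

/-!
# MDC / CRR: the traces agree on the complements (analogue of `Pool/Agent/MDH/COR.lean`)
-/

set_option autoImplicit false

open MvPolynomial

namespace MDC

private theorem CRR_trace {E : Type} [AddCommGroup E] [Module ℂ E] (V L : Submodule ℂ E)
    (hc : IsCompl V L) (g : E →ₗ[ℂ] E) (hV : ∀ c ∈ V, g c ∈ V) (hL : L ≤ L.comap g) :
    LinearMap.trace ℂ (E ⧸ L) (L.mapQ L g hL) = LinearMap.trace ℂ V (g.restrict hV) := by
  set e : (E ⧸ L) ≃ₗ[ℂ] V := Submodule.quotientEquivOfIsCompl L V hc.symm with he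
  have h1 : g.restrict hV = e.conj (L.mapQ L g hL) := by
    apply LinearMap.ext
    intro x
    rw [LinearEquiv.conj_apply_apply, he, Submodule.quotientEquivOfIsCompl_symm_apply,
      Submodule.mapQ_apply]
    have h2 : g (x : E) = ((g.restrict hV x : V) : E) := rfl
    rw [h2, Submodule.quotientEquivOfIsCompl_apply_mk_right]
  rw [h1, LinearMap.trace_conj']

theorem thm_CRR (hINZ : St_INZ) (hEOP : St_EOP) (hPWR : St_PWR) (hUPG : St_UPG) (hACT : St_ACT)
    (hFDG : St_FDG) (hCOM : St_COM) (hSPN : St_SPN) (hINA : MDH.St_INA) (hTRA : MDH.St_TRA) :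
    St_CRR := by
  intro ι _ _ a b m hab hz
  obtain ⟨a1, a2, a3, a4, a5, a6, a7, a8, a9, a10, a11⟩ := hACT.1 ι a b
  obtain ⟨b1, b2, b3, b4, b5, b6⟩ := hACT.2 ι a b
  obtain ⟨f1, f2, f3, f4, f5, f6, f7, f8, f9⟩ := hFDG ι a b
  -- the complements
  obtain ⟨VE, hhE, hsE, hcE⟩ := hCOM ι a b
    ((Lop (ecC m) : Submodule (S ι) (T a b ι)).restrictScalars ℂ) (b6 m).2.1 (b6 m).1
  obtain ⟨VP, hhP, hsP, hcP⟩ := hCOM ι a b ((LP a b ι).restrictScalars ℂ) b4 b3
  obtain ⟨hfE, hrE, hINJE, htrE⟩ := hINZ ι a b m hab hz VE hsE hhE hcE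
  obtain ⟨hfL, hrL⟩ := (hUPG ι a b m hab).2
  have hcP2 : IsCompl VP ((Lop (thC m) : Submodule (S ι) (T a b ι)).restrictScalars ℂ) := by
    rw [← hPWR ι a b m hab]
    exact hcP
  set eP : (T a b ι ⧸ (LP a b ι).restrictScalars ℂ) ≃ₗ[ℂ] VP :=
    Submodule.quotientEquivOfIsCompl _ VP hcP.symm with heP
  have hfP : Module.Finite ℂ VP := Module.Finite.equiv eP
  have hrP : Module.finrank ℂ VP =
      Module.finrank ℂ (T a b ι ⧸ (LP a b ι).restrictScalars ℂ) := eP.finrank_eq.symm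
  -- multiplication operators
  have hEh : ∀ (k : Fin m) (x : Ix a b ι), (ecC m k x : S ι).IsHomogeneous (k.val + 1) :=
    fun k x => a8 (k.val + 1) x
  have hThomog : ∀ (k : Fin m) (x : Ix a b ι), (thC m k x : S ι).IsHomogeneous (k.val + 1) :=
    fun k x => a9 m k x
  have hER : ∀ (k : Fin m), ∀ c ∈ Rel a b ι, ecC m k * c ∈ Rel a b ι :=
    fun k c hc => hEOP ι a b (k.val + 1) c hc
  have hTR : ∀ (k : Fin m), ∀ c ∈ Rel a b ι, thC m k * c ∈ Rel a b ι := by
    intro k c hc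
    have h1 : thC m k * c = (psum ι ℂ (k.val + 1) : S ι) • c := rfl
    rw [h1]
    exact (Rel a b ι).smul_mem _ hc
  have hSPE : MDH.SP (Fd a b ι) (ecC m) ((Rel a b ι).restrictScalars ℂ) VE :=
    hSPN ι a b m (ecC m) VE hEh hER b2 hhE hcE.sup_eq_top
  have hSPP : MDH.SP (Fd a b ι) (thC m) ((Rel a b ι).restrictScalars ℂ) VP :=
    hSPN ι a b m (thC m) VP hThomog hTR b2 hhP hcP2.sup_eq_top
  have hEF : ∀ (k : Fin m) (i : ℕ), ∀ c ∈ Fd a b ι i, ecC m k * c ∈ Fd a b ι (i + (k.val + 1)) :=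
    fun k i c hc => f7 (k.val + 1) i (ecC m k) (hEh k) c hc
  have hTF : ∀ (k : Fin m) (i : ℕ), ∀ c ∈ Fd a b ι i, thC m k * c ∈ Fd a b ι (i + (k.val + 1)) :=
    fun k i c hc => f7 (k.val + 1) i (thC m k) (hThomog k) c hc
  have hINJP : MDH.INJ (thC m) ((Rel a b ι).restrictScalars ℂ) VP :=
    hINA (T a b ι) m (Fd a b ι) (thC m) (ecC m) ((Rel a b ι).restrictScalars ℂ) VP VE
      f1 f2 f3 hEF (fun k c hc => hTR k c hc) hfP hfE (by rw [hrP, hrE]; exact hrL) hSPP hINJE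
  have htr : ∀ w : Equiv.Perm ι, LinearMap.trace ℂ VE ((actT w).restrict (hsE w)) =
      LinearMap.trace ℂ VP ((actT w).restrict (hsP w)) := by
    intro w
    exact hTRA (T a b ι) m (Fd a b ι) (ecC m) (thC m) ((Rel a b ι).restrictScalars ℂ) VE VP
      (actT w) (hsE w) (hsP w) f1 f2 f3 hEF hTF (fun i c hc => a10 w i c hc)
      (fun c hc => b1 w c hc) (fun k c => by rw [a3]; congr 1; exact a6 w (k.val + 1))
      (fun k c => by rw [a3, a7]) hfE hfP hSPE hSPP hINJE hINJP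
  refine ⟨hfL, ?_, ?_⟩
  · have h1 := htr 1
    have hE1 : (actT 1 : T a b ι →ₗ[ℂ] T a b ι).restrict (hsE 1) = LinearMap.id := by
      apply LinearMap.ext
      intro x
      apply Subtype.ext
      exact a1 (x : T a b ι)
    have hP1 : (actT 1 : T a b ι →ₗ[ℂ] T a b ι).restrict (hsP 1) = LinearMap.id := by
      apply LinearMap.ext
      intro x
      apply Subtype.ext
      exact a1 (x : T a b ι)
    rw [hE1, hP1, LinearMap.trace_id, LinearMap.trace_id, hrE, hrP] at h1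
    exact_mod_cast h1.symm
  · intro z hzi w
    rw [htrE z hzi w, htr w]
    have hst : (LP a b ι).restrictScalars ℂ ≤ ((LP a b ι).restrictScalars ℂ).comap (actT w) :=
      fun c hc => b3 w c hc
    unfold qtr
    rw [dif_pos hst]
    exact (CRR_trace VP _ hcP (actT w) (hsP w) hst).symm

end MDC
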