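import Pool.Agent.MDC.StD

/-!
# MDC, module DIM: dimension for one point
-/

set_option autoImplicit false

open MvPolynomial

namespace MDC

namespace DIM

private theorem fin_of_top {ι : Type} [Fintype ι] [DecidableEq ι] (hTOP : St_TOP) {a b : ℕ}
    (h1 : 1 ≤ Fintype.card ι) (h : Fintype.card ι ≤ a + b) :
    Subsingleton (T a b ι ⧸ (LP a b ι).restrictScalars ℂ) := by
  rw [Submodule.Quotient.subsingleton_iff]
  have e : LP a b ι = ⊤ := by
    unfold LP
    rw [hTOP ι a b h1 h, top_sup_eq]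
  rw [e]
  rfl

private theorem fin_all {ι : Type} [Fintype ι] [DecidableEq ι] (hTOP : St_TOP) (hUPG : St_UPG)
    (a b : ℕ) (h1 : 1 ≤ Fintype.card ι) :
    Module.Finite ℂ (T a b ι ⧸ (LP a b ι).restrictScalars ℂ) := by
  rcases Nat.le_total (a + b) (Fintype.card ι) with h | h
  · exact (hUPG ι a b (Fintype.card ι - (a + b)) (by omega)).2.1
  · have := fin_of_top hTOP h1 h
    infer_instance

private theorem qtr_one {ι : Type} [Fintype ι] [DecidableEq ι] (hACT : St_ACT) {a b : ℕ}
    (K : Submodule (S ι) (T a b ι)) [Module.Finite ℂ (T a b ι ⧸ K.restrictScalars ℂ)] :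
    qtr K 1 = (Module.finrank ℂ (T a b ι ⧸ K.restrictScalars ℂ) : ℂ) := by
  have h1 : (actT 1 : T a b ι →ₗ[ℂ] T a b ι) = LinearMap.id :=
    LinearMap.ext ((hACT.1 ι a b).1)
  have h : K.restrictScalars ℂ ≤ (K.restrictScalars ℂ).comap (actT 1 : T a b ι →ₗ[ℂ] T a b ι) := by
    rw [h1, Submodule.comap_id]
  unfold qtr
  rw [dif_pos h]
  have h2 : (K.restrictScalars ℂ).mapQ (K.restrictScalars ℂ) (actT 1) h = LinearMap.id := by
    apply LinearMap.ext
    intro y
    obtain ⟨c, rfl⟩ := Submodule.mkQ_surjective _ y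
    change (K.restrictScalars ℂ).mkQ (actT 1 c) = (K.restrictScalars ℂ).mkQ c
    rw [(hACT.1 ι a b).1]
  rw [h2, LinearMap.trace_id]

/-- signed number of the permutations fixing `k` -/
private theorem sgn_sum {ι : Type} [DecidableEq ι] {c : ℕ} (k : Fin c → ι) :
    ∑ σ : Equiv.Perm (Fin c), (if k = k ∘ σ then ((Equiv.Perm.sign σ : ℤ) : ℂ) else 0) =
      if Function.Injective k then 1 else 0 := by
  by_cases h : Function.Injective k
  · rw [if_pos h, Finset.sum_eq_single 1]
    · simp
    · intro σ _ hσ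
      rw [if_neg]
      intro h'
      apply hσ
      ext i
      have := congrFun h' i
      exact congrArg Fin.val (h this).symm
    · intro h'
      exact absurd (Finset.mem_univ _) h'
  · rw [if_neg h]
    obtain ⟨i, j, hij, hne⟩ : ∃ i j, k i = k j ∧ i ≠ j := by
      unfold Function.Injective at h
      push Not at h
      exact h
    have hks : k ∘ Equiv.swap i j = k := by
      funext t
      change k (Equiv.swap i j t) = k t
      by_cases hi : t = i
      · rw [hi, Equiv.swap_apply_left, hij]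
      · by_cases hj : t = j
        · rw [hj, Equiv.swap_apply_right, hij]
        · rw [Equiv.swap_apply_of_ne_of_ne hi hj]
    have hS := Equiv.sum_comp (Equiv.mulRight (Equiv.swap i j))
      (fun σ : Equiv.Perm (Fin c) => (if k = k ∘ σ then ((Equiv.Perm.sign σ : ℤ) : ℂ) else 0))
    have hneg : ∑ σ : Equiv.Perm (Fin c), (if k = k ∘ (Equiv.mulRight (Equiv.swap i j) σ) then
        ((Equiv.Perm.sign (Equiv.mulRight (Equiv.swap i j) σ) : ℤ) : ℂ) else 0) =
        -∑ σ : Equiv.Perm (Fin c), (if k = k ∘ σ then ((Equiv.Perm.sign σ : ℤ) : ℂ) else 0) := by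
      rw [← Finset.sum_neg_distrib]
      refine Finset.sum_congr rfl (fun σ _ => ?_)
      have hc : k = k ∘ (Equiv.mulRight (Equiv.swap i j) σ) ↔ k = k ∘ σ := by
        have e1 : k ∘ (Equiv.mulRight (Equiv.swap i j) σ) = (k ∘ σ) ∘ Equiv.swap i j := rfl
        rw [e1]
        constructor
        · intro h'
          have h2 : k ∘ (Equiv.swap i j : Fin c → Fin c) =
              ((k ∘ σ) ∘ Equiv.swap i j) ∘ (Equiv.swap i j : Fin c → Fin c) :=
            congrArg (fun f => f ∘ (Equiv.swap i j : Fin c → Fin c)) h'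
          rw [hks, Function.comp_assoc] at h2
          have e2 : (Equiv.swap i j : Fin c → Fin c) ∘ (Equiv.swap i j) = id := by
            funext t
            exact Equiv.swap_apply_self i j t
          rwa [e2, Function.comp_id] at h2
        · intro h'
          rw [← h', hks]
      by_cases hk : k = k ∘ σ
      · rw [if_pos (hc.mpr hk), if_pos hk, Equiv.coe_mulRight, Equiv.Perm.sign_mul,
          Equiv.Perm.sign_swap hne]
        simp
      · rw [if_neg (fun h' => hk (hc.mp h')), if_neg hk, neg_zero]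
    have h3 := hneg.symm.trans hS
    have h4 : (2 : ℂ) * ∑ σ : Equiv.Perm (Fin c),
        (if k = k ∘ σ then ((Equiv.Perm.sign σ : ℤ) : ℂ) else 0) = 0 := by
      linear_combination -h3
    exact (mul_eq_zero.mp h4).resolve_left two_ne_zero

private theorem lt_one {ι : Type} [Fintype ι] [DecidableEq ι] (c : ℕ) :
    (lt c (1 : Equiv.Perm ι)) = ((Fintype.card ι).choose c : ℂ) := by
  classical
  unfold lt
  have h1 : ∑ σ : Equiv.Perm (Fin c), ((Equiv.Perm.sign σ : ℤ) : ℂ) *
      (((Finset.univ : Finset (Fin c → ι)).filter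
        (fun k => (fun t => (1 : Equiv.Perm ι) (k t)) = k ∘ σ)).card : ℂ) =
      ((Fintype.card ι).descFactorial c : ℂ) := by
    have e1 : ∀ σ : Equiv.Perm (Fin c), ((Equiv.Perm.sign σ : ℤ) : ℂ) *
      (((Finset.univ : Finset (Fin c → ι)).filter
        (fun k => (fun t => (1 : Equiv.Perm ι) (k t)) = k ∘ σ)).card : ℂ) =
        ∑ k : Fin c → ι, (if k = k ∘ σ then ((Equiv.Perm.sign σ : ℤ) : ℂ) else 0) := by
      intro σ
      rw [Finset.sum_ite, Finset.sum_const_zero, add_zero, Finset.sum_const, nsmul_eq_mul,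
        mul_comm]
      rfl
    rw [Finset.sum_congr rfl (fun σ _ => e1 σ), Finset.sum_comm,
      Finset.sum_congr rfl (fun k _ => sgn_sum k), Finset.sum_ite, Finset.sum_const_zero, add_zero,
      Finset.sum_const, nsmul_eq_mul, mul_one]
    congr 1
    have e2 := Fintype.card_embedding_eq (α := Fin c) (β := ι)
    rw [Fintype.card_fin] at e2
    rw [← e2, ← Fintype.card_congr (Equiv.subtypeInjectiveEquivEmbedding (Fin c) ι),
      Fintype.card_subtype]
  rw [h1, Nat.descFactorial_eq_factorial_mul_choose]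
  push_cast
  have h2 : (c.factorial : ℂ) ≠ 0 := by exact_mod_cast Nat.factorial_ne_zero c
  rw [← mul_assoc, inv_mul_cancel₀ h2, one_mul]

private theorem alt_choose (n : ℕ) (b : ℕ) :
    ∑ j ∈ Finset.range (b + 1), (-1 : ℂ) ^ j * ((n + 1).choose (b - j) : ℂ) = (n.choose b : ℂ) := by
  induction b with
  | zero => simp
  | succ b ih =>
    rw [Finset.sum_range_succ']
    have h : ∑ j ∈ Finset.range (b + 1), (-1 : ℂ) ^ (j + 1) * ((n + 1).choose (b + 1 - (j + 1)) : ℂ) =
        -∑ j ∈ Finset.range (b + 1), (-1 : ℂ) ^ j * ((n + 1).choose (b - j) : ℂ) := by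
      rw [← Finset.sum_neg_distrib]
      refine Finset.sum_congr rfl (fun j _ => ?_)
      rw [show b + 1 - (j + 1) = b - j by omega]
      ring
    rw [h, ih, Nat.sub_zero, pow_zero, one_mul, Nat.choose_succ_succ]
    push_cast
    ring

private theorem rr_zero {n a b : ℕ} (h1 : 1 ≤ n) (h : n ≤ a + b) : rr n a b = 0 := by
  obtain ⟨m, rfl⟩ : ∃ m, n = m + 1 := ⟨n - 1, by omega⟩
  rw [rr, show m + 1 - a - b = 0 by omega, zero_mul]

end DIM

theorem thm_DIM (hEXA : St_EXA) (hEXB : St_EXB) (hTOP : St_TOP) (hUPG : St_UPG) (hACT : St_ACT)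
    (hNMB : St_NMB) : St_DIM := by
  intro ι _ _ a b hab H
  have h1 : 1 ≤ Fintype.card ι := by omega
  have hfin := fun a' : ℕ => DIM.fin_all (ι := ι) hTOP hUPG a' b h1
  have hq : ∀ a' : ℕ, qtr (LP a' b ι) 1 =
      (Module.finrank ℂ (T a' b ι ⧸ (LP a' b ι).restrictScalars ℂ) : ℂ) := fun a' =>
    haveI := hfin a'
    DIM.qtr_one hACT (LP a' b ι)
  have e1 := hEXA ι b 1 h1
  have e2 := hEXB ι b 1 h1
  have e3 := hNMB (Fintype.card ι) b h1
  have e4 : qz b (1 : Equiv.Perm ι) = ((Fintype.card ι - 1).choose b : ℂ) := by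
    rw [e2, Finset.sum_congr rfl (fun j _ => by rw [DIM.lt_one (b - j)]), ← DIM.alt_choose,
      Nat.sub_add_cancel h1]
  have e5 : ∑ a' ∈ Finset.range (Fintype.card ι + 1), (-1 : ℂ) ^ a' *
      (rr (Fintype.card ι) a' b : ℂ) = ((Fintype.card ι - 1).choose b : ℂ) := by
    exact_mod_cast e3
  have key : ∑ a' ∈ Finset.range (Fintype.card ι + 1), (-1 : ℂ) ^ a' *
      ((Module.finrank ℂ (T a' b ι ⧸ (LP a' b ι).restrictScalars ℂ) : ℂ) -
        (rr (Fintype.card ι) a' b : ℂ)) = 0 := by
    simp only [mul_sub]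
    rw [Finset.sum_sub_distrib, e5, ← e4, ← e1, sub_eq_zero]
    exact Finset.sum_congr rfl (fun a' _ => by rw [hq a'])
  rw [Finset.sum_eq_single_of_mem a (Finset.mem_range.mpr (by omega))] at key
  · have h2 := (mul_eq_zero.mp key).resolve_left (pow_ne_zero _ (by norm_num))
    exact_mod_cast sub_eq_zero.mp h2
  · intro a' _ hne
    rcases Nat.lt_or_ge (a' + b) (Fintype.card ι) with h | h
    · rw [H a' b (Fintype.card ι - (a' + b)) (by omega) (by omega), sub_self, mul_zero]
    · have := DIM.fin_of_top (ι := ι) hTOP h1 h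
      rw [DIM.rr_zero h1 h, Module.finrank_zero_of_subsingleton, sub_self, mul_zero]

end MDC
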