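import Pool.Agent.MDC.StA

/-!
# MDC, module DPA (helper94): the derivative `dl` maps `RelP` into `Rel`
-/

set_option autoImplicit false

open MvPolynomial

namespace MDC

section

variable {a b : ℕ} {ι : Type} [Fintype ι] [DecidableEq ι]

private theorem dpa_ind (σ : Equiv.Perm (Fin (a + 1))) (x : Ix (a + 1) b ι) (y : Ix a b ι) :
    ∑ i : ι, (((Equiv.Perm.sign σ : ℤ) : ℂ)) •
      (u x : T (a + 1) b ι) ((Fin.cons i y.1 : Fin (a + 1) → ι) ∘ σ.symm, y.2) =
    (((Equiv.Perm.sign σ : ℤ) : ℂ)) • (u (Fin.tail (x.1 ∘ σ), x.2) : T a b ι) y := by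
  have hc : ∀ i : ι, ((Fin.cons i y.1 : Fin (a + 1) → ι) ∘ σ.symm, y.2) = x ↔
      (i = x.1 (σ 0) ∧ y = (Fin.tail (x.1 ∘ σ), x.2)) := by
    intro i
    constructor
    · intro h
      have h1 : (Fin.cons i y.1 : Fin (a + 1) → ι) ∘ σ.symm = x.1 := congrArg Prod.fst h
      have h2 : y.2 = x.2 := congrArg Prod.snd h
      have h3 : (Fin.cons i y.1 : Fin (a + 1) → ι) = x.1 ∘ σ := by
        rw [← h1]
        funext p
        simp
      refine ⟨?_, ?_⟩
      · have := congrFun h3 0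
        rwa [Fin.cons_zero] at this
      · refine Prod.ext ?_ h2
        rw [← h3, Fin.tail_cons]
    · rintro ⟨h1, h2⟩
      rw [h2]
      refine Prod.ext ?_ rfl
      show (Fin.cons i (Fin.tail (x.1 ∘ σ)) : Fin (a + 1) → ι) ∘ σ.symm = x.1
      have h3 : (Fin.cons i (Fin.tail (x.1 ∘ σ)) : Fin (a + 1) → ι) = x.1 ∘ σ := by
        rw [h1]
        exact Fin.cons_self_tail (x.1 ∘ σ)
      rw [h3]
      funext p
      simp
  rw [← Finset.smul_sum]
  congr 1
  by_cases hy : y = (Fin.tail (x.1 ∘ σ), x.2)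
  · rw [Finset.sum_eq_single (x.1 (σ 0))]
    · rw [(hc _).2 ⟨rfl, hy⟩, hy]
      unfold u
      rw [Pi.single_eq_same, Pi.single_eq_same]
    · intro i _ hi
      unfold u
      exact Pi.single_eq_of_ne (fun h => hi ((hc i).1 h).1) _
    · intro h
      exact absurd (Finset.mem_univ _) h
  · have h1 : (u (Fin.tail (x.1 ∘ σ), x.2) : T a b ι) y = 0 := by
      unfold u
      exact Pi.single_eq_of_ne hy _
    rw [h1]
    refine Finset.sum_eq_zero fun i _ => ?_
    unfold u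
    exact Pi.single_eq_of_ne (fun h => hy ((hc i).1 h).2) _

private theorem dpa_u (x : Ix (a + 1) b ι) : dl (u x) = ∑ σ : Equiv.Perm (Fin (a + 1)),
    (((Equiv.Perm.sign σ : ℤ) : ℂ)) • u (Fin.tail (x.1 ∘ σ), x.2) := by
  funext y
  rw [Finset.sum_apply]
  exact Finset.sum_congr rfl fun σ _ => dpa_ind σ x y

private theorem dpa_sgn (τ : Equiv.Perm (Fin (a + 1))) (x : Ix (a + 1) b ι) :
    dl (u (x.1 ∘ τ, x.2)) = (((Equiv.Perm.sign τ : ℤ) : ℂ)) • dl (u x) := by
  rw [dpa_u, dpa_u, Finset.smul_sum]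
  refine Fintype.sum_equiv (Equiv.mulLeft τ) _ _ fun σ => ?_
  show (((Equiv.Perm.sign σ : ℤ) : ℂ)) • u (Fin.tail ((x.1 ∘ τ) ∘ σ), x.2) =
    (((Equiv.Perm.sign τ : ℤ) : ℂ)) • (((Equiv.Perm.sign (τ * σ) : ℤ) : ℂ)) •
      u (Fin.tail (x.1 ∘ (τ * σ)), x.2)
  rw [Equiv.Perm.sign_mul, smul_smul]
  have h1 : (((Equiv.Perm.sign τ : ℤ) : ℂ)) * ((((Equiv.Perm.sign τ * Equiv.Perm.sign σ : ℤˣ) : ℤ)) : ℂ) =
      ((Equiv.Perm.sign σ : ℤ) : ℂ) := by
    rcases Int.units_eq_one_or (Equiv.Perm.sign τ) with h | h <;> rw [h] <;> push_cast <;> ring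
  rw [h1]
  rfl

private theorem dpa_csmul (z : ℂ) (v : T (a + 1) b ι) :
    (dl (z • v) : T a b ι) = z • dl v := by
  have h : z • v = (C z : S ι) • v := by
    funext y
    show z • v y = C z * v y
    rw [MvPolynomial.smul_eq_C_mul]
  have h' : ∀ w : T a b ι, z • w = (C z : S ι) • w := by
    intro w
    funext y
    show z • w y = C z * w y
    rw [MvPolynomial.smul_eq_C_mul]
  rw [h, map_smul, h']

private theorem dpa_mem (N : Submodule (S ι) (T a b ι)) (z : ℂ) (v : T a b ι) (hv : v ∈ N) :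
    z • v ∈ N := by
  have h' : z • v = (C z : S ι) • v := by
    funext y
    show z • v y = C z * v y
    rw [MvPolynomial.smul_eq_C_mul]
  rw [h']
  exact Submodule.smul_mem _ _ hv

private theorem dpa_rA (τ : Equiv.Perm (Fin (a + 1))) (x : Ix (a + 1) b ι) :
    (dl (rA τ x) : T a b ι) = 0 := by
  unfold rA
  rw [map_sub, dpa_csmul, dpa_sgn, sub_self]

private theorem dpa_rB (τ : Equiv.Perm (Fin b)) (x : Ix (a + 1) b ι) :
    (dl (rB τ x) : T a b ι) = ∑ σ : Equiv.Perm (Fin (a + 1)),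
      (((Equiv.Perm.sign σ : ℤ) : ℂ)) • rB τ (Fin.tail (x.1 ∘ σ), x.2) := by
  have h0 : (dl (rB τ x) : T a b ι) = dl (u (x.1, x.2 ∘ τ)) -
      (((Equiv.Perm.sign τ : ℤ) : ℂ)) • dl (u x) := by
    unfold rB
    rw [map_sub, dpa_csmul]
  rw [h0, dpa_u, dpa_u, Finset.smul_sum, ← Finset.sum_sub_distrib]
  refine Finset.sum_congr rfl fun σ _ => ?_
  unfold rB
  rw [smul_sub, smul_comm]

private theorem dpa_rPh (s : Fin (a + 1)) (t : Fin b) (x : Ix (a + 1) b ι) (l : ℕ) :
    (dl (rPh s t x l) : T a b ι) ∈ Rel a b ι := by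
  have h1 : (dl (rPh s t x l) : T a b ι) = ∑ σ : Equiv.Perm (Fin (a + 1)),
      (((Equiv.Perm.sign σ : ℤ) : ℂ)) • ∑ i : ι, ((X i : S ι) ^ l) •
        u (Fin.tail (Function.update x.1 s i ∘ σ), Function.update x.2 t i) := by
    unfold rPh
    rw [map_sum]
    simp only [Finset.smul_sum]
    rw [Finset.sum_comm]
    refine Finset.sum_congr rfl fun i _ => ?_
    rw [map_smul, dpa_u, Finset.smul_sum]
    refine Finset.sum_congr rfl fun σ _ => ?_
    funext y
    show (X i : S ι) ^ l * ((((Equiv.Perm.sign σ : ℤ) : ℂ)) • (u (Fin.tail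
      (Function.update x.1 s i ∘ σ), Function.update x.2 t i) : T a b ι) y) =
      (((Equiv.Perm.sign σ : ℤ) : ℂ)) • ((X i : S ι) ^ l * (u (Fin.tail
      (Function.update x.1 s i ∘ σ), Function.update x.2 t i) : T a b ι) y)
    rw [MvPolynomial.smul_eq_C_mul, MvPolynomial.smul_eq_C_mul]
    ring
  rw [h1]
  refine Submodule.sum_mem _ fun σ _ => dpa_mem _ _ _ ?_
  have hup : ∀ i : ι, Function.update x.1 s i ∘ σ = Function.update (x.1 ∘ σ) (σ.symm s) i := by
    intro i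
    funext p
    by_cases h : p = σ.symm s
    · subst h
      simp
    · have h2 : σ p ≠ s := fun h3 => h (by rw [← h3]; simp)
      rw [Function.update_of_ne h]
      show Function.update x.1 s i (σ p) = x.1 (σ p)
      rw [Function.update_of_ne h2]
  rcases Fin.eq_zero_or_eq_succ (σ.symm s) with h0 | ⟨s', h0⟩
  · have h2 : ∑ i : ι, ((X i : S ι) ^ l) •
        u (Fin.tail (Function.update x.1 s i ∘ σ), Function.update x.2 t i) =
        (rEt t (Fin.tail (x.1 ∘ σ), x.2) l : T a b ι) := by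
      unfold rEt
      refine Finset.sum_congr rfl fun i _ => ?_
      rw [hup, h0, Fin.tail_update_zero]
    rw [h2]
    exact Submodule.mem_sup_right (Submodule.subset_span (Or.inr ⟨t, _, l, rfl⟩))
  · have h2 : ∑ i : ι, ((X i : S ι) ^ l) •
        u (Fin.tail (Function.update x.1 s i ∘ σ), Function.update x.2 t i) =
        (rPh s' t (Fin.tail (x.1 ∘ σ), x.2) l : T a b ι) := by
      unfold rPh
      refine Finset.sum_congr rfl fun i _ => ?_
      rw [hup, h0, Fin.tail_update_succ]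
    rw [h2]
    exact Submodule.mem_sup_left (Submodule.mem_sup_right
      (Submodule.subset_span ⟨s', t, _, l, rfl⟩))

private theorem dpa_A : ∀ c ∈ RelA (a + 1) b ι, (dl c : T a b ι) ∈ RelA a b ι := by
  have key : RelA (a + 1) b ι ≤ (RelA a b ι).comap dl := by
    refine Submodule.span_le.2 ?_
    rintro g (⟨τ, x, rfl⟩ | ⟨τ, x, rfl⟩)
    · show dl (rA τ x) ∈ RelA a b ι
      rw [dpa_rA]
      exact Submodule.zero_mem _
    · show dl (rB τ x) ∈ RelA a b ι
      rw [dpa_rB]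
      exact Submodule.sum_mem _ fun σ _ => dpa_mem _ _ _
        (Submodule.subset_span (Or.inr ⟨τ, _, rfl⟩))
  exact fun c hc => key hc

end

theorem thm_DPA : St_DPA := by
  intro ι _ _ a b
  refine ⟨dpa_u, dpa_sgn, dpa_A, ?_⟩
  have key : RelP (a + 1) b ι ≤ (Rel a b ι).comap dl := by
    refine sup_le ?_ (Submodule.span_le.2 ?_)
    · intro c hc
      exact Submodule.mem_sup_left (Submodule.mem_sup_left (dpa_A c hc))
    · rintro g ⟨s, t, x, l, rfl⟩
      exact dpa_rPh s t x l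
  exact fun c hc => key hc

end MDC
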