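import Pool.Agent.MDC.StD

/-!
# MDC: module DST, the homotopy `dst`
-/

set_option autoImplicit false
set_option linter.unusedSectionVars false


open MvPolynomial

namespace MDC

section

variable {a b : ℕ} {ι : Type} [Fintype ι] [DecidableEq ι]

private theorem DST_u_apply (x y : Ix a b ι) : (u x : T a b ι) y = if y = x then 1 else 0 := by
  unfold u; rw [Pi.single_apply]

private theorem DST_expand (g : T a b ι) : g = ∑ x : Ix a b ι, g x • u x := by
  funext y
  rw [Finset.sum_apply]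
  simp [DST_u_apply]

private theorem DST_cons_iff (x : Ix (a + 1) b ι) (y : Ix a b ι) (σ : Equiv.Perm (Fin (a + 1)))
    (i : ι) : (((Fin.cons i y.1 : Fin (a + 1) → ι) ∘ σ.symm, y.2) : Ix (a + 1) b ι) = x ↔
      i = x.1 (σ 0) ∧ y = (Fin.tail (x.1 ∘ σ), x.2) := by
  constructor
  · intro h
    subst h
    refine ⟨by simp, ?_⟩
    apply Prod.ext
    · funext k
      simp [Fin.tail]
    · rfl
  · rintro ⟨h1, h2⟩
    subst h2
    apply Prod.ext
    · funext k
      obtain ⟨k, rfl⟩ := σ.surjective k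
      simp only [Function.comp_apply, Equiv.symm_apply_apply]
      refine Fin.cases ?_ (fun k => ?_) k
      · simp [h1]
      · simp [Fin.tail]
    · rfl

private theorem DST_dst_u (x : Ix (a + 1) b ι) : dst (u x) = ∑ σ : Equiv.Perm (Fin (a + 1)),
    (((Equiv.Perm.sign σ : ℤ) : ℂ)) • (X (x.1 (σ 0)) : S ι) • (u (Fin.tail (x.1 ∘ σ), x.2) : T a b ι) := by
  funext y
  rw [Finset.sum_apply]
  change (∑ σ : Equiv.Perm (Fin (a + 1)), ∑ i : ι,
    (((Equiv.Perm.sign σ : ℤ) : ℂ)) • (X i *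
      (u x : T (a + 1) b ι) ((Fin.cons i y.1 : Fin (a + 1) → ι) ∘ σ.symm, y.2))) = _
  refine Finset.sum_congr rfl (fun σ _ => ?_)
  rw [← Finset.smul_sum, Pi.smul_apply, Pi.smul_apply]
  congr 1
  simp only [DST_u_apply, DST_cons_iff]
  by_cases hy : y = (Fin.tail (x.1 ∘ σ), x.2)
  · simp [hy]
  · simp [hy]

private theorem DST_rA (τ : Equiv.Perm (Fin (a + 1))) (x : Ix (a + 1) b ι) :
    dst (rA τ x) = (0 : T a b ι) := by
  unfold rA
  rw [map_sub, LinearMap.map_smul_of_tower, DST_dst_u, DST_dst_u, sub_eq_zero, Finset.smul_sum]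
  rw [← Equiv.sum_comp (Equiv.mulLeft τ) (fun σ : Equiv.Perm (Fin (a + 1)) => ((((Equiv.Perm.sign τ : ℤ) : ℂ)) •
    (((Equiv.Perm.sign σ : ℤ) : ℂ)) • (X (x.1 (σ 0)) : S ι) • (u (Fin.tail (x.1 ∘ σ), x.2) : T a b ι)))]
  refine Finset.sum_congr rfl (fun σ _ => ?_)
  have h1 : (Equiv.mulLeft τ) σ = τ * σ := rfl
  rw [h1]
  dsimp only
  have h2 : (((Equiv.Perm.sign τ : ℤ) : ℂ)) • (((Equiv.Perm.sign (τ * σ) : ℤ) : ℂ)) •
      (X (x.1 ((τ * σ) 0)) : S ι) • (u (Fin.tail (x.1 ∘ (τ * σ : Equiv.Perm _)), x.2) : T a b ι) =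
      (((Equiv.Perm.sign σ : ℤ) : ℂ)) •
      (X (x.1 ((τ * σ) 0)) : S ι) • (u (Fin.tail (x.1 ∘ (τ * σ : Equiv.Perm _)), x.2) : T a b ι) := by
    rw [smul_smul]
    congr 1
    rw [Equiv.Perm.sign_mul, Units.val_mul, Int.cast_mul, ← mul_assoc, ← Int.cast_mul, ← Units.val_mul,
      Int.units_mul_self]
    simp
  rw [h2]
  rfl

private theorem DST_rB (τ : Equiv.Perm (Fin b)) (x : Ix (a + 1) b ι) :
    dst (rB τ x) = ∑ σ : Equiv.Perm (Fin (a + 1)),
    (((Equiv.Perm.sign σ : ℤ) : ℂ)) • (X (x.1 (σ 0)) : S ι) •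
      (rB τ (Fin.tail (x.1 ∘ σ), x.2) : T a b ι) := by
  unfold rB
  rw [map_sub, LinearMap.map_smul_of_tower, DST_dst_u, DST_dst_u, Finset.smul_sum,
    ← Finset.sum_sub_distrib]
  refine Finset.sum_congr rfl (fun σ _ => ?_)
  dsimp only
  rw [smul_sub, smul_sub]
  congr 1
  rw [smul_comm]
  congr 1
  rw [smul_comm]

private theorem DST_rEt (t : Fin b) (x : Ix (a + 1) b ι) (l : ℕ) :
    dst (rEt t x l) = ∑ σ : Equiv.Perm (Fin (a + 1)),
    (((Equiv.Perm.sign σ : ℤ) : ℂ)) • (X (x.1 (σ 0)) : S ι) •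
      (rEt t (Fin.tail (x.1 ∘ σ), x.2) l : T a b ι) := by
  unfold rEt
  rw [map_sum]
  simp only [map_smul, DST_dst_u, Finset.smul_sum]
  rw [Finset.sum_comm]
  refine Finset.sum_congr rfl (fun σ _ => Finset.sum_congr rfl (fun i _ => ?_))
  rw [smul_comm]
  congr 1
  rw [smul_comm]

private theorem DST_psum (k : ℕ) (x : Ix (a + 1) b ι) :
    dst (psum ι ℂ k • u x) = ∑ σ : Equiv.Perm (Fin (a + 1)),
    (((Equiv.Perm.sign σ : ℤ) : ℂ)) • (X (x.1 (σ 0)) : S ι) •
      (psum ι ℂ k • u (Fin.tail (x.1 ∘ σ), x.2) : T a b ι) := by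
  rw [map_smul, DST_dst_u, Finset.smul_sum]
  refine Finset.sum_congr rfl (fun σ _ => ?_)
  rw [smul_comm]
  congr 1
  rw [smul_comm]

private theorem DST_tail0 (f : Fin (a + 1) → ι) (σ : Equiv.Perm (Fin (a + 1))) (i : ι) :
    Fin.tail (Function.update f (σ 0) i ∘ σ) = Fin.tail (f ∘ σ) := by
  funext k
  simp [Fin.tail, Fin.succ_ne_zero]

private theorem DST_tail1 (f : Fin (a + 1) → ι) (σ : Equiv.Perm (Fin (a + 1))) (k : Fin a) (i : ι) :
    Fin.tail (Function.update f (σ k.succ) i ∘ σ) = Function.update (Fin.tail (f ∘ σ)) k i := by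
  funext j
  simp [Fin.tail, Function.update_apply]

private theorem DST_rTh (s : Fin (a + 1)) (x : Ix (a + 1) b ι) (l : ℕ) :
    dst (rTh s x l) = ∑ σ : Equiv.Perm (Fin (a + 1)),
    (((Equiv.Perm.sign σ : ℤ) : ℂ)) • ∑ i : ι, ((X i : S ι) ^ l) •
      (X ((Function.update x.1 s i) (σ 0)) : S ι) •
        (u (Fin.tail (Function.update x.1 s i ∘ σ), x.2) : T a b ι) := by
  unfold rTh
  rw [map_sum]
  simp only [map_smul, DST_dst_u, Finset.smul_sum]
  rw [Finset.sum_comm]
  refine Finset.sum_congr rfl (fun σ _ => Finset.sum_congr rfl (fun i _ => ?_))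
  rw [smul_comm]

private theorem DST_rPh (s : Fin (a + 1)) (t : Fin b) (x : Ix (a + 1) b ι) (l : ℕ) :
    dst (rPh s t x l) = ∑ σ : Equiv.Perm (Fin (a + 1)),
    (((Equiv.Perm.sign σ : ℤ) : ℂ)) • ∑ i : ι, ((X i : S ι) ^ l) •
      (X ((Function.update x.1 s i) (σ 0)) : S ι) •
        (u (Fin.tail (Function.update x.1 s i ∘ σ), Function.update x.2 t i) : T a b ι) := by
  unfold rPh
  rw [map_sum]
  simp only [map_smul, DST_dst_u, Finset.smul_sum]
  rw [Finset.sum_comm]
  refine Finset.sum_congr rfl (fun σ _ => Finset.sum_congr rfl (fun i _ => ?_))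
  rw [smul_comm]

private theorem DST_mA {c : T a b ι} (h : c ∈ RelA a b ι) : c ∈ LP a b ι :=
  Submodule.mem_sup_left (Submodule.mem_sup_left (Submodule.mem_sup_left h))

private theorem DST_mEt (t : Fin b) (x : Ix a b ι) (l : ℕ) : rEt t x l ∈ LP a b ι :=
  Submodule.mem_sup_left (Submodule.mem_sup_right (Submodule.subset_span (Or.inr ⟨t, x, l, rfl⟩)))

private theorem DST_mTh (s : Fin a) (x : Ix a b ι) (l : ℕ) : rTh s x l ∈ LP a b ι :=
  Submodule.mem_sup_left (Submodule.mem_sup_right (Submodule.subset_span (Or.inl ⟨s, x, l, rfl⟩)))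

private theorem DST_mPh (s : Fin a) (t : Fin b) (x : Ix a b ι) (l : ℕ) : rPh s t x l ∈ LP a b ι :=
  Submodule.mem_sup_left (Submodule.mem_sup_left (Submodule.mem_sup_right
    (Submodule.subset_span ⟨s, t, x, l, rfl⟩)))

private theorem DST_mP (k : ℕ) (x : Ix a b ι) (hk : 1 ≤ k) : psum ι ℂ k • u x ∈ LP a b ι :=
  Submodule.mem_sup_right (Submodule.subset_span ⟨k, x, hk, rfl⟩)

private theorem DST_one : ∀ c ∈ LP (a + 1) b ι, dst c ∈ LP a b ι := by
  have key : LP (a + 1) b ι ≤ (LP a b ι).comap dst := by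
    refine sup_le (sup_le (sup_le (Submodule.span_le.2 ?_) (Submodule.span_le.2 ?_))
      (Submodule.span_le.2 ?_)) (Submodule.span_le.2 ?_)
    · rintro c (⟨τ, x, rfl⟩ | ⟨τ, x, rfl⟩)
      · change dst (rA τ x) ∈ LP a b ι
        rw [DST_rA]
        exact Submodule.zero_mem _
      · change dst (rB τ x) ∈ LP a b ι
        rw [DST_rB]
        refine Submodule.sum_mem _ (fun σ _ => Submodule.smul_of_tower_mem _ _
          (Submodule.smul_mem _ _ (DST_mA (Submodule.subset_span (Or.inr ⟨τ, _, rfl⟩)))))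
    · rintro c ⟨s, t, x, l, rfl⟩
      change dst (rPh s t x l) ∈ LP a b ι
      rw [DST_rPh]
      refine Submodule.sum_mem _ (fun σ _ => Submodule.smul_of_tower_mem _ _ ?_)
      obtain ⟨k, rfl⟩ := σ.surjective s
      refine Fin.cases ?_ (fun k => ?_) k
      · simp only [DST_tail0, Function.update_self, smul_smul]
        simp only [← pow_succ]
        exact DST_mEt t (Fin.tail (x.1 ∘ σ), x.2) (l + 1)
      · have h0 : σ 0 ≠ σ k.succ := fun h => Fin.succ_ne_zero k (σ.injective h).symm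
        simp only [DST_tail1, Function.update_of_ne h0]
        have : ∑ i : ι, ((X i : S ι) ^ l) • (X (x.1 (σ 0)) : S ι) •
            (u (Function.update (Fin.tail (x.1 ∘ σ)) k i, Function.update x.2 t i) : T a b ι) =
            (X (x.1 (σ 0)) : S ι) • rPh k t (Fin.tail (x.1 ∘ σ), x.2) l := by
          unfold rPh
          rw [Finset.smul_sum]
          exact Finset.sum_congr rfl (fun i _ => smul_comm _ _ _)
        rw [this]
        exact Submodule.smul_mem _ _ (DST_mPh _ _ _ _)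
    · rintro c (⟨s, x, l, rfl⟩ | ⟨t, x, l, rfl⟩)
      · change dst (rTh s x l) ∈ LP a b ι
        rw [DST_rTh]
        refine Submodule.sum_mem _ (fun σ _ => Submodule.smul_of_tower_mem _ _ ?_)
        obtain ⟨k, rfl⟩ := σ.surjective s
        refine Fin.cases ?_ (fun k => ?_) k
        · simp only [DST_tail0, Function.update_self, smul_smul]
          simp only [← pow_succ]
          rw [← Finset.sum_smul]
          exact DST_mP (l + 1) (Fin.tail (x.1 ∘ σ), x.2) (by omega)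
        · have h0 : σ 0 ≠ σ k.succ := fun h => Fin.succ_ne_zero k (σ.injective h).symm
          simp only [DST_tail1, Function.update_of_ne h0]
          have : ∑ i : ι, ((X i : S ι) ^ l) • (X (x.1 (σ 0)) : S ι) •
              (u (Function.update (Fin.tail (x.1 ∘ σ)) k i, x.2) : T a b ι) =
              (X (x.1 (σ 0)) : S ι) • rTh k (Fin.tail (x.1 ∘ σ), x.2) l := by
            unfold rTh
            rw [Finset.smul_sum]
            exact Finset.sum_congr rfl (fun i _ => smul_comm _ _ _)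
          rw [this]
          exact Submodule.smul_mem _ _ (DST_mTh _ _ _)
      · change dst (rEt t x l) ∈ LP a b ι
        rw [DST_rEt]
        exact Submodule.sum_mem _ (fun σ _ => Submodule.smul_of_tower_mem _ _
          (Submodule.smul_mem _ _ (DST_mEt _ _ _)))
    · rintro c ⟨k, x, hk, rfl⟩
      change dst (psum ι ℂ k • u x) ∈ LP a b ι
      rw [DST_psum]
      exact Submodule.sum_mem _ (fun σ _ => Submodule.smul_of_tower_mem _ _
        (Submodule.smul_mem _ _ (DST_mP _ _ hk)))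
  exact key

private theorem DST_sgn_sq (τ : Equiv.Perm (Fin a)) :
    (((Equiv.Perm.sign τ : ℤ) : ℂ)) * (((Equiv.Perm.sign τ : ℤ) : ℂ)) = 1 := by
  rw [← Int.cast_mul, ← Units.val_mul, Int.units_mul_self]
  simp

private theorem DST_R (τ : Equiv.Perm (Fin a)) (g : T a b ι) :
    (fun x => g (x.1 ∘ τ, x.2) : T a b ι) - (((Equiv.Perm.sign τ : ℤ) : ℂ)) • g ∈ RelA a b ι := by
  have h : (fun x => g (x.1 ∘ τ, x.2) : T a b ι) - (((Equiv.Perm.sign τ : ℤ) : ℂ)) • g =
      ∑ x : Ix a b ι, g x • rA τ⁻¹ x := by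
    have h1 : (fun x => g (x.1 ∘ τ, x.2) : T a b ι) = ∑ x : Ix a b ι, g x • u (x.1 ∘ (τ⁻¹ : Equiv.Perm _), x.2) := by
      funext y
      rw [Finset.sum_apply, Finset.sum_eq_single (y.1 ∘ τ, y.2)]
      · rw [Pi.smul_apply, DST_u_apply, if_pos]
        · simp
        · apply Prod.ext
          · funext k
            simp
          · rfl
      · intro x _ hx
        rw [Pi.smul_apply, DST_u_apply, if_neg, smul_zero]
        intro hy
        apply hx
        subst hy
        apply Prod.ext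
        · funext k
          simp
        · rfl
      · intro h
        exact absurd (Finset.mem_univ _) h
    have h2 : (((Equiv.Perm.sign τ : ℤ) : ℂ)) • g =
        ∑ x : Ix a b ι, g x • ((((Equiv.Perm.sign τ⁻¹ : ℤ) : ℂ)) • (u x : T a b ι)) := by
      conv_lhs => rw [DST_expand g]
      rw [Finset.smul_sum, Equiv.Perm.sign_inv]
      exact Finset.sum_congr rfl (fun x _ => smul_comm _ _ _)
    rw [h2, h1, ← Finset.sum_sub_distrib]
    refine Finset.sum_congr rfl (fun x _ => ?_)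
    rw [← smul_sub]
    rfl
  rw [h]
  exact Submodule.sum_mem _ (fun x _ => Submodule.smul_mem _ _
    (Submodule.subset_span (Or.inl ⟨τ⁻¹, x, rfl⟩)))

private theorem DST_R' (τ : Equiv.Perm (Fin a)) (g : T a b ι) :
    (((Equiv.Perm.sign τ : ℤ) : ℂ)) • (fun x => g (x.1 ∘ τ, x.2) : T a b ι) - g ∈ RelA a b ι := by
  have h := Submodule.smul_of_tower_mem (RelA a b ι) (((Equiv.Perm.sign τ : ℤ) : ℂ)) (DST_R τ g)
  rwa [smul_sub, smul_smul, DST_sgn_sq, one_smul] at h

/-- antisymmetrisation -/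
private noncomputable def DST_A (g : T a b ι) : T a b ι :=
  ∑ e : Equiv.Perm (Fin a), (((Equiv.Perm.sign e : ℤ) : ℂ)) • (fun x => g (x.1 ∘ e, x.2) : T a b ι)

private theorem DST_A_mem (g : T a b ι) : DST_A g - ((a.factorial : ℕ) : ℂ) • g ∈ RelA a b ι := by
  have : DST_A g - ((a.factorial : ℕ) : ℂ) • g = ∑ e : Equiv.Perm (Fin a),
      ((((Equiv.Perm.sign e : ℤ) : ℂ)) • (fun x => g (x.1 ∘ e, x.2) : T a b ι) - g) := by
    rw [Finset.sum_sub_distrib, Finset.sum_const, Finset.card_univ, Fintype.card_perm, Fintype.card_fin]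
    unfold DST_A
    rw [Nat.cast_smul_eq_nsmul]
  rw [this]
  exact Submodule.sum_mem _ (fun e _ => DST_R' e g)

/-- the mixed terms -/
private noncomputable def DST_K (c : T (a + 1) b ι) (q : Fin (a + 1)) : T (a + 1) b ι := fun y =>
  ∑ e : Equiv.Perm (Fin (a + 1)), ∑ i : ι, (((Equiv.Perm.sign e : ℤ) : ℂ)) •
    (X i * pderiv (y.1 q) (c (Function.update y.1 q i ∘ e, y.2)))

private theorem DST_K_swap (c : T (a + 1) b ι) (q : Fin (a + 1)) :
    DST_K c q = (((Equiv.Perm.sign (Equiv.swap 0 q) : ℤ) : ℂ)) •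
      (fun y => DST_K c 0 (y.1 ∘ Equiv.swap 0 q, y.2) : T (a + 1) b ι) := by
  funext y
  rw [Pi.smul_apply]
  unfold DST_K
  dsimp only
  rw [Finset.smul_sum, ← Equiv.sum_comp (Equiv.mulLeft (Equiv.swap 0 q))]
  refine Finset.sum_congr rfl (fun e _ => ?_)
  rw [Finset.smul_sum]
  refine Finset.sum_congr rfl (fun i _ => ?_)
  have h1 : (Equiv.mulLeft (Equiv.swap 0 q)) e = Equiv.swap 0 q * e := rfl
  have h2 : (y.1 ∘ Equiv.swap 0 q) 0 = y.1 q := by simp
  have h3 : Function.update (y.1 ∘ Equiv.swap 0 q) 0 i ∘ e =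
      Function.update y.1 q i ∘ (Equiv.swap 0 q * e : Equiv.Perm (Fin (a + 1))) := by
    have h4 : Function.update (y.1 ∘ Equiv.swap 0 q) 0 i = Function.update y.1 q i ∘ Equiv.swap 0 q := by
      funext k
      by_cases hk : k = 0
      · subst hk; simp
      · have : (Equiv.swap 0 q) k ≠ q := by
          intro h
          apply hk
          apply (Equiv.swap 0 q).injective
          rw [h, Equiv.swap_apply_left]
        simp [Function.update_of_ne hk, Function.update_of_ne this]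
    rw [h4]
    rfl
  rw [h1, h2, h3, smul_smul, Equiv.Perm.sign_mul, Units.val_mul, Int.cast_mul]

private theorem DST_K_mem (c : T (a + 1) b ι) (q : Fin (a + 1)) :
    DST_K c q - DST_K c 0 ∈ RelA (a + 1) b ι := by
  rw [DST_K_swap c q]
  exact DST_R' _ _

private theorem DST_dt_dst (c : T (a + 1) b ι) : dt (dst c) = DST_A c + DST_K c 0 := by
  funext y
  rw [Pi.add_apply]
  have h1 : (DST_A c) y = ∑ e : Equiv.Perm (Fin (a + 1)), (((Equiv.Perm.sign e : ℤ) : ℂ)) • c (y.1 ∘ e, y.2) := by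
    unfold DST_A
    rw [Finset.sum_apply]
    rfl
  rw [h1]
  unfold DST_K
  rw [← Finset.sum_add_distrib]
  change pderiv (y.1 0) (∑ σ : Equiv.Perm (Fin (a + 1)), ∑ i : ι,
    (((Equiv.Perm.sign σ : ℤ) : ℂ)) • (X i *
      c ((Fin.cons i (Fin.tail y.1) : Fin (a + 1) → ι) ∘ σ.symm, y.2))) = _
  rw [map_sum, ← Equiv.sum_comp (Equiv.inv (Equiv.Perm (Fin (a + 1))))]
  refine Finset.sum_congr rfl (fun e _ => ?_)
  have he : (Equiv.inv (Equiv.Perm (Fin (a + 1)))) e = e⁻¹ := rfl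
  have he2 : Equiv.symm e⁻¹ = e := rfl
  rw [he, Equiv.Perm.sign_inv, he2, map_sum]
  have h2 : ∀ i : ι, pderiv (y.1 0) ((((Equiv.Perm.sign e : ℤ) : ℂ)) • (X i *
      c ((Fin.cons i (Fin.tail y.1) : Fin (a + 1) → ι) ∘ e, y.2))) =
      (if y.1 0 = i then (((Equiv.Perm.sign e : ℤ) : ℂ)) • c (y.1 ∘ e, y.2) else 0) +
      (((Equiv.Perm.sign e : ℤ) : ℂ)) •
        (X i * pderiv (y.1 0) (c (Function.update y.1 0 i ∘ e, y.2))) := by
    intro i
    have h3 : (Fin.cons i (Fin.tail y.1) : Fin (a + 1) → ι) = Function.update y.1 0 i := by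
      funext k
      refine Fin.cases ?_ (fun k => ?_) k
      · simp
      · simp [Fin.tail, Fin.succ_ne_zero]
    rw [h3, Derivation.map_smul, Derivation.leibniz, smul_add, add_comm]
    congr 1
    rw [pderiv_X, Pi.single_apply]
    by_cases hi : y.1 0 = i
    · rw [if_pos hi.symm, if_pos hi]
      subst hi
      rw [Function.update_eq_self, smul_eq_mul, mul_one]
    · rw [if_neg (fun h => hi h.symm), if_neg hi, smul_zero, smul_zero]
  rw [Finset.sum_congr rfl (fun i _ => h2 i), Finset.sum_add_distrib, Finset.sum_ite_eq,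
    if_pos (Finset.mem_univ _)]

private theorem DST_dst_dt (c : T (a + 1) b ι) : dst (dt c) = DST_A (Eu c) - ∑ q, DST_K c q := by
  funext y
  rw [Pi.sub_apply, Finset.sum_apply]
  have h1 : (DST_A (Eu c)) y = ∑ e : Equiv.Perm (Fin (a + 1)), ∑ i : ι,
      (((Equiv.Perm.sign e : ℤ) : ℂ)) • (X i * pderiv i (c (y.1 ∘ e, y.2))) := by
    unfold DST_A
    rw [Finset.sum_apply]
    refine Finset.sum_congr rfl (fun e _ => ?_)
    rw [Pi.smul_apply]
    unfold Eu
    rw [Finset.smul_sum]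
  rw [h1]
  change (∑ σ : Equiv.Perm (Fin (a + 1 + 1)), ∑ i : ι,
    (((Equiv.Perm.sign σ : ℤ) : ℂ)) • (X i * pderiv (((Fin.cons i y.1 : Fin (a + 1 + 1) → ι) ∘ σ.symm) 0)
      (c (Fin.tail ((Fin.cons i y.1 : Fin (a + 1 + 1) → ι) ∘ σ.symm), y.2)))) = _
  rw [← Equiv.sum_comp (Equiv.inv (Equiv.Perm (Fin (a + 1 + 1)))),
    ← Equiv.sum_comp Equiv.Perm.decomposeFin.symm, Fintype.sum_prod_type, Fin.sum_univ_succ,
    sub_eq_add_neg]
  congr 1
  · refine Finset.sum_congr rfl (fun e _ => Finset.sum_congr rfl (fun i _ => ?_))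
    have he : (Equiv.inv (Equiv.Perm (Fin (a + 1 + 1)))) (Equiv.Perm.decomposeFin.symm (0, e)) =
      (Equiv.Perm.decomposeFin.symm (0, e))⁻¹ := rfl
    have he2 : Equiv.symm (Equiv.Perm.decomposeFin.symm ((0 : Fin (a + 1 + 1)), e))⁻¹ =
      Equiv.Perm.decomposeFin.symm (0, e) := rfl
    rw [he, Equiv.Perm.sign_inv, he2, Equiv.Perm.decomposeFin.symm_sign, if_pos rfl, one_mul]
    have h2 : ((Fin.cons i y.1 : Fin (a + 1 + 1) → ι) ∘
        (Equiv.Perm.decomposeFin.symm ((0 : Fin (a + 1 + 1)), e))) 0 = i := by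
      rw [Function.comp_apply, Equiv.Perm.decomposeFin_symm_apply_zero, Fin.cons_zero]
    have h3 : Fin.tail ((Fin.cons i y.1 : Fin (a + 1 + 1) → ι) ∘
        (Equiv.Perm.decomposeFin.symm ((0 : Fin (a + 1 + 1)), e))) = y.1 ∘ e := by
      funext k
      simp only [Fin.tail, Function.comp_apply, Equiv.Perm.decomposeFin_symm_apply_succ,
        Equiv.swap_self, Equiv.refl_apply, Fin.cons_succ]
    rw [h2, h3]
  · rw [← Finset.sum_neg_distrib]
    refine Finset.sum_congr rfl (fun q _ => ?_)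
    unfold DST_K
    rw [← Finset.sum_neg_distrib]
    refine Finset.sum_congr rfl (fun e _ => ?_)
    rw [← Finset.sum_neg_distrib]
    refine Finset.sum_congr rfl (fun i _ => ?_)
    have he : (Equiv.inv (Equiv.Perm (Fin (a + 1 + 1)))) (Equiv.Perm.decomposeFin.symm (q.succ, e)) =
      (Equiv.Perm.decomposeFin.symm (q.succ, e))⁻¹ := rfl
    have he2 : Equiv.symm (Equiv.Perm.decomposeFin.symm (q.succ, e))⁻¹ =
      Equiv.Perm.decomposeFin.symm (q.succ, e) := rfl
    rw [he, Equiv.Perm.sign_inv, he2, Equiv.Perm.decomposeFin.symm_sign, if_neg (Fin.succ_ne_zero q)]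
    have h2 : ((Fin.cons i y.1 : Fin (a + 1 + 1) → ι) ∘
        (Equiv.Perm.decomposeFin.symm (q.succ, e))) 0 = y.1 q := by
      rw [Function.comp_apply, Equiv.Perm.decomposeFin_symm_apply_zero, Fin.cons_succ]
    have h3 : Fin.tail ((Fin.cons i y.1 : Fin (a + 1 + 1) → ι) ∘
        (Equiv.Perm.decomposeFin.symm (q.succ, e))) = Function.update y.1 q i ∘ e := by
      funext k
      simp only [Fin.tail, Function.comp_apply, Equiv.Perm.decomposeFin_symm_apply_succ]
      by_cases hk : e k = q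
      · rw [hk, Equiv.swap_apply_right, Fin.cons_zero, Function.update_self]
      · rw [Equiv.swap_apply_of_ne_of_ne (Fin.succ_ne_zero _)
          (fun h => hk (Fin.succ_injective _ h)), Fin.cons_succ, Function.update_of_ne hk]
    rw [h2, h3]
    simp

private theorem DST_two (c : T (a + 1) b ι) : dst (dt c) + ((a : ℂ) + 1) • dt (dst c) -
      ((a + 1).factorial : ℂ) • (Eu c + ((a : ℂ) + 1) • c) ∈ RelA (a + 1) b ι := by
  have h : dst (dt c) + ((a : ℂ) + 1) • dt (dst c) -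
      ((a + 1).factorial : ℂ) • (Eu c + ((a : ℂ) + 1) • c) =
      (DST_A (Eu c) - ((a + 1).factorial : ℂ) • Eu c) +
      ((a : ℂ) + 1) • (DST_A c - ((a + 1).factorial : ℂ) • c) -
      ∑ q : Fin (a + 1), (DST_K c q - DST_K c 0) := by
    rw [DST_dst_dt, DST_dt_dst, Finset.sum_sub_distrib, Finset.sum_const, Finset.card_univ,
      Fintype.card_fin, smul_add, smul_add, smul_sub]
    have e1 : (a + 1) • DST_K c 0 = ((a : ℂ) + 1) • DST_K c 0 := by
      rw [← Nat.cast_smul_eq_nsmul ℂ]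
      push_cast
      rfl
    rw [e1, smul_comm ((a : ℂ) + 1) ((a + 1).factorial : ℂ) c]
    abel
  rw [h]
  exact Submodule.sub_mem _ (Submodule.add_mem _ (DST_A_mem _)
    (Submodule.smul_of_tower_mem _ _ (DST_A_mem _))) (Submodule.sum_mem _ (fun q _ => DST_K_mem c q))

private theorem DST_three (c : T 0 b ι) : dst (dt c) = Eu c := by
  funext y
  change (∑ σ : Equiv.Perm (Fin (0 + 1)), ∑ i : ι,
    (((Equiv.Perm.sign σ : ℤ) : ℂ)) • (X i * pderiv (((Fin.cons i y.1 : Fin (0 + 1) → ι) ∘ σ.symm) 0)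
      (c (Fin.tail ((Fin.cons i y.1 : Fin (0 + 1) → ι) ∘ σ.symm), y.2)))) = ∑ i : ι, X i * pderiv i (c y)
  have : Subsingleton (Equiv.Perm (Fin (0 + 1))) := ⟨fun f g => Equiv.ext (fun k => by
    have h1 : ∀ k : Fin (0 + 1), k = 0 := fun k => Fin.fin_one_eq_zero k
    rw [h1 (f k), h1 (g k)])⟩
  rw [Fintype.sum_subsingleton _ (1 : Equiv.Perm (Fin (0 + 1)))]
  refine Finset.sum_congr rfl (fun i _ => ?_)
  rw [Equiv.Perm.sign_one]
  have h2 : ((Fin.cons i y.1 : Fin (0 + 1) → ι) ∘ (Equiv.symm (1 : Equiv.Perm (Fin (0 + 1))))) 0 = i := rfl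
  have h3 : ((Fin.tail ((Fin.cons i y.1 : Fin (0 + 1) → ι) ∘
      (Equiv.symm (1 : Equiv.Perm (Fin (0 + 1))))), y.2) : Ix 0 b ι) = y := by
    apply Prod.ext
    · exact Subsingleton.elim _ _
    · rfl
  rw [h2, h3]
  simp

private theorem DST_four (w : Equiv.Perm ι) (c : T (a + 1) b ι) :
    dst (actT w c) = actT w (dst c) := by
  funext y
  change (∑ σ : Equiv.Perm (Fin (a + 1)), ∑ i : ι,
    (((Equiv.Perm.sign σ : ℤ) : ℂ)) • (X i *
      rename w (c (fun s => w⁻¹ (((Fin.cons i y.1 : Fin (a + 1) → ι) ∘ σ.symm) s),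
        fun t => w⁻¹ (y.2 t))))) = rename w (∑ σ : Equiv.Perm (Fin (a + 1)), ∑ i : ι,
    (((Equiv.Perm.sign σ : ℤ) : ℂ)) • (X i *
      c ((Fin.cons i (fun s => w⁻¹ (y.1 s)) : Fin (a + 1) → ι) ∘ σ.symm, fun t => w⁻¹ (y.2 t))))
  rw [map_sum]
  refine Finset.sum_congr rfl (fun σ _ => ?_)
  rw [map_sum, ← Equiv.sum_comp w]
  refine Finset.sum_congr rfl (fun i _ => ?_)
  rw [map_smul, map_mul, rename_X]
  have h : (fun s => w⁻¹ (((Fin.cons (w i) y.1 : Fin (a + 1) → ι) ∘ σ.symm) s)) =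
      ((Fin.cons i (fun s => w⁻¹ (y.1 s)) : Fin (a + 1) → ι) ∘ σ.symm) := by
    funext s
    rw [Function.comp_apply, Function.comp_apply]
    refine Fin.cases ?_ (fun k => ?_) (σ.symm s)
    · simp
    · simp
  rw [h]

private theorem DST_five (w : Equiv.Perm ι) (c : T a b ι) : dt (actT w c) = actT w (dt c) := by
  funext x
  change pderiv (x.1 0) (rename w (c (fun s => w⁻¹ (Fin.tail x.1 s), fun t => w⁻¹ (x.2 t)))) =
    rename w (pderiv (w⁻¹ (x.1 0)) (c (Fin.tail (fun s => w⁻¹ (x.1 s)), fun t => w⁻¹ (x.2 t))))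
  rw [← pderiv_rename w.injective]
  have h1 : w (w⁻¹ (x.1 0)) = x.1 0 := by simp
  rw [h1]
  rfl

private theorem DST_H1 (q : ℕ) (i : ι) (p : S ι) :
    homogeneousComponent (q + 1) (X i * p) = X i * homogeneousComponent q p := by
  induction p using MvPolynomial.induction_on' with
  | monomial m r =>
    have h1 : (monomial m r : S ι) ∈ homogeneousSubmodule ι ℂ m.degree := isHomogeneous_monomial r rfl
    have h2 : (X i * monomial m r : S ι) ∈ homogeneousSubmodule ι ℂ (1 + m.degree) :=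
      (isHomogeneous_X ℂ i).mul (isHomogeneous_monomial r rfl)
    rw [homogeneousComponent_of_mem h1, homogeneousComponent_of_mem h2]
    by_cases h : q = m.degree
    · rw [if_pos h, if_pos (by omega)]
    · rw [if_neg h, if_neg (by omega), mul_zero]
  | add p p' hp hp' => rw [mul_add, map_add, hp, hp', map_add, mul_add]

private theorem DST_H2 (q : ℕ) (i : ι) (p : S ι) :
    pderiv i (homogeneousComponent (q + 1) p) = homogeneousComponent q (pderiv i p) := by
  induction p using MvPolynomial.induction_on' with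
  | monomial m r =>
    have h1 : (monomial m r : S ι) ∈ homogeneousSubmodule ι ℂ m.degree := isHomogeneous_monomial r rfl
    have h2 : (pderiv i (monomial m r : S ι)) ∈ homogeneousSubmodule ι ℂ (m.degree - 1) :=
      (isHomogeneous_monomial r rfl).pderiv
    rw [homogeneousComponent_of_mem h1, homogeneousComponent_of_mem h2]
    rcases Nat.eq_zero_or_pos m.degree with h0 | h0
    · have hm : m = 0 := (Finsupp.degree_eq_zero_iff m).1 h0
      subst hm
      simp
    · by_cases h : q + 1 = m.degree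
      · rw [if_pos h, if_pos (by omega)]
      · rw [if_neg h, if_neg (by omega), map_zero]
  | add p p' hp hp' => rw [map_add, map_add, hp, hp', map_add, map_add]

private theorem DST_six (q : ℕ) (c : T (a + 1) b ι) : dst (hc q c) = hc (q + 1) (dst c) := by
  funext y
  change (∑ σ : Equiv.Perm (Fin (a + 1)), ∑ i : ι,
    (((Equiv.Perm.sign σ : ℤ) : ℂ)) • (X i *
      homogeneousComponent q (c ((Fin.cons i y.1 : Fin (a + 1) → ι) ∘ σ.symm, y.2)))) =
    homogeneousComponent (q + 1) (∑ σ : Equiv.Perm (Fin (a + 1)), ∑ i : ι,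
    (((Equiv.Perm.sign σ : ℤ) : ℂ)) • (X i *
      c ((Fin.cons i y.1 : Fin (a + 1) → ι) ∘ σ.symm, y.2)))
  rw [map_sum]
  refine Finset.sum_congr rfl (fun σ _ => ?_)
  rw [map_sum]
  refine Finset.sum_congr rfl (fun i _ => ?_)
  rw [LinearMap.map_smul, DST_H1]

private theorem DST_seven (q : ℕ) (c : T a b ι) : dt (hc (q + 1) c) = hc q (dt c) := by
  funext x
  exact DST_H2 q (x.1 0) (c (Fin.tail x.1, x.2))

private theorem DST_eight (c : T a b ι) : dt (hc 0 c) = 0 := by
  funext x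
  change pderiv (x.1 0) (homogeneousComponent 0 (c (Fin.tail x.1, x.2))) = 0
  rw [homogeneousComponent_zero, pderiv_C]

private theorem DST_nine (q : ℕ) (c : T a b ι) : Eu (hc q c) = (q : ℂ) • hc q c := by
  funext x
  change ∑ i : ι, X i * pderiv i (homogeneousComponent q (c x)) = (q : ℂ) • homogeneousComponent q (c x)
  rw [(homogeneousComponent_isHomogeneous q (c x)).sum_X_mul_pderiv, Nat.cast_smul_eq_nsmul]

end

theorem thm_DST : St_DST := fun _ _ _ _ _ =>
  ⟨DST_one, DST_two, DST_three, DST_four, DST_five, DST_six, DST_seven, DST_eight, DST_nine⟩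

end MDC
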