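import Pool.Agent.MDC.StA

/-!
# MDC, module DTH (helper94): the operator `dt` preserves `Rel` and `LP`
-/

set_option autoImplicit false

open MvPolynomial

namespace MDC

section

variable {a b : ℕ} {ι : Type} [Fintype ι] [DecidableEq ι]

private theorem dth_single (x y : Ix a b ι) (s : S ι) :
    (s • u x : T a b ι) y = if y = x then s else 0 := by
  show s * (u x : T a b ι) y = _
  unfold u
  by_cases h : y = x
  · subst h
    rw [Pi.single_eq_same, mul_one, if_pos rfl]
  · rw [Pi.single_eq_of_ne h, mul_zero, if_neg h]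

private theorem dth_cons (i : ι) (x : Ix a b ι) (y : Ix (a + 1) b ι) :
    y = ((Fin.cons i x.1 : Fin (a + 1) → ι), x.2) ↔ (y.1 0 = i ∧ (Fin.tail y.1, y.2) = x) := by
  constructor
  · intro h
    rw [h]
    refine ⟨rfl, ?_⟩
    show (Fin.tail (Fin.cons i x.1 : Fin (a + 1) → ι), x.2) = x
    rw [Fin.tail_cons]
  · rintro ⟨h1, h2⟩
    rw [← h1, ← h2]
    refine Prod.ext ?_ rfl
    exact (Fin.cons_self_tail y.1).symm

private theorem dth_u (s : S ι) (x : Ix a b ι) : dt (s • u x) = ∑ i : ι,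
    pderiv i s • u ((Fin.cons i x.1 : Fin (a + 1) → ι), x.2) := by
  funext y
  rw [Finset.sum_apply]
  have h1 : (dt (s • u x) : T (a + 1) b ι) y =
      pderiv (y.1 0) ((s • u x : T a b ι) (Fin.tail y.1, y.2)) := rfl
  rw [h1, dth_single]
  have h2 : ∀ i : ι, (pderiv i s • u ((Fin.cons i x.1 : Fin (a + 1) → ι), x.2) :
      T (a + 1) b ι) y = if y.1 0 = i then
        (if (Fin.tail y.1, y.2) = x then pderiv i s else 0) else 0 := by
    intro i
    rw [dth_single]
    by_cases h : y = ((Fin.cons i x.1 : Fin (a + 1) → ι), x.2)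
    · obtain ⟨h3, h4⟩ := (dth_cons i x y).1 h
      rw [if_pos h, if_pos h3, if_pos h4]
    · rw [if_neg h]
      by_cases h3 : y.1 0 = i
      · rw [if_pos h3, if_neg (fun h4 => h ((dth_cons i x y).2 ⟨h3, h4⟩))]
      · rw [if_neg h3]
  rw [Finset.sum_congr rfl fun i _ => h2 i, Finset.sum_ite_eq]
  rw [if_pos (Finset.mem_univ _)]
  by_cases h : (Fin.tail y.1, y.2) = x
  · rw [if_pos h, if_pos h]
  · rw [if_neg h, if_neg h, map_zero]

private theorem dth_u0 (x : Ix a b ι) : (dt (u x) : T (a + 1) b ι) = 0 := by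
  have h : (u x : T a b ι) = (1 : S ι) • u x := (one_smul _ _).symm
  rw [h, dth_u]
  refine Finset.sum_eq_zero fun i _ => ?_
  rw [pderiv_one, zero_smul]

private theorem dth_mu (i : ι) (x : Ix a b ι) :
    (mu i (u x) : T (a + 1) b ι) = u ((Fin.cons i x.1 : Fin (a + 1) → ι), x.2) := by
  funext y
  have h1 : (mu i (u x) : T (a + 1) b ι) y =
      if y.1 0 = i then (u x : T a b ι) (Fin.tail y.1, y.2) else 0 := rfl
  rw [h1]
  unfold u
  by_cases h : y = ((Fin.cons i x.1 : Fin (a + 1) → ι), x.2)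
  · obtain ⟨h2, h3⟩ := (dth_cons i x y).1 h
    rw [if_pos h2, h3, Pi.single_eq_same, h, Pi.single_eq_same]
  · rw [Pi.single_eq_of_ne h]
    by_cases h2 : y.1 0 = i
    · rw [if_pos h2]
      exact Pi.single_eq_of_ne (fun h3 => h ((dth_cons i x y).2 ⟨h2, h3⟩)) _
    · rw [if_neg h2]

/-- the Leibniz rule -/
private theorem dth_leib (s : S ι) (c : T a b ι) :
    (dt (s • c) : T (a + 1) b ι) = ∑ i : ι, pderiv i s • mu i c + s • dt c := by
  funext y
  rw [Pi.add_apply, Finset.sum_apply]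
  have h1 : (dt (s • c) : T (a + 1) b ι) y = pderiv (y.1 0) (s * c (Fin.tail y.1, y.2)) := rfl
  have h2 : (s • dt c : T (a + 1) b ι) y = s * pderiv (y.1 0) (c (Fin.tail y.1, y.2)) := rfl
  have h3 : ∀ i : ι, (pderiv i s • mu i c : T (a + 1) b ι) y =
      if y.1 0 = i then pderiv i s * c (Fin.tail y.1, y.2) else 0 := by
    intro i
    show pderiv i s * (if y.1 0 = i then c (Fin.tail y.1, y.2) else 0) = _
    by_cases h : y.1 0 = i
    · rw [if_pos h, if_pos h]
    · rw [if_neg h, if_neg h, mul_zero]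
  rw [h1, h2, Finset.sum_congr rfl fun i _ => h3 i, Finset.sum_ite_eq,
    if_pos (Finset.mem_univ _), pderiv_mul]

private theorem dth_csmul (z : ℂ) (v : T a b ι) : z • v = (C z : S ι) • v := by
  funext y
  show z • v y = C z * v y
  rw [MvPolynomial.smul_eq_C_mul]

private theorem dth_muC (i : ι) (z : ℂ) (v : T a b ι) :
    (mu i (z • v) : T (a + 1) b ι) = z • mu i v := by
  rw [dth_csmul, map_smul, dth_csmul]

/-- the basis vectors of tuples with a repetition in the first part -/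
private theorem dth_ninj (x : Ix a b ι) (p q : Fin a) (hpq : p ≠ q) (h : x.1 p = x.1 q) :
    u x ∈ RelA a b ι := by
  have h1 : (rA (Equiv.swap p q) x : T a b ι) ∈ RelA a b ι :=
    Submodule.subset_span (Or.inl ⟨Equiv.swap p q, x, rfl⟩)
  have h2 : x.1 ∘ Equiv.swap p q = x.1 := by
    funext c
    rw [Function.comp_apply]
    by_cases hca : c = p
    · subst hca
      rw [Equiv.swap_apply_left, h]
    · by_cases hcb : c = q
      · subst hcb
        rw [Equiv.swap_apply_right, h]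
      · rw [Equiv.swap_apply_of_ne_of_ne hca hcb]
  have h3 : (rA (Equiv.swap p q) x : T a b ι) = (2 : S ι) • u x := by
    unfold rA
    rw [h2, Equiv.Perm.sign_swap hpq, dth_csmul]
    have h4 : (C ((((-1 : ℤˣ) : ℤ)) : ℂ) : S ι) = -1 := by
      push_cast
      rw [C_neg, C_1]
    rw [h4, two_smul, neg_smul, one_smul, sub_neg_eq_add]
  have h4 : (u x : T a b ι) = (C (1 / 2 : ℂ) : S ι) • rA (Equiv.swap p q) x := by
    rw [h3, smul_smul]
    have h5 : (C (1 / 2 : ℂ) : S ι) * 2 = 1 := by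
      have h6 : (2 : S ι) = C (2 : ℂ) := (map_ofNat C 2).symm
      rw [h6, ← C_mul]
      norm_num
    rw [h5, one_smul]
  rw [h4]
  exact Submodule.smul_mem _ _ h1

/-! ### `mu i` of the generators -/

private theorem dth_mu_rA (i : ι) (τ : Equiv.Perm (Fin a)) (x : Ix a b ι) :
    (mu i (rA τ x) : T (a + 1) b ι) ∈ RelA (a + 1) b ι := by
  have h1 : (mu i (rA τ x) : T (a + 1) b ι) =
      rA (Equiv.Perm.decomposeFin.symm (0, τ)) ((Fin.cons i x.1 : Fin (a + 1) → ι), x.2) := by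
    have h0 : (mu i (rA τ x) : T (a + 1) b ι) = mu i (u (x.1 ∘ τ, x.2)) -
        (((Equiv.Perm.sign τ : ℤ) : ℂ)) • mu i (u x) := by
      unfold rA
      rw [map_sub, dth_muC]
    rw [h0, dth_mu, dth_mu]
    unfold rA
    have h2 : (Fin.cons i x.1 : Fin (a + 1) → ι) ∘ (Equiv.Perm.decomposeFin.symm (0, τ)) =
        Fin.cons i (x.1 ∘ τ) := by
      funext p
      refine Fin.cases ?_ (fun p => ?_) p
      · simp
      · simp
    have h3 : Equiv.Perm.sign (Equiv.Perm.decomposeFin.symm (0, τ)) = Equiv.Perm.sign τ := by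
      rw [Equiv.Perm.decomposeFin.symm_sign, if_pos rfl, one_mul]
    rw [h2, h3]
  rw [h1]
  exact Submodule.subset_span (Or.inl ⟨_, _, rfl⟩)

private theorem dth_mu_rB (i : ι) (τ : Equiv.Perm (Fin b)) (x : Ix a b ι) :
    (mu i (rB τ x) : T (a + 1) b ι) ∈ RelA (a + 1) b ι := by
  have h1 : (mu i (rB τ x) : T (a + 1) b ι) =
      rB τ ((Fin.cons i x.1 : Fin (a + 1) → ι), x.2) := by
    have h0 : (mu i (rB τ x) : T (a + 1) b ι) = mu i (u (x.1, x.2 ∘ τ)) -
        (((Equiv.Perm.sign τ : ℤ) : ℂ)) • mu i (u x) := by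
      unfold rB
      rw [map_sub, dth_muC]
    rw [h0, dth_mu, dth_mu]
    rfl
  rw [h1]
  exact Submodule.subset_span (Or.inr ⟨_, _, rfl⟩)

private theorem dth_mu_sum (i : ι) (l : ℕ) (f : ι → Ix a b ι) :
    (mu i (∑ j : ι, ((X j : S ι) ^ l) • u (f j)) : T (a + 1) b ι) =
      ∑ j : ι, ((X j : S ι) ^ l) • u ((Fin.cons i (f j).1 : Fin (a + 1) → ι), (f j).2) := by
  rw [map_sum]
  refine Finset.sum_congr rfl fun j _ => ?_
  rw [map_smul, dth_mu]

private theorem dth_mu_rTh (i : ι) (s : Fin a) (x : Ix a b ι) (l : ℕ) :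
    (mu i (rTh s x l) : T (a + 1) b ι) ∈ Rel (a + 1) b ι := by
  have h1 : (mu i (rTh s x l) : T (a + 1) b ι) =
      rTh s.succ ((Fin.cons i x.1 : Fin (a + 1) → ι), x.2) l := by
    unfold rTh
    rw [dth_mu_sum]
    refine Finset.sum_congr rfl fun j _ => ?_
    show ((X j : S ι) ^ l) • u ((Fin.cons i (Function.update x.1 s j) : Fin (a + 1) → ι), x.2) = _
    rw [Fin.cons_update]
  rw [h1]
  exact Submodule.mem_sup_right (Submodule.subset_span (Or.inl ⟨_, _, l, rfl⟩))

private theorem dth_mu_rEt (i : ι) (t : Fin b) (x : Ix a b ι) (l : ℕ) :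
    (mu i (rEt t x l) : T (a + 1) b ι) ∈ Rel (a + 1) b ι := by
  have h1 : (mu i (rEt t x l) : T (a + 1) b ι) =
      rEt t ((Fin.cons i x.1 : Fin (a + 1) → ι), x.2) l := by
    unfold rEt
    rw [dth_mu_sum]
  rw [h1]
  exact Submodule.mem_sup_right (Submodule.subset_span (Or.inr ⟨_, _, l, rfl⟩))

private theorem dth_mu_rPh (i : ι) (s : Fin a) (t : Fin b) (x : Ix a b ι) (l : ℕ) :
    (mu i (rPh s t x l) : T (a + 1) b ι) ∈ Rel (a + 1) b ι := by
  have h1 : (mu i (rPh s t x l) : T (a + 1) b ι) =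
      rPh s.succ t ((Fin.cons i x.1 : Fin (a + 1) → ι), x.2) l := by
    unfold rPh
    rw [dth_mu_sum]
    refine Finset.sum_congr rfl fun j _ => ?_
    show ((X j : S ι) ^ l) • u ((Fin.cons i (Function.update x.1 s j) : Fin (a + 1) → ι),
      Function.update x.2 t j) = _
    rw [Fin.cons_update]
  rw [h1]
  exact Submodule.mem_sup_left (Submodule.mem_sup_right
    (Submodule.subset_span ⟨_, _, _, l, rfl⟩))

/-! ### `dt` of the generators -/

private theorem dth_pd (i j : ι) (l : ℕ) :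
    pderiv i ((X j : S ι) ^ l) = if i = j then (l : S ι) * (X j : S ι) ^ (l - 1) else 0 := by
  rw [pderiv_pow]
  by_cases h : i = j
  · subst h
    rw [pderiv_X_self, mul_one, if_pos rfl]
  · rw [pderiv_X_of_ne (fun h' => h h'.symm), mul_zero, if_neg h]

private theorem dth_dt_sum (l : ℕ) (f : ι → Ix a b ι) :
    (dt (∑ j : ι, ((X j : S ι) ^ l) • u (f j)) : T (a + 1) b ι) =
      ∑ j : ι, ((l : S ι) * (X j : S ι) ^ (l - 1)) •
        u ((Fin.cons j (f j).1 : Fin (a + 1) → ι), (f j).2) := by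
  rw [map_sum]
  refine Finset.sum_congr rfl fun j _ => ?_
  rw [dth_u]
  rw [Finset.sum_eq_single j]
  · rw [dth_pd, if_pos rfl]
  · intro i _ hi
    rw [dth_pd, if_neg hi, zero_smul]
  · intro h
    exact absurd (Finset.mem_univ _) h

private theorem dth_dt_rA (τ : Equiv.Perm (Fin a)) (x : Ix a b ι) :
    (dt (rA τ x) : T (a + 1) b ι) = 0 := by
  unfold rA
  rw [map_sub, map_smul, dth_u0, dth_u0, smul_zero, sub_zero]

private theorem dth_dt_rB (τ : Equiv.Perm (Fin b)) (x : Ix a b ι) :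
    (dt (rB τ x) : T (a + 1) b ι) = 0 := by
  unfold rB
  rw [map_sub, map_smul, dth_u0, dth_u0, smul_zero, sub_zero]

private theorem dth_dt_rTh (s : Fin a) (x : Ix a b ι) (l : ℕ) :
    (dt (rTh s x l) : T (a + 1) b ι) ∈ RelA (a + 1) b ι := by
  unfold rTh
  rw [dth_dt_sum]
  refine Submodule.sum_mem _ fun j _ => Submodule.smul_mem _ _ ?_
  refine dth_ninj _ 0 s.succ (Fin.succ_ne_zero s).symm ?_
  show (Fin.cons j (Function.update x.1 s j) : Fin (a + 1) → ι) 0 =
    (Fin.cons j (Function.update x.1 s j) : Fin (a + 1) → ι) s.succ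
  rw [Fin.cons_zero, Fin.cons_succ, Function.update_self]

private theorem dth_dt_rPh (s : Fin a) (t : Fin b) (x : Ix a b ι) (l : ℕ) :
    (dt (rPh s t x l) : T (a + 1) b ι) ∈ RelA (a + 1) b ι := by
  unfold rPh
  rw [dth_dt_sum]
  refine Submodule.sum_mem _ fun j _ => Submodule.smul_mem _ _ ?_
  refine dth_ninj _ 0 s.succ (Fin.succ_ne_zero s).symm ?_
  show (Fin.cons j (Function.update x.1 s j) : Fin (a + 1) → ι) 0 =
    (Fin.cons j (Function.update x.1 s j) : Fin (a + 1) → ι) s.succ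
  rw [Fin.cons_zero, Fin.cons_succ, Function.update_self]

private theorem dth_dt_rEt (t : Fin b) (x : Ix a b ι) (l : ℕ) :
    (dt (rEt t x l) : T (a + 1) b ι) ∈ Rel (a + 1) b ι := by
  unfold rEt
  rw [dth_dt_sum]
  have h1 : ∑ j : ι, ((l : S ι) * (X j : S ι) ^ (l - 1)) •
        u ((Fin.cons j x.1 : Fin (a + 1) → ι), Function.update x.2 t j) =
      (l : S ι) • (rPh 0 t ((Fin.cons (x.2 t) x.1 : Fin (a + 1) → ι), x.2) (l - 1) :
        T (a + 1) b ι) := by
    unfold rPh
    rw [Finset.smul_sum]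
    refine Finset.sum_congr rfl fun j _ => ?_
    rw [smul_smul]
    show _ = ((l : S ι) * (X j : S ι) ^ (l - 1)) •
      u (Function.update (Fin.cons (x.2 t) x.1 : Fin (a + 1) → ι) 0 j, Function.update x.2 t j)
    rw [Fin.update_cons_zero]
  rw [h1]
  exact Submodule.smul_mem _ _ (Submodule.mem_sup_left (Submodule.mem_sup_right
    (Submodule.subset_span ⟨_, _, _, _, rfl⟩)))

variable (a b ι) in
private noncomputable def dthN (N : Submodule (S ι) (T (a + 1) b ι)) :
    Submodule (S ι) (T a b ι) where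
  carrier := {c | (dt c : T (a + 1) b ι) ∈ N ∧ ∀ i : ι, (mu i c : T (a + 1) b ι) ∈ N}
  add_mem' := by
    rintro v w ⟨hv, hv'⟩ ⟨hw, hw'⟩
    refine ⟨?_, fun i => ?_⟩
    · rw [map_add]
      exact Submodule.add_mem _ hv hw
    · rw [map_add]
      exact Submodule.add_mem _ (hv' i) (hw' i)
  zero_mem' := by
    refine ⟨?_, fun i => ?_⟩
    · rw [map_zero]
      exact Submodule.zero_mem _
    · rw [map_zero]
      exact Submodule.zero_mem _
  smul_mem' := by
    rintro s v ⟨hv, hv'⟩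
    refine ⟨?_, fun i => ?_⟩
    · rw [dth_leib]
      exact Submodule.add_mem _ (Submodule.sum_mem _ fun i _ => Submodule.smul_mem _ _ (hv' i))
        (Submodule.smul_mem _ _ hv)
    · rw [map_smul]
      exact Submodule.smul_mem _ _ (hv' i)

private theorem dth_le : Rel a b ι ≤ dthN a b ι (Rel (a + 1) b ι) := by
  have hA : ∀ c ∈ RelA (a + 1) b ι, c ∈ Rel (a + 1) b ι := fun c hc =>
    Submodule.mem_sup_left (Submodule.mem_sup_left hc)
  refine sup_le (sup_le ?_ ?_) ?_
  · refine Submodule.span_le.2 ?_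
    rintro g (⟨τ, x, rfl⟩ | ⟨τ, x, rfl⟩)
    · refine ⟨?_, fun i => hA _ (dth_mu_rA i τ x)⟩
      rw [dth_dt_rA]
      exact Submodule.zero_mem _
    · refine ⟨?_, fun i => hA _ (dth_mu_rB i τ x)⟩
      rw [dth_dt_rB]
      exact Submodule.zero_mem _
  · refine Submodule.span_le.2 ?_
    rintro g ⟨s, t, x, l, rfl⟩
    exact ⟨hA _ (dth_dt_rPh s t x l), fun i => dth_mu_rPh i s t x l⟩
  · refine Submodule.span_le.2 ?_
    rintro g (⟨s, x, l, rfl⟩ | ⟨t, x, l, rfl⟩)
    · exact ⟨hA _ (dth_dt_rTh s x l), fun i => dth_mu_rTh i s x l⟩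
    · exact ⟨dth_dt_rEt t x l, fun i => dth_mu_rEt i t x l⟩

private theorem dth_psum (k : ℕ) (i : ι) :
    pderiv i (psum ι ℂ k) = (k : S ι) * (X i : S ι) ^ (k - 1) := by
  unfold psum
  rw [map_sum, Finset.sum_eq_single i]
  · rw [dth_pd, if_pos rfl]
  · intro j _ hj
    rw [dth_pd, if_neg (fun h => hj h.symm)]
  · intro h
    exact absurd (Finset.mem_univ _) h

private theorem dth_three (k : ℕ) (c : T a b ι) :
    (dt (psum ι ℂ k • c) : T (a + 1) b ι) - psum ι ℂ k • dt c ∈ Rel (a + 1) b ι := by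
  rw [dth_leib, add_sub_cancel_right]
  have h1 : c = ∑ x : Ix a b ι, c x • u x := by
    funext y
    rw [Finset.sum_apply]
    simp only [dth_single]
    rw [Finset.sum_ite_eq, if_pos (Finset.mem_univ _)]
  have h2 : ∑ i : ι, pderiv i (psum ι ℂ k) • (mu i c : T (a + 1) b ι) =
      ∑ x : Ix a b ι, c x • ∑ i : ι, ((k : S ι) * (X i : S ι) ^ (k - 1)) •
        u ((Fin.cons i x.1 : Fin (a + 1) → ι), x.2) := by
    simp only [Finset.smul_sum]
    rw [Finset.sum_comm]
    refine Finset.sum_congr rfl fun i _ => ?_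
    have h3 : (mu i c : T (a + 1) b ι) = ∑ x : Ix a b ι, c x •
        u ((Fin.cons i x.1 : Fin (a + 1) → ι), x.2) := by
      conv_lhs => rw [h1]
      rw [map_sum]
      refine Finset.sum_congr rfl fun x _ => ?_
      rw [map_smul, dth_mu]
    rw [h3, dth_psum, Finset.smul_sum]
    refine Finset.sum_congr rfl fun x _ => ?_
    rw [smul_smul, smul_smul, mul_comm]
  rw [h2]
  refine Submodule.sum_mem _ fun x _ => Submodule.smul_mem _ _ ?_
  by_cases hι : Nonempty ι
  · obtain ⟨i0⟩ := hι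
    have h3 : ∑ i : ι, ((k : S ι) * (X i : S ι) ^ (k - 1)) •
        u ((Fin.cons i x.1 : Fin (a + 1) → ι), x.2) =
        (k : S ι) • (rTh 0 ((Fin.cons i0 x.1 : Fin (a + 1) → ι), x.2) (k - 1) :
          T (a + 1) b ι) := by
      unfold rTh
      rw [Finset.smul_sum]
      refine Finset.sum_congr rfl fun j _ => ?_
      rw [smul_smul]
      show _ = ((k : S ι) * (X j : S ι) ^ (k - 1)) •
        u (Function.update (Fin.cons i0 x.1 : Fin (a + 1) → ι) 0 j, x.2)
      rw [Fin.update_cons_zero]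
    rw [h3]
    exact Submodule.smul_mem _ _ (Submodule.mem_sup_right
      (Submodule.subset_span (Or.inl ⟨_, _, _, rfl⟩)))
  · have : IsEmpty ι := not_nonempty_iff.1 hι
    rw [Finset.univ_eq_empty, Finset.sum_empty]
    exact Submodule.zero_mem _

private theorem dth_four : LP a b ι ≤ dthN a b ι (LP (a + 1) b ι) := by
  have hR : ∀ c ∈ Rel (a + 1) b ι, c ∈ LP (a + 1) b ι := fun c hc => Submodule.mem_sup_left hc
  refine sup_le ?_ ?_
  · intro c hc
    obtain ⟨h1, h2⟩ := dth_le hc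
    exact ⟨hR _ h1, fun i => hR _ (h2 i)⟩
  · refine Submodule.span_le.2 ?_
    rintro g ⟨k, x, hk, rfl⟩
    refine ⟨?_, fun i => ?_⟩
    · have h1 := dth_three k (u x)
      rw [dth_u0, smul_zero, sub_zero] at h1
      exact hR _ h1
    · rw [map_smul, dth_mu]
      exact Submodule.mem_sup_right (Submodule.subset_span ⟨k, _, hk, rfl⟩)

end

theorem thm_DTH : St_DTH := by
  intro ι _ _ a b
  exact ⟨dth_u, fun c hc => (dth_le hc).1, dth_three, fun c hc => (dth_four hc).1⟩

end MDC
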