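import Pool.Agent.MDC.StE
import Pool.Agent.MDH.DUA

/-!
# MDC, module DUA: duality of traces (helper13)

Statement and proof: see `St_DUA` in `Pool/Agent/MDC/StE.lean`.
-/

set_option autoImplicit false

open MvPolynomial

namespace MDC

section

variable {a b n : ℕ}

theorem DUA_pr (c c' : T a b (Fin n)) : pr2 c c' = ∑ x, MDH.DUA_ps (c x) (c' x) := rfl

theorem DUA_pr_add_l (c c' e : T a b (Fin n)) : pr2 (c + c') e = pr2 c e + pr2 c' e := by
  rw [DUA_pr, DUA_pr, DUA_pr, ← Finset.sum_add_distrib]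
  exact Finset.sum_congr rfl fun j _ => MDH.DUA_ps_add_l _ _ _

theorem DUA_pr_smul_l (t : ℂ) (c e : T a b (Fin n)) : pr2 (t • c) e = t * pr2 c e := by
  rw [DUA_pr, DUA_pr, Finset.mul_sum]
  exact Finset.sum_congr rfl fun j _ => MDH.DUA_ps_smul_l _ _ _

theorem DUA_pr_add_r (c e e' : T a b (Fin n)) : pr2 c (e + e') = pr2 c e + pr2 c e' := by
  rw [DUA_pr, DUA_pr, DUA_pr, ← Finset.sum_add_distrib]
  exact Finset.sum_congr rfl fun j _ => MDH.DUA_ps_add_r _ _ _

theorem DUA_pr_smul_r (t : ℂ) (c e : T a b (Fin n)) : pr2 c (t • e) = t * pr2 c e := by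
  rw [DUA_pr, DUA_pr, Finset.mul_sum]
  exact Finset.sum_congr rfl fun j _ => MDH.DUA_ps_smul_r _ _ _

/-- the pairing as a bilinear form, the second argument first -/
noncomputable def DUA_B (a b n : ℕ) : T a b (Fin n) →ₗ[ℂ] T a b (Fin n) →ₗ[ℂ] ℂ where
  toFun e :=
    { toFun := fun c => pr2 c e
      map_add' := fun c c' => DUA_pr_add_l c c' e
      map_smul' := fun t c => by rw [DUA_pr_smul_l]; rfl }
  map_add' e e' := by
    apply LinearMap.ext
    intro c
    exact DUA_pr_add_r c e e'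
  map_smul' t e := by
    apply LinearMap.ext
    intro c
    exact DUA_pr_smul_r t c e

theorem DUA_B_apply (c e : T a b (Fin n)) : DUA_B a b n e c = pr2 c e := rfl

theorem DUA_pr_act (w : Equiv.Perm (Fin n)) (c e : T a b (Fin n)) :
    pr2 (actT w c) (actT w e) = pr2 c e := by
  rw [DUA_pr, DUA_pr]
  have h1 : ∀ x : Ix a b (Fin n), MDH.DUA_ps (actT w c x) (actT w e x) =
      MDH.DUA_ps (c (fun s => w⁻¹ (x.1 s), fun t => w⁻¹ (x.2 t)))
        (e (fun s => w⁻¹ (x.1 s), fun t => w⁻¹ (x.2 t))) := fun x => MDH.DUA_ps_rename w _ _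
  simp_rw [h1]
  exact Equiv.sum_comp ((Equiv.arrowCongr (Equiv.refl (Fin a)) w⁻¹).prodCongr
    (Equiv.arrowCongr (Equiv.refl (Fin b)) w⁻¹)) fun x => MDH.DUA_ps (c x) (e x)

theorem DUA_act_act (w w' : Equiv.Perm (Fin n)) (c : T a b (Fin n)) :
    actT w (actT w' c) = actT (w * w') c := by
  funext j
  change rename w (rename w' (c _)) = rename (w * w') (c _)
  rw [MvPolynomial.rename_rename]
  congr 1

theorem DUA_act_one (c : T a b (Fin n)) : actT 1 c = c := by
  funext j
  change rename (1 : Equiv.Perm (Fin n)) (c (fun s => (1 : Equiv.Perm (Fin n))⁻¹ (j.1 s),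
    fun t => (1 : Equiv.Perm (Fin n))⁻¹ (j.2 t))) = c j
  rw [inv_one]
  exact MvPolynomial.rename_id_apply _

theorem DUA_pr_act' (w : Equiv.Perm (Fin n)) (c e : T a b (Fin n)) :
    pr2 c (actT w e) = pr2 (actT w⁻¹ c) e := by
  rw [← DUA_pr_act w (actT w⁻¹ c) e, DUA_act_act, mul_inv_cancel, DUA_act_one]

/-- the basis elements -/
noncomputable def DUA_b (A : Fin n →₀ ℕ) (x : Ix a b (Fin n)) : T a b (Fin n) :=
  Pi.single x (monomial A 1)

theorem DUA_pr_b (A : Fin n →₀ ℕ) (x : Ix a b (Fin n)) (e : T a b (Fin n)) :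
    pr2 (DUA_b A x) e = MDH.fac A * coeff A (e x) := by
  rw [DUA_pr, Finset.sum_eq_single x]
  · rw [DUA_b, Pi.single_eq_same, MDH.DUA_ps_monomial]
  · intro i _ hi
    rw [DUA_b, Pi.single_eq_of_ne hi, MDH.DUA_ps_zero_l]
  · intro h
    exact absurd (Finset.mem_univ x) h

/-- two linear forms which agree on the basis elements -/
theorem DUA_ext (f g : T a b (Fin n) →ₗ[ℂ] ℂ) (h : ∀ A x, f (DUA_b A x) = g (DUA_b A x)) :
    f = g := by
  apply LinearMap.ext
  intro c
  have h1 : c = ∑ x, ∑ A ∈ (c x).support, coeff A (c x) • DUA_b A x := by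
    funext i
    rw [Finset.sum_apply, Finset.sum_eq_single i]
    · rw [Finset.sum_apply]
      conv_lhs => rw [MvPolynomial.as_sum (c i)]
      refine Finset.sum_congr rfl fun A _ => ?_
      rw [Pi.smul_apply, DUA_b, Pi.single_eq_same, MvPolynomial.smul_monomial, smul_eq_mul,
        mul_one]
    · intro j _ hj
      rw [Finset.sum_apply]
      refine Finset.sum_eq_zero fun A _ => ?_
      rw [Pi.smul_apply, DUA_b, Pi.single_eq_of_ne (Ne.symm hj), smul_zero]
    · intro hn
      exact absurd (Finset.mem_univ i) hn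
  rw [h1, map_sum, map_sum]
  refine Finset.sum_congr rfl fun j _ => ?_
  rw [map_sum, map_sum]
  refine Finset.sum_congr rfl fun A _ => ?_
  rw [map_smul, map_smul, h]

/-- a linear form which vanishes on the basis elements of large degree is given by the pairing -/
theorem DUA_rep (f : T a b (Fin n) →ₗ[ℂ] ℂ) (D : ℕ)
    (hf : ∀ A x, D < A.sum (fun _ e => e) → f (DUA_b A x) = 0) :
    ∃ e : T a b (Fin n), DUA_B a b n e = f := by
  classical
  have hfin : {A : Fin n →₀ ℕ | A.sum (fun _ e => e) ≤ D}.Finite := by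
    have h1 : {A : Fin n →₀ ℕ | A.sum (fun _ e => e) ≤ D} ⊆
        Set.range fun g : Fin n → Fin (D + 1) => Finsupp.equivFunOnFinite.symm fun i =>
          (g i : ℕ) := by
      intro A hA
      refine ⟨fun i => ⟨A i, ?_⟩, ?_⟩
      · have h2 : A i ≤ A.sum (fun _ e => e) := by
          rw [Finsupp.sum_fintype _ _ (fun _ => rfl)]
          exact Finset.single_le_sum (f := fun i => A i) (fun _ _ => Nat.zero_le _)
            (Finset.mem_univ i)
        have h3 : A.sum (fun _ e => e) ≤ D := hA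
        omega
      · ext i
        rfl
    exact (Set.finite_range _).subset h1
  refine ⟨fun x => ∑ A ∈ hfin.toFinset, monomial A (f (DUA_b A x) / MDH.fac A), ?_⟩
  apply DUA_ext
  intro A j
  rw [DUA_B_apply, DUA_pr_b, MvPolynomial.coeff_sum]
  by_cases hA : A.sum (fun _ e => e) ≤ D
  · rw [Finset.sum_eq_single A]
    · rw [coeff_monomial, if_pos rfl, mul_div_cancel₀ _ (MDH.DUA_fac_ne A)]
    · intro B _ hB
      rw [coeff_monomial, if_neg hB]
    · intro h
      exact absurd (hfin.mem_toFinset.2 hA) h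
  · rw [Finset.sum_eq_zero, mul_zero, hf A j (by omega)]
    intro B hB
    rw [coeff_monomial, if_neg]
    rintro rfl
    exact hA (hfin.mem_toFinset.1 hB)

end

theorem thm_DUA (hORT : St_ORT) (hTOP : St_TOP) (hUPG : St_UPG) (hACT : St_ACT)
    (hFDG : St_FDG) (hCOM : St_COM) : St_DUA := by
  classical
  intro n a b hn
  obtain ⟨hmono, -, hexh, -, -, -, -, -⟩ := hFDG (Fin n) a b
  obtain ⟨-, -, hLs, hLh, -, -⟩ := hACT.2 (Fin n) a b
  obtain ⟨L, hL⟩ : ∃ L, L = (LP a b (Fin n)).restrictScalars ℂ := ⟨_, rfl⟩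
  rw [← hL] at hLs hLh
  have hort : ∀ c : T a b (Fin n), c ∈ Har2 a b n ↔ ∀ l ∈ L, pr2 l c = 0 := by
    intro c
    rw [hORT n a b c, hL]
    rfl
  have hs : ∀ w : Equiv.Perm (Fin n), ∀ c ∈ Har2 a b n, actT w c ∈ Har2 a b n := by
    intro w c hc
    rw [hort] at hc ⊢
    intro l hl
    rw [DUA_pr_act']
    exact hc _ (hLs _ _ hl)
  obtain ⟨V, hVh, hVs, hVL⟩ := hCOM (Fin n) a b L hLh hLs
  -- finiteness
  have hqf : Module.Finite ℂ (T a b (Fin n) ⧸ L) := by
    rw [hL]
    by_cases hab : a + b ≤ n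
    · exact (hUPG (Fin n) a b (n - a - b) (by rw [Fintype.card_fin]; omega)).2.1
    · have h1 : LP a b (Fin n) = ⊤ := by
        rw [eq_top_iff, ← hTOP (Fin n) a b (by rw [Fintype.card_fin]; exact hn)
          (by rw [Fintype.card_fin]; omega)]
        exact le_sup_left
      rw [h1]
      have h2 : Subsingleton (T a b (Fin n) ⧸
          (⊤ : Submodule (S (Fin n)) (T a b (Fin n))).restrictScalars ℂ) := by
        rw [Submodule.Quotient.subsingleton_iff]
        exact Submodule.restrictScalars_top _ _ _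
      exact Module.Finite.of_finite
  let Q := Submodule.quotientEquivOfIsCompl L V hVL.symm
  have hVf : Module.Finite ℂ V := Module.Finite.equiv Q
  -- `V` has bounded degree
  obtain ⟨D, hD⟩ : ∃ D, V ≤ Fd a b (Fin n) D := by
    obtain ⟨B, hB⟩ := (Module.Finite.iff_fg.1 hVf)
    choose i hi using hexh
    refine ⟨B.sup i, ?_⟩
    rw [← hB, Submodule.span_le]
    intro x hx
    exact hmono (Finset.le_sup hx) (hi x)
  -- elements of large degree
  have hbL : ∀ A x, D < A.sum (fun _ e => e) → (DUA_b A x : T a b (Fin n)) ∈ L := by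
    intro A j hA
    have h1 : (DUA_b A j : T a b (Fin n)) ∈ V ⊔ L := by
      rw [hVL.sup_eq_top]
      trivial
    obtain ⟨v, hv, l, hl, hvl⟩ := Submodule.mem_sup.1 h1
    have h2 : hc (A.sum fun _ e => e) (DUA_b A j : T a b (Fin n)) = DUA_b A j := by
      funext i
      change homogeneousComponent _ ((Pi.single j (monomial A (1 : ℂ)) : T a b (Fin n)) i) =
        (Pi.single j (monomial A (1 : ℂ)) : T a b (Fin n)) i
      by_cases hi : i = j
      · rw [hi, Pi.single_eq_same]
        have h3 : (monomial A (1 : ℂ)).IsHomogeneous (A.sum fun _ e => e) := by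
          apply MvPolynomial.isHomogeneous_monomial
          rfl
        rw [MvPolynomial.homogeneousComponent_of_mem h3, if_pos rfl]
      · rw [Pi.single_eq_of_ne hi, map_zero]
    have h3 : hc (A.sum fun _ e => e) v = 0 := by
      funext i
      change homogeneousComponent _ (v i) = 0
      apply MvPolynomial.homogeneousComponent_eq_zero
      exact lt_of_le_of_lt (hD hv i) hA
    have h4 := congrArg (hc (A.sum fun _ e => e)) hvl
    rw [map_add, h3, zero_add, h2] at h4
    rw [← h4]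
    exact hLh l hl _
  -- the duality
  let Φ : Har2 a b n →ₗ[ℂ] Module.Dual ℂ V :=
    { toFun := fun c => (DUA_B a b n c.1).comp V.subtype
      map_add' := fun c c' => by
        apply LinearMap.ext
        intro v
        exact DUA_pr_add_r _ _ _
      map_smul' := fun t c => by
        apply LinearMap.ext
        intro v
        exact DUA_pr_smul_r _ _ _ }
  have hΦ : ∀ (c : Har2 a b n) (v : V), Φ c v = pr2 v.1 c.1 := fun c v => rfl
  have hinj : Function.Injective Φ := by
    rw [injective_iff_map_eq_zero]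
    intro c hc
    have h1 : ∀ t : T a b (Fin n), pr2 t c.1 = 0 := by
      intro t
      have h2 : t ∈ V ⊔ L := by
        rw [hVL.sup_eq_top]
        trivial
      obtain ⟨v, hv, l, hl, hvl⟩ := Submodule.mem_sup.1 h2
      rw [← hvl, DUA_pr_add_l, (hort c.1).1 c.2 l hl, add_zero]
      have h3 := LinearMap.congr_fun hc ⟨v, hv⟩
      rw [hΦ] at h3
      exact h3
    apply Subtype.ext
    funext j
    apply MvPolynomial.ext
    intro A
    have h2 := h1 (DUA_b A j)
    rw [DUA_pr_b] at h2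
    change coeff A (c.1 j) = coeff A 0
    rw [coeff_zero]
    exact (mul_eq_zero.1 h2).resolve_left (MDH.DUA_fac_ne A)
  have hsurj : Function.Surjective Φ := by
    intro f
    let f' : T a b (Fin n) →ₗ[ℂ] ℂ := f.comp (Submodule.projectionOnto V L hVL)
    have hf'L : ∀ l ∈ L, f' l = 0 := by
      intro l hl
      change f (Submodule.projectionOnto V L hVL l) = 0
      rw [Submodule.projectionOnto_apply_of_mem_right hVL hl, map_zero]
    have hf'V : ∀ v : V, f' v.1 = f v := by
      intro v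
      change f (Submodule.projectionOnto V L hVL v.1) = f v
      rw [Submodule.projectionOnto_apply_left]
    obtain ⟨e, he⟩ := DUA_rep f' D (fun A j hA => hf'L _ (hbL A j hA))
    have hpe : ∀ t, pr2 t e = f' t := fun t => by rw [← he]; rfl
    have heH : e ∈ Har2 a b n := by
      rw [hort]
      intro l hl
      rw [hpe, hf'L l hl]
    refine ⟨⟨e, heH⟩, ?_⟩
    apply LinearMap.ext
    intro v
    rw [hΦ, hpe, hf'V]
  let E : Har2 a b n ≃ₗ[ℂ] Module.Dual ℂ V := LinearEquiv.ofBijective Φ ⟨hinj, hsurj⟩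
  have hE : ∀ (c : Har2 a b n) (v : V), E c v = pr2 v.1 c.1 := fun c v => rfl
  have hfin : Module.Finite ℂ (Har2 a b n) := Module.Finite.equiv E.symm
  refine ⟨hs, hfin, fun w => ?_⟩
  have h1 : E.conj ((actT w).restrict (hs w)) =
      Module.Dual.transpose (R := ℂ) ((actT w⁻¹).restrict (hVs w⁻¹)) := by
    apply LinearMap.ext
    intro f
    obtain ⟨c, rfl⟩ := E.surjective f
    apply LinearMap.ext
    intro v
    rw [LinearEquiv.conj_apply_apply, LinearEquiv.symm_apply_apply, hE]
    change pr2 v.1 (actT w c.1) = pr2 (actT w⁻¹ v.1) c.1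
    exact DUA_pr_act' w v.1 c.1
  have h2 : htr (Har2 a b n) w = LinearMap.trace ℂ (Har2 a b n) ((actT w).restrict (hs w)) := by
    unfold htr
    rw [dif_pos (hs w)]
  have h3 : L ≤ L.comap (actT w⁻¹) := fun c hc => hLs w⁻¹ c hc
  have h4 : qtr (LP a b (Fin n)) w⁻¹ =
      LinearMap.trace ℂ (T a b (Fin n) ⧸ L) (L.mapQ L (actT w⁻¹) h3) := by
    subst hL
    unfold qtr
    rw [dif_pos h3]
  rw [h2, h4, ← LinearMap.trace_conj' _ E, h1, LinearMap.trace_transpose',
    ← LinearMap.trace_conj' _ Q.symm]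
  congr 1
  apply LinearMap.ext
  intro z
  obtain ⟨v, rfl⟩ := Q.symm.surjective z
  rw [LinearEquiv.conj_apply_apply, LinearEquiv.symm_apply_apply]
  change L.mkQ (actT w⁻¹ v.1) = L.mapQ L (actT w⁻¹) h3 (L.mkQ v.1)
  rw [Submodule.mkQ_apply, Submodule.mkQ_apply, Submodule.mapQ_apply]

end MDC
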