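import Pool.Agent.MDC.StA

/-!
# MDC, module EOP (helper94): multiplication by `ec r` preserves `Rel`
-/

set_option autoImplicit false

open MvPolynomial

namespace MDC

private theorem eop_mul_u {a b : ℕ} {ι : Type} [Fintype ι] [DecidableEq ι] (e : T a b ι)
    (x : Ix a b ι) : e * u x = e x • u x := by
  funext y
  show e y * (u x : T a b ι) y = e x * (u x : T a b ι) y
  unfold u
  by_cases h : y = x
  · subst h
    rfl
  · rw [Pi.single_eq_of_ne h, mul_zero, mul_zero]

private theorem eop_csmul {a b : ℕ} {ι : Type} [Fintype ι] [DecidableEq ι] (z : ℂ)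
    (e v : T a b ι) : e * (z • v) = z • (e * v) := by
  funext y
  show e y * (z • v y) = z • (e y * v y)
  rw [MvPolynomial.smul_eq_C_mul, MvPolynomial.smul_eq_C_mul]
  ring

private theorem eop_ssmul {a b : ℕ} {ι : Type} [Fintype ι] [DecidableEq ι] (s : S ι)
    (e v : T a b ι) : e * (s • v) = s • (e * v) := by
  funext y
  show e y * (s * v y) = s * (e y * v y)
  ring

private theorem eop_comm {a b : ℕ} {ι : Type} [Fintype ι] [DecidableEq ι] (z : ℂ) (s : S ι)
    (v : T a b ι) : s • (z • v) = z • (s • v) := by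
  funext y
  show s * (z • v y) = z • (s * v y)
  rw [MvPolynomial.smul_eq_C_mul, MvPolynomial.smul_eq_C_mul]
  ring

private theorem eop_mul_sub {a b : ℕ} {ι : Type} [Fintype ι] [DecidableEq ι]
    (e v w : T a b ι) : e * (v - w) = e * v - e * w := by
  funext y
  show e y * (v y - w y) = e y * v y - e y * w y
  ring

private theorem eop_smul_sub {a b : ℕ} {ι : Type} [Fintype ι] [DecidableEq ι]
    (s : S ι) (v w : T a b ι) : s • (v - w) = s • v - s • w := by
  funext y
  show s * (v y - w y) = s * v y - s * w y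
  ring

private theorem eop_coeff {ι : Type} [Fintype ι] (r : ℕ) (G H : PowerSeries (S ι)) (c : ℕ → S ι)
    (i : ι) (hH : ∀ q, PowerSeries.coeff q H = c q * (X i : S ι) ^ q) :
    PowerSeries.coeff r (G * H) = ∑ p ∈ Finset.HasAntidiagonal.antidiagonal r,
      (PowerSeries.coeff p.1 G * c p.2) * (X i : S ι) ^ p.2 := by
  rw [PowerSeries.coeff_mul]
  exact Finset.sum_congr rfl fun p _ => by rw [hH, mul_assoc]

private theorem eop_aux {a b : ℕ} {ι : Type} [Fintype ι] [DecidableEq ι] (r : ℕ)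
    (N : Submodule (S ι) (T a b ι)) (f : ι → Ix a b ι) (G : PowerSeries (S ι))
    (H : ι → PowerSeries (S ι)) (c : ℕ → S ι)
    (hH : ∀ i q, PowerSeries.coeff q (H i) = c q * (X i : S ι) ^ q)
    (hE : ∀ i, EE (f i) = G * H i)
    (hN : ∀ l, ∑ i : ι, ((X i : S ι) ^ l) • u (f i) ∈ N) (l : ℕ) :
    ec r * (∑ i : ι, ((X i : S ι) ^ l) • u (f i)) ∈ N := by
  have h1 : ec r * (∑ i : ι, ((X i : S ι) ^ l) • u (f i)) =
      ∑ p ∈ Finset.HasAntidiagonal.antidiagonal r, (PowerSeries.coeff p.1 G * c p.2) •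
        ∑ i : ι, ((X i : S ι) ^ (l + p.2)) • u (f i) := by
    funext y
    have e1 : (ec r * (∑ i : ι, ((X i : S ι) ^ l) • u (f i)) : T a b ι) y =
        (ec r : T a b ι) y * ∑ i : ι, (X i : S ι) ^ l * (u (f i) : T a b ι) y := by
      rw [Pi.mul_apply, Finset.sum_apply]
      rfl
    have e2 : (∑ p ∈ Finset.HasAntidiagonal.antidiagonal r, (PowerSeries.coeff p.1 G * c p.2) •
        ∑ i : ι, ((X i : S ι) ^ (l + p.2)) • u (f i) : T a b ι) y =
        ∑ p ∈ Finset.HasAntidiagonal.antidiagonal r, (PowerSeries.coeff p.1 G * c p.2) *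
          ∑ i : ι, (X i : S ι) ^ (l + p.2) * (u (f i) : T a b ι) y := by
      rw [Finset.sum_apply]
      refine Finset.sum_congr rfl fun p _ => ?_
      rw [Pi.smul_apply, Finset.sum_apply]
      rfl
    rw [e1, e2, Finset.mul_sum]
    simp only [Finset.mul_sum]
    rw [Finset.sum_comm]
    refine Finset.sum_congr rfl fun i _ => ?_
    by_cases h : y = f i
    · have h3 : (ec r : T a b ι) y = ∑ p ∈ Finset.HasAntidiagonal.antidiagonal r,
          (PowerSeries.coeff p.1 G * c p.2) * (X i : S ι) ^ p.2 := by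
        rw [h]
        unfold ec
        rw [hE, eop_coeff r G (H i) c i (hH i)]
      rw [h3, Finset.sum_mul]
      refine Finset.sum_congr rfl fun p _ => ?_
      rw [pow_add]
      ring
    · have h3 : (u (f i) : T a b ι) y = 0 := by
        unfold u
        exact Pi.single_eq_of_ne h _
      rw [h3]
      simp only [mul_zero, Finset.sum_const_zero]
  rw [h1]
  exact Submodule.sum_mem _ fun p _ => Submodule.smul_mem _ _ (hN _)

private theorem eop_prod {a : ℕ} {ι : Type} [DecidableEq ι] (F : ι → PowerSeries (S ι))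
    (x : Fin a → ι) (s : Fin a) (i : ι) :
    ∏ s', F (Function.update x s i s') = (∏ s' ∈ Finset.univ.erase s, F (x s')) * F i := by
  rw [← Finset.prod_erase_mul _ _ (Finset.mem_univ s), Function.update_self]
  congr 1
  refine Finset.prod_congr rfl fun s' hs' => ?_
  rw [Function.update_of_ne (Finset.ne_of_mem_erase hs')]

private theorem eop_rA {a b : ℕ} {ι : Type} [Fintype ι] [DecidableEq ι] (r : ℕ)
    (τ : Equiv.Perm (Fin a)) (x : Ix a b ι) : ec r * rA τ x = ec r x • rA τ x := by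
  have h0 : (∏ s, inv ((x.1 ∘ τ) s)) = ∏ s, inv (x.1 s) :=
    Equiv.prod_comp τ (fun s => inv (x.1 s))
  have h2 : EE (x.1 ∘ τ, x.2) = EE x := by
    show (∏ i : ι, lin i) * (∏ s, inv ((x.1 ∘ τ) s)) * (∏ t, inv (x.2 t)) =
      (∏ i : ι, lin i) * (∏ s, inv (x.1 s)) * ∏ t, inv (x.2 t)
    rw [h0]
  have h1 : (ec r : T a b ι) (x.1 ∘ τ, x.2) = ec r x :=
    congrArg (fun e => PowerSeries.coeff r e) h2
  unfold rA
  rw [eop_mul_sub, eop_csmul, eop_mul_u, eop_mul_u, eop_smul_sub, h1, eop_comm]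

private theorem eop_rB {a b : ℕ} {ι : Type} [Fintype ι] [DecidableEq ι] (r : ℕ)
    (τ : Equiv.Perm (Fin b)) (x : Ix a b ι) : ec r * rB τ x = ec r x • rB τ x := by
  have h0 : (∏ s, inv ((x.2 ∘ τ) s)) = ∏ s, inv (x.2 s) :=
    Equiv.prod_comp τ (fun s => inv (x.2 s))
  have h2 : EE (x.1, x.2 ∘ τ) = EE x := by
    show (∏ i : ι, lin i) * (∏ s, inv (x.1 s)) * (∏ t, inv ((x.2 ∘ τ) t)) =
      (∏ i : ι, lin i) * (∏ s, inv (x.1 s)) * ∏ t, inv (x.2 t)
    rw [h0]
  have h1 : (ec r : T a b ι) (x.1, x.2 ∘ τ) = ec r x :=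
    congrArg (fun e => PowerSeries.coeff r e) h2
  unfold rB
  rw [eop_mul_sub, eop_csmul, eop_mul_u, eop_mul_u, eop_smul_sub, h1, eop_comm]

private theorem eop_inv {ι : Type} [Fintype ι] (i : ι) (q : ℕ) :
    PowerSeries.coeff q (inv i) = (1 : S ι) * (X i : S ι) ^ q := by
  unfold inv
  rw [PowerSeries.coeff_mk, one_mul]

private theorem eop_inv2 {ι : Type} [Fintype ι] (i : ι) (q : ℕ) :
    PowerSeries.coeff q (inv i * inv i) = ((q : S ι) + 1) * (X i : S ι) ^ q := by
  rw [PowerSeries.coeff_mul]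
  have h1 : ∀ p ∈ Finset.HasAntidiagonal.antidiagonal q, PowerSeries.coeff p.1 (inv i) *
      PowerSeries.coeff p.2 (inv i) = (X i : S ι) ^ q := by
    intro p hp
    unfold inv
    rw [PowerSeries.coeff_mk, PowerSeries.coeff_mk, ← pow_add, Finset.HasAntidiagonal.mem_antidiagonal.1 hp]
  rw [Finset.sum_congr rfl h1, Finset.sum_const, Finset.Nat.card_antidiagonal, nsmul_eq_mul,
    Nat.cast_add, Nat.cast_one]

private theorem eop_rPh {a b : ℕ} {ι : Type} [Fintype ι] [DecidableEq ι] (r : ℕ)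
    (s : Fin a) (t : Fin b) (x : Ix a b ι) (l : ℕ) : ec r * rPh s t x l ∈ Rel a b ι := by
  refine eop_aux r (Rel a b ι)
    (fun i => (Function.update x.1 s i, Function.update x.2 t i))
    ((∏ i : ι, lin i) * (∏ s' ∈ Finset.univ.erase s, inv (x.1 s')) *
      ∏ t' ∈ Finset.univ.erase t, inv (x.2 t')) (fun i => inv i * inv i)
    (fun q => ((q : S ι) + 1)) eop_inv2 ?_ ?_ l
  · intro i
    unfold EE
    rw [eop_prod, eop_prod]
    ring
  · intro l'
    exact Submodule.mem_sup_left (Submodule.mem_sup_right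
      (Submodule.subset_span ⟨s, t, x, l', rfl⟩))

private theorem eop_rTh {a b : ℕ} {ι : Type} [Fintype ι] [DecidableEq ι] (r : ℕ)
    (s : Fin a) (x : Ix a b ι) (l : ℕ) : ec r * rTh s x l ∈ Rel a b ι := by
  refine eop_aux r (Rel a b ι) (fun i => (Function.update x.1 s i, x.2))
    ((∏ i : ι, lin i) * (∏ s' ∈ Finset.univ.erase s, inv (x.1 s')) * ∏ t', inv (x.2 t'))
    inv (fun _ => 1) eop_inv ?_ ?_ l
  · intro i
    unfold EE
    rw [eop_prod]
    ring
  · intro l'
    exact Submodule.mem_sup_right (Submodule.subset_span (Or.inl ⟨s, x, l', rfl⟩))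

private theorem eop_rEt {a b : ℕ} {ι : Type} [Fintype ι] [DecidableEq ι] (r : ℕ)
    (t : Fin b) (x : Ix a b ι) (l : ℕ) : ec r * rEt t x l ∈ Rel a b ι := by
  refine eop_aux r (Rel a b ι) (fun i => (x.1, Function.update x.2 t i))
    ((∏ i : ι, lin i) * (∏ s', inv (x.1 s')) * ∏ t' ∈ Finset.univ.erase t, inv (x.2 t'))
    inv (fun _ => 1) eop_inv ?_ ?_ l
  · intro i
    unfold EE
    rw [eop_prod]
    ring
  · intro l'
    exact Submodule.mem_sup_right (Submodule.subset_span (Or.inr ⟨t, x, l', rfl⟩))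

private noncomputable def eopN (a b r : ℕ) (ι : Type) [Fintype ι] [DecidableEq ι] :
    Submodule (S ι) (T a b ι) where
  carrier := {c | ec r * c ∈ Rel a b ι}
  add_mem' := by
    intro v w hv hw
    have h : ec r * (v + w) = ec r * v + ec r * w := by
      funext y
      show (ec r : T a b ι) y * (v y + w y) = (ec r : T a b ι) y * v y + (ec r : T a b ι) y * w y
      ring
    show ec r * (v + w) ∈ Rel a b ι
    rw [h]
    exact Submodule.add_mem _ hv hw
  zero_mem' := by
    have h : ec r * (0 : T a b ι) = 0 := by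
      funext y
      show (ec r : T a b ι) y * 0 = 0
      ring
    show ec r * (0 : T a b ι) ∈ Rel a b ι
    rw [h]
    exact Submodule.zero_mem _
  smul_mem' := by
    intro s v hv
    show ec r * (s • v) ∈ Rel a b ι
    rw [eop_ssmul]
    exact Submodule.smul_mem _ _ hv

theorem thm_EOP : St_EOP := by
  intro ι _ _ a b r c hc
  have key : Rel a b ι ≤ eopN a b r ι := by
    refine sup_le (sup_le ?_ ?_) ?_
    · refine Submodule.span_le.2 ?_
      rintro g (⟨τ, x, rfl⟩ | ⟨τ, x, rfl⟩)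
      · show ec r * rA τ x ∈ Rel a b ι
        rw [eop_rA]
        exact Submodule.smul_mem _ _ (Submodule.mem_sup_left (Submodule.mem_sup_left
          (Submodule.subset_span (Or.inl ⟨τ, x, rfl⟩))))
      · show ec r * rB τ x ∈ Rel a b ι
        rw [eop_rB]
        exact Submodule.smul_mem _ _ (Submodule.mem_sup_left (Submodule.mem_sup_left
          (Submodule.subset_span (Or.inr ⟨τ, x, rfl⟩))))
    · refine Submodule.span_le.2 ?_
      rintro g ⟨s, t, x, l, rfl⟩
      exact eop_rPh r s t x l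
    · refine Submodule.span_le.2 ?_
      rintro g (⟨s, x, l, rfl⟩ | ⟨t, x, l, rfl⟩)
      · exact eop_rTh r s x l
      · exact eop_rEt r t x l
  exact key hc

end MDC
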