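import Pool.Agent.MDC.StC

/-!
# MDC, module EVE

Statement and proof: see `St_EVE` in `Pool/Agent/MDC/StC.lean`.
-/

set_option autoImplicit false
set_option linter.unusedSectionVars false

open MvPolynomial

namespace MDC

section

variable {a b a1 a2 b1 b2 : ℕ} {ι : Type} [Fintype ι] [DecidableEq ι]

private theorem EVE_mono {B : Finset ι} {K L : Submodule (S (In B)) (T a1 b1 (In B))}
    {K' L' : Submodule (S (Out B)) (T a2 b2 (Out B))} (h : K ≤ L) (h' : K' ≤ L') :
    K2 K K' ≤ K2 L L' := by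
  refine Submodule.span_mono ?_
  rintro g (⟨c1, hc1, y, rfl⟩ | ⟨y, c2, hc2, rfl⟩)
  · exact Or.inl ⟨c1, h hc1, y, rfl⟩
  · exact Or.inr ⟨y, c2, h' hc2, rfl⟩

private theorem EVE_ex1 {B : Finset ι} (p : Ix a1 b1 (In B) × Ix a2 b2 (Out B)) (t : S (In B)) :
    ex1 (t • u p.1) p.2 = rename Subtype.val t • u2 p := by
  funext q
  simp only [ex1, u2, u, Pi.smul_apply, smul_eq_mul, Pi.single_apply, map_mul]
  by_cases h1 : q.1 = p.1
  · by_cases h2 : q.2 = p.2
    · have h3 : q = p := Prod.ext h1 h2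
      simp [h3]
    · have h3 : ¬ q = p := fun h => h2 (h ▸ rfl)
      simp [h2, h3]
  · have h3 : ¬ q = p := fun h => h1 (h ▸ rfl)
    simp [h1, h3]

private theorem EVE_ex2 {B : Finset ι} (p : Ix a1 b1 (In B) × Ix a2 b2 (Out B)) (t : S (Out B)) :
    ex2 p.1 (t • u p.2) = rename Subtype.val t • u2 p := by
  funext q
  simp only [ex2, u2, u, Pi.smul_apply, smul_eq_mul, Pi.single_apply, map_mul]
  by_cases h1 : q.1 = p.1
  · by_cases h2 : q.2 = p.2
    · have h3 : q = p := Prod.ext h1 h2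
      simp [h3]
    · have h3 : ¬ q = p := fun h => h2 (h ▸ rfl)
      simp [h2, h3]
  · have h3 : ¬ q = p := fun h => h1 (h ▸ rfl)
    simp [h1, h3]

/-- the change of variables on power series -/
private noncomputable def EVE_mp {κ : Type} (f : κ → ι) :
    PowerSeries (S κ) →+* PowerSeries (S ι) :=
  PowerSeries.map (rename (R := ℂ) f).toRingHom

private theorem EVE_mp_coeff {κ : Type} (f : κ → ι) (F : PowerSeries (S κ)) (r : ℕ) :
    PowerSeries.coeff r (EVE_mp f F) = rename f (PowerSeries.coeff r F) := by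
  rw [EVE_mp, PowerSeries.coeff_map]
  rfl

private theorem EVE_mp_inv {κ : Type} [Fintype κ] [DecidableEq κ] (f : κ → ι) (i : κ) :
    EVE_mp f (inv i) = inv (f i) := by
  ext1 r
  rw [EVE_mp_coeff, inv, inv, PowerSeries.coeff_mk, PowerSeries.coeff_mk, map_pow, rename_X]

private theorem EVE_mp_lin {κ : Type} [Fintype κ] [DecidableEq κ] (f : κ → ι) (i : κ) :
    EVE_mp f (lin i) = lin (f i) := by
  rw [lin, lin, map_sub, map_one, map_mul, EVE_mp, PowerSeries.map_C, PowerSeries.map_X]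
  congr 3
  exact rename_X f i

private theorem EVE_prod_append {M κ : Type} [CommMonoid M] (h1 : a1 + a2 = a) (f : Fin a1 → κ)
    (g : Fin a2 → κ) (F : κ → M) :
    ∏ s : Fin a, F (Fin.append f g (Fin.cast h1.symm s)) = (∏ s, F (f s)) * ∏ s, F (g s) := by
  subst h1
  rw [Fin.prod_univ_add]
  simp

private theorem EVE_split {M : Type} [CommMonoid M] (B : Finset ι) (F : ι → M)
    (i1 : Fintype (In B)) (i2 : Fintype (Out B)) :
    ∏ i : ι, F i = (∏ i : In B, F i.1) * ∏ i : Out B, F i.1 := by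
  rw [← Fintype.prod_subtype_mul_prod_subtype (fun i : ι => i ∈ B) F]
  refine congrArg₂ (· * ·) ?_ ?_
  · exact @Fintype.prod_equiv _ _ _ (_) (_) _ (Equiv.refl (In B)) _ _ (fun _ => rfl)
  · exact @Fintype.prod_equiv _ _ _ (_) (_) _ (Equiv.refl (Out B)) _ _ (fun _ => rfl)

private theorem EVE_EE {B : Finset ι} (h1 : a1 + a2 = a) (h2 : b1 + b2 = b)
    (p : Ix a1 b1 (In B) × Ix a2 b2 (Out B)) :
    EE (jn h1 h2 p) = EVE_mp Subtype.val (EE p.1) * EVE_mp Subtype.val (EE p.2) := by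
  have hl : (∏ i : ι, lin i) = (∏ i : In B, lin i.1) * ∏ i : Out B, lin i.1 :=
    EVE_split B (fun i => lin i) _ _
  unfold EE jn
  simp only [map_mul, map_prod, EVE_mp_lin, EVE_mp_inv]
  rw [hl, EVE_prod_append h1 (fun q => (p.1.1 q).1) (fun q => (p.2.1 q).1) (fun i => inv i),
    EVE_prod_append h2 (fun q => (p.1.2 q).1) (fun q => (p.2.2 q).1) (fun i => inv i)]
  ring

private theorem EVE_perm (x y : Ix a b ι) (σ : Equiv.Perm (Fin a)) (τ : Equiv.Perm (Fin b))
    (h : (y.1 ∘ σ, y.2 ∘ τ) = x) : EE x = EE y := by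
  subst h
  unfold EE
  simp only [Function.comp_apply]
  rw [Equiv.prod_comp σ (fun s => inv (y.1 s)), Equiv.prod_comp τ (fun s => inv (y.2 s))]

private theorem EVE_base {m : ℕ} {B : Finset ι} (h1 : a1 + a2 = a) (h2 : b1 + b2 = b)
    (z : Fin (m + 1) → ℂ) (p : Ix a1 b1 (In B) × Ix a2 b2 (Out B)) (r : ℕ) :
    (PowerSeries.coeff r (EE (jn h1 h2 p)) - C (PowerSeries.coeff r (ZZ z))) • u2 p ∈
      K2 (LZ a1 b1 (In B) (fun _ : Fin 1 => z (Fin.last m)))
        (LZ a2 b2 (Out B) (fun l : Fin m => z l.castSucc)) := by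
  have hZ : ZZ z = ZZ (fun _ : Fin 1 => z (Fin.last m)) * ZZ (fun l : Fin m => z l.castSucc) := by
    unfold ZZ
    rw [Fin.prod_univ_castSucc, Fin.prod_univ_one, mul_comm]
  rw [EVE_EE, hZ, PowerSeries.coeff_mul, PowerSeries.coeff_mul, map_sum, ← Finset.sum_sub_distrib,
    Finset.sum_smul]
  refine Submodule.sum_mem _ (fun q _ => ?_)
  rw [EVE_mp_coeff, EVE_mp_coeff, map_mul]
  set A : S (In B) := PowerSeries.coeff q.1 (EE p.1)
  set A' : S (Out B) := PowerSeries.coeff q.2 (EE p.2)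
  set α : ℂ := PowerSeries.coeff q.1 (ZZ (fun _ : Fin 1 => z (Fin.last m)))
  set β : ℂ := PowerSeries.coeff q.2 (ZZ (fun l : Fin m => z l.castSucc))
  have e1 : (rename Subtype.val A * rename Subtype.val A' - C α * C β : S ι) • u2 p =
      (rename Subtype.val A' : S ι) • ex1 ((A - C α) • u p.1) p.2 +
        (C α : S ι) • ex2 p.1 ((A' - C β) • u p.2) := by
    rw [EVE_ex1, EVE_ex2, smul_smul, smul_smul, ← add_smul, map_sub, map_sub, rename_C, rename_C]
    refine congrArg (fun t : S ι => t • u2 p) ?_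
    ring
  rw [e1]
  refine Submodule.add_mem _ (Submodule.smul_mem _ _ (Submodule.subset_span ?_))
    (Submodule.smul_mem _ _ (Submodule.subset_span ?_))
  · exact Or.inl ⟨_, (le_sup_right : _ ≤ LZ a1 b1 (In B) (fun _ : Fin 1 => z (Fin.last m)))
      (Submodule.subset_span ⟨q.1, p.1, rfl⟩), p.2, rfl⟩
  · exact Or.inr ⟨p.1, _, (le_sup_right : _ ≤ LZ a2 b2 (Out B) (fun l : Fin m => z l.castSucc))
      (Submodule.subset_span ⟨q.2, p.2, rfl⟩), rfl⟩

end

theorem thm_EVE (hR : St_EVR) : St_EVE := by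
  intro ι _ _ B a b a1 a2 b1 b2 m h1 h2 z c hc
  classical
  set K := K2 (LZ a1 b1 (In B) (fun _ : Fin 1 => z (Fin.last m)))
      (LZ a2 b2 (Out B) (fun l : Fin m => z l.castSucc)) with hK
  have hle : LZ a b ι z ≤ K.comap (ev B h1 h2) := by
    unfold LZ
    refine sup_le ?_ (Submodule.span_le.2 ?_)
    · intro c' hc'
      exact EVE_mono le_sup_left le_sup_left (hR ι B a b a1 a2 b1 b2 h1 h2 c' hc')
    · rintro _ ⟨r, x, rfl⟩
      rw [SetLike.mem_coe, Submodule.mem_comap, map_smul]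
      set s : S ι := PowerSeries.coeff r (EE x) - C (PowerSeries.coeff r (ZZ z)) with hs
      have e1 : s • ev B h1 h2 (u x) = ∑ p, (ev B h1 h2 (u x) p) • (s • u2 p) := by
        funext q
        rw [Finset.sum_apply, Finset.sum_eq_single q]
        · simp only [Pi.smul_apply, smul_eq_mul, u2, Pi.single_eq_same]
          ring
        · intro p _ hp
          simp only [Pi.smul_apply, smul_eq_mul, u2, Pi.single_eq_of_ne hp.symm, mul_zero]
        · intro h
          exact absurd (Finset.mem_univ _) h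
      rw [e1]
      refine Submodule.sum_mem _ (fun p _ => ?_)
      by_cases h0 : ev B h1 h2 (u x) p = 0
      · rw [h0, zero_smul]
        exact Submodule.zero_mem _
      · refine Submodule.smul_mem _ _ ?_
        have h3 : ∃ (σ : Equiv.Perm (Fin a)) (τ : Equiv.Perm (Fin b)),
            ((jn h1 h2 p).1 ∘ σ, (jn h1 h2 p).2 ∘ τ) = x := by
          by_contra hcon
          push Not at hcon
          apply h0
          show ∑ σ : Equiv.Perm (Fin a), ∑ τ : Equiv.Perm (Fin b),
            ((((Equiv.Perm.sign σ : ℤ) * (Equiv.Perm.sign τ : ℤ) : ℤ)) : ℂ) •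
              (u x : T a b ι) ((jn h1 h2 p).1 ∘ σ, (jn h1 h2 p).2 ∘ τ) = 0
          refine Finset.sum_eq_zero (fun σ _ => Finset.sum_eq_zero (fun τ _ => ?_))
          rw [u, Pi.single_eq_of_ne (hcon σ τ), smul_zero]
        obtain ⟨σ, τ, hx⟩ := h3
        rw [hs, EVE_perm x (jn h1 h2 p) σ τ hx]
        exact EVE_base h1 h2 z p r
  exact hle hc

end MDC
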