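import Pool.Agent.MDC.StC

/-!
# MDC [EVR]: the evaluation map and the relations (helper34)
-/

set_option autoImplicit false
set_option linter.unusedSectionVars false

open MvPolynomial

namespace MDC

section EVR

variable {ι : Type} [Fintype ι] [DecidableEq ι] {B : Finset ι}

/-- concatenation of one pair of tuples -/
private def EVR_j {n1 n2 n : ℕ} (h : n1 + n2 = n) (v : Fin n1 → In B) (w : Fin n2 → Out B) :
    Fin n → ι :=
  fun s => Fin.append (fun q => (v q).1) (fun q => (w q).1) (Fin.cast h.symm s)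

/-- the positions -/
private def EVR_P {n1 n2 n : ℕ} (h : n1 + n2 = n) : Fin n1 ⊕ Fin n2 ≃ Fin n :=
  finSumFinEquiv.trans (finCongr h)

private theorem EVR_inl {n1 n2 n : ℕ} (h : n1 + n2 = n) (v : Fin n1 → In B) (w : Fin n2 → Out B)
    (q : Fin n1) : EVR_j h v w (EVR_P h (Sum.inl q)) = (v q).1 := by
  subst h
  simp [EVR_j, EVR_P]

private theorem EVR_inr {n1 n2 n : ℕ} (h : n1 + n2 = n) (v : Fin n1 → In B) (w : Fin n2 → Out B)
    (q : Fin n2) : EVR_j h v w (EVR_P h (Sum.inr q)) = (w q).1 := by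
  subst h
  simp [EVR_j, EVR_P]

private theorem EVR_ag {n1 n2 n : ℕ} (h : n1 + n2 = n) (v v0 : Fin n1 → In B)
    (w w0 : Fin n2 → Out B) (z0 : Fin n1 ⊕ Fin n2) :
    (∀ r, r ≠ EVR_P h z0 → EVR_j h v w r = EVR_j h v0 w0 r) ↔
      (∀ q, Sum.inl q ≠ z0 → v q = v0 q) ∧ ∀ q, Sum.inr q ≠ z0 → w q = w0 q := by
  constructor
  · intro H
    refine ⟨fun q hq => ?_, fun q hq => ?_⟩
    · have := H (EVR_P h (Sum.inl q)) (fun e => hq ((EVR_P h).injective e))
      rw [EVR_inl, EVR_inl] at this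
      exact Subtype.ext this
    · have := H (EVR_P h (Sum.inr q)) (fun e => hq ((EVR_P h).injective e))
      rw [EVR_inr, EVR_inr] at this
      exact Subtype.ext this
  · rintro ⟨H1, H2⟩ r hr
    obtain ⟨z, rfl⟩ := (EVR_P h).surjective r
    have hz : z ≠ z0 := fun e => hr (by rw [e])
    rcases z with q | q
    · rw [EVR_inl, EVR_inl, H1 q hz]
    · rw [EVR_inr, EVR_inr, H2 q hz]

private theorem EVR_eq {n1 n2 n : ℕ} (h : n1 + n2 = n) (v v0 : Fin n1 → In B)
    (w w0 : Fin n2 → Out B) :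
    EVR_j h v w = EVR_j h v0 w0 ↔ v = v0 ∧ w = w0 := by
  constructor
  · intro H
    refine ⟨funext fun q => ?_, funext fun q => ?_⟩
    · have := congrFun H (EVR_P h (Sum.inl q))
      rw [EVR_inl, EVR_inl] at this
      exact Subtype.ext this
    · have := congrFun H (EVR_P h (Sum.inr q))
      rw [EVR_inr, EVR_inr] at this
      exact Subtype.ext this
  · rintro ⟨rfl, rfl⟩
    rfl

/-! ### values of the relations -/

private theorem EVR_u {κ : Type} [DecidableEq κ] {a b : ℕ} (x y : Ix a b κ) :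
    u x y = if y = x then 1 else 0 := by
  unfold u
  rw [Pi.single_apply]

private theorem EVR_upd {κ : Type} [DecidableEq κ] {n : ℕ} (y x : Fin n → κ) (s : Fin n) (i : κ) :
    y = Function.update x s i ↔ y s = i ∧ ∀ q, q ≠ s → y q = x q := by
  constructor
  · rintro rfl
    refine ⟨by simp, fun q hq => Function.update_of_ne hq _ _⟩
  · rintro ⟨h1, h2⟩
    funext q
    by_cases h : q = s
    · subst h
      rw [Function.update_self, h1]
    · rw [Function.update_of_ne h, h2 q h]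

private theorem EVR_Th {κ : Type} [Fintype κ] [DecidableEq κ] {a b : ℕ} (s : Fin a)
    (x y : Ix a b κ) (l : ℕ) :
    rTh s x l y = if y.2 = x.2 ∧ ∀ q, q ≠ s → y.1 q = x.1 q then (X (y.1 s) : S κ) ^ l else 0 := by
  unfold rTh
  rw [Finset.sum_apply]
  simp only [Pi.smul_apply, smul_eq_mul, EVR_u]
  split_ifs with h
  · rw [Finset.sum_eq_single (y.1 s)]
    · rw [if_pos, mul_one]
      exact Prod.ext ((EVR_upd _ _ _ _).mpr ⟨rfl, h.2⟩) h.1
    · intro i _ hi
      rw [if_neg, mul_zero]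
      intro e
      exact hi ((EVR_upd _ _ _ _).mp (congrArg Prod.fst e)).1.symm
    · intro h'
      exact absurd (Finset.mem_univ _) h'
  · refine Finset.sum_eq_zero fun i _ => ?_
    rw [if_neg, mul_zero]
    intro e
    have e1 := congrArg Prod.snd e
    exact h ⟨e1, ((EVR_upd _ _ _ _).mp (congrArg Prod.fst e)).2⟩

private theorem EVR_Et {κ : Type} [Fintype κ] [DecidableEq κ] {a b : ℕ} (t : Fin b)
    (x y : Ix a b κ) (l : ℕ) :
    rEt t x l y = if y.1 = x.1 ∧ ∀ q, q ≠ t → y.2 q = x.2 q then (X (y.2 t) : S κ) ^ l else 0 := by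
  unfold rEt
  rw [Finset.sum_apply]
  simp only [Pi.smul_apply, smul_eq_mul, EVR_u]
  split_ifs with h
  · rw [Finset.sum_eq_single (y.2 t)]
    · rw [if_pos, mul_one]
      exact Prod.ext h.1 ((EVR_upd _ _ _ _).mpr ⟨rfl, h.2⟩)
    · intro i _ hi
      rw [if_neg, mul_zero]
      intro e
      exact hi ((EVR_upd _ _ _ _).mp (congrArg Prod.snd e)).1.symm
    · intro h'
      exact absurd (Finset.mem_univ _) h'
  · refine Finset.sum_eq_zero fun i _ => ?_
    rw [if_neg, mul_zero]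
    intro e
    have e1 := congrArg Prod.fst e
    exact h ⟨e1, ((EVR_upd _ _ _ _).mp (congrArg Prod.snd e)).2⟩

private theorem EVR_Ph {κ : Type} [Fintype κ] [DecidableEq κ] {a b : ℕ} (s : Fin a) (t : Fin b)
    (x y : Ix a b κ) (l : ℕ) :
    rPh s t x l y = if y.1 s = y.2 t ∧ (∀ q, q ≠ s → y.1 q = x.1 q) ∧
      (∀ q, q ≠ t → y.2 q = x.2 q) then (X (y.1 s) : S κ) ^ l else 0 := by
  unfold rPh
  rw [Finset.sum_apply]
  simp only [Pi.smul_apply, smul_eq_mul, EVR_u]
  split_ifs with h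
  · rw [Finset.sum_eq_single (y.1 s)]
    · rw [if_pos, mul_one]
      exact Prod.ext ((EVR_upd _ _ _ _).mpr ⟨rfl, h.2.1⟩)
        ((EVR_upd _ _ _ _).mpr ⟨h.1.symm, h.2.2⟩)
    · intro i _ hi
      rw [if_neg, mul_zero]
      intro e
      exact hi ((EVR_upd _ _ _ _).mp (congrArg Prod.fst e)).1.symm
    · intro h'
      exact absurd (Finset.mem_univ _) h'
  · refine Finset.sum_eq_zero fun i _ => ?_
    rw [if_neg, mul_zero]
    intro e
    have e1 := (EVR_upd _ _ _ _).mp (congrArg Prod.fst e)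
    have e2 := (EVR_upd _ _ _ _).mp (congrArg Prod.snd e)
    exact h ⟨e1.1.trans e2.1.symm, e1.2, e2.2⟩

/-! ### single terms -/

variable {a b a1 a2 b1 b2 : ℕ}

/-- one term of `ev` -/
private noncomputable def EVR_g (B : Finset ι) (h1 : a1 + a2 = a) (h2 : b1 + b2 = b)
    (σ : Equiv.Perm (Fin a)) (τ : Equiv.Perm (Fin b)) (c : T a b ι) : T2 a1 a2 b1 b2 B :=
  fun p => c ((jn h1 h2 p).1 ∘ σ, (jn h1 h2 p).2 ∘ τ)

private theorem EVR_ev (B : Finset ι) (h1 : a1 + a2 = a) (h2 : b1 + b2 = b) (c : T a b ι) :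
    ev B h1 h2 c = ∑ σ : Equiv.Perm (Fin a), ∑ τ : Equiv.Perm (Fin b),
      ((((Equiv.Perm.sign σ : ℤ) * (Equiv.Perm.sign τ : ℤ) : ℤ)) : ℂ) • EVR_g B h1 h2 σ τ c := by
  funext p
  rw [Finset.sum_apply]
  simp only [Finset.sum_apply, Pi.smul_apply]
  rfl

private theorem EVR_mem (h1 : a1 + a2 = a) (h2 : b1 + b2 = b) (c : T a b ι)
    (K : Submodule (S ι) (T2 a1 a2 b1 b2 B)) (h : ∀ σ τ, EVR_g B h1 h2 σ τ c ∈ K) :
    ev B h1 h2 c ∈ K := by
  rw [EVR_ev]
  refine Submodule.sum_mem _ fun σ _ => Submodule.sum_mem _ fun τ _ => ?_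
  exact Submodule.smul_of_tower_mem K _ (h σ τ)

private theorem EVR_ex1 (c : T a1 b1 (In B)) (hc : c ∈ Rel a1 b1 (In B)) (y : Ix a2 b2 (Out B)) :
    ex1 c y ∈ K2 (Rel a1 b1 (In B)) (Rel a2 b2 (Out B)) :=
  Submodule.subset_span (Or.inl ⟨c, hc, y, rfl⟩)

private theorem EVR_ex2 (c : T a2 b2 (Out B)) (hc : c ∈ Rel a2 b2 (Out B)) (y : Ix a1 b1 (In B)) :
    ex2 y c ∈ K2 (Rel a1 b1 (In B)) (Rel a2 b2 (Out B)) :=
  Submodule.subset_span (Or.inr ⟨y, c, hc, rfl⟩)

private theorem EVR_gTh (h1 : a1 + a2 = a) (h2 : b1 + b2 = b) (σ : Equiv.Perm (Fin a))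
    (τ : Equiv.Perm (Fin b)) (s : Fin a) (x : Ix a b ι) (l : ℕ) :
    EVR_g B h1 h2 σ τ (rTh s x l) ∈ K2 (Rel a1 b1 (In B)) (Rel a2 b2 (Out B)) := by
  by_cases hp0 : ∃ p0 : Ix a1 b1 (In B) × Ix a2 b2 (Out B),
      (jn h1 h2 p0).2 ∘ τ = x.2 ∧ ∀ q, q ≠ s → ((jn h1 h2 p0).1 ∘ σ) q = x.1 q
  · obtain ⟨p0, hp1, hp2⟩ := hp0
    have hcond : ∀ p : Ix a1 b1 (In B) × Ix a2 b2 (Out B),
        ((jn h1 h2 p).2 ∘ τ = x.2 ∧ ∀ q, q ≠ s → ((jn h1 h2 p).1 ∘ σ) q = x.1 q) ↔
        (p.1.2 = p0.1.2 ∧ p.2.2 = p0.2.2) ∧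
        (∀ r, r ≠ σ s → EVR_j h1 p.1.1 p.2.1 r = EVR_j h1 p0.1.1 p0.2.1 r) := by
      intro p
      refine and_congr ?_ ?_
      · rw [← hp1]
        constructor
        · intro e
          refine (EVR_eq h2 _ _ _ _).mp ?_
          funext r
          have := congrFun e (τ.symm r)
          simp only [Function.comp_apply, Equiv.apply_symm_apply] at this
          exact this
        · intro e
          have := (EVR_eq h2 _ _ _ _).mpr e
          funext r
          exact congrFun this (τ r)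
      · constructor
        · intro H r hr
          have hq : σ.symm r ≠ s := fun e => hr (by rw [← e]; simp)
          have e1 := (H _ hq).trans (hp2 _ hq).symm
          simp only [Function.comp_apply, Equiv.apply_symm_apply] at e1
          exact e1
        · intro H q hq
          rw [← hp2 q hq]
          exact H (σ q) (fun e => hq (σ.injective e))
    obtain ⟨z0, hz0⟩ := (EVR_P h1).surjective (σ s)
    rcases z0 with s' | s'
    · have hE : EVR_g B h1 h2 σ τ (rTh s x l) = ex1 (rTh s' p0.1 l) p0.2 := by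
        funext p
        change rTh s x l ((jn h1 h2 p).1 ∘ σ, (jn h1 h2 p).2 ∘ τ) =
          if p.2 = p0.2 then rename Subtype.val (rTh s' p0.1 l p.1) else 0
        rw [EVR_Th, EVR_Th]
        have hc2 := hcond p
        rw [← hz0, EVR_ag] at hc2
        have hX : (X (((jn h1 h2 p).1 ∘ σ) s) : S ι) ^ l =
            rename Subtype.val ((X (p.1.1 s') : S (In B)) ^ l) := by
          rw [map_pow, rename_X]
          congr 2
          change EVR_j h1 p.1.1 p.2.1 (σ s) = _
          rw [← hz0, EVR_inl]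
        by_cases hp : (jn h1 h2 p).2 ∘ τ = x.2 ∧ ∀ q, q ≠ s → ((jn h1 h2 p).1 ∘ σ) q = x.1 q
        · rw [if_pos hp]
          obtain ⟨⟨h3, h4⟩, h5, h6⟩ := hc2.mp hp
          rw [if_pos (Prod.ext (funext fun q => h6 q (by simp)) h4), if_pos, hX]
          exact ⟨h3, fun q hq => h5 q (fun e => hq (Sum.inl_injective e))⟩
        · rw [if_neg hp]
          by_cases h3 : p.2 = p0.2
          · rw [if_pos h3, if_neg, map_zero]
            rintro ⟨h4, h5⟩
            refine hp (hc2.mpr ⟨⟨h4, congrArg Prod.snd h3⟩, fun q hq => h5 q ?_, fun q _ => ?_⟩)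
            · intro e
              exact hq (by rw [e])
            · exact congrFun (congrArg Prod.fst h3) q
          · rw [if_neg h3]
      rw [hE]
      exact EVR_ex1 _ (Submodule.mem_sup_right (Submodule.subset_span
        (Or.inl ⟨s', p0.1, l, rfl⟩))) _
    · have hE : EVR_g B h1 h2 σ τ (rTh s x l) = ex2 p0.1 (rTh s' p0.2 l) := by
        funext p
        change rTh s x l ((jn h1 h2 p).1 ∘ σ, (jn h1 h2 p).2 ∘ τ) =
          if p.1 = p0.1 then rename Subtype.val (rTh s' p0.2 l p.2) else 0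
        rw [EVR_Th, EVR_Th]
        have hc2 := hcond p
        rw [← hz0, EVR_ag] at hc2
        have hX : (X (((jn h1 h2 p).1 ∘ σ) s) : S ι) ^ l =
            rename Subtype.val ((X (p.2.1 s') : S (Out B)) ^ l) := by
          rw [map_pow, rename_X]
          congr 2
          change EVR_j h1 p.1.1 p.2.1 (σ s) = _
          rw [← hz0, EVR_inr]
        by_cases hp : (jn h1 h2 p).2 ∘ τ = x.2 ∧ ∀ q, q ≠ s → ((jn h1 h2 p).1 ∘ σ) q = x.1 q
        · rw [if_pos hp]
          obtain ⟨⟨h3, h4⟩, h5, h6⟩ := hc2.mp hp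
          rw [if_pos (Prod.ext (funext fun q => h5 q (by simp)) h3), if_pos, hX]
          exact ⟨h4, fun q hq => h6 q (fun e => hq (Sum.inr_injective e))⟩
        · rw [if_neg hp]
          by_cases h3 : p.1 = p0.1
          · rw [if_pos h3, if_neg, map_zero]
            rintro ⟨h4, h5⟩
            refine hp (hc2.mpr ⟨⟨congrArg Prod.snd h3, h4⟩, fun q _ => ?_, fun q hq => h5 q ?_⟩)
            · exact congrFun (congrArg Prod.fst h3) q
            · intro e
              exact hq (by rw [e])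
          · rw [if_neg h3]
      rw [hE]
      exact EVR_ex2 _ (Submodule.mem_sup_right (Submodule.subset_span
        (Or.inl ⟨s', p0.2, l, rfl⟩))) _
  · have hE : EVR_g B h1 h2 σ τ (rTh s x l) = 0 := by
      funext p
      change rTh s x l ((jn h1 h2 p).1 ∘ σ, (jn h1 h2 p).2 ∘ τ) = 0
      rw [EVR_Th, if_neg]
      exact fun h => hp0 ⟨p, h⟩
    rw [hE]
    exact Submodule.zero_mem _

private theorem EVR_gEt (h1 : a1 + a2 = a) (h2 : b1 + b2 = b) (σ : Equiv.Perm (Fin a))
    (τ : Equiv.Perm (Fin b)) (t : Fin b) (x : Ix a b ι) (l : ℕ) :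
    EVR_g B h1 h2 σ τ (rEt t x l) ∈ K2 (Rel a1 b1 (In B)) (Rel a2 b2 (Out B)) := by
  by_cases hp0 : ∃ p0 : Ix a1 b1 (In B) × Ix a2 b2 (Out B),
      (jn h1 h2 p0).1 ∘ σ = x.1 ∧ ∀ q, q ≠ t → ((jn h1 h2 p0).2 ∘ τ) q = x.2 q
  · obtain ⟨p0, hp1, hp2⟩ := hp0
    have hcond : ∀ p : Ix a1 b1 (In B) × Ix a2 b2 (Out B),
        ((jn h1 h2 p).1 ∘ σ = x.1 ∧ ∀ q, q ≠ t → ((jn h1 h2 p).2 ∘ τ) q = x.2 q) ↔
        (p.1.1 = p0.1.1 ∧ p.2.1 = p0.2.1) ∧
        (∀ r, r ≠ τ t → EVR_j h2 p.1.2 p.2.2 r = EVR_j h2 p0.1.2 p0.2.2 r) := by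
      intro p
      refine and_congr ?_ ?_
      · rw [← hp1]
        constructor
        · intro e
          refine (EVR_eq h1 _ _ _ _).mp ?_
          funext r
          have := congrFun e (σ.symm r)
          simp only [Function.comp_apply, Equiv.apply_symm_apply] at this
          exact this
        · intro e
          have := (EVR_eq h1 _ _ _ _).mpr e
          funext r
          exact congrFun this (σ r)
      · constructor
        · intro H r hr
          have hq : τ.symm r ≠ t := fun e => hr (by rw [← e]; simp)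
          have e1 := (H _ hq).trans (hp2 _ hq).symm
          simp only [Function.comp_apply, Equiv.apply_symm_apply] at e1
          exact e1
        · intro H q hq
          rw [← hp2 q hq]
          exact H (τ q) (fun e => hq (τ.injective e))
    obtain ⟨z0, hz0⟩ := (EVR_P h2).surjective (τ t)
    rcases z0 with t' | t'
    · have hE : EVR_g B h1 h2 σ τ (rEt t x l) = ex1 (rEt t' p0.1 l) p0.2 := by
        funext p
        change rEt t x l ((jn h1 h2 p).1 ∘ σ, (jn h1 h2 p).2 ∘ τ) =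
          if p.2 = p0.2 then rename Subtype.val (rEt t' p0.1 l p.1) else 0
        rw [EVR_Et, EVR_Et]
        have hc2 := hcond p
        rw [← hz0, EVR_ag] at hc2
        have hX : (X (((jn h1 h2 p).2 ∘ τ) t) : S ι) ^ l =
            rename Subtype.val ((X (p.1.2 t') : S (In B)) ^ l) := by
          rw [map_pow, rename_X]
          congr 2
          change EVR_j h2 p.1.2 p.2.2 (τ t) = _
          rw [← hz0, EVR_inl]
        by_cases hp : (jn h1 h2 p).1 ∘ σ = x.1 ∧ ∀ q, q ≠ t → ((jn h1 h2 p).2 ∘ τ) q = x.2 q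
        · rw [if_pos hp]
          obtain ⟨⟨h3, h4⟩, h5, h6⟩ := hc2.mp hp
          rw [if_pos (Prod.ext h4 (funext fun q => h6 q (by simp))), if_pos, hX]
          exact ⟨h3, fun q hq => h5 q (fun e => hq (Sum.inl_injective e))⟩
        · rw [if_neg hp]
          by_cases h3 : p.2 = p0.2
          · rw [if_pos h3, if_neg, map_zero]
            rintro ⟨h4, h5⟩
            refine hp (hc2.mpr ⟨⟨h4, congrArg Prod.fst h3⟩, fun q hq => h5 q ?_, fun q _ => ?_⟩)
            · intro e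
              exact hq (by rw [e])
            · exact congrFun (congrArg Prod.snd h3) q
          · rw [if_neg h3]
      rw [hE]
      exact EVR_ex1 _ (Submodule.mem_sup_right (Submodule.subset_span
        (Or.inr ⟨t', p0.1, l, rfl⟩))) _
    · have hE : EVR_g B h1 h2 σ τ (rEt t x l) = ex2 p0.1 (rEt t' p0.2 l) := by
        funext p
        change rEt t x l ((jn h1 h2 p).1 ∘ σ, (jn h1 h2 p).2 ∘ τ) =
          if p.1 = p0.1 then rename Subtype.val (rEt t' p0.2 l p.2) else 0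
        rw [EVR_Et, EVR_Et]
        have hc2 := hcond p
        rw [← hz0, EVR_ag] at hc2
        have hX : (X (((jn h1 h2 p).2 ∘ τ) t) : S ι) ^ l =
            rename Subtype.val ((X (p.2.2 t') : S (Out B)) ^ l) := by
          rw [map_pow, rename_X]
          congr 2
          change EVR_j h2 p.1.2 p.2.2 (τ t) = _
          rw [← hz0, EVR_inr]
        by_cases hp : (jn h1 h2 p).1 ∘ σ = x.1 ∧ ∀ q, q ≠ t → ((jn h1 h2 p).2 ∘ τ) q = x.2 q
        · rw [if_pos hp]
          obtain ⟨⟨h3, h4⟩, h5, h6⟩ := hc2.mp hp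
          rw [if_pos (Prod.ext h3 (funext fun q => h5 q (by simp))), if_pos, hX]
          exact ⟨h4, fun q hq => h6 q (fun e => hq (Sum.inr_injective e))⟩
        · rw [if_neg hp]
          by_cases h3 : p.1 = p0.1
          · rw [if_pos h3, if_neg, map_zero]
            rintro ⟨h4, h5⟩
            refine hp (hc2.mpr ⟨⟨congrArg Prod.fst h3, h4⟩, fun q _ => ?_, fun q hq => h5 q ?_⟩)
            · exact congrFun (congrArg Prod.snd h3) q
            · intro e
              exact hq (by rw [e])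
          · rw [if_neg h3]
      rw [hE]
      exact EVR_ex2 _ (Submodule.mem_sup_right (Submodule.subset_span
        (Or.inr ⟨t', p0.2, l, rfl⟩))) _
  · have hE : EVR_g B h1 h2 σ τ (rEt t x l) = 0 := by
      funext p
      change rEt t x l ((jn h1 h2 p).1 ∘ σ, (jn h1 h2 p).2 ∘ τ) = 0
      rw [EVR_Et, if_neg]
      exact fun h => hp0 ⟨p, h⟩
    rw [hE]
    exact Submodule.zero_mem _

private theorem EVR_gPh (h1 : a1 + a2 = a) (h2 : b1 + b2 = b) (σ : Equiv.Perm (Fin a))
    (τ : Equiv.Perm (Fin b)) (s : Fin a) (t : Fin b) (x : Ix a b ι) (l : ℕ) :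
    EVR_g B h1 h2 σ τ (rPh s t x l) ∈ K2 (Rel a1 b1 (In B)) (Rel a2 b2 (Out B)) := by
  by_cases hp0 : ∃ p0 : Ix a1 b1 (In B) × Ix a2 b2 (Out B),
      (∀ q, q ≠ s → ((jn h1 h2 p0).1 ∘ σ) q = x.1 q) ∧
      ∀ q, q ≠ t → ((jn h1 h2 p0).2 ∘ τ) q = x.2 q
  · obtain ⟨p0, hp1, hp2⟩ := hp0
    have hcond : ∀ p : Ix a1 b1 (In B) × Ix a2 b2 (Out B),
        ((∀ q, q ≠ s → ((jn h1 h2 p).1 ∘ σ) q = x.1 q) ∧
          ∀ q, q ≠ t → ((jn h1 h2 p).2 ∘ τ) q = x.2 q) ↔
        (∀ r, r ≠ σ s → EVR_j h1 p.1.1 p.2.1 r = EVR_j h1 p0.1.1 p0.2.1 r) ∧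
        (∀ r, r ≠ τ t → EVR_j h2 p.1.2 p.2.2 r = EVR_j h2 p0.1.2 p0.2.2 r) := by
      intro p
      refine and_congr ?_ ?_
      · constructor
        · intro H r hr
          have hq : σ.symm r ≠ s := fun e => hr (by rw [← e]; simp)
          have e1 := (H _ hq).trans (hp1 _ hq).symm
          simp only [Function.comp_apply, Equiv.apply_symm_apply] at e1
          exact e1
        · intro H q hq
          rw [← hp1 q hq]
          exact H (σ q) (fun e => hq (σ.injective e))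
      · constructor
        · intro H r hr
          have hq : τ.symm r ≠ t := fun e => hr (by rw [← e]; simp)
          have e1 := (H _ hq).trans (hp2 _ hq).symm
          simp only [Function.comp_apply, Equiv.apply_symm_apply] at e1
          exact e1
        · intro H q hq
          rw [← hp2 q hq]
          exact H (τ q) (fun e => hq (τ.injective e))
    obtain ⟨z1, hz1⟩ := (EVR_P h1).surjective (σ s)
    obtain ⟨z2, hz2⟩ := (EVR_P h2).surjective (τ t)
    rcases z1 with s' | s' <;> rcases z2 with t' | t'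
    · have hE : EVR_g B h1 h2 σ τ (rPh s t x l) = ex1 (rPh s' t' p0.1 l) p0.2 := by
        funext p
        change rPh s t x l ((jn h1 h2 p).1 ∘ σ, (jn h1 h2 p).2 ∘ τ) =
          if p.2 = p0.2 then rename Subtype.val (rPh s' t' p0.1 l p.1) else 0
        rw [EVR_Ph, EVR_Ph]
        have hc2 := hcond p
        rw [← hz1, ← hz2, EVR_ag, EVR_ag] at hc2
        have hX1 : ((jn h1 h2 p).1 ∘ σ) s = (p.1.1 s').1 := by
          change EVR_j h1 p.1.1 p.2.1 (σ s) = _
          rw [← hz1, EVR_inl]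
        have hX2 : ((jn h1 h2 p).2 ∘ τ) t = (p.1.2 t').1 := by
          change EVR_j h2 p.1.2 p.2.2 (τ t) = _
          rw [← hz2, EVR_inl]
        have hX : (X (((jn h1 h2 p).1 ∘ σ) s) : S ι) ^ l =
            rename Subtype.val ((X (p.1.1 s') : S (In B)) ^ l) := by
          rw [map_pow, rename_X, hX1]
        by_cases hp : ((jn h1 h2 p).1 ∘ σ) s = ((jn h1 h2 p).2 ∘ τ) t ∧
            (∀ q, q ≠ s → ((jn h1 h2 p).1 ∘ σ) q = x.1 q) ∧
            ∀ q, q ≠ t → ((jn h1 h2 p).2 ∘ τ) q = x.2 q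
        · rw [if_pos hp]
          obtain ⟨⟨h3, h4⟩, h5, h6⟩ := hc2.mp hp.2
          rw [if_pos (Prod.ext (funext fun q => h4 q (by simp)) (funext fun q => h6 q (by simp))),
            if_pos, hX]
          refine ⟨Subtype.ext ?_, fun q hq => h3 q (fun e => hq (Sum.inl_injective e)),
            fun q hq => h5 q (fun e => hq (Sum.inl_injective e))⟩
          rw [← hX1, ← hX2]
          exact hp.1
        · rw [if_neg hp]
          by_cases h3 : p.2 = p0.2
          · rw [if_pos h3, if_neg, map_zero]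
            rintro ⟨h4, h5, h6⟩
            refine hp ⟨?_, hc2.mpr ⟨⟨fun q hq => h5 q ?_, fun q _ => ?_⟩,
              fun q hq => h6 q ?_, fun q _ => ?_⟩⟩
            · rw [hX1, hX2, h4]
            · intro e
              exact hq (by rw [e])
            · exact congrFun (congrArg Prod.fst h3) q
            · intro e
              exact hq (by rw [e])
            · exact congrFun (congrArg Prod.snd h3) q
          · rw [if_neg h3]
      rw [hE]
      exact EVR_ex1 _ (Submodule.mem_sup_left (Submodule.mem_sup_right (Submodule.subset_span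
        ⟨s', t', p0.1, l, rfl⟩))) _
    · -- impossible
      have hE : EVR_g B h1 h2 σ τ (rPh s t x l) = 0 := by
        funext p
        change rPh s t x l ((jn h1 h2 p).1 ∘ σ, (jn h1 h2 p).2 ∘ τ) = 0
        rw [EVR_Ph, if_neg]
        rintro ⟨h3, -⟩
        have hX1 : ((jn h1 h2 p).1 ∘ σ) s = (p.1.1 s').1 := by
          change EVR_j h1 p.1.1 p.2.1 (σ s) = _
          rw [← hz1, EVR_inl]
        have hX2 : ((jn h1 h2 p).2 ∘ τ) t = (p.2.2 t').1 := by
          change EVR_j h2 p.1.2 p.2.2 (τ t) = _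
          rw [← hz2, EVR_inr]
        have h3 : ((jn h1 h2 p).1 ∘ σ) s = ((jn h1 h2 p).2 ∘ τ) t := h3
        rw [hX1, hX2] at h3
        exact (p.2.2 t').2 (by rw [← h3]; exact (p.1.1 s').2)
      rw [hE]
      exact Submodule.zero_mem _
    · have hE : EVR_g B h1 h2 σ τ (rPh s t x l) = 0 := by
        funext p
        change rPh s t x l ((jn h1 h2 p).1 ∘ σ, (jn h1 h2 p).2 ∘ τ) = 0
        rw [EVR_Ph, if_neg]
        rintro ⟨h3, -⟩
        have hX1 : ((jn h1 h2 p).1 ∘ σ) s = (p.2.1 s').1 := by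
          change EVR_j h1 p.1.1 p.2.1 (σ s) = _
          rw [← hz1, EVR_inr]
        have hX2 : ((jn h1 h2 p).2 ∘ τ) t = (p.1.2 t').1 := by
          change EVR_j h2 p.1.2 p.2.2 (τ t) = _
          rw [← hz2, EVR_inl]
        have h3 : ((jn h1 h2 p).1 ∘ σ) s = ((jn h1 h2 p).2 ∘ τ) t := h3
        rw [hX1, hX2] at h3
        exact (p.2.1 s').2 (by rw [h3]; exact (p.1.2 t').2)
      rw [hE]
      exact Submodule.zero_mem _
    · have hE : EVR_g B h1 h2 σ τ (rPh s t x l) = ex2 p0.1 (rPh s' t' p0.2 l) := by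
        funext p
        change rPh s t x l ((jn h1 h2 p).1 ∘ σ, (jn h1 h2 p).2 ∘ τ) =
          if p.1 = p0.1 then rename Subtype.val (rPh s' t' p0.2 l p.2) else 0
        rw [EVR_Ph, EVR_Ph]
        have hc2 := hcond p
        rw [← hz1, ← hz2, EVR_ag, EVR_ag] at hc2
        have hX1 : ((jn h1 h2 p).1 ∘ σ) s = (p.2.1 s').1 := by
          change EVR_j h1 p.1.1 p.2.1 (σ s) = _
          rw [← hz1, EVR_inr]
        have hX2 : ((jn h1 h2 p).2 ∘ τ) t = (p.2.2 t').1 := by
          change EVR_j h2 p.1.2 p.2.2 (τ t) = _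
          rw [← hz2, EVR_inr]
        have hX : (X (((jn h1 h2 p).1 ∘ σ) s) : S ι) ^ l =
            rename Subtype.val ((X (p.2.1 s') : S (Out B)) ^ l) := by
          rw [map_pow, rename_X, hX1]
        by_cases hp : ((jn h1 h2 p).1 ∘ σ) s = ((jn h1 h2 p).2 ∘ τ) t ∧
            (∀ q, q ≠ s → ((jn h1 h2 p).1 ∘ σ) q = x.1 q) ∧
            ∀ q, q ≠ t → ((jn h1 h2 p).2 ∘ τ) q = x.2 q
        · rw [if_pos hp]
          obtain ⟨⟨h3, h4⟩, h5, h6⟩ := hc2.mp hp.2
          rw [if_pos (Prod.ext (funext fun q => h3 q (by simp)) (funext fun q => h5 q (by simp))),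
            if_pos, hX]
          refine ⟨Subtype.ext ?_, fun q hq => h4 q (fun e => hq (Sum.inr_injective e)),
            fun q hq => h6 q (fun e => hq (Sum.inr_injective e))⟩
          rw [← hX1, ← hX2]
          exact hp.1
        · rw [if_neg hp]
          by_cases h3 : p.1 = p0.1
          · rw [if_pos h3, if_neg, map_zero]
            rintro ⟨h4, h5, h6⟩
            refine hp ⟨?_, hc2.mpr ⟨⟨fun q _ => ?_, fun q hq => h5 q ?_⟩,
              fun q _ => ?_, fun q hq => h6 q ?_⟩⟩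
            · rw [hX1, hX2, h4]
            · exact congrFun (congrArg Prod.fst h3) q
            · intro e
              exact hq (by rw [e])
            · exact congrFun (congrArg Prod.snd h3) q
            · intro e
              exact hq (by rw [e])
          · rw [if_neg h3]
      rw [hE]
      exact EVR_ex2 _ (Submodule.mem_sup_left (Submodule.mem_sup_right (Submodule.subset_span
        ⟨s', t', p0.2, l, rfl⟩))) _
  · have hE : EVR_g B h1 h2 σ τ (rPh s t x l) = 0 := by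
      funext p
      change rPh s t x l ((jn h1 h2 p).1 ∘ σ, (jn h1 h2 p).2 ∘ τ) = 0
      rw [EVR_Ph, if_neg]
      exact fun h => hp0 ⟨p, h.2⟩
    rw [hE]
    exact Submodule.zero_mem _

/-! ### anticommutation -/

private theorem EVR_signs {n : ℕ} (σ τ : Equiv.Perm (Fin n)) :
    (((Equiv.Perm.sign (σ * τ) : ℤˣ) : ℤ) : ℂ) =
      (((Equiv.Perm.sign σ : ℤˣ) : ℤ) : ℂ) * (((Equiv.Perm.sign τ : ℤˣ) : ℤ) : ℂ) := by
  rw [Equiv.Perm.sign_mul]
  push_cast
  ring

private theorem EVR_uA (h1 : a1 + a2 = a) (h2 : b1 + b2 = b) (π : Equiv.Perm (Fin a))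
    (x : Ix a b ι) : ev B h1 h2 (rA π x) = 0 := by
  unfold rA
  rw [map_sub, sub_eq_zero]
  funext p
  change (∑ σ : Equiv.Perm (Fin a), ∑ τ : Equiv.Perm (Fin b),
    ((((Equiv.Perm.sign σ : ℤ) * (Equiv.Perm.sign τ : ℤ) : ℤ)) : ℂ) •
      (u (x.1 ∘ π, x.2) : T a b ι) ((jn h1 h2 p).1 ∘ σ, (jn h1 h2 p).2 ∘ τ)) =
    ∑ σ : Equiv.Perm (Fin a), ∑ τ : Equiv.Perm (Fin b),
    ((((Equiv.Perm.sign σ : ℤ) * (Equiv.Perm.sign τ : ℤ) : ℤ)) : ℂ) •
      ((((Equiv.Perm.sign π : ℤ) : ℂ)) •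
        (u x : T a b ι) ((jn h1 h2 p).1 ∘ σ, (jn h1 h2 p).2 ∘ τ))
  rw [← Equiv.sum_comp (Equiv.mulRight π)]
  refine Finset.sum_congr rfl fun σ _ => Finset.sum_congr rfl fun τ _ => ?_
  rw [Equiv.coe_mulRight, smul_smul, EVR_u, EVR_u]
  have h3 : (((jn h1 h2 p).1 ∘ (σ * π : Equiv.Perm (Fin a)), (jn h1 h2 p).2 ∘ τ) =
      (x.1 ∘ π, x.2)) ↔ (((jn h1 h2 p).1 ∘ σ, (jn h1 h2 p).2 ∘ τ) = x) := by
    constructor
    · intro e
      have e2 := congrArg Prod.snd e
      refine Prod.ext ?_ e2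
      funext r
      have := congrFun (congrArg Prod.fst e) (π.symm r)
      simpa using this
    · intro e
      have e2 := congrArg Prod.snd e
      refine Prod.ext ?_ e2
      funext r
      exact congrFun (congrArg Prod.fst e) (π r)
  congr 1
  · push_cast
    rw [EVR_signs]
    ring
  · exact if_congr h3 rfl rfl

private theorem EVR_uB (h1 : a1 + a2 = a) (h2 : b1 + b2 = b) (π : Equiv.Perm (Fin b))
    (x : Ix a b ι) : ev B h1 h2 (rB π x) = 0 := by
  unfold rB
  rw [map_sub, sub_eq_zero]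
  funext p
  change (∑ σ : Equiv.Perm (Fin a), ∑ τ : Equiv.Perm (Fin b),
    ((((Equiv.Perm.sign σ : ℤ) * (Equiv.Perm.sign τ : ℤ) : ℤ)) : ℂ) •
      (u (x.1, x.2 ∘ π) : T a b ι) ((jn h1 h2 p).1 ∘ σ, (jn h1 h2 p).2 ∘ τ)) =
    ∑ σ : Equiv.Perm (Fin a), ∑ τ : Equiv.Perm (Fin b),
    ((((Equiv.Perm.sign σ : ℤ) * (Equiv.Perm.sign τ : ℤ) : ℤ)) : ℂ) •
      ((((Equiv.Perm.sign π : ℤ) : ℂ)) •
        (u x : T a b ι) ((jn h1 h2 p).1 ∘ σ, (jn h1 h2 p).2 ∘ τ))
  refine Finset.sum_congr rfl fun σ _ => ?_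
  rw [← Equiv.sum_comp (Equiv.mulRight π)]
  refine Finset.sum_congr rfl fun τ _ => ?_
  rw [Equiv.coe_mulRight, smul_smul, EVR_u, EVR_u]
  have h3 : (((jn h1 h2 p).1 ∘ σ, (jn h1 h2 p).2 ∘ (τ * π : Equiv.Perm (Fin b))) =
      (x.1, x.2 ∘ π)) ↔ (((jn h1 h2 p).1 ∘ σ, (jn h1 h2 p).2 ∘ τ) = x) := by
    constructor
    · intro e
      have e2 := congrArg Prod.fst e
      refine Prod.ext e2 ?_
      funext r
      have := congrFun (congrArg Prod.snd e) (π.symm r)
      simpa using this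
    · intro e
      have e2 := congrArg Prod.fst e
      refine Prod.ext e2 ?_
      funext r
      exact congrFun (congrArg Prod.snd e) (π r)
  congr 1
  · push_cast
    rw [EVR_signs]
    ring
  · exact if_congr h3 rfl rfl

end EVR

theorem thm_EVR : St_EVR := by
  intro ι _ _ B a b a1 a2 b1 b2 h1 h2 c hc
  obtain ⟨K, hK⟩ : ∃ K : Submodule (S ι) (T2 a1 a2 b1 b2 B),
    K = K2 (Rel a1 b1 (In B)) (Rel a2 b2 (Out B)) := ⟨_, rfl⟩
  have key : Rel a b ι ≤ K.comap (ev B h1 h2) := by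
    unfold Rel RelP RelA
    refine sup_le (sup_le ?_ ?_) ?_
    · rw [Submodule.span_le]
      rintro _ (⟨τ, x, rfl⟩ | ⟨τ, x, rfl⟩)
      · change ev B h1 h2 (rA τ x) ∈ K
        rw [EVR_uA]
        exact Submodule.zero_mem _
      · change ev B h1 h2 (rB τ x) ∈ K
        rw [EVR_uB]
        exact Submodule.zero_mem _
    · rw [Submodule.span_le]
      rintro _ ⟨s, t, x, l, rfl⟩
      exact EVR_mem h1 h2 _ _ fun σ τ => by rw [hK]; exact EVR_gPh h1 h2 σ τ s t x l
    · rw [Submodule.span_le]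
      rintro _ (⟨s, x, l, rfl⟩ | ⟨t, x, l, rfl⟩)
      · exact EVR_mem h1 h2 _ _ fun σ τ => by rw [hK]; exact EVR_gTh h1 h2 σ τ s x l
      · exact EVR_mem h1 h2 _ _ fun σ τ => by rw [hK]; exact EVR_gEt h1 h2 σ τ t x l
  have := key hc
  rw [hK] at this
  exact this

end MDC
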