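import Pool.Agent.MDC.StC

/-!
# MDC / EVS: values of the evaluation maps on monomials
-/

set_option autoImplicit false

open MvPolynomial

namespace MDC

/-- signed number of the permutations which carry `f` to `f'` -/
private noncomputable def EVS_al {n : ℕ} {X : Type} [DecidableEq X] (f' f : Fin n → X) : ℂ :=
  ∑ σ : Equiv.Perm (Fin n), ((Equiv.Perm.sign σ : ℤ) : ℂ) * (if f' ∘ σ = f then 1 else 0)

private theorem EVS_sum {ι : Type} [DecidableEq ι] (B : Finset ι) (a1 a2 : ℕ)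
    (f1' f1 : Fin a1 → In B) (f2' f2 : Fin a2 → Out B) :
    ∑ σ : Equiv.Perm (Fin a1 ⊕ Fin a2), ((Equiv.Perm.sign σ : ℤ) : ℂ) *
      (if Sum.elim (fun q => (f1' q).1) (fun q => (f2' q).1) ∘ σ =
        Sum.elim (fun q => (f1 q).1) (fun q => (f2 q).1) then 1 else 0) =
      EVS_al f1' f1 * EVS_al f2' f2 := by
  unfold EVS_al
  rw [Finset.sum_mul_sum, ← Finset.sum_product']
  symm
  refine Finset.sum_of_injOn (fun p : Equiv.Perm (Fin a1) × Equiv.Perm (Fin a2) =>
    Equiv.Perm.sumCongr p.1 p.2) ?_ ?_ ?_ ?_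
  · intro p _ p' _ h
    exact Equiv.Perm.sumCongrHom_injective h
  · intro p _
    simp
  · intro σ _ hσ
    rw [if_neg, mul_zero]
    intro h
    apply hσ
    have hm : Set.MapsTo σ (Set.range (Sum.inl : Fin a1 → Fin a1 ⊕ Fin a2))
        (Set.range (Sum.inl : Fin a1 → Fin a1 ⊕ Fin a2)) := by
      rintro _ ⟨q, rfl⟩
      have h2 := congrFun h (Sum.inl q)
      simp only [Function.comp_apply, Sum.elim_inl] at h2
      rcases hx : σ (Sum.inl q) with y | y
      · exact ⟨y, rfl⟩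
      · exfalso
        rw [hx, Sum.elim_inr] at h2
        apply (f2' y).2
        rw [h2]
        exact (f1 q).2
    obtain ⟨p, hp⟩ := Equiv.Perm.mem_sumCongrHom_range_of_perm_mapsTo_inl hm
    exact ⟨p, by simp, hp⟩
  · intro p _
    rw [Equiv.Perm.sign_sumCongr]
    have h : (Sum.elim (fun q => (f1' q).1) (fun q => (f2' q).1) ∘ (Equiv.Perm.sumCongr p.1 p.2) =
        Sum.elim (fun q => (f1 q).1) (fun q => (f2 q).1)) ↔ (f1' ∘ p.1 = f1 ∧ f2' ∘ p.2 = f2) := by
      constructor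
      · intro h
        refine ⟨funext fun q => Subtype.ext ?_, funext fun q => Subtype.ext ?_⟩
        · have := congrFun h (Sum.inl q)
          simpa using this
        · have := congrFun h (Sum.inr q)
          simpa using this
      · rintro ⟨h1, h2⟩
        funext q
        rcases q with q | q
        · have := congrArg Subtype.val (congrFun h1 q)
          simpa using this
        · have := congrArg Subtype.val (congrFun h2 q)
          simpa using this
    by_cases h1 : f1' ∘ p.1 = f1 <;> by_cases h2 : f2' ∘ p.2 = f2 <;>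
      simp [h, h1, h2]

/-- one block of indices -/
private def EVS_jn {ι : Type} {B : Finset ι} {a1 a2 a : ℕ} (h1 : a1 + a2 = a)
    (f1 : Fin a1 → In B) (f2 : Fin a2 → Out B) : Fin a → ι :=
  fun s => Fin.append (fun q => (f1 q).1) (fun q => (f2 q).1) (Fin.cast h1.symm s)

private theorem EVS_jn_eq {ι : Type} {B : Finset ι} {a1 a2 a : ℕ} (h1 : a1 + a2 = a)
    (f1 : Fin a1 → In B) (f2 : Fin a2 → Out B) :
    EVS_jn h1 f1 f2 = Sum.elim (fun q => (f1 q).1) (fun q => (f2 q).1) ∘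
      (finSumFinEquiv.trans (finCongr h1)).symm := by
  subst h1
  funext s
  obtain ⟨q, rfl⟩ := finSumFinEquiv.surjective s
  unfold EVS_jn
  rcases q with q | q
  · simp [finSumFinEquiv]
  · simp [finSumFinEquiv]

private theorem EVS_sum2 {ι : Type} [DecidableEq ι] (B : Finset ι) {a1 a2 a : ℕ}
    (h1 : a1 + a2 = a) (f1' f1 : Fin a1 → In B) (f2' f2 : Fin a2 → Out B) :
    ∑ σ : Equiv.Perm (Fin a), ((Equiv.Perm.sign σ : ℤ) : ℂ) *
      (if EVS_jn h1 f1' f2' ∘ σ = EVS_jn h1 f1 f2 then 1 else 0) =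
      EVS_al f1' f1 * EVS_al f2' f2 := by
  rw [← EVS_sum]
  set E := (finSumFinEquiv.trans (finCongr h1) : Fin a1 ⊕ Fin a2 ≃ Fin a) with hE
  symm
  refine Fintype.sum_equiv E.permCongr _ _ fun σ => ?_
  rw [Equiv.Perm.sign_permCongr]
  congr 1
  refine if_congr ?_ rfl rfl
  rw [EVS_jn_eq, EVS_jn_eq, ← hE]
  constructor
  · intro h
    funext s
    have := congrFun h (E.symm s)
    simpa [Equiv.permCongr_apply] using this
  · intro h
    funext s
    have := congrFun h (E s)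
    simpa [Equiv.permCongr_apply] using this

section

variable {a1 a2 b1 b2 : ℕ} {ι : Type} [Fintype ι] [DecidableEq ι]

/-- exterior product -/
private noncomputable def EVS_bx {B : Finset ι} (c1 : T a1 b1 (In B)) (c2 : T a2 b2 (Out B)) :
    T2 a1 a2 b1 b2 B :=
  fun p => rename Subtype.val (c1 p.1) * rename Subtype.val (c2 p.2)

private theorem EVS_bx1 {B : Finset ι} (K : Submodule (S (In B)) (T a1 b1 (In B)))
    (K' : Submodule (S (Out B)) (T a2 b2 (Out B))) (c1 : T a1 b1 (In B)) (hc : c1 ∈ K)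
    (c2 : T a2 b2 (Out B)) : EVS_bx c1 c2 ∈ K2 K K' := by
  have h : EVS_bx c1 c2 = ∑ y : Ix a2 b2 (Out B),
      (rename Subtype.val (c2 y) : S ι) • (ex1 c1 y : T2 a1 a2 b1 b2 B) := by
    funext p
    rw [Finset.sum_apply]
    simp only [Pi.smul_apply, ex1, smul_eq_mul, mul_ite, mul_zero]
    rw [Finset.sum_ite_eq Finset.univ p.2, if_pos (Finset.mem_univ _)]
    exact mul_comm _ _
  rw [h]
  refine Submodule.sum_mem _ fun y _ => Submodule.smul_mem _ _ ?_
  exact Submodule.subset_span (Or.inl ⟨c1, hc, y, rfl⟩)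

omit [Fintype ι] in
private theorem EVS_bx2 {B : Finset ι} (K : Submodule (S (In B)) (T a1 b1 (In B)))
    (K' : Submodule (S (Out B)) (T a2 b2 (Out B))) (c1 : T a1 b1 (In B))
    (c2 : T a2 b2 (Out B)) (hc : c2 ∈ K') : EVS_bx c1 c2 ∈ K2 K K' := by
  have h : EVS_bx c1 c2 = ∑ y : Ix a1 b1 (In B),
      (rename Subtype.val (c1 y) : S ι) • (ex2 y c2 : T2 a1 a2 b1 b2 B) := by
    funext p
    rw [Finset.sum_apply]
    simp only [Pi.smul_apply, ex2, smul_eq_mul, mul_ite, mul_zero]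
    rw [Finset.sum_ite_eq Finset.univ p.1, if_pos (Finset.mem_univ _)]
    rfl
  rw [h]
  refine Submodule.sum_mem _ fun y _ => Submodule.smul_mem _ _ ?_
  exact Submodule.subset_span (Or.inr ⟨y, c2, hc, rfl⟩)

/-- the value on one side -/
private noncomputable def EVS_c {n m : ℕ} {κ : Type} [DecidableEq κ] (x : Ix n m κ) : T n m κ :=
  fun y => C (EVS_al y.1 x.1 * EVS_al y.2 x.2)

private theorem EVS_c_mem {n m : ℕ} {κ : Type} [Fintype κ] [DecidableEq κ] (x : Ix n m κ) :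
    EVS_c x - ((n.factorial * m.factorial : ℕ) : ℂ) • u x ∈ RelA n m κ := by
  have h1 : EVS_c x = ∑ σ : Equiv.Perm (Fin n), ∑ τ : Equiv.Perm (Fin m),
      (((Equiv.Perm.sign σ : ℤ) : ℂ) * ((Equiv.Perm.sign τ : ℤ) : ℂ)) •
        u (x.1 ∘ (σ⁻¹ : Equiv.Perm (Fin n)), x.2 ∘ (τ⁻¹ : Equiv.Perm (Fin m))) := by
    funext y
    unfold EVS_c EVS_al
    rw [Finset.sum_mul_sum, map_sum, Finset.sum_apply]
    refine Finset.sum_congr rfl fun σ _ => ?_
    rw [map_sum, Finset.sum_apply]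
    refine Finset.sum_congr rfl fun τ _ => ?_
    rw [Pi.smul_apply, u, Pi.single_apply]
    have h2 : (y = (x.1 ∘ (σ⁻¹ : Equiv.Perm (Fin n)), x.2 ∘ (τ⁻¹ : Equiv.Perm (Fin m)))) ↔
        (y.1 ∘ σ = x.1 ∧ y.2 ∘ τ = x.2) := by
      constructor
      · rintro rfl
        refine ⟨?_, ?_⟩
        · funext s; simp
        · funext s; simp
      · rintro ⟨h3, h4⟩
        refine Prod.ext ?_ ?_
        · rw [← h3]; funext s; simp
        · rw [← h4]; funext s; simp
    by_cases h3 : y.1 ∘ σ = x.1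
    · by_cases h4 : y.2 ∘ τ = x.2
      · rw [if_pos h3, if_pos h4, if_pos (h2.2 ⟨h3, h4⟩), mul_one, mul_one,
          MvPolynomial.smul_eq_C_mul, mul_one]
      · rw [if_neg h4, if_neg (fun h => h4 (h2.1 h).2)]
        simp
    · rw [if_neg h3, if_neg (fun h => h3 (h2.1 h).1)]
      simp
  have h2 : ((n.factorial * m.factorial : ℕ) : ℂ) • u x =
      ∑ σ : Equiv.Perm (Fin n), ∑ τ : Equiv.Perm (Fin m), (u x : T n m κ) := by
    rw [Finset.sum_const, Finset.sum_const, Finset.card_univ, Finset.card_univ,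
      Fintype.card_perm, Fintype.card_perm, Fintype.card_fin, Fintype.card_fin, ← mul_smul,
      Nat.cast_smul_eq_nsmul]
  rw [h1, h2, ← Finset.sum_sub_distrib]
  refine Submodule.sum_mem _ fun σ _ => ?_
  rw [← Finset.sum_sub_distrib]
  refine Submodule.sum_mem _ fun τ _ => ?_
  have e1 : ((Equiv.Perm.sign σ : ℤ) : ℂ) * ((Equiv.Perm.sign σ : ℤ) : ℂ) = 1 := by
    rw [← Int.cast_mul, ← Units.val_mul, Int.units_mul_self, Units.val_one, Int.cast_one]
  have e2 : ((Equiv.Perm.sign τ : ℤ) : ℂ) * ((Equiv.Perm.sign τ : ℤ) : ℂ) = 1 := by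
    rw [← Int.cast_mul, ← Units.val_mul, Int.units_mul_self, Units.val_one, Int.cast_one]
  have hA : rA (σ⁻¹) (x.1, x.2 ∘ (τ⁻¹ : Equiv.Perm (Fin m))) ∈ RelA n m κ :=
    Submodule.subset_span (Or.inl ⟨_, _, rfl⟩)
  have hB : rB (τ⁻¹) x ∈ RelA n m κ := Submodule.subset_span (Or.inr ⟨_, _, rfl⟩)
  unfold rA at hA
  unfold rB at hB
  rw [Equiv.Perm.sign_inv] at hA hB
  simp only at hA
  have h3 := Submodule.add_mem _ (Submodule.smul_of_tower_mem _
    (((Equiv.Perm.sign σ : ℤ) : ℂ) * ((Equiv.Perm.sign τ : ℤ) : ℂ)) hA)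
    (Submodule.smul_of_tower_mem _ ((Equiv.Perm.sign τ : ℤ) : ℂ) hB)
  refine (congrArg (fun t : T n m κ => t ∈ RelA n m κ) ?_).mp h3
  rw [smul_sub, smul_sub, smul_smul, smul_smul]
  have e3 : ((Equiv.Perm.sign σ : ℤ) : ℂ) * ((Equiv.Perm.sign τ : ℤ) : ℂ) *
      ((Equiv.Perm.sign σ : ℤ) : ℂ) = ((Equiv.Perm.sign τ : ℤ) : ℂ) := by
    linear_combination ((Equiv.Perm.sign τ : ℤ) : ℂ) * e1
  rw [e3, e2, one_smul]
  abel

end

private theorem EVS_ev {ι : Type} [Fintype ι] [DecidableEq ι] (B : Finset ι)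
    {a b a1 a2 b1 b2 : ℕ} (h1 : a1 + a2 = a) (h2 : b1 + b2 = b) (x : Ix a b ι)
    (p : Ix a1 b1 (In B) × Ix a2 b2 (Out B)) :
    ev B h1 h2 (u x) p = C ((∑ σ : Equiv.Perm (Fin a), ((Equiv.Perm.sign σ : ℤ) : ℂ) *
      (if EVS_jn h1 p.1.1 p.2.1 ∘ σ = x.1 then 1 else 0)) *
      (∑ τ : Equiv.Perm (Fin b), ((Equiv.Perm.sign τ : ℤ) : ℂ) *
      (if EVS_jn h2 p.1.2 p.2.2 ∘ τ = x.2 then 1 else 0))) := by
  rw [Finset.sum_mul_sum, map_sum]
  unfold ev
  simp only [LinearMap.coe_mk, AddHom.coe_mk]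
  refine Finset.sum_congr rfl fun σ _ => ?_
  rw [map_sum]
  refine Finset.sum_congr rfl fun τ _ => ?_
  rw [u, Pi.single_apply]
  have h3 : (((jn h1 h2 p).1 ∘ σ, (jn h1 h2 p).2 ∘ τ) = x) ↔
      (EVS_jn h1 p.1.1 p.2.1 ∘ σ = x.1 ∧ EVS_jn h2 p.1.2 p.2.2 ∘ τ = x.2) := Prod.ext_iff
  by_cases h4 : EVS_jn h1 p.1.1 p.2.1 ∘ σ = x.1
  · by_cases h5 : EVS_jn h2 p.1.2 p.2.2 ∘ τ = x.2
    · rw [if_pos h4, if_pos h5, if_pos (h3.2 ⟨h4, h5⟩), mul_one, mul_one,
        MvPolynomial.smul_eq_C_mul, mul_one, Int.cast_mul]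
    · rw [if_neg h5, if_neg (fun h => h5 (h3.1 h).2)]
      simp
  · rw [if_neg h4, if_neg (fun h => h4 (h3.1 h).1)]
    simp

/-- number of entries in `B` -/
private theorem EVS_count {ι : Type} [DecidableEq ι] (B : Finset ι) {a a1 a2 : ℕ}
    (h1 : a1 + a2 = a) (f1 : Fin a1 → In B) (f2 : Fin a2 → Out B) :
    (Finset.univ.filter (fun s : Fin a => EVS_jn h1 f1 f2 s ∈ B)).card = a1 := by
  rw [EVS_jn_eq]
  set E := (finSumFinEquiv.trans (finCongr h1) : Fin a1 ⊕ Fin a2 ≃ Fin a) with hE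
  have h3 : (Finset.univ.filter (fun s : Fin a => (Sum.elim (fun q => (f1 q).1)
      (fun q => (f2 q).1) ∘ E.symm) s ∈ B)) =
      (Finset.univ : Finset (Fin a1)).image (fun q => E (Sum.inl q)) := by
    ext s
    simp only [Finset.mem_filter, Finset.mem_univ, true_and, Finset.mem_image, Function.comp_apply]
    constructor
    · intro h
      rcases hx : E.symm s with q | q
      · exact ⟨q, by rw [← hx, Equiv.apply_symm_apply]⟩
      · exfalso
        rw [hx] at h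
        exact (f2 q).2 h
    · rintro ⟨q, rfl⟩
      rw [Equiv.symm_apply_apply]
      exact (f1 q).2
  rw [h3, Finset.card_image_of_injective _ (fun q q' h => Sum.inl_injective (E.injective h)),
    Finset.card_univ, Fintype.card_fin]

private theorem EVS_zero {ι : Type} [DecidableEq ι] (B : Finset ι) {a a1 a2 a1' a2' : ℕ}
    (h1 : a1 + a2 = a) (h1' : a1' + a2' = a) (f1 : Fin a1 → In B) (f2 : Fin a2 → Out B)
    (f1' : Fin a1' → In B) (f2' : Fin a2' → Out B) (hne : a1' ≠ a1) :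
    (∑ σ : Equiv.Perm (Fin a), ((Equiv.Perm.sign σ : ℤ) : ℂ) *
      (if EVS_jn h1' f1' f2' ∘ σ = EVS_jn h1 f1 f2 then 1 else 0)) = 0 := by
  refine Finset.sum_eq_zero fun σ _ => ?_
  rw [if_neg, mul_zero]
  intro h
  apply hne
  rw [← EVS_count B h1' f1' f2', ← EVS_count B h1 f1 f2, ← h]
  refine (Finset.card_bij (fun s _ => σ s) ?_ ?_ ?_).symm
  · intro s hs
    simpa using hs
  · intro s _ s' _ h
    exact σ.injective h
  · intro s hs
    exact ⟨σ⁻¹ s, by simpa using hs, by simp⟩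

theorem thm_EVS : St_EVS := by
  intro ι _ _ B a b a1 a2 b1 b2 h1 h2 p
  refine ⟨?_, ?_⟩
  · have hbx : ev B h1 h2 (u (jn h1 h2 p)) = EVS_bx (EVS_c p.1) (EVS_c p.2) := by
      funext y
      rw [EVS_ev]
      have e1 : (jn h1 h2 p).1 = EVS_jn h1 p.1.1 p.2.1 := rfl
      have e2 : (jn h1 h2 p).2 = EVS_jn h2 p.1.2 p.2.2 := rfl
      rw [e1, e2, EVS_sum2, EVS_sum2]
      unfold EVS_bx EVS_c
      rw [rename_C, rename_C, ← map_mul]
      congr 1
      ring
    have hu : ((a1.factorial * a2.factorial * b1.factorial * b2.factorial : ℕ) : ℂ) •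
        (u2 p : T2 a1 a2 b1 b2 B) =
        EVS_bx (((a1.factorial * b1.factorial : ℕ) : ℂ) • u p.1)
          (((a2.factorial * b2.factorial : ℕ) : ℂ) • u p.2) := by
      funext y
      unfold EVS_bx u2 u
      simp only [Pi.smul_apply, Pi.single_apply]
      by_cases h3 : y.1 = p.1
      · by_cases h4 : y.2 = p.2
        · rw [if_pos h3, if_pos h4, if_pos (Prod.ext h3 h4), MvPolynomial.smul_eq_C_mul,
            MvPolynomial.smul_eq_C_mul, MvPolynomial.smul_eq_C_mul, mul_one, mul_one, mul_one,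
            rename_C, rename_C, ← map_mul]
          congr 1
          push_cast
          ring
        · rw [if_neg h4, if_neg (fun h => h4 (congrArg Prod.snd h))]
          simp
      · rw [if_neg h3, if_neg (fun h => h3 (congrArg Prod.fst h))]
        simp
    rw [hbx, hu]
    have hsplit : EVS_bx (EVS_c p.1) (EVS_c p.2) -
        EVS_bx (((a1.factorial * b1.factorial : ℕ) : ℂ) • u p.1)
          (((a2.factorial * b2.factorial : ℕ) : ℂ) • u p.2) =
        (EVS_bx (EVS_c p.1 - ((a1.factorial * b1.factorial : ℕ) : ℂ) • u p.1) (EVS_c p.2) +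
        EVS_bx (((a1.factorial * b1.factorial : ℕ) : ℂ) • u p.1)
          (EVS_c p.2 - ((a2.factorial * b2.factorial : ℕ) : ℂ) • u p.2) :
            T2 a1 a2 b1 b2 B) := by
      funext y
      unfold EVS_bx
      simp only [Pi.sub_apply, Pi.add_apply, map_sub]
      ring
    rw [hsplit]
    exact Submodule.add_mem _ (EVS_bx1 _ _ _ (EVS_c_mem p.1) _)
      (EVS_bx2 _ _ _ _ (EVS_c_mem p.2))
  · intro a1' a2' b1' b2' h1' h2' hne
    funext y
    rw [EVS_ev]
    have e1 : (jn h1 h2 p).1 = EVS_jn h1 p.1.1 p.2.1 := rfl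
    have e2 : (jn h1 h2 p).2 = EVS_jn h2 p.1.2 p.2.2 := rfl
    rw [e1, e2]
    rcases hne with hne | hne
    · rw [EVS_zero B h1 h1' _ _ _ _ hne, zero_mul, map_zero]
      rfl
    · rw [EVS_zero B h2 h2' _ _ _ _ hne, mul_zero, map_zero]
      rfl

end MDC
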