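import Pool.Agent.MDC.StD

set_option autoImplicit false

/-!
# MDC / EXA: exactness, the alternating sum of the traces
-/

open MvPolynomial

namespace MDC

section abs

variable (M : ℕ → Type) [∀ a, AddCommGroup (M a)] [∀ a, Module ℂ (M a)]
  [∀ a, Module.Finite ℂ (M a)]
  (W : ∀ a, M a →ₗ[ℂ] M a) (P : ∀ a, ℕ → (M a →ₗ[ℂ] M a))
  (d : ∀ a, M a →ₗ[ℂ] M (a + 1)) (D : ∀ a, M (a + 1) →ₗ[ℂ] M a)

/-- the part of total degree `e ≥ 1` does not contribute -/
private theorem EXA_abs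
    (h1 : ∀ (a q : ℕ) (x : M (a + 1)), D (a + 1) (d (a + 1) (P (a + 1) q x)) +
      ((a : ℂ) + 1) • d a (D a (P (a + 1) q x)) =
      (((a + 1).factorial : ℂ) * ((q : ℂ) + a + 1)) • P (a + 1) q x)
    (h0 : ∀ (q : ℕ) (x : M 0), D 0 (d 0 (P 0 q x)) = (q : ℂ) • P 0 q x)
    (hDW : ∀ (a : ℕ) (x : M (a + 1)), D a (W (a + 1) x) = W a (D a x))
    (hPW : ∀ (a q : ℕ) (x : M a), P a q (W a x) = W a (P a q x))
    (hDP : ∀ (a q : ℕ) (x : M (a + 1)), D a (P (a + 1) q x) = P a (q + 1) (D a x))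
    (hd0 : ∀ (a : ℕ) (x : M a), d a (P a 0 x) = 0) (e : ℕ) (he : 1 ≤ e) :
    ∑ a ∈ Finset.range (e + 1), (-1 : ℂ) ^ a *
      LinearMap.trace ℂ (M a) (W a ∘ₗ P a (e - a)) = 0 := by
  set t : ℕ → ℕ → ℂ := fun a q => LinearMap.trace ℂ (M a) (W a ∘ₗ P a q) with ht
  set X : ℕ → ℕ → ℂ := fun a q => (a.factorial : ℂ)⁻¹ *
    LinearMap.trace ℂ (M a) ((D a ∘ₗ d a) ∘ₗ (P a q ∘ₗ W a)) with hX
  have hcomm : ∀ a q : ℕ, P a q ∘ₗ W a = W a ∘ₗ P a q := by
    intro a q
    ext x
    exact hPW a q x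
  have e1 : ∀ q : ℕ, (q : ℂ) * t 0 q = X 0 q := by
    intro q
    have h2 : (D 0 ∘ₗ d 0) ∘ₗ (P 0 q ∘ₗ W 0) = (q : ℂ) • (W 0 ∘ₗ P 0 q) := by
      rw [← hcomm]
      ext x
      exact h0 q (W 0 x)
    simp only [hX, ht]
    rw [h2, map_smul, smul_eq_mul, Nat.factorial_zero, Nat.cast_one, inv_one, one_mul]
  have e2 : ∀ a q : ℕ, ((q : ℂ) + a + 1) * t (a + 1) q = X (a + 1) q + X a (q + 1) := by
    intro a q
    have h2 : (D (a + 1) ∘ₗ d (a + 1)) ∘ₗ (P (a + 1) q ∘ₗ W (a + 1)) +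
        ((a : ℂ) + 1) • (d a ∘ₗ (D a ∘ₗ (P (a + 1) q ∘ₗ W (a + 1)))) =
        (((a + 1).factorial : ℂ) * ((q : ℂ) + a + 1)) • (W (a + 1) ∘ₗ P (a + 1) q) := by
      rw [← hcomm]
      ext x
      exact h1 a q (W (a + 1) x)
    have h3 : D a ∘ₗ (P (a + 1) q ∘ₗ W (a + 1)) = (P a (q + 1) ∘ₗ W a) ∘ₗ D a := by
      ext x
      simp only [LinearMap.comp_apply]
      rw [hDP, hDW]
    rw [h3] at h2
    have h4 := congrArg (LinearMap.trace ℂ (M (a + 1))) h2
    rw [map_add, map_smul, map_smul, smul_eq_mul, smul_eq_mul] at h4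
    have h5 : LinearMap.trace ℂ (M (a + 1)) (d a ∘ₗ ((P a (q + 1) ∘ₗ W a) ∘ₗ D a)) =
        LinearMap.trace ℂ (M a) ((D a ∘ₗ d a) ∘ₗ (P a (q + 1) ∘ₗ W a)) := by
      rw [← LinearMap.comp_assoc, LinearMap.trace_comp_comm', ← LinearMap.comp_assoc]
    rw [h5] at h4
    simp only [hX, ht]
    have hf1 : ((a.factorial : ℕ) : ℂ) ≠ 0 := by exact_mod_cast a.factorial_ne_zero
    have hf2 : (((a + 1).factorial : ℕ) : ℂ) ≠ 0 := by exact_mod_cast (a + 1).factorial_ne_zero
    have hf3 : (((a + 1).factorial : ℕ) : ℂ) = ((a : ℂ) + 1) * (a.factorial : ℂ) := by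
      rw [Nat.factorial_succ]
      push_cast
      ring
    have hf4 : ((a : ℂ) + 1) ≠ 0 := by
      intro h
      rw [h, zero_mul] at hf3
      exact hf2 hf3
    apply mul_left_cancel₀ hf2
    rw [mul_add]
    have e3 : (((a + 1).factorial : ℕ) : ℂ) * ((a.factorial : ℂ)⁻¹ *
        LinearMap.trace ℂ (M a) ((D a ∘ₗ d a) ∘ₗ (P a (q + 1) ∘ₗ W a))) =
        ((a : ℂ) + 1) * LinearMap.trace ℂ (M a) ((D a ∘ₗ d a) ∘ₗ (P a (q + 1) ∘ₗ W a)) := by
      rw [hf3]
      field_simp
    rw [e3, ← mul_assoc (((a + 1).factorial : ℕ) : ℂ) (((a + 1).factorial : ℕ) : ℂ)⁻¹,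
      mul_inv_cancel₀ hf2, one_mul, ← mul_assoc]
    exact h4.symm
  have e3 : ∀ a : ℕ, X a 0 = 0 := by
    intro a
    have h2 : (D a ∘ₗ d a) ∘ₗ (P a 0 ∘ₗ W a) = 0 := by
      ext x
      simp only [LinearMap.comp_apply, LinearMap.zero_apply]
      rw [hd0, map_zero]
    simp only [hX]
    rw [h2, map_zero, mul_zero]
  have key : ∀ m : ℕ, m ≤ e → ∑ a ∈ Finset.range (m + 1), (-1 : ℂ) ^ a * ((e : ℂ) * t a (e - a)) =
      (-1 : ℂ) ^ m * X m (e - m) := by
    intro m
    induction m with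
    | zero =>
      intro _
      rw [Finset.sum_range_one, Nat.sub_zero, e1]
    | succ m ih =>
      intro hm
      rw [Finset.sum_range_succ, ih (by omega)]
      obtain ⟨q, hq⟩ : ∃ q, e = m + 1 + q := ⟨e - (m + 1), by omega⟩
      have hq1 : e - (m + 1) = q := by omega
      have hq2 : e - m = q + 1 := by omega
      have hq3 : (e : ℂ) = (q : ℂ) + m + 1 := by
        rw [hq]
        push_cast
        ring
      rw [hq1, hq2, hq3, e2, pow_succ]
      ring
  have h5 := key e le_rfl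
  rw [Nat.sub_self, e3, mul_zero] at h5
  have he0 : (e : ℂ) ≠ 0 := by
    have : e ≠ 0 := by omega
    exact_mod_cast this
  apply mul_left_cancel₀ he0
  rw [mul_zero, Finset.mul_sum, ← h5]
  apply Finset.sum_congr rfl
  intro a _
  simp only [ht]
  ring


/-- the alternating sum of the traces -/
private theorem EXA_sum
    (h1 : ∀ (a q : ℕ) (x : M (a + 1)), D (a + 1) (d (a + 1) (P (a + 1) q x)) +
      ((a : ℂ) + 1) • d a (D a (P (a + 1) q x)) =
      (((a + 1).factorial : ℂ) * ((q : ℂ) + a + 1)) • P (a + 1) q x)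
    (h0 : ∀ (q : ℕ) (x : M 0), D 0 (d 0 (P 0 q x)) = (q : ℂ) • P 0 q x)
    (hDW : ∀ (a : ℕ) (x : M (a + 1)), D a (W (a + 1) x) = W a (D a x))
    (hPW : ∀ (a q : ℕ) (x : M a), P a q (W a x) = W a (P a q x))
    (hDP : ∀ (a q : ℕ) (x : M (a + 1)), D a (P (a + 1) q x) = P a (q + 1) (D a x))
    (hd0 : ∀ (a : ℕ) (x : M a), d a (P a 0 x) = 0)
    (hfin : ∀ a : ℕ, ∃ Q : ℕ, ∀ R : ℕ, Q ≤ R → ∑ q ∈ Finset.range R, P a q = LinearMap.id)
    (n : ℕ) (hz : ∀ a : ℕ, n < a → Subsingleton (M a)) :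
    ∑ a ∈ Finset.range (n + 1), (-1 : ℂ) ^ a * LinearMap.trace ℂ (M a) (W a) =
      LinearMap.trace ℂ (M 0) (W 0 ∘ₗ P 0 0) := by
  choose Q hQ using hfin
  set E : ℕ := (Finset.range (n + 1)).sup Q + n + 1 with hE
  have hQE : ∀ a ∈ Finset.range (n + 1), Q a ≤ E - a := by
    intro a ha
    have h2 : Q a ≤ (Finset.range (n + 1)).sup Q := Finset.le_sup ha
    have h3 := Finset.mem_range.1 ha
    omega
  have h2 : ∀ a ∈ Finset.range (n + 1), (-1 : ℂ) ^ a * LinearMap.trace ℂ (M a) (W a) =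
      ∑ e ∈ Finset.range E, if a ≤ e then (-1 : ℂ) ^ a *
        LinearMap.trace ℂ (M a) (W a ∘ₗ P a (e - a)) else 0 := by
    intro a ha
    have h3 := hQ a (E - a) (hQE a ha)
    have h4 := Finset.mem_range.1 ha
    have h5 : W a = ∑ q ∈ Finset.range (E - a), W a ∘ₗ P a q := by
      apply LinearMap.ext
      intro x
      have h3x := LinearMap.congr_fun h3 x
      rw [LinearMap.sum_apply, LinearMap.id_apply] at h3x
      rw [LinearMap.sum_apply]
      simp only [LinearMap.comp_apply]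
      rw [← map_sum, h3x]
    have h6 : LinearMap.trace ℂ (M a) (W a) =
        ∑ q ∈ Finset.range (E - a), LinearMap.trace ℂ (M a) (W a ∘ₗ P a q) := by
      rw [← map_sum, ← h5]
    have h7 : E = a + (E - a) := by omega
    rw [h6, Finset.mul_sum]
    conv_rhs => rw [h7, Finset.sum_range_add]
    rw [Finset.sum_eq_zero (s := Finset.range a), zero_add]
    · apply Finset.sum_congr rfl
      intro q _
      rw [if_pos (Nat.le_add_right a q), Nat.add_sub_cancel_left]
    · intro e he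
      rw [if_neg (by have := Finset.mem_range.1 he; omega)]
  rw [Finset.sum_congr rfl h2, Finset.sum_comm]
  have h3 : ∀ e : ℕ, ∑ a ∈ Finset.range (n + 1), (if a ≤ e then (-1 : ℂ) ^ a *
        LinearMap.trace ℂ (M a) (W a ∘ₗ P a (e - a)) else 0) =
      ∑ a ∈ Finset.range (e + 1), (-1 : ℂ) ^ a *
        LinearMap.trace ℂ (M a) (W a ∘ₗ P a (e - a)) := by
    intro e
    rw [← Finset.sum_filter]
    apply Finset.sum_subset
    · intro a ha
      have h4 := (Finset.mem_filter.1 ha).2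
      exact Finset.mem_range.2 (by omega)
    · intro a ha hna
      have h4 := Finset.mem_range.1 ha
      have h5 : n < a := by
        by_contra h
        exact hna (Finset.mem_filter.2 ⟨Finset.mem_range.2 (by omega), by omega⟩)
      have := hz a h5
      have h6 : W a ∘ₗ P a (e - a) = 0 := Subsingleton.elim _ _
      rw [h6, map_zero, mul_zero]
  rw [Finset.sum_congr rfl (fun e _ => h3 e)]
  have hE1 : E = (E - 1) + 1 := by omega
  rw [hE1, Finset.sum_range_succ', Finset.sum_eq_zero, zero_add]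
  · rw [Finset.sum_range_one, Nat.sub_zero, pow_zero, one_mul]
  · intro e _
    exact EXA_abs M W P d D h1 h0 hDW hPW hDP hd0 (e + 1) (by omega)

end abs


section conc

variable {a b : ℕ} {ι : Type} [Fintype ι] [DecidableEq ι]

/-- the relations of degree zero -/
private noncomputable def EXA_sub (b : ℕ) (ι : Type) [Fintype ι] [DecidableEq ι] :
    Submodule (S ι) (T 0 b ι) where
  carrier := {c | (fun k : Fin b → ι => constantCoeff (c (Fin.elim0, k))) ∈ Kz b ι}
  add_mem' := by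
    intro c c' h h'
    have := (Kz b ι).add_mem h h'
    simpa [Pi.add_def] using this
  zero_mem' := by
    have := (Kz b ι).zero_mem
    simpa [Pi.zero_def] using this
  smul_mem' := by
    intro s c h
    have := (Kz b ι).smul_mem (constantCoeff s) h
    simpa [Pi.smul_def] using this

omit [Fintype ι] in
private theorem EXA_c0_u (x : Ix 0 b ι) :
    (fun k : Fin b → ι => constantCoeff ((u x : T 0 b ι) (Fin.elim0, k))) =
      Pi.single x.2 (1 : ℂ) := by
  funext k
  have hx : x = (Fin.elim0, x.2) := Prod.ext (Subsingleton.elim _ _) rfl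
  by_cases h : k = x.2
  · subst h
    rw [Pi.single_eq_same]
    unfold u
    rw [← hx, Pi.single_eq_same, map_one]
  · rw [Pi.single_eq_of_ne h]
    unfold u
    rw [Pi.single_eq_of_ne, map_zero]
    intro h2
    apply h
    rw [← h2]

private theorem EXA_LP_le : LP 0 b ι ≤ EXA_sub b ι := by
  have hgen : ∀ c : T 0 b ι, (fun k : Fin b → ι => constantCoeff (c (Fin.elim0, k))) ∈ Kz b ι →
      c ∈ EXA_sub b ι := fun c h => h
  have hA : RelA 0 b ι ≤ EXA_sub b ι := by
    unfold RelA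
    rw [Submodule.span_le]
    rintro c (⟨τ, x, rfl⟩ | ⟨τ, x, rfl⟩)
    · have hτ : τ = 1 := Subsingleton.elim _ _
      have : rA τ x = 0 := by
        unfold rA
        rw [hτ]
        have hx : (x.1 ∘ ((1 : Equiv.Perm (Fin 0)) : Fin 0 → Fin 0), x.2) = x :=
          Prod.ext (Subsingleton.elim _ _) rfl
        rw [hx]
        simp
      rw [this]
      exact (EXA_sub b ι).zero_mem
    · apply hgen
      have e : (fun k : Fin b → ι => constantCoeff ((rB τ x : T 0 b ι) (Fin.elim0, k))) =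
          Pi.single (x.2 ∘ τ) 1 - ((Equiv.Perm.sign τ : ℤ) : ℂ) • Pi.single x.2 1 := by
        have h1 := EXA_c0_u (x.1, x.2 ∘ τ)
        have h2 := EXA_c0_u x
        funext k
        have h1k := congrFun h1 k
        have h2k := congrFun h2 k
        simp only at h1k h2k
        rw [Pi.sub_apply, Pi.smul_apply, ← h1k, ← h2k]
        unfold rB
        rw [Pi.sub_apply, Pi.smul_apply, map_sub, smul_eq_C_mul, map_mul, constantCoeff_C,
          smul_eq_mul]
      rw [e]
      exact Submodule.subset_span (Or.inl ⟨τ, x.2, rfl⟩)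
  have hP : RelP 0 b ι ≤ EXA_sub b ι := by
    unfold RelP
    refine sup_le hA ?_
    rw [Submodule.span_le]
    rintro c ⟨s, t, x, l, rfl⟩
    exact s.elim0
  have hR : Rel 0 b ι ≤ EXA_sub b ι := by
    unfold Rel
    refine sup_le hP ?_
    rw [Submodule.span_le]
    rintro c (⟨s, x, l, rfl⟩ | ⟨t, x, l, rfl⟩)
    · exact s.elim0
    · apply hgen
      have e : (fun k : Fin b → ι => constantCoeff ((rEt t x l : T 0 b ι) (Fin.elim0, k))) =
          ((if l = 0 then 1 else 0 : ℂ)) • ∑ i : ι, Pi.single (Function.update x.2 t i) (1 : ℂ) := by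
        funext k
        unfold rEt
        rw [Pi.smul_apply, Finset.sum_apply, Finset.sum_apply, map_sum, Finset.smul_sum]
        apply Finset.sum_congr rfl
        intro i _
        have h1 := congrFun (EXA_c0_u (x.1, Function.update x.2 t i)) k
        simp only at h1
        rw [Pi.smul_apply, smul_eq_mul, map_mul, h1, map_pow, constantCoeff_X, smul_eq_mul]
        by_cases hl : l = 0
        · rw [hl, pow_zero, if_pos rfl]
        · rw [if_neg hl, zero_pow hl]
      rw [e]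
      exact (Kz b ι).smul_mem _ (Submodule.subset_span (Or.inr ⟨t, x.2, rfl⟩))
  unfold LP
  refine sup_le hR ?_
  rw [Submodule.span_le]
  rintro c ⟨k, x, hk, rfl⟩
  apply hgen
  have e : (fun k' : Fin b → ι => constantCoeff ((psum ι ℂ k • (u x : T 0 b ι)) (Fin.elim0, k'))) =
      0 := by
    funext k'
    rw [Pi.smul_apply, smul_eq_mul, map_mul, psum, map_sum, Finset.sum_eq_zero, zero_mul]
    · rfl
    · intro i _
      rw [map_pow, constantCoeff_X, zero_pow (by omega)]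
  rw [e]
  exact (Kz b ι).zero_mem

/-- constants -/
private noncomputable def EXA_j (b : ℕ) (ι : Type) [Fintype ι] [DecidableEq ι] :
    ((Fin b → ι) → ℂ) →ₗ[ℂ] T 0 b ι where
  toFun f := fun x => C (f x.2)
  map_add' f g := by funext x; simp
  map_smul' t f := by funext x; simp [smul_eq_C_mul]

/-- constant coefficients -/
private noncomputable def EXA_c (b : ℕ) (ι : Type) [Fintype ι] [DecidableEq ι] :
    T 0 b ι →ₗ[ℂ] ((Fin b → ι) → ℂ) where
  toFun c := fun k => constantCoeff (c (Fin.elim0, k))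
  map_add' f g := by funext x; simp
  map_smul' t f := by funext x; simp

private theorem EXA_cj (f : (Fin b → ι) → ℂ) : EXA_c b ι (EXA_j b ι f) = f := by
  funext k
  change constantCoeff (C (f k)) = f k
  rw [constantCoeff_C]

private theorem EXA_jc (c : T 0 b ι) : EXA_j b ι (EXA_c b ι c) = hc 0 c := by
  funext x
  have hx : x = (Fin.elim0, x.2) := Prod.ext (Subsingleton.elim _ _) rfl
  change C (constantCoeff (c (Fin.elim0, x.2))) = homogeneousComponent 0 (c x)
  rw [homogeneousComponent_zero, ← hx]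
  rfl

private theorem EXA_j_u (k : Fin b → ι) :
    EXA_j b ι (Pi.single k 1) = u (Fin.elim0, k) := by
  funext x
  have hx : x = (Fin.elim0, x.2) := Prod.ext (Subsingleton.elim _ _) rfl
  change C ((Pi.single k 1 : (Fin b → ι) → ℂ) x.2) = u (Fin.elim0, k) x
  unfold u
  by_cases h : x.2 = k
  · rw [h, Pi.single_eq_same, map_one, hx, h, Pi.single_eq_same]
  · rw [Pi.single_eq_of_ne h, map_zero, Pi.single_eq_of_ne]
    intro h2
    apply h
    rw [h2]

private theorem EXA_j_mem : Kz b ι ≤ ((LP 0 b ι).restrictScalars ℂ).comap (EXA_j b ι) := by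
  have hle : Rel 0 b ι ≤ LP 0 b ι := le_sup_left
  have hle2 : RelP 0 b ι ≤ Rel 0 b ι := le_sup_left
  have hle3 : RelA 0 b ι ≤ RelP 0 b ι := le_sup_left
  unfold Kz
  rw [Submodule.span_le]
  rintro c (⟨τ, k, rfl⟩ | ⟨t, k, rfl⟩)
  · change EXA_j b ι (Pi.single (k ∘ τ) 1 - ((Equiv.Perm.sign τ : ℤ) : ℂ) • Pi.single k 1) ∈
      LP 0 b ι
    rw [map_sub, map_smul, EXA_j_u, EXA_j_u]
    apply hle
    apply hle2
    apply hle3
    exact Submodule.subset_span (Or.inr ⟨τ, (Fin.elim0, k), rfl⟩)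
  · change EXA_j b ι (∑ i : ι, Pi.single (Function.update k t i) 1) ∈ LP 0 b ι
    rw [map_sum]
    apply hle
    have h1 : Submodule.span (S ι) ({c : T 0 b ι | ∃ s x l, c = rTh s x l} ∪
        {c | ∃ t x l, c = rEt t x l}) ≤ Rel 0 b ι := le_sup_right
    apply h1
    apply Submodule.subset_span
    refine Or.inr ⟨t, (Fin.elim0, k), 0, ?_⟩
    unfold rEt
    apply Finset.sum_congr rfl
    intro i _
    rw [EXA_j_u, pow_zero, one_smul]

private theorem EXA_c_act (w : Equiv.Perm ι) (c : T 0 b ι) :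
    EXA_c b ι (actT w c) = acz w (EXA_c b ι c) := by
  funext k
  change constantCoeff (rename w (c (fun s => w⁻¹ (Fin.elim0 s), fun t => w⁻¹ (k t)))) =
    constantCoeff (c (Fin.elim0, fun t => w⁻¹ (k t)))
  rw [constantCoeff_rename]
  congr 2
  exact Prod.ext (Subsingleton.elim _ _) rfl

/-- degree zero -/
private theorem EXA_deg0 (w : Equiv.Perm ι)
    [Module.Finite ℂ (T 0 b ι ⧸ (LP 0 b ι).restrictScalars ℂ)]
    (hst : (LP 0 b ι).restrictScalars ℂ ≤ ((LP 0 b ι).restrictScalars ℂ).comap (actT w))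
    (hh : (LP 0 b ι).restrictScalars ℂ ≤ ((LP 0 b ι).restrictScalars ℂ).comap (hc 0)) :
    LinearMap.trace ℂ (T 0 b ι ⧸ (LP 0 b ι).restrictScalars ℂ)
      (Submodule.mapQ _ _ (actT w) hst ∘ₗ Submodule.mapQ _ _ (hc 0) hh) = qz b w := by
  have hc0 : (LP 0 b ι).restrictScalars ℂ ≤ (Kz b ι).comap (EXA_c b ι) := by
    intro c hc'
    exact EXA_LP_le hc'
  have hK : Kz b ι ≤ (Kz b ι).comap (acz w) := by
    intro f hf
    change acz w f ∈ Kz b ι
    rw [← EXA_cj f, ← EXA_c_act]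
    exact hc0 (hst (EXA_j_mem hf))
  unfold qz
  rw [dif_pos hK]
  have e1 : Submodule.mapQ _ _ (hc 0) hh = Submodule.mapQ _ _ (EXA_j b ι) EXA_j_mem ∘ₗ
      Submodule.mapQ _ _ (EXA_c b ι) hc0 := by
    apply LinearMap.ext
    intro x
    obtain ⟨c, rfl⟩ := Submodule.Quotient.mk_surjective _ x
    simp only [LinearMap.comp_apply]
    rw [Submodule.mapQ_apply, Submodule.mapQ_apply, Submodule.mapQ_apply,
      EXA_jc]
  rw [e1, ← LinearMap.comp_assoc, LinearMap.trace_comp_comm']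
  congr 1
  apply LinearMap.ext
  intro x
  obtain ⟨f, rfl⟩ := Submodule.Quotient.mk_surjective _ x
  simp only [LinearMap.comp_apply]
  rw [Submodule.mapQ_apply, Submodule.mapQ_apply, Submodule.mapQ_apply,
    Submodule.mapQ_apply, EXA_c_act, EXA_cj]

end conc

/-- all components of large degree are relations -/
private theorem EXA_fin (hFDG : St_FDG) (a b : ℕ) (ι : Type) [Fintype ι] [DecidableEq ι]
    [Module.Finite ℂ (T a b ι ⧸ (LP a b ι).restrictScalars ℂ)]
    (hh : ∀ q : ℕ, (LP a b ι).restrictScalars ℂ ≤ ((LP a b ι).restrictScalars ℂ).comap (hc q)) :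
    ∃ Q : ℕ, ∀ R : ℕ, Q ≤ R → ∑ q ∈ Finset.range R,
      Submodule.mapQ ((LP a b ι).restrictScalars ℂ) ((LP a b ι).restrictScalars ℂ) (hc q) (hh q) =
        LinearMap.id := by
  obtain ⟨hmono, -, hex, -, hdec, hidem, -⟩ := hFDG ι a b
  set B := Module.finBasis ℂ (T a b ι ⧸ (LP a b ι).restrictScalars ℂ) with hB
  have h1 : ∀ i, ∃ c : T a b ι, Submodule.Quotient.mk c = B i :=
    fun i => Submodule.Quotient.mk_surjective _ (B i)
  choose c hcB using h1
  choose N hN using fun i => hex (c i)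
  refine ⟨Finset.univ.sup N + 1, ?_⟩
  intro R hR
  apply B.ext
  intro i
  rw [LinearMap.sum_apply, LinearMap.id_apply, ← hcB i]
  have h2 : ∀ q ∈ Finset.range R, (Submodule.mapQ ((LP a b ι).restrictScalars ℂ)
      ((LP a b ι).restrictScalars ℂ) (hc q) (hh q)) (Submodule.Quotient.mk (c i)) =
      ((LP a b ι).restrictScalars ℂ).mkQ (hc q (c i)) := by
    intro q _
    rw [Submodule.mapQ_apply, Submodule.mkQ_apply]
  rw [Finset.sum_congr rfl h2, ← map_sum]
  have h3 : c i ∈ Fd a b ι (R - 1) := by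
    apply hmono _ (hN i)
    have h4 : N i ≤ Finset.univ.sup N := Finset.le_sup (Finset.mem_univ i)
    omega
  have h5 := hdec (R - 1) (c i) h3
  rw [show R - 1 + 1 = R by omega] at h5
  rw [← h5, Submodule.mkQ_apply]

theorem thm_EXA (hDST : St_DST) (hDTH : St_DTH) (hTOP : St_TOP) (hUPG : St_UPG) (hACT : St_ACT)
    (hFDG : St_FDG) : St_EXA := by
  intro ι _ _ b w hn
  set n := Fintype.card ι with hndef
  -- the top degrees vanish
  have hLtop : ∀ a : ℕ, n ≤ a → (LP a b ι).restrictScalars ℂ = ⊤ := by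
    intro a ha
    have h1 : Rel a b ι = ⊤ := hTOP ι a b hn (by omega)
    have h2 : Rel a b ι ≤ LP a b ι := le_sup_left
    rw [h1, top_le_iff] at h2
    rw [h2]
    rfl
  have hsub : ∀ a : ℕ, n < a → Subsingleton (T a b ι ⧸ (LP a b ι).restrictScalars ℂ) := by
    intro a ha
    exact Submodule.Quotient.subsingleton_iff.2 (hLtop a ha.le)
  have hFin : ∀ a : ℕ, Module.Finite ℂ (T a b ι ⧸ (LP a b ι).restrictScalars ℂ) := by
    intro a
    by_cases h : a + b ≤ n
    · exact (hUPG ι a b (n - (a + b)) (by omega)).2.1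
    · have h1 : Rel a b ι = ⊤ := hTOP ι a b hn (by omega)
      have h2 : Rel a b ι ≤ LP a b ι := le_sup_left
      rw [h1, top_le_iff] at h2
      have h3 : (LP a b ι).restrictScalars ℂ = ⊤ := by rw [h2]; rfl
      have h4 : Subsingleton (T a b ι ⧸ (LP a b ι).restrictScalars ℂ) :=
        Submodule.Quotient.subsingleton_iff.2 h3
      exact inferInstance
  have hst : ∀ a : ℕ, (LP a b ι).restrictScalars ℂ ≤
      ((LP a b ι).restrictScalars ℂ).comap (actT w) := by
    intro a c hc'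
    exact (hACT.2 ι a b).2.2.1 w c hc'
  have hhom : ∀ a q : ℕ, (LP a b ι).restrictScalars ℂ ≤
      ((LP a b ι).restrictScalars ℂ).comap (hc q) := by
    intro a q c hc'
    exact (hACT.2 ι a b).2.2.2.1 c hc' q
  have hd : ∀ a : ℕ, (LP a b ι).restrictScalars ℂ ≤
      ((LP (a + 1) b ι).restrictScalars ℂ).comap dt := by
    intro a c hc'
    exact (hDTH ι a b).2.2.2 c hc'
  have hD : ∀ a : ℕ, (LP (a + 1) b ι).restrictScalars ℂ ≤
      ((LP a b ι).restrictScalars ℂ).comap
        ((dst : T (a + 1) b ι →ₗ[S ι] T a b ι).restrictScalars ℂ) := by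
    intro a c hc'
    exact (hDST ι a b).1 c hc'
  have hRA : ∀ a : ℕ, RelA a b ι ≤ LP a b ι := by
    intro a
    have h1 : Rel a b ι ≤ LP a b ι := le_sup_left
    have h2 : RelP a b ι ≤ Rel a b ι := le_sup_left
    have h3 : RelA a b ι ≤ RelP a b ι := le_sup_left
    exact h3.trans (h2.trans h1)
  have hqtr : ∀ a : ℕ, qtr (LP a b ι) w = LinearMap.trace ℂ
      (T a b ι ⧸ (LP a b ι).restrictScalars ℂ) (Submodule.mapQ _ _ (actT w) (hst a)) := by
    intro a
    unfold qtr
    rw [dif_pos (hst a)]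
  have key := EXA_sum (fun a => T a b ι ⧸ (LP a b ι).restrictScalars ℂ)
    (fun a => Submodule.mapQ _ _ (actT w) (hst a))
    (fun a q => Submodule.mapQ _ _ (hc q) (hhom a q))
    (fun a => Submodule.mapQ _ _ dt (hd a))
    (fun a => Submodule.mapQ _ _
      ((dst : T (a + 1) b ι →ₗ[S ι] T a b ι).restrictScalars ℂ) (hD a))
    ?_ ?_ ?_ ?_ ?_ ?_ (fun a => EXA_fin hFDG a b ι (hhom a)) n hsub
  · rw [Finset.sum_congr rfl (fun a _ => by rw [hqtr a]), key]
    exact EXA_deg0 w (hst 0) (hhom 0 0)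
  · intro a q x
    obtain ⟨c, rfl⟩ := Submodule.Quotient.mk_surjective _ x
    have h1 := (hDST ι a b).2.1 (hc q c)
    rw [(hDST ι (a + 1) b).2.2.2.2.2.2.2.2 q c] at h1
    have h2 := hRA (a + 1) h1
    simp only [Submodule.mapQ_apply]
    rw [← Submodule.Quotient.mk_smul, ← Submodule.Quotient.mk_smul, ← Submodule.Quotient.mk_add,
      Submodule.Quotient.eq]
    have e : ((a + 1).factorial : ℂ) • ((q : ℂ) • hc q c + ((a : ℂ) + 1) • hc q c) =
        (((a + 1).factorial : ℂ) * ((q : ℂ) + a + 1)) • hc q c := by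
      rw [← add_smul, smul_smul, add_assoc]
    rw [e] at h2
    exact h2
  · intro q x
    obtain ⟨c, rfl⟩ := Submodule.Quotient.mk_surjective _ x
    have h1 := (hDST ι 0 b).2.2.1 (hc q c)
    rw [(hDST ι 0 b).2.2.2.2.2.2.2.2 q c] at h1
    simp only [Submodule.mapQ_apply]
    rw [← Submodule.Quotient.mk_smul, ← h1]
    rfl
  · intro a x
    obtain ⟨c, rfl⟩ := Submodule.Quotient.mk_surjective _ x
    simp only [Submodule.mapQ_apply]
    congr 1
    exact (hDST ι a b).2.2.2.1 w c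
  · intro a q x
    obtain ⟨c, rfl⟩ := Submodule.Quotient.mk_surjective _ x
    simp only [Submodule.mapQ_apply]
    rw [(hACT.1 ι a b).2.2.2.2.2.2.2.2.2.2 w q c]
  · intro a q x
    obtain ⟨c, rfl⟩ := Submodule.Quotient.mk_surjective _ x
    simp only [Submodule.mapQ_apply]
    congr 1
    exact (hDST ι a b).2.2.2.2.2.1 q c
  · intro a x
    obtain ⟨c, rfl⟩ := Submodule.Quotient.mk_surjective _ x
    simp only [Submodule.mapQ_apply]
    rw [(hDST ι a b).2.2.2.2.2.2.2.1 c, Submodule.Quotient.mk_zero]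

end MDC
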