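import Pool.Agent.MDC.StD

/-!
# MDC [EXB]: exactness of the multiplication by `∑ η_i` on the exterior algebra (helper17)
-/

set_option autoImplicit false

open MvPolynomial Finset Equiv

namespace MDC

section EXBdefs

variable {ι : Type} [Fintype ι] {c : ℕ}

/-- contraction of the first slot -/
noncomputable def EXB_D (ι : Type) [Fintype ι] (c : ℕ) :
    ((Fin (c + 1) → ι) → ℂ) →ₗ[ℂ] ((Fin c → ι) → ℂ) where
  toFun f := fun k => ∑ i : ι, f (Fin.cons i k)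
  map_add' f g := by
    funext k
    simp [Finset.sum_add_distrib]
  map_smul' t f := by
    funext k
    simp [Finset.mul_sum]

/-- alternating sum of the functions which forget one slot -/
noncomputable def EXB_W (ι : Type) (c : ℕ) :
    ((Fin c → ι) → ℂ) →ₗ[ℂ] ((Fin (c + 1) → ι) → ℂ) where
  toFun f := fun m => ∑ s : Fin (c + 1), (-1 : ℂ) ^ (s : ℕ) * f (fun j => m (s.succAbove j))
  map_add' f g := by
    funext k
    simp [Finset.sum_add_distrib, mul_add]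
  map_smul' t f := by
    funext k
    simp only [Pi.smul_apply, smul_eq_mul, RingHom.id_apply, Finset.mul_sum]
    exact Finset.sum_congr rfl fun s _ => by ring

/-- the function forgets the first slot -/
def EXB_J (ι : Type) (c : ℕ) : ((Fin c → ι) → ℂ) →ₗ[ℂ] ((Fin (c + 1) → ι) → ℂ) where
  toFun f := fun m => f (fun j => m j.succ)
  map_add' _ _ := rfl
  map_smul' _ _ := rfl

/-- reindexing of the slots -/
def EXB_R (ι : Type) {c : ℕ} (τ : Perm (Fin c)) :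
    ((Fin c → ι) → ℂ) →ₗ[ℂ] ((Fin c → ι) → ℂ) where
  toFun f := fun m => f (fun j => m (τ j))
  map_add' _ _ := rfl
  map_smul' _ _ := rfl

/-- the sign as a complex number -/
def EXB_s {c : ℕ} (τ : Perm (Fin c)) : ℂ := ((Perm.sign τ : ℤ) : ℂ)

/-- the antisymmetrizer -/
noncomputable def EXB_P (ι : Type) (c : ℕ) : ((Fin c → ι) → ℂ) →ₗ[ℂ] ((Fin c → ι) → ℂ) :=
  ((c.factorial : ℂ))⁻¹ • ∑ σ : Perm (Fin c), EXB_s σ • EXB_R ι σ

end EXBdefs

section EXBlem

variable {ι : Type} {c : ℕ}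

theorem EXB_inv1 {α : Type} (w : Perm α) (x : α) : w⁻¹ (w x) = x := w.symm_apply_apply x

theorem EXB_inv2 {α : Type} (w : Perm α) (x : α) : w (w⁻¹ x) = x := w.apply_symm_apply x

theorem EXB_s_mul (σ τ : Perm (Fin c)) : EXB_s (σ * τ) = EXB_s σ * EXB_s τ := by
  unfold EXB_s
  rw [Perm.sign_mul]
  push_cast
  rfl

theorem EXB_s_sq (σ : Perm (Fin c)) : EXB_s σ * EXB_s σ = 1 := by
  unfold EXB_s
  rcases Int.units_eq_one_or (Perm.sign σ) with h | h <;> rw [h] <;> simp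

theorem EXB_s_inv (σ : Perm (Fin c)) : EXB_s σ⁻¹ = EXB_s σ := by
  unfold EXB_s
  rw [Perm.sign_inv]

theorem EXB_s_swap {i j : Fin c} (h : i ≠ j) : EXB_s (swap i j) = -1 := by
  unfold EXB_s
  rw [Perm.sign_swap h]
  simp

theorem EXB_P_apply (f : (Fin c → ι) → ℂ) (m : Fin c → ι) : EXB_P ι c f m =
    ((c.factorial : ℂ))⁻¹ * ∑ σ : Perm (Fin c), EXB_s σ * f (fun j => m (σ j)) := by
  unfold EXB_P
  simp only [LinearMap.smul_apply, Pi.smul_apply, smul_eq_mul, LinearMap.sum_apply,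
    Finset.sum_apply]
  rfl

/-- alternating functions -/
def EXB_Alt (g : (Fin c → ι) → ℂ) : Prop :=
  ∀ (τ : Perm (Fin c)) (m : Fin c → ι), g (fun j => m (τ j)) = EXB_s τ * g m

theorem EXB_P_alt (f : (Fin c → ι) → ℂ) : EXB_Alt (EXB_P ι c f) := by
  intro τ m
  rw [EXB_P_apply, EXB_P_apply]
  have h1 : ∑ σ : Perm (Fin c), EXB_s σ * f (fun j => m (τ (σ j))) =
      EXB_s τ * ∑ σ : Perm (Fin c), EXB_s σ * f (fun j => m (σ j)) := by
    rw [Finset.mul_sum]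
    refine Fintype.sum_equiv (Equiv.mulLeft τ) _ _ fun σ => ?_
    rw [Equiv.coe_mulLeft, EXB_s_mul]
    have h2 : EXB_s τ * (EXB_s τ * EXB_s σ * f fun j => m ((τ * σ) j)) =
        (EXB_s τ * EXB_s τ) * (EXB_s σ * f fun j => m ((τ * σ) j)) := by ring
    rw [h2, EXB_s_sq, one_mul]
    rfl
  rw [h1]
  ring

theorem EXB_P_of_alt {g : (Fin c → ι) → ℂ} (hg : EXB_Alt g) : EXB_P ι c g = g := by
  funext m
  rw [EXB_P_apply]
  have h1 : ∀ σ : Perm (Fin c), EXB_s σ * g (fun j => m (σ j)) = g m := by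
    intro σ
    rw [hg, ← mul_assoc, EXB_s_sq, one_mul]
  rw [Finset.sum_congr rfl fun σ _ => h1 σ, Finset.sum_const, Finset.card_univ,
    Fintype.card_perm, Fintype.card_fin, nsmul_eq_mul, ← mul_assoc,
    inv_mul_cancel₀ (by exact_mod_cast c.factorial_ne_zero), one_mul]

theorem EXB_PP (f : (Fin c → ι) → ℂ) : EXB_P ι c (EXB_P ι c f) = EXB_P ι c f :=
  EXB_P_of_alt (EXB_P_alt f)

theorem EXB_PR (τ : Perm (Fin c)) (f : (Fin c → ι) → ℂ) :
    EXB_P ι c (EXB_R ι τ f) = EXB_s τ • EXB_P ι c f := by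
  funext m
  rw [Pi.smul_apply, smul_eq_mul, EXB_P_apply, EXB_P_apply]
  have h1 : ∑ σ : Perm (Fin c), EXB_s σ * EXB_R ι τ f (fun j => m (σ j)) =
      EXB_s τ * ∑ σ : Perm (Fin c), EXB_s σ * f (fun j => m (σ j)) := by
    rw [Finset.mul_sum]
    refine Fintype.sum_equiv (Equiv.mulRight τ) _ _ fun σ => ?_
    rw [Equiv.coe_mulRight, EXB_s_mul]
    have h2 : EXB_s τ * (EXB_s σ * EXB_s τ * f fun j => m ((σ * τ) j)) =
        (EXB_s τ * EXB_s τ) * (EXB_s σ * f fun j => m ((σ * τ) j)) := by ring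
    rw [h2, EXB_s_sq, one_mul]
    rfl
  rw [h1]
  ring

/-- a permutation of `Fin c`, extended by `0 ↦ 0` -/
def EXB_ext (σ : Perm (Fin c)) : Perm (Fin (c + 1)) := Perm.decomposeFin.symm (0, σ)

theorem EXB_ext_zero (σ : Perm (Fin c)) : EXB_ext σ 0 = 0 :=
  Perm.decomposeFin_symm_apply_zero 0 σ

theorem EXB_ext_succ (σ : Perm (Fin c)) (j : Fin c) : EXB_ext σ j.succ = (σ j).succ := by
  unfold EXB_ext
  rw [Perm.decomposeFin_symm_apply_succ, swap_self]
  rfl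

theorem EXB_ext_sign (σ : Perm (Fin c)) : EXB_s (EXB_ext σ) = EXB_s σ := by
  unfold EXB_ext EXB_s
  rw [Perm.decomposeFin.symm_sign, if_pos rfl, one_mul]

/-- the cycle which moves `0` to `s` -/
def EXB_z (s : Fin (c + 1)) : Perm (Fin (c + 1)) := s.cycleRange⁻¹

theorem EXB_z_zero (s : Fin (c + 1)) : EXB_z s 0 = s := Fin.cycleRange_symm_zero s

theorem EXB_z_succ (s : Fin (c + 1)) (j : Fin c) : EXB_z s j.succ = s.succAbove j :=
  Fin.cycleRange_symm_succ s j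

theorem EXB_z_sign (s : Fin (c + 1)) : EXB_s (EXB_z s) = (-1) ^ (s : ℕ) := by
  unfold EXB_z
  rw [EXB_s_inv]
  unfold EXB_s
  rw [Fin.sign_cycleRange]
  push_cast
  rfl

/-- permutations of `Fin (c + 1)` -/
theorem EXB_bij : Function.Bijective
    fun p : Fin (c + 1) × Perm (Fin c) => EXB_z p.1 * EXB_ext p.2 := by
  rw [Fintype.bijective_iff_injective_and_card]
  refine ⟨?_, ?_⟩
  · rintro ⟨s, σ⟩ ⟨s', σ'⟩ h
    have h : EXB_z s * EXB_ext σ = EXB_z s' * EXB_ext σ' := h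
    have h1 : s = s' := by
      have h2 := congrArg (fun ρ : Perm (Fin (c + 1)) => ρ 0) h
      simp only [Perm.mul_apply, EXB_ext_zero, EXB_z_zero] at h2
      exact h2
    subst h1
    have h2 := mul_left_cancel h
    have h3 : σ = σ' := by
      ext j
      have h4 := congrArg (fun ρ : Perm (Fin (c + 1)) => ρ j.succ) h2
      simp only [EXB_ext_succ] at h4
      rw [Fin.succ_inj] at h4
      rw [h4]
    rw [h3]
  · rw [Fintype.card_prod, Fintype.card_perm, Fintype.card_perm, Fintype.card_fin,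
      Fintype.card_fin, Nat.factorial_succ]

/-- (I1) -/
theorem EXB_WP (f : (Fin c → ι) → ℂ) :
    EXB_W ι c (EXB_P ι c f) = ((c : ℂ) + 1) • EXB_P ι (c + 1) (EXB_J ι c f) := by
  funext m
  rw [Pi.smul_apply, smul_eq_mul, EXB_P_apply]
  have h1 : ∑ ρ : Perm (Fin (c + 1)), EXB_s ρ * EXB_J ι c f (fun j => m (ρ j)) =
      ∑ p : Fin (c + 1) × Perm (Fin c), (-1 : ℂ) ^ (p.1 : ℕ) * (EXB_s p.2 *
        f (fun j => m (p.1.succAbove (p.2 j)))) := by
    refine (Fintype.sum_bijective _ EXB_bij _ _ fun p => ?_).symm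
    rw [EXB_s_mul, EXB_z_sign, EXB_ext_sign, mul_assoc]
    congr 2
    show f _ = f _
    congr 1
    funext j
    show m (p.1.succAbove (p.2 j)) = m ((EXB_z p.1 * EXB_ext p.2) j.succ)
    rw [Perm.mul_apply, EXB_ext_succ, EXB_z_succ]
  rw [h1, Fintype.sum_prod_type]
  have h2 : ((c : ℂ) + 1) * ((((c + 1).factorial : ℕ) : ℂ)⁻¹) = ((c.factorial : ℂ))⁻¹ := by
    rw [Nat.factorial_succ]
    have h3 : ((c : ℂ) + 1) ≠ 0 := by exact_mod_cast Nat.succ_ne_zero c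
    have h4 : ((c.factorial : ℕ) : ℂ) ≠ 0 := by exact_mod_cast c.factorial_ne_zero
    push_cast
    field_simp
  rw [← mul_assoc, h2, Finset.mul_sum]
  show ∑ s : Fin (c + 1), (-1 : ℂ) ^ (s : ℕ) * EXB_P ι c f (fun j => m (s.succAbove j)) = _
  refine Finset.sum_congr rfl fun s _ => ?_
  rw [EXB_P_apply]
  show _ = ((c.factorial : ℂ))⁻¹ * ∑ σ : Perm (Fin c), (-1 : ℂ) ^ (s : ℕ) *
    (EXB_s σ * f fun j => m (s.succAbove (σ j)))
  rw [← Finset.mul_sum]
  ring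

theorem EXB_W_alt {g : (Fin c → ι) → ℂ} (hg : EXB_Alt g) : EXB_Alt (EXB_W ι c g) := by
  rw [← EXB_P_of_alt hg, EXB_WP]
  intro τ m
  rw [Pi.smul_apply, Pi.smul_apply, EXB_P_alt]
  simp only [smul_eq_mul]
  ring

theorem EXB_PJJ (f : (Fin c → ι) → ℂ) :
    EXB_P ι (c + 2) (EXB_J ι (c + 1) (EXB_J ι c f)) = 0 := by
  have h1 := EXB_PR (ι := ι) (swap (0 : Fin (c + 2)) 1) (EXB_J ι (c + 1) (EXB_J ι c f))
  have h2 : EXB_R ι (swap (0 : Fin (c + 2)) 1) (EXB_J ι (c + 1) (EXB_J ι c f)) =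
      EXB_J ι (c + 1) (EXB_J ι c f) := by
    funext m
    show f (fun j => m (swap (0 : Fin (c + 2)) 1 j.succ.succ)) = f (fun j => m j.succ.succ)
    refine congrArg f ?_
    funext j
    rw [swap_apply_of_ne_of_ne (Fin.succ_ne_zero _) (by
      rw [← Fin.succ_zero_eq_one, Ne, Fin.succ_inj]
      exact Fin.succ_ne_zero _)]
  rw [h2, EXB_s_swap (by
    intro h
    have := congrArg Fin.val h
    simp at this), neg_smul, one_smul] at h1
  have h3 : (2 : ℂ) • EXB_P ι (c + 2) (EXB_J ι (c + 1) (EXB_J ι c f)) = 0 := by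
    rw [two_smul]
    nth_rewrite 1 [h1]
    exact neg_add_cancel _
  exact (smul_eq_zero.1 h3).resolve_left two_ne_zero

theorem EXB_WW {g : (Fin c → ι) → ℂ} (hg : EXB_Alt g) : EXB_W ι (c + 1) (EXB_W ι c g) = 0 := by
  rw [← EXB_P_of_alt hg, EXB_WP, map_smul, EXB_WP, EXB_PJJ, smul_zero, smul_zero]

theorem EXB_W_apply (f : (Fin c → ι) → ℂ) (m : Fin (c + 1) → ι) :
    EXB_W ι c f m = ∑ s : Fin (c + 1), (-1 : ℂ) ^ (s : ℕ) * f (fun j => m (s.succAbove j)) := rfl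

variable [Fintype ι]

theorem EXB_D_apply (f : (Fin (c + 1) → ι) → ℂ) (k : Fin c → ι) :
    EXB_D ι c f k = ∑ i : ι, f (Fin.cons i k) := rfl

theorem EXB_D_alt {g : (Fin (c + 1) → ι) → ℂ} (hg : EXB_Alt g) : EXB_Alt (EXB_D ι c g) := by
  intro τ m
  rw [EXB_D_apply, EXB_D_apply, Finset.mul_sum]
  refine Finset.sum_congr rfl fun i _ => ?_
  rw [← EXB_ext_sign, ← hg]
  congr 1
  funext j
  refine Fin.cases ?_ (fun j => ?_) j
  · rw [EXB_ext_zero]
    rfl
  · rw [EXB_ext_succ]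
    rfl

/-- the homotopy -/
theorem EXB_H (f : (Fin (c + 1) → ι) → ℂ) : EXB_D ι (c + 1) (EXB_W ι (c + 1) f) =
    (Fintype.card ι : ℂ) • f - EXB_W ι c (EXB_D ι c f) := by
  funext k
  rw [Pi.sub_apply, Pi.smul_apply, smul_eq_mul, EXB_D_apply, EXB_W_apply]
  have h1 : ∀ i : ι, EXB_W ι (c + 1) f (Fin.cons i k) =
      f k - ∑ s : Fin (c + 1), (-1 : ℂ) ^ (s : ℕ) * f (Fin.cons i fun j => k (s.succAbove j)) := by
    intro i
    rw [EXB_W_apply, Fin.sum_univ_succ, sub_eq_add_neg, ← Finset.sum_neg_distrib]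
    congr 1
    · rw [Fin.val_zero, pow_zero, one_mul]
      rfl
    · refine Finset.sum_congr rfl fun s _ => ?_
      rw [Fin.val_succ, pow_succ, mul_neg_one, neg_mul]
      congr 3
      funext j
      refine Fin.cases ?_ (fun j => ?_) j
      · rw [Fin.succ_succAbove_zero]
        rfl
      · rw [Fin.succ_succAbove_succ]
        rfl
  rw [Finset.sum_congr rfl fun i _ => h1 i, Finset.sum_sub_distrib, Finset.sum_const,
    Finset.card_univ, nsmul_eq_mul, Finset.sum_comm]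
  congr 1
  refine Finset.sum_congr rfl fun s _ => ?_
  rw [EXB_D_apply, Finset.mul_sum]

theorem EXB_H0 (f : (Fin 0 → ι) → ℂ) : EXB_D ι 0 (EXB_W ι 0 f) = (Fintype.card ι : ℂ) • f := by
  funext k
  rw [Pi.smul_apply, smul_eq_mul, EXB_D_apply]
  have h1 : ∀ i : ι, EXB_W ι 0 f (Fin.cons i k) = f k := by
    intro i
    rw [EXB_W_apply, Fin.sum_univ_succ, Fin.sum_univ_zero, add_zero, Fin.val_zero, pow_zero,
      one_mul]
    rfl
  rw [Finset.sum_congr rfl fun i _ => h1 i, Finset.sum_const, Finset.card_univ, nsmul_eq_mul]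

/-- the projection -/
noncomputable def EXB_pi (ι : Type) [Fintype ι] (c : ℕ) :
    ((Fin c → ι) → ℂ) →ₗ[ℂ] ((Fin c → ι) → ℂ) :=
  ((Fintype.card ι : ℂ))⁻¹ • (EXB_D ι c ∘ₗ EXB_W ι c ∘ₗ EXB_P ι c)

theorem EXB_pi_apply (f : (Fin c → ι) → ℂ) : EXB_pi ι c f =
    ((Fintype.card ι : ℂ))⁻¹ • EXB_D ι c (EXB_W ι c (EXB_P ι c f)) := rfl

theorem EXB_pipi (hn : (Fintype.card ι : ℂ) ≠ 0) (f : (Fin c → ι) → ℂ) :
    EXB_pi ι c (EXB_pi ι c f) = EXB_pi ι c f := by
  have h1 : EXB_Alt (EXB_D ι c (EXB_W ι c (EXB_P ι c f))) :=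
    EXB_D_alt (EXB_W_alt (EXB_P_alt f))
  have h2 : EXB_W ι c (EXB_D ι c (EXB_W ι c (EXB_P ι c f))) =
      (Fintype.card ι : ℂ) • EXB_W ι c (EXB_P ι c f) := by
    have h3 := EXB_H (EXB_W ι c (EXB_P ι c f))
    rw [EXB_WW (EXB_P_alt f), map_zero] at h3
    rw [eq_comm, ← sub_eq_zero, ← h3]
  rw [EXB_pi_apply f, map_smul, EXB_pi_apply, EXB_P_of_alt h1, h2, map_smul, smul_smul,
    smul_smul]
  congr 1
  field_simp

/-! ### The kernel -/

variable [DecidableEq ι]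

omit [Fintype ι] in
theorem EXB_Rsingle (τ : Perm (Fin c)) (k : Fin c → ι) :
    EXB_R ι τ⁻¹ (Pi.single k 1) = Pi.single (k ∘ τ) 1 := by
  funext m
  show (Pi.single k 1 : (Fin c → ι) → ℂ) (fun j => m (τ⁻¹ j)) = (Pi.single (k ∘ τ) 1 : _ → ℂ) m
  rw [Pi.single_apply, Pi.single_apply]
  have h : ((fun j => m (τ⁻¹ j)) = k) ↔ m = k ∘ τ := by
    constructor
    · rintro rfl
      funext j
      show m j = m (τ⁻¹ (τ j))
      rw [EXB_inv1]
    · rintro rfl
      funext j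
      show k (τ (τ⁻¹ j)) = k j
      rw [EXB_inv2]
  simp only [h]

theorem EXB_f2 (k : Fin (c + 1) → ι) (t : Fin (c + 1)) :
    ∑ i : ι, (Pi.single (Function.update k t i) 1 : (Fin (c + 1) → ι) → ℂ) =
      EXB_R ι (EXB_z t) (EXB_J ι c (Pi.single (fun j => k (t.succAbove j)) 1)) := by
  funext m
  show _ = (Pi.single (fun j => k (t.succAbove j)) 1 : (Fin c → ι) → ℂ)
    (fun j => m (EXB_z t j.succ))
  rw [Finset.sum_apply, Pi.single_apply]
  have h1 : ∀ i : ι, (Pi.single (Function.update k t i) 1 : (Fin (c + 1) → ι) → ℂ) m =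
      if m t = i then (if (fun j => m (EXB_z t j.succ)) = fun j => k (t.succAbove j) then 1 else 0)
        else 0 := by
    intro i
    rw [Pi.single_apply]
    have h2 : (m = Function.update k t i) ↔
        (m t = i ∧ (fun j => m (EXB_z t j.succ)) = fun j => k (t.succAbove j)) := by
      constructor
      · rintro rfl
        refine ⟨Function.update_self _ _ _, ?_⟩
        funext j
        rw [EXB_z_succ, Function.update_of_ne (Fin.succAbove_ne t j)]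
      · rintro ⟨h3, h4⟩
        funext j
        rcases Fin.eq_self_or_eq_succAbove t j with rfl | ⟨j', rfl⟩
        · rw [Function.update_self, h3]
        · rw [Function.update_of_ne (Fin.succAbove_ne t j')]
          have := congrFun h4 j'
          rwa [EXB_z_succ] at this
    by_cases h5 : m t = i
    · by_cases h6 : (fun j => m (EXB_z t j.succ)) = fun j => k (t.succAbove j)
      · rw [if_pos h5, if_pos h6, if_pos (h2.2 ⟨h5, h6⟩)]
      · rw [if_pos h5, if_neg h6, if_neg fun h => h6 (h2.1 h).2]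
    · rw [if_neg h5, if_neg fun h => h5 (h2.1 h).1]
  rw [Finset.sum_congr rfl fun i _ => h1 i, Finset.sum_ite_eq, if_pos (Finset.mem_univ _)]

theorem EXB_P_f1 (τ : Perm (Fin c)) (k : Fin c → ι) :
    EXB_P ι c (Pi.single (k ∘ τ) 1 - ((Perm.sign τ : ℤ) : ℂ) • Pi.single k 1) = 0 := by
  rw [← EXB_Rsingle, map_sub, EXB_PR, map_smul, EXB_s_inv]
  exact sub_self _

theorem EXB_Kz_le : Kz c ι ≤ LinearMap.ker (EXB_pi ι c) := by
  unfold Kz
  rw [Submodule.span_le]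
  rintro f (⟨τ, k, rfl⟩ | ⟨t, k, rfl⟩)
  · rw [SetLike.mem_coe, LinearMap.mem_ker, EXB_pi_apply, EXB_P_f1, map_zero, map_zero, smul_zero]
  · rw [SetLike.mem_coe, LinearMap.mem_ker]
    cases c with
    | zero => exact t.elim0
    | succ c =>
      rw [EXB_f2, EXB_pi_apply, EXB_PR, map_smul, map_smul]
      obtain ⟨g, hg⟩ : ∃ g : (Fin c → ι) → ℂ, g = Pi.single (fun j => k (t.succAbove j)) 1 :=
        ⟨_, rfl⟩
      rw [← hg]
      have h1 : ((c : ℂ) + 1) • EXB_W ι (c + 1) (EXB_P ι (c + 1) (EXB_J ι c g)) = 0 := by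
        rw [← map_smul, ← EXB_WP, EXB_WW (EXB_P_alt g)]
      have h2 : ((c : ℂ) + 1) ≠ 0 := by exact_mod_cast Nat.succ_ne_zero c
      rw [(smul_eq_zero.1 h1).resolve_left h2, map_zero, smul_zero, smul_zero]

omit [Fintype ι] in
theorem EXB_single (k : Fin c → ι) : (fun j => if k = j then (1 : ℂ) else 0) = Pi.single k 1 := by
  funext j
  rw [Pi.single_apply]
  simp only [eq_comm]

theorem EXB_sub_mem (f : (Fin c → ι) → ℂ) : EXB_P ι c f - f ∈ Kz c ι := by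
  have h0 : ∀ σ : Perm (Fin c), EXB_s σ • EXB_R ι σ f - f ∈ Kz c ι := by
    intro σ
    obtain ⟨Φ, hΦ⟩ : ∃ Φ : ((Fin c → ι) → ℂ) →ₗ[ℂ] ((Fin c → ι) → ℂ),
      Φ = EXB_s σ • EXB_R ι σ - LinearMap.id := ⟨_, rfl⟩
    have h1 := LinearMap.pi_apply_eq_sum_univ Φ f
    have h2 : EXB_s σ • EXB_R ι σ f - f = Φ f := by
      rw [hΦ]
      rfl
    rw [h2, h1]
    refine Submodule.sum_mem _ fun k _ => Submodule.smul_mem _ _ ?_
    rw [EXB_single, hΦ]
    show EXB_s σ • EXB_R ι σ (Pi.single k 1) - Pi.single k 1 ∈ Kz c ι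
    have h3 : EXB_R ι σ (Pi.single k 1) = Pi.single (k ∘ (σ⁻¹ : Perm (Fin c))) (1 : ℂ) := by
      have := EXB_Rsingle (ι := ι) σ⁻¹ k
      rwa [inv_inv] at this
    have h4 : EXB_s σ • EXB_R ι σ (Pi.single k 1) - Pi.single k 1 = EXB_s σ •
        (Pi.single (k ∘ (σ⁻¹ : Perm (Fin c))) (1 : ℂ) -
          ((Perm.sign σ⁻¹ : ℤ) : ℂ) • Pi.single k 1) := by
      rw [h3, smul_sub, smul_smul]
      have h5 : EXB_s σ * ((Perm.sign σ⁻¹ : ℤ) : ℂ) = 1 := by
        have h6 : ((Perm.sign σ⁻¹ : ℤ) : ℂ) = EXB_s σ := EXB_s_inv σ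
        rw [h6, EXB_s_sq]
      rw [h5, one_smul]
    rw [h4]
    exact Submodule.smul_mem _ _ (Submodule.subset_span (Or.inl ⟨_, _, rfl⟩))
  have h1 : EXB_P ι c f - f = ((c.factorial : ℂ))⁻¹ •
      ∑ σ : Perm (Fin c), (EXB_s σ • EXB_R ι σ f - f) := by
    rw [Finset.sum_sub_distrib, Finset.sum_const, Finset.card_univ, Fintype.card_perm,
      Fintype.card_fin, smul_sub, ← Nat.cast_smul_eq_nsmul ℂ, smul_smul,
      inv_mul_cancel₀ (by exact_mod_cast c.factorial_ne_zero), one_smul]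
    congr 1
    unfold EXB_P
    rw [LinearMap.smul_apply, LinearMap.sum_apply]
    rfl
  rw [h1]
  exact Submodule.smul_mem _ _ (Submodule.sum_mem _ fun σ _ => h0 σ)

theorem EXB_J_mem [Nonempty ι] (f : (Fin c → ι) → ℂ) : EXB_J ι c f ∈ Kz (c + 1) ι := by
  rw [LinearMap.pi_apply_eq_sum_univ (EXB_J ι c) f]
  refine Submodule.sum_mem _ fun k _ => Submodule.smul_mem _ _ ?_
  rw [EXB_single]
  obtain ⟨i0⟩ := ‹Nonempty ι›
  have h1 := EXB_f2 (Fin.cons i0 k : Fin (c + 1) → ι) 0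
  have h2 : EXB_R ι (EXB_z (0 : Fin (c + 1))) (EXB_J ι c (Pi.single
      (fun j => (Fin.cons i0 k : Fin (c + 1) → ι) (Fin.succAbove 0 j)) 1)) =
      EXB_J ι c (Pi.single k (1 : ℂ)) := by
    funext m
    show (Pi.single k 1 : (Fin c → ι) → ℂ) (fun j => m (EXB_z 0 j.succ)) =
      (Pi.single k 1 : (Fin c → ι) → ℂ) (fun j => m j.succ)
    refine congrArg (Pi.single k 1 : (Fin c → ι) → ℂ) ?_
    funext j
    rw [EXB_z_succ]
    rfl
  rw [← h2, ← h1]
  exact Submodule.subset_span (Or.inr ⟨0, _, rfl⟩)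

theorem EXB_ker [Nonempty ι] : LinearMap.ker (EXB_pi ι c) = Kz c ι := by
  have hn : (Fintype.card ι : ℂ) ≠ 0 := by exact_mod_cast Fintype.card_ne_zero
  refine le_antisymm (fun f hf => ?_) EXB_Kz_le
  rw [LinearMap.mem_ker, EXB_pi_apply] at hf
  have h1 := (smul_eq_zero.1 hf).resolve_left (inv_ne_zero hn)
  have h2 : EXB_P ι c f ∈ Kz c ι := by
    cases c with
    | zero =>
      rw [EXB_H0] at h1
      rw [(smul_eq_zero.1 h1).resolve_left hn]
      exact Submodule.zero_mem _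
    | succ c =>
      rw [EXB_H, sub_eq_zero] at h1
      have h3 : EXB_Alt (EXB_D ι c (EXB_P ι (c + 1) f)) := EXB_D_alt (EXB_P_alt f)
      rw [← EXB_P_of_alt h3, EXB_WP] at h1
      have h4 : (Fintype.card ι : ℂ) • EXB_P ι (c + 1) f ∈ Kz (c + 1) ι := by
        rw [h1]
        refine Submodule.smul_mem _ _ ?_
        have h5 := Submodule.add_mem _ (EXB_sub_mem (EXB_J ι c (EXB_D ι c (EXB_P ι (c + 1) f))))
          (EXB_J_mem (EXB_D ι c (EXB_P ι (c + 1) f)))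
        rwa [sub_add_cancel] at h5
      have h6 := Submodule.smul_mem _ ((Fintype.card ι : ℂ))⁻¹ h4
      rwa [smul_smul, inv_mul_cancel₀ hn, one_smul] at h6
  have h3 := Submodule.sub_mem _ h2 (EXB_sub_mem f)
  rwa [sub_sub_cancel] at h3

/-! ### Traces -/

theorem EXB_trace {V : Type} [AddCommGroup V] [Module ℂ V] [Module.Finite ℂ V]
    (f p : V →ₗ[ℂ] V) (K : Submodule ℂ V) (hK : LinearMap.ker p = K) (hp : ∀ x, p (p x) = p x)
    (h : K ≤ K.comap f) : LinearMap.trace ℂ (V ⧸ K) (K.mapQ K f h) =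
      LinearMap.trace ℂ V (f ∘ₗ p) := by
  have h1 : K.mkQ ∘ₗ K.liftQ p hK.ge = LinearMap.id := by
    refine Submodule.linearMap_qext _ ?_
    refine LinearMap.ext fun x => ?_
    show (Submodule.Quotient.mk (K.liftQ p hK.ge (Submodule.Quotient.mk x)) : V ⧸ K) =
      Submodule.Quotient.mk x
    rw [Submodule.liftQ_apply, Submodule.Quotient.eq, ← hK, LinearMap.mem_ker, map_sub, hp,
      sub_self]
  have h2 : K.liftQ p hK.ge ∘ₗ K.mkQ = p := Submodule.liftQ_mkQ _ _ _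
  calc LinearMap.trace ℂ (V ⧸ K) (K.mapQ K f h)
      = LinearMap.trace ℂ (V ⧸ K) (K.mapQ K f h ∘ₗ (K.mkQ ∘ₗ K.liftQ p hK.ge)) := by
        rw [h1, LinearMap.comp_id]
    _ = LinearMap.trace ℂ (V ⧸ K) ((K.mkQ ∘ₗ f) ∘ₗ K.liftQ p hK.ge) := by
        rw [← LinearMap.comp_assoc, Submodule.mapQ_mkQ]
    _ = LinearMap.trace ℂ V (K.liftQ p hK.ge ∘ₗ (K.mkQ ∘ₗ f)) := by
        rw [LinearMap.trace_comp_comm']
    _ = LinearMap.trace ℂ V (p ∘ₗ f) := by
        rw [← LinearMap.comp_assoc, h2]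
    _ = LinearMap.trace ℂ V (f ∘ₗ p) := by
        rw [LinearMap.trace_comp_comm']

omit [Fintype ι] [DecidableEq ι] in
theorem EXB_accP (w : Perm ι) (f : (Fin c → ι) → ℂ) :
    acz w (EXB_P ι c f) = EXB_P ι c (acz w f) := by
  funext k
  show EXB_P ι c f (fun t => w⁻¹ (k t)) = _
  rw [EXB_P_apply, EXB_P_apply]
  rfl

omit [Fintype ι] [DecidableEq ι] in
theorem EXB_accW (w : Perm ι) (f : (Fin c → ι) → ℂ) :
    acz w (EXB_W ι c f) = EXB_W ι c (acz w f) := rfl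

omit [DecidableEq ι] in
theorem EXB_accD (w : Perm ι) (f : (Fin (c + 1) → ι) → ℂ) :
    acz w (EXB_D ι c f) = EXB_D ι c (acz w f) := by
  funext k
  show ∑ i : ι, f (Fin.cons i fun t => w⁻¹ (k t)) =
    ∑ i : ι, f (fun t => w⁻¹ ((Fin.cons i k : Fin (c + 1) → ι) t))
  refine Fintype.sum_equiv w _ _ fun i => ?_
  congr 1
  funext j
  refine Fin.cases ?_ (fun j => ?_) j
  · show i = w⁻¹ (w i)
    rw [EXB_inv1]
  · rfl

theorem EXB_trP (w : Perm ι) :
    LinearMap.trace ℂ ((Fin c → ι) → ℂ) (acz w ∘ₗ EXB_P ι c) = lt c w := by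
  rw [LinearMap.trace_eq_matrix_trace ℂ (Pi.basisFun ℂ (Fin c → ι)), Matrix.trace]
  have h1 : ∀ k : Fin c → ι, Matrix.diag (LinearMap.toMatrix (Pi.basisFun ℂ (Fin c → ι))
      (Pi.basisFun ℂ (Fin c → ι)) (acz w ∘ₗ EXB_P ι c)) k =
      ((c.factorial : ℂ))⁻¹ * ∑ σ : Perm (Fin c), EXB_s σ *
        (if (fun t => w (k t)) = k ∘ σ then (1 : ℂ) else 0) := by
    intro k
    rw [Matrix.diag_apply, LinearMap.toMatrix_apply, Pi.basisFun_apply, Pi.basisFun_repr]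
    show EXB_P ι c (Pi.single k 1) (fun t => w⁻¹ (k t)) = _
    rw [EXB_P_apply]
    congr 1
    refine Finset.sum_congr rfl fun σ _ => ?_
    congr 1
    rw [Pi.single_apply]
    have h2 : ((fun j => w⁻¹ (k (σ j))) = k) ↔ (fun t => w (k t)) = k ∘ σ := by
      constructor
      · intro h
        funext t
        have h3 : w⁻¹ (k (σ t)) = k t := congrFun h t
        show w (k t) = k (σ t)
        rw [← h3, EXB_inv2]
      · intro h
        funext t
        have h3 : w (k t) = k (σ t) := congrFun h t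
        show w⁻¹ (k (σ t)) = k t
        rw [← h3, EXB_inv1]
    simp only [h2]
  rw [Finset.sum_congr rfl fun k _ => h1 k, ← Finset.mul_sum, Finset.sum_comm]
  unfold lt
  congr 1
  refine Finset.sum_congr rfl fun σ _ => ?_
  rw [← Finset.mul_sum, Finset.sum_boole]
  rfl

theorem EXB_rec [Nonempty ι] (w : Perm ι) :
    LinearMap.trace ℂ ((Fin (c + 1) → ι) → ℂ) (acz w ∘ₗ EXB_pi ι (c + 1)) = lt (c + 1) w -
      LinearMap.trace ℂ ((Fin c → ι) → ℂ) (acz w ∘ₗ EXB_pi ι c) := by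
  have hn : (Fintype.card ι : ℂ) ≠ 0 := by exact_mod_cast Fintype.card_ne_zero
  have h1 : acz w ∘ₗ EXB_pi ι (c + 1) = acz w ∘ₗ EXB_P ι (c + 1) -
      ((Fintype.card ι : ℂ))⁻¹ • ((acz w ∘ₗ EXB_W ι c ∘ₗ EXB_P ι c) ∘ₗ
        (EXB_D ι c ∘ₗ EXB_P ι (c + 1))) := by
    refine LinearMap.ext fun f => ?_
    show acz w (EXB_pi ι (c + 1) f) = acz w (EXB_P ι (c + 1) f) - ((Fintype.card ι : ℂ))⁻¹ •
      acz w (EXB_W ι c (EXB_P ι c (EXB_D ι c (EXB_P ι (c + 1) f))))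
    rw [EXB_pi_apply, EXB_H, EXB_P_of_alt (EXB_D_alt (EXB_P_alt f)), smul_sub, smul_smul,
      inv_mul_cancel₀ hn, one_smul, map_sub, map_smul]
  have h2 : (EXB_D ι c ∘ₗ EXB_P ι (c + 1)) ∘ₗ (acz w ∘ₗ EXB_W ι c ∘ₗ EXB_P ι c) =
      (Fintype.card ι : ℂ) • (acz w ∘ₗ EXB_pi ι c) := by
    refine LinearMap.ext fun f => ?_
    show EXB_D ι c (EXB_P ι (c + 1) (acz w (EXB_W ι c (EXB_P ι c f)))) =
      (Fintype.card ι : ℂ) • acz w (EXB_pi ι c f)
    rw [← EXB_accP, EXB_P_of_alt (EXB_W_alt (EXB_P_alt f)), ← EXB_accD, EXB_pi_apply, map_smul,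
      smul_smul, mul_inv_cancel₀ hn, one_smul]
  rw [h1, map_sub, map_smul, EXB_trP, LinearMap.trace_comp_comm', h2, map_smul, smul_smul,
    inv_mul_cancel₀ hn, one_smul]

theorem EXB_zero [Nonempty ι] (w : Perm ι) :
    LinearMap.trace ℂ ((Fin 0 → ι) → ℂ) (acz w ∘ₗ EXB_pi ι 0) = lt 0 w := by
  have hn : (Fintype.card ι : ℂ) ≠ 0 := by exact_mod_cast Fintype.card_ne_zero
  have h1 : EXB_pi ι 0 = EXB_P ι 0 := by
    refine LinearMap.ext fun f => ?_
    rw [EXB_pi_apply, EXB_H0, smul_smul, inv_mul_cancel₀ hn, one_smul]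
  rw [h1, EXB_trP]

end EXBlem

theorem thm_EXB : St_EXB := by
  intro ι _ _ b w hι
  have : Nonempty ι := Fintype.card_pos_iff.1 hι
  have hn : (Fintype.card ι : ℂ) ≠ 0 := by exact_mod_cast Fintype.card_ne_zero
  have h1 : ∀ b : ℕ, LinearMap.trace ℂ ((Fin b → ι) → ℂ) (acz w ∘ₗ EXB_pi ι b) =
      ∑ j ∈ Finset.range (b + 1), (-1 : ℂ) ^ j * lt (b - j) w := by
    intro b
    induction b with
    | zero => rw [EXB_zero, Finset.sum_range_one, pow_zero, one_mul]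
    | succ b ih =>
      rw [EXB_rec, ih, Finset.sum_range_succ' _ (b + 1), pow_zero, one_mul, Nat.sub_zero,
        sub_eq_add_neg, add_comm, ← Finset.sum_neg_distrib]
      congr 1
      refine Finset.sum_congr rfl fun j _ => ?_
      rw [pow_succ, Nat.add_sub_add_right]
      ring
  rw [← h1 b]
  have h2 : Kz b ι ≤ (Kz b ι).comap (acz w) := by
    intro f hf
    rw [Submodule.mem_comap]
    rw [← EXB_ker, LinearMap.mem_ker, EXB_pi_apply] at hf ⊢
    rw [← EXB_accP, ← EXB_accW, ← EXB_accD, ← map_smul, hf, map_zero]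
  unfold qz
  rw [dif_pos h2]
  exact EXB_trace (acz w) (EXB_pi ι b) (Kz b ι) EXB_ker (EXB_pipi hn) h2

end MDC
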