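import Pool.Agent.MDC.StB

/-!
# MDC, module FDG: the degree filtration
-/

set_option autoImplicit false

open MvPolynomial

namespace MDC

theorem FDG_term {ι : Type} {q l : ℕ} (a p : S ι) (ha : a.IsHomogeneous q) (i : ℕ) :
    homogeneousComponent i (a * homogeneousComponent l p) =
      if i = q + l then a * homogeneousComponent l p else 0 :=
  homogeneousComponent_of_mem (ha.mul (homogeneousComponent_isHomogeneous l p))

theorem FDG_mul {ι : Type} {q : ℕ} (a p : S ι) (ha : a.IsHomogeneous q) (i : ℕ) :
    homogeneousComponent (i + q) (a * p) = a * homogeneousComponent i p := by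
  conv_lhs => rw [← sum_homogeneousComponent p, Finset.mul_sum, map_sum]
  rw [Finset.sum_congr rfl fun l _ => FDG_term a p ha (i + q)]
  by_cases hi : i ∈ Finset.range (p.totalDegree + 1)
  · rw [Finset.sum_eq_single i]
    · rw [if_pos (add_comm i q)]
    · intro l _ hl
      rw [if_neg]
      omega
    · intro h
      exact absurd hi h
  · have h0 : homogeneousComponent i p = 0 := by
      apply homogeneousComponent_eq_zero
      rw [Finset.mem_range] at hi
      omega
    rw [h0, mul_zero]
    refine Finset.sum_eq_zero fun l hl => ?_
    rw [if_neg]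
    rintro h
    have : l = i := by omega
    exact hi (this ▸ hl)

theorem FDG_zero {ι : Type} {q : ℕ} (a p : S ι) (ha : a.IsHomogeneous q) (i : ℕ) (hi : i < q) :
    homogeneousComponent i (a * p) = 0 := by
  rw [← sum_homogeneousComponent p, Finset.mul_sum, map_sum]
  refine Finset.sum_eq_zero fun l _ => ?_
  rw [FDG_term a p ha, if_neg]
  omega

theorem FDG_hh {ι : Type} (p : S ι) (i i' : ℕ) :
    homogeneousComponent i (homogeneousComponent i' p) =
      if i = i' then homogeneousComponent i p else 0 := by
  rw [homogeneousComponent_of_mem (homogeneousComponent_isHomogeneous i' p)]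
  by_cases h : i = i'
  · rw [if_pos h, if_pos h, h]
  · rw [if_neg h, if_neg h]

theorem thm_FDG : St_FDG := by
  intro ι _ _ a b
  refine ⟨?_, ?_, ?_, ?_, ?_, ?_, ?_, ?_, ?_⟩
  · intro i i' h c hc j
    exact (hc j).trans h
  · intro i
    let φ : Fd a b ι i →ₗ[ℂ] (Ix a b ι → (ι → Fin (i + 1)) → ℂ) :=
      { toFun := fun c j A => coeff (Finsupp.equivFunOnFinite.symm fun k => (A k : ℕ)) (c.1 j)
        map_add' := fun c c' => by
          funext j A
          exact coeff_add _ _ _
        map_smul' := fun t c => by
          funext j A
          exact coeff_smul _ _ _ }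
    refine Module.Finite.of_injective φ ?_
    rw [← LinearMap.ker_eq_bot, LinearMap.ker_eq_bot']
    intro c hc
    apply Subtype.ext
    funext j
    show c.1 j = 0
    ext A
    rw [coeff_zero]
    by_contra hA
    have h1 : A.sum (fun _ e => e) ≤ i :=
      (le_totalDegree (mem_support_iff.2 hA)).trans (c.2 j)
    have h2 : ∀ k, A k < i + 1 := by
      intro k
      by_cases hk : A k = 0
      · omega
      · have h3 : A k ≤ A.sum (fun _ e => e) :=
          Finset.single_le_sum (f := fun k => A k) (fun _ _ => Nat.zero_le _)
            (Finsupp.mem_support_iff.2 hk)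
        omega
    have h3 := congrFun (congrFun hc j) (fun k => ⟨A k, h2 k⟩)
    have h4 : Finsupp.equivFunOnFinite.symm (fun k => A k) = A := by
      ext k
      rfl
    have h5 : coeff (Finsupp.equivFunOnFinite.symm fun k => A k) (c.1 j) = 0 := h3
    rw [h4] at h5
    exact hA h5
  · intro c
    exact ⟨Finset.univ.sup fun j => (c j).totalDegree, fun j =>
      Finset.le_sup (f := fun j => (c j).totalDegree) (Finset.mem_univ j)⟩
  · intro i c j
    exact (homogeneousComponent_isHomogeneous i (c j)).totalDegree_le
  · intro i c hc'
    funext j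
    rw [Finset.sum_apply]
    show c j = ∑ i' ∈ Finset.range (i + 1), homogeneousComponent i' (c j)
    conv_lhs => rw [← sum_homogeneousComponent (c j)]
    refine Finset.sum_subset ?_ ?_
    · intro l hl
      rw [Finset.mem_range] at hl ⊢
      have := hc' j
      omega
    · intro l _ hl
      apply homogeneousComponent_eq_zero
      rw [Finset.mem_range] at hl
      omega
  · intro i i' c
    funext j
    have h1 := FDG_hh (c j) i i'
    by_cases h : i = i'
    · rw [if_pos h] at h1 ⊢
      exact h1
    · rw [if_neg h] at h1 ⊢
      exact h1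
  · intro q i f hf c hc' j
    have h1 := (hf j).totalDegree_le
    have h2 := hc' j
    have h3 : ((f * c) j).totalDegree ≤ (f j).totalDegree + (c j).totalDegree :=
      totalDegree_mul _ _
    omega
  · intro q i f hf c
    funext j
    exact FDG_mul (f j) (c j) (hf j) i
  · intro q i f hf c hi
    funext j
    exact FDG_zero (f j) (c j) (hf j) i hi

end MDC
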