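import Pool.Agent.MDC.StD

/-!
# MDC, module FFG: the Frobenius characteristic of `T / LP` (helper89)
-/

set_option autoImplicit false
set_option linter.unusedSectionVars false

open MvPolynomial

namespace MDC

/-- the Frobenius characteristic of `T a b (Fin k) / LP` -/
noncomputable def FFG_F (N k a b : ℕ) : MvPolynomial (Fin N) ℂ :=
  frobI (Fin k) N (qtr (LP a b (Fin k)))

section

variable {ι : Type} [Fintype ι] [DecidableEq ι]

theorem FFG_sum {κ : Type} (t : Finset κ) (c : κ → ℂ) (N : ℕ) (χ : κ → Equiv.Perm ι → ℂ) :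
    frobI ι N (fun w => ∑ k ∈ t, c k * χ k w) = ∑ k ∈ t, c k • frobI ι N (χ k) := by
  unfold frobI
  have h1 : ∀ k, c k • ((((Fintype.card ι).factorial : ℂ))⁻¹ • ∑ w : Equiv.Perm ι, χ k w •
      ∑ g ∈ (Finset.univ : Finset (ι → Fin N)).filter (fun g => g ∘ w = g),
        ∏ i, (X (g i) : MvPolynomial (Fin N) ℂ)) =
      (((Fintype.card ι).factorial : ℂ))⁻¹ • ∑ w : Equiv.Perm ι, (c k * χ k w) •
      ∑ g ∈ (Finset.univ : Finset (ι → Fin N)).filter (fun g => g ∘ w = g),
        ∏ i, (X (g i) : MvPolynomial (Fin N) ℂ) := by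
    intro k
    rw [smul_comm, Finset.smul_sum (r := c k)]
    congr 1
    exact Finset.sum_congr rfl fun w _ => by rw [mul_smul]
  rw [Finset.sum_congr rfl fun k _ => h1 k, ← Finset.smul_sum, Finset.sum_comm]
  congr 1
  exact Finset.sum_congr rfl fun w _ => by rw [Finset.sum_smul]

theorem FFG_zero (N : ℕ) : frobI ι N (fun _ => 0) = 0 := by
  unfold frobI
  have h1 : ∀ w : Equiv.Perm ι, (0 : ℂ) •
      ∑ g ∈ (Finset.univ : Finset (ι → Fin N)).filter (fun g => g ∘ w = g),
        ∏ i, (X (g i) : MvPolynomial (Fin N) ℂ) = 0 := fun w => zero_smul _ _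
  rw [Finset.sum_congr rfl fun w _ => h1 w, Finset.sum_const_zero, smul_zero]

theorem FFG_sub {a b : ℕ} (K : Submodule (S ι) (T a b ι))
    (hK : Subsingleton (T a b ι ⧸ K.restrictScalars ℂ)) (w : Equiv.Perm ι) : qtr K w = 0 := by
  unfold qtr
  split_ifs with h
  · rw [Subsingleton.elim ((K.restrictScalars ℂ).mapQ (K.restrictScalars ℂ) (actT w) h) 0,
      map_zero]
  · rfl

theorem FFG_top {a b : ℕ} (K : Submodule (S ι) (T a b ι)) (hK : K = ⊤) (w : Equiv.Perm ι) :
    qtr K w = 0 := by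
  refine FFG_sub K ?_ w
  rw [Submodule.Quotient.subsingleton_iff, hK, Submodule.restrictScalars_top]

theorem FFG_relb (hRLB : St_RLB) (hFRI : St_FRI) (N a b : ℕ) :
    frobI ι N (qtr (LP a b ι)) = FFG_F N (Fintype.card ι) a b := by
  unfold FFG_F
  have e := Fintype.equivFin ι
  obtain ⟨-, -, -, -, -, -, -, -, -, -, h, -⟩ := hRLB ι (Fin (Fintype.card ι)) e a b
  rw [hFRI.1 ι (Fin (Fintype.card ι)) e N]
  congr 1
  funext w
  exact (h w).symm

theorem FFG_ite (N : ℕ) (p : Prop) [Decidable p] (χ : Equiv.Perm ι → ℂ) :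
    frobI ι N (fun w => if p then χ w else 0) = if p then frobI ι N χ else 0 := by
  by_cases hp : p
  · simp only [if_pos hp]
  · simp only [if_neg hp]
    exact FFG_zero N

end

/-! ### no variables -/

theorem FFG_frob0 (N : ℕ) (χ : Equiv.Perm (Fin 0) → ℂ) : frobI (Fin 0) N χ = C (χ 1) := by
  unfold frobI
  rw [Fintype.card_fin, Nat.factorial_zero, Nat.cast_one, inv_one, one_smul]
  have h1 : (Finset.univ : Finset (Equiv.Perm (Fin 0))) = {1} := by
    ext w
    simp only [Finset.mem_univ, Finset.mem_singleton, true_iff]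
    exact Subsingleton.elim _ _
  have h2 : (Finset.univ : Finset (Fin 0 → Fin N)).filter
      (fun g => g ∘ (1 : Equiv.Perm (Fin 0)) = g) = {Fin.elim0} := by
    ext g
    simp only [Finset.mem_filter, Finset.mem_univ, Finset.mem_singleton, true_and]
    constructor
    · intro _
      exact Subsingleton.elim _ _
    · intro _
      exact Subsingleton.elim _ _
  rw [h1, Finset.sum_singleton, h2, Finset.sum_singleton, Finset.univ_eq_empty,
    Finset.prod_empty, smul_eq_C_mul, mul_one]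

theorem FFG_LP0 : LP 0 0 (Fin 0) = ⊥ := by
  have h1 : RelA 0 0 (Fin 0) = ⊥ := by
    unfold RelA
    rw [Submodule.span_eq_bot]
    rintro c (⟨τ, x, rfl⟩ | ⟨τ, x, rfl⟩)
    · unfold rA
      have h2 : (x.1 ∘ τ, x.2) = x := Prod.ext (Subsingleton.elim _ _) rfl
      rw [h2, Subsingleton.elim τ 1, Equiv.Perm.sign_one, Units.val_one, Int.cast_one, one_smul,
        sub_self]
    · unfold rB
      have h2 : (x.1, x.2 ∘ τ) = x := Prod.ext rfl (Subsingleton.elim _ _)
      rw [h2, Subsingleton.elim τ 1, Equiv.Perm.sign_one, Units.val_one, Int.cast_one, one_smul,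
        sub_self]
  have h2 : RelP 0 0 (Fin 0) = ⊥ := by
    unfold RelP
    rw [h1, bot_sup_eq, Submodule.span_eq_bot]
    rintro c ⟨s, t, x, l, rfl⟩
    exact s.elim0
  have h3 : Rel 0 0 (Fin 0) = ⊥ := by
    unfold Rel
    rw [h2, bot_sup_eq, Submodule.span_eq_bot]
    rintro c (⟨s, x, l, rfl⟩ | ⟨s, x, l, rfl⟩)
    · exact s.elim0
    · exact s.elim0
  unfold LP
  rw [h3, bot_sup_eq, Submodule.span_eq_bot]
  rintro c ⟨k, x, _, rfl⟩
  have h4 : psum (Fin 0) ℂ k = 0 := by
    unfold psum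
    rw [Finset.univ_eq_empty, Finset.sum_empty]
  rw [h4, zero_smul]

theorem FFG_act1 {a b : ℕ} {ι : Type} [Fintype ι] [DecidableEq ι] (c : T a b ι) :
    actT (1 : Equiv.Perm ι) c = c := by
  funext x
  change rename (1 : Equiv.Perm ι) (c (fun s => (1 : Equiv.Perm ι)⁻¹ (x.1 s),
    fun t => (1 : Equiv.Perm ι)⁻¹ (x.2 t))) = c x
  have h1 : ((fun s => (1 : Equiv.Perm ι)⁻¹ (x.1 s), fun t => (1 : Equiv.Perm ι)⁻¹ (x.2 t)) :
      Ix a b ι) = x := by
    rw [inv_one]
    rfl
  rw [h1, Equiv.Perm.coe_one, rename_id_apply]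

theorem FFG_q0 : qtr (LP 0 0 (Fin 0)) 1 = 1 := by
  rw [FFG_LP0]
  have hb : (⊥ : Submodule (S (Fin 0)) (T 0 0 (Fin 0))).restrictScalars ℂ = ⊥ :=
    Submodule.restrictScalars_bot _ _ _
  have e1 : (T 0 0 (Fin 0) ⧸ (⊥ : Submodule (S (Fin 0)) (T 0 0 (Fin 0))).restrictScalars ℂ) ≃ₗ[ℂ]
      T 0 0 (Fin 0) := Submodule.quotEquivOfEqBot _ hb
  have : Unique (Ix 0 0 (Fin 0)) :=
    ⟨⟨(Fin.elim0, Fin.elim0)⟩, fun x => Subsingleton.elim _ _⟩
  have e2 : T 0 0 (Fin 0) ≃ₗ[ℂ] S (Fin 0) := LinearEquiv.funUnique (Ix 0 0 (Fin 0)) ℂ (S (Fin 0))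
  have e3 : S (Fin 0) ≃ₗ[ℂ] ℂ := (MvPolynomial.isEmptyAlgEquiv ℂ (Fin 0)).toLinearEquiv
  have e := (e1.trans e2).trans e3
  have hfin : Module.Finite ℂ
      (T 0 0 (Fin 0) ⧸ (⊥ : Submodule (S (Fin 0)) (T 0 0 (Fin 0))).restrictScalars ℂ) :=
    Module.Finite.equiv e.symm
  unfold qtr
  rw [dif_pos]
  · have h1 : ∀ h, ((⊥ : Submodule (S (Fin 0)) (T 0 0 (Fin 0))).restrictScalars ℂ).mapQ
        ((⊥ : Submodule (S (Fin 0)) (T 0 0 (Fin 0))).restrictScalars ℂ) (actT 1) h =
        LinearMap.id := by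
      intro h
      refine Submodule.linearMap_qext _ (LinearMap.ext fun c => ?_)
      rw [LinearMap.comp_apply, LinearMap.comp_apply, Submodule.mkQ_apply, Submodule.mapQ_apply,
        FFG_act1]
      rfl
    rw [h1, LinearMap.trace_id, e.finrank_eq, Module.finrank_self, Nat.cast_one]
  · intro c hc
    rw [Submodule.mem_comap, FFG_act1]
    exact hc

theorem FFG_case0 (hGGA : St_GGA) (N a b : ℕ) : FFG_F N 0 a b = GG N 0 a b := by
  unfold FFG_F
  rw [(hGGA N).1, FFG_frob0]
  by_cases hab : a = 0 ∧ b = 0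
  · obtain ⟨rfl, rfl⟩ := hab
    rw [if_pos ⟨rfl, rfl⟩, FFG_q0, C_1]
  · rw [if_neg hab]
    have he : IsEmpty (Ix a b (Fin 0)) := by
      refine ⟨fun x => hab ⟨?_, ?_⟩⟩
      · by_contra h
        exact (x.1 ⟨0, Nat.pos_of_ne_zero h⟩).elim0
      · by_contra h
        exact (x.2 ⟨0, Nat.pos_of_ne_zero h⟩).elim0
    have h1 : Subsingleton (T a b (Fin 0)) := ⟨fun c c' => funext fun x => he.elim x⟩
    have h2 : Subsingleton (T a b (Fin 0) ⧸ (LP a b (Fin 0)).restrictScalars ℂ) := by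
      rw [Submodule.Quotient.subsingleton_iff]
      exact Subsingleton.elim _ _
    rw [FFG_sub _ h2, C_0]

/-! ### the convolution -/

theorem FFG_blk {a b : ℕ} {ι : Type} [Fintype ι] [DecidableEq ι] (w : Equiv.Perm ι)
    (G : Finset ι × ℕ × ℕ → ℂ) :
    ∑ q ∈ (blk a b ι).filter (fun q => q.1.map w.toEmbedding = q.1), G q =
      ∑ a1 ∈ Finset.range (a + 1), ∑ b1 ∈ Finset.range (b + 1),
        ∑ B ∈ (Finset.univ : Finset (Finset ι)).filter (fun B => B.map w.toEmbedding = B),
          if a1 + b1 + 1 = B.card then G (B, a1, b1) else 0 := by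
  unfold blk
  rw [Finset.sum_filter, Finset.sum_filter, Finset.sum_product, Finset.sum_comm,
    Finset.sum_product]
  refine Finset.sum_congr rfl fun a1 _ => Finset.sum_congr rfl fun b1 _ => ?_
  rw [Finset.sum_filter]
  refine Finset.sum_congr rfl fun B _ => ?_
  by_cases h1 : B.map w.toEmbedding = B
  · by_cases h2 : a1 + b1 + 1 = B.card
    · rw [if_pos h2, if_pos h1, if_pos h1, if_pos h2]
    · rw [if_neg h2, if_pos h1, if_neg h2]
  · by_cases h2 : a1 + b1 + 1 = B.card
    · rw [if_pos h2, if_neg h1, if_neg h1]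
    · rw [if_neg h2, if_neg h1]

theorem FFG_step (hIND : St_IND) (hRLB : St_RLB) (hFRP : St_FRP) (hFRI : St_FRI)
    (N n a b m : ℕ) (h : a + b + (m + 2) = n) :
    FFG_F N n a b =
      ∑ k ∈ Finset.range (n + 1), ∑ a1 ∈ Finset.range (a + 1), ∑ b1 ∈ Finset.range (b + 1),
        if a1 + b1 + 1 = k then FFG_F N k a1 b1 * FFG_F N (n - k) (a - a1) (b - b1) else 0 := by
  obtain ⟨P, hP⟩ : ∃ P : Equiv.Perm (Fin n) → MvPolynomial (Fin N) ℂ, ∀ w, P w =
      ∑ g ∈ (Finset.univ : Finset (Fin n → Fin N)).filter (fun g => g ∘ w = g),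
        ∏ i, (X (g i) : MvPolynomial (Fin N) ℂ) := ⟨_, fun _ => rfl⟩
  have h0 : FFG_F N n a b = ((n.factorial : ℂ))⁻¹ • ∑ w, qtr (LP a b (Fin n)) w • P w := by
    unfold FFG_F frobI
    rw [Fintype.card_fin]
    congr 1
    exact Finset.sum_congr rfl fun w _ => by rw [hP]
  have h1 : ∀ w : Equiv.Perm (Fin n), qtr (LP a b (Fin n)) w =
      ∑ a1 ∈ Finset.range (a + 1), ∑ b1 ∈ Finset.range (b + 1),
        ∑ B ∈ (Finset.univ : Finset (Finset (Fin n))).filter (fun B => B.map w.toEmbedding = B),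
          (if a1 + b1 + 1 = B.card then qtr (LP a1 b1 (In B)) (resP B w) else 0) *
            qtr (LP (a - a1) (b - b1) (Out B)) (resN B w) := by
    intro w
    rw [hIND.2 (Fin n) a b m (by rw [Fintype.card_fin]; exact h) w, FFG_blk w]
    refine Finset.sum_congr rfl fun a1 _ => Finset.sum_congr rfl fun b1 _ =>
      Finset.sum_congr rfl fun B _ => ?_
    split_ifs
    · rfl
    · rw [zero_mul]
  have h2 : ∀ a1 b1 : ℕ, ∑ w : Equiv.Perm (Fin n),
      (∑ B ∈ (Finset.univ : Finset (Finset (Fin n))).filter (fun B => B.map w.toEmbedding = B),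
        (if a1 + b1 + 1 = B.card then qtr (LP a1 b1 (In B)) (resP B w) else 0) *
          qtr (LP (a - a1) (b - b1) (Out B)) (resN B w)) • P w =
      ∑ k ∈ Finset.range (n + 1), (n.factorial : ℂ) •
        (if a1 + b1 + 1 = k then FFG_F N k a1 b1 * FFG_F N (n - k) (a - a1) (b - b1) else 0) := by
    intro a1 b1
    have h3 := hFRP (Fin n) N
      (fun B v => if a1 + b1 + 1 = B.card then qtr (LP a1 b1 (In B)) v else 0)
      (fun B v => qtr (LP (a - a1) (b - b1) (Out B)) v)
    simp only [hP]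
    refine h3.trans ?_
    have h4 : ∀ B : Finset (Fin n),
        ((B.card.factorial * (Fintype.card (Fin n) - B.card).factorial : ℕ) : ℂ) •
        (frobI (In B) N (fun v => if a1 + b1 + 1 = B.card then qtr (LP a1 b1 (In B)) v else 0) *
          frobI (Out B) N (fun v => qtr (LP (a - a1) (b - b1) (Out B)) v)) =
        (fun k : ℕ => ((k.factorial * (n - k).factorial : ℕ) : ℂ) •
          (if a1 + b1 + 1 = k then FFG_F N k a1 b1 * FFG_F N (n - k) (a - a1) (b - b1) else 0))
          B.card := by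
      intro B
      have hc1 : Fintype.card (In B) = B.card := Fintype.card_coe B
      have hc2 : Fintype.card (Out B) = n - B.card := by
        have h5 := Fintype.card_subtype_compl (fun i : Fin n => i ∈ B)
        rw [Fintype.card_fin] at h5
        refine h5.trans ?_
        rw [Fintype.card_coe B]
      beta_reduce
      rw [FFG_ite, Fintype.card_fin]
      have h6 : frobI (Out B) N (fun v => qtr (LP (a - a1) (b - b1) (Out B)) v) =
          FFG_F N (n - B.card) (a - a1) (b - b1) := by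
        rw [← hc2]
        exact FFG_relb hRLB hFRI N (a - a1) (b - b1)
      have h7 : frobI (In B) N (fun v => qtr (LP a1 b1 (In B)) v) = FFG_F N B.card a1 b1 := by
        rw [← hc1]
        exact FFG_relb hRLB hFRI N a1 b1
      rw [h6]
      split_ifs
      · rw [h7]
      · rw [zero_mul]
    rw [Finset.sum_congr rfl fun B _ => h4 B, ← Finset.powerset_univ,
      Finset.sum_powerset_apply_card (fun k : ℕ => ((k.factorial * (n - k).factorial : ℕ) : ℂ) •
          (if a1 + b1 + 1 = k then FFG_F N k a1 b1 * FFG_F N (n - k) (a - a1) (b - b1) else 0)),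
      Finset.card_univ, Fintype.card_fin]
    refine Finset.sum_congr rfl fun k hk => ?_
    rw [Finset.mem_range] at hk
    rw [← Nat.cast_smul_eq_nsmul ℂ, smul_smul]
    congr 1
    rw [← Nat.cast_mul, ← mul_assoc, Nat.choose_mul_factorial_mul_factorial (by omega)]
  have h8 : ∑ w, qtr (LP a b (Fin n)) w • P w = (n.factorial : ℂ) •
      ∑ a1 ∈ Finset.range (a + 1), ∑ b1 ∈ Finset.range (b + 1), ∑ k ∈ Finset.range (n + 1),
        (if a1 + b1 + 1 = k then FFG_F N k a1 b1 * FFG_F N (n - k) (a - a1) (b - b1) else 0) := by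
    rw [Finset.smul_sum]
    have h9 : ∀ w : Equiv.Perm (Fin n), qtr (LP a b (Fin n)) w • P w =
        ∑ a1 ∈ Finset.range (a + 1), ∑ b1 ∈ Finset.range (b + 1),
        (∑ B ∈ (Finset.univ : Finset (Finset (Fin n))).filter
          (fun B => B.map w.toEmbedding = B),
          (if a1 + b1 + 1 = B.card then qtr (LP a1 b1 (In B)) (resP B w) else 0) *
            qtr (LP (a - a1) (b - b1) (Out B)) (resN B w)) • P w := by
      intro w
      rw [h1 w, Finset.sum_smul]
      exact Finset.sum_congr rfl fun a1 _ => by rw [Finset.sum_smul]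
    rw [Finset.sum_congr rfl fun w _ => h9 w, Finset.sum_comm]
    refine Finset.sum_congr rfl fun a1 _ => ?_
    rw [Finset.sum_comm, Finset.smul_sum]
    refine Finset.sum_congr rfl fun b1 _ => ?_
    rw [h2 a1 b1, Finset.smul_sum]
  have hn : (n.factorial : ℂ) ≠ 0 := by exact_mod_cast n.factorial_ne_zero
  rw [h0, h8, smul_smul, inv_mul_cancel₀ hn, one_smul]
  have h10 : ∀ a1 ∈ Finset.range (a + 1), ∑ b1 ∈ Finset.range (b + 1),
      ∑ k ∈ Finset.range (n + 1),
        (if a1 + b1 + 1 = k then FFG_F N k a1 b1 * FFG_F N (n - k) (a - a1) (b - b1) else 0) =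
      ∑ k ∈ Finset.range (n + 1), ∑ b1 ∈ Finset.range (b + 1),
        (if a1 + b1 + 1 = k then FFG_F N k a1 b1 * FFG_F N (n - k) (a - a1) (b - b1) else 0) :=
    fun a1 _ => Finset.sum_comm
  rw [Finset.sum_congr rfl h10, Finset.sum_comm]

/-! ### the case of one point -/

theorem FFG_neg (N k : ℕ) (p : MvPolynomial (Fin N) ℂ) :
    ((-1 : ℂ) ^ k) • p = (-1 : MvPolynomial (Fin N) ℂ) ^ k * p := by
  rw [smul_eq_C_mul, C_pow, C_neg, C_1]

theorem FFG_one (hEXA : St_EXA) (hEXB : St_EXB) (hFLT : St_FLT) (hGGB : St_GGB)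
    (N n b : ℕ) (hn : 1 ≤ n) :
    ∑ a' ∈ Finset.range (n + 1), (-1 : MvPolynomial (Fin N) ℂ) ^ a' * FFG_F N n a' b =
      ∑ a' ∈ Finset.range (n + 1), (-1 : MvPolynomial (Fin N) ℂ) ^ a' * GG N n a' b := by
  have hcard : 1 ≤ Fintype.card (Fin n) := by rw [Fintype.card_fin]; exact hn
  rw [hGGB N n b hn]
  have h1 : frobI (Fin n) N (fun w => ∑ a' ∈ Finset.range (n + 1),
      (-1 : ℂ) ^ a' * qtr (LP a' b (Fin n)) w) =
      frobI (Fin n) N (fun w => ∑ j ∈ Finset.range (b + 1), (-1 : ℂ) ^ j * lt (b - j) w) := by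
    congr 1
    funext w
    have h2 := hEXA (Fin n) b w hcard
    rw [Fintype.card_fin] at h2
    rw [h2]
    exact hEXB (Fin n) b w hcard
  rw [FFG_sum (Finset.range (n + 1)) (fun a' => (-1 : ℂ) ^ a') N
    (fun a' w => qtr (LP a' b (Fin n)) w),
    FFG_sum (Finset.range (b + 1)) (fun j => (-1 : ℂ) ^ j) N (fun j w => lt (b - j) w)] at h1
  have h3 : ∀ a' ∈ Finset.range (n + 1), (-1 : MvPolynomial (Fin N) ℂ) ^ a' * FFG_F N n a' b =
      ((-1 : ℂ) ^ a') • frobI (Fin n) N (fun w => qtr (LP a' b (Fin n)) w) := by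
    intro a' _
    rw [FFG_neg]
    rfl
  rw [Finset.sum_congr rfl h3]
  refine h1.trans (Finset.sum_congr rfl fun j _ => ?_)
  rw [FFG_neg]
  have h4 := hFLT (Fin n) N (b - j)
  rw [Fintype.card_fin] at h4
  rw [← h4]

theorem thm_FFG (hIND : St_IND) (hEXA : St_EXA) (hEXB : St_EXB) (hRLB : St_RLB) (hTOP : St_TOP)
    (hFRP : St_FRP) (hFRI : St_FRI) (hFLT : St_FLT) (hGGA : St_GGA) (hGGB : St_GGB) :
    St_FFG := by
  intro N n
  suffices H : ∀ a b : ℕ, FFG_F N n a b = GG N n a b from H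
  induction n using Nat.strong_induction_on with
  | _ n ih =>
    rcases Nat.eq_zero_or_pos n with h0 | hpos
    · subst h0
      exact fun a b => FFG_case0 hGGA N a b
    have hbig : ∀ a b : ℕ, n ≤ a + b → FFG_F N n a b = GG N n a b := by
      intro a b hab
      rw [(hGGA N).2.1 n a b hpos hab]
      have h1 := hTOP (Fin n) a b (by rw [Fintype.card_fin]; exact hpos)
        (by rw [Fintype.card_fin]; exact hab)
      have h2 : LP a b (Fin n) = ⊤ := by
        unfold LP
        rw [h1, top_sup_eq]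
      have h3 : qtr (LP a b (Fin n)) = fun _ => 0 := funext fun w => FFG_top _ h2 w
      unfold FFG_F
      rw [h3]
      exact FFG_zero N
    have hsmall : ∀ a b m : ℕ, a + b + (m + 2) = n → FFG_F N n a b = GG N n a b := by
      intro a b m hab
      rw [FFG_step hIND hRLB hFRP hFRI N n a b m hab,
        (hGGA N).2.2 n a b (m + 2) hab (by omega)]
      refine Finset.sum_congr rfl fun k hk => Finset.sum_congr rfl fun a1 ha1 =>
        Finset.sum_congr rfl fun b1 hb1 => ?_
      rw [Finset.mem_range] at hk ha1 hb1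
      split_ifs with h1
      · rw [ih k (by omega) a1 b1, ih (n - k) (by omega) (a - a1) (b - b1)]
      · rfl
    intro a b
    rcases Nat.lt_or_ge (a + b) n with hlt | hge
    · by_cases hm : a + b + 1 = n
      · have h1 := FFG_one hEXA hEXB hFLT hGGB N n b hpos
        have ha : a ∈ Finset.range (n + 1) := Finset.mem_range.2 (by omega)
        rw [← Finset.add_sum_erase _ _ ha, ← Finset.add_sum_erase (Finset.range (n + 1))
          (fun a' => (-1 : MvPolynomial (Fin N) ℂ) ^ a' * GG N n a' b) ha] at h1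
        have h2 : ∑ a' ∈ (Finset.range (n + 1)).erase a,
            (-1 : MvPolynomial (Fin N) ℂ) ^ a' * FFG_F N n a' b =
            ∑ a' ∈ (Finset.range (n + 1)).erase a,
            (-1 : MvPolynomial (Fin N) ℂ) ^ a' * GG N n a' b := by
          refine Finset.sum_congr rfl fun a' ha' => ?_
          have h3 := Finset.ne_of_mem_erase ha'
          rcases Nat.lt_or_ge a' a with h4 | h4
          · rw [hsmall a' b (n - 2 - a' - b) (by omega)]
          · rw [hbig a' b (by omega)]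
        rw [h2] at h1
        have h3 := add_right_cancel h1
        have h4 : ((-1 : MvPolynomial (Fin N) ℂ) ^ a) ≠ 0 := pow_ne_zero a (neg_ne_zero.2 one_ne_zero)
        exact mul_left_cancel₀ h4 h3
      · exact hsmall a b (n - 2 - a - b) (by omega)
    · exact hbig a b hge

end MDC
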