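import Pool.Agent.MDC.StE

/-!
# MDC, module FIN: Theorem C (final assembly)
-/

set_option autoImplicit false

open MvPolynomial

namespace MDC

namespace FIN

theorem frobChar_eq (hP : MDH.St_PCY) (n N : ℕ) (χ : Equiv.Perm (Fin n) → ℂ) :
    MDH.frobChar n N χ = frobI (Fin n) N χ := by
  have e : (((Fintype.card (Fin n)).factorial : ℂ))⁻¹ = ((n.factorial : ℂ))⁻¹ := by
    rw [Fintype.card_fin]
  unfold MDH.frobChar frobI
  rw [e]
  refine congrArg _ (Finset.sum_congr rfl (fun w _ => ?_))
  rw [hP n N w]

theorem frobI_inv (n N : ℕ) (χ : Equiv.Perm (Fin n) → ℂ) :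
    frobI (Fin n) N (fun w => χ w⁻¹) = frobI (Fin n) N χ := by
  unfold frobI
  congr 1
  refine Fintype.sum_equiv (Equiv.inv (Equiv.Perm (Fin n))) _ _ (fun w => ?_)
  rw [Equiv.inv_apply]
  congr 1
  refine Finset.sum_congr (Finset.filter_congr (fun g _ => ?_)) (fun _ _ => rfl)
  constructor
  · intro h
    funext i
    have h1 := congrFun h (w⁻¹ i)
    simp only [Function.comp_apply, Equiv.Perm.coe_inv, Equiv.apply_symm_apply] at h1
    rw [Function.comp_apply]
    exact h1.symm
  · intro h
    funext i
    have h1 := congrFun h (w i)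
    simp only [Function.comp_apply, Equiv.Perm.coe_inv, Equiv.symm_apply_apply] at h1
    rw [Function.comp_apply]
    exact h1.symm

theorem frobI_sub (n N : ℕ) (χ χ' : Equiv.Perm (Fin n) → ℂ) :
    frobI (Fin n) N (fun w => χ w - χ' w) = frobI (Fin n) N χ - frobI (Fin n) N χ' := by
  unfold frobI
  rw [← smul_sub, ← Finset.sum_sub_distrib]
  congr 1
  refine Finset.sum_congr rfl (fun w _ => ?_)
  rw [sub_smul]

end FIN

theorem thm_FIN (hL : St_HWL) (hS : St_SLT) (hD : St_DUA) (hF : St_FFG) (hG : St_GGC)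
    (hK : St_KPO) (hP : MDH.St_PCY) : St_FIN := by
  intro r n a b hn hb ha
  obtain ⟨hV, φ, hφ⟩ := hL r n a b hb ha
  obtain ⟨hs, hfin, htr'⟩ := hS n a b hn hb
  have hfin' : Module.Finite ℂ (HK a b n) := hfin
  have hk : ∀ c : Composition n,
      (if b = 0 then 0 else kapl c.blocks (a + 1) (b - 1)) ≤ kapl c.blocks a b := by
    intro c
    by_cases hb0 : b = 0
    · rw [if_pos hb0]; exact Nat.zero_le _
    · rw [if_neg hb0]
      exact hK c.blocks a b (fun k hk => c.blocks_pos hk) (by omega) hb
  refine ⟨hV, Module.Finite.equiv φ.symm, fun c => kapl c.blocks a b -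
    (if b = 0 then 0 else kapl c.blocks (a + 1) (b - 1)), ?_, ?_⟩
  · intro c
    exact Nat.cast_sub (hk c)
  · intro N
    have h1 : MDH.charOn (hwPart r n a b) hV = fun w => htr (HK a b n) w := by
      funext w
      unfold MDH.charOn
      rw [← LinearMap.trace_conj' ((MDH.act r n w).restrict (hV w)) φ]
      have e : htr (HK a b n) w = LinearMap.trace ℂ (HK a b n) ((actT w).restrict (hs w)) := by
        unfold htr
        rw [dif_pos (hs w)]
      rw [e]
      congr 1
      apply LinearMap.ext
      intro x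
      apply Subtype.ext
      have h2 := hφ w (φ.symm x) ((MDH.act r n w).restrict (hV w) (φ.symm x)) rfl
      rw [LinearEquiv.apply_symm_apply] at h2
      exact h2
    have h2 : (fun w => htr (HK a b n) w) = fun w =>
        (fun v => qtr (LP a b (Fin n)) v - (if b = 0 then 0 else
          qtr (LP (a + 1) (b - 1) (Fin n)) v)) w⁻¹ := by
      funext w
      rw [htr' w, (hD n a b hn).2.2 w, (hD n (a + 1) (b - 1) hn).2.2 w]
    have h3 : frobI (Fin n) N (fun v => qtr (LP a b (Fin n)) v - (if b = 0 then 0 else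
          qtr (LP (a + 1) (b - 1) (Fin n)) v)) =
        GG N n a b - (if b = 0 then 0 else GG N n (a + 1) (b - 1)) := by
      rw [FIN.frobI_sub, hF N n a b]
      congr 1
      by_cases hb0 : b = 0
      · simp only [if_pos hb0]
        unfold frobI
        simp
      · simp only [if_neg hb0]
        exact hF N n (a + 1) (b - 1)
    have h5 := FIN.frobI_inv n N (fun v => qtr (LP a b (Fin n)) v - (if b = 0 then 0 else
          qtr (LP (a + 1) (b - 1) (Fin n)) v))
    rw [FIN.frobChar_eq hP, h1, h2, h5, h3]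
    have h4 : (if b = 0 then 0 else GG N n (a + 1) (b - 1)) =
        ∑ c : Composition n, (if b = 0 then 0 else kapl c.blocks (a + 1) (b - 1)) •
          (c.blocks.map (fun k => esymm (Fin N) ℂ k)).prod := by
      by_cases hb0 : b = 0
      · simp [if_pos hb0]
      · simp only [if_neg hb0]
        exact hG N n (a + 1) (b - 1)
    rw [h4, hG N n a b, ← Finset.sum_sub_distrib]
    refine Finset.sum_congr rfl (fun c _ => ?_)
    rw [sub_eq_iff_eq_add, ← add_smul, Nat.sub_add_cancel (hk c)]

end MDC
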