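import Pool.Agent.MDC.StD

/-!
# MDC / FLT: Frobenius characteristic of the exterior powers
-/

set_option autoImplicit false

open MvPolynomial

namespace MDC

section flt

variable {ι : Type} [Fintype ι] [DecidableEq ι] {c : ℕ}

/-- the equivalence given by an injective map onto its image -/
private noncomputable def FLT_e (k : Fin c → ι) (hk : Function.Injective k) :
    Fin c ≃ In (Finset.univ.image k) :=
  Equiv.ofBijective (fun t => ⟨k t, Finset.mem_image_of_mem k (Finset.mem_univ t)⟩) (by
    constructor
    · intro s t h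
      exact hk (congrArg Subtype.val h)
    · rintro ⟨i, hi⟩
      obtain ⟨t, -, ht⟩ := Finset.mem_image.1 hi
      exact ⟨t, Subtype.ext ht⟩)

private theorem FLT_card (B : Finset ι) (hB : B.card = c) :
    ((Finset.univ : Finset (Fin c → ι)).filter
      (fun k => Function.Injective k ∧ Finset.univ.image k = B)).card = c.factorial := by
  have e0 : Fin c ≃ In B := (Fintype.equivFinOfCardEq (by rw [Fintype.card_coe, hB])).symm
  have h1 : Fintype.card (Fin c ≃ In B) = c.factorial := by
    rw [Fintype.card_equiv e0, Fintype.card_fin]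
  rw [← h1, ← Finset.card_univ]
  symm
  apply Finset.card_bij (fun (e : Fin c ≃ In B) _ => fun t => (e t).1)
  · intro e _
    rw [Finset.mem_filter]
    refine ⟨Finset.mem_univ _, ?_, ?_⟩
    · intro s t h
      exact e.injective (Subtype.ext h)
    · ext i
      rw [Finset.mem_image]
      constructor
      · rintro ⟨t, -, rfl⟩
        exact (e t).2
      · intro hi
        exact ⟨e.symm ⟨i, hi⟩, Finset.mem_univ _, by rw [Equiv.apply_symm_apply]⟩
  · intro e _ e' _ h
    ext t
    exact congrFun h t
  · intro k hk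
    obtain ⟨-, hinj, himg⟩ := Finset.mem_filter.1 hk
    subst himg
    exact ⟨FLT_e k hinj, Finset.mem_univ _, rfl⟩

omit [Fintype ι] [DecidableEq ι] in
/-- a non-injective map does not contribute -/
private theorem FLT_noninj (w : Equiv.Perm ι) (k : Fin c → ι) (hk : ¬ Function.Injective k)
    (F : Equiv.Perm (Fin c) → ℂ)
    (h1 : ∀ σ : Equiv.Perm (Fin c), (fun t => w (k t)) = k ∘ σ → F σ = 1)
    (h0 : ∀ σ : Equiv.Perm (Fin c), (fun t => w (k t)) ≠ k ∘ σ → F σ = 0) :
    ∑ σ : Equiv.Perm (Fin c), ((Equiv.Perm.sign σ : ℤ) : ℂ) * F σ = 0 := by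
  unfold Function.Injective at hk
  push Not at hk
  obtain ⟨s, t, hst, hne⟩ := hk
  set τ : Equiv.Perm (Fin c) := Equiv.swap s t with hτ
  have hkτ : k ∘ τ = k := by
    funext x
    rw [Function.comp_apply, hτ]
    by_cases h1 : x = s
    · rw [h1, Equiv.swap_apply_left, hst]
    · by_cases h2 : x = t
      · rw [h2, Equiv.swap_apply_right, hst]
      · rw [Equiv.swap_apply_of_ne_of_ne h1 h2]
  have hF : ∀ σ : Equiv.Perm (Fin c), F (τ * σ) = F σ := by
    intro σ
    have e : k ∘ (τ * σ : Equiv.Perm (Fin c)) = k ∘ σ := by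
      rw [Equiv.Perm.coe_mul, ← Function.comp_assoc, hkτ]
    by_cases h : (fun t => w (k t)) = k ∘ σ
    · rw [h1 σ h, h1 (τ * σ) (by rw [e]; exact h)]
    · rw [h0 σ h, h0 (τ * σ) (by rw [e]; exact h)]
  have h2 : ∑ σ : Equiv.Perm (Fin c), ((Equiv.Perm.sign σ : ℤ) : ℂ) * F σ =
      -∑ σ : Equiv.Perm (Fin c), ((Equiv.Perm.sign σ : ℤ) : ℂ) * F σ := by
    calc ∑ σ : Equiv.Perm (Fin c), ((Equiv.Perm.sign σ : ℤ) : ℂ) * F σ
        = ∑ σ : Equiv.Perm (Fin c), ((Equiv.Perm.sign (τ * σ) : ℤ) : ℂ) * F (τ * σ) :=
          (Equiv.sum_comp (Equiv.mulLeft τ)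
            (fun σ => ((Equiv.Perm.sign σ : ℤ) : ℂ) * F σ)).symm
      _ = _ := by
          rw [← Finset.sum_neg_distrib]
          apply Finset.sum_congr rfl
          intro σ _
          rw [hF, Equiv.Perm.sign_mul, hτ, Equiv.Perm.sign_swap hne]
          push_cast
          ring
  have h3 : (2 : ℂ) * ∑ σ : Equiv.Perm (Fin c), ((Equiv.Perm.sign σ : ℤ) : ℂ) * F σ = 0 := by
    linear_combination h2
  exact (mul_eq_zero.1 h3).resolve_left two_ne_zero

omit [Fintype ι] in
/-- an injective map contributes the sign of the restriction -/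
private theorem FLT_inj (w : Equiv.Perm ι) (k : Fin c → ι) (hk : Function.Injective k)
    (F : Equiv.Perm (Fin c) → ℂ)
    (h1 : ∀ σ : Equiv.Perm (Fin c), (fun t => w (k t)) = k ∘ σ → F σ = 1)
    (h0 : ∀ σ : Equiv.Perm (Fin c), (fun t => w (k t)) ≠ k ∘ σ → F σ = 0) :
    ∑ σ : Equiv.Perm (Fin c), ((Equiv.Perm.sign σ : ℤ) : ℂ) * F σ =
      if (Finset.univ.image k).map w.toEmbedding = Finset.univ.image k then
        ((Equiv.Perm.sign (resP (Finset.univ.image k) w) : ℤ) : ℂ) else 0 := by
  set B : Finset ι := Finset.univ.image k with hB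
  by_cases hw : B.map w.toEmbedding = B
  · rw [if_pos hw]
    have hS : Stb B w := by
      intro i
      constructor
      · intro hi
        rw [← hw] at hi
        obtain ⟨j, hj, hji⟩ := Finset.mem_map.1 hi
        have : j = i := w.injective hji
        rw [← this]
        exact hj
      · intro hi
        rw [← hw]
        exact Finset.mem_map.2 ⟨i, hi, rfl⟩
    have hval : ∀ x : In B, (resP B w x).1 = w x.1 := by
      intro x
      unfold resP
      rw [dif_pos hS]
      rfl
    set σ₀ : Equiv.Perm (Fin c) := (FLT_e k hk).symm.permCongr (resP B w) with hσ₀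
    have hsgn : Equiv.Perm.sign σ₀ = Equiv.Perm.sign (resP B w) := by
      rw [hσ₀, Equiv.Perm.sign_permCongr]
    have hσ : (fun t => w (k t)) = k ∘ σ₀ := by
      funext t
      have h2 : k (σ₀ t) = (FLT_e k hk (σ₀ t)).1 := rfl
      rw [Function.comp_apply, h2, hσ₀, Equiv.permCongr_apply, Equiv.symm_symm,
        Equiv.apply_symm_apply, hval]
      rfl
    rw [Finset.sum_eq_single σ₀]
    · rw [h1 σ₀ hσ, mul_one, hsgn]
    · intro σ _ hne
      rw [h0 σ, mul_zero]
      intro h
      apply hne
      ext t
      have h2 := congrFun (hσ.symm.trans h) t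
      simp only [Function.comp_apply] at h2
      exact congrArg Fin.val (hk h2).symm
    · intro h
      exact absurd (Finset.mem_univ _) h
  · rw [if_neg hw]
    apply Finset.sum_eq_zero
    intro σ _
    rw [h0 σ, mul_zero]
    intro h
    apply hw
    have h2 : B.map w.toEmbedding = Finset.univ.image (fun t => w (k t)) := by
      rw [Finset.map_eq_image, hB, Finset.image_image]
      rfl
    rw [h2, h, hB]
    ext i
    simp only [Finset.mem_image, Finset.mem_univ, true_and, Function.comp_apply]
    constructor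
    · rintro ⟨t, rfl⟩
      exact ⟨σ t, rfl⟩
    · rintro ⟨t, rfl⟩
      exact ⟨σ.symm t, by rw [Equiv.apply_symm_apply]⟩

/-- the trace on the exterior power as a sum over the stable subsets -/
private theorem FLT_lt (c : ℕ) (w : Equiv.Perm ι) :
    lt c w = ∑ B ∈ (Finset.univ : Finset (Finset ι)).filter (fun B => B.map w.toEmbedding = B),
      (if B.card = c then ((Equiv.Perm.sign (resP B w) : ℤ) : ℂ) else 0) := by
  set g : Finset ι → ℂ := fun B => if B.map w.toEmbedding = B then
        ((Equiv.Perm.sign (resP B w) : ℤ) : ℂ) else 0 with hg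
  have hf : (c.factorial : ℂ) ≠ 0 := by exact_mod_cast c.factorial_ne_zero
  have hstep : ∀ (k : Fin c → ι) (F : Equiv.Perm (Fin c) → ℂ)
      (_h1 : ∀ σ : Equiv.Perm (Fin c), (fun t => w (k t)) = k ∘ σ → F σ = 1)
      (_h0 : ∀ σ : Equiv.Perm (Fin c), (fun t => w (k t)) ≠ k ∘ σ → F σ = 0),
      ∑ σ : Equiv.Perm (Fin c), ((Equiv.Perm.sign σ : ℤ) : ℂ) * F σ =
        if Function.Injective k then g (Finset.univ.image k) else 0 := by
    intro k F h1 h0
    by_cases hk : Function.Injective k
    · rw [if_pos hk, FLT_inj w k hk F h1 h0]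
    · rw [if_neg hk, FLT_noninj w k hk F h1 h0]
  have hsum : ∑ k : Fin c → ι, (if Function.Injective k then g (Finset.univ.image k) else 0) =
      (c.factorial : ℂ) * ∑ B ∈ (Finset.univ : Finset (Finset ι)).filter (fun B => B.card = c),
        g B := by
    rw [← Finset.sum_filter]
    have hmaps : ∀ k ∈ (Finset.univ : Finset (Fin c → ι)).filter (fun k => Function.Injective k),
        Finset.univ.image k ∈
          (Finset.univ : Finset (Finset ι)).filter (fun B => B.card = c) := by
      intro k hk
      rw [Finset.mem_filter]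
      refine ⟨Finset.mem_univ _, ?_⟩
      rw [Finset.card_image_of_injective _ (Finset.mem_filter.1 hk).2, Finset.card_univ,
        Fintype.card_fin]
    rw [← Finset.sum_fiberwise_of_maps_to hmaps, Finset.mul_sum]
    apply Finset.sum_congr rfl
    intro B hB
    rw [Finset.filter_filter, Finset.sum_congr rfl (g := fun _ => g B)]
    · rw [Finset.sum_const, FLT_card B (Finset.mem_filter.1 hB).2, nsmul_eq_mul]
    · intro k hk
      rw [(Finset.mem_filter.1 hk).2.2]
  have hlt : lt c w = (c.factorial : ℂ)⁻¹ *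
      ∑ k : Fin c → ι, (if Function.Injective k then g (Finset.univ.image k) else 0) := by
    unfold lt
    congr 1
    simp only [Finset.card_filter, Nat.cast_sum, Finset.mul_sum]
    rw [Finset.sum_comm]
    apply Finset.sum_congr rfl
    intro k _
    apply hstep k
    · intro σ h
      rw [if_pos h, Nat.cast_one]
    · intro σ h
      rw [if_neg h, Nat.cast_zero]
  rw [hlt, hsum, ← mul_assoc, inv_mul_cancel₀ hf, one_mul, Finset.sum_filter, Finset.sum_filter]
  apply Finset.sum_congr rfl
  intro B _
  simp only [hg]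
  by_cases h1 : B.card = c <;> by_cases h2 : B.map w.toEmbedding = B <;> simp [h1, h2]

end flt

theorem thm_FLT (hFRP : St_FRP) (hFRI : St_FRI) : St_FLT := by
  intro ι _ _ N c
  obtain ⟨-, hS, hT⟩ := hFRI
  set n := Fintype.card ι with hn
  set χ1 : (B : Finset ι) → Equiv.Perm (In B) → ℂ := fun B π =>
    if B.card = c then ((Equiv.Perm.sign π : ℤ) : ℂ) else 0 with hχ1
  set χ2 : (B : Finset ι) → Equiv.Perm (Out B) → ℂ := fun _ _ => 1 with hχ2
  have hfr : frobI ι N (lt c) = ((n.factorial : ℂ))⁻¹ •
      ∑ B : Finset ι, ((B.card.factorial * (n - B.card).factorial : ℕ) : ℂ) •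
        (frobI (In B) N (χ1 B) * frobI (Out B) N (χ2 B)) := by
    rw [← hFRP ι N χ1 χ2]
    unfold frobI
    congr 1
    apply Finset.sum_congr rfl
    intro w _
    congr 1
    rw [FLT_lt]
    apply Finset.sum_congr rfl
    intro B _
    simp only [hχ1, hχ2, mul_one]
  have hterm : ∀ B : Finset ι, ((B.card.factorial * (n - B.card).factorial : ℕ) : ℂ) •
      (frobI (In B) N (χ1 B) * frobI (Out B) N (χ2 B)) =
      if B.card = c then ((c.factorial * (n - c).factorial : ℕ) : ℂ) •
        (esymm (Fin N) ℂ c * hsymm (Fin N) ℂ (n - c)) else 0 := by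
    intro B
    by_cases hB : B.card = c
    · rw [if_pos hB]
      have h1 : χ1 B = fun π => ((Equiv.Perm.sign π : ℤ) : ℂ) := by
        funext π
        simp only [hχ1]
        rw [if_pos hB]
      have hc1 : Fintype.card (In B) = c := by rw [Fintype.card_coe, hB]
      have hc2 : Fintype.card (Out B) = n - c := by
        rw [← hc1]
        exact Fintype.card_subtype_compl (fun i => i ∈ B)
      rw [h1, hS (In B) N, hχ2, hT (Out B) N, hc1, hc2, hB]
    · rw [if_neg hB]
      have h1 : χ1 B = fun _ => 0 := by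
        funext π
        simp only [hχ1]
        rw [if_neg hB]
      have h2 : frobI (In B) N (fun _ => (0 : ℂ)) = 0 := by
        unfold frobI
        simp
      rw [h1, h2, zero_mul, smul_zero]
  rw [hfr, Finset.sum_congr rfl (fun B _ => hterm B), ← Finset.sum_filter, Finset.sum_const]
  have hcard : ((Finset.univ : Finset (Finset ι)).filter (fun B => B.card = c)).card =
      n.choose c := by
    have : (Finset.univ : Finset (Finset ι)).filter (fun B => B.card = c) =
        Finset.powersetCard c Finset.univ := by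
      ext B
      rw [Finset.mem_filter, Finset.mem_powersetCard]
      constructor
      · rintro ⟨-, h⟩
        exact ⟨Finset.subset_univ _, h⟩
      · rintro ⟨-, h⟩
        exact ⟨Finset.mem_univ _, h⟩
    rw [this, Finset.card_powersetCard, Finset.card_univ]
  rw [hcard]
  by_cases hcn : c ≤ n
  · rw [if_pos hcn, ← Nat.cast_smul_eq_nsmul ℂ, smul_smul, smul_smul]
    have h1 : ((n.factorial : ℂ))⁻¹ * (((n.choose c : ℕ) : ℂ) *
        ((c.factorial * (n - c).factorial : ℕ) : ℂ)) = 1 := by
      have h2 : n.choose c * (c.factorial * (n - c).factorial) = n.factorial := by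
        rw [← mul_assoc]
        exact Nat.choose_mul_factorial_mul_factorial hcn
      rw [← Nat.cast_mul, h2]
      exact inv_mul_cancel₀ (by exact_mod_cast n.factorial_ne_zero)
    rw [mul_assoc, h1, one_smul]
  · rw [if_neg hcn, Nat.choose_eq_zero_of_lt (by omega), zero_smul, smul_zero]

end MDC
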