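import Pool.Agent.MDC.StD

/-!
# MDC, module FRI: relabelling and the two basic Frobenius characteristics
-/

set_option autoImplicit false

open MvPolynomial

namespace MDC

section FRI

variable {ι : Type} [Fintype ι] [DecidableEq ι]

/-- the multiset of values -/
private def FRI_m (N : ℕ) (g : ι → Fin N) : Sym (Fin N) (Fintype.card ι) :=
  ⟨(Finset.univ : Finset ι).val.map g, by rw [Multiset.card_map]; rfl⟩

omit [DecidableEq ι] in
private theorem FRI_prod (N : ℕ) (g : ι → Fin N) :
    ∏ i, (X (g i) : MvPolynomial (Fin N) ℂ) = ((FRI_m N g).1.map X).prod := by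
  rw [FRI_m]
  simp only [Multiset.map_map]
  rfl

omit [DecidableEq ι] in
private theorem FRI_surj (N : ℕ) (s : Sym (Fin N) (Fintype.card ι)) :
    ∃ g : ι → Fin N, FRI_m N g = s := by
  obtain ⟨l, hl⟩ := Quot.exists_rep s.1
  have hlen : l.length = Fintype.card ι := by
    have h := s.2
    rw [← hl] at h
    exact h
  let e : ι ≃ Fin l.length := (Fintype.equivFin ι).trans (finCongr hlen.symm)
  refine ⟨fun i => l.get (e i), Subtype.ext ?_⟩
  rw [← hl]
  change (Finset.univ : Finset ι).val.map (l.get ∘ e) = (l : Multiset (Fin N))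
  rw [← Multiset.map_map, Multiset.map_univ_val_equiv e, Fin.univ_val_map, List.ofFn_get]

omit [DecidableEq ι] in
private theorem FRI_perm (N : ℕ) (g g0 : ι → Fin N) (h : FRI_m N g = FRI_m N g0) :
    ∃ w : Equiv.Perm ι, g0 ∘ w = g := by
  classical
  have h1 : ∀ c : Fin N, Fintype.card {a // g a = c} = Fintype.card {a // g0 a = c} := by
    intro c
    have h2 : ∀ f : ι → Fin N, Multiset.count c (FRI_m N f).1 = Fintype.card {a // f a = c} := by
      intro f
      rw [FRI_m, Fintype.card_subtype]
      simp only [Multiset.count_map]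
      rw [← Finset.filter_val]
      change (Finset.filter (fun a => c = f a) Finset.univ).card = _
      congr 1
      ext a
      simp [eq_comm]
    rw [← h2, ← h2, h]
  let e : ι ≃ ι := (Equiv.sigmaFiberEquiv g).symm.trans
    ((Equiv.sigmaCongrRight (fun c => Fintype.equivOfCardEq (h1 c))).trans
      (Equiv.sigmaFiberEquiv g0))
  refine ⟨e, ?_⟩
  funext a
  exact ((Fintype.equivOfCardEq (h1 (g a))) ⟨a, rfl⟩).2

private theorem FRI_stab (N : ℕ) (s : Sym (Fin N) (Fintype.card ι)) :
    ∑ g ∈ (Finset.univ : Finset (ι → Fin N)).filter (fun g => FRI_m N g = s),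
      ((Finset.univ : Finset (Equiv.Perm ι)).filter (fun w : Equiv.Perm ι => g ∘ w = g)).card =
    (Fintype.card ι).factorial := by
  obtain ⟨g0, hg0⟩ := FRI_surj N s
  have h1 : ∀ g ∈ (Finset.univ : Finset (ι → Fin N)).filter (fun g => FRI_m N g = s),
      ((Finset.univ : Finset (Equiv.Perm ι)).filter (fun w : Equiv.Perm ι => g ∘ w = g)).card =
      ((Finset.univ : Finset (Equiv.Perm ι)).filter (fun w : Equiv.Perm ι => g0 ∘ w = g)).card := by
    intro g hg
    obtain ⟨w1, hw1⟩ := FRI_perm N g g0 (by rw [(Finset.mem_filter.mp hg).2, hg0])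
    refine Finset.card_bij (fun w _ => w1 * w) ?_ ?_ ?_
    · intro w hw
      rw [Finset.mem_filter] at hw ⊢
      refine ⟨Finset.mem_univ _, ?_⟩
      rw [Equiv.Perm.coe_mul, ← Function.comp_assoc, hw1]
      exact hw.2
    · intro w _ w' _ h
      exact mul_left_cancel h
    · intro w hw
      rw [Finset.mem_filter] at hw
      refine ⟨w1⁻¹ * w, ?_, by simp⟩
      rw [Finset.mem_filter]
      refine ⟨Finset.mem_univ _, ?_⟩
      conv_lhs => rw [← hw1]
      rw [Function.comp_assoc, ← Equiv.Perm.coe_mul, mul_inv_cancel_left]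
      exact hw.2
  rw [Finset.sum_congr rfl h1]
  refine Eq.trans (Finset.card_eq_sum_card_fiberwise ?_).symm
    (Finset.card_univ.trans (Fintype.card_perm (α := ι)))
  intro w _
  rw [Finset.mem_coe, Finset.mem_filter]
  refine ⟨Finset.mem_univ _, ?_⟩
  rw [← hg0]
  apply Subtype.ext
  change (Finset.univ : Finset ι).val.map (g0 ∘ w) = (Finset.univ : Finset ι).val.map g0
  rw [← Multiset.map_map, Multiset.map_univ_val_equiv w]

private theorem FRI_swap (N : ℕ) (χ : Equiv.Perm ι → ℂ) :
    ∑ w : Equiv.Perm ι, χ w •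
      ∑ g ∈ (Finset.univ : Finset (ι → Fin N)).filter (fun g => g ∘ w = g),
        ∏ i, (X (g i) : MvPolynomial (Fin N) ℂ) =
    ∑ s : Sym (Fin N) (Fintype.card ι),
      (∑ g ∈ (Finset.univ : Finset (ι → Fin N)).filter (fun g => FRI_m N g = s),
        ∑ w ∈ (Finset.univ : Finset (Equiv.Perm ι)).filter (fun w : Equiv.Perm ι => g ∘ w = g), χ w) •
      (s.1.map X).prod := by
  have h1 : ∑ w : Equiv.Perm ι, χ w •
      ∑ g ∈ (Finset.univ : Finset (ι → Fin N)).filter (fun g => g ∘ w = g),
        ∏ i, (X (g i) : MvPolynomial (Fin N) ℂ) =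
      ∑ g : ι → Fin N, (∑ w ∈ (Finset.univ : Finset (Equiv.Perm ι)).filter
        (fun w : Equiv.Perm ι => g ∘ w = g), χ w) • ∏ i, (X (g i) : MvPolynomial (Fin N) ℂ) := by
    simp only [Finset.smul_sum, Finset.sum_smul, Finset.sum_filter]
    rw [Finset.sum_comm]
    refine Finset.sum_congr rfl (fun g _ => ?_)
    refine Finset.sum_congr rfl (fun w _ => ?_)
    split_ifs
    · rfl
    · rw [smul_zero, zero_smul]
  rw [h1, ← Finset.sum_fiberwise Finset.univ (FRI_m N)]
  refine Finset.sum_congr rfl (fun s _ => ?_)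
  rw [Finset.sum_smul]
  refine Finset.sum_congr rfl (fun g hg => ?_)
  rw [FRI_prod, (Finset.mem_filter.mp hg).2]

private theorem FRI_sign (N : ℕ) (g : ι → Fin N) :
    ∑ w ∈ (Finset.univ : Finset (Equiv.Perm ι)).filter (fun w : Equiv.Perm ι => g ∘ w = g),
      (((Equiv.Perm.sign w : ℤ) : ℂ)) = if Function.Injective g then 1 else 0 := by
  split_ifs with hg
  · have h1 : (Finset.univ : Finset (Equiv.Perm ι)).filter (fun w : Equiv.Perm ι => g ∘ w = g) = {1} := by
      ext w
      rw [Finset.mem_filter, Finset.mem_singleton]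
      constructor
      · rintro ⟨-, h⟩
        ext a
        exact hg (congrFun h a)
      · rintro rfl
        exact ⟨Finset.mem_univ _, rfl⟩
    rw [h1, Finset.sum_singleton]
    simp
  · obtain ⟨a, b, hab, hne⟩ : ∃ a b, g a = g b ∧ a ≠ b := by
      by_contra h
      push Not at h
      exact hg (fun a b hab => h a b hab)
    refine Finset.sum_involution (fun w _ => Equiv.swap a b * w) ?_ ?_ ?_ ?_
    · intro w _
      rw [Equiv.Perm.sign_mul, Equiv.Perm.sign_swap hne]
      push_cast
      ring
    · intro w _ _ h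
      have h2 : Equiv.swap a b = 1 := by
        have := mul_right_cancel (h.trans (one_mul w).symm)
        exact this
      exact hne (Equiv.swap_eq_one_iff.mp h2)
    · intro w hw
      rw [Finset.mem_filter] at hw ⊢
      refine ⟨Finset.mem_univ _, ?_⟩
      have h3 : g ∘ Equiv.swap a b = g := by
        funext c
        simp only [Function.comp_apply, Equiv.swap_apply_def]
        split_ifs with h h'
        · rw [h, hab]
        · rw [h', hab]
        · rfl
      rw [Equiv.Perm.coe_mul, ← Function.comp_assoc, h3]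
      exact hw.2
    · intro w _
      rw [← mul_assoc, Equiv.swap_mul_self, one_mul]

omit [DecidableEq ι] in
private theorem FRI_inj (N : ℕ) (g : ι → Fin N) :
    Function.Injective g ↔ (FRI_m N g).1.Nodup := by
  rw [FRI_m]
  simp only
  constructor
  · intro h
    exact (Multiset.nodup_map_iff_of_injective h).mpr Finset.univ.nodup
  · intro h a b hab
    exact Multiset.inj_on_of_nodup_map h a (Finset.mem_univ a) b (Finset.mem_univ b) hab

end FRI

theorem thm_FRI : St_FRI := by
  refine ⟨?_, ?_, ?_⟩
  · intro ι ι' _ _ _ _ e N χ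
    unfold frobI
    rw [Fintype.card_congr e]
    congr 1
    refine (Fintype.sum_equiv e.permCongr _ _ (fun w => ?_)).symm
    congr 1
    simp only [Finset.sum_filter]
    refine Fintype.sum_equiv (e.arrowCongr (Equiv.refl _)) _ _ (fun g => ?_)
    have h1 : (g ∘ w = g) ↔ ((e.arrowCongr (Equiv.refl (Fin N))) g ∘ (e.permCongr w) =
        (e.arrowCongr (Equiv.refl (Fin N))) g) := by
      constructor
      · intro h
        funext a
        simp only [Function.comp_apply, Equiv.arrowCongr_apply, Equiv.permCongr_apply,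
          Equiv.symm_apply_apply, Equiv.coe_refl, id_eq]
        exact congrFun h _
      · intro h
        funext a
        have := congrFun h (e a)
        simpa only [Function.comp_apply, Equiv.arrowCongr_apply, Equiv.permCongr_apply,
          Equiv.symm_apply_apply, Equiv.coe_refl, id_eq] using this
    have h2 : ∏ i, (X (g i) : MvPolynomial (Fin N) ℂ) =
        ∏ i, (X ((e.arrowCongr (Equiv.refl (Fin N))) g i) : MvPolynomial (Fin N) ℂ) := by
      refine Fintype.prod_equiv e _ _ (fun i => ?_)
      simp
    by_cases h : g ∘ w = g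
    · rw [if_pos h, if_pos (h1.mp h), h2]
    · rw [if_neg h, if_neg (fun h' => h (h1.mpr h'))]
  · intro ι _ _ N
    unfold frobI
    rw [FRI_swap]
    have h1 : ∀ s : Sym (Fin N) (Fintype.card ι),
        (∑ g ∈ (Finset.univ : Finset (ι → Fin N)).filter (fun g => FRI_m N g = s),
          ∑ w ∈ (Finset.univ : Finset (Equiv.Perm ι)).filter (fun w : Equiv.Perm ι => g ∘ w = g),
            (((Equiv.Perm.sign w : ℤ) : ℂ))) =
        ((Fintype.card ι).factorial : ℂ) * if s.1.Nodup then 1 else 0 := by
      intro s
      rw [← FRI_stab N s]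
      push_cast
      rw [Finset.sum_mul]
      refine Finset.sum_congr rfl (fun g hg => ?_)
      have hgs := (Finset.mem_filter.mp hg).2
      rw [FRI_sign]
      by_cases h : Function.Injective g
      · rw [if_pos h, if_pos (by rw [← hgs]; exact (FRI_inj N g).mp h), mul_one]
        have h2 : (Finset.univ : Finset (Equiv.Perm ι)).filter (fun w : Equiv.Perm ι => g ∘ w = g) = {1} := by
          ext w
          rw [Finset.mem_filter, Finset.mem_singleton]
          constructor
          · rintro ⟨-, h'⟩
            ext a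
            exact h (congrFun h' a)
          · rintro rfl
            exact ⟨Finset.mem_univ _, rfl⟩
        rw [h2, Finset.card_singleton, Nat.cast_one]
      · rw [if_neg h, if_neg (by rw [← hgs]; exact fun h' => h ((FRI_inj N g).mpr h')), mul_zero]
    simp only [h1]
    rw [Finset.smul_sum]
    have h3 : ∀ s : Sym (Fin N) (Fintype.card ι),
        (((Fintype.card ι).factorial : ℂ))⁻¹ •
          ((((Fintype.card ι).factorial : ℂ) * if s.1.Nodup then 1 else 0) •
            (s.1.map X).prod) =
        if s.1.Nodup then ((s.1.map X).prod : MvPolynomial (Fin N) ℂ) else 0 := by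
      intro s
      rw [smul_smul, ← mul_assoc, inv_mul_cancel₀ (by exact_mod_cast Nat.factorial_ne_zero _),
        one_mul]
      split_ifs with h
      · rw [one_smul]
      · rw [zero_smul]
    rw [Finset.sum_congr rfl (fun s _ => h3 s), ← Finset.sum_filter, esymm]
    refine Finset.sum_bij' (fun s hs => (⟨s.1, (Finset.mem_filter.mp hs).2⟩ : Finset (Fin N)))
      (fun t ht => (⟨t.1, (Finset.mem_powersetCard.mp ht).2⟩ : Sym (Fin N) (Fintype.card ι)))
      ?_ ?_ ?_ ?_ ?_
    · intro s hs
      rw [Finset.mem_powersetCard]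
      exact ⟨Finset.subset_univ _, s.2⟩
    · intro t ht
      rw [Finset.mem_filter]
      exact ⟨Finset.mem_univ _, t.2⟩
    · intro s hs
      rfl
    · intro t ht
      rfl
    · intro s hs
      rfl
  · intro ι _ _ N
    unfold frobI
    rw [FRI_swap, hsymm, Finset.smul_sum]
    refine Finset.sum_congr rfl (fun s _ => ?_)
    have h1 : (∑ g ∈ (Finset.univ : Finset (ι → Fin N)).filter (fun g => FRI_m N g = s),
        ∑ w ∈ (Finset.univ : Finset (Equiv.Perm ι)).filter (fun w : Equiv.Perm ι => g ∘ w = g), (1 : ℂ)) =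
        ((Fintype.card ι).factorial : ℂ) := by
      rw [← FRI_stab N s]
      push_cast
      refine Finset.sum_congr rfl (fun g _ => ?_)
      rw [Finset.sum_const, nsmul_eq_mul, mul_one]
    rw [h1, smul_smul, inv_mul_cancel₀ (by exact_mod_cast Nat.factorial_ne_zero _), one_smul]

end MDC
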