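import Pool.Agent.MDC.StD

/-!
# MDC, module FRP: product formula for Frobenius characteristics (helper24)
-/

set_option autoImplicit false
set_option linter.unusedSectionVars false

open MvPolynomial

namespace MDC

section FRP

variable {ι : Type} [Fintype ι] [DecidableEq ι] {N : ℕ}

/-- the power sum of `w` -/
noncomputable def FRP_P (ι : Type) [Fintype ι] [DecidableEq ι] (N : ℕ) (w : Equiv.Perm ι) :
    MvPolynomial (Fin N) ℂ :=
  ∑ g ∈ (Finset.univ : Finset (ι → Fin N)).filter (fun g => g ∘ w = g),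
    ∏ i, (X (g i) : MvPolynomial (Fin N) ℂ)

theorem FRP_stb (B : Finset ι) (w : Equiv.Perm ι) :
    B.map w.toEmbedding = B ↔ Stb B w := by
  constructor
  · intro h i
    have h1 : w i ∈ B.map w.toEmbedding ↔ i ∈ B := Finset.mem_map' w.toEmbedding
    rw [h] at h1
    exact h1
  · intro h
    ext j
    rw [Finset.mem_map_equiv, ← h (w.symm j), Equiv.apply_symm_apply]

theorem FRP_stb_congr (B : Finset ι) (w1 : Equiv.Perm (In B)) (w2 : Equiv.Perm (Out B)) :
    Stb B (Equiv.Perm.subtypeCongr w1 w2) := by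
  intro i
  by_cases hi : i ∈ B
  · rw [Equiv.Perm.subtypeCongr.left_apply _ _ hi]
    exact ⟨fun _ => hi, fun _ => (w1 ⟨i, hi⟩).2⟩
  · rw [Equiv.Perm.subtypeCongr.right_apply _ _ hi]
    exact ⟨fun h => absurd h (w2 ⟨i, hi⟩).2, fun h => absurd h hi⟩

theorem FRP_res (B : Finset ι) (w1 : Equiv.Perm (In B)) (w2 : Equiv.Perm (Out B)) :
    resP B (Equiv.Perm.subtypeCongr w1 w2) = w1 ∧
      resN B (Equiv.Perm.subtypeCongr w1 w2) = w2 := by
  have h := FRP_stb_congr B w1 w2
  constructor
  · rw [resP, dif_pos h]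
    ext ⟨i, hi⟩
    rw [Equiv.Perm.subtypePerm_apply]
    exact Equiv.Perm.subtypeCongr.left_apply _ _ hi
  · rw [resN, dif_pos h]
    ext ⟨i, hi⟩
    rw [Equiv.Perm.subtypePerm_apply]
    exact Equiv.Perm.subtypeCongr.right_apply _ _ hi

theorem FRP_congr (B : Finset ι) (w : Equiv.Perm ι) (h : Stb B w) :
    Equiv.Perm.subtypeCongr (resP B w) (resN B w) = w := by
  rw [resP, dif_pos h, resN, dif_pos h]
  ext i
  by_cases hi : i ∈ B
  · rw [Equiv.Perm.subtypeCongr.left_apply _ _ hi, Equiv.Perm.subtypePerm_apply]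
  · rw [Equiv.Perm.subtypeCongr.right_apply _ _ hi, Equiv.Perm.subtypePerm_apply]

theorem FRP_fix (B : Finset ι) (w1 : Equiv.Perm (In B)) (w2 : Equiv.Perm (Out B))
    (g : ι → Fin N) : g ∘ (Equiv.Perm.subtypeCongr w1 w2) = g ↔
      (fun i : In B => g i) ∘ w1 = (fun i : In B => g i) ∧
      (fun i : Out B => g i) ∘ w2 = (fun i : Out B => g i) := by
  constructor
  · intro h
    constructor
    · funext i
      have h1 := congrFun h i.1
      rw [Function.comp_apply, Equiv.Perm.subtypeCongr.left_apply _ _ i.2] at h1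
      exact h1
    · funext i
      have h1 := congrFun h i.1
      rw [Function.comp_apply, Equiv.Perm.subtypeCongr.right_apply _ _ i.2] at h1
      exact h1
  · rintro ⟨h1, h2⟩
    funext i
    by_cases hi : i ∈ B
    · rw [Function.comp_apply, Equiv.Perm.subtypeCongr.left_apply _ _ hi]
      exact congrFun h1 ⟨i, hi⟩
    · rw [Function.comp_apply, Equiv.Perm.subtypeCongr.right_apply _ _ hi]
      exact congrFun h2 ⟨i, hi⟩

theorem FRP_ite {R : Type} [MulZeroClass R] (p q r : Prop) [Decidable p] [Decidable q]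
    [Decidable r] (h : r ↔ p ∧ q) (a b c : R) (hc : a * b = c) :
    (if r then c else 0) = (if p then a else 0) * (if q then b else 0) := by
  by_cases hp : p
  · by_cases hq : q
    · rw [if_pos (h.2 ⟨hp, hq⟩), if_pos hp, if_pos hq, hc]
    · rw [if_neg (fun h1 => hq (h.1 h1).2), if_neg hq, mul_zero]
  · rw [if_neg (fun h1 => hp (h.1 h1).1), if_neg hp, zero_mul]

theorem FRP_mul (B : Finset ι) (w1 : Equiv.Perm (In B)) (w2 : Equiv.Perm (Out B)) :
    FRP_P ι N (Equiv.Perm.subtypeCongr w1 w2) = FRP_P (In B) N w1 * FRP_P (Out B) N w2 := by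
  rw [FRP_P, FRP_P, FRP_P, Finset.sum_filter, Finset.sum_filter, Finset.sum_filter,
    Finset.sum_mul_sum, ← Fintype.sum_prod_type',
    ← (Equiv.piEquivPiSubtypeProd (fun i : ι => i ∈ B) (fun _ => Fin N)).sum_comp]
  refine Finset.sum_congr rfl fun g _ => ?_
  have h2 : (∏ i : In B, (X (g i) : MvPolynomial (Fin N) ℂ)) *
      ∏ i : Out B, (X (g i) : MvPolynomial (Fin N) ℂ) = ∏ i, (X (g i)) := by
    rw [← Finset.prod_subtype B (fun x => Iff.rfl) (fun i => (X (g i) : MvPolynomial (Fin N) ℂ)),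
      ← Finset.prod_subtype Bᶜ (fun x => Finset.mem_compl)
        (fun i => (X (g i) : MvPolynomial (Fin N) ℂ)), Finset.prod_mul_prod_compl]
  exact FRP_ite _ _ _ (FRP_fix B w1 w2 g) _ _ _ h2

theorem FRP_block (B : Finset ι) (χ1 : Equiv.Perm (In B) → ℂ) (χ2 : Equiv.Perm (Out B) → ℂ) :
    ∑ w ∈ (Finset.univ : Finset (Equiv.Perm ι)).filter (fun w => B.map w.toEmbedding = B),
      (χ1 (resP B w) * χ2 (resN B w)) • FRP_P ι N w =
    ((B.card.factorial * (Fintype.card ι - B.card).factorial : ℕ) : ℂ) •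
      (frobI (In B) N χ1 * frobI (Out B) N χ2) := by
  have h1 : ∑ w ∈ (Finset.univ : Finset (Equiv.Perm ι)).filter
      (fun w => B.map w.toEmbedding = B), (χ1 (resP B w) * χ2 (resN B w)) • FRP_P ι N w =
      ∑ q : Equiv.Perm (In B) × Equiv.Perm (Out B), (χ1 q.1 * χ2 q.2) •
        (FRP_P (In B) N q.1 * FRP_P (Out B) N q.2) := by
    refine Finset.sum_nbij' (fun w => (resP B w, resN B w))
      (fun q => Equiv.Perm.subtypeCongr q.1 q.2) (fun w _ => Finset.mem_univ _) ?_ ?_ ?_ ?_
    · intro q _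
      rw [Finset.mem_filter]
      exact ⟨Finset.mem_univ _, (FRP_stb B _).2 (FRP_stb_congr B q.1 q.2)⟩
    · intro w hw
      rw [Finset.mem_filter] at hw
      exact FRP_congr B w ((FRP_stb B w).1 hw.2)
    · intro q _
      exact Prod.ext (FRP_res B q.1 q.2).1 (FRP_res B q.1 q.2).2
    · intro w hw
      rw [Finset.mem_filter] at hw
      have h2 := FRP_congr B w ((FRP_stb B w).1 hw.2)
      have h3 := FRP_mul (N := N) B (resP B w) (resN B w)
      rw [h2] at h3
      rw [h3]
  have hc1 : Fintype.card (In B) = B.card := Fintype.card_coe B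
  have hc2 : Fintype.card (Out B) = Fintype.card ι - B.card := by
    have h2 := Fintype.card_subtype_compl (fun i : ι => i ∈ B)
    rw [h2, hc1]
  rw [h1, frobI, frobI, hc1, hc2, smul_mul_smul_comm, smul_smul]
  have h4 : ((B.card.factorial * (Fintype.card ι - B.card).factorial : ℕ) : ℂ) *
      (((B.card.factorial : ℂ))⁻¹ * (((Fintype.card ι - B.card).factorial : ℂ))⁻¹) = 1 := by
    have e1 : (B.card.factorial : ℂ) ≠ 0 := by exact_mod_cast Nat.factorial_ne_zero _
    have e2 : ((Fintype.card ι - B.card).factorial : ℂ) ≠ 0 := by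
      exact_mod_cast Nat.factorial_ne_zero _
    push_cast
    field_simp
  rw [h4, one_smul, Fintype.sum_prod_type, Finset.sum_mul_sum]
  refine Finset.sum_congr rfl fun w1 _ => Finset.sum_congr rfl fun w2 _ => ?_
  rw [smul_mul_smul_comm]
  rfl

end FRP

theorem thm_FRP : St_FRP := by
  intro ι _ _ N χ1 χ2
  have h1 : ∀ w : Equiv.Perm ι, (∑ B ∈ (Finset.univ : Finset (Finset ι)).filter
        (fun B => B.map w.toEmbedding = B), χ1 B (resP B w) * χ2 B (resN B w)) •
      ∑ g ∈ (Finset.univ : Finset (ι → Fin N)).filter (fun g => g ∘ w = g),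
        ∏ i, (X (g i) : MvPolynomial (Fin N) ℂ) =
      ∑ B : Finset ι, if B.map w.toEmbedding = B then
        (χ1 B (resP B w) * χ2 B (resN B w)) • FRP_P ι N w else 0 := by
    intro w
    rw [Finset.sum_smul, Finset.sum_filter]
    rfl
  rw [Finset.sum_congr rfl fun w _ => h1 w, Finset.sum_comm]
  refine Finset.sum_congr rfl fun B _ => ?_
  rw [← Finset.sum_filter, FRP_block]

end MDC
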