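import Pool.Agent.MDC.StD

/-!
# MDC, module GGB: the specialisation `u = -1` of the generating function
-/

set_option autoImplicit false

open MvPolynomial

namespace MDC

namespace GGB

/-- `E(-t)` over the ring of coefficients -/
noncomputable def Em (N : ℕ) : PowerSeries (MvPolynomial (Fin N) ℂ) :=
  PowerSeries.mk fun k => (-1) ^ k * esymm (Fin N) ℂ k

/-- `H(t)` -/
noncomputable def Ht (N : ℕ) : PowerSeries (MvPolynomial (Fin N) ℂ) :=
  PowerSeries.mk fun k => hsymm (Fin N) ℂ k

theorem Em_eq (N : ℕ) : Em N = ∏ i : Fin N, (1 - PowerSeries.C (X i : MvPolynomial (Fin N) ℂ) *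
    PowerSeries.X) := by
  ext1 n
  have h1 : ∏ i : Fin N, (1 - PowerSeries.C (X i : MvPolynomial (Fin N) ℂ) * PowerSeries.X) =
      ∑ t ∈ (Finset.univ : Finset (Fin N)).powerset, ∏ i ∈ t,
        (-(PowerSeries.C (X i : MvPolynomial (Fin N) ℂ) * PowerSeries.X)) := by
    rw [← Finset.prod_one_add]
    exact Finset.prod_congr rfl fun i _ => sub_eq_add_neg _ _
  have h2 : ∀ t : Finset (Fin N), PowerSeries.coeff n (∏ i ∈ t,
      (-(PowerSeries.C (X i : MvPolynomial (Fin N) ℂ) * PowerSeries.X))) =
      if t.card = n then (-1) ^ n * ∏ i ∈ t, (X i : MvPolynomial (Fin N) ℂ) else 0 := by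
    intro t
    have e : (∏ i ∈ t, (-(PowerSeries.C (X i : MvPolynomial (Fin N) ℂ) * PowerSeries.X))) =
        PowerSeries.C ((-1) ^ t.card * ∏ i ∈ t, (X i : MvPolynomial (Fin N) ℂ)) *
          PowerSeries.X ^ t.card := by
      rw [Finset.prod_neg, Finset.prod_mul_distrib, Finset.prod_const, map_mul, map_pow, map_neg,
        map_one, map_prod, mul_assoc]
    rw [e, PowerSeries.coeff_C_mul, PowerSeries.coeff_X_pow]
    by_cases h : t.card = n
    · subst h
      simp
    · rw [if_neg h, if_neg (Ne.symm h), mul_zero]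
  rw [h1, map_sum, Finset.sum_congr rfl fun t _ => h2 t, Em, PowerSeries.coeff_mk, esymm,
    ← Finset.sum_filter, Finset.mul_sum]
  refine Finset.sum_congr ?_ fun t _ => rfl
  ext t
  simp

theorem Ht_eq (N : ℕ) : Ht N = ∏ i : Fin N, PowerSeries.mk fun q =>
    (X i : MvPolynomial (Fin N) ℂ) ^ q := by
  classical
  ext1 n
  rw [PowerSeries.coeff_prod, Ht, PowerSeries.coeff_mk, hsymm]
  refine Finset.sum_bij (fun s _ => Multiset.toFinsupp s.1) ?_ ?_ ?_ ?_
  · intro s _
    rw [Finset.mem_finsuppAntidiag]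
    refine ⟨?_, Finset.subset_univ _⟩
    show ∑ i, Multiset.count i s.1 = n
    rw [Multiset.sum_count_eq_card (fun a _ => Finset.mem_univ a)]
    exact s.2
  · intro s _ s' _ h
    exact Subtype.ext (Multiset.toFinsupp.injective h)
  · intro l hl
    rw [Finset.mem_finsuppAntidiag] at hl
    refine ⟨⟨Finsupp.toMultiset l, ?_⟩, Finset.mem_univ _, ?_⟩
    · rw [Finsupp.card_toMultiset, Finsupp.sum_fintype _ _ (fun _ => rfl)]
      exact hl.1
    · simp
  · intro s _
    rw [Finset.prod_multiset_map_count]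
    simp only [PowerSeries.coeff_mk, Multiset.toFinsupp_apply]
    refine Finset.prod_subset (Finset.subset_univ _) ?_
    intro i _ hi
    rw [Multiset.mem_toFinset] at hi
    rw [Multiset.count_eq_zero_of_notMem hi, pow_zero]

theorem HE (N : ℕ) : Ht N * Em N = 1 := by
  rw [Ht_eq, Em_eq, ← Finset.prod_mul_distrib]
  refine Finset.prod_eq_one fun i _ => ?_
  ext1 n
  rw [mul_sub, mul_one, ← mul_assoc, mul_comm _ (PowerSeries.C _), mul_assoc, map_sub,
    PowerSeries.coeff_C_mul, PowerSeries.coeff_mk]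
  cases n with
  | zero => simp
  | succ n =>
    rw [PowerSeries.coeff_succ_mul_X, PowerSeries.coeff_mk, PowerSeries.coeff_one,
      if_neg (Nat.succ_ne_zero n), pow_succ']
    ring

/-- `u ↦ -1`, `v ↦ v` -/
noncomputable def ph (N : ℕ) : UV N →+* Polynomial (MvPolynomial (Fin N) ℂ) :=
  MvPolynomial.eval₂Hom Polynomial.C ![-1, Polynomial.X]

theorem ph_X0 (N : ℕ) : ph N (X 0) = -1 := by simp [ph]

theorem ph_X1 (N : ℕ) : ph N (X 1) = Polynomial.X := by simp [ph]

theorem ph_C (N : ℕ) (r : MvPolynomial (Fin N) ℂ) : ph N (C r) = Polynomial.C r := by simp [ph]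

theorem ph_hh (N k : ℕ) : (1 + Polynomial.X) * ph N (hh N k) =
    Polynomial.X ^ (k + 1) - (-1) ^ (k + 1) := by
  have h := (Commute.all (-1 : Polynomial (MvPolynomial (Fin N) ℂ)) Polynomial.X).geom_sum₂_mul
    (k + 1)
  have e : ph N (hh N k) = ∑ i ∈ Finset.range (k + 1),
      (-1 : Polynomial (MvPolynomial (Fin N) ℂ)) ^ i * Polynomial.X ^ (k + 1 - 1 - i) := by
    rw [hh, map_sum]
    refine Finset.sum_congr rfl fun i _ => ?_
    rw [map_mul, map_pow, map_pow, ph_X0, ph_X1, Nat.add_sub_cancel]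
  rw [← e] at h
  linear_combination -h

theorem coeff_ph (N : ℕ) (p : UV N) (b : ℕ) (n : ℕ)
    (hp : ∀ m ∈ p.support, m 0 < n) : (ph N p).coeff b =
    ∑ a ∈ Finset.range n, (-1 : MvPolynomial (Fin N) ℂ) ^ a *
      coeff (Finsupp.single (0 : Fin 2) a + Finsupp.single (1 : Fin 2) b) p := by
  classical
  have h1 : ph N p = ∑ m ∈ p.support, Polynomial.C (coeff m p) *
      ((-1) ^ m 0 * Polynomial.X ^ m 1) := by
    rw [ph, MvPolynomial.coe_eval₂Hom, MvPolynomial.eval₂_eq']
    refine Finset.sum_congr rfl fun m _ => ?_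
    rw [Fin.prod_univ_two]
    rfl
  have h2 : ∀ m : Fin 2 →₀ ℕ, (Polynomial.C (coeff m p) *
      ((-1) ^ m 0 * Polynomial.X ^ m 1)).coeff b =
      if m 1 = b then (-1) ^ m 0 * coeff m p else 0 := by
    intro m
    have e : Polynomial.C (coeff m p) * ((-1) ^ m 0 * Polynomial.X ^ m 1) =
        Polynomial.C ((-1) ^ m 0 * coeff m p) * Polynomial.X ^ m 1 := by
      rw [map_mul, map_pow, map_neg, Polynomial.C_1]
      ring
    rw [e, Polynomial.coeff_C_mul_X_pow]
    by_cases h : m 1 = b
    · rw [if_pos h, if_pos h.symm]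
    · rw [if_neg h, if_neg (Ne.symm h)]
  rw [h1, Polynomial.finsetSum_coeff, Finset.sum_congr rfl fun m _ => h2 m, ← Finset.sum_filter]
  have h3 : ∀ a, (-1 : MvPolynomial (Fin N) ℂ) ^ a *
      coeff (Finsupp.single (0 : Fin 2) a + Finsupp.single (1 : Fin 2) b) p =
      if (Finsupp.single (0 : Fin 2) a + Finsupp.single (1 : Fin 2) b) ∈ p.support then
        (-1 : MvPolynomial (Fin N) ℂ) ^ a *
      coeff (Finsupp.single (0 : Fin 2) a + Finsupp.single (1 : Fin 2) b) p else 0 := by
    intro a
    split_ifs with h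
    · rfl
    · rw [MvPolynomial.notMem_support_iff.mp h, mul_zero]
  rw [Finset.sum_congr rfl fun a _ => h3 a, ← Finset.sum_filter]
  refine Finset.sum_bij' (fun m _ => m 0)
    (fun a _ => Finsupp.single (0 : Fin 2) a + Finsupp.single (1 : Fin 2) b) ?_ ?_ ?_ ?_ ?_
  · intro m hm
    rw [Finset.mem_filter] at hm
    rw [Finset.mem_filter, Finset.mem_range]
    refine ⟨hp m hm.1, ?_⟩
    have e : Finsupp.single (0 : Fin 2) (m 0) + Finsupp.single (1 : Fin 2) b = m := by
      ext i
      fin_cases i <;> simp [hm.2]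
    rw [e]
    exact hm.1
  · intro a ha
    rw [Finset.mem_filter] at ha
    rw [Finset.mem_filter]
    exact ⟨ha.2, by simp⟩
  · intro m hm
    rw [Finset.mem_filter] at hm
    ext i
    fin_cases i <;> simp [hm.2]
  · intro a _
    simp
  · intro m hm
    rw [Finset.mem_filter] at hm
    have e : Finsupp.single (0 : Fin 2) (m 0) + Finsupp.single (1 : Fin 2) b = m := by
      ext i
      fin_cases i <;> simp [hm.2]
    rw [e]

/-- `E(v t)` -/
noncomputable def Ev (N : ℕ) : PowerSeries (Polynomial (MvPolynomial (Fin N) ℂ)) :=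
  PowerSeries.mk fun k => Polynomial.C (esymm (Fin N) ℂ k) * Polynomial.X ^ k

theorem map_NA (N : ℕ) : PowerSeries.map (ph N) (NN N - AA N) =
    PowerSeries.map (Polynomial.C : MvPolynomial (Fin N) ℂ →+* _) (Em N) := by
  have key : ∀ a b : Polynomial (MvPolynomial (Fin N) ℂ),
      (1 + Polynomial.X) * a = (1 + Polynomial.X) * b → a = b := by
    intro a b h
    refine mul_left_cancel₀ ?_ h
    intro h0
    have := congrArg (fun q => Polynomial.coeff q 1) h0
    simp [Polynomial.coeff_one] at this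
  ext1 k
  rw [PowerSeries.coeff_map, PowerSeries.coeff_map, Em, PowerSeries.coeff_mk, map_sub, NN, AA,
    PowerSeries.coeff_mk, PowerSeries.coeff_mk]
  rcases k with _ | _ | k
  · simp
  · rw [if_neg (by omega), if_pos (by omega), if_neg (by omega)]
    simp [hh, ph_C]
  · rw [if_neg (by omega), if_neg (by omega), if_neg (by omega)]
    apply key
    have h1 := ph_hh N k
    have h2 := ph_hh N (k + 1)
    have e1 : k + 1 + 1 - 2 = k := by omega
    have e2 : k + 1 + 1 - 1 = k + 1 := by omega
    rw [e1, e2, map_sub, map_neg, map_mul, map_mul, map_mul, map_mul, ph_X0, ph_X1, ph_C, map_mul,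
      map_pow, map_neg, map_one]
    linear_combination (Polynomial.X * Polynomial.C (esymm (Fin N) ℂ (k + 1 + 1))) * h1 -
      Polynomial.C (esymm (Fin N) ℂ (k + 1 + 1)) * h2

theorem map_NN (N : ℕ) : PowerSeries.C (1 + Polynomial.X) * PowerSeries.map (ph N) (NN N) =
    Ev N + PowerSeries.C Polynomial.X *
      PowerSeries.map (Polynomial.C : MvPolynomial (Fin N) ℂ →+* _) (Em N) := by
  ext1 k
  rw [map_add (PowerSeries.coeff k), PowerSeries.coeff_C_mul, PowerSeries.coeff_C_mul, PowerSeries.coeff_map,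
    PowerSeries.coeff_map, Em, PowerSeries.coeff_mk, NN, PowerSeries.coeff_mk, Ev,
    PowerSeries.coeff_mk]
  rcases k with _ | _ | k
  · simp
  · rw [if_neg (by omega), if_pos (by omega)]
    simp only [map_zero, mul_zero, zero_add, pow_one, map_mul, map_neg, map_one]
    ring
  · rw [if_neg (by omega), if_neg (by omega)]
    have h1 := ph_hh N k
    have e1 : k + 1 + 1 - 2 = k := by omega
    rw [e1, map_neg, map_mul, map_mul, map_mul, ph_X0, ph_X1, ph_C, map_mul, map_pow, map_neg,
      map_one]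
    linear_combination (Polynomial.X * Polynomial.C (esymm (Fin N) ℂ (k + 1 + 1))) * h1

theorem FS_mul (N : ℕ) : FS N * (NN N - AA N) = NN N := by
  rw [FS, mul_assoc, PowerSeries.invOfUnit_mul, mul_one]
  rw [map_sub, ← PowerSeries.coeff_zero_eq_constantCoeff_apply,
    ← PowerSeries.coeff_zero_eq_constantCoeff_apply, NN, AA, PowerSeries.coeff_mk,
    PowerSeries.coeff_mk]
  simp

theorem main (N : ℕ) : PowerSeries.C (1 + Polynomial.X) * PowerSeries.map (ph N) (FS N) =
    Ev N * PowerSeries.map (Polynomial.C : MvPolynomial (Fin N) ℂ →+* _) (Ht N) +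
      PowerSeries.C Polynomial.X := by
  have h1 : PowerSeries.map (ph N) (FS N) *
      PowerSeries.map (Polynomial.C : MvPolynomial (Fin N) ℂ →+* _) (Em N) =
      PowerSeries.map (ph N) (NN N) := by
    rw [← map_NA, ← map_mul, FS_mul]
  have h2 := map_NN N
  have h3 : PowerSeries.map (Polynomial.C : MvPolynomial (Fin N) ℂ →+* _) (Ht N) *
      PowerSeries.map (Polynomial.C : MvPolynomial (Fin N) ℂ →+* _) (Em N) = 1 := by
    rw [← map_mul, HE, map_one]
  rw [← h1] at h2
  linear_combination (PowerSeries.map (Polynomial.C : MvPolynomial (Fin N) ℂ →+* _) (Ht N)) * h2 -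
    (PowerSeries.C (1 + Polynomial.X) * PowerSeries.map (ph N) (FS N) -
      PowerSeries.C Polynomial.X) * h3

end GGB

open GGB in
theorem thm_GGB (hA : St_GGA) : St_GGB := by
  classical
  intro N n b hn
  obtain ⟨-, hA2, -⟩ := hA N
  obtain ⟨g, hg⟩ : ∃ g : ℕ → MvPolynomial (Fin N) ℂ, g = fun b =>
      ∑ a ∈ Finset.range (n + 1), (-1 : MvPolynomial (Fin N) ℂ) ^ a * GG N n a b := ⟨_, rfl⟩
  obtain ⟨T, hT⟩ : ∃ T : ℕ → MvPolynomial (Fin N) ℂ, T = fun c =>
      if c ≤ n then esymm (Fin N) ℂ c * hsymm (Fin N) ℂ (n - c) else 0 := ⟨_, rfl⟩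
  have hsup : ∀ m ∈ (PowerSeries.coeff n (FS N)).support, m 0 < n + 1 := by
    intro m hm
    by_contra hlt
    rw [MvPolynomial.mem_support_iff] at hm
    apply hm
    have h := hA2 n (m 0) (m 1) hn (by omega)
    rw [GG] at h
    have e : Finsupp.single (0 : Fin 2) (m 0) + Finsupp.single (1 : Fin 2) (m 1) = m := by
      ext i
      fin_cases i <;> simp
    rw [e] at h
    exact h
  have hcoeff : ∀ b, (ph N (PowerSeries.coeff n (FS N))).coeff b = g b := by
    intro b
    rw [coeff_ph N _ b (n + 1) hsup, hg]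
    rfl
  have hrhs : ∀ b, (PowerSeries.coeff n (Ev N *
      PowerSeries.map (Polynomial.C : MvPolynomial (Fin N) ℂ →+* _) (Ht N))).coeff b = T b := by
    intro b
    rw [PowerSeries.coeff_mul, Polynomial.finsetSum_coeff, hT]
    have e : ∀ p ∈ Finset.HasAntidiagonal.antidiagonal n, (PowerSeries.coeff p.1 (Ev N) *
        PowerSeries.coeff p.2 (PowerSeries.map (Polynomial.C : MvPolynomial (Fin N) ℂ →+* _)
          (Ht N))).coeff b =
        if p.1 = b then esymm (Fin N) ℂ p.1 * hsymm (Fin N) ℂ p.2 else 0 := by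
      intro p _
      rw [PowerSeries.coeff_map, Ev, Ht, PowerSeries.coeff_mk, PowerSeries.coeff_mk]
      have e' : Polynomial.C (esymm (Fin N) ℂ p.1) * Polynomial.X ^ p.1 *
          Polynomial.C (hsymm (Fin N) ℂ p.2) =
          Polynomial.C (esymm (Fin N) ℂ p.1 * hsymm (Fin N) ℂ p.2) * Polynomial.X ^ p.1 := by
        rw [map_mul]
        ring
      rw [e', Polynomial.coeff_C_mul_X_pow]
      by_cases h : p.1 = b
      · rw [if_pos h, if_pos h.symm]
      · rw [if_neg h, if_neg (Ne.symm h)]
    rw [Finset.sum_congr rfl e]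
    simp only
    by_cases hb : b ≤ n
    · rw [if_pos hb, Finset.sum_eq_single (b, n - b)]
      · rw [if_pos rfl]
      · intro p hp hne
        rw [if_neg]
        intro h
        apply hne
        rw [Finset.HasAntidiagonal.mem_antidiagonal] at hp
        ext
        · exact h
        · show p.2 = n - b
          omega
      · intro h
        exfalso
        apply h
        rw [Finset.HasAntidiagonal.mem_antidiagonal]
        show b + (n - b) = n
        omega
    · rw [if_neg hb]
      refine Finset.sum_eq_zero fun p hp => ?_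
      rw [Finset.HasAntidiagonal.mem_antidiagonal] at hp
      rw [if_neg]
      omega
  have hm := congrArg (PowerSeries.coeff n) (main N)
  rw [PowerSeries.coeff_C_mul, PowerSeries.coeff_map, map_add, PowerSeries.coeff_C,
    if_neg (by omega), add_zero] at hm
  have hrec : ∀ b, g (b + 1) + g b = T (b + 1) := by
    intro b
    have := congrArg (fun q => Polynomial.coeff q (b + 1)) hm
    beta_reduce at this
    rw [hrhs, add_mul, one_mul, Polynomial.coeff_add, Polynomial.coeff_X_mul, hcoeff, hcoeff]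
      at this
    exact this
  have h0 : g 0 = T 0 := by
    have := congrArg (fun q => Polynomial.coeff q 0) hm
    beta_reduce at this
    rw [hrhs, add_mul, one_mul, Polynomial.coeff_add, Polynomial.coeff_X_mul_zero, hcoeff,
      add_zero] at this
    exact this
  have hfin : ∀ b, g b = ∑ j ∈ Finset.range (b + 1), (-1 : MvPolynomial (Fin N) ℂ) ^ j *
      T (b - j) := by
    intro b
    induction b with
    | zero => simp [h0]
    | succ b ih =>
      rw [Finset.sum_range_succ']
      have e : ∑ k ∈ Finset.range (b + 1), (-1 : MvPolynomial (Fin N) ℂ) ^ (k + 1) *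
          T (b + 1 - (k + 1)) = - g b := by
        rw [ih, ← Finset.sum_neg_distrib]
        refine Finset.sum_congr rfl fun k _ => ?_
        rw [Nat.add_sub_add_right, pow_succ]
        ring
      rw [e, pow_zero, one_mul, Nat.sub_zero, ← hrec b]
      ring
  have := hfin b
  rw [hg, hT] at this
  exact this

end MDC
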