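import Pool.Agent.MDC.GGA

/-!
# MDC, module GGC: expansion of the generating function over compositions (helper92)
-/

set_option autoImplicit false

open MvPolynomial

namespace MDC

/-- sums over compositions, by the first block -/
theorem GGC_comp {M : Type} [AddCommMonoid M] (F : List ℕ → M) (n : ℕ) (hn : 1 ≤ n) :
    ∑ c : Composition n, F c.blocks =
      ∑ k ∈ Finset.range n, ∑ c : Composition (n - (k + 1)), F ((k + 1) :: c.blocks) := by
  rw [Finset.sum_sigma']
  symm
  refine Finset.sum_bij (fun x hx => ⟨(x.1 + 1) :: x.2.blocks, ?_, ?_⟩) ?_ ?_ ?_ ?_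
  · intro i hi
    rcases List.mem_cons.1 hi with h | h
    · omega
    · exact x.2.blocks_pos h
  · have h1 := Finset.mem_range.1 (Finset.mem_sigma.1 hx).1
    rw [List.sum_cons, x.2.blocks_sum]
    omega
  · intro x hx
    exact Finset.mem_univ _
  · rintro ⟨k, c⟩ hx ⟨k', c'⟩ hx' h
    have h1 := congrArg Composition.blocks h
    change (k + 1) :: c.blocks = (k' + 1) :: c'.blocks at h1
    rw [List.cons.injEq] at h1
    obtain ⟨h2, h3⟩ := h1
    have h4 : k = k' := by omega
    subst h4
    have h5 : c = c' := Composition.ext h3
    rw [h5]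
  · intro c _
    obtain ⟨h, t, ht⟩ : ∃ h t, c.blocks = h :: t := by
      cases hb : c.blocks with
      | nil =>
        have := c.blocks_sum
        rw [hb] at this
        simp at this
        omega
      | cons h t => exact ⟨h, t, rfl⟩
    have hpos : 0 < h := c.blocks_pos (by rw [ht]; exact List.mem_cons_self)
    have hsum : h + t.sum = n := by
      have := c.blocks_sum
      rw [ht, List.sum_cons] at this
      exact this
    refine ⟨⟨h - 1, ⟨t, fun {i} hi => c.blocks_pos (by rw [ht]; exact List.mem_cons_of_mem _ hi),
      by omega⟩⟩, ?_, ?_⟩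
    · rw [Finset.mem_sigma, Finset.mem_range]
      exact ⟨by change h - 1 < n; omega, Finset.mem_univ _⟩
    · apply Composition.ext
      change (h - 1 + 1) :: t = c.blocks
      rw [ht]
      congr 1
      omega
  · intro x hx
    rfl

theorem GGC_step {N : ℕ} (m a b : ℕ) : GGA_cf (PowerSeries.coeff (m + 1) (FS N)) a b =
    (∑ k ∈ Finset.range m, ∑ a' ∈ Finset.range (a + 1), ∑ b' ∈ Finset.range (b + 1),
      if a' + b' + 1 = k + 1 ∨ (a' + b' = k + 1 ∧ 1 ≤ a' ∧ 1 ≤ b') then
        esymm (Fin N) ℂ (k + 1) *
          GGA_cf (PowerSeries.coeff (m - k) (FS N)) (a - a') (b - b') else 0) +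
    if a + b + 1 = m + 1 then esymm (Fin N) ℂ (m + 1) else 0 := by
  have h0 : (NN N - AA N) * FS N = NN N := by rw [mul_comm, GGA_FS]
  have hFS0 : PowerSeries.coeff 0 (FS N) = 1 := by
    have h1 := congrArg (PowerSeries.coeff 0) h0
    rw [PowerSeries.coeff_mul, Finset.Nat.antidiagonal_zero, Finset.sum_singleton, map_sub,
      GGA_NN0, GGA_AA0, sub_zero, one_mul] at h1
    exact h1
  have h1 := congrArg (PowerSeries.coeff (m + 1)) h0
  rw [PowerSeries.coeff_mul, Finset.Nat.sum_antidiagonal_eq_sum_range_succ
      (fun i j => PowerSeries.coeff i (NN N - AA N) * PowerSeries.coeff j (FS N)),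
      Finset.sum_range_succ', Nat.sub_zero, map_sub, GGA_NN0, GGA_AA0, sub_zero, one_mul,
      Finset.sum_range_succ, Nat.sub_self, hFS0, mul_one, map_sub] at h1
  have h2 : PowerSeries.coeff (m + 1) (FS N) =
      ∑ k ∈ Finset.range m, PowerSeries.coeff (k + 1) (AA N - NN N) *
        PowerSeries.coeff (m - k) (FS N) + PowerSeries.coeff (m + 1) (AA N) := by
    have h3 : ∑ k ∈ Finset.range m, PowerSeries.coeff (k + 1) (AA N - NN N) *
        PowerSeries.coeff (m - k) (FS N) =
        -∑ k ∈ Finset.range m, PowerSeries.coeff (k + 1) (NN N - AA N) *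
        PowerSeries.coeff (m + 1 - (k + 1)) (FS N) := by
      rw [← Finset.sum_neg_distrib]
      refine Finset.sum_congr rfl fun k _ => ?_
      rw [map_sub, map_sub, Nat.add_sub_add_right]
      ring
    rw [h3]
    linear_combination h1
  rw [h2, GGA_add, GGA_sum, GGA_AA]
  congr 1
  refine Finset.sum_congr rfl fun k _ => ?_
  rw [GGA_mul]
  refine Finset.sum_congr rfl fun a' _ => Finset.sum_congr rfl fun b' _ => ?_
  rw [map_sub, GGA_sub, GGA_AA, GGA_NN _ _ _ (by omega)]
  by_cases hc1 : a' + b' + 1 = k + 1
  · rw [if_pos hc1, if_neg (by omega), if_pos (Or.inl hc1)]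
    ring
  · by_cases hc2 : a' + b' = k + 1 ∧ 1 ≤ a' ∧ 1 ≤ b'
    · rw [if_neg hc1, if_pos hc2, if_pos (Or.inr hc2)]
      ring
    · have hc3 : ¬ (a' + b' + 1 = k + 1 ∨ (a' + b' = k + 1 ∧ 1 ≤ a' ∧ 1 ≤ b')) := by
        rintro (h | h)
        · exact hc1 h
        · exact hc2 h
      rw [if_neg hc1, if_neg hc2, if_neg hc3]
      ring

theorem GGC_main (N n : ℕ) : ∀ a b : ℕ, GGA_cf (PowerSeries.coeff n (FS N)) a b =
    ∑ c : Composition n, (kapl c.blocks a b) •
      (c.blocks.map (fun k => esymm (Fin N) ℂ k)).prod := by
  induction n using Nat.strong_induction_on with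
  | _ n ih =>
    intro a b
    rcases Nat.eq_zero_or_pos n with hn | hn
    · subst hn
      have hu : (Finset.univ : Finset (Composition 0)) = {⟨[], by simp, by simp⟩} := by
        ext c
        simp only [Finset.mem_univ, Finset.mem_singleton, true_iff]
        apply Composition.ext
        cases hb : c.blocks with
        | nil => rfl
        | cons h t =>
          have h1 := c.blocks_sum
          have h2 : 0 < h := c.blocks_pos (by rw [hb]; exact List.mem_cons_self)
          rw [hb, List.sum_cons] at h1
          omega
      rw [hu, Finset.sum_singleton, GGA_one0]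
      simp only [List.map_nil, List.prod_nil, kapl]
      split_ifs <;> simp
    · obtain ⟨m, rfl⟩ : ∃ m, n = m + 1 := ⟨n - 1, by omega⟩
      rw [GGC_step, GGC_comp (fun l => (kapl l a b) • (l.map (fun k => esymm (Fin N) ℂ k)).prod)
        (m + 1) (by omega), Finset.sum_range_succ]
      congr 1
      · refine Finset.sum_congr rfl fun k hk => ?_
        have hk' := Finset.mem_range.1 hk
        have hkm : m + 1 - (k + 1) = m - k := by omega
        rw [hkm]
        have hkap : ∀ c : Composition (m - k), kapl ((k + 1) :: c.blocks) a b =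
            ∑ a' ∈ Finset.range (a + 1), ∑ b' ∈ Finset.range (b + 1),
              (if a' + b' + 1 = k + 1 ∨ (a' + b' = k + 1 ∧ 1 ≤ a' ∧ 1 ≤ b') then
                kapl c.blocks (a - a') (b - b') else 0) := by
          intro c
          cases hb : c.blocks with
          | nil =>
            have h1 := c.blocks_sum
            rw [hb, List.sum_nil] at h1
            omega
          | cons h t => rw [kapl]; simp
        have h2 : ∀ c : Composition (m - k), (kapl ((k + 1) :: c.blocks) a b) •
            (((k + 1) :: c.blocks).map (fun k => esymm (Fin N) ℂ k)).prod =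
            ∑ a' ∈ Finset.range (a + 1), ∑ b' ∈ Finset.range (b + 1),
              (if a' + b' + 1 = k + 1 ∨ (a' + b' = k + 1 ∧ 1 ≤ a' ∧ 1 ≤ b') then
                esymm (Fin N) ℂ (k + 1) * ((kapl c.blocks (a - a') (b - b')) •
                  (c.blocks.map (fun k => esymm (Fin N) ℂ k)).prod) else 0) := by
          intro c
          rw [hkap, List.map_cons, List.prod_cons, Finset.sum_smul]
          refine Finset.sum_congr rfl fun a' _ => ?_
          rw [Finset.sum_smul]
          refine Finset.sum_congr rfl fun b' _ => ?_
          split_ifs with h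
          · rw [mul_smul_comm]
          · rw [zero_smul]
        have h2s := Finset.sum_congr (rfl : (Finset.univ : Finset (Composition (m - k))) =
          Finset.univ) fun c _ => h2 c
        refine Eq.trans ?_ h2s.symm
        conv_rhs => rw [Finset.sum_comm]
        refine Finset.sum_congr rfl fun a' _ => ?_
        conv_rhs => rw [Finset.sum_comm]
        refine Finset.sum_congr rfl fun b' _ => ?_
        split_ifs with h
        · rw [← Finset.mul_sum, ih (m - k) (by omega)]
        · rw [Finset.sum_const_zero]
      · have h3 : ∀ c : Composition (m + 1 - (m + 1)), c.blocks = [] := by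
          intro c
          cases hb : c.blocks with
          | nil => rfl
          | cons h t =>
            have h1 := c.blocks_sum
            have h2 : 0 < h := c.blocks_pos (by rw [hb]; exact List.mem_cons_self)
            rw [hb, List.sum_cons] at h1
            omega
        have h4 : ∀ c : Composition (m + 1 - (m + 1)), (kapl ((m + 1) :: c.blocks) a b) •
            (((m + 1) :: c.blocks).map (fun k => esymm (Fin N) ℂ k)).prod =
            if a + b + 1 = m + 1 then esymm (Fin N) ℂ (m + 1) else 0 := by
          intro c
          rw [h3 c]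
          simp only [kapl, List.map_cons, List.map_nil, List.prod_cons, List.prod_nil, mul_one]
          split_ifs <;> simp
        refine Eq.trans ?_ (Finset.sum_congr rfl fun c _ => (h4 c).symm)
        rw [Finset.sum_const, Finset.card_univ, composition_card]
        simp

theorem thm_GGC : St_GGC := by
  intro N n a b
  exact GGC_main N n a b

end MDC
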