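import Pool.Agent.MDC.StE

/-!
# MDC, module HWA: `psi` maps `hwPart` to `HK` (helper77)

All operators are written as `f(∂)` for polynomials `f`, so that the conditions become identities of
polynomials (Cramer's rule for the Garnir relation) and memberships in the annihilator of `p`.
-/

set_option autoImplicit false

open MvPolynomial

namespace MDC

/-! ### The action of polynomials by differential operators -/

section act

variable {σ : Type}

theorem HWA_dmon (A B : σ →₀ ℕ) (c : ℂ) :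
    MDH.dmon A (monomial B c) =
      monomial (B - A) (c * ∏ i ∈ A.support, ((B i).descFactorial (A i) : ℂ)) := by
  have h1 : monomial B c = c • (basisMonomials σ ℂ) B := by
    rw [coe_basisMonomials, smul_monomial, smul_eq_mul, mul_one]
  rw [h1, map_smul]
  unfold MDH.dmon
  rw [Module.Basis.constr_basis, smul_monomial, smul_eq_mul]

/-- `f(∂)` -/
noncomputable def HWA_D : MvPolynomial σ ℂ →ₗ[ℂ] (MvPolynomial σ ℂ →ₗ[ℂ] MvPolynomial σ ℂ) :=
  (basisMonomials σ ℂ).constr ℂ MDH.dmon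

theorem HWA_D_monomial (A : σ →₀ ℕ) (c : ℂ) :
    HWA_D (monomial A c) = c • MDH.dmon A := by
  have h1 : monomial A c = c • (basisMonomials σ ℂ) A := by
    rw [coe_basisMonomials, smul_monomial, smul_eq_mul, mul_one]
  rw [h1, map_smul]
  unfold HWA_D
  rw [Module.Basis.constr_basis]

theorem HWA_D_apply (f p : MvPolynomial σ ℂ) : HWA_D f p = MDH.diffOp f p := by
  have h1 : HWA_D f = ∑ A ∈ f.support, coeff A f • MDH.dmon A := by
    have h2 := f.support_sum_monomial_coeff
    have h3 : HWA_D f = HWA_D (∑ A ∈ f.support, monomial A (coeff A f)) := by rw [h2]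
    rw [h3, map_sum]
    exact Finset.sum_congr rfl fun A _ => HWA_D_monomial _ _
  rw [h1, LinearMap.sum_apply]
  rfl

theorem HWA_D_mul (hD : MDH.St_DHC) (f g p : MvPolynomial σ ℂ) :
    HWA_D (f * g) p = HWA_D f (HWA_D g p) := by
  induction f using MvPolynomial.induction_on' with
  | monomial A c =>
    induction g using MvPolynomial.induction_on' with
    | monomial B d =>
      rw [monomial_mul, HWA_D_monomial, HWA_D_monomial, HWA_D_monomial]
      show (c * d) • MDH.dmon (A + B) p = c • MDH.dmon A (d • MDH.dmon B p)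
      rw [hD.1 σ A B p, map_smul, smul_smul]
    | add g₁ g₂ h₁ h₂ =>
      rw [mul_add, map_add, map_add, LinearMap.add_apply, LinearMap.add_apply, h₁, h₂, map_add]
  | add f₁ f₂ h₁ h₂ =>
    rw [add_mul, map_add, map_add, LinearMap.add_apply, LinearMap.add_apply, h₁, h₂]

theorem HWA_D_C (c : ℂ) (p : MvPolynomial σ ℂ) : HWA_D (C c) p = C c * p := by
  have h1 : (MDH.dmon (0 : σ →₀ ℕ)) = LinearMap.id := by
    refine (basisMonomials σ ℂ).ext fun B => ?_
    rw [coe_basisMonomials]
    show MDH.dmon 0 (monomial B 1) = monomial B 1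
    rw [HWA_dmon, Finsupp.support_zero, Finset.prod_empty, mul_one, tsub_zero]
  have h2 : (C c : MvPolynomial σ ℂ) = monomial 0 c := rfl
  rw [h2, HWA_D_monomial, h1]
  show c • p = monomial 0 c * p
  rw [← h2, C_mul']

theorem HWA_D_X (q : σ) (p : MvPolynomial σ ℂ) : HWA_D (X q) p = pderiv q p := by
  have h1 : (X q : MvPolynomial σ ℂ) = monomial (Finsupp.single q 1) 1 := rfl
  rw [h1, HWA_D_monomial, one_smul]
  induction p using MvPolynomial.induction_on' with
  | monomial B c =>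
    rw [HWA_dmon, pderiv_monomial, Finsupp.support_single _ one_ne_zero, Finset.prod_singleton,
      Finsupp.single_eq_same, Nat.descFactorial_one]
  | add p p' hp hp' => rw [map_add, map_add, hp, hp']

/-- Weyl relation -/
theorem HWA_weyl (hD : MDH.St_DHC) (q : σ) (f p : MvPolynomial σ ℂ) :
    HWA_D f (X q * p) = X q * HWA_D f p + HWA_D (pderiv q f) p := by
  classical
  induction f using MvPolynomial.induction_on generalizing p with
  | C c =>
    rw [HWA_D_C, HWA_D_C, pderiv_C, map_zero, LinearMap.zero_apply, add_zero]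
    ring
  | add f g hf hg =>
    rw [map_add, map_add, map_add, LinearMap.add_apply, LinearMap.add_apply, LinearMap.add_apply,
      hf, hg]
    ring
  | mul_X f x hf =>
    rw [HWA_D_mul hD, HWA_D_mul hD f (X x) p, HWA_D_X, HWA_D_X, Derivation.leibniz,
      Derivation.leibniz, smul_eq_mul, smul_eq_mul, smul_eq_mul, smul_eq_mul, map_add, hf,
      map_add, LinearMap.add_apply, mul_comm (X x) (pderiv q f), HWA_D_mul hD (pderiv q f) (X x) p,
      HWA_D_X]
    by_cases hxq : x = q
    · subst hxq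
      rw [pderiv_X_self, mul_one, mul_one]
      ring
    · rw [pderiv_X_of_ne (Ne.symm hxq), pderiv_X_of_ne hxq, mul_zero, mul_zero, map_zero, map_zero,
        LinearMap.zero_apply]
      ring

theorem HWA_ann (hD : MDH.St_DHC) {g p : MvPolynomial σ ℂ} (h : HWA_D g p = 0)
    (f : MvPolynomial σ ℂ) : HWA_D (f * g) p = 0 := by
  rw [HWA_D_mul hD, h, map_zero]

/-- `∂^A p = 0` for degree reasons -/
theorem HWA_deg [Fintype σ] (T : Finset σ) (A : σ →₀ ℕ) (p : MvPolynomial σ ℂ)
    (h : ∀ B ∈ p.support, ∑ q ∈ T, B q < ∑ q ∈ T, A q) : HWA_D (monomial A 1) p = 0 := by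
  rw [HWA_D_monomial, one_smul, ← p.support_sum_monomial_coeff, map_sum]
  refine Finset.sum_eq_zero fun B hB => ?_
  rw [HWA_dmon]
  obtain ⟨q, hq, hlt⟩ : ∃ q ∈ T, B q < A q := Finset.exists_lt_of_sum_lt (h B hB)
  have h1 : ∏ i ∈ A.support, ((B i).descFactorial (A i) : ℂ) = 0 := by
    refine Finset.prod_eq_zero (i := q) ?_ ?_
    · rw [Finsupp.mem_support_iff]
      omega
    · rw [Nat.descFactorial_eq_zero_iff_lt.2 hlt, Nat.cast_zero]
  rw [h1, mul_zero, monomial_zero]

end act

/-! ### Polarisation -/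

section pol

variable {r n : ℕ}

theorem HWA_pol_apply (s s' : Fin r) (p : MvPolynomial (Fin r × Fin n) ℂ) :
    pol r n s s' p = ∑ j : Fin n, X (s, j) * pderiv (s', j) p := rfl

/-- commutator -/
theorem HWA_comm (hD : MDH.St_DHC) (s s' : Fin r) (f p : MvPolynomial (Fin r × Fin n) ℂ) :
    HWA_D f (pol r n s s' p) = pol r n s s' (HWA_D f p) + HWA_D (pol r n s' s f) p := by
  rw [HWA_pol_apply, HWA_pol_apply, HWA_pol_apply, map_sum, map_sum, LinearMap.sum_apply,
    ← Finset.sum_add_distrib]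
  refine Finset.sum_congr rfl fun j _ => ?_
  rw [HWA_weyl hD, ← HWA_D_X (s', j) p, ← HWA_D_X (s', j) (HWA_D f p), ← HWA_D_mul hD,
    ← HWA_D_mul hD, ← HWA_D_mul hD, mul_comm f, mul_comm (pderiv (s, j) f)]

/-- the determinant -/
noncomputable def HWA_M {a : ℕ} (h : a < r) (J : Fin a → Fin n) :
    Matrix (Fin a) (Fin a) (MvPolynomial (Fin r × Fin n) ℂ) :=
  Matrix.of fun s' s => X ((⟨s'.val, by omega⟩ : Fin r), J s)

/-- the sum of the products of the entries, with all but one of the factors -/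
theorem HWA_pol_prod {a : ℕ} (h : a < r) (J : Fin a → Fin n) (t t' : Fin a)
    (σ : Equiv.Perm (Fin a)) :
    pol r n (⟨t'.val, by omega⟩ : Fin r) (⟨t.val, by omega⟩ : Fin r)
      (∏ s, HWA_M h J (σ s) s) =
      ∏ s, (HWA_M h J).updateRow t (HWA_M h J t') (σ s) s := by
  classical
  obtain ⟨s0, hs0⟩ : ∃ s0, σ s0 = t := ⟨σ.symm t, σ.apply_symm_apply t⟩
  rw [← Finset.mul_prod_erase _ _ (Finset.mem_univ s0),
    ← Finset.mul_prod_erase (s := Finset.univ)
      (f := fun s => (HWA_M h J).updateRow t (HWA_M h J t') (σ s) s) (Finset.mem_univ s0)]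
  have hne : ∀ s ∈ Finset.univ.erase s0, σ s ≠ t := by
    intro s hs h1
    refine (Finset.mem_erase.1 hs).1 (σ.injective ?_)
    rw [h1, hs0]
  have e1 : ∏ s ∈ Finset.univ.erase s0, (HWA_M h J).updateRow t (HWA_M h J t') (σ s) s =
      ∏ s ∈ Finset.univ.erase s0, HWA_M h J (σ s) s := by
    refine Finset.prod_congr rfl fun s hs => ?_
    rw [Matrix.updateRow_ne (hne s hs)]
  have e2 : ∀ j : Fin n, pderiv ((⟨t.val, by omega⟩ : Fin r), j)
      (∏ s ∈ Finset.univ.erase s0, HWA_M h J (σ s) s) = 0 := by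
    intro j
    refine Finset.prod_induction _ (fun f => pderiv ((⟨t.val, by omega⟩ : Fin r), j) f = 0)
      ?_ ?_ ?_
    · intro f g hf hg
      rw [Derivation.leibniz, hf, hg, smul_zero, smul_zero, add_zero]
    · exact pderiv_one
    · intro s hs
      refine pderiv_X_of_ne ?_
      intro h1
      refine hne s hs (Fin.ext ?_)
      have h2 := congrArg (fun q : Fin r × Fin n => q.1.val) h1
      exact h2
  rw [e1, HWA_pol_apply, Finset.sum_eq_single (J s0)]
  · rw [Derivation.leibniz, e2, smul_zero, zero_add, hs0, Matrix.updateRow_self]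
    have h3 : HWA_M h J t s0 = X ((⟨t.val, by omega⟩ : Fin r), J s0) := rfl
    have h4 : HWA_M h J t' s0 = X ((⟨t'.val, by omega⟩ : Fin r), J s0) := rfl
    rw [h3, h4, pderiv_X_self, smul_eq_mul, mul_one]
  · intro j _ hj
    rw [Derivation.leibniz, e2, smul_zero, zero_add, hs0]
    have h3 : HWA_M h J t s0 = X ((⟨t.val, by omega⟩ : Fin r), J s0) := rfl
    rw [h3, pderiv_X_of_ne, smul_zero, mul_zero]
    intro h5
    exact hj (Prod.mk.inj h5).2.symm
  · intro h1
    exact absurd (Finset.mem_univ _) h1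

theorem HWA_pol_det {a : ℕ} (h : a < r) (J : Fin a → Fin n) (t t' : Fin a) (htt : t ≠ t') :
    pol r n (⟨t'.val, by omega⟩ : Fin r) (⟨t.val, by omega⟩ : Fin r) (HWA_M h J).det = 0 := by
  classical
  have h1 : ((HWA_M h J).updateRow t (HWA_M h J t')).det = 0 :=
    Matrix.det_zero_of_row_eq htt (by
      rw [Matrix.updateRow_self, Matrix.updateRow_ne (Ne.symm htt)])
  rw [Matrix.det_apply'] at h1 ⊢
  rw [map_sum]
  rw [← h1]
  refine Finset.sum_congr rfl fun σ _ => ?_
  rw [← HWA_pol_prod h J t t' σ]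
  have h2 : ∀ (z : ℤ) (f : MvPolynomial (Fin r × Fin n) ℂ),
      pol r n (⟨t'.val, by omega⟩ : Fin r) (⟨t.val, by omega⟩ : Fin r) (((z : ℤ) :
        MvPolynomial (Fin r × Fin n) ℂ) * f) = ((z : ℤ) : MvPolynomial (Fin r × Fin n) ℂ) *
        pol r n (⟨t'.val, by omega⟩ : Fin r) (⟨t.val, by omega⟩ : Fin r) f := by
    intro z f
    rw [← zsmul_eq_mul, ← zsmul_eq_mul, map_zsmul]
  exact h2 _ _

/-- `pol` is a derivation -/
theorem HWA_pol_mul (s s' : Fin r) (f g : MvPolynomial (Fin r × Fin n) ℂ) :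
    pol r n s s' (f * g) = f * pol r n s s' g + g * pol r n s s' f := by
  rw [HWA_pol_apply, HWA_pol_apply, HWA_pol_apply, Finset.mul_sum, Finset.mul_sum,
    ← Finset.sum_add_distrib]
  refine Finset.sum_congr rfl fun j _ => ?_
  rw [Derivation.leibniz, smul_eq_mul, smul_eq_mul]
  ring

theorem HWA_pol_X (s s' : Fin r) (j : Fin n) : pol r n s s' (X (s', j)) = X (s, j) := by
  rw [HWA_pol_apply, Finset.sum_eq_single j]
  · rw [pderiv_X_self, mul_one]
  · intro j' _ hj
    rw [pderiv_X_of_ne, mul_zero]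
    intro h1
    exact hj (Prod.mk.inj h1).2.symm
  · intro h1
    exact absurd (Finset.mem_univ _) h1

end pol

/-! ### The map `psi` -/

section psi

variable {r n a b : ℕ}

/-- the last set -/
def HWA_l (h : a < r) : Fin r := ⟨r - 1, by omega⟩

/-- the restriction to the last set -/
noncomputable def HWA_e (r n : ℕ) : MvPolynomial (Fin r × Fin n) ℂ →ₐ[ℂ] S (Fin n) :=
  aeval (R := ℂ) (fun q : Fin r × Fin n => if q.1.val + 1 = r then (X q.2 : S (Fin n)) else 0)

/-- the operator -/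
noncomputable def HWA_F (h : a < r) (hb : b ≤ a) (x : Ix a b (Fin n)) :
    MvPolynomial (Fin r × Fin n) ℂ :=
  (∏ t : Fin b, X ((⟨t.val, by omega⟩ : Fin r), x.2 t)) * (HWA_M h x.1).det

theorem HWA_psi (h : a < r) (hb : b ≤ a) (p : MvPolynomial (Fin r × Fin n) ℂ)
    (x : Ix a b (Fin n)) : psi h hb p x = HWA_e r n (HWA_D (HWA_F h hb x) p) := by
  classical
  show HWA_e r n _ = _
  congr 1
  unfold HWA_F
  rw [Matrix.det_apply', Finset.mul_sum, map_sum, LinearMap.sum_apply]
  refine Finset.sum_congr rfl fun σ _ => ?_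
  have h1 : (∏ t : Fin b, (X ((⟨t.val, by omega⟩ : Fin r), x.2 t) :
      MvPolynomial (Fin r × Fin n) ℂ)) =
      monomial (∑ t : Fin b, Finsupp.single ((⟨t.val, by omega⟩ : Fin r), x.2 t) 1) 1 := by
    rw [monomial_sum_one]
    rfl
  have h2 : (∏ s : Fin a, HWA_M h x.1 (σ s) s) =
      monomial (∑ s : Fin a, Finsupp.single ((⟨(σ s).val, by omega⟩ : Fin r), x.1 s) 1) 1 := by
    rw [monomial_sum_one]
    rfl
  have h3 : (∏ t : Fin b, (X ((⟨t.val, by omega⟩ : Fin r), x.2 t) :
      MvPolynomial (Fin r × Fin n) ℂ)) *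
      ((((Equiv.Perm.sign σ : ℤ)) : MvPolynomial (Fin r × Fin n) ℂ) *
        ∏ s : Fin a, HWA_M h x.1 (σ s) s) =
      ((Equiv.Perm.sign σ : ℤ) : ℂ) •
        monomial (∑ t : Fin b, Finsupp.single ((⟨t.val, by omega⟩ : Fin r), x.2 t) 1 +
        ∑ s : Fin a, Finsupp.single ((⟨(σ s).val, by omega⟩ : Fin r), x.1 s) 1) 1 := by
    rw [h1, h2, mul_left_comm, monomial_mul, one_mul, Int.cast_smul_eq_zsmul, zsmul_eq_mul]
  rw [h3, map_smul, HWA_D_monomial, one_smul]
  rfl

/-- derivatives in the last set -/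
theorem HWA_e_X (h : a < r) (i : Fin n) (q : MvPolynomial (Fin r × Fin n) ℂ) :
    pderiv i (HWA_e r n q) = HWA_e r n (pderiv (HWA_l h, i) q) := by
  classical
  induction q using MvPolynomial.induction_on with
  | C c =>
    have h1 : HWA_e r n (C c) = C c := by
      unfold HWA_e
      rw [aeval_C]
      rfl
    rw [h1, pderiv_C, pderiv_C, map_zero]
  | add f g hf hg => rw [map_add, map_add, map_add, map_add, hf, hg]
  | mul_X f x hf =>
    rw [map_mul, Derivation.leibniz, Derivation.leibniz, map_add, smul_eq_mul, smul_eq_mul,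
      smul_eq_mul, smul_eq_mul, map_mul, map_mul, hf]
    congr 2
    have h1 : HWA_e r n (X x) = if x.1.val + 1 = r then (X x.2 : S (Fin n)) else 0 := by
      unfold HWA_e
      rw [aeval_X]
    rw [h1]
    have hl : (HWA_l h).val + 1 = r := by
      show r - 1 + 1 = r
      omega
    by_cases h2 : x.1.val + 1 = r
    · rw [if_pos h2]
      have h3 : x.1 = HWA_l h := Fin.ext (by omega)
      by_cases h4 : x.2 = i
      · have h5 : x = (HWA_l h, i) := Prod.ext h3 h4
        rw [h4, pderiv_X_self, h5, pderiv_X_self, map_one]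
      · rw [pderiv_X_of_ne h4, pderiv_X_of_ne, map_zero]
        intro h5
        exact h4 (by rw [h5])
    · rw [if_neg h2, map_zero, pderiv_X_of_ne, map_zero]
      intro h5
      apply h2
      rw [h5]
      exact hl

theorem HWA_e_dmon (hD : MDH.St_DHC) (h : a < r) (i : Fin n) (k : ℕ)
    (q : MvPolynomial (Fin r × Fin n) ℂ) :
    MDH.dmon (Finsupp.single i k) (HWA_e r n q) =
      HWA_e r n (HWA_D (X (HWA_l h, i) ^ k) q) := by
  have h1 : MDH.dmon (Finsupp.single i k) (HWA_e r n q) = HWA_D (X i ^ k) (HWA_e r n q) := by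
    rw [X_pow_eq_monomial, HWA_D_monomial, one_smul]
  rw [h1]
  induction k generalizing q with
  | zero =>
    rw [pow_zero, pow_zero, ← C_1, ← C_1, HWA_D_C, HWA_D_C, C_1, C_1, one_mul, one_mul]
  | succ k ih =>
    rw [pow_succ, pow_succ, HWA_D_mul hD, HWA_D_mul hD, HWA_D_X, HWA_D_X, HWA_e_X h]
    refine ih _ ?_
    rw [X_pow_eq_monomial, HWA_D_monomial, one_smul]

/-- the differential equations -/
theorem HWA_eqn (hD : MDH.St_DHC) (h : a < r) (hb : b ≤ a) (p : MvPolynomial (Fin r × Fin n) ℂ)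
    (k : ℕ) (x : Fin n → Ix a b (Fin n))
    (H : HWA_D (∑ i : Fin n, X (HWA_l h, i) ^ k * HWA_F h hb (x i)) p = 0) :
    ∑ i : Fin n, MDH.dmon (Finsupp.single i k) (psi h hb p (x i)) = 0 := by
  have h1 : ∀ i : Fin n, MDH.dmon (Finsupp.single i k) (psi h hb p (x i)) =
      HWA_e r n (HWA_D (X (HWA_l h, i) ^ k * HWA_F h hb (x i)) p) := by
    intro i
    rw [HWA_psi, HWA_e_dmon hD h, HWA_D_mul hD]
  rw [Finset.sum_congr rfl fun i _ => h1 i, ← map_sum, ← LinearMap.sum_apply, ← map_sum, H,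
    map_zero]

/-- products of powers -/
theorem HWA_pp_single (y : Fin r) (k : ℕ) (i : Fin n) :
    ∏ x : Fin r, (X (x, i) : MvPolynomial (Fin r × Fin n) ℂ) ^ (Pi.single y k : Fin r → ℕ) x =
      X (y, i) ^ k := by
  classical
  rw [Finset.prod_eq_single y]
  · rw [Pi.single_eq_same]
  · intro x _ hx
    rw [Pi.single_eq_of_ne hx, pow_zero]
  · intro h1
    exact absurd (Finset.mem_univ _) h1

theorem HWA_pp_add (A B : Fin r → ℕ) (i : Fin n) :
    ∏ x : Fin r, (X (x, i) : MvPolynomial (Fin r × Fin n) ℂ) ^ (A + B) x =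
      (∏ x : Fin r, X (x, i) ^ A x) * ∏ x : Fin r, X (x, i) ^ B x := by
  rw [← Finset.prod_mul_distrib]
  refine Finset.prod_congr rfl fun x _ => ?_
  rw [Pi.add_apply, pow_add]

theorem HWA_DH (hD : MDH.St_DHC) {p : MvPolynomial (Fin r × Fin n) ℂ} (hp : p ∈ MDH.DH r n)
    (A : Fin r → ℕ) (hA : A ≠ 0) :
    HWA_D (∑ i : Fin n, ∏ x : Fin r, X (x, i) ^ A x) p = 0 := by
  rw [HWA_D_apply]
  exact ((hD.2 r n p).1 hp) A hA

theorem HWA_DH0 (hD : MDH.St_DHC) (h : a < r) {p : MvPolynomial (Fin r × Fin n) ℂ}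
    (hp : p ∈ MDH.DH r n) (k : ℕ) (hk : 1 ≤ k) :
    HWA_D (∑ i : Fin n, X (HWA_l h, i) ^ k) p = 0 := by
  have h1 := HWA_DH hD hp (Pi.single (HWA_l h) k) (by
    intro h2
    have h3 := congrFun h2 (HWA_l h)
    rw [Pi.single_eq_same, Pi.zero_apply] at h3
    omega)
  simp only [HWA_pp_single] at h1
  exact h1

theorem HWA_DH1 (hD : MDH.St_DHC) (h : a < r) {p : MvPolynomial (Fin r × Fin n) ℂ}
    (hp : p ∈ MDH.DH r n) (k : ℕ) (y : Fin r) :
    HWA_D (∑ i : Fin n, X (HWA_l h, i) ^ k * X (y, i)) p = 0 := by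
  have h1 := HWA_DH hD hp (Pi.single (HWA_l h) k + Pi.single y 1) (by
    intro h2
    have h3 := congrFun h2 y
    rw [Pi.add_apply, Pi.single_eq_same, Pi.zero_apply] at h3
    omega)
  simp only [HWA_pp_add, HWA_pp_single, pow_one] at h1
  exact h1

theorem HWA_DH2 (hD : MDH.St_DHC) (h : a < r) {p : MvPolynomial (Fin r × Fin n) ℂ}
    (hp : p ∈ MDH.DH r n) (k : ℕ) (y y' : Fin r) :
    HWA_D (∑ i : Fin n, X (HWA_l h, i) ^ k * X (y, i) * X (y', i)) p = 0 := by
  have h1 := HWA_DH hD hp (Pi.single (HWA_l h) k + Pi.single y 1 + Pi.single y' 1) (by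
    intro h2
    have h3 := congrFun h2 y
    rw [Pi.add_apply, Pi.add_apply, Pi.single_eq_same, Pi.zero_apply] at h3
    omega)
  simp only [HWA_pp_add, HWA_pp_single, pow_one] at h1
  exact h1

/-- the determinant with one column replaced -/
theorem HWA_det_update (h : a < r) (J : Fin a → Fin n) (s : Fin a) (i : Fin n) :
    (HWA_M h (Function.update J s i)).det =
      ∑ σ : Equiv.Perm (Fin a), (((Equiv.Perm.sign σ : ℤ)) : MvPolynomial (Fin r × Fin n) ℂ) *
        (∏ s' ∈ Finset.univ.erase s, HWA_M h J (σ s') s') *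
          X ((⟨(σ s).val, by omega⟩ : Fin r), i) := by
  classical
  rw [Matrix.det_apply']
  refine Finset.sum_congr rfl fun σ _ => ?_
  rw [← Finset.mul_prod_erase _ _ (Finset.mem_univ s)]
  have e1 : HWA_M h (Function.update J s i) (σ s) s =
      (X ((⟨(σ s).val, by omega⟩ : Fin r), i) : MvPolynomial (Fin r × Fin n) ℂ) := by
    show X ((⟨(σ s).val, by omega⟩ : Fin r), Function.update J s i s) = _
    rw [Function.update_self]
  have e2 : ∏ s' ∈ Finset.univ.erase s, HWA_M h (Function.update J s i) (σ s') s' =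
      ∏ s' ∈ Finset.univ.erase s, HWA_M h J (σ s') s' := by
    refine Finset.prod_congr rfl fun s' hs' => ?_
    show X ((⟨(σ s').val, by omega⟩ : Fin r), Function.update J s i s') = _
    rw [Function.update_of_ne (Finset.mem_erase.1 hs').1]
    rfl
  rw [e1, e2]
  ring

theorem HWA_prod_update (h : a < r) (hb : b ≤ a) (K : Fin b → Fin n) (t : Fin b) (i : Fin n) :
    (∏ t' : Fin b, X ((⟨t'.val, by omega⟩ : Fin r), Function.update K t i t') :
      MvPolynomial (Fin r × Fin n) ℂ) = X ((⟨t.val, by omega⟩ : Fin r), i) *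
        ∏ t' ∈ Finset.univ.erase t, X ((⟨t'.val, by omega⟩ : Fin r), K t') := by
  classical
  rw [← Finset.mul_prod_erase _ _ (Finset.mem_univ t), Function.update_self]
  congr 1
  refine Finset.prod_congr rfl fun t' ht' => ?_
  rw [Function.update_of_ne (Finset.mem_erase.1 ht').1]

theorem HWA_prod_erase (h : a < r) (hb : b ≤ a) (K : Fin b → Fin n) (t : Fin b) :
    (∏ t' : Fin b, X ((⟨t'.val, by omega⟩ : Fin r), K t') :
      MvPolynomial (Fin r × Fin n) ℂ) = X ((⟨t.val, by omega⟩ : Fin r), K t) *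
        ∏ t' ∈ Finset.univ.erase t, X ((⟨t'.val, by omega⟩ : Fin r), K t') := by
  classical
  rw [← Finset.mul_prod_erase _ _ (Finset.mem_univ t)]

/-- Garnir relation for the operators -/
theorem HWA_gar (h : a < r) (hb : b ≤ a) (t : Fin b) (x : Ix a b (Fin n)) :
    HWA_F h hb x = ∑ s : Fin a,
      HWA_F h hb (Function.update x.1 s (x.2 t), Function.update x.2 t (x.1 s)) := by
  classical
  obtain ⟨v, hv⟩ : ∃ v : Fin a → MvPolynomial (Fin r × Fin n) ℂ,
      ∀ s', v s' = X ((⟨s'.val, by omega⟩ : Fin r), x.2 t) :=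
    ⟨fun s' => X ((⟨s'.val, by omega⟩ : Fin r), x.2 t), fun _ => rfl⟩
  have h1 := congrFun (Matrix.mulVec_cramer (HWA_M h x.1) v) (⟨t.val, by omega⟩ : Fin a)
  rw [Pi.smul_apply, smul_eq_mul, hv] at h1
  have h2 : ∀ s : Fin a, Matrix.cramer (HWA_M h x.1) v s =
      (HWA_M h (Function.update x.1 s (x.2 t))).det := by
    intro s
    rw [Matrix.cramer_apply]
    congr 1
    refine Matrix.ext fun s' s'' => ?_
    rw [Matrix.updateCol_apply]
    by_cases h3 : s'' = s
    · subst h3
      rw [if_pos rfl, hv]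
      show _ = X ((⟨s'.val, by omega⟩ : Fin r), Function.update x.1 s'' (x.2 t) s'')
      rw [Function.update_self]
    · rw [if_neg h3]
      show _ = X ((⟨s'.val, by omega⟩ : Fin r), Function.update x.1 s (x.2 t) s'')
      rw [Function.update_of_ne h3]
      rfl
  have h3 : ∑ s : Fin a, X ((⟨t.val, by omega⟩ : Fin r), x.1 s) *
      (HWA_M h (Function.update x.1 s (x.2 t))).det =
      (HWA_M h x.1).det * X ((⟨t.val, by omega⟩ : Fin r), x.2 t) := by
    rw [← h1]
    show _ = ∑ s : Fin a, HWA_M h x.1 _ s * Matrix.cramer (HWA_M h x.1) v s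
    refine Finset.sum_congr rfl fun s _ => ?_
    rw [h2]
    rfl
  have h4 : ∀ s : Fin a, HWA_F h hb (Function.update x.1 s (x.2 t),
      Function.update x.2 t (x.1 s)) =
      (∏ t' ∈ Finset.univ.erase t, X ((⟨t'.val, by omega⟩ : Fin r), x.2 t')) *
      (X ((⟨t.val, by omega⟩ : Fin r), x.1 s) *
      (HWA_M h (Function.update x.1 s (x.2 t))).det) := by
    intro s
    unfold HWA_F
    show (∏ t' : Fin b, X ((⟨t'.val, by omega⟩ : Fin r), Function.update x.2 t (x.1 s) t')) *
      (HWA_M h (Function.update x.1 s (x.2 t))).det = _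
    rw [HWA_prod_update h hb]
    ring
  rw [Finset.sum_congr rfl fun s _ => h4 s, ← Finset.mul_sum, h3]
  unfold HWA_F
  rw [HWA_prod_erase h hb x.2 t]
  ring

/-- antisymmetry in the first tuple -/
theorem HWA_antiJ (h : a < r) (hb : b ≤ a) (τ : Equiv.Perm (Fin a)) (x : Ix a b (Fin n)) :
    HWA_F h hb (x.1 ∘ τ, x.2) = ((Equiv.Perm.sign τ : ℤ) : ℂ) • HWA_F h hb x := by
  classical
  have h1 : HWA_M h (x.1 ∘ τ) = (HWA_M h x.1).submatrix id τ := rfl
  unfold HWA_F
  show (∏ t : Fin b, X ((⟨t.val, by omega⟩ : Fin r), x.2 t)) * (HWA_M h (x.1 ∘ τ)).det = _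
  rw [h1, Matrix.det_permute', Int.cast_smul_eq_zsmul, zsmul_eq_mul]
  ring

/-- too many derivatives in the set `t` -/
theorem HWA_deg3 (hD : MDH.St_DHC) (h : a < r) {p : MvPolynomial (Fin r × Fin n) ℂ}
    (t : Fin a) (hp : ∀ A ∈ p.support, ∑ j : Fin n, A ((⟨t.val, by omega⟩ : Fin r), j) = 2)
    (J : Fin a → Fin n) (l m : Fin n) :
    HWA_D (X ((⟨t.val, by omega⟩ : Fin r), l) * X ((⟨t.val, by omega⟩ : Fin r), m) *
      (HWA_M h J).det) p = 0 := by
  classical
  have h0 : ∀ j0 : Fin n, HWA_D (X ((⟨t.val, by omega⟩ : Fin r), l) *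
      X ((⟨t.val, by omega⟩ : Fin r), m) * X ((⟨t.val, by omega⟩ : Fin r), j0)) p = 0 := by
    intro j0
    have h1 : (X ((⟨t.val, by omega⟩ : Fin r), l) * X ((⟨t.val, by omega⟩ : Fin r), m) *
        X ((⟨t.val, by omega⟩ : Fin r), j0) : MvPolynomial (Fin r × Fin n) ℂ) =
        monomial (Finsupp.single ((⟨t.val, by omega⟩ : Fin r), l) 1 +
          Finsupp.single ((⟨t.val, by omega⟩ : Fin r), m) 1 +
          Finsupp.single ((⟨t.val, by omega⟩ : Fin r), j0) 1) 1 := by
      unfold X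
      rw [monomial_mul, monomial_mul, one_mul, one_mul]
    rw [h1]
    refine HWA_deg (Finset.univ.map
      ⟨fun j : Fin n => ((⟨t.val, by omega⟩ : Fin r), j), fun j j' hj => (Prod.mk.inj hj).2⟩)
      _ p fun B hB => ?_
    rw [Finset.sum_map, Finset.sum_map]
    show ∑ j : Fin n, B ((⟨t.val, by omega⟩ : Fin r), j) < ∑ j : Fin n,
      (Finsupp.single ((⟨t.val, by omega⟩ : Fin r), l) 1 +
          Finsupp.single ((⟨t.val, by omega⟩ : Fin r), m) 1 +
          Finsupp.single ((⟨t.val, by omega⟩ : Fin r), j0) 1 : (Fin r × Fin n) →₀ ℕ)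
        ((⟨t.val, by omega⟩ : Fin r), j)
    rw [hp B hB]
    have h2 : ∀ l0 : Fin n, ∑ j : Fin n, (Finsupp.single ((⟨t.val, by omega⟩ : Fin r), l0) 1 :
        (Fin r × Fin n) →₀ ℕ) ((⟨t.val, by omega⟩ : Fin r), j) = 1 := by
      intro l0
      rw [Finset.sum_eq_single l0]
      · rw [Finsupp.single_eq_same]
      · intro j _ hj
        rw [Finsupp.single_apply, if_neg]
        intro h3
        exact hj (Prod.mk.inj h3).2.symm
      · intro h3
        exact absurd (Finset.mem_univ _) h3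
    simp only [Finsupp.add_apply, Finset.sum_add_distrib, h2]
    omega
  rw [Matrix.det_apply', Finset.mul_sum, map_sum, LinearMap.sum_apply]
  refine Finset.sum_eq_zero fun σ _ => ?_
  obtain ⟨s0, hs0⟩ : ∃ s0, σ s0 = t := ⟨σ.symm t, σ.apply_symm_apply t⟩
  rw [← Finset.mul_prod_erase _ _ (Finset.mem_univ s0), hs0]
  have h1 : HWA_M h J t s0 = X ((⟨t.val, by omega⟩ : Fin r), J s0) := rfl
  have h2 : ∀ c x y z w : MvPolynomial (Fin r × Fin n) ℂ, x * y * (c * (z * w)) =
      c * w * (x * y * z) := by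
    intro c x y z w
    ring
  rw [h1, h2]
  exact HWA_ann hD (h0 (J s0)) _

/-- exchange of two entries of the second tuple -/
theorem HWA_swap (hD : MDH.St_DHC) (h : a < r) {p : MvPolynomial (Fin r × Fin n) ℂ}
    (t t' : Fin a) (htt : t ≠ t')
    (hp : ∀ A ∈ p.support, ∑ j : Fin n, A ((⟨t.val, by omega⟩ : Fin r), j) = 2)
    (hpol : pol r n (⟨t.val, by omega⟩ : Fin r) (⟨t'.val, by omega⟩ : Fin r) p = 0)
    (J : Fin a → Fin n) (l m : Fin n) :
    HWA_D (X ((⟨t.val, by omega⟩ : Fin r), l) * X ((⟨t'.val, by omega⟩ : Fin r), m) *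
      (HWA_M h J).det + X ((⟨t.val, by omega⟩ : Fin r), m) *
      X ((⟨t'.val, by omega⟩ : Fin r), l) * (HWA_M h J).det) p = 0 := by
  have h1 := HWA_comm hD (⟨t.val, by omega⟩ : Fin r) (⟨t'.val, by omega⟩ : Fin r)
    (X ((⟨t.val, by omega⟩ : Fin r), l) * X ((⟨t.val, by omega⟩ : Fin r), m) *
      (HWA_M h J).det) p
  rw [hpol, map_zero, HWA_deg3 hD h t hp J l m, map_zero, zero_add, HWA_pol_mul, HWA_pol_mul,
    HWA_pol_X, HWA_pol_X, HWA_pol_det h J t t' htt, mul_zero, zero_add] at h1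
  rw [h1]
  congr 2
  ring

end psi

theorem thm_HWA (hD : MDH.St_DHC) : St_HWA := by
  classical
  intro r n a b h hb p hp
  obtain ⟨hDH, hdeg, hpol⟩ := hp
  -- antisymmetry in the second tuple, transpositions
  have hsw : ∀ (t t' : Fin b) (x : Ix a b (Fin n)), t < t' →
      psi h hb p (x.1, x.2 ∘ Equiv.swap t t') = - psi h hb p x := by
    intro t t' x htt
    have h1 := HWA_swap hD h (p := p) (⟨t.val, by omega⟩ : Fin a) (⟨t'.val, by omega⟩ : Fin a)
      (by
        intro h2
        have h3 : t.val = t'.val := congrArg (fun q : Fin a => q.val) h2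
        have h4 : t.val < t'.val := htt
        omega)
      (by
        intro A hA
        have h2 := hdeg A hA (⟨t.val, by omega⟩ : Fin r) (by
          have h3 := t.isLt
          show t.val + 1 < r
          omega)
        rw [if_pos t.isLt] at h2
        exact h2)
      (by
        refine hpol _ _ ?_ ?_
        · exact htt
        · have h3 := t'.isLt
          show t'.val + 1 < r
          omega)
      x.1 (x.2 t) (x.2 t')
    have h2 : HWA_D (HWA_F h hb (x.1, x.2 ∘ Equiv.swap t t') + HWA_F h hb x) p = 0 := by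
      have hne : t ≠ t' := ne_of_lt htt
      have h3 : ∀ K : Fin b → Fin n, (∏ t'' : Fin b, X ((⟨t''.val, by omega⟩ : Fin r), K t'') :
          MvPolynomial (Fin r × Fin n) ℂ) = X ((⟨t.val, by omega⟩ : Fin r), K t) *
          (X ((⟨t'.val, by omega⟩ : Fin r), K t') *
          ∏ t'' ∈ (Finset.univ.erase t).erase t', X ((⟨t''.val, by omega⟩ : Fin r), K t'')) := by
        intro K
        rw [← Finset.mul_prod_erase _ _ (Finset.mem_univ t),
          ← Finset.mul_prod_erase (Finset.univ.erase t) _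
            (Finset.mem_erase.2 ⟨Ne.symm hne, Finset.mem_univ t'⟩)]
      have h4 : ∏ t'' ∈ (Finset.univ.erase t).erase t',
          (X ((⟨t''.val, by omega⟩ : Fin r), (x.2 ∘ Equiv.swap t t') t'') :
            MvPolynomial (Fin r × Fin n) ℂ) =
          ∏ t'' ∈ (Finset.univ.erase t).erase t', X ((⟨t''.val, by omega⟩ : Fin r), x.2 t'') := by
        refine Finset.prod_congr rfl fun t'' ht'' => ?_
        have h5 := (Finset.mem_erase.1 ht'').1
        have h6 := (Finset.mem_erase.1 (Finset.mem_erase.1 ht'').2).1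
        rw [Function.comp_apply, Equiv.swap_apply_of_ne_of_ne h6 h5]
      have h5 : HWA_F h hb (x.1, x.2 ∘ Equiv.swap t t') + HWA_F h hb x =
          (∏ t'' ∈ (Finset.univ.erase t).erase t', X ((⟨t''.val, by omega⟩ : Fin r), x.2 t'')) *
          (X ((⟨t.val, by omega⟩ : Fin r), x.2 t) * X ((⟨t'.val, by omega⟩ : Fin r), x.2 t') *
            (HWA_M h x.1).det + X ((⟨t.val, by omega⟩ : Fin r), x.2 t') *
            X ((⟨t'.val, by omega⟩ : Fin r), x.2 t) * (HWA_M h x.1).det) := by
        unfold HWA_F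
        show (∏ t'' : Fin b, X ((⟨t''.val, by omega⟩ : Fin r), (x.2 ∘ Equiv.swap t t') t'')) *
          (HWA_M h x.1).det + (∏ t'' : Fin b, X ((⟨t''.val, by omega⟩ : Fin r), x.2 t'')) *
          (HWA_M h x.1).det = _
        rw [h3 (x.2 ∘ Equiv.swap t t'), h3 x.2, h4, Function.comp_apply, Function.comp_apply,
          Equiv.swap_apply_left, Equiv.swap_apply_right]
        ring
      rw [h5]
      exact HWA_ann hD h1 _
    rw [map_add, LinearMap.add_apply] at h2
    rw [HWA_psi, HWA_psi, eq_neg_of_add_eq_zero_left h2, map_neg]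
  have hsw' : ∀ (t t' : Fin b) (x : Ix a b (Fin n)), t ≠ t' →
      psi h hb p (x.1, x.2 ∘ Equiv.swap t t') = - psi h hb p x := by
    intro t t' x htt
    rcases lt_or_gt_of_ne htt with h1 | h1
    · exact hsw t t' x h1
    · rw [Equiv.swap_comm]
      exact hsw t' t x h1
  refine ⟨⟨?_, ?_, ?_, ?_, ?_, ?_⟩, ?_⟩
  · intro τ x
    rw [HWA_psi, HWA_psi, HWA_antiJ, map_smul, LinearMap.smul_apply, map_smul]
  · intro τ
    refine Equiv.Perm.swap_induction_on τ ?_ ?_
    · intro x
      rw [Equiv.Perm.sign_one, Units.val_one, Int.cast_one, one_smul]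
      rfl
    · intro f t t' htt ih x
      have h1 : (x.1, x.2 ∘ (Equiv.swap t t' * f)) =
          (((x.1, x.2 ∘ Equiv.swap t t') : Ix a b (Fin n)).1,
            ((x.1, x.2 ∘ Equiv.swap t t') : Ix a b (Fin n)).2 ∘ f) := rfl
      rw [h1, ih (x.1, x.2 ∘ Equiv.swap t t'), hsw' t t' x htt, Equiv.Perm.sign_mul,
        Equiv.Perm.sign_swap htt, smul_neg, ← neg_smul]
      congr 1
      push_cast
      ring
  · intro s x k
    refine HWA_eqn hD h hb p k (fun i => (Function.update x.1 s i, x.2)) ?_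
    have h1 : ∑ i : Fin n, (X (HWA_l h, i) ^ k * HWA_F h hb (Function.update x.1 s i, x.2) :
        MvPolynomial (Fin r × Fin n) ℂ) =
        ∑ σ : Equiv.Perm (Fin a), ((∏ t : Fin b, X ((⟨t.val, by omega⟩ : Fin r), x.2 t)) *
          ((((Equiv.Perm.sign σ : ℤ)) : MvPolynomial (Fin r × Fin n) ℂ) *
          (∏ s' ∈ Finset.univ.erase s, HWA_M h x.1 (σ s') s'))) *
          ∑ i : Fin n, X (HWA_l h, i) ^ k * X ((⟨(σ s).val, by omega⟩ : Fin r), i) := by
      simp only [Finset.mul_sum]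
      rw [Finset.sum_comm]
      refine Finset.sum_congr rfl fun i _ => ?_
      unfold HWA_F
      show X (HWA_l h, i) ^ k * ((∏ t : Fin b, X ((⟨t.val, by omega⟩ : Fin r), x.2 t)) *
        (HWA_M h (Function.update x.1 s i)).det) = _
      rw [HWA_det_update, Finset.mul_sum, Finset.mul_sum]
      refine Finset.sum_congr rfl fun σ _ => ?_
      ring
    rw [h1, map_sum, LinearMap.sum_apply]
    exact Finset.sum_eq_zero fun σ _ => HWA_ann hD (HWA_DH1 hD h hDH k _) _
  · intro t x k
    refine HWA_eqn hD h hb p k (fun i => (x.1, Function.update x.2 t i)) ?_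
    have h1 : ∑ i : Fin n, (X (HWA_l h, i) ^ k * HWA_F h hb (x.1, Function.update x.2 t i) :
        MvPolynomial (Fin r × Fin n) ℂ) =
        ((∏ t' ∈ Finset.univ.erase t, X ((⟨t'.val, by omega⟩ : Fin r), x.2 t')) *
          (HWA_M h x.1).det) *
          ∑ i : Fin n, X (HWA_l h, i) ^ k * X ((⟨t.val, by omega⟩ : Fin r), i) := by
      rw [Finset.mul_sum]
      refine Finset.sum_congr rfl fun i _ => ?_
      unfold HWA_F
      show X (HWA_l h, i) ^ k * ((∏ t' : Fin b, X ((⟨t'.val, by omega⟩ : Fin r),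
        Function.update x.2 t i t')) * (HWA_M h x.1).det) = _
      rw [HWA_prod_update h hb]
      ring
    rw [h1]
    exact HWA_ann hD (HWA_DH1 hD h hDH k _) _
  · intro s t x k
    refine HWA_eqn hD h hb p k (fun i => (Function.update x.1 s i, Function.update x.2 t i)) ?_
    have h1 : ∑ i : Fin n, (X (HWA_l h, i) ^ k *
        HWA_F h hb (Function.update x.1 s i, Function.update x.2 t i) :
        MvPolynomial (Fin r × Fin n) ℂ) =
        ∑ σ : Equiv.Perm (Fin a),
          ((∏ t' ∈ Finset.univ.erase t, X ((⟨t'.val, by omega⟩ : Fin r), x.2 t')) *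
          ((((Equiv.Perm.sign σ : ℤ)) : MvPolynomial (Fin r × Fin n) ℂ) *
          (∏ s' ∈ Finset.univ.erase s, HWA_M h x.1 (σ s') s'))) *
          ∑ i : Fin n, X (HWA_l h, i) ^ k * X ((⟨t.val, by omega⟩ : Fin r), i) *
            X ((⟨(σ s).val, by omega⟩ : Fin r), i) := by
      simp only [Finset.mul_sum]
      rw [Finset.sum_comm]
      refine Finset.sum_congr rfl fun i _ => ?_
      unfold HWA_F
      show X (HWA_l h, i) ^ k * ((∏ t' : Fin b, X ((⟨t'.val, by omega⟩ : Fin r),
        Function.update x.2 t i t')) * (HWA_M h (Function.update x.1 s i)).det) = _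
      rw [HWA_det_update, HWA_prod_update h hb, Finset.mul_sum, Finset.mul_sum]
      refine Finset.sum_congr rfl fun σ _ => ?_
      ring
    rw [h1, map_sum, LinearMap.sum_apply]
    exact Finset.sum_eq_zero fun σ _ => HWA_ann hD (HWA_DH2 hD h hDH k _ _) _
  · intro x k hk
    refine HWA_eqn hD h hb p k (fun _ => x) ?_
    have h1 : ∑ i : Fin n, (X (HWA_l h, i) ^ k * HWA_F h hb x :
        MvPolynomial (Fin r × Fin n) ℂ) = HWA_F h hb x * ∑ i : Fin n, X (HWA_l h, i) ^ k := by
      rw [Finset.mul_sum]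
      exact Finset.sum_congr rfl fun i _ => mul_comm _ _
    rw [h1]
    exact HWA_ann hD (HWA_DH0 hD h hDH k hk) _
  · intro t x
    rw [HWA_psi, HWA_gar h hb t x, map_sum, LinearMap.sum_apply, map_sum]
    exact Finset.sum_congr rfl fun s _ => (HWA_psi h hb p _).symm

end MDC
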