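import Pool.Agent.MDC.StE
import Pool.Agent.MDH.LNK

/-!
# MDC, module HWB: `psi'` maps `Har2` to `hwPart` (helper89)

Letters `α ∈ L` (`L = Fin a ⊕ Fin b`) lie in the rows `row α`; for a set `U` of letters
`HWB_P U g = ∑_x (∏_(α ∉ U) X (row α, x α)) * g(x)(last row)`.
-/

set_option autoImplicit false
set_option linter.unusedSectionVars false

open MvPolynomial

namespace MDC

section gen

variable {r n : ℕ} {L : Type} [Fintype L] [DecidableEq L] (row : L → Fin r) (ls : Fin r)

noncomputable def HWB_P (U : Finset L) :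
    ((L → Fin n) → S (Fin n)) →ₗ[ℂ] MvPolynomial (Fin r × Fin n) ℂ where
  toFun g := ∑ x : L → Fin n, (∏ α ∈ Uᶜ, X (row α, x α)) * rename (fun i => (ls, i)) (g x)
  map_add' g g' := by simp only [Pi.add_apply, map_add, mul_add, Finset.sum_add_distrib]
  map_smul' t g := by
    simp only [Pi.smul_apply, map_smul, RingHom.id_apply, Finset.smul_sum, mul_smul_comm]

theorem HWB_P_apply (U : Finset L) (g : (L → Fin n) → S (Fin n)) :
    HWB_P row ls U g =
      ∑ x : L → Fin n, (∏ α ∈ Uᶜ, X (row α, x α)) * rename (fun i => (ls, i)) (g x) := rfl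

theorem HWB_pd {σ : Type} [DecidableEq σ] (q : σ) (p : MvPolynomial σ ℂ) :
    MDH.dmon (Finsupp.single q 1) p = pderiv q p := by
  induction p using MvPolynomial.induction_on' with
  | monomial B t => rw [MDH.LNK_dmon_single, pderiv_monomial, Nat.descFactorial_one]
  | add p p' hp hp' => rw [map_add, map_add, hp, hp']

theorem HWB_d0 {σ : Type} (p : MvPolynomial σ ℂ) : MDH.dmon (0 : σ →₀ ℕ) p = p := by
  induction p using MvPolynomial.induction_on' with
  | monomial B t =>
    rw [MDH.LNK_dmon, Finsupp.support_zero, Finset.prod_empty, mul_one, tsub_zero]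
  | add p p' hp hp' => rw [map_add, hp, hp']

theorem HWB_dprod {σ : Type} [DecidableEq σ] (q : σ) (W : Finset L) (f : L → σ) :
    pderiv q (∏ α ∈ W, (X (f α) : MvPolynomial σ ℂ)) =
      ∑ α ∈ W, if f α = q then ∏ β ∈ W.erase α, X (f β) else 0 := by
  induction W using Finset.induction_on with
  | empty => rw [Finset.prod_empty, Finset.sum_empty, pderiv_one]
  | insert α W hα ih =>
    rw [Finset.prod_insert hα, Derivation.leibniz, ih, Finset.sum_insert hα,
      Finset.erase_insert hα, smul_eq_mul, smul_eq_mul, Finset.mul_sum, add_comm]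
    congr 1
    · split_ifs with h
      · rw [h, pderiv_X_self, mul_one]
      · rw [pderiv_X_of_ne h, mul_zero]
    · refine Finset.sum_congr rfl fun β hβ => ?_
      have hne : α ≠ β := fun h => hα (h ▸ hβ)
      rw [Finset.erase_insert_of_ne hne,
        Finset.prod_insert (fun h => hα (Finset.mem_of_mem_erase h))]
      split_ifs
      · rfl
      · rw [mul_zero]

theorem HWB_dren (s : Fin r) (hs : s ≠ ls) (i : Fin n) (p : S (Fin n)) :
    pderiv (s, i) (rename (fun i => (ls, i)) p) = 0 := by
  refine pderiv_eq_zero_of_notMem_vars fun h => ?_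
  have h1 := vars_rename (fun i : Fin n => (ls, i)) p h
  rw [Finset.mem_image] at h1
  obtain ⟨j, _, hj⟩ := h1
  exact hs (Prod.mk.inj hj).1.symm

theorem HWB_step (s : Fin r) (hs : s ≠ ls) (i : Fin n) (U : Finset L)
    (g : (L → Fin n) → S (Fin n)) :
    pderiv (s, i) (HWB_P row ls U g) = ∑ α ∈ Uᶜ.filter (fun α => row α = s),
      HWB_P row ls (insert α U) (fun x => if x α = i then g x else 0) := by
  simp only [HWB_P_apply]
  rw [map_sum, Finset.sum_comm]
  refine Finset.sum_congr rfl fun x _ => ?_
  rw [Derivation.leibniz, HWB_dren ls s hs i, smul_zero, zero_add, smul_eq_mul, HWB_dprod,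
    Finset.mul_sum, Finset.sum_filter]
  refine Finset.sum_congr rfl fun α hα => ?_
  rw [Finset.compl_insert]
  by_cases h1 : row α = s
  · by_cases h2 : x α = i
    · rw [if_pos (by rw [h1, h2]), if_pos h1, if_pos h2, mul_comm]
    · rw [if_neg (fun h => h2 (Prod.mk.inj h).2), if_pos h1, if_neg h2, mul_zero, map_zero,
        mul_zero]
  · rw [if_neg (fun h => h1 (Prod.mk.inj h).1), if_neg h1, mul_zero]

theorem HWB_stepl (hrow : ∀ α, row α ≠ ls) (i : Fin n) (U : Finset L)
    (g : (L → Fin n) → S (Fin n)) :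
    pderiv (ls, i) (HWB_P row ls U g) = HWB_P row ls U (fun x => pderiv i (g x)) := by
  simp only [HWB_P_apply]
  rw [map_sum]
  refine Finset.sum_congr rfl fun x _ => ?_
  have h1 : pderiv (ls, i) (∏ α ∈ Uᶜ, (X (row α, x α) : MvPolynomial (Fin r × Fin n) ℂ)) = 0 := by
    rw [HWB_dprod]
    exact Finset.sum_eq_zero fun α _ => if_neg fun h => hrow α (Prod.mk.inj h).1
  have h2 : pderiv (ls, i) (rename (fun i : Fin n => (ls, i)) (g x)) =
      rename (fun i : Fin n => (ls, i)) (pderiv i (g x)) :=
    pderiv_rename (f := fun i : Fin n => (ls, i)) (fun _ _ h => (Prod.mk.inj h).2) i (g x)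
  rw [Derivation.leibniz, h1, h2, smul_zero, add_zero, smul_eq_mul]

theorem HWB_last (hD : ∀ (σ : Type) (A B : σ →₀ ℕ) (p : MvPolynomial σ ℂ),
      MDH.dmon (A + B) p = MDH.dmon A (MDH.dmon B p)) (hrow : ∀ α, row α ≠ ls) (i : Fin n)
    (U : Finset L) (k : ℕ) : ∀ g : (L → Fin n) → S (Fin n),
    MDH.dmon (Finsupp.single (ls, i) k) (HWB_P row ls U g) =
      HWB_P row ls U (fun x => MDH.dmon (Finsupp.single i k) (g x)) := by
  induction k with
  | zero =>
    intro g
    simp only [Finsupp.single_zero, HWB_d0]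
  | succ k ih =>
    intro g
    simp only [Finsupp.single_add, hD, HWB_pd]
    rw [HWB_stepl row ls hrow, ih]

/-- the families -/
noncomputable def HWB_F (g : Fin n → (L → Fin n) → S (Fin n)) (U : Finset L) :
    Fin n → MvPolynomial (Fin r × Fin n) ℂ :=
  fun i => HWB_P row ls U (fun x => if ∀ α ∈ U, x α = i then g i x else 0)

noncomputable def HWB_D (s : Fin r) :
    (Fin n → MvPolynomial (Fin r × Fin n) ℂ) →ₗ[ℂ] (Fin n → MvPolynomial (Fin r × Fin n) ℂ) where
  toFun R := fun i => pderiv (s, i) (R i)
  map_add' R R' := by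
    funext i
    simp only [Pi.add_apply, map_add]
  map_smul' t R := by
    funext i
    simp only [Pi.smul_apply, Derivation.map_smul, RingHom.id_apply]

theorem HWB_DF (s : Fin r) (hs : s ≠ ls) (g : Fin n → (L → Fin n) → S (Fin n)) (U : Finset L) :
    HWB_D s (HWB_F row ls g U) = ∑ α ∈ Uᶜ.filter (fun α => row α = s),
      HWB_F row ls g (insert α U) := by
  funext i
  rw [Finset.sum_apply]
  change pderiv (s, i) (HWB_P row ls U (fun x => if ∀ α ∈ U, x α = i then g i x else 0)) = _
  rw [HWB_step row ls s hs]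
  refine Finset.sum_congr rfl fun α hα => ?_
  unfold HWB_F
  congr 1
  funext x
  by_cases h1 : x α = i
  · by_cases h2 : ∀ β ∈ U, x β = i
    · rw [if_pos h1, if_pos h2, if_pos]
      intro β hβ
      rcases Finset.mem_insert.1 hβ with h | h
      · rw [h]
        exact h1
      · exact h2 β h
    · rw [if_pos h1, if_neg h2, if_neg]
      intro h
      exact h2 fun β hβ => h β (Finset.mem_insert_of_mem hβ)
  · rw [if_neg h1, if_neg]
    intro h
    exact h1 (h α (Finset.mem_insert_self α U))

/-- span of the families for nonempty `U` -/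
noncomputable def HWB_W (g : Fin n → (L → Fin n) → S (Fin n)) :
    Submodule ℂ (Fin n → MvPolynomial (Fin r × Fin n) ℂ) :=
  Submodule.span ℂ {R | ∃ U : Finset L, U.Nonempty ∧ R = HWB_F row ls g U}

theorem HWB_DF_mem (s : Fin r) (hs : s ≠ ls) (g : Fin n → (L → Fin n) → S (Fin n))
    (U : Finset L) : HWB_D s (HWB_F row ls g U) ∈ HWB_W row ls g := by
  rw [HWB_DF row ls s hs]
  exact Submodule.sum_mem _ fun α _ =>
    Submodule.subset_span ⟨insert α U, Finset.insert_nonempty _ _, rfl⟩

theorem HWB_DW (s : Fin r) (hs : s ≠ ls) (g : Fin n → (L → Fin n) → S (Fin n)) :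
    ∀ R ∈ HWB_W row ls g, HWB_D s R ∈ HWB_W row ls g := by
  intro R hR
  refine Submodule.span_induction (p := fun R _ => HWB_D s R ∈ HWB_W row ls g) ?_ ?_ ?_ ?_ hR
  · rintro R ⟨U, _, rfl⟩
    exact HWB_DF_mem row ls s hs g U
  · rw [map_zero]
    exact Submodule.zero_mem _
  · intro R R' _ _ h h'
    rw [map_add]
    exact Submodule.add_mem _ h h'
  · intro t R _ h
    rw [map_smul]
    exact Submodule.smul_mem _ _ h

theorem HWB_A (hD : ∀ (σ : Type) (A B : σ →₀ ℕ) (p : MvPolynomial σ ℂ),
      MDH.dmon (A + B) p = MDH.dmon A (MDH.dmon B p)) (g : Fin n → (L → Fin n) → S (Fin n)) :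
    ∀ (N : ℕ) (A : Fin r → ℕ), ∑ s, A s = N → A ls = 0 → A ≠ 0 →
      (fun i => MDH.dmon (MDH.LNK_col A i) (HWB_F row ls g ∅ i)) ∈ HWB_W row ls g := by
  intro N
  induction N with
  | zero =>
    intro A hA _ hA0
    exfalso
    refine hA0 (funext fun s => ?_)
    exact Finset.sum_eq_zero_iff.1 hA s (Finset.mem_univ s)
  | succ N ih =>
    intro A hA hl hA0
    obtain ⟨s, hs⟩ : ∃ s, A s ≠ 0 := by
      by_contra hc
      refine hA0 (funext fun s => ?_)
      by_contra h
      exact hc ⟨s, h⟩
    have hsl : s ≠ ls := by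
      rintro rfl
      exact hs hl
    obtain ⟨A', hA'⟩ : ∃ A' : Fin r → ℕ, A' = Function.update A s (A s - 1) := ⟨_, rfl⟩
    have h1 : ∀ i : Fin n, MDH.LNK_col A i = Finsupp.single (s, i) 1 + MDH.LNK_col A' i := by
      intro i
      refine Finsupp.ext ?_
      rintro ⟨s', i'⟩
      rw [Finsupp.add_apply, MDH.LNK_col_apply, MDH.LNK_col_apply, Finsupp.single_apply]
      by_cases h2 : i = i'
      · rw [if_pos h2, if_pos h2]
        by_cases h3 : s = s'
        · rw [if_pos (by rw [h2, h3]), hA', ← h3, Function.update_self]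
          omega
        · rw [if_neg (fun h => h3 (Prod.mk.inj h).1), hA', Function.update_of_ne (Ne.symm h3),
            zero_add]
      · rw [if_neg h2, if_neg h2, if_neg (fun h => h2 (Prod.mk.inj h).2)]
    have h2 : (fun i => MDH.dmon (MDH.LNK_col A i) (HWB_F row ls g ∅ i)) =
        HWB_D s (fun i => MDH.dmon (MDH.LNK_col A' i) (HWB_F row ls g ∅ i)) := by
      funext i
      change _ = pderiv (s, i) _
      rw [h1, hD, HWB_pd]
    rw [h2]
    by_cases h3 : A' = 0
    · have h4 : (fun i => MDH.dmon (MDH.LNK_col A' i) (HWB_F row ls g ∅ i)) =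
          HWB_F row ls g ∅ := by
        funext i
        have h5 : MDH.LNK_col A' i = 0 := by
          refine Finsupp.ext ?_
          rintro ⟨s', i'⟩
          rw [MDH.LNK_col_apply, h3, Pi.zero_apply, ite_self, Finsupp.zero_apply]
        rw [h5, HWB_d0]
      rw [h4]
      exact HWB_DF_mem row ls s hsl g ∅
    · refine HWB_DW row ls s hsl g _ (ih A' ?_ ?_ h3)
      · have h5 := Finset.add_sum_erase Finset.univ A (Finset.mem_univ s)
        have h6 := Finset.add_sum_erase Finset.univ A' (Finset.mem_univ s)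
        have h7 : ∑ x ∈ Finset.univ.erase s, A' x = ∑ x ∈ Finset.univ.erase s, A x := by
          refine Finset.sum_congr rfl fun x hx => ?_
          rw [hA', Function.update_of_ne (Finset.ne_of_mem_erase hx)]
        have h8 : A' s = A s - 1 := by rw [hA', Function.update_self]
        omega
      · rw [hA', Function.update_of_ne (Ne.symm hsl)]
        exact hl

theorem HWB_sumU (g : Fin n → (L → Fin n) → S (Fin n)) (U : Finset L)
    (hU : ∀ x : L → Fin n, ∑ i, g i (fun β => if β ∈ U then i else x β) = 0) :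
    ∑ i, HWB_F row ls g U i = 0 := by
  rcases isEmpty_or_nonempty (Fin n) with he | ⟨⟨i0⟩⟩
  · exact Finset.sum_eq_zero fun i _ => he.elim i
  have h1 : ∀ i, HWB_F row ls g U i =
      ∑ x ∈ Finset.univ.filter (fun x : L → Fin n => ∀ α ∈ U, x α = i0),
        (∏ α ∈ Uᶜ, X (row α, x α)) *
          rename (fun i => (ls, i)) (g i (fun β => if β ∈ U then i else x β)) := by
    intro i
    unfold HWB_F
    rw [HWB_P_apply]
    have h2 : ∀ x : L → Fin n, (∏ α ∈ Uᶜ, X (row α, x α)) *
        rename (fun i => (ls, i)) (if ∀ α ∈ U, x α = i then g i x else 0) =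
        if ∀ α ∈ U, x α = i then
          (∏ α ∈ Uᶜ, (X (row α, x α) : MvPolynomial (Fin r × Fin n) ℂ)) *
            rename (fun i => (ls, i)) (g i x) else 0 := by
      intro x
      split_ifs
      · rfl
      · rw [map_zero, mul_zero]
    rw [Finset.sum_congr rfl fun x _ => h2 x, ← Finset.sum_filter]
    refine Finset.sum_nbij' (fun x β => if β ∈ U then i0 else x β)
      (fun x β => if β ∈ U then i else x β) ?_ ?_ ?_ ?_ ?_
    · intro x hx
      rw [Finset.mem_filter]
      exact ⟨Finset.mem_univ _, fun α hα => if_pos hα⟩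
    · intro x hx
      rw [Finset.mem_filter]
      exact ⟨Finset.mem_univ _, fun α hα => if_pos hα⟩
    · intro x hx
      rw [Finset.mem_filter] at hx
      funext β
      by_cases h : β ∈ U
      · exact (if_pos h).trans (hx.2 β h).symm
      · exact (if_neg h).trans (if_neg h)
    · intro x hx
      rw [Finset.mem_filter] at hx
      funext β
      by_cases h : β ∈ U
      · exact (if_pos h).trans (hx.2 β h).symm
      · exact (if_neg h).trans (if_neg h)
    · intro x hx
      rw [Finset.mem_filter] at hx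
      congr 1
      · refine Finset.prod_congr rfl fun α hα => ?_
        rw [Finset.mem_compl] at hα
        change _ = X (row α, if α ∈ U then i0 else x α)
        rw [if_neg hα]
      · have h3 : (fun β => if β ∈ U then i else if β ∈ U then i0 else x β) = x := by
          funext β
          by_cases h : β ∈ U
          · rw [if_pos h]
            exact (hx.2 β h).symm
          · rw [if_neg h, if_neg h]
        rw [h3]
  rw [Finset.sum_congr rfl fun i _ => h1 i, Finset.sum_comm]
  refine Finset.sum_eq_zero fun x _ => ?_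
  rw [← Finset.mul_sum, ← map_sum, hU, map_zero, mul_zero]

theorem HWB_main (hD : ∀ (σ : Type) (A B : σ →₀ ℕ) (p : MvPolynomial σ ℂ),
      MDH.dmon (A + B) p = MDH.dmon A (MDH.dmon B p)) (hrow : ∀ α, row α ≠ ls)
    (c : (L → Fin n) → S (Fin n))
    (hc : ∀ (k : ℕ) (U : Finset L), (U.Nonempty ∨ 1 ≤ k) → ∀ x : L → Fin n,
      ∑ i, MDH.dmon (Finsupp.single i k) (c (fun β => if β ∈ U then i else x β)) = 0)
    (A : Fin r → ℕ) (hA : A ≠ 0) :
    ∑ i, MDH.dmon (MDH.LNK_col A i) (HWB_P row ls ∅ c) = 0 := by
  obtain ⟨A', hA'⟩ : ∃ A' : Fin r → ℕ, A' = Function.update A ls 0 := ⟨_, rfl⟩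
  have h1 : ∀ i : Fin n, MDH.LNK_col A i = MDH.LNK_col A' i + Finsupp.single (ls, i) (A ls) := by
    intro i
    refine Finsupp.ext ?_
    rintro ⟨s', i'⟩
    rw [Finsupp.add_apply, MDH.LNK_col_apply, MDH.LNK_col_apply, Finsupp.single_apply]
    by_cases h2 : i = i'
    · rw [if_pos h2, if_pos h2]
      by_cases h3 : ls = s'
      · rw [if_pos (by rw [h2, h3]), hA', ← h3, Function.update_self]
        omega
      · rw [if_neg (fun h => h3 (Prod.mk.inj h).1), hA', Function.update_of_ne (Ne.symm h3),
          add_zero]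
    · rw [if_neg h2, if_neg h2, if_neg (fun h => h2 (Prod.mk.inj h).2), add_zero]
  have h2 : ∀ i : Fin n, MDH.dmon (MDH.LNK_col A i) (HWB_P row ls ∅ c) =
      MDH.dmon (MDH.LNK_col A' i)
        (HWB_F row ls (fun i x => MDH.dmon (Finsupp.single i (A ls)) (c x)) ∅ i) := by
    intro i
    have h3 : (fun x : L → Fin n => MDH.dmon (Finsupp.single i (A ls)) (c x)) =
        fun x => if ∀ α ∈ (∅ : Finset L), x α = i then
          MDH.dmon (Finsupp.single i (A ls)) (c x) else 0 := by
      funext x
      rw [if_pos]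
      intro α hα
      exact absurd hα (Finset.notMem_empty α)
    rw [h1, hD, HWB_last row ls hD hrow, h3]
    rfl
  rw [Finset.sum_congr rfl fun i _ => h2 i]
  by_cases h3 : A' = 0
  · have h4 : ∀ i : Fin n, MDH.LNK_col A' i = 0 := by
      intro i
      refine Finsupp.ext ?_
      rintro ⟨s', i'⟩
      rw [MDH.LNK_col_apply, h3, Pi.zero_apply, ite_self, Finsupp.zero_apply]
    rw [Finset.sum_congr rfl fun i _ => by rw [h4 i, HWB_d0]]
    refine HWB_sumU row ls _ ∅ fun x => hc (A ls) ∅ (Or.inr ?_) x
    by_contra h5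
    refine hA (funext fun s => ?_)
    by_cases h6 : s = ls
    · rw [h6, Pi.zero_apply]
      omega
    · have h7 := congrFun h3 s
      rw [hA', Function.update_of_ne h6] at h7
      exact h7
  · have h4 := HWB_A row ls hD (fun i x => MDH.dmon (Finsupp.single i (A ls)) (c x))
      (∑ s, A' s) A' rfl (by rw [hA', Function.update_self]) h3
    have h5 : ∀ R ∈ HWB_W row ls (fun i x => MDH.dmon (Finsupp.single i (A ls)) (c x)),
        ∑ i, R i = 0 := by
      intro R hR
      refine Submodule.span_induction (p := fun R _ => ∑ i, R i = 0) ?_ ?_ ?_ ?_ hR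
      · rintro R ⟨U, hU, rfl⟩
        exact HWB_sumU row ls _ U fun x => hc (A ls) U (Or.inl hU) x
      · exact Finset.sum_eq_zero fun i _ => rfl
      · intro R R' _ _ h h'
        simp only [Pi.add_apply]
        rw [Finset.sum_add_distrib, h, h', add_zero]
      · intro t R _ h
        simp only [Pi.smul_apply]
        rw [← Finset.smul_sum, h, smul_zero]
    exact h5 _ h4

/-! ### degrees -/

theorem HWB_rho (s : Fin r) (hs : s ≠ ls) (p : S (Fin n)) :
    IsWeightedHomogeneous (fun q : Fin r × Fin n => if q.1 = s then 1 else 0)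
      (rename (fun i => (ls, i)) p) 0 := by
  induction p using MvPolynomial.induction_on' with
  | monomial B t =>
    rw [rename_monomial]
    refine isWeightedHomogeneous_monomial _ _ _ ?_
    rw [Finsupp.weight_apply, Finsupp.sum]
    refine Finset.sum_eq_zero fun q hq => ?_
    have h1 := Finsupp.mapDomain_support hq
    rw [Finset.mem_image] at h1
    obtain ⟨j, _, rfl⟩ := h1
    rw [if_neg (fun h => hs h.symm), smul_zero]
  | add p p' hp hp' =>
    rw [map_add]
    exact hp.add hp'

theorem HWB_deg (s : Fin r) (hs : s ≠ ls) (g : (L → Fin n) → S (Fin n))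
    (A : (Fin r × Fin n) →₀ ℕ) (hA : A ∈ (HWB_P row ls ∅ g).support) :
    ∑ j, A (s, j) = (Finset.univ.filter (fun α => row α = s)).card := by
  have h1 : IsWeightedHomogeneous (fun q : Fin r × Fin n => if q.1 = s then 1 else 0)
      (HWB_P row ls ∅ g) (Finset.univ.filter (fun α => row α = s)).card := by
    rw [HWB_P_apply]
    refine IsWeightedHomogeneous.sum _ _ _ fun x _ => ?_
    have h2 := IsWeightedHomogeneous.prod (∅ᶜ : Finset L)
      (fun α => (X (row α, x α) : MvPolynomial (Fin r × Fin n) ℂ))
      (fun α => if row α = s then 1 else 0)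
      (w := fun q : Fin r × Fin n => if q.1 = s then 1 else 0)
      (fun α _ => isWeightedHomogeneous_X ℂ _ (row α, x α))
    have h3 := h2.mul (HWB_rho ls s hs (g x))
    rw [add_zero, Finset.compl_empty, ← Finset.card_filter] at h3
    rw [Finset.compl_empty]
    exact h3
  have h2 := h1 (mem_support_iff.1 hA)
  rw [← h2, Finsupp.weight_apply, Finsupp.sum_fintype _ _ (fun q => by rw [zero_smul]),
    Fintype.sum_prod_type, Finset.sum_eq_single s]
  · refine Finset.sum_congr rfl fun j _ => ?_
    rw [if_pos rfl, smul_eq_mul, mul_one]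
  · intro s' _ hs'
    refine Finset.sum_eq_zero fun j _ => ?_
    rw [if_neg hs', smul_zero]
  · intro h
    exact absurd (Finset.mem_univ s) h

/-! ### polarisation operators -/

theorem HWB_pol (s s' : Fin r) (hs' : s' ≠ ls) (c : (L → Fin n) → S (Fin n))
    (hc : ∀ α, row α = s' → ∃ α', α' ≠ α ∧ row α' = s ∧
      ∀ x : L → Fin n, c (fun β => x (Equiv.swap α α' β)) = - c x) :
    pol r n s s' (HWB_P row ls ∅ c) = 0 := by
  change ∑ j : Fin n, X (s, j) * pderiv (s', j) (HWB_P row ls ∅ c) = 0
  have h1 : ∀ j : Fin n, X (s, j) * pderiv (s', j) (HWB_P row ls ∅ c) =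
      ∑ α ∈ (∅ᶜ : Finset L).filter (fun α => row α = s'),
        X (s, j) * HWB_P row ls (insert α ∅) (fun x => if x α = j then c x else 0) := by
    intro j
    rw [HWB_step row ls s' hs', Finset.mul_sum]
  rw [Finset.sum_congr rfl fun j _ => h1 j, Finset.sum_comm]
  refine Finset.sum_eq_zero fun α hα => ?_
  obtain ⟨α', hne, hrow, hsw⟩ := hc α (Finset.mem_filter.1 hα).2
  have h2 : ∑ j : Fin n, X (s, j) * HWB_P row ls (insert α ∅)
      (fun x => if x α = j then c x else 0) = ∑ x : L → Fin n, X (s, x α) *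
        ((∏ β ∈ (Finset.univ.erase α), (X (row β, x β) : MvPolynomial (Fin r × Fin n) ℂ)) *
          rename (fun i => (ls, i)) (c x)) := by
    simp only [HWB_P_apply, Finset.mul_sum]
    rw [Finset.sum_comm]
    refine Finset.sum_congr rfl fun x _ => ?_
    rw [Finset.sum_eq_single (x α)]
    · rw [if_pos rfl, Finset.compl_insert, Finset.compl_empty]
    · intro j _ hj
      rw [if_neg (Ne.symm hj), map_zero, mul_zero, mul_zero]
    · intro h
      exact absurd (Finset.mem_univ _) h
  rw [h2]
  obtain ⟨G, hG⟩ : ∃ G : (L → Fin n) → MvPolynomial (Fin r × Fin n) ℂ, ∀ x, G x = X (s, x α) *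
        ((∏ β ∈ (Finset.univ.erase α), (X (row β, x β) : MvPolynomial (Fin r × Fin n) ℂ)) *
          rename (fun i => (ls, i)) (c x)) := ⟨_, fun _ => rfl⟩
  rw [Finset.sum_congr rfl fun x _ => (hG x).symm]
  have h3 : ∀ x : L → Fin n, G (fun β => x (Equiv.swap α α' β)) = - G x := by
    intro x
    have hmem : α' ∈ Finset.univ.erase α := Finset.mem_erase.2 ⟨hne, Finset.mem_univ _⟩
    rw [hG, hG, hsw, ← Finset.mul_prod_erase _ _ hmem, ← Finset.mul_prod_erase _ _ hmem,
      Equiv.swap_apply_left, Equiv.swap_apply_right, hrow, map_neg]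
    have h4 : ∏ β ∈ (Finset.univ.erase α).erase α',
        (X (row β, x (Equiv.swap α α' β)) : MvPolynomial (Fin r × Fin n) ℂ) =
        ∏ β ∈ (Finset.univ.erase α).erase α', X (row β, x β) := by
      refine Finset.prod_congr rfl fun β hβ => ?_
      have h5 := Finset.mem_erase.1 hβ
      rw [Equiv.swap_apply_of_ne_of_ne (Finset.mem_erase.1 h5.2).1 h5.1]
    rw [h4]
    ring
  have h4 : ∑ x, G x = ∑ x : L → Fin n, G (fun β => x (Equiv.swap α α' β)) := by
    refine Finset.sum_nbij' (fun x β => x (Equiv.swap α α' β)) (fun x β => x (Equiv.swap α α' β))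
      (fun _ _ => Finset.mem_univ _) (fun _ _ => Finset.mem_univ _) ?_ ?_ ?_
    · intro x _
      funext β
      exact congrArg x (Equiv.swap_apply_self α α' β)
    · intro x _
      funext β
      exact congrArg x (Equiv.swap_apply_self α α' β)
    · intro x _
      refine congrArg G ?_
      funext β
      exact (congrArg x (Equiv.swap_apply_self α α' β)).symm
  rw [Finset.sum_congr rfl fun x _ => h3 x, Finset.sum_neg_distrib] at h4
  exact self_eq_neg.1 h4

end gen

section spec

variable {a b n : ℕ}

/-- the function of the letters -/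
def HWB_cl (c : T a b (Fin n)) : (Fin a ⊕ Fin b → Fin n) → S (Fin n) :=
  fun y => c (fun s => y (Sum.inl s), fun t => y (Sum.inr t))

def HWB_row {r : ℕ} (h : a < r) (hb : b ≤ a) : Fin a ⊕ Fin b → Fin r :=
  Sum.elim (fun s => ⟨s.val, by omega⟩) (fun t => ⟨t.val, by omega⟩)

theorem HWB_psi {r : ℕ} (h : a < r) (hb : b ≤ a) (c : T a b (Fin n)) :
    psi' h hb c = HWB_P (HWB_row h hb) ⟨r - 1, by omega⟩ ∅ (HWB_cl c) := by
  rw [HWB_P_apply]
  change ∑ x : Ix a b (Fin n), _ = _
  rw [← Equiv.sum_comp (Equiv.sumArrowEquivProdArrow (Fin a) (Fin b) (Fin n))]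
  refine Finset.sum_congr rfl fun y _ => ?_
  rw [Finset.compl_empty, Fintype.prod_sum_type]
  rfl

theorem HWB_swl (c : T a b (Fin n)) (hc : ∀ (τ : Equiv.Perm (Fin a)) (x : Ix a b (Fin n)),
      c (x.1 ∘ τ, x.2) = ((Equiv.Perm.sign τ : ℤ) : ℂ) • c x) (s s' : Fin a) (hs : s ≠ s')
    (y : Fin a ⊕ Fin b → Fin n) :
    HWB_cl c (fun β => y (Equiv.swap (Sum.inl s) (Sum.inl s') β)) = - HWB_cl c y := by
  have h1 := hc (Equiv.swap s s') (fun s => y (Sum.inl s), fun t => y (Sum.inr t))
  rw [Equiv.Perm.sign_swap hs] at h1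
  have h2 : (((fun s => y (Sum.inl s)) ∘ (Equiv.swap s s') : Fin a → Fin n),
      fun t => y (Sum.inr t)) =
      (fun q => y (Equiv.swap (Sum.inl s) (Sum.inl s') (Sum.inl q)),
        fun t : Fin b => y (Equiv.swap (Sum.inl s) (Sum.inl s') (Sum.inr t))) := by
    refine Prod.ext ?_ ?_
    · funext q
      change y (Sum.inl (Equiv.swap s s' q)) = y (Equiv.swap (Sum.inl s) (Sum.inl s') (Sum.inl q))
      rw [Sum.inl_injective.swap_apply]
    · funext t
      change y (Sum.inr t) = y (Equiv.swap (Sum.inl s) (Sum.inl s') (Sum.inr t))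
      rw [Equiv.swap_apply_of_ne_of_ne Sum.inr_ne_inl Sum.inr_ne_inl]
  unfold HWB_cl
  refine (congrArg c h2).symm.trans (h1.trans ?_)
  rw [Units.val_neg, Units.val_one, Int.cast_neg, Int.cast_one, neg_smul, one_smul]

theorem HWB_swr (c : T a b (Fin n)) (hc : ∀ (τ : Equiv.Perm (Fin b)) (x : Ix a b (Fin n)),
      c (x.1, x.2 ∘ τ) = ((Equiv.Perm.sign τ : ℤ) : ℂ) • c x) (s s' : Fin b) (hs : s ≠ s')
    (y : Fin a ⊕ Fin b → Fin n) :
    HWB_cl c (fun β => y (Equiv.swap (Sum.inr s) (Sum.inr s') β)) = - HWB_cl c y := by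
  have h1 := hc (Equiv.swap s s') (fun s => y (Sum.inl s), fun t => y (Sum.inr t))
  rw [Equiv.Perm.sign_swap hs] at h1
  have h2 : ((fun q => y (Sum.inl q) : Fin a → Fin n),
      ((fun t => y (Sum.inr t)) ∘ (Equiv.swap s s') : Fin b → Fin n)) =
      (fun q => y (Equiv.swap (Sum.inr s) (Sum.inr s') (Sum.inl q)),
        fun t : Fin b => y (Equiv.swap (Sum.inr s) (Sum.inr s') (Sum.inr t))) := by
    refine Prod.ext ?_ ?_
    · funext t
      change y (Sum.inl t) = y (Equiv.swap (Sum.inr s) (Sum.inr s') (Sum.inl t))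
      rw [Equiv.swap_apply_of_ne_of_ne Sum.inl_ne_inr Sum.inl_ne_inr]
    · funext q
      change y (Sum.inr (Equiv.swap s s' q)) = y (Equiv.swap (Sum.inr s) (Sum.inr s') (Sum.inr q))
      rw [Sum.inr_injective.swap_apply]
  unfold HWB_cl
  refine (congrArg c h2).symm.trans (h1.trans ?_)
  rw [Units.val_neg, Units.val_one, Int.cast_neg, Int.cast_one, neg_smul, one_smul]

/-- vanishing from a swap -/
theorem HWB_van {M L V : Type} [DecidableEq L] [AddCommGroup M] [Module ℂ M] (c : (L → V) → M)
    (α α' : L) (hsw : ∀ y : L → V, c (fun β => y (Equiv.swap α α' β)) = - c y) (y : L → V)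
    (hy : y α = y α') : c y = 0 := by
  have h1 : (fun β => y (Equiv.swap α α' β)) = y := by
    funext β
    by_cases h2 : β = α
    · rw [h2, Equiv.swap_apply_left, hy]
    · by_cases h3 : β = α'
      · rw [h3, Equiv.swap_apply_right, hy]
      · rw [Equiv.swap_apply_of_ne_of_ne h2 h3]
  have h2 := hsw y
  rw [h1] at h2
  have h3 : (2 : ℂ) • c y = 0 := by
    rw [two_smul]
    nth_rewrite 1 [h2]
    exact neg_add_cancel _
  rcases smul_eq_zero.1 h3 with h4 | h4
  · exact absurd h4 two_ne_zero
  · exact h4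

theorem HWB_cond (c : T a b (Fin n)) (hc : c ∈ Har2 a b n) (k : ℕ)
    (U : Finset (Fin a ⊕ Fin b)) (hU : U.Nonempty ∨ 1 ≤ k) (x : Fin a ⊕ Fin b → Fin n) :
    ∑ i, MDH.dmon (Finsupp.single i k) (HWB_cl c (fun β => if β ∈ U then i else x β)) = 0 := by
  obtain ⟨h1, h2, h3, h4, h5, h6⟩ := hc
  by_cases hne : U.Nonempty
  · by_cases hl : ∃ s, Sum.inl s ∈ U
    · obtain ⟨s, hs⟩ := hl
      by_cases hl2 : ∃ s', s ≠ s' ∧ Sum.inl s' ∈ U
      · obtain ⟨s', hss, hs'⟩ := hl2
        refine Finset.sum_eq_zero fun i _ => ?_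
        rw [HWB_van (HWB_cl c) (Sum.inl s) (Sum.inl s') (HWB_swl c h1 s s' hss) _
          (by rw [if_pos hs, if_pos hs']), map_zero]
      · have hl3 : ∀ q, Sum.inl q ∈ U ↔ q = s := by
          intro q
          constructor
          · intro hq
            by_contra hqs
            exact hl2 ⟨q, Ne.symm hqs, hq⟩
          · rintro rfl
            exact hs
        by_cases hr : ∃ t, Sum.inr t ∈ U
        · obtain ⟨t, ht⟩ := hr
          by_cases hr2 : ∃ t', t ≠ t' ∧ Sum.inr t' ∈ U
          · obtain ⟨t', htt, ht'⟩ := hr2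
            refine Finset.sum_eq_zero fun i _ => ?_
            rw [HWB_van (HWB_cl c) (Sum.inr t) (Sum.inr t') (HWB_swr c h2 t t' htt) _
              (by rw [if_pos ht, if_pos ht']), map_zero]
          · have hr3 : ∀ q, Sum.inr q ∈ U ↔ q = t := by
              intro q
              constructor
              · intro hq
                by_contra hqs
                exact hr2 ⟨q, Ne.symm hqs, hq⟩
              · rintro rfl
                exact ht
            have h7 := h5 s t (fun s => x (Sum.inl s), fun t => x (Sum.inr t)) k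
            rw [← h7]
            refine Finset.sum_congr rfl fun i _ => ?_
            unfold HWB_cl
            congr 2
            refine Prod.ext ?_ ?_
            · funext q
              change (if Sum.inl q ∈ U then i else x (Sum.inl q)) =
                Function.update (fun s => x (Sum.inl s)) s i q
              rw [Function.update_apply]
              simp only [hl3]
            · funext q
              change (if Sum.inr q ∈ U then i else x (Sum.inr q)) =
                Function.update (fun t => x (Sum.inr t)) t i q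
              rw [Function.update_apply]
              simp only [hr3]
        · have hr3 : ∀ q, ¬ Sum.inr q ∈ U := fun q hq => hr ⟨q, hq⟩
          have h7 := h3 s (fun s => x (Sum.inl s), fun t => x (Sum.inr t)) k
          rw [← h7]
          refine Finset.sum_congr rfl fun i _ => ?_
          unfold HWB_cl
          congr 2
          refine Prod.ext ?_ ?_
          · funext q
            change (if Sum.inl q ∈ U then i else x (Sum.inl q)) =
              Function.update (fun s => x (Sum.inl s)) s i q
            rw [Function.update_apply]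
            simp only [hl3]
          · funext q
            exact if_neg (hr3 q)
    · have hl3 : ∀ q, ¬ Sum.inl q ∈ U := fun q hq => hl ⟨q, hq⟩
      obtain ⟨t, ht⟩ : ∃ t, Sum.inr t ∈ U := by
        obtain ⟨β, hβ⟩ := hne
        rcases β with q | q
        · exact absurd hβ (hl3 q)
        · exact ⟨q, hβ⟩
      by_cases hr2 : ∃ t', t ≠ t' ∧ Sum.inr t' ∈ U
      · obtain ⟨t', htt, ht'⟩ := hr2
        refine Finset.sum_eq_zero fun i _ => ?_
        rw [HWB_van (HWB_cl c) (Sum.inr t) (Sum.inr t') (HWB_swr c h2 t t' htt) _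
          (by rw [if_pos ht, if_pos ht']), map_zero]
      · have hr3 : ∀ q, Sum.inr q ∈ U ↔ q = t := by
          intro q
          constructor
          · intro hq
            by_contra hqs
            exact hr2 ⟨q, Ne.symm hqs, hq⟩
          · rintro rfl
            exact ht
        have h7 := h4 t (fun s => x (Sum.inl s), fun t => x (Sum.inr t)) k
        rw [← h7]
        refine Finset.sum_congr rfl fun i _ => ?_
        unfold HWB_cl
        congr 2
        refine Prod.ext ?_ ?_
        · funext q
          exact if_neg (hl3 q)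
        · funext q
          change (if Sum.inr q ∈ U then i else x (Sum.inr q)) =
            Function.update (fun t => x (Sum.inr t)) t i q
          rw [Function.update_apply]
          simp only [hr3]
  · have hk : 1 ≤ k := by
      rcases hU with h | h
      · exact absurd h hne
      · exact h
    have h7 := h6 (fun s => x (Sum.inl s), fun t => x (Sum.inr t)) k hk
    rw [← h7]
    refine Finset.sum_congr rfl fun i _ => ?_
    rw [Finset.not_nonempty_iff_eq_empty] at hne
    unfold HWB_cl
    congr 2
    refine Prod.ext ?_ ?_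
    · funext q
      exact if_neg (by rw [hne]; exact Finset.notMem_empty _)
    · funext q
      exact if_neg (by rw [hne]; exact Finset.notMem_empty _)

end spec

theorem thm_HWB (hDHC : MDH.St_DHC) : St_HWB := by
  intro r n a b h hb c hc
  have hrow : ∀ α, HWB_row h hb α ≠ (⟨r - 1, by omega⟩ : Fin r) := by
    intro α hα
    have h1 := congrArg Fin.val hα
    rcases α with q | q
    · have h2 : (HWB_row h hb (Sum.inl q)).val = q.val := rfl
      have h3 := q.isLt
      have h4 : q.val = r - 1 := h2.symm.trans h1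
      omega
    · have h2 : (HWB_row h hb (Sum.inr q)).val = q.val := rfl
      have h3 := q.isLt
      have h4 : q.val = r - 1 := h2.symm.trans h1
      omega
  have hne : ∀ s : Fin r, s.val + 1 < r → s ≠ ⟨r - 1, by omega⟩ := by
    intro s hs h1
    have h2 : s.val = r - 1 := congrArg Fin.val h1
    omega
  refine ⟨?_, ?_, ?_⟩
  · rw [hDHC.2 r n, HWB_psi h hb c]
    intro A hA
    rw [MDH.LNK_pps]
    exact HWB_main _ _ hDHC.1 hrow _ (HWB_cond c hc) A hA
  · intro A hA s hs
    rw [HWB_psi h hb c] at hA
    rw [HWB_deg _ _ s (hne s hs) _ A hA, Finset.card_filter, Fintype.sum_sum_type]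
    have h1 : ∀ q : Fin a, (HWB_row h hb (Sum.inl q) = s) ↔ q.val = s.val := fun q => Fin.ext_iff
    have h2 : ∀ q : Fin b, (HWB_row h hb (Sum.inr q) = s) ↔ q.val = s.val := fun q => Fin.ext_iff
    have h3 : ∀ (m : ℕ), (∑ q : Fin m, if q.val = s.val then 1 else 0) =
        if s.val < m then 1 else 0 := by
      intro m
      split_ifs with h4
      · rw [Finset.sum_eq_single (⟨s.val, h4⟩ : Fin m)]
        · exact if_pos rfl
        · intro q _ hq
          exact if_neg fun h5 => hq (Fin.ext h5)
        · intro h5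
          exact absurd (Finset.mem_univ _) h5
      · refine Finset.sum_eq_zero fun q _ => if_neg fun h5 => ?_
        have h6 := q.isLt
        omega
    simp only [h1, h2]
    rw [h3, h3]
    split_ifs <;> omega
  · intro s s' hss hs'
    rw [HWB_psi h hb c]
    refine HWB_pol _ _ s s' (hne s' hs') _ ?_
    have hlt : s.val < s'.val := hss
    rintro (q | q) hq
    · have h1 : q.val = s'.val := congrArg Fin.val hq
      have h2 := q.isLt
      refine ⟨Sum.inl ⟨s.val, by omega⟩, ?_, rfl, ?_⟩
      · intro h3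
        have h4 := congrArg Fin.val (Sum.inl_injective h3)
        have h5 : s.val = q.val := h4
        omega
      · intro y
        refine HWB_swl c hc.1 _ _ ?_ y
        intro h3
        have h4 : q.val = s.val := congrArg Fin.val h3
        omega
    · have h1 : q.val = s'.val := congrArg Fin.val hq
      have h2 := q.isLt
      refine ⟨Sum.inr ⟨s.val, by omega⟩, ?_, rfl, ?_⟩
      · intro h3
        have h4 := congrArg Fin.val (Sum.inr_injective h3)
        have h5 : s.val = q.val := h4
        omega
      · intro y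
        refine HWB_swr c hc.2.1 _ _ ?_ y
        intro h3
        have h4 : q.val = s.val := congrArg Fin.val h3
        omega

end MDC
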