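import Pool.Agent.MDC.StE
import Pool.Agent.MDH.DHC

/-!
# MDC / HWC: `psi ∘ psi'` is a scalar on the harmonic functions with the Garnir relation (helper43)
-/

set_option autoImplicit false

open MvPolynomial

namespace MDC

section combinatorics

variable {a b n : ℕ}

/-- first tuple after the exchanges of `Q` -/
private noncomputable def HWC_z (J : Fin a → Fin n) (K : Fin b → Fin n) (Q : Finset (Fin b)) :
    Fin a → Fin n :=
  fun u => if h : u.val < b then (if (⟨u.val, h⟩ : Fin b) ∈ Q then K ⟨u.val, h⟩ else J u) else J u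

/-- second tuple after the exchanges of `Q` -/
private noncomputable def HWC_k (hb : b ≤ a) (J : Fin a → Fin n) (K : Fin b → Fin n)
    (Q : Finset (Fin b)) : Fin b → Fin n :=
  fun t => if t ∈ Q then J (Fin.castLE hb t) else K t

private theorem HWC_z_in (hb : b ≤ a) (J : Fin a → Fin n) (K : Fin b → Fin n)
    (Q : Finset (Fin b)) (t : Fin b) (ht : t ∈ Q) : HWC_z J K Q (Fin.castLE hb t) = K t := by
  unfold HWC_z
  have h : (Fin.castLE hb t).val < b := t.isLt
  rw [dif_pos h]
  exact if_pos ht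

private theorem HWC_z_out (hb : b ≤ a) (J : Fin a → Fin n) (K : Fin b → Fin n)
    (Q : Finset (Fin b)) (u : Fin a) (hu : ∀ t ∈ Q, Fin.castLE hb t ≠ u) : HWC_z J K Q u = J u := by
  unfold HWC_z
  split_ifs with h h'
  · exact absurd rfl (hu _ h')
  · rfl
  · rfl

private theorem HWC_k_in (hb : b ≤ a) (J : Fin a → Fin n) (K : Fin b → Fin n)
    (Q : Finset (Fin b)) (t : Fin b) (ht : t ∈ Q) : HWC_k hb J K Q t = J (Fin.castLE hb t) :=
  if_pos ht

private theorem HWC_k_out (hb : b ≤ a) (J : Fin a → Fin n) (K : Fin b → Fin n)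
    (Q : Finset (Fin b)) (t : Fin b) (ht : t ∉ Q) : HWC_k hb J K Q t = K t :=
  if_neg ht

private theorem HWC_castLE_ne (hb : b ≤ a) {t t' : Fin b} (h : t ≠ t') :
    Fin.castLE hb t ≠ Fin.castLE hb t' := fun h' => h (Fin.castLE_injective hb h')

/-- the term of `u` outside of `Q'` -/
private theorem HWC_step1 (hb : b ≤ a) (J : Fin a → Fin n) (K : Fin b → Fin n)
    (Q : Finset (Fin b)) (t0 : Fin b) (ht0 : t0 ∉ Q) (u : Fin a)
    (hu : ∀ t ∈ Q, Fin.castLE hb t ≠ u) :
    Function.update (HWC_z J K Q) u (HWC_k hb J K Q t0) =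
      HWC_z (J ∘ Equiv.swap u (Fin.castLE hb t0)) K (insert t0 Q) ∘
        Equiv.swap u (Fin.castLE hb t0) ∧
    Function.update (HWC_k hb J K Q) t0 (HWC_z J K Q u) =
      HWC_k hb (J ∘ Equiv.swap u (Fin.castLE hb t0)) K (insert t0 Q) := by
  have hq0 : ∀ t ∈ Q, t ≠ t0 := fun t ht h => ht0 (h ▸ ht)
  constructor
  · funext v
    rw [Function.comp_apply]
    by_cases hv : v = u
    · rw [hv, Function.update_self, Equiv.swap_apply_left, HWC_z_in hb _ _ _ _
        (Finset.mem_insert_self _ _), HWC_k_out hb _ _ _ _ ht0]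
    · rw [Function.update_of_ne hv]
      by_cases hv0 : v = Fin.castLE hb t0
      · rw [hv0, Equiv.swap_apply_right]
        rw [HWC_z_out hb J K Q _ (fun t ht => HWC_castLE_ne hb (hq0 t ht))]
        rw [HWC_z_out hb _ K (insert t0 Q) u, Function.comp_apply, Equiv.swap_apply_left]
        intro t ht
        rcases Finset.mem_insert.1 ht with h | h
        · rw [h, ← hv0]
          exact hv
        · exact hu t h
      · rw [Equiv.swap_apply_of_ne_of_ne hv hv0]
        by_cases hv1 : ∃ t ∈ Q, Fin.castLE hb t = v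
        · obtain ⟨t, ht, rfl⟩ := hv1
          rw [HWC_z_in hb _ _ _ _ ht, HWC_z_in hb _ _ _ _ (Finset.mem_insert_of_mem ht)]
        · have hv2 : ∀ t ∈ Q, Fin.castLE hb t ≠ v := fun t ht h => hv1 ⟨t, ht, h⟩
          rw [HWC_z_out hb _ _ _ _ hv2, HWC_z_out hb, Function.comp_apply,
            Equiv.swap_apply_of_ne_of_ne hv hv0]
          intro t ht
          rcases Finset.mem_insert.1 ht with h | h
          · rw [h]
            exact fun h' => hv0 h'.symm
          · exact hv2 t h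
  · funext t
    by_cases ht : t = t0
    · rw [ht, Function.update_self, HWC_k_in hb _ _ _ _ (Finset.mem_insert_self _ _),
        HWC_z_out hb _ _ _ _ hu, Function.comp_apply, Equiv.swap_apply_right]
    · rw [Function.update_of_ne ht]
      by_cases ht1 : t ∈ Q
      · rw [HWC_k_in hb _ _ _ _ ht1, HWC_k_in hb _ _ _ _ (Finset.mem_insert_of_mem ht1),
          Function.comp_apply, Equiv.swap_apply_of_ne_of_ne (hu t ht1) (HWC_castLE_ne hb ht)]
      · rw [HWC_k_out hb _ _ _ _ ht1, HWC_k_out hb]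
        intro h
        rcases Finset.mem_insert.1 h with h | h
        · exact ht h
        · exact ht1 h

/-- the term of `u = t1 ∈ Q'` -/
private theorem HWC_step2 (hb : b ≤ a) (J : Fin a → Fin n) (K : Fin b → Fin n)
    (Q : Finset (Fin b)) (t0 : Fin b) (ht0 : t0 ∉ Q) (t1 : Fin b) (ht1 : t1 ∈ Q) :
    Function.update (HWC_z J K Q) (Fin.castLE hb t1) (HWC_k hb J K Q t0) =
      HWC_z (J ∘ Equiv.swap (Fin.castLE hb t1) (Fin.castLE hb t0)) K (insert t0 (Q.erase t1)) ∘
        Equiv.swap (Fin.castLE hb t1) (Fin.castLE hb t0) ∧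
    Function.update (HWC_k hb J K Q) t0 (HWC_z J K Q (Fin.castLE hb t1)) =
      HWC_k hb (J ∘ Equiv.swap (Fin.castLE hb t1) (Fin.castLE hb t0)) K (insert t0 (Q.erase t1)) ∘
        Equiv.swap t1 t0 := by
  have hq0 : ∀ t ∈ Q, t ≠ t0 := fun t ht h => ht0 (h ▸ ht)
  have h10 : t1 ≠ t0 := hq0 t1 ht1
  constructor
  · funext v
    rw [Function.comp_apply]
    by_cases hv : v = Fin.castLE hb t1
    · rw [hv, Function.update_self, Equiv.swap_apply_left, HWC_z_in hb _ _ _ _
        (Finset.mem_insert_self _ _), HWC_k_out hb _ _ _ _ ht0]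
    · rw [Function.update_of_ne hv]
      by_cases hv0 : v = Fin.castLE hb t0
      · rw [hv0, Equiv.swap_apply_right]
        rw [HWC_z_out hb J K Q _ (fun t ht => HWC_castLE_ne hb (hq0 t ht))]
        rw [HWC_z_out hb _ K (insert t0 (Q.erase t1)) _, Function.comp_apply,
          Equiv.swap_apply_left]
        intro t ht
        rcases Finset.mem_insert.1 ht with h | h
        · rw [h]
          exact HWC_castLE_ne hb h10.symm
        · exact HWC_castLE_ne hb (Finset.ne_of_mem_erase h)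
      · rw [Equiv.swap_apply_of_ne_of_ne hv hv0]
        by_cases hv1 : ∃ t ∈ Q, Fin.castLE hb t = v
        · obtain ⟨t, ht, rfl⟩ := hv1
          have htt : t ≠ t1 := fun h => hv (by rw [h])
          rw [HWC_z_in hb _ _ _ _ ht, HWC_z_in hb _ _ _ _
            (Finset.mem_insert_of_mem (Finset.mem_erase.2 ⟨htt, ht⟩))]
        · have hv2 : ∀ t ∈ Q, Fin.castLE hb t ≠ v := fun t ht h => hv1 ⟨t, ht, h⟩
          rw [HWC_z_out hb _ _ _ _ hv2, HWC_z_out hb, Function.comp_apply,
            Equiv.swap_apply_of_ne_of_ne hv hv0]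
          intro t ht
          rcases Finset.mem_insert.1 ht with h | h
          · rw [h]
            exact fun h' => hv0 h'.symm
          · exact hv2 t (Finset.mem_of_mem_erase h)
  · funext t
    rw [Function.comp_apply]
    by_cases ht : t = t0
    · rw [ht, Function.update_self, Equiv.swap_apply_right, HWC_z_in hb _ _ _ _ ht1,
        HWC_k_out hb]
      intro h
      rcases Finset.mem_insert.1 h with h | h
      · exact h10 h
      · exact (Finset.ne_of_mem_erase h) rfl
    · rw [Function.update_of_ne ht]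
      by_cases htt : t = t1
      · rw [htt, Equiv.swap_apply_left, HWC_k_in hb _ _ _ _ ht1,
          HWC_k_in hb _ _ _ _ (Finset.mem_insert_self _ _), Function.comp_apply,
          Equiv.swap_apply_right]
      · rw [Equiv.swap_apply_of_ne_of_ne htt ht]
        by_cases ht2 : t ∈ Q
        · rw [HWC_k_in hb _ _ _ _ ht2, HWC_k_in hb _ _ _ _
            (Finset.mem_insert_of_mem (Finset.mem_erase.2 ⟨htt, ht2⟩)),
            Function.comp_apply, Equiv.swap_apply_of_ne_of_ne (HWC_castLE_ne hb htt)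
              (HWC_castLE_ne hb ht)]
        · rw [HWC_k_out hb _ _ _ _ ht2, HWC_k_out hb]
          intro h
          rcases Finset.mem_insert.1 h with h | h
          · exact ht h
          · exact ht2 (Finset.mem_of_mem_erase h)

variable (c : T a b (Fin n))

/-- the sum over the permutations -/
private noncomputable def HWC_W (hb : b ≤ a) (J : Fin a → Fin n) (K : Fin b → Fin n)
    (Q : Finset (Fin b)) : S (Fin n) :=
  ∑ σ : Equiv.Perm (Fin a), ((Equiv.Perm.sign σ : ℤ) : ℂ) • c (HWC_z (J ∘ σ) K Q, HWC_k hb (J ∘ σ) K Q)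

private theorem HWC_sgn {m : ℕ} (σ τ : Equiv.Perm (Fin m)) :
    ((Equiv.Perm.sign (σ * τ) : ℤ) : ℂ) =
      ((Equiv.Perm.sign σ : ℤ) : ℂ) * ((Equiv.Perm.sign τ : ℤ) : ℂ) := by
  rw [Equiv.Perm.sign_mul]
  push_cast
  rfl

private theorem HWC_W_zero (hb : b ≤ a) (J : Fin a → Fin n) (K : Fin b → Fin n)
    (hA : ∀ (τ : Equiv.Perm (Fin a)) (x : Ix a b (Fin n)),
      c (x.1 ∘ τ, x.2) = ((Equiv.Perm.sign τ : ℤ) : ℂ) • c x) :
    HWC_W c hb J K ∅ = ((a.factorial : ℕ) : ℂ) • c (J, K) := by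
  have h1 : ∀ σ : Equiv.Perm (Fin a), ((Equiv.Perm.sign σ : ℤ) : ℂ) •
      c (HWC_z (J ∘ σ) K ∅, HWC_k hb (J ∘ σ) K ∅) = c (J, K) := by
    intro σ
    have h2 : HWC_z (J ∘ σ) K ∅ = J ∘ σ := by
      funext u
      exact HWC_z_out hb _ _ _ _ (fun t ht => absurd ht (Finset.notMem_empty t))
    have h3 : HWC_k hb (J ∘ σ) K ∅ = K := by
      funext t
      exact HWC_k_out hb _ _ _ _ (Finset.notMem_empty t)
    have h4 := hA σ (J, K)
    rw [h2, h3]
    show ((Equiv.Perm.sign σ : ℤ) : ℂ) • c ((J, K).1 ∘ σ, (J, K).2) = _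
    rw [h4, smul_smul]
    rcases Int.units_eq_one_or (Equiv.Perm.sign σ) with h | h <;> rw [h] <;> simp
  unfold HWC_W
  rw [Finset.sum_congr rfl fun σ _ => h1 σ, Finset.sum_const, Finset.card_univ,
    Fintype.card_perm, Fintype.card_fin, Nat.cast_smul_eq_nsmul]

private theorem HWC_W_step (hb : b ≤ a) (J : Fin a → Fin n) (K : Fin b → Fin n)
    (hA : ∀ (τ : Equiv.Perm (Fin a)) (x : Ix a b (Fin n)),
      c (x.1 ∘ τ, x.2) = ((Equiv.Perm.sign τ : ℤ) : ℂ) • c x)
    (hB : ∀ (τ : Equiv.Perm (Fin b)) (x : Ix a b (Fin n)),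
      c (x.1, x.2 ∘ τ) = ((Equiv.Perm.sign τ : ℤ) : ℂ) • c x)
    (hG : Gar c) (Q : Finset (Fin b)) (t0 : Fin b) (ht0 : t0 ∉ Q) :
    HWC_W c hb J K Q = ((a - Q.card : ℕ) : ℂ) • HWC_W c hb J K (insert t0 Q) -
      ∑ t ∈ Q, HWC_W c hb J K (insert t0 (Q.erase t)) := by
  set e : Fin b ↪ Fin a := ⟨Fin.castLE hb, Fin.castLE_injective hb⟩ with he
  have hterm : ∀ u : Fin a, ∑ σ : Equiv.Perm (Fin a), ((Equiv.Perm.sign σ : ℤ) : ℂ) •
      c (Function.update (HWC_z (J ∘ σ) K Q) u (HWC_k hb (J ∘ σ) K Q t0),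
        Function.update (HWC_k hb (J ∘ σ) K Q) t0 (HWC_z (J ∘ σ) K Q u)) =
      if h : ∃ t ∈ Q, Fin.castLE hb t = u then - HWC_W c hb J K (insert t0 (Q.erase h.choose))
      else HWC_W c hb J K (insert t0 Q) := by
    intro u
    by_cases hu : ∃ t ∈ Q, Fin.castLE hb t = u
    · rw [dif_pos hu]
      obtain ⟨h1, h2⟩ := hu.choose_spec
      set t1 := hu.choose with ht1
      unfold HWC_W
      rw [← Finset.sum_neg_distrib]
      refine Eq.trans ?_ (Equiv.sum_comp
        (Equiv.mulRight (Equiv.swap (Fin.castLE hb t1) (Fin.castLE hb t0))) _)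
      refine Finset.sum_congr rfl fun σ _ => ?_
      rw [Equiv.coe_mulRight, HWC_sgn, Equiv.Perm.coe_mul, ← Function.comp_assoc, ← h2]
      obtain ⟨h3, h4⟩ := HWC_step2 hb (J ∘ σ) K Q t0 ht0 t1 h1
      rw [h3, h4]
      have h5 := hA (Equiv.swap (Fin.castLE hb t1) (Fin.castLE hb t0))
        (HWC_z ((J ∘ σ) ∘ Equiv.swap (Fin.castLE hb t1) (Fin.castLE hb t0)) K
          (insert t0 (Q.erase t1)),
         HWC_k hb ((J ∘ σ) ∘ Equiv.swap (Fin.castLE hb t1) (Fin.castLE hb t0)) K
          (insert t0 (Q.erase t1)) ∘ Equiv.swap t1 t0)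
      have h6 := hB (Equiv.swap t1 t0)
        (HWC_z ((J ∘ σ) ∘ Equiv.swap (Fin.castLE hb t1) (Fin.castLE hb t0)) K
          (insert t0 (Q.erase t1)),
         HWC_k hb ((J ∘ σ) ∘ Equiv.swap (Fin.castLE hb t1) (Fin.castLE hb t0)) K
          (insert t0 (Q.erase t1)))
      dsimp only at h5 h6
      have h7 : t1 ≠ t0 := fun h => ht0 (h ▸ h1)
      have h8 : (((Equiv.Perm.sign (Equiv.swap t1 t0) : ℤˣ) : ℤ) : ℂ) = -1 := by
        rw [Equiv.Perm.sign_swap h7]
        simp
      rw [h5, h6, h8, smul_smul, smul_smul, ← neg_smul]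
      congr 1
      ring
    · rw [dif_neg hu]
      unfold HWC_W
      refine Eq.trans ?_ (Equiv.sum_comp (Equiv.mulRight (Equiv.swap u (Fin.castLE hb t0))) _)
      refine Finset.sum_congr rfl fun σ _ => ?_
      rw [Equiv.coe_mulRight, HWC_sgn, Equiv.Perm.coe_mul, ← Function.comp_assoc]
      obtain ⟨h3, h4⟩ := HWC_step1 hb (J ∘ σ) K Q t0 ht0 u (fun t ht h => hu ⟨t, ht, h⟩)
      rw [h3, h4]
      have h5 := hA (Equiv.swap u (Fin.castLE hb t0))
        (HWC_z ((J ∘ σ) ∘ Equiv.swap u (Fin.castLE hb t0)) K (insert t0 Q),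
         HWC_k hb ((J ∘ σ) ∘ Equiv.swap u (Fin.castLE hb t0)) K (insert t0 Q))
      dsimp only at h5
      rw [h5, smul_smul]
  have h0 : HWC_W c hb J K Q = ∑ u : Fin a, ∑ σ : Equiv.Perm (Fin a),
      ((Equiv.Perm.sign σ : ℤ) : ℂ) •
      c (Function.update (HWC_z (J ∘ σ) K Q) u (HWC_k hb (J ∘ σ) K Q t0),
        Function.update (HWC_k hb (J ∘ σ) K Q) t0 (HWC_z (J ∘ σ) K Q u)) := by
    rw [Finset.sum_comm]
    unfold HWC_W
    refine Finset.sum_congr rfl fun σ _ => ?_
    rw [hG t0 (HWC_z (J ∘ σ) K Q, HWC_k hb (J ∘ σ) K Q), Finset.smul_sum]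
  rw [h0, Finset.sum_congr rfl fun u _ => hterm u, ← Finset.sum_add_sum_compl (Q.map e),
    Finset.sum_map]
  have h1 : ∑ t ∈ Q, (if h : ∃ t' ∈ Q, Fin.castLE hb t' = e t then
      - HWC_W c hb J K (insert t0 (Q.erase h.choose))
      else HWC_W c hb J K (insert t0 Q)) = - ∑ t ∈ Q, HWC_W c hb J K (insert t0 (Q.erase t)) := by
    rw [← Finset.sum_neg_distrib]
    refine Finset.sum_congr rfl fun t ht => ?_
    have h2 : ∃ t' ∈ Q, Fin.castLE hb t' = e t := ⟨t, ht, rfl⟩
    rw [dif_pos h2]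
    have h3 : h2.choose = t := Fin.castLE_injective hb h2.choose_spec.2
    rw [h3]
  have h2 : ∑ u ∈ (Q.map e)ᶜ, (if h : ∃ t' ∈ Q, Fin.castLE hb t' = u then
      - HWC_W c hb J K (insert t0 (Q.erase h.choose))
      else HWC_W c hb J K (insert t0 Q)) =
      ((a - Q.card : ℕ) : ℂ) • HWC_W c hb J K (insert t0 Q) := by
    have h3 : ∀ u ∈ (Q.map e)ᶜ, (if h : ∃ t' ∈ Q, Fin.castLE hb t' = u then
      - HWC_W c hb J K (insert t0 (Q.erase h.choose))
      else HWC_W c hb J K (insert t0 Q)) = HWC_W c hb J K (insert t0 Q) := by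
      intro u hu
      rw [Finset.mem_compl, Finset.mem_map] at hu
      exact dif_neg fun ⟨t, ht, h⟩ => hu ⟨t, ht, h⟩
    rw [Finset.sum_congr rfl h3, Finset.sum_const, Finset.card_compl, Finset.card_map,
      Fintype.card_fin, Nat.cast_smul_eq_nsmul]
  rw [h1, h2]
  abel

private theorem HWC_W_val (hb : b ≤ a) (J : Fin a → Fin n) (K : Fin b → Fin n)
    (hA : ∀ (τ : Equiv.Perm (Fin a)) (x : Ix a b (Fin n)),
      c (x.1 ∘ τ, x.2) = ((Equiv.Perm.sign τ : ℤ) : ℂ) • c x)
    (hB : ∀ (τ : Equiv.Perm (Fin b)) (x : Ix a b (Fin n)),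
      c (x.1, x.2 ∘ τ) = ((Equiv.Perm.sign τ : ℤ) : ℂ) • c x)
    (hG : Gar c) (q : ℕ) : ∀ (Q : Finset (Fin b)), Q.card = q →
    HWC_W c hb J K Q = (((a - q).factorial * q.factorial : ℕ) : ℂ) • c (J, K) := by
  induction q with
  | zero =>
    intro Q hQ
    rw [Finset.card_eq_zero.1 hQ, HWC_W_zero c hb J K hA]
    simp
  | succ q ih =>
    intro Q hQ
    obtain ⟨t0, Q', ht0, rfl, hQ'⟩ := Finset.card_eq_succ.1 hQ
    have hqb : q + 1 ≤ b := by
      rw [← hQ]
      exact (Finset.card_le_univ _).trans (by rw [Fintype.card_fin])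
    have h1 := HWC_W_step c hb J K hA hB hG Q' t0 ht0
    have h2 : ∀ t ∈ Q', HWC_W c hb J K (insert t0 (Q'.erase t)) =
        (((a - q).factorial * q.factorial : ℕ) : ℂ) • c (J, K) := by
      intro t ht
      apply ih
      rw [Finset.card_insert_of_notMem (fun h => ht0 (Finset.mem_of_mem_erase h)),
        Finset.card_erase_of_mem ht, hQ']
      have := Finset.card_pos.2 ⟨t, ht⟩
      omega
    rw [Finset.sum_congr rfl h2, Finset.sum_const, hQ', ih Q' hQ'] at h1
    have h3 : ((a - q : ℕ) : ℂ) ≠ 0 := by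
      rw [Nat.cast_ne_zero]
      omega
    have h4 : ((a - q : ℕ) : ℂ) • HWC_W c hb J K (insert t0 Q') =
        ((a - q : ℕ) : ℂ) • (((a - (q + 1)).factorial * (q + 1).factorial : ℕ) : ℂ) • c (J, K) := by
      have h5 : (a - q).factorial = (a - q) * (a - (q + 1)).factorial := by
        have h6 : a - q = (a - (q + 1)) + 1 := by omega
        rw [h6, Nat.factorial_succ]
      have h6 : ((a - q : ℕ) : ℂ) • HWC_W c hb J K (insert t0 Q') =
          (((a - q).factorial * q.factorial : ℕ) : ℂ) • c (J, K) +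
          q • (((a - q).factorial * q.factorial : ℕ) : ℂ) • c (J, K) :=
        sub_eq_iff_eq_add.1 h1.symm
      rw [h6, ← Nat.cast_smul_eq_nsmul ℂ, smul_smul, smul_smul, ← add_smul]
      congr 1
      rw [h5, Nat.factorial_succ]
      push_cast
      ring
    exact (smul_right_injective _ h3) h4

end combinatorics

section evaluation

variable {a b n r : ℕ}

private noncomputable def HWC_B (h : a < r) (hb : b ≤ a) (J : Fin a → Fin n) (K : Fin b → Fin n) :
    Fin r × Fin n →₀ ℕ :=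
  ∑ t : Fin b, Finsupp.single ((⟨t.val, by omega⟩ : Fin r), K t) 1 +
    ∑ s : Fin a, Finsupp.single ((⟨s.val, by omega⟩ : Fin r), J s) 1

private theorem HWC_B_row (h : a < r) (hb : b ≤ a) (J : Fin a → Fin n) (K : Fin b → Fin n)
    (s : Fin a) (i : Fin n) : HWC_B h hb J K ((⟨s.val, by omega⟩ : Fin r), i) =
      (if h' : s.val < b then (if K ⟨s.val, h'⟩ = i then 1 else 0) else 0) +
        (if J s = i then 1 else 0) := by
  unfold HWC_B
  rw [Finsupp.add_apply, Finsupp.finsetSum_apply, Finsupp.finsetSum_apply]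
  congr 1
  · split_ifs with h' h2
    · rw [Finset.sum_eq_single (⟨s.val, h'⟩ : Fin b)]
      · rw [h2, Finsupp.single_eq_same]
      · intro t _ ht
        apply Finsupp.single_eq_of_ne
        intro h3
        rw [Prod.mk.injEq, Fin.mk.injEq] at h3
        exact ht (Fin.ext h3.1.symm)
      · intro h3
        exact absurd (Finset.mem_univ _) h3
    · apply Finset.sum_eq_zero
      intro t _
      apply Finsupp.single_eq_of_ne
      intro h3
      rw [Prod.mk.injEq, Fin.mk.injEq] at h3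
      apply h2
      rw [h3.2]
      congr 1
      exact Fin.ext h3.1
    · apply Finset.sum_eq_zero
      intro t _
      apply Finsupp.single_eq_of_ne
      intro h3
      rw [Prod.mk.injEq, Fin.mk.injEq] at h3
      have := t.isLt
      omega
  · split_ifs with h2
    · rw [Finset.sum_eq_single s]
      · rw [h2, Finsupp.single_eq_same]
      · intro t _ ht
        apply Finsupp.single_eq_of_ne
        intro h3
        rw [Prod.mk.injEq, Fin.mk.injEq] at h3
        exact ht (Fin.ext h3.1.symm)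
      · intro h3
        exact absurd (Finset.mem_univ _) h3
    · apply Finset.sum_eq_zero
      intro t _
      apply Finsupp.single_eq_of_ne
      intro h3
      rw [Prod.mk.injEq, Fin.mk.injEq] at h3
      apply h2
      rw [h3.2]
      congr 1
      exact Fin.ext h3.1

private theorem HWC_B_high (h : a < r) (hb : b ≤ a) (J : Fin a → Fin n) (K : Fin b → Fin n)
    (q : Fin r) (hq : a ≤ q.val) (i : Fin n) : HWC_B h hb J K (q, i) = 0 := by
  unfold HWC_B
  have h1 : ∑ t : Fin b, (Finsupp.single ((⟨t.val, by omega⟩ : Fin r), K t) 1 :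
      Fin r × Fin n →₀ ℕ) (q, i) = 0 := by
    apply Finset.sum_eq_zero
    intro t _
    apply Finsupp.single_eq_of_ne
    intro h3
    have h4 := congrArg (fun z : Fin r × Fin n => z.1.val) h3
    have := t.isLt
    dsimp only at h4
    omega
  have h2 : ∑ s : Fin a, (Finsupp.single ((⟨s.val, by omega⟩ : Fin r), J s) 1 :
      Fin r × Fin n →₀ ℕ) (q, i) = 0 := by
    apply Finset.sum_eq_zero
    intro s _
    apply Finsupp.single_eq_of_ne
    intro h3
    have h4 := congrArg (fun z : Fin r × Fin n => z.1.val) h3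
    have := s.isLt
    dsimp only at h4
    omega
  rw [Finsupp.add_apply, Finsupp.finsetSum_apply, Finsupp.finsetSum_apply, h1, h2]

private theorem HWC_row1 (k j p q : Fin n) :
    ∏ i : Fin n, ((((if q = i then 1 else 0) + (if p = i then 1 else 0) : ℕ).descFactorial
      ((if k = i then 1 else 0) + (if j = i then 1 else 0)) : ℕ) : ℂ) =
      (if k = q ∧ j = p then 1 else 0) + (if k = p ∧ j = q then 1 else 0) := by
  by_cases hkj : k = j
  · subst hkj
    rw [Finset.prod_eq_single k]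
    · rw [if_pos rfl]
      by_cases hq : q = k
      · by_cases hp : p = k
        · subst hq
          subst hp
          simp [Nat.descFactorial]
          norm_num
        · subst hq
          simp [Nat.descFactorial, hp, Ne.symm hp]
      · by_cases hp : p = k
        · subst hp
          simp [Nat.descFactorial, hq, Ne.symm hq]
        · simp [Nat.descFactorial, hq, hp, Ne.symm hq, Ne.symm hp]
    · intro i _ hi
      rw [if_neg (Ne.symm hi)]
      simp
    · intro h
      exact absurd (Finset.mem_univ _) h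
  · rw [Finset.prod_eq_mul k j hkj]
    · rw [if_pos rfl, if_neg (Ne.symm hkj), if_neg hkj, if_pos rfl, add_zero, zero_add,
        Nat.descFactorial_one, Nat.descFactorial_one]
      by_cases h1 : q = k
      · subst h1
        rw [if_pos rfl, if_neg hkj]
        by_cases h2 : p = j
        · subst h2
          simp [hkj, Ne.symm hkj]
        · by_cases h3 : p = q
          · subst h3
            simp [hkj, Ne.symm hkj]
          · simp [h2, Ne.symm h2, h3, Ne.symm h3]
      · rw [if_neg h1]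
        by_cases h2 : p = k
        · subst h2
          by_cases h3 : q = j
          · subst h3
            simp [hkj]
          · simp [hkj, h3, Ne.symm h3, Ne.symm h1]
        · simp [Ne.symm h1, h2, Ne.symm h2]
    · intro i _ hi
      rw [if_neg (Ne.symm hi.1), if_neg (Ne.symm hi.2)]
      simp
    · intro h
      exact absurd (Finset.mem_univ _) h
    · intro h
      exact absurd (Finset.mem_univ _) h

private theorem HWC_row2 (j p : Fin n) :
    ∏ i : Fin n, (((0 + (if p = i then 1 else 0) : ℕ).descFactorial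
      (0 + (if j = i then 1 else 0)) : ℕ) : ℂ) = if j = p then 1 else 0 := by
  rw [Finset.prod_eq_single j]
  · rw [if_pos rfl, zero_add, zero_add, Nat.descFactorial_one]
    by_cases h : j = p
    · rw [if_pos h, if_pos h.symm, Nat.cast_one]
    · rw [if_neg h, if_neg (Ne.symm h), Nat.cast_zero]
  · intro i _ hi
    rw [if_neg (Ne.symm hi), zero_add, Nat.descFactorial_zero, Nat.cast_one]
  · intro h
    exact absurd (Finset.mem_univ _) h

private noncomputable def HWC_D (J : Fin a → Fin n) (K : Fin b → Fin n) (x : Ix a b (Fin n))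
    (s : Fin a) : ℂ :=
  if h : s.val < b then
    (if K ⟨s.val, h⟩ = x.2 ⟨s.val, h⟩ ∧ J s = x.1 s then 1 else 0) +
      (if K ⟨s.val, h⟩ = x.1 s ∧ J s = x.2 ⟨s.val, h⟩ then 1 else 0)
  else if J s = x.1 s then 1 else 0

private theorem HWC_row (h : a < r) (hb : b ≤ a) (J : Fin a → Fin n) (K : Fin b → Fin n)
    (x : Ix a b (Fin n)) (s : Fin a) :
    ∏ i : Fin n, (((HWC_B h hb x.1 x.2 ((⟨s.val, by omega⟩ : Fin r), i)).descFactorial
      (HWC_B h hb J K ((⟨s.val, by omega⟩ : Fin r), i)) : ℕ) : ℂ) = HWC_D J K x s := by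
  unfold HWC_D
  by_cases h' : s.val < b
  · rw [dif_pos h']
    rw [← HWC_row1 (K ⟨s.val, h'⟩) (J s) (x.1 s) (x.2 ⟨s.val, h'⟩)]
    refine Finset.prod_congr rfl fun i _ => ?_
    rw [HWC_B_row, HWC_B_row, dif_pos h', dif_pos h']
  · rw [dif_neg h']
    rw [← HWC_row2 (J s) (x.1 s)]
    refine Finset.prod_congr rfl fun i _ => ?_
    rw [HWC_B_row, HWC_B_row, dif_neg h', dif_neg h']

private theorem HWC_eq_of_D (h : a < r) (hb : b ≤ a) (J : Fin a → Fin n) (K : Fin b → Fin n)
    (x : Ix a b (Fin n)) (hD : ∀ s, HWC_D J K x s ≠ 0) :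
    HWC_B h hb J K = HWC_B h hb x.1 x.2 := by
  ext ⟨q, i⟩
  by_cases hq : q.val < a
  · have h1 := hD ⟨q.val, hq⟩
    have h2 := HWC_B_row h hb J K ⟨q.val, hq⟩ i
    have h3 := HWC_B_row h hb x.1 x.2 ⟨q.val, hq⟩ i
    have h4 : (⟨(⟨q.val, hq⟩ : Fin a).val, by omega⟩ : Fin r) = q := rfl
    rw [h4] at h2 h3
    rw [h2, h3]
    unfold HWC_D at h1
    by_cases h' : q.val < b
    · rw [dif_pos h'] at h1
      rw [dif_pos h', dif_pos h']
      by_cases h5 : K ⟨q.val, h'⟩ = x.2 ⟨q.val, h'⟩ ∧ J ⟨q.val, hq⟩ = x.1 ⟨q.val, hq⟩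
      · rw [h5.1, h5.2]
      · rw [if_neg h5] at h1
        by_cases h6 : K ⟨q.val, h'⟩ = x.1 ⟨q.val, hq⟩ ∧ J ⟨q.val, hq⟩ = x.2 ⟨q.val, h'⟩
        · rw [h6.1, h6.2, add_comm]
        · rw [if_neg h6, add_zero] at h1
          exact absurd rfl h1
    · rw [dif_neg h'] at h1
      rw [dif_neg h', dif_neg h']
      by_cases h5 : J ⟨q.val, hq⟩ = x.1 ⟨q.val, hq⟩
      · rw [h5]
      · rw [if_neg h5] at h1
        exact absurd rfl h1
  · rw [HWC_B_high h hb _ _ _ (not_lt.1 hq), HWC_B_high h hb _ _ _ (not_lt.1 hq)]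

private theorem HWC_mon (h : a < r) (hb : b ≤ a) (x : Ix a b (Fin n)) :
    (∏ s : Fin a, X ((⟨s.val, by omega⟩ : Fin r), x.1 s)) *
      (∏ t : Fin b, X ((⟨t.val, by omega⟩ : Fin r), x.2 t)) =
      (monomial (HWC_B h hb x.1 x.2) (1 : ℂ) : MvPolynomial (Fin r × Fin n) ℂ) := by
  unfold HWC_B
  rw [← one_mul (1 : ℂ), ← monomial_mul, monomial_sum_one, monomial_sum_one, mul_comm]
  rfl

private theorem HWC_coef (h : a < r) (hb : b ≤ a) (J : Fin a → Fin n) (K : Fin b → Fin n)
    (x : Ix a b (Fin n)) (M : Fin r × Fin n →₀ ℕ) (hM : ∀ q : Fin r, q.val < a → ∀ i, M (q, i) = 0) :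
    ∏ q ∈ (HWC_B h hb J K).support, ((((HWC_B h hb x.1 x.2 + M) q).descFactorial
      (HWC_B h hb J K q) : ℕ) : ℂ) = ∏ s, HWC_D J K x s := by
  have h1 : ∏ s, HWC_D J K x s = ∏ p : Fin a × Fin n,
      (((HWC_B h hb x.1 x.2 ((⟨p.1.val, by omega⟩ : Fin r), p.2)).descFactorial
      (HWC_B h hb J K ((⟨p.1.val, by omega⟩ : Fin r), p.2)) : ℕ) : ℂ) := by
    rw [Fintype.prod_prod_type]
    refine Finset.prod_congr rfl fun s _ => ?_
    rw [← HWC_row h hb]
  set e : Fin a × Fin n ↪ Fin r × Fin n := ⟨fun p => ((⟨p.1.val, by omega⟩ : Fin r), p.2), by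
    rintro ⟨p, i⟩ ⟨q, j⟩ hpq
    rw [Prod.mk.injEq, Fin.mk.injEq] at hpq
    exact Prod.ext (Fin.ext hpq.1) hpq.2⟩ with he
  have h2 : (HWC_B h hb J K).support ⊆ Finset.univ.map e := by
    rintro ⟨q, i⟩ hq
    rw [Finsupp.mem_support_iff] at hq
    by_cases hqa : q.val < a
    · exact Finset.mem_map.2 ⟨(⟨q.val, hqa⟩, i), Finset.mem_univ _, rfl⟩
    · exact absurd (HWC_B_high h hb _ _ _ (not_lt.1 hqa) i) hq
  rw [h1, Finset.prod_subset h2, Finset.prod_map]
  · refine Finset.prod_congr rfl fun p _ => ?_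
    have h3 : (HWC_B h hb x.1 x.2 + M) (e p) = HWC_B h hb x.1 x.2 (e p) := by
      rw [Finsupp.add_apply]
      have h4 : M (e p) = 0 := hM _ p.1.isLt _
      rw [h4, add_zero]
    rw [h3]
    rfl
  · intro q _ hq
    rw [Finsupp.notMem_support_iff] at hq
    rw [hq, Nat.descFactorial_zero, Nat.cast_one]

private theorem HWC_ev (h : a < r) (hb : b ≤ a) (J : Fin a → Fin n) (K : Fin b → Fin n)
    (x : Ix a b (Fin n)) (c : S (Fin n)) :
    aeval (R := ℂ) (fun q : Fin r × Fin n => if q.1.val + 1 = r then (X q.2 : S (Fin n)) else 0)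
      (MDH.dmon (HWC_B h hb J K) ((∏ s : Fin a, X ((⟨s.val, by omega⟩ : Fin r), x.1 s)) *
      (∏ t : Fin b, X ((⟨t.val, by omega⟩ : Fin r), x.2 t)) *
      rename (fun i : Fin n => ((⟨r - 1, by omega⟩ : Fin r), i)) c)) =
      (∏ s, HWC_D J K x s) • c := by
  rw [HWC_mon h hb x]
  induction c using MvPolynomial.induction_on' with
  | add p q hp hq => rw [map_add, mul_add, map_add, map_add, hp, hq, smul_add]
  | monomial m v =>
    rw [rename_monomial, monomial_mul, one_mul, MDH.DHC_dmon_monomial]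
    have hM : ∀ q : Fin r, q.val < a → ∀ i,
        (Finsupp.mapDomain (fun i : Fin n => ((⟨r - 1, by omega⟩ : Fin r), i)) m) (q, i) = 0 := by
      intro q hq i
      apply Finsupp.mapDomain_of_notMem_range
      rintro ⟨i', hi'⟩
      have h1 := congrArg (fun z : Fin r × Fin n => z.1.val) hi'
      dsimp only at h1
      omega
    rw [HWC_coef h hb J K x _ hM]
    by_cases hD : ∀ s, HWC_D J K x s ≠ 0
    · rw [HWC_eq_of_D h hb J K x hD, add_tsub_cancel_left, mul_comm, ← smul_eq_mul,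
        ← smul_monomial, map_smul]
      congr 1
      rw [← rename_monomial, aeval_rename]
      have h1 : (fun q : Fin r × Fin n => if q.1.val + 1 = r then (X q.2 : S (Fin n)) else 0) ∘
          (fun i : Fin n => ((⟨r - 1, by omega⟩ : Fin r), i)) = X := by
        funext i
        rw [Function.comp_apply]
        exact if_pos (show r - 1 + 1 = r by omega)
      rw [h1, aeval_X_left, AlgHom.id_apply]
    · rw [not_forall] at hD
      obtain ⟨s, hs⟩ := hD
      rw [not_not] at hs
      rw [Finset.prod_eq_zero (Finset.mem_univ s) hs, mul_zero, monomial_zero, map_zero, zero_smul]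

private theorem HWC_split (hb : b ≤ a) (F : Fin a → ℂ) :
    ∏ s, F s = (∏ t : Fin b, F (Fin.castLE hb t)) *
      ∏ s ∈ Finset.univ.filter (fun s : Fin a => ¬ s.val < b), F s := by
  rw [← Finset.prod_filter_mul_prod_filter_not Finset.univ (fun s : Fin a => s.val < b)]
  congr 1
  symm
  refine Finset.prod_bij (fun t _ => Fin.castLE hb t) ?_ ?_ ?_ ?_
  · intro t _
    exact Finset.mem_filter.2 ⟨Finset.mem_univ _, t.isLt⟩
  · intro t _ t' _ h
    exact Fin.castLE_injective hb h
  · intro s hs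
    exact ⟨⟨s.val, (Finset.mem_filter.1 hs).2⟩, Finset.mem_univ _, rfl⟩
  · intro t _
    rfl

private theorem HWC_expand (hb : b ≤ a) (J : Fin a → Fin n) (K : Fin b → Fin n)
    (x : Ix a b (Fin n)) : ∏ s, HWC_D J K x s =
      ∑ Q : Finset (Fin b), if x = (HWC_z J K Q, HWC_k hb J K Q) then 1 else 0 := by
  set E : Finset (Fin b) → Fin a → ℂ := fun Q s =>
    if h : s.val < b then
      (if (⟨s.val, h⟩ : Fin b) ∈ Q then
        (if K ⟨s.val, h⟩ = x.1 s ∧ J s = x.2 ⟨s.val, h⟩ then 1 else 0)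
      else (if K ⟨s.val, h⟩ = x.2 ⟨s.val, h⟩ ∧ J s = x.1 s then 1 else 0))
    else if J s = x.1 s then 1 else 0 with hE
  have h1 : ∀ Q, ∏ s, E Q s = if x = (HWC_z J K Q, HWC_k hb J K Q) then 1 else 0 := by
    intro Q
    by_cases hx : x = (HWC_z J K Q, HWC_k hb J K Q)
    · rw [if_pos hx]
      apply Finset.prod_eq_one
      intro s _
      rw [hE]
      dsimp only
      rw [hx]
      by_cases h : s.val < b
      · rw [dif_pos h]
        by_cases h' : (⟨s.val, h⟩ : Fin b) ∈ Q
        · rw [if_pos h', if_pos]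
          constructor
          · exact (HWC_z_in hb J K Q ⟨s.val, h⟩ h').symm
          · exact (HWC_k_in hb J K Q ⟨s.val, h⟩ h').symm
        · rw [if_neg h', if_pos]
          constructor
          · exact (HWC_k_out hb J K Q ⟨s.val, h⟩ h').symm
          · refine (HWC_z_out hb J K Q s fun t ht hts => h' ?_).symm
            have h5 : (⟨s.val, h⟩ : Fin b) = t := Fin.ext (congrArg Fin.val hts).symm
            rw [h5]
            exact ht
      · rw [dif_neg h, if_pos]
        refine (HWC_z_out hb J K Q s fun t ht hts => h ?_).symm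
        rw [← hts]
        exact t.isLt
    · rw [if_neg hx]
      by_contra hne
      apply hx
      have h2 : ∀ s, E Q s ≠ 0 := fun s h => hne (Finset.prod_eq_zero (Finset.mem_univ s) h)
      apply Prod.ext
      · funext s
        have h3 := h2 s
        rw [hE] at h3
        dsimp only at h3 ⊢
        unfold HWC_z
        by_cases h : s.val < b
        · rw [dif_pos h] at h3 ⊢
          by_cases h' : (⟨s.val, h⟩ : Fin b) ∈ Q
          · rw [if_pos h'] at h3 ⊢
            exact (of_not_not fun h4 => h3 (if_neg h4)).1.symm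
          · rw [if_neg h'] at h3 ⊢
            exact (of_not_not fun h4 => h3 (if_neg h4)).2.symm
        · rw [dif_neg h] at h3 ⊢
          exact (of_not_not fun h4 => h3 (if_neg h4)).symm
      · funext t
        have h3 := h2 (Fin.castLE hb t)
        rw [hE] at h3
        dsimp only at h3 ⊢
        unfold HWC_k
        have h : (Fin.castLE hb t).val < b := t.isLt
        rw [dif_pos h] at h3
        by_cases h' : t ∈ Q
        · have h'' : (⟨(Fin.castLE hb t).val, h⟩ : Fin b) ∈ Q := h'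
          rw [if_pos h''] at h3
          rw [if_pos h']
          exact (of_not_not fun h4 => h3 (if_neg h4)).2.symm
        · have h'' : (⟨(Fin.castLE hb t).val, h⟩ : Fin b) ∉ Q := h'
          rw [if_neg h''] at h3
          rw [if_neg h']
          exact (of_not_not fun h4 => h3 (if_neg h4)).1.symm
  rw [← Finset.sum_congr rfl fun Q _ => h1 Q, HWC_split hb]
  have h2 : ∏ t : Fin b, HWC_D J K x (Fin.castLE hb t) =
      ∑ Q : Finset (Fin b), ∏ t : Fin b, E Q (Fin.castLE hb t) := by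
    have h3 : ∀ t : Fin b, HWC_D J K x (Fin.castLE hb t) =
        (if K t = x.1 (Fin.castLE hb t) ∧ J (Fin.castLE hb t) = x.2 t then 1 else 0) +
        (if K t = x.2 t ∧ J (Fin.castLE hb t) = x.1 (Fin.castLE hb t) then 1 else 0) := by
      intro t
      unfold HWC_D
      have h : (Fin.castLE hb t).val < b := t.isLt
      rw [dif_pos h, add_comm]
      rfl
    rw [Finset.prod_congr rfl fun t _ => h3 t, Finset.prod_add, Finset.powerset_univ]
    refine Finset.sum_congr rfl fun Q _ => ?_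
    have h4 : ∀ t : Fin b, E Q (Fin.castLE hb t) = if t ∈ Q then
        (if K t = x.1 (Fin.castLE hb t) ∧ J (Fin.castLE hb t) = x.2 t then 1 else 0) else
        (if K t = x.2 t ∧ J (Fin.castLE hb t) = x.1 (Fin.castLE hb t) then 1 else 0) := by
      intro t
      rw [hE]
      dsimp only
      have h : (Fin.castLE hb t).val < b := t.isLt
      rw [dif_pos h]
      rfl
    have h5 : Finset.univ.filter (fun t : Fin b => t ∈ Q) = Q := by
      ext t
      simp
    have h6 : Finset.univ.filter (fun t : Fin b => ¬ t ∈ Q) = Finset.univ \ Q := by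
      ext t
      simp
    refine Eq.trans ?_ (Finset.prod_congr rfl fun t _ => (h4 t).symm)
    refine Eq.trans ?_ (Finset.prod_ite _ _).symm
    rw [h5, h6]
  rw [h2, Finset.sum_mul]
  refine Finset.sum_congr rfl fun Q _ => ?_
  rw [HWC_split hb (E Q)]
  congr 1
  refine Finset.prod_congr rfl fun s hs => ?_
  have h3 := (Finset.mem_filter.1 hs).2
  unfold HWC_D
  rw [hE]
  dsimp only
  rw [dif_neg h3, dif_neg h3]

private theorem HWC_sum (hb : b ≤ a) (c : T a b (Fin n)) (J : Fin a → Fin n)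
    (K : Fin b → Fin n) : ∑ x : Ix a b (Fin n), (∏ s, HWC_D J K x s) • c x =
      ∑ Q : Finset (Fin b), c (HWC_z J K Q, HWC_k hb J K Q) := by
  have h1 : ∀ x : Ix a b (Fin n), (∏ s, HWC_D J K x s) • c x = ∑ Q : Finset (Fin b),
      (if x = (HWC_z J K Q, HWC_k hb J K Q) then c x else 0) := by
    intro x
    rw [HWC_expand hb, Finset.sum_smul]
    refine Finset.sum_congr rfl fun Q _ => ?_
    split_ifs
    · rw [one_smul]
    · rw [zero_smul]
  rw [Finset.sum_congr rfl fun x _ => h1 x, Finset.sum_comm]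
  refine Finset.sum_congr rfl fun Q _ => ?_
  rw [Finset.sum_ite_eq' Finset.univ (HWC_z J K Q, HWC_k hb J K Q), if_pos (Finset.mem_univ _)]

end evaluation

theorem thm_HWC : St_HWC := by
  intro r n a b h hb c hc
  obtain ⟨⟨hA, hB, -⟩, hG⟩ := hc
  funext x0
  obtain ⟨J, K⟩ := x0
  have h1 : ∀ σ : Equiv.Perm (Fin a),
      (∑ t : Fin b, Finsupp.single ((⟨t.val, by omega⟩ : Fin r), K t) 1 +
        ∑ s : Fin a, Finsupp.single ((⟨(σ s).val, by omega⟩ : Fin r), J s) 1) =
      HWC_B h hb (J ∘ σ.symm) K := by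
    intro σ
    unfold HWC_B
    congr 1
    refine Eq.trans ?_ (Equiv.sum_comp σ _)
    refine Finset.sum_congr rfl fun s _ => ?_
    rw [Function.comp_apply, Equiv.symm_apply_apply]
  have h2 : ∀ σ : Equiv.Perm (Fin a),
      aeval (R := ℂ) (fun q : Fin r × Fin n => if q.1.val + 1 = r then (X q.2 : S (Fin n)) else 0)
      (MDH.dmon (HWC_B h hb (J ∘ σ.symm) K) (psi' h hb c)) =
      ∑ Q : Finset (Fin b), c (HWC_z (J ∘ σ.symm) K Q, HWC_k hb (J ∘ σ.symm) K Q) := by
    intro σ
    rw [← HWC_sum hb c]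
    show aeval (R := ℂ) _ (MDH.dmon (HWC_B h hb (J ∘ σ.symm) K) (∑ x : Ix a b (Fin n),
      (∏ s : Fin a, X ((⟨s.val, by omega⟩ : Fin r), x.1 s)) *
      (∏ t : Fin b, X ((⟨t.val, by omega⟩ : Fin r), x.2 t)) *
      rename (fun i : Fin n => ((⟨r - 1, by omega⟩ : Fin r), i)) (c x))) = _
    rw [map_sum, map_sum]
    exact Finset.sum_congr rfl fun x _ => HWC_ev h hb (J ∘ σ.symm) K x (c x)
  show aeval (R := ℂ) (fun q : Fin r × Fin n => if q.1.val + 1 = r then (X q.2 : S (Fin n)) else 0)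
    (∑ σ : Equiv.Perm (Fin a), ((Equiv.Perm.sign σ : ℤ) : ℂ) • MDH.dmon
      (∑ t : Fin b, Finsupp.single ((⟨t.val, by omega⟩ : Fin r), K t) 1 +
        ∑ s : Fin a, Finsupp.single ((⟨(σ s).val, by omega⟩ : Fin r), J s) 1) (psi' h hb c)) = _
  rw [map_sum]
  have h3 : ∀ σ : Equiv.Perm (Fin a),
      aeval (R := ℂ) (fun q : Fin r × Fin n => if q.1.val + 1 = r then (X q.2 : S (Fin n)) else 0)
      (((Equiv.Perm.sign σ : ℤ) : ℂ) • MDH.dmon
      (∑ t : Fin b, Finsupp.single ((⟨t.val, by omega⟩ : Fin r), K t) 1 +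
        ∑ s : Fin a, Finsupp.single ((⟨(σ s).val, by omega⟩ : Fin r), J s) 1) (psi' h hb c)) =
      ((Equiv.Perm.sign σ : ℤ) : ℂ) •
      ∑ Q : Finset (Fin b), c (HWC_z (J ∘ σ.symm) K Q, HWC_k hb (J ∘ σ.symm) K Q) := by
    intro σ
    rw [map_smul, h1, h2]
  rw [Finset.sum_congr rfl fun σ _ => h3 σ]
  have h4 : ∑ σ : Equiv.Perm (Fin a), ((Equiv.Perm.sign σ : ℤ) : ℂ) •
      ∑ Q : Finset (Fin b), c (HWC_z (J ∘ σ.symm) K Q, HWC_k hb (J ∘ σ.symm) K Q) =
      ∑ Q : Finset (Fin b), HWC_W c hb J K Q := by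
    unfold HWC_W
    rw [Finset.sum_comm, ← Equiv.sum_comp (Equiv.inv (Equiv.Perm (Fin a)))]
    refine Finset.sum_congr rfl fun σ _ => ?_
    rw [Equiv.inv_apply, Equiv.Perm.sign_inv, Finset.smul_sum]
    rfl
  rw [h4, Finset.sum_congr rfl fun Q _ => HWC_W_val c hb J K hA hB hG Q.card Q rfl]
  rw [← Finset.powerset_univ, Finset.sum_powerset_apply_card
    (fun m => (((a - m).factorial * m.factorial : ℕ) : ℂ) • c (J, K)), Finset.card_univ,
    Fintype.card_fin, Pi.smul_apply, Nat.cast_sum, Finset.sum_smul]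
  refine Finset.sum_congr rfl fun q _ => ?_
  rw [← Nat.cast_smul_eq_nsmul ℂ, smul_smul]
  congr 1
  push_cast
  ring

end MDC
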