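import Pool.Agent.MDC.StE
import Pool.Agent.MDH.DHC

/-!
# MDC, module HWD: `psi` is injective on the highest weight vectors (Capelli)
-/

set_option autoImplicit false

open MvPolynomial

namespace MDC

/-! ### Differential operators -/

theorem HWD_coeff {σ : Type} (A C : σ →₀ ℕ) (p : MvPolynomial σ ℂ) :
    coeff C (MDH.dmon A p) =
      (∏ i ∈ A.support, (((C + A) i).descFactorial (A i) : ℂ)) * coeff (C + A) p := by
  classical
  induction p using MvPolynomial.induction_on' with
  | add p q hp hq => rw [map_add, coeff_add, coeff_add, hp, hq, mul_add]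
  | monomial B c =>
    rw [MDH.DHC_dmon_monomial, coeff_monomial, coeff_monomial]
    by_cases h : A ≤ B
    · by_cases h2 : B - A = C
      · have h3 : B = C + A := by rw [← h2, tsub_add_cancel_of_le h]
        rw [if_pos h2, if_pos h3, mul_comm, h3]
      · have h3 : B ≠ C + A := by
          rintro rfl
          exact h2 (add_tsub_cancel_right C A)
        rw [if_neg h2, if_neg h3, mul_zero]
    · have h3 : B ≠ C + A := by
        rintro rfl
        exact h le_add_self
      obtain ⟨i, hi⟩ : ∃ i, ¬ A i ≤ B i := by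
        by_contra h4
        push Not at h4
        exact h h4
      have h5 : ∏ i ∈ A.support, ((B i).descFactorial (A i) : ℂ) = 0 := by
        refine Finset.prod_eq_zero (i := i) ?_ ?_
        · rw [Finsupp.mem_support_iff]
          omega
        · rw [Nat.descFactorial_eq_zero_iff_lt.2 (by omega), Nat.cast_zero]
      rw [if_neg h3, h5, mul_zero, mul_zero, ite_self]

theorem HWD_single {σ : Type} (q : σ) (p : MvPolynomial σ ℂ) :
    MDH.dmon (Finsupp.single q 1) p = pderiv q p := by
  classical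
  induction p using MvPolynomial.induction_on' with
  | add p₁ p₂ hp hq => rw [map_add, map_add, hp, hq]
  | monomial B c =>
    rw [MDH.DHC_dmon_monomial, pderiv_monomial, Finsupp.support_single _ one_ne_zero,
      Finset.prod_singleton, Finsupp.single_eq_same, Nat.descFactorial_one]

theorem HWD_X {σ : Type} (A : σ →₀ ℕ) (q : σ) (hq : A q = 0) (p : MvPolynomial σ ℂ) :
    MDH.dmon A (X q * p) = X q * MDH.dmon A p := by
  classical
  induction p using MvPolynomial.induction_on' with
  | add p₁ p₂ hp hq => rw [map_add, mul_add, map_add, mul_add, hp, hq]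
  | monomial B c =>
    have hX : (X q : MvPolynomial σ ℂ) = monomial (Finsupp.single q 1) 1 := rfl
    rw [MDH.DHC_dmon_monomial, hX, monomial_mul, monomial_mul, MDH.DHC_dmon_monomial]
    have e1 : Finsupp.single q 1 + B - A = Finsupp.single q 1 + (B - A) := by
      ext i
      simp only [Finsupp.tsub_apply, Finsupp.add_apply, Finsupp.single_apply]
      split_ifs with h
      · subst h
        rw [hq]
        omega
      · omega
    have e2 : ∏ i ∈ A.support, (((Finsupp.single q 1 + B : σ →₀ ℕ) i).descFactorial (A i) : ℂ) =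
        ∏ i ∈ A.support, ((B i).descFactorial (A i) : ℂ) := by
      refine Finset.prod_congr rfl fun i hi => ?_
      have : q ≠ i := by
        rintro rfl
        exact (Finsupp.mem_support_iff.1 hi) hq
      rw [Finsupp.add_apply, Finsupp.single_apply, if_neg this, zero_add]
    rw [e1, e2, mul_assoc]

theorem HWD_comm {σ : Type} (A B : σ →₀ ℕ) (p : MvPolynomial σ ℂ) :
    MDH.dmon A (MDH.dmon B p) = MDH.dmon B (MDH.dmon A p) := by
  rw [← MDH.DHC_dmon_add, ← MDH.DHC_dmon_add, add_comm]

theorem HWD_pol_apply {r n : ℕ} (s s' : Fin r) (p : MvPolynomial (Fin r × Fin n) ℂ) :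
    pol r n s s' p = ∑ j : Fin n, X (s, j) * pderiv (s', j) p := rfl

theorem HWD_pol {r n : ℕ} (A : (Fin r × Fin n) →₀ ℕ) (s s' : Fin r) (hA : ∀ j, A (s, j) = 0)
    (p : MvPolynomial (Fin r × Fin n) ℂ) :
    pol r n s s' (MDH.dmon A p) = MDH.dmon A (pol r n s s' p) := by
  rw [HWD_pol_apply, HWD_pol_apply, map_sum]
  refine Finset.sum_congr rfl fun j _ => ?_
  rw [HWD_X A (s, j) (hA j), ← HWD_single, ← HWD_single, HWD_comm]

/-- Euler -/
theorem HWD_euler {r n : ℕ} (s : Fin r) (l : ℕ) (p : MvPolynomial (Fin r × Fin n) ℂ)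
    (hp : ∀ A ∈ p.support, ∑ j : Fin n, A (s, j) = l) : pol r n s s p = (l : ℂ) • p := by
  classical
  have h0 : ∀ (B : (Fin r × Fin n) →₀ ℕ) (c : ℂ), pol r n s s (monomial B c) =
      ((∑ j : Fin n, B (s, j) : ℕ) : ℂ) • monomial B c := by
    intro B c
    rw [HWD_pol_apply, Nat.cast_sum, Finset.sum_smul]
    refine Finset.sum_congr rfl fun j _ => ?_
    have hX : (X (s, j) : MvPolynomial (Fin r × Fin n) ℂ) = monomial (Finsupp.single (s, j) 1) 1 :=
      rfl
    rw [pderiv_monomial, hX, monomial_mul, one_mul, smul_monomial, smul_eq_mul]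
    rcases Nat.eq_zero_or_pos (B (s, j)) with h | h
    · rw [h, Nat.cast_zero, mul_zero, zero_mul, monomial_zero, monomial_zero]
    · have e1 : Finsupp.single (s, j) 1 + (B - Finsupp.single (s, j) 1) = B := by
        rw [add_comm]
        refine tsub_add_cancel_of_le ?_
        rw [Finsupp.single_le_iff]
        exact h
      rw [e1, mul_comm]
  have h1 := p.support_sum_monomial_coeff
  rw [← h1, map_sum, Finset.smul_sum]
  refine Finset.sum_congr rfl fun A hA => ?_
  rw [h0, hp A hA]

/-! ### Determinants of derivatives -/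

/-- `∑_σ sgn(σ) ∏_s ∂_{ρ (σ s), J s} p` -/
noncomputable def HWD_D {r n k : ℕ} (ρ : Fin k → Fin r) (J : Fin k → Fin n)
    (p : MvPolynomial (Fin r × Fin n) ℂ) : MvPolynomial (Fin r × Fin n) ℂ :=
  ∑ σ : Equiv.Perm (Fin k), ((Equiv.Perm.sign σ : ℤ) : ℂ) •
    MDH.dmon (∑ s, Finsupp.single (ρ (σ s), J s) 1) p

section cap

variable {r n k : ℕ}

theorem HWD_row (ρ : Fin (k + 1) → Fin r) (hρ : Function.Injective ρ) (J : Fin k → Fin n)
    (e : Equiv.Perm (Fin k)) (U : Finset (Fin k)) (j : Fin n) :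
    (∑ s ∈ U, Finsupp.single (ρ (e s).succ, J s) 1 : (Fin r × Fin n) →₀ ℕ) (ρ 0, j) = 0 := by
  classical
  rw [Finsupp.finsetSum_apply]
  refine Finset.sum_eq_zero fun s _ => ?_
  rw [Finsupp.single_apply, if_neg]
  intro h
  have h1 := hρ (Prod.mk.inj h).1
  exact Fin.succ_ne_zero _ h1

theorem HWD_T0 (ρ : Fin (k + 1) → Fin r) (hρ : Function.Injective ρ) (J : Fin k → Fin n)
    (p : MvPolynomial (Fin r × Fin n) ℂ) (l : ℂ) (hl : pol r n (ρ 0) (ρ 0) p = l • p)
    (e : Equiv.Perm (Fin k)) :
    ∑ j : Fin n, X (ρ 0, j) * MDH.dmon (∑ s : Fin (k + 1), Finsupp.single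
      (ρ (Equiv.Perm.decomposeFin.symm (0, e) s), (Fin.cons j J : Fin (k + 1) → Fin n) s) 1) p =
      l • MDH.dmon (∑ s : Fin k, Finsupp.single (ρ (e s).succ, J s) 1) p := by
  classical
  have h1 : ∀ j : Fin n, (∑ s : Fin (k + 1), Finsupp.single
      (ρ (Equiv.Perm.decomposeFin.symm (0, e) s), (Fin.cons j J : Fin (k + 1) → Fin n) s) 1 :
      (Fin r × Fin n) →₀ ℕ) =
      Finsupp.single (ρ 0, j) 1 + ∑ s : Fin k, Finsupp.single (ρ (e s).succ, J s) 1 := by
    intro j
    rw [Fin.sum_univ_succ, Equiv.Perm.decomposeFin_symm_apply_zero, Fin.cons_zero]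
    refine congrArg _ (Finset.sum_congr rfl fun s _ => ?_)
    rw [Equiv.Perm.decomposeFin_symm_apply_succ, Equiv.swap_self, Fin.cons_succ,
      Equiv.refl_apply]
  have h2 := HWD_pol (∑ s : Fin k, Finsupp.single (ρ (e s).succ, J s) 1) (ρ 0) (ρ 0)
    (fun j => HWD_row ρ hρ J e Finset.univ j) p
  rw [hl, map_smul, HWD_pol_apply] at h2
  rw [← h2]
  refine Finset.sum_congr rfl fun j _ => ?_
  rw [h1, MDH.DHC_dmon_add, HWD_single]

theorem HWD_T1 (ρ : Fin (k + 1) → Fin r) (hρ : Function.Injective ρ) (J : Fin k → Fin n)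
    (p : MvPolynomial (Fin r × Fin n) ℂ) (m : Fin k) (hm : pol r n (ρ 0) (ρ m.succ) p = 0)
    (e : Equiv.Perm (Fin k)) :
    ∑ j : Fin n, X (ρ 0, j) * MDH.dmon (∑ s : Fin (k + 1), Finsupp.single
      (ρ (Equiv.Perm.decomposeFin.symm (m.succ, e) s),
        (Fin.cons j J : Fin (k + 1) → Fin n) s) 1) p =
      - MDH.dmon (∑ s : Fin k, Finsupp.single (ρ (e s).succ, J s) 1) p := by
  classical
  obtain ⟨i0, hi0⟩ : ∃ i0, e i0 = m := ⟨e.symm m, e.apply_symm_apply m⟩
  set B : (Fin r × Fin n) →₀ ℕ := ∑ s ∈ Finset.univ.erase i0,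
    Finsupp.single (ρ (e s).succ, J s) 1 with hB
  have h1 : ∀ j : Fin n, (∑ s : Fin (k + 1), Finsupp.single
      (ρ (Equiv.Perm.decomposeFin.symm (m.succ, e) s),
        (Fin.cons j J : Fin (k + 1) → Fin n) s) 1 : (Fin r × Fin n) →₀ ℕ) =
      Finsupp.single (ρ 0, J i0) 1 + (Finsupp.single (ρ m.succ, j) 1 + B) := by
    intro j
    rw [Fin.sum_univ_succ, Equiv.Perm.decomposeFin_symm_apply_zero, Fin.cons_zero,
      ← Finset.add_sum_erase Finset.univ _ (Finset.mem_univ i0),
      Equiv.Perm.decomposeFin_symm_apply_succ, hi0, Equiv.swap_apply_right, Fin.cons_succ,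
      add_left_comm, hB]
    congr 2
    refine Finset.sum_congr rfl fun s hs => ?_
    have h2 : e s ≠ m := by
      intro h3
      rw [← hi0] at h3
      exact (Finset.mem_erase.1 hs).1 (e.injective h3)
    rw [Equiv.Perm.decomposeFin_symm_apply_succ, Fin.cons_succ,
      Equiv.swap_apply_of_ne_of_ne (Fin.succ_ne_zero _)
        (fun h3 => h2 (Fin.succ_injective _ h3))]
  have h2 : (∑ s : Fin k, Finsupp.single (ρ (e s).succ, J s) 1 : (Fin r × Fin n) →₀ ℕ) =
      Finsupp.single (ρ m.succ, J i0) 1 + B := by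
    rw [← Finset.add_sum_erase Finset.univ _ (Finset.mem_univ i0), hi0]
  have h3 := HWD_pol B (ρ 0) (ρ m.succ) (fun j => HWD_row ρ hρ J e _ j) p
  rw [hm, map_zero, HWD_pol_apply] at h3
  have h4 : ∀ j : Fin n, X (ρ 0, j) * MDH.dmon (∑ s : Fin (k + 1), Finsupp.single
      (ρ (Equiv.Perm.decomposeFin.symm (m.succ, e) s),
        (Fin.cons j J : Fin (k + 1) → Fin n) s) 1) p =
      pderiv (ρ 0, J i0) (X (ρ 0, j) * pderiv (ρ m.succ, j) (MDH.dmon B p)) -
      (if j = J i0 then pderiv (ρ m.succ, j) (MDH.dmon B p) else 0) := by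
    intro j
    rw [h1, MDH.DHC_dmon_add, MDH.DHC_dmon_add, HWD_single, HWD_single, pderiv_mul, pderiv_X]
    by_cases h5 : j = J i0
    · rw [if_pos h5, h5, Pi.single_eq_same, one_mul]
      ring
    · have h6 : (ρ 0, j) ≠ (ρ 0, J i0) := fun h7 => h5 (Prod.mk.inj h7).2
      rw [if_neg h5, Pi.single_eq_of_ne h6, zero_mul, zero_add, sub_zero]
  rw [Finset.sum_congr rfl fun j _ => h4 j, Finset.sum_sub_distrib, ← map_sum, h3, map_zero,
    Finset.sum_ite_eq' Finset.univ (J i0), if_pos (Finset.mem_univ _), zero_sub, h2,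
    MDH.DHC_dmon_add, HWD_single]

theorem HWD_cap (ρ : Fin (k + 1) → Fin r) (hρ : Function.Injective ρ) (J : Fin k → Fin n)
    (p : MvPolynomial (Fin r × Fin n) ℂ) (l : ℂ) (hl : pol r n (ρ 0) (ρ 0) p = l • p)
    (hm : ∀ m : Fin k, pol r n (ρ 0) (ρ m.succ) p = 0) :
    ∑ j : Fin n, X (ρ 0, j) * HWD_D ρ (Fin.cons j J) p =
      (l + k) • HWD_D (fun i => ρ i.succ) J p := by
  classical
  have h1 : ∑ j : Fin n, X (ρ 0, j) * HWD_D ρ (Fin.cons j J) p =
      ∑ σ : Equiv.Perm (Fin (k + 1)), ((Equiv.Perm.sign σ : ℤ) : ℂ) •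
        ∑ j : Fin n, X (ρ 0, j) * MDH.dmon (∑ s : Fin (k + 1), Finsupp.single
          (ρ (σ s), (Fin.cons j J : Fin (k + 1) → Fin n) s) 1) p := by
    unfold HWD_D
    simp only [Finset.mul_sum, Finset.smul_sum]
    rw [Finset.sum_comm]
    refine Finset.sum_congr rfl fun σ _ => Finset.sum_congr rfl fun j _ => ?_
    rw [mul_smul_comm]
  rw [h1, ← Equiv.sum_comp Equiv.Perm.decomposeFin.symm, Fintype.sum_prod_type,
    Fin.sum_univ_succ, add_smul]
  congr 1
  · unfold HWD_D
    rw [Finset.smul_sum]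
    refine Finset.sum_congr rfl fun e _ => ?_
    rw [HWD_T0 ρ hρ J p l hl e, Equiv.Perm.decomposeFin.symm_sign, if_pos rfl, one_mul, smul_comm]
  · have h2 : ∀ m : Fin k, ∑ e : Equiv.Perm (Fin k),
        (((Equiv.Perm.sign (Equiv.Perm.decomposeFin.symm (m.succ, e)) : ℤ)) : ℂ) •
        ∑ j : Fin n, X (ρ 0, j) * MDH.dmon (∑ s : Fin (k + 1), Finsupp.single
          (ρ (Equiv.Perm.decomposeFin.symm (m.succ, e) s),
            (Fin.cons j J : Fin (k + 1) → Fin n) s) 1) p =
        HWD_D (fun i => ρ i.succ) J p := by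
      intro m
      unfold HWD_D
      refine Finset.sum_congr rfl fun e _ => ?_
      rw [HWD_T1 ρ hρ J p m (hm m) e, Equiv.Perm.decomposeFin.symm_sign,
        if_neg (Fin.succ_ne_zero m)]
      push_cast
      rw [neg_one_mul, neg_smul, smul_neg, neg_neg]
    rw [Finset.sum_congr rfl fun m _ => h2 m, Finset.sum_const, Finset.card_univ,
      Fintype.card_fin, Nat.cast_smul_eq_nsmul]

end cap

/-! ### Evaluation -/

/-- the evaluation of `psi` -/
theorem HWD_ev {r n : ℕ} (hr : 0 < r) (B : Fin n →₀ ℕ) (g : MvPolynomial (Fin r × Fin n) ℂ) :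
    coeff B (aeval (R := ℂ)
      (fun q : Fin r × Fin n => if q.1.val + 1 = r then (X q.2 : S (Fin n)) else 0) g) =
      coeff (Finsupp.mapDomain (fun i : Fin n => ((⟨r - 1, by omega⟩ : Fin r), i)) B) g := by
  classical
  have he : Function.Injective (fun i : Fin n => ((⟨r - 1, by omega⟩ : Fin r), i)) :=
    fun i j hij => (Prod.mk.inj hij).2
  induction g using MvPolynomial.induction_on' with
  | add g₁ g₂ h₁ h₂ => rw [map_add, coeff_add, coeff_add, h₁, h₂]
  | monomial C c =>
    by_cases h : ∃ q : Fin r × Fin n, q.1.val + 1 ≠ r ∧ C q ≠ 0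
    · obtain ⟨q, hq1, hq2⟩ := h
      have h1 : aeval (R := ℂ)
          (fun q : Fin r × Fin n => if q.1.val + 1 = r then (X q.2 : S (Fin n)) else 0)
          (monomial C c) = 0 := by
        rw [aeval_monomial, Finsupp.prod]
        have : ∏ a ∈ C.support, (if a.1.val + 1 = r then (X a.2 : S (Fin n)) else 0) ^ C a = 0 := by
          refine Finset.prod_eq_zero (i := q) (Finsupp.mem_support_iff.2 hq2) ?_
          rw [if_neg hq1, zero_pow hq2]
        rw [this, mul_zero]
      rw [h1, coeff_zero, coeff_monomial, if_neg]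
      rintro rfl
      apply hq2
      refine Finsupp.mapDomain_of_notMem_range _ _ ?_
      rintro ⟨i, rfl⟩
      apply hq1
      show r - 1 + 1 = r
      omega
    · push Not at h
      obtain ⟨C', rfl⟩ : ∃ C', C =
          Finsupp.mapDomain (fun i : Fin n => ((⟨r - 1, by omega⟩ : Fin r), i)) C' := by
        refine ⟨_, (Finsupp.mapDomain_comapDomain _ he C ?_).symm⟩
        intro q hq
        rw [Finset.mem_coe, Finsupp.mem_support_iff] at hq
        have h2 : q.1.val + 1 = r := by
          by_contra h3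
          exact hq (h q h3)
        refine ⟨q.2, ?_⟩
        refine Prod.ext (Fin.ext ?_) rfl
        show r - 1 = q.1.val
        omega
      have h1 : aeval (R := ℂ)
          (fun q : Fin r × Fin n => if q.1.val + 1 = r then (X q.2 : S (Fin n)) else 0)
          (monomial (Finsupp.mapDomain (fun i : Fin n => ((⟨r - 1, by omega⟩ : Fin r), i)) C') c) =
          monomial C' c := by
        rw [← rename_monomial, aeval_rename]
        have h2 : (fun q : Fin r × Fin n => if q.1.val + 1 = r then (X q.2 : S (Fin n)) else 0) ∘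
            (fun i : Fin n => ((⟨r - 1, by omega⟩ : Fin r), i)) = X := by
          funext i
          show (if r - 1 + 1 = r then (X i : S (Fin n)) else 0) = X i
          rw [if_pos (by omega)]
        rw [h2, aeval_X_left]
        rfl
      rw [h1, coeff_monomial, coeff_monomial]
      by_cases h2 : C' = B
      · rw [if_pos h2, if_pos (by rw [h2])]
      · rw [if_neg h2, if_neg fun h3 => h2 (Finsupp.mapDomain_injective he h3)]

theorem HWD_exists {m : ℕ} (f : Fin m → ℕ) (hf : ∑ i, f i = 1) :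
    ∃ i, ∀ j, f j = if j = i then 1 else 0 := by
  classical
  obtain ⟨i, hi⟩ : ∃ i, f i ≠ 0 := by
    by_contra h
    push Not at h
    rw [Finset.sum_eq_zero fun i _ => h i] at hf
    exact zero_ne_one hf
  rw [← Finset.add_sum_erase Finset.univ f (Finset.mem_univ i)] at hf
  have h1 : ∑ x ∈ Finset.univ.erase i, f x = 0 := by omega
  refine ⟨i, fun j => ?_⟩
  by_cases hj : j = i
  · rw [if_pos hj, hj]
    omega
  · rw [if_neg hj]
    exact Finset.sum_eq_zero_iff.1 h1 j (Finset.mem_erase.2 ⟨hj, Finset.mem_univ _⟩)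

section main

variable {r n a b : ℕ}

theorem HWD_sum (h : a < r) (σ : Equiv.Perm (Fin a)) (J : Fin a → Fin n) (s : Fin r) :
    ∑ j : Fin n, (∑ s' : Fin a, Finsupp.single ((⟨(σ s').val, by omega⟩ : Fin r), J s') 1 :
      (Fin r × Fin n) →₀ ℕ) (s, j) = if s.val < a then 1 else 0 := by
  classical
  have h1 : ∀ j : Fin n, (∑ s' : Fin a, Finsupp.single ((⟨(σ s').val, by omega⟩ : Fin r), J s') 1 :
      (Fin r × Fin n) →₀ ℕ) (s, j) =
      ∑ s' : Fin a, if J s' = j then (if (σ s').val = s.val then 1 else 0) else 0 := by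
    intro j
    rw [Finsupp.finsetSum_apply]
    refine Finset.sum_congr rfl fun s' _ => ?_
    rw [Finsupp.single_apply]
    by_cases h2 : J s' = j
    · by_cases h3 : (σ s').val = s.val
      · rw [if_pos h2, if_pos h3, if_pos]
        exact Prod.ext (Fin.ext h3) h2
      · rw [if_pos h2, if_neg h3, if_neg]
        intro h4
        exact h3 (congrArg Fin.val (Prod.mk.inj h4).1)
    · rw [if_neg h2, if_neg]
      intro h4
      exact h2 (Prod.mk.inj h4).2
  rw [Finset.sum_congr rfl fun j _ => h1 j, Finset.sum_comm]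
  have h2 : ∀ s' : Fin a, (∑ j : Fin n,
      if J s' = j then (if (σ s').val = s.val then 1 else 0) else 0) =
      if (σ s').val = s.val then 1 else 0 := by
    intro s'
    rw [Finset.sum_ite_eq Finset.univ (J s'), if_pos (Finset.mem_univ _)]
  rw [Finset.sum_congr rfl fun s' _ => h2 s',
    Equiv.sum_comp σ (fun s' : Fin a => if s'.val = s.val then 1 else 0)]
  by_cases h3 : s.val < a
  · rw [if_pos h3, Finset.sum_eq_single (⟨s.val, h3⟩ : Fin a)]
    · rw [if_pos rfl]
    · intro t _ ht
      rw [if_neg]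
      intro h4
      exact ht (Fin.ext h4)
    · intro h4
      exact absurd (Finset.mem_univ _) h4
  · rw [if_neg h3]
    refine Finset.sum_eq_zero fun t _ => ?_
    rw [if_neg]
    have := t.isLt
    omega

theorem HWD_first (h : a < r) (hb : b ≤ a) (p : MvPolynomial (Fin r × Fin n) ℂ)
    (hdeg : ∀ A ∈ p.support, ∀ s : Fin r, s.val + 1 < r →
      ∑ j : Fin n, A (s, j) = if s.val < b then 2 else if s.val < a then 1 else 0)
    (h0 : psi h hb p = 0) (J : Fin a → Fin n) :
    HWD_D (fun s : Fin a => (⟨s.val, by omega⟩ : Fin r)) J p = 0 := by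
  classical
  by_contra hne
  obtain ⟨A, hA⟩ := MvPolynomial.ne_zero_iff.1 hne
  have hrow : ∀ s : Fin r, s.val + 1 < r →
      ∑ j : Fin n, A (s, j) = if s.val < b then 1 else 0 := by
    intro s hs
    obtain ⟨σ, hσ⟩ : ∃ σ : Equiv.Perm (Fin a), coeff A (MDH.dmon
        (∑ s', Finsupp.single ((⟨(σ s').val, by omega⟩ : Fin r), J s') 1) p) ≠ 0 := by
      by_contra h2
      push Not at h2
      apply hA
      unfold HWD_D
      rw [coeff_sum]
      refine Finset.sum_eq_zero fun σ _ => ?_
      rw [coeff_smul, h2 σ, smul_zero]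
    rw [HWD_coeff] at hσ
    have h2 := hdeg _ (mem_support_iff.2 (right_ne_zero_of_mul hσ)) s hs
    simp only [Finsupp.add_apply, Finset.sum_add_distrib] at h2
    rw [HWD_sum h σ J s] at h2
    split_ifs at h2 ⊢ <;> omega
  have hK : ∀ t : Fin b, ∃ i, ∀ j, A ((⟨t.val, by omega⟩ : Fin r), j) = if j = i then 1 else 0 := by
    intro t
    refine HWD_exists _ ?_
    rw [hrow _ (by show t.val + 1 < r; omega), if_pos t.isLt]
  choose K hK using hK
  set B : Fin n →₀ ℕ := Finsupp.equivFunOnFinite.symm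
    (fun i => A ((⟨r - 1, by omega⟩ : Fin r), i)) with hB
  have he : Function.Injective (fun i : Fin n => ((⟨r - 1, by omega⟩ : Fin r), i)) :=
    fun i j hij => (Prod.mk.inj hij).2
  have hAB : A = Finsupp.mapDomain (fun i : Fin n => ((⟨r - 1, by omega⟩ : Fin r), i)) B +
      ∑ t : Fin b, Finsupp.single ((⟨t.val, by omega⟩ : Fin r), K t) 1 := by
    have hr1 : r - 1 < r := by omega
    ext ⟨s, j⟩
    rw [Finsupp.add_apply, Finsupp.finsetSum_apply]
    by_cases hs : s.val + 1 = r
    · have h1 : s = ⟨r - 1, hr1⟩ := Fin.ext (by show s.val = r - 1; omega)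
      subst h1
      have h2 := Finsupp.mapDomain_apply he B j
      have h3 : B j = A ((⟨r - 1, by omega⟩ : Fin r), j) := rfl
      rw [h2, h3, Finset.sum_eq_zero, add_zero]
      intro t _
      rw [Finsupp.single_apply, if_neg]
      intro h4
      have h5 := congrArg Fin.val (Prod.mk.inj h4).1
      have h6 : t.val = r - 1 := h5
      have := t.isLt
      omega
    · have h1 : Finsupp.mapDomain (fun i : Fin n => ((⟨r - 1, by omega⟩ : Fin r), i)) B (s, j) =
          0 := by
        refine Finsupp.mapDomain_of_notMem_range _ _ ?_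
        rintro ⟨i, hi⟩
        apply hs
        have h5 := congrArg Fin.val (Prod.mk.inj hi).1
        have h6 : r - 1 = s.val := h5
        omega
      rw [h1, zero_add]
      have hs2 := s.isLt
      by_cases hsb : s.val < b
      · rw [Finset.sum_eq_single (⟨s.val, hsb⟩ : Fin b)]
        · have h2 := hK ⟨s.val, hsb⟩ j
          have h3 : A (s, j) = if j = K ⟨s.val, hsb⟩ then 1 else 0 := h2
          rw [h3, Finsupp.single_apply]
          by_cases h4 : j = K ⟨s.val, hsb⟩
          · rw [if_pos h4, if_pos (by rw [← h4])]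
          · rw [if_neg h4, if_neg]
            intro h5
            exact h4 (Prod.mk.inj h5).2.symm
        · intro t _ ht
          rw [Finsupp.single_apply, if_neg]
          intro h4
          have h5 := congrArg Fin.val (Prod.mk.inj h4).1
          exact ht (Fin.ext h5)
        · intro h4
          exact absurd (Finset.mem_univ _) h4
      · have h2 := hrow s (by omega)
        rw [if_neg hsb] at h2
        rw [Finset.sum_eq_zero_iff.1 h2 j (Finset.mem_univ _), Finset.sum_eq_zero]
        intro t _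
        rw [Finsupp.single_apply, if_neg]
        intro h4
        have h5 := congrArg Fin.val (Prod.mk.inj h4).1
        have h6 : t.val = s.val := h5
        have := t.isLt
        omega
  have h1 : psi h hb p (J, K) = aeval (R := ℂ)
      (fun q : Fin r × Fin n => if q.1.val + 1 = r then (X q.2 : S (Fin n)) else 0)
      (MDH.dmon (∑ t : Fin b, Finsupp.single ((⟨t.val, by omega⟩ : Fin r), K t) 1)
        (HWD_D (fun s : Fin a => (⟨s.val, by omega⟩ : Fin r)) J p)) := by
    unfold HWD_D
    rw [map_sum (MDH.dmon _)]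
    show aeval (R := ℂ) _ (∑ σ : Equiv.Perm (Fin a), _) = _
    refine congrArg _ (Finset.sum_congr rfl fun σ _ => ?_)
    rw [map_smul, MDH.DHC_dmon_add]
  have h2 : coeff B (psi h hb p (J, K)) ≠ 0 := by
    rw [h1, HWD_ev (by omega), HWD_coeff, ← hAB]
    refine mul_ne_zero (Finset.prod_ne_zero_iff.2 fun q _ => ?_) hA
    rw [Nat.cast_ne_zero, Ne, Nat.descFactorial_eq_zero_iff_lt, hAB, Finsupp.add_apply]
    omega
  rw [h0, Pi.zero_apply, coeff_zero] at h2
  exact h2 rfl

theorem HWD_desc (h : a < r) (hb : b ≤ a) (p : MvPolynomial (Fin r × Fin n) ℂ)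
    (hdeg : ∀ A ∈ p.support, ∀ s : Fin r, s.val + 1 < r →
      ∑ j : Fin n, A (s, j) = if s.val < b then 2 else if s.val < a then 1 else 0)
    (hpol : ∀ s s' : Fin r, s < s' → s'.val + 1 < r → pol r n s s' p = 0)
    (h0 : ∀ J : Fin a → Fin n, HWD_D (fun s : Fin a => (⟨s.val, by omega⟩ : Fin r)) J p = 0) :
    ∀ (k m : ℕ) (hm : m + k = a) (J : Fin m → Fin n),
      HWD_D (fun s : Fin m => (⟨k + s.val, by omega⟩ : Fin r)) J p = 0 := by
  classical
  intro k
  induction k with
  | zero =>
    intro m hm J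
    have hm' : m = a := by omega
    subst hm'
    have h1 : (fun s : Fin m => (⟨0 + s.val, by omega⟩ : Fin r)) =
        fun s : Fin m => (⟨s.val, by omega⟩ : Fin r) := by
      funext s
      exact Fin.ext (Nat.zero_add _)
    rw [h1]
    exact h0 J
  | succ k ih =>
    intro m hm J
    have ih' := ih (m + 1) (by omega)
    set ρ : Fin (m + 1) → Fin r := fun s => (⟨k + s.val, by omega⟩ : Fin r) with hρ
    have hinj : Function.Injective ρ := by
      intro s t hst
      have h1 := congrArg Fin.val hst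
      have h2 : k + s.val = k + t.val := h1
      exact Fin.ext (by omega)
    have hl : pol r n (ρ 0) (ρ 0) p = (((if k < b then 2 else 1 : ℕ)) : ℂ) • p := by
      refine HWD_euler _ _ _ fun A hA => ?_
      have h1 := hdeg A hA (ρ 0) (by show k + 0 + 1 < r; omega)
      have h2 : (ρ 0).val = k := rfl
      rw [h1, h2]
      split_ifs <;> first | rfl | omega
    have hcap := HWD_cap ρ hinj J p _ hl (fun i => hpol _ _
      (by show k + 0 < k + i.succ.val; rw [Fin.val_succ]; omega)
      (by show k + i.succ.val + 1 < r; rw [Fin.val_succ]; omega))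
    rw [Finset.sum_congr rfl fun j _ => by rw [ih' (Fin.cons j J), mul_zero],
      Finset.sum_const_zero] at hcap
    have h1 : (fun i : Fin m => ρ i.succ) = fun s : Fin m => (⟨k + 1 + s.val, by omega⟩ : Fin r) := by
      funext s
      refine Fin.ext ?_
      show k + s.succ.val = k + 1 + s.val
      rw [Fin.val_succ]
      omega
    rw [h1] at hcap
    rcases smul_eq_zero.1 hcap.symm with h2 | h2
    · exfalso
      rw [← Nat.cast_add, Nat.cast_eq_zero] at h2
      split_ifs at h2 <;> omega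
    · exact h2

/-- [HWD] -/
theorem thm_HWD : St_HWD := by
  classical
  rintro r n a b h hb p ⟨-, hdeg, hpol⟩ h0
  have h1 := HWD_desc h hb p hdeg hpol (HWD_first h hb p hdeg h0) a 0 (by omega) Fin.elim0
  have h2 : HWD_D (fun s : Fin 0 => (⟨a + s.val, by omega⟩ : Fin r)) Fin.elim0 p = p := by
    unfold HWD_D
    rw [Fintype.sum_unique]
    have h3 : (∑ s : Fin 0, Finsupp.single ((⟨a + ((default : Equiv.Perm (Fin 0)) s).val,
        by omega⟩ : Fin r), (Fin.elim0 s : Fin n)) 1 : (Fin r × Fin n) →₀ ℕ) = 0 :=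
      Finset.sum_of_isEmpty _
    rw [h3]
    have h4 : MDH.dmon 0 p = p := by
      ext C
      rw [HWD_coeff, Finsupp.support_zero, Finset.prod_empty, one_mul, add_zero]
    rw [h4, show (default : Equiv.Perm (Fin 0)) = 1 from rfl, Equiv.Perm.sign_one]
    simp
  rw [h2] at h1
  exact h1

end main

end MDC
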