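import Pool.Agent.MDC.StE
import Pool.Agent.MDH.LNK

/-!
# MDC, module HWL: the linear equivalence between `hwPart` and `HK` (helper13)

Statement and proof: see `St_HWL` in `Pool/Agent/MDC/StE.lean`.
-/

set_option autoImplicit false

open MvPolynomial

namespace MDC

section

variable {r n a b : ℕ}

/-- the permutation of the variables -/
def HWL_e (r : ℕ) {n : ℕ} (w : Equiv.Perm (Fin n)) : Equiv.Perm (Fin r × Fin n) :=
  Equiv.prodCongr (Equiv.refl _) w

theorem HWL_e_apply (w : Equiv.Perm (Fin n)) (q : Fin r × Fin n) : HWL_e r w q = (q.1, w q.2) :=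
  rfl

theorem HWL_act (w : Equiv.Perm (Fin n)) (p : MvPolynomial (Fin r × Fin n) ℂ) :
    MDH.act r n w p = rename (HWL_e r w) p := rfl

theorem HWL_diffOp {σ : Type} [Fintype σ] (e : Equiv.Perm σ) (f p : MvPolynomial σ ℂ) :
    MDH.diffOp (rename e f) (rename e p) = rename e (MDH.diffOp f p) := by
  classical
  unfold MDH.diffOp
  rw [support_rename_of_injective e.injective, Finset.sum_image, map_sum]
  · refine Finset.sum_congr rfl fun A _ => ?_
    rw [coeff_rename_mapDomain _ e.injective, MDH.LNK_dmon_rename, map_smul]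
  · intro A _ B _ h
    exact Finsupp.mapDomain_injective e.injective h

theorem HWL_pol (w : Equiv.Perm (Fin n)) (s s' : Fin r) (p : MvPolynomial (Fin r × Fin n) ℂ) :
    pol r n s s' (MDH.act r n w p) = MDH.act r n w (pol r n s s' p) := by
  change ∑ j : Fin n, X (s, j) * pderiv (s', j) (rename (HWL_e r w) p) =
    rename (HWL_e r w) (∑ j : Fin n, X (s, j) * pderiv (s', j) p)
  rw [map_sum, ← Equiv.sum_comp w]
  refine Finset.sum_congr rfl fun j _ => ?_
  have h1 : (s', w j) = HWL_e r w (s', j) := rfl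
  rw [map_mul, rename_X, h1, pderiv_rename (HWL_e r w).injective]
  rfl

theorem HWL_stab (w : Equiv.Perm (Fin n)) (p : MvPolynomial (Fin r × Fin n) ℂ)
    (hp : p ∈ hwPart r n a b) : MDH.act r n w p ∈ hwPart r n a b := by
  classical
  obtain ⟨h1, h2, h3⟩ := hp
  refine ⟨?_, ?_, ?_⟩
  · intro f hf hf0
    have h4 : f = rename (HWL_e r w) f := (hf w).symm
    rw [HWL_act]
    conv_lhs => rw [h4]
    rw [HWL_diffOp, h1 f hf hf0, map_zero]
  · intro A hA x hx
    rw [HWL_act, support_rename_of_injective (HWL_e r w).injective] at hA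
    obtain ⟨B, hB, rfl⟩ := Finset.mem_image.1 hA
    rw [← h2 B hB x hx, ← Equiv.sum_comp w]
    refine Finset.sum_congr rfl fun i _ => ?_
    have h5 : (x, w i) = HWL_e r w (x, i) := rfl
    rw [h5, Finsupp.mapDomain_apply (HWL_e r w).injective]
  · intro s s' hs hs'
    rw [HWL_pol, h3 s s' hs hs', map_zero]

/-- `psi` at one index -/
theorem HWL_psi_apply (h : a < r) (hb : b ≤ a) (p : MvPolynomial (Fin r × Fin n) ℂ)
    (x : Ix a b (Fin n)) : psi h hb p x = aeval (R := ℂ)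
    (fun q : Fin r × Fin n => if q.1.val + 1 = r then (X q.2 : S (Fin n)) else 0)
    (∑ σ : Equiv.Perm (Fin a), ((Equiv.Perm.sign σ : ℤ) : ℂ) • MDH.dmon
      (∑ t : Fin b, Finsupp.single ((⟨t.val, by omega⟩ : Fin r), x.2 t) 1 +
        ∑ s : Fin a, Finsupp.single ((⟨(σ s).val, by omega⟩ : Fin r), x.1 s) 1) p) := rfl

theorem HWL_psi_act (h : a < r) (hb : b ≤ a) (w : Equiv.Perm (Fin n))
    (p : MvPolynomial (Fin r × Fin n) ℂ) :
    psi h hb (MDH.act r n w p) = actT w (psi h hb p) := by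
  funext x
  change psi h hb (MDH.act r n w p) x =
    rename w (psi h hb p (fun s => w⁻¹ (x.1 s), fun t => w⁻¹ (x.2 t)))
  rw [HWL_psi_apply, HWL_psi_apply, HWL_act]
  have h1 : ∀ σ : Equiv.Perm (Fin a),
      (∑ t : Fin b, Finsupp.single ((⟨t.val, by omega⟩ : Fin r), x.2 t) 1 +
        ∑ s : Fin a, Finsupp.single ((⟨(σ s).val, by omega⟩ : Fin r), x.1 s) 1 :
        (Fin r × Fin n) →₀ ℕ) =
      Finsupp.mapDomain (HWL_e r w)
        (∑ t : Fin b, Finsupp.single ((⟨t.val, by omega⟩ : Fin r), w⁻¹ (x.2 t)) 1 +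
        ∑ s : Fin a, Finsupp.single ((⟨(σ s).val, by omega⟩ : Fin r), w⁻¹ (x.1 s)) 1) := by
    intro σ
    have h2 : ∀ i : Fin n, w (w⁻¹ i) = i := fun i => w.apply_symm_apply i
    rw [Finsupp.mapDomain_add, Finsupp.mapDomain_finsetSum, Finsupp.mapDomain_finsetSum]
    simp only [Finsupp.mapDomain_single, HWL_e_apply, h2]
  simp only [h1, MDH.LNK_dmon_rename]
  have h3 : ∑ σ : Equiv.Perm (Fin a), ((Equiv.Perm.sign σ : ℤ) : ℂ) • rename (HWL_e r w)
      (MDH.dmon (∑ t : Fin b, Finsupp.single ((⟨t.val, by omega⟩ : Fin r), w⁻¹ (x.2 t)) 1 +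
        ∑ s : Fin a, Finsupp.single ((⟨(σ s).val, by omega⟩ : Fin r), w⁻¹ (x.1 s)) 1) p) =
      rename (HWL_e r w) (∑ σ : Equiv.Perm (Fin a), ((Equiv.Perm.sign σ : ℤ) : ℂ) •
      MDH.dmon (∑ t : Fin b, Finsupp.single ((⟨t.val, by omega⟩ : Fin r), w⁻¹ (x.2 t)) 1 +
        ∑ s : Fin a, Finsupp.single ((⟨(σ s).val, by omega⟩ : Fin r), w⁻¹ (x.1 s)) 1) p) := by
    rw [map_sum]
    refine Finset.sum_congr rfl fun σ _ => ?_
    rw [map_smul]
  rw [h3, aeval_rename]
  obtain ⟨P, hP⟩ : ∃ P, P = ∑ σ : Equiv.Perm (Fin a), ((Equiv.Perm.sign σ : ℤ) : ℂ) •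
      MDH.dmon (∑ t : Fin b, Finsupp.single ((⟨t.val, by omega⟩ : Fin r), w⁻¹ (x.2 t)) 1 +
        ∑ s : Fin a, Finsupp.single ((⟨(σ s).val, by omega⟩ : Fin r), w⁻¹ (x.1 s)) 1) p :=
    ⟨_, rfl⟩
  rw [← hP]
  have h4 : (aeval (R := ℂ) ((fun q : Fin r × Fin n => if q.1.val + 1 = r then
      (X q.2 : S (Fin n)) else 0) ∘ (HWL_e r w)) : MvPolynomial (Fin r × Fin n) ℂ →ₐ[ℂ] S (Fin n)) =
      (rename (R := ℂ) w).comp (aeval (R := ℂ)
        (fun q : Fin r × Fin n => if q.1.val + 1 = r then (X q.2 : S (Fin n)) else 0)) := by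
    apply MvPolynomial.algHom_ext
    intro q
    rw [aeval_X, AlgHom.comp_apply, aeval_X]
    change (if q.1.val + 1 = r then (X (w q.2) : S (Fin n)) else 0) = _
    by_cases hq : q.1.val + 1 = r
    · rw [if_pos hq, if_pos hq, rename_X]
    · rw [if_neg hq, if_neg hq, map_zero]
  rw [h4]
  rfl

end

theorem thm_HWL (hHWA : St_HWA) (hHWB : St_HWB) (hHWC : St_HWC) (hHWD : St_HWD) : St_HWL := by
  intro r n a b hb h
  refine ⟨fun w p hp => HWL_stab w p hp, ?_⟩
  let φ : hwPart r n a b →ₗ[ℂ] HK a b n := (psi h hb).restrict (hHWA r n a b h hb)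
  have hφ : ∀ p : hwPart r n a b, ((φ p : HK a b n) : T a b (Fin n)) =
      psi h hb (p : MvPolynomial (Fin r × Fin n) ℂ) := fun p => rfl
  obtain ⟨κ, hκ⟩ : ∃ κ : ℕ, κ = ∑ q ∈ Finset.range (b + 1), b.choose q * (a - q).factorial *
      q.factorial := ⟨_, rfl⟩
  have hκ0 : (κ : ℂ) ≠ 0 := by
    have h1 : 0 < κ := by
      rw [hκ]
      refine Finset.sum_pos' (fun _ _ => Nat.zero_le _) ⟨0, Finset.mem_range.mpr (by omega), ?_⟩
      rw [Nat.choose_zero_right, one_mul, Nat.factorial_zero, mul_one]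
      exact Nat.factorial_pos _
    exact_mod_cast h1.ne'
  have hbij : Function.Bijective φ := by
    constructor
    · rw [injective_iff_map_eq_zero]
      intro p hp
      have h1 : psi h hb (p : MvPolynomial (Fin r × Fin n) ℂ) = 0 := by
        rw [← hφ, hp]
        rfl
      exact Subtype.ext (hHWD r n a b h hb p p.2 h1)
    · intro c
      have h1 : psi' h hb (c : T a b (Fin n)) ∈ hwPart r n a b := hHWB r n a b h hb c c.2.1
      refine ⟨(κ : ℂ)⁻¹ • ⟨psi' h hb (c : T a b (Fin n)), h1⟩, ?_⟩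
      apply Subtype.ext
      rw [map_smul]
      change (κ : ℂ)⁻¹ • psi h hb (psi' h hb (c : T a b (Fin n))) = c
      rw [hHWC r n a b h hb c c.2, ← hκ, smul_smul, inv_mul_cancel₀ hκ0, one_smul]
  refine ⟨LinearEquiv.ofBijective φ hbij, fun w p q hq => ?_⟩
  change psi h hb (q : MvPolynomial (Fin r × Fin n) ℂ) =
    actT w (psi h hb (p : MvPolynomial (Fin r × Fin n) ℂ))
  rw [hq, HWL_psi_act]

end MDC
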