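import Pool.Agent.MDC.StA

/-!
# MDC, module IDL: the dimension bound for `S / I` by downward induction (helper21)
-/

set_option autoImplicit false

open MvPolynomial

namespace MDC

/-! ### Power series -/

section series

variable {A ι : Type} [CommRing A]

/-- `1 - z t` -/
noncomputable def IDL_L (z : A) : PowerSeries A := 1 - PowerSeries.C z * PowerSeries.X

/-- `1 / (1 - z t)` -/
noncomputable def IDL_N (z : A) : PowerSeries A := PowerSeries.mk fun q => z ^ q

theorem IDL_cf (z : A) (F : PowerSeries A) (r : ℕ) : PowerSeries.coeff (r + 1) (IDL_L z * F) =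
    PowerSeries.coeff (r + 1) F - z * PowerSeries.coeff r F := by
  unfold IDL_L
  rw [sub_mul, one_mul, mul_assoc, map_sub, PowerSeries.coeff_C_mul,
    PowerSeries.coeff_succ_X_mul]

theorem IDL_cf0 (z : A) (F : PowerSeries A) : PowerSeries.coeff 0 (IDL_L z * F) =
    PowerSeries.coeff 0 F := by
  unfold IDL_L
  rw [sub_mul, one_mul, mul_assoc, map_sub, PowerSeries.coeff_C_mul,
    PowerSeries.coeff_zero_X_mul, mul_zero, sub_zero]

theorem IDL_LN (z : A) : IDL_L z * IDL_N z = 1 := by
  apply PowerSeries.ext
  intro r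
  cases r with
  | zero =>
    rw [IDL_cf0, IDL_N, PowerSeries.coeff_mk, PowerSeries.coeff_one, if_pos rfl, pow_zero]
  | succ r =>
    rw [IDL_cf, IDL_N, PowerSeries.coeff_mk, PowerSeries.coeff_mk, PowerSeries.coeff_one,
      if_neg (Nat.succ_ne_zero r), pow_succ]
    ring

theorem IDL_prod1 (y : ι → A) (K : Finset ι) (z : A) (r : ℕ) :
    PowerSeries.coeff (r + K.card) ((∏ k ∈ K, IDL_L (y k)) * IDL_N z) =
      z ^ r * ∏ k ∈ K, (z - y k) := by
  classical
  induction K using Finset.induction_on generalizing r with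
  | empty =>
    rw [Finset.prod_empty, Finset.prod_empty, one_mul, mul_one, Finset.card_empty, add_zero,
      IDL_N, PowerSeries.coeff_mk]
  | insert a K ha ih =>
    rw [Finset.prod_insert ha, Finset.prod_insert ha, Finset.card_insert_of_notMem ha, mul_assoc,
      ← add_assoc, IDL_cf]
    have h1 := ih r
    have h2 := ih (r + 1)
    rw [add_right_comm r 1 K.card] at h2
    rw [h1, h2, pow_succ]
    ring

theorem IDL_prod2 (y : ι → A) (K : Finset ι) (r : ℕ) (h : K.card < r) :
    PowerSeries.coeff r (∏ k ∈ K, IDL_L (y k)) = 0 := by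
  classical
  induction K using Finset.induction_on generalizing r with
  | empty =>
    rw [Finset.prod_empty, PowerSeries.coeff_one, if_neg]
    rw [Finset.card_empty] at h
    exact h.ne'
  | insert a K ha ih =>
    rw [Finset.card_insert_of_notMem ha] at h
    obtain ⟨r', rfl⟩ : ∃ r', r = r' + 1 := ⟨r - 1, by omega⟩
    rw [Finset.prod_insert ha, IDL_cf, ih _ (by omega), ih _ (by omega), mul_zero, sub_zero]

/-- grouping of the factors by classes -/
theorem IDL_grp [DecidableEq ι] (y : ι → A) (P K : Finset ι) (g : ι → ι) (w : ι → ℕ)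
    (hg : ∀ i ∈ P, g i ∈ K) (hy : ∀ i ∈ P, y i = y (g i))
    (hc : ∀ k ∈ K, ∑ i ∈ P.filter (fun i => g i = k), (1 - (w i : ℤ)) = 1) :
    (∏ i ∈ P, IDL_L (y i)) * ∏ i ∈ P, IDL_N (y i) ^ w i = ∏ k ∈ K, IDL_L (y k) := by
  rw [← Finset.prod_mul_distrib, ← Finset.prod_fiberwise_of_maps_to hg]
  refine Finset.prod_congr rfl fun k hk => ?_
  have h1 : ∏ i ∈ P.filter (fun i => g i = k), IDL_L (y i) * IDL_N (y i) ^ w i =
      IDL_L (y k) ^ (P.filter (fun i => g i = k)).card *
        IDL_N (y k) ^ ∑ i ∈ P.filter (fun i => g i = k), w i := by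
    rw [← Finset.prod_const, ← Finset.prod_pow_eq_pow_sum, ← Finset.prod_mul_distrib]
    refine Finset.prod_congr rfl fun i hi => ?_
    obtain ⟨hi1, hi2⟩ := Finset.mem_filter.1 hi
    rw [hy i hi1, hi2]
  have h2 := hc k hk
  rw [Finset.sum_sub_distrib, Finset.sum_const, nsmul_eq_mul, mul_one, ← Nat.cast_sum] at h2
  have h3 : (P.filter (fun i => g i = k)).card = ∑ i ∈ P.filter (fun i => g i = k), w i + 1 := by
    omega
  rw [h1, h3, pow_succ, mul_right_comm, ← mul_pow, IDL_LN, one_pow, one_mul]

/-- the second relation -/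
theorem IDL_k2 [DecidableEq ι] (y : ι → A) (K : Finset ι) (k : ι) (hk : k ∈ K) (Q : Finset ι)
    (g : ι → ι) (hg : ∀ j ∈ Q, g j ∈ K) (hy : ∀ j ∈ Q, y j = y (g j)) :
    PowerSeries.coeff (K.card - 1)
      ((∏ k' ∈ K, IDL_L (y k')) * IDL_N (y k) * ∑ j ∈ Q, IDL_N (y j)) =
      ((Q.filter (fun j => g j = k)).card : A) * ∏ k' ∈ K.erase k, (y k - y k') := by
  have h1 : (∏ k' ∈ K, IDL_L (y k')) * IDL_N (y k) = ∏ k' ∈ K.erase k, IDL_L (y k') := by
    rw [← Finset.mul_prod_erase K _ hk, mul_right_comm, IDL_LN, one_mul]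
  rw [h1, Finset.mul_sum, map_sum, Finset.card_filter, Nat.cast_sum, Finset.sum_mul]
  refine Finset.sum_congr rfl fun j hj => ?_
  rw [hy j hj]
  by_cases hjk : g j = k
  · rw [if_pos hjk, hjk, Nat.cast_one, one_mul, ← Finset.card_erase_of_mem hk]
    have h2 := IDL_prod1 y (K.erase k) (y k) 0
    rw [zero_add, pow_zero, one_mul] at h2
    exact h2
  · rw [if_neg hjk, Nat.cast_zero, zero_mul]
    have hj2 : g j ∈ K.erase k := Finset.mem_erase.2 ⟨hjk, hg j hj⟩
    have h2 : (∏ k' ∈ K.erase k, IDL_L (y k')) * IDL_N (y (g j)) =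
        ∏ k' ∈ (K.erase k).erase (g j), IDL_L (y k') := by
      rw [← Finset.mul_prod_erase (K.erase k) _ hj2, mul_right_comm, IDL_LN, one_mul]
    rw [h2]
    apply IDL_prod2
    have h3 := Finset.card_pos.2 ⟨_, hj2⟩
    rw [Finset.card_erase_of_mem hj2, ← Finset.card_erase_of_mem hk]
    omega

end series

/-! ### The quotient maps -/

section quot

variable {n : ℕ} (J : Ideal (S (Fin n)))

theorem IDL_map_lin (i : Fin n) : PowerSeries.map (Ideal.Quotient.mk J) (lin i) =
    IDL_L (Ideal.Quotient.mk J (X i : S (Fin n))) := by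
  unfold lin IDL_L
  rw [map_sub, map_one, map_mul, PowerSeries.map_C, PowerSeries.map_X]

theorem IDL_map_inv (i : Fin n) : PowerSeries.map (Ideal.Quotient.mk J) (inv i) =
    IDL_N (Ideal.Quotient.mk J (X i : S (Fin n))) := by
  apply PowerSeries.ext
  intro r
  rw [PowerSeries.coeff_map, inv, IDL_N, PowerSeries.coeff_mk, PowerSeries.coeff_mk, map_pow]

theorem IDL_map_Wp (w : Fin n → ℕ) (p : ℕ) : PowerSeries.map (Ideal.Quotient.mk J) (Wp w p) =
    (∏ i ∈ Finset.univ.filter (fun i : Fin n => i.val < p),
        IDL_L (Ideal.Quotient.mk J (X i : S (Fin n)))) *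
      ∏ i ∈ Finset.univ.filter (fun i : Fin n => i.val < p),
        IDL_N (Ideal.Quotient.mk J (X i : S (Fin n))) ^ w i := by
  unfold Wp
  rw [map_mul, map_prod, map_prod]
  congr 1
  · exact Finset.prod_congr rfl fun i _ => IDL_map_lin J i
  · exact Finset.prod_congr rfl fun i _ => by rw [map_pow, IDL_map_inv]

theorem IDL_map_PPp (p : ℕ) : PowerSeries.map (Ideal.Quotient.mk J) (PPp n p) =
    ∑ i ∈ Finset.univ.filter (fun i : Fin n => i.val < p),
      IDL_N (Ideal.Quotient.mk J (X i : S (Fin n))) := by
  unfold PPp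
  rw [map_sum]
  exact Finset.sum_congr rfl fun i _ => IDL_map_inv J i

/-- natural numbers are invertible modulo an ideal -/
theorem IDL_cancel (b : ℕ) (hb : 0 < b) (x : S (Fin n)) (h : (b : S (Fin n)) * x ∈ J) : x ∈ J := by
  have h1 : x = C (1 / (b : ℂ)) * ((b : S (Fin n)) * x) := by
    have hb' : (b : ℂ) ≠ 0 := by exact_mod_cast hb.ne'
    rw [← mul_assoc, ← map_natCast (C : ℂ →+* S (Fin n)) b, ← C_mul, one_div,
      inv_mul_cancel₀ hb', C_1, one_mul]
  rw [h1]
  exact J.mul_mem_left _ h

end quot

/-! ### The states of the induction -/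

/-- the indices `< p` are grouped in the classes of `K` -/
structure IDLst {n : ℕ} (w : Fin n → ℕ) (p : ℕ) (J : Ideal (S (Fin n))) (K : Finset (Fin n))
    (g : Fin n → Fin n) : Prop where
  lt : ∀ k ∈ K, k.val < p
  fx : ∀ k ∈ K, g k = k
  gK : ∀ i : Fin n, i.val < p → g i ∈ K
  md : ∀ i : Fin n, i.val < p → (X i : S (Fin n)) - X (g i) ∈ J
  cl : ∀ k ∈ K, ∑ i ∈ (Finset.univ.filter (fun i : Fin n => i.val < p)).filter
    (fun i => g i = k), (1 - (w i : ℤ)) = 1

/-- the factor of an index -/
def IDL_fac {n : ℕ} (w : Fin n → ℕ) (i : Fin n) : ℕ := if w i = 0 then 1 else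
  if w i = 1 then i.val - pw w i.val else (i.val - pw w i.val) * (i.val - pw w i.val - 1)

section states

variable {n : ℕ} {w : Fin n → ℕ} {p : ℕ} {J : Ideal (S (Fin n))} {K : Finset (Fin n)}
  {g : Fin n → Fin n}

theorem IDL_card (h : IDLst w p J K g) (hp : p ≤ n) : K.card + pw w p = p := by
  have h1 : ∑ k ∈ K, (1 : ℤ) = ∑ i ∈ Finset.univ.filter (fun i : Fin n => i.val < p),
      (1 - (w i : ℤ)) := by
    rw [← Finset.sum_fiberwise_of_maps_to (t := K) (g := g) (fun i hi =>
      h.gK i (Finset.mem_filter.1 hi).2)]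
    exact Finset.sum_congr rfl fun k hk => (h.cl k hk).symm
  have h2 : (Finset.univ.filter (fun i : Fin n => i.val < p)).card = p := by
    rw [Fin.card_filter_val_lt]
    exact min_eq_right hp
  rw [Finset.sum_const, nsmul_eq_mul, mul_one, Finset.sum_sub_distrib, Finset.sum_const,
    nsmul_eq_mul, mul_one, h2, ← Nat.cast_sum] at h1
  unfold pw
  omega

theorem IDL_mod (h : IDLst w p J K g) (i : Fin n) (hi : i.val < p) :
    Ideal.Quotient.mk J (X i : S (Fin n)) = Ideal.Quotient.mk J (X (g i)) :=
  Ideal.Quotient.eq.2 (h.md i hi)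

theorem IDL_W (h : IDLst w p J K g) : PowerSeries.map (Ideal.Quotient.mk J) (Wp w p) =
    ∏ k ∈ K, IDL_L (Ideal.Quotient.mk J (X k : S (Fin n))) := by
  rw [IDL_map_Wp]
  exact IDL_grp (fun i => Ideal.Quotient.mk J (X i : S (Fin n))) _ K g w
    (fun i hi => h.gK i (Finset.mem_filter.1 hi).2)
    (fun i hi => IDL_mod h i (Finset.mem_filter.1 hi).2) h.cl

/-- first relation -/
theorem IDL_rel1 (h : IDLst w p J K g) (i : Fin n)
    (hc : PowerSeries.coeff K.card (Wp w p * inv i) ∈ J) :
    ∏ k ∈ K, ((X i : S (Fin n)) - X k) ∈ J := by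
  rw [← Ideal.Quotient.eq_zero_iff_mem, ← PowerSeries.coeff_map, map_mul, IDL_W h,
    IDL_map_inv] at hc
  have h1 := IDL_prod1 (fun k => Ideal.Quotient.mk J (X k : S (Fin n))) K
    (Ideal.Quotient.mk J (X i : S (Fin n))) 0
  rw [zero_add, pow_zero, one_mul, hc] at h1
  rw [← Ideal.Quotient.eq_zero_iff_mem, map_prod, h1]
  exact Finset.prod_congr rfl fun k _ => map_sub _ _ _

theorem IDL_mono (h : IDLst w p J K g) {J' : Ideal (S (Fin n))} (hJ : J ≤ J') :
    IDLst w p J' K g :=
  ⟨h.lt, h.fx, h.gK, fun i hi => hJ (h.md i hi), h.cl⟩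

/-- second relation -/
theorem IDL_rel2 (h : IDLst w p J K g) (i k : Fin n) (hi : i.val = p) (hk : k ∈ K)
    (hik : (X i : S (Fin n)) - X k ∈ J)
    (hc : PowerSeries.coeff (K.card - 1) (Wp w p * inv i * PPp n (p + 1)) ∈ J) :
    ∏ k' ∈ K.erase k, ((X k : S (Fin n)) - X k') ∈ J := by
  classical
  have e1 : Ideal.Quotient.mk J (X i : S (Fin n)) = Ideal.Quotient.mk J (X k) :=
    Ideal.Quotient.eq.2 hik
  rw [← Ideal.Quotient.eq_zero_iff_mem, ← PowerSeries.coeff_map,
    map_mul (PowerSeries.map (Ideal.Quotient.mk J)),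
    map_mul (PowerSeries.map (Ideal.Quotient.mk J)), IDL_W h,
    IDL_map_inv, IDL_map_PPp, e1] at hc
  have h1 := IDL_k2 (fun k => Ideal.Quotient.mk J (X k : S (Fin n))) K k hk
    (Finset.univ.filter (fun i : Fin n => i.val < p + 1)) (Function.update g i k)
    (fun j hj => by
      by_cases hj2 : j = i
      · rw [hj2, Function.update_self]; exact hk
      · rw [Function.update_of_ne hj2]
        have h3 := (Finset.mem_filter.1 hj).2
        have h4 : j.val ≠ i.val := fun h => hj2 (Fin.ext h)
        exact h.gK j (by omega))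
    (fun j hj => by
      by_cases hj2 : j = i
      · rw [hj2, Function.update_self]; exact e1
      · rw [Function.update_of_ne hj2]
        have h3 := (Finset.mem_filter.1 hj).2
        have h4 : j.val ≠ i.val := fun h => hj2 (Fin.ext h)
        exact IDL_mod h j (by omega))
  rw [hc] at h1
  refine IDL_cancel J ((Finset.univ.filter (fun i : Fin n => i.val < p + 1)).filter
    (fun j => Function.update g i k j = k)).card ?_ _ ?_
  · refine Finset.card_pos.2 ⟨i, ?_⟩
    rw [Finset.mem_filter, Finset.mem_filter, Function.update_self]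
    exact ⟨⟨Finset.mem_univ _, by omega⟩, rfl⟩
  · rw [← Ideal.Quotient.eq_zero_iff_mem, map_mul, map_natCast, map_prod, h1]
    congr 1

/-- the index `i = p` with `w i = 0` becomes a new class -/
theorem IDL_st0 (h : IDLst w p J K g) (i : Fin n) (hi : i.val = p) (hw : w i = 0) :
    IDLst w (p + 1) J (insert i K) (Function.update g i i) := by
  have hiK : i ∉ K := fun hk => by have := h.lt i hk; omega
  have hne : ∀ j : Fin n, j.val < p + 1 → j ≠ i → j.val < p := by
    intro j hj hji
    have h4 : j.val ≠ i.val := fun h => hji (Fin.ext h)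
    omega
  refine ⟨?_, ?_, ?_, ?_, ?_⟩
  · intro k hk
    rcases Finset.mem_insert.1 hk with rfl | hk
    · omega
    · have := h.lt k hk; omega
  · intro k hk
    rcases Finset.mem_insert.1 hk with rfl | hk
    · exact Function.update_self _ _ _
    · have hki : k ≠ i := fun e => hiK (e ▸ hk)
      rw [Function.update_of_ne hki, h.fx k hk]
  · intro j hj
    by_cases hji : j = i
    · rw [hji, Function.update_self]; exact Finset.mem_insert_self _ _
    · rw [Function.update_of_ne hji]
      exact Finset.mem_insert_of_mem (h.gK j (hne j hj hji))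
  · intro j hj
    by_cases hji : j = i
    · rw [hji, Function.update_self, sub_self]; exact J.zero_mem
    · rw [Function.update_of_ne hji]
      exact h.md j (hne j hj hji)
  · intro k hk
    rcases Finset.mem_insert.1 hk with rfl | hk
    · have e1 : (Finset.univ.filter (fun i : Fin n => i.val < p + 1)).filter
          (fun j => Function.update g k k j = k) = {k} := by
        ext j
        rw [Finset.mem_filter, Finset.mem_filter, Finset.mem_singleton]
        constructor
        · rintro ⟨⟨_, h1⟩, h2⟩
          by_contra hjk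
          rw [Function.update_of_ne hjk] at h2
          exact hiK (h2 ▸ h.gK j (hne j h1 hjk))
        · rintro rfl
          exact ⟨⟨Finset.mem_univ _, by omega⟩, Function.update_self _ _ _⟩
      rw [e1, Finset.sum_singleton, hw]
      rfl
    · have e1 : (Finset.univ.filter (fun i : Fin n => i.val < p + 1)).filter
          (fun j => Function.update g i i j = k) =
          (Finset.univ.filter (fun i : Fin n => i.val < p)).filter (fun j => g j = k) := by
        ext j
        rw [Finset.mem_filter, Finset.mem_filter, Finset.mem_filter, Finset.mem_filter]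
        constructor
        · rintro ⟨⟨_, h1⟩, h2⟩
          by_cases hji : j = i
          · rw [hji, Function.update_self] at h2
            exact absurd (h2 ▸ hk) hiK
          · rw [Function.update_of_ne hji] at h2
            exact ⟨⟨Finset.mem_univ _, hne j h1 hji⟩, h2⟩
        · rintro ⟨⟨_, h1⟩, h2⟩
          have hji : j ≠ i := fun e => by rw [e] at h1; omega
          rw [Function.update_of_ne hji]
          exact ⟨⟨Finset.mem_univ _, by omega⟩, h2⟩
      rw [e1]
      exact h.cl k hk

/-- the class of `k` when the index `i = p` is added to it -/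
theorem IDL_sum (h : IDLst w p J K g) (i k : Fin n) (hi : i.val = p) (l : Fin n)
    (hl : l ∈ K) : ∑ j ∈ (Finset.univ.filter (fun i : Fin n => i.val < p + 1)).filter
      (fun j => Function.update g i k j = l), (1 - (w j : ℤ)) =
      if l = k then 2 - (w i : ℤ) else 1 := by
  have hne : ∀ j : Fin n, j.val < p + 1 → j ≠ i → j.val < p := by
    intro j hj hji
    have h4 : j.val ≠ i.val := fun h => hji (Fin.ext h)
    omega
  by_cases hlk : l = k
  · have e1 : (Finset.univ.filter (fun i : Fin n => i.val < p + 1)).filter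
        (fun j => Function.update g i k j = l) = insert i
        ((Finset.univ.filter (fun i : Fin n => i.val < p)).filter (fun j => g j = l)) := by
      ext j
      rw [Finset.mem_insert, Finset.mem_filter, Finset.mem_filter, Finset.mem_filter,
        Finset.mem_filter]
      constructor
      · rintro ⟨⟨_, h1⟩, h2⟩
        by_cases hji : j = i
        · exact Or.inl hji
        · rw [Function.update_of_ne hji] at h2
          exact Or.inr ⟨⟨Finset.mem_univ _, hne j h1 hji⟩, h2⟩
      · rintro (rfl | ⟨⟨_, h1⟩, h2⟩)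
        · rw [Function.update_self]
          exact ⟨⟨Finset.mem_univ _, by omega⟩, hlk.symm⟩
        · have hji : j ≠ i := fun e => by rw [e] at h1; omega
          rw [Function.update_of_ne hji]
          exact ⟨⟨Finset.mem_univ _, by omega⟩, h2⟩
    rw [e1, Finset.sum_insert, h.cl l hl, if_pos hlk]
    · ring
    · intro hm
      have := (Finset.mem_filter.1 (Finset.mem_filter.1 hm).1).2
      omega
  · have e1 : (Finset.univ.filter (fun i : Fin n => i.val < p + 1)).filter
        (fun j => Function.update g i k j = l) =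
        (Finset.univ.filter (fun i : Fin n => i.val < p)).filter (fun j => g j = l) := by
      ext j
      rw [Finset.mem_filter, Finset.mem_filter, Finset.mem_filter, Finset.mem_filter]
      constructor
      · rintro ⟨⟨_, h1⟩, h2⟩
        by_cases hji : j = i
        · rw [hji, Function.update_self] at h2
          exact absurd h2.symm hlk
        · rw [Function.update_of_ne hji] at h2
          exact ⟨⟨Finset.mem_univ _, hne j h1 hji⟩, h2⟩
      · rintro ⟨⟨_, h1⟩, h2⟩
        have hji : j ≠ i := fun e => by rw [e] at h1; omega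
        rw [Function.update_of_ne hji]
        exact ⟨⟨Finset.mem_univ _, by omega⟩, h2⟩
    rw [e1, if_neg hlk]
    exact h.cl l hl

/-- the index `i = p` with `w i = 1` is added to the class of `k` -/
theorem IDL_st1 (h : IDLst w p J K g) (i k : Fin n) (hi : i.val = p) (hk : k ∈ K)
    (hw : w i = 1) (hik : (X i : S (Fin n)) - X k ∈ J) :
    IDLst w (p + 1) J K (Function.update g i k) := by
  have hiK : i ∉ K := fun hk => by have := h.lt i hk; omega
  have hne : ∀ j : Fin n, j.val < p + 1 → j ≠ i → j.val < p := by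
    intro j hj hji
    have h4 : j.val ≠ i.val := fun h => hji (Fin.ext h)
    omega
  refine ⟨?_, ?_, ?_, ?_, ?_⟩
  · intro k hk
    have := h.lt k hk; omega
  · intro l hl
    have hli : l ≠ i := fun e => hiK (e ▸ hl)
    rw [Function.update_of_ne hli, h.fx l hl]
  · intro j hj
    by_cases hji : j = i
    · rw [hji, Function.update_self]; exact hk
    · rw [Function.update_of_ne hji]
      exact h.gK j (hne j hj hji)
  · intro j hj
    by_cases hji : j = i
    · rw [hji, Function.update_self]; exact hik
    · rw [Function.update_of_ne hji]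
      exact h.md j (hne j hj hji)
  · intro l hl
    rw [IDL_sum h i k hi l hl, hw]
    split <;> norm_num

theorem IDL_fu {ι : Type} [DecidableEq ι] (Q : Finset ι) (f : ι → ι) (k k' : ι) :
    Q.filter (fun j => (if f j = k' then k else f j) = k) =
      Q.filter (fun j => f j = k) ∪ Q.filter (fun j => f j = k') := by
  ext j
  rw [Finset.mem_union, Finset.mem_filter, Finset.mem_filter, Finset.mem_filter]
  constructor
  · rintro ⟨h1, h2⟩
    by_cases hc : f j = k'
    · exact Or.inr ⟨h1, hc⟩
    · rw [if_neg hc] at h2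
      exact Or.inl ⟨h1, h2⟩
  · rintro (⟨h1, h2⟩ | ⟨h1, h2⟩)
    · refine ⟨h1, ?_⟩
      rw [h2]
      split <;> rfl
    · exact ⟨h1, by rw [if_pos h2]⟩

theorem IDL_fv {ι : Type} [DecidableEq ι] (Q : Finset ι) (f : ι → ι) (k k' l : ι) (hlk : ¬ l = k)
    (hlk' : l ≠ k') :
    Q.filter (fun j => (if f j = k' then k else f j) = l) = Q.filter (fun j => f j = l) := by
  refine Finset.filter_congr fun j _ => ?_
  by_cases hc : f j = k'
  · rw [if_pos hc, hc]
    exact ⟨fun e => absurd e.symm hlk, fun e => absurd e.symm hlk'⟩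
  · rw [if_neg hc]

/-- the index `i = p` with `w i = 2` is added to the class of `k`, and the class of `k'` is merged
with the class of `k` -/
theorem IDL_st2 (h : IDLst w p J K g) (i k k' : Fin n) (hi : i.val = p) (hk : k ∈ K)
    (hk' : k' ∈ K) (hkk : k' ≠ k) (hw : w i = 2) (hik : (X i : S (Fin n)) - X k ∈ J)
    (hkk' : (X k : S (Fin n)) - X k' ∈ J) :
    IDLst w (p + 1) J (K.erase k')
      (fun j => if Function.update g i k j = k' then k else Function.update g i k j) := by
  have hiK : i ∉ K := fun hk => by have := h.lt i hk; omega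
  have hne : ∀ j : Fin n, j.val < p + 1 → j ≠ i → j.val < p := by
    intro j hj hji
    have h4 : j.val ≠ i.val := fun h => hji (Fin.ext h)
    omega
  have hgK : ∀ j : Fin n, j.val < p + 1 → Function.update g i k j ∈ K := by
    intro j hj
    by_cases hji : j = i
    · rw [hji, Function.update_self]; exact hk
    · rw [Function.update_of_ne hji]
      exact h.gK j (hne j hj hji)
  have hmd : ∀ j : Fin n, j.val < p + 1 →
      (X j : S (Fin n)) - X (Function.update g i k j) ∈ J := by
    intro j hj
    by_cases hji : j = i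
    · rw [hji, Function.update_self]; exact hik
    · rw [Function.update_of_ne hji]
      exact h.md j (hne j hj hji)
  refine ⟨?_, ?_, ?_, ?_, ?_⟩
  · intro l hl
    have := h.lt l (Finset.mem_of_mem_erase hl); omega
  · intro l hl
    have hlK := Finset.mem_of_mem_erase hl
    have hli : l ≠ i := fun e => hiK (e ▸ hlK)
    rw [Function.update_of_ne hli, h.fx l hlK, if_neg (Finset.ne_of_mem_erase hl)]
  · intro j hj
    by_cases hc : Function.update g i k j = k'
    · rw [if_pos hc]
      exact Finset.mem_erase.2 ⟨hkk.symm, hk⟩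
    · rw [if_neg hc]
      exact Finset.mem_erase.2 ⟨hc, hgK j hj⟩
  · intro j hj
    have h1 := hmd j hj
    by_cases hc : Function.update g i k j = k'
    · rw [if_pos hc]
      rw [hc] at h1
      have h2 : (X j : S (Fin n)) - X k = (X j - X k') - (X k - X k') := by ring
      rw [h2]
      exact J.sub_mem h1 hkk'
    · rw [if_neg hc]
      exact h1
  · intro l hl
    have hlK := Finset.mem_of_mem_erase hl
    have hlk' := Finset.ne_of_mem_erase hl
    by_cases hlk : l = k
    · have e1 : (Finset.univ.filter (fun i : Fin n => i.val < p + 1)).filter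
          (fun j => (if Function.update g i k j = k' then k else Function.update g i k j) = l) =
          ((Finset.univ.filter (fun i : Fin n => i.val < p + 1)).filter
            (fun j => Function.update g i k j = k)) ∪
          ((Finset.univ.filter (fun i : Fin n => i.val < p + 1)).filter
            (fun j => Function.update g i k j = k')) := by
        rw [hlk]
        exact IDL_fu _ _ _ _
      have hdj : Disjoint ((Finset.univ.filter (fun i : Fin n => i.val < p + 1)).filter
            (fun j => Function.update g i k j = k))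
          ((Finset.univ.filter (fun i : Fin n => i.val < p + 1)).filter
            (fun j => Function.update g i k j = k')) := by
        rw [Finset.disjoint_left]
        intro j h1 h2
        exact hkk ((Finset.mem_filter.1 h2).2.symm.trans (Finset.mem_filter.1 h1).2)
      rw [e1, Finset.sum_union hdj, IDL_sum h i k hi k hk, IDL_sum h i k hi k' hk',
        if_pos rfl, if_neg hkk, hw]
      norm_num
    · have e1 : (Finset.univ.filter (fun i : Fin n => i.val < p + 1)).filter
          (fun j => (if Function.update g i k j = k' then k else Function.update g i k j) = l) =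
          (Finset.univ.filter (fun i : Fin n => i.val < p + 1)).filter
            (fun j => Function.update g i k j = l) := IDL_fv _ _ _ _ _ hlk hlk'
      rw [e1, IDL_sum h i k hi l hlK, if_neg hlk]

end states

/-- the chain lemma for a product over a finite set -/
theorem IDL_chn (hC : MDH.St_CHN) {n : ℕ} (J : Ideal (S (Fin n))) (K : Finset (Fin n))
    (f : Fin n → S (Fin n)) (B : ℕ) (hp : ∏ k ∈ K, f k ∈ J)
    (h : ∀ k ∈ K, Module.Finite ℂ (S (Fin n) ⧸ (J ⊔ Ideal.span {f k})) ∧
      Module.finrank ℂ (S (Fin n) ⧸ (J ⊔ Ideal.span {f k})) ≤ B) :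
    Module.Finite ℂ (S (Fin n) ⧸ J) ∧ Module.finrank ℂ (S (Fin n) ⧸ J) ≤ K.card * B := by
  obtain ⟨hf1, hf2⟩ := hC n J (K.toList.map f) (by
    rw [Finset.prod_map_toList]
    exact hp) (fun x hx => by
      obtain ⟨k, hk, rfl⟩ := List.mem_map.1 hx
      exact (h k (Finset.mem_toList.1 hk)).1)
  refine ⟨hf1, hf2.trans ?_⟩
  have h7 := List.sum_le_card_nsmul ((K.toList.map f).map
    (fun x => Module.finrank ℂ (S (Fin n) ⧸ (J ⊔ Ideal.span {x})))) B (fun y hy => by
      obtain ⟨x, hx, rfl⟩ := List.mem_map.1 hy
      obtain ⟨k, hk, rfl⟩ := List.mem_map.1 hx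
      exact (h k (Finset.mem_toList.1 hk)).2)
  refine h7.trans (le_of_eq ?_)
  rw [List.length_map, List.length_map, Finset.length_toList, smul_eq_mul]

/-- the end of the induction -/
theorem IDL_base (hY : MDH.St_CYC) {n : ℕ} {w : Fin n → ℕ} {J : Ideal (S (Fin n))}
    {K : Finset (Fin n)} {g : Fin n → Fin n} (s : ℕ) (hs : s ≤ 1) (h : IDLst w n J K g)
    (h3 : ∀ k : ℕ, 1 ≤ k → ∑ i, (1 - (s : S (Fin n)) * (w i : S (Fin n))) * X i ^ k ∈ J) :
    Module.Finite ℂ (S (Fin n) ⧸ J) ∧
      Module.finrank ℂ (S (Fin n) ⧸ J) ≤ (n - ∑ i, w i).factorial := by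
  classical
  have hcard := IDL_card h le_rfl
  have hall : (Finset.univ.filter (fun i : Fin n => i.val < n)) = Finset.univ :=
    Finset.filter_true_of_mem fun i _ => i.isLt
  have hpw : pw w n = ∑ i, w i := by unfold pw; rw [hall]
  have hK : K.card = n - ∑ i, w i := by omega
  rw [← hK]
  let β : Fin n → ℕ := fun k => if s = 0 then (Finset.univ.filter (fun i => g i = k)).card else 1
  have hβ : ∀ k ∈ K, ((β k : ℕ) : ℤ) = ∑ i ∈ Finset.univ.filter (fun i => g i = k),
      (1 - (s : ℤ) * (w i : ℤ)) := by
    intro k hk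
    change (((if s = 0 then (Finset.univ.filter (fun i => g i = k)).card else 1 : ℕ)) : ℤ) = _
    by_cases h0 : s = 0
    · rw [if_pos h0, h0]
      simp
    · have h1 : s = 1 := by omega
      rw [if_neg h0, h1]
      have h2 := h.cl k hk
      rw [hall] at h2
      simp only [Nat.cast_one, one_mul]
      exact h2.symm
  refine hY n J K β ?_ ?_ ?_
  · intro k hk
    change 0 < if s = 0 then (Finset.univ.filter (fun i => g i = k)).card else 1
    by_cases h0 : s = 0
    · rw [if_pos h0]
      exact Finset.card_pos.2 ⟨k, Finset.mem_filter.2 ⟨Finset.mem_univ _, h.fx k hk⟩⟩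
    · rw [if_neg h0]
      exact one_pos
  · intro i _
    exact Or.inr ⟨g i, h.gK i i.isLt, h.md i i.isLt⟩
  · intro r hr
    have e1 : ∑ k ∈ K, (β k : S (Fin n)) * X k ^ r =
        ∑ i, (1 - (s : S (Fin n)) * (w i : S (Fin n))) * X (g i) ^ r := by
      rw [← Finset.sum_fiberwise_of_maps_to (s := Finset.univ) (t := K) (g := g)
        (fun i _ => h.gK i i.isLt)]
      refine Finset.sum_congr rfl fun k hk => ?_
      have e2 : (β k : S (Fin n)) = ∑ i ∈ Finset.univ.filter (fun i => g i = k),
          (1 - (s : S (Fin n)) * (w i : S (Fin n))) := by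
        have := congrArg (fun z : ℤ => (z : S (Fin n))) (hβ k hk)
        push_cast at this
        exact this
      rw [e2, Finset.sum_mul]
      exact Finset.sum_congr rfl fun i hi => by rw [(Finset.mem_filter.1 hi).2]
    have e3 : ∑ i, (1 - (s : S (Fin n)) * (w i : S (Fin n))) * X (g i) ^ r =
        ∑ i, (1 - (s : S (Fin n)) * (w i : S (Fin n))) * X i ^ r -
        ∑ i, (1 - (s : S (Fin n)) * (w i : S (Fin n))) * ((X i : S (Fin n)) ^ r - X (g i) ^ r) := by
      rw [← Finset.sum_sub_distrib]
      exact Finset.sum_congr rfl fun i _ => by ring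
    change ∑ k ∈ K, (β k : S (Fin n)) * X k ^ r ∈ J
    rw [e1, e3]
    refine J.sub_mem (h3 r hr) (J.sum_mem fun i _ => J.mul_mem_left _ ?_)
    exact J.mem_of_dvd (sub_dvd_pow_sub_pow _ _ r) (h.md i i.isLt)

theorem thm_IDL (hC : MDH.St_CHN) (hY : MDH.St_CYC) : St_IDL := by
  intro n I w s hs hw2 H1 H2 H3
  classical
  have main : ∀ (d p : ℕ), p + d = n → ∀ (J : Ideal (S (Fin n))) (K : Finset (Fin n))
      (g : Fin n → Fin n), I ≤ J → IDLst w p J K g →
      Module.Finite ℂ (S (Fin n) ⧸ J) ∧ Module.finrank ℂ (S (Fin n) ⧸ J) ≤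
        (n - ∑ i, w i).factorial *
          ∏ i ∈ Finset.univ.filter (fun i : Fin n => p ≤ i.val), IDL_fac w i := by
    intro d
    induction d with
    | zero =>
      intro p hp J K g hIJ h
      have hp' : p = n := by omega
      subst hp'
      have e1 : Finset.univ.filter (fun i : Fin p => p ≤ i.val) = ∅ :=
        Finset.filter_false_of_mem fun i _ => by have := i.isLt; omega
      rw [e1, Finset.prod_empty, mul_one]
      exact IDL_base hY s hs h fun k hk => hIJ (H3 k hk)
    | succ d ih =>
      intro p hp J K g hIJ h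
      have hpn : p < n := by omega
      obtain ⟨i, hi⟩ : ∃ i : Fin n, i.val = p := ⟨⟨p, hpn⟩, rfl⟩
      obtain ⟨B, hB⟩ : ∃ B, B = (n - ∑ i, w i).factorial *
          ∏ i ∈ Finset.univ.filter (fun i : Fin n => p + 1 ≤ i.val), IDL_fac w i := ⟨_, rfl⟩
      have hBp : (n - ∑ i, w i).factorial *
          ∏ i ∈ Finset.univ.filter (fun i : Fin n => p ≤ i.val), IDL_fac w i =
          IDL_fac w i * B := by
        have e1 : Finset.univ.filter (fun i : Fin n => p ≤ i.val) =
            insert i (Finset.univ.filter (fun i : Fin n => p + 1 ≤ i.val)) := by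
          ext j
          rw [Finset.mem_insert, Finset.mem_filter, Finset.mem_filter]
          constructor
          · rintro ⟨_, h1⟩
            by_cases hji : j = i
            · exact Or.inl hji
            · have h4 : j.val ≠ i.val := fun h => hji (Fin.ext h)
              exact Or.inr ⟨Finset.mem_univ _, by omega⟩
          · rintro (rfl | ⟨_, h1⟩)
            · exact ⟨Finset.mem_univ _, by omega⟩
            · exact ⟨Finset.mem_univ _, by omega⟩
        rw [e1, Finset.prod_insert, hB]
        · ring
        · intro hm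
          have := (Finset.mem_filter.1 hm).2
          omega
      rw [hBp]
      have hnext : ∀ (J' : Ideal (S (Fin n))) (K' : Finset (Fin n)) (g' : Fin n → Fin n),
          I ≤ J' → IDLst w (p + 1) J' K' g' → Module.Finite ℂ (S (Fin n) ⧸ J') ∧
          Module.finrank ℂ (S (Fin n) ⧸ J') ≤ B := by
        intro J' K' g' hJ' h'
        rw [hB]
        exact ih (p + 1) (by omega) J' K' g' hJ' h'
      have hKc := IDL_card h hpn.le
      by_cases hw0 : w i = 0
      · have e1 : IDL_fac w i = 1 := by unfold IDL_fac; rw [if_pos hw0]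
        rw [e1, one_mul]
        exact hnext J _ _ hIJ (IDL_st0 h i hi hw0)
      · have hr1 : ∏ k ∈ K, ((X i : S (Fin n)) - X k) ∈ J := by
          refine IDL_rel1 h i (hIJ ?_)
          have := H1 i K.card (by omega) (by rw [hi]; omega)
          rwa [hi] at this
        by_cases hw1 : w i = 1
        · have e1 : IDL_fac w i = K.card := by
            unfold IDL_fac
            rw [if_neg hw0, if_pos hw1, hi]
            omega
          rw [e1]
          refine IDL_chn hC J K (fun k => (X i : S (Fin n)) - X k) B hr1 fun k hk => ?_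
          exact hnext _ _ _ (hIJ.trans le_sup_left) (IDL_st1 (IDL_mono h le_sup_left) i k hi hk hw1
            (Ideal.mem_sup_right (Ideal.mem_span_singleton_self _)))
        · have hw2' : w i = 2 := by have := hw2 i; omega
          have e1 : IDL_fac w i = K.card * (K.card - 1) := by
            unfold IDL_fac
            rw [if_neg hw0, if_neg hw1, hi]
            have : p - pw w p = K.card := by omega
            rw [this]
          rw [e1, mul_assoc]
          refine IDL_chn hC J K (fun k => (X i : S (Fin n)) - X k) ((K.card - 1) * B) hr1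
            fun k hk => ?_
          have hh : IDLst w p (J ⊔ Ideal.span {(X i : S (Fin n)) - X k}) K g :=
            IDL_mono h le_sup_left
          have hik : (X i : S (Fin n)) - X k ∈ J ⊔ Ideal.span {(X i : S (Fin n)) - X k} :=
            Ideal.mem_sup_right (Ideal.mem_span_singleton_self _)
          have hIJ' : I ≤ J ⊔ Ideal.span {(X i : S (Fin n)) - X k} := hIJ.trans le_sup_left
          have hKpos : 0 < K.card := Finset.card_pos.2 ⟨k, hk⟩
          have hr2 := IDL_rel2 hh i k hi hk hik (hIJ' (by
            have := H2 i (K.card - 1) hw2' (by rw [hi]; omega)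
            rwa [hi] at this))
          rw [← Finset.card_erase_of_mem hk]
          refine IDL_chn hC _ (K.erase k) (fun k' => (X k : S (Fin n)) - X k') B hr2
            fun k' hk' => ?_
          exact hnext _ _ _ (hIJ'.trans le_sup_left) (IDL_st2 (IDL_mono hh le_sup_left) i k k' hi hk
            (Finset.mem_of_mem_erase hk') (Finset.ne_of_mem_erase hk') hw2'
            (Ideal.mem_sup_left hik) (Ideal.mem_sup_right (Ideal.mem_span_singleton_self _)))
  have h0 : IDLst w 0 I ∅ id := by
    refine ⟨?_, ?_, ?_, ?_, ?_⟩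
    · intro k hk; exact absurd hk (Finset.notMem_empty k)
    · intro k hk; exact absurd hk (Finset.notMem_empty k)
    · intro i hi; exact absurd hi (Nat.not_lt_zero _)
    · intro i hi; exact absurd hi (Nat.not_lt_zero _)
    · intro k hk; exact absurd hk (Finset.notMem_empty k)
  have hfin := main n 0 (by omega) I ∅ id le_rfl h0
  have e1 : Finset.univ.filter (fun i : Fin n => 0 ≤ i.val) = Finset.univ :=
    Finset.filter_true_of_mem fun i _ => Nat.zero_le _
  rw [e1] at hfin
  exact hfin

end MDC
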