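import Pool.Agent.MDC.StD

/-!
# MDC, module IND: the induction
-/

set_option autoImplicit false

open MvPolynomial

namespace MDC

theorem thm_IND (hSTP : St_STP) (hCRR : St_CRR) (hONE : St_ONE) (hDIM : St_DIM) (hUPG : St_UPG)
    (hLZG : St_LZG) : St_IND := by
  have step2 : ∀ (ι : Type) [Fintype ι] [DecidableEq ι],
      (∀ (ι' : Type) [Fintype ι'] [DecidableEq ι'] (a' b' m' : ℕ),
        Fintype.card ι' < Fintype.card ι → 1 ≤ m' → a' + b' + m' = Fintype.card ι' →
          Good ι' a' b' m') →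
      ∀ a b m : ℕ, a + b + (m + 2) = Fintype.card ι → Good ι a b (m + 2) := by
    intro ι _ _ IH a b m h
    have S := hSTP ι a b m h IH
    have C := hCRR ι a b (m + 2) h (fun z hz => (S z hz).2.1.ge)
    exact ⟨C.1, C.2.1, fun z hz => ⟨(S z hz).1, (S z hz).2.1, C.2.2 z hz, (S z hz).2.2.1⟩⟩
  have main : ∀ (n : ℕ) (ι : Type) [Fintype ι] [DecidableEq ι] (a b m : ℕ),
      Fintype.card ι = n → 1 ≤ m → a + b + m = Fintype.card ι → Good ι a b m := by
    intro n
    induction n using Nat.strong_induction_on with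
    | _ n ih =>
      intro ι _ _ a b m hn hm h
      have IH : ∀ (ι' : Type) [Fintype ι'] [DecidableEq ι'] (a' b' m' : ℕ),
          Fintype.card ι' < Fintype.card ι → 1 ≤ m' → a' + b' + m' = Fintype.card ι' →
            Good ι' a' b' m' := fun ι' _ _ a' b' m' hlt hm' h' =>
        ih (Fintype.card ι') (by omega) ι' a' b' m' rfl hm' h'
      rcases Nat.lt_or_ge m 2 with h2 | h2
      · obtain rfl : m = 1 := by omega
        have D := hDIM ι a b h (fun a' b' m' hm' h' => by
          obtain ⟨k, rfl⟩ : ∃ k, m' = k + 2 := ⟨m' - 2, by omega⟩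
          exact (step2 ι IH a' b' k h').2.1)
        have U := (hUPG ι a b 1 h).2
        refine ⟨U.1, D, fun z _ => ?_⟩
        have O := hONE ι a b h z
        exact ⟨(hLZG ι a b 1 h z).2.2.1, O.1.trans D, O.2.1, O.2.2⟩
      · obtain ⟨k, rfl⟩ : ∃ k, m = k + 2 := ⟨m - 2, by omega⟩
        exact step2 ι IH a b k h
  refine ⟨fun ι _ _ a b m hm h => main _ ι a b m rfl hm h, ?_⟩
  intro ι _ _ a b m h w
  obtain ⟨z, hz⟩ : ∃ z : Fin (m + 2) → ℂ, Function.Injective z :=
    ⟨fun l => (l.val : ℂ), fun _ _ hij => Fin.ext (Nat.cast_injective (R := ℂ) hij)⟩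
  have S := hSTP ι a b m h (fun ι' _ _ a' b' m' _ hm' h' => main _ ι' a' b' m' rfl hm' h') z hz
  have G := main _ ι a b (m + 2) rfl (by omega) h
  rw [← (G.2.2 z hz).2.2.1 w]
  exact S.2.2.2 w

end MDC
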