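import Pool.Agent.MDC.StC

/-!
# MDC, module INZ

Statement and proof: see `St_INZ` in `Pool/Agent/MDC/StC.lean`.
-/

set_option autoImplicit false

open MvPolynomial

namespace MDC

/-- the coefficients of `∏_l (1 - z_l t)` -/
private theorem INZ_coeff {m : ℕ} (z : Fin m → ℂ) (k : ℕ) :
    PowerSeries.coeff k (ZZ z) = (-1) ^ k * eval z (esymm (Fin m) ℂ k) := by
  classical
  have h1 : ZZ z = ∑ t ∈ (Finset.univ : Finset (Fin m)).powerset,
      PowerSeries.C (∏ l ∈ t, (- z l)) * PowerSeries.X ^ t.card := by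
    unfold ZZ
    have h0 : ∀ l : Fin m, (1 - PowerSeries.C (z l) * PowerSeries.X : PowerSeries ℂ) =
        1 + PowerSeries.C (- z l) * PowerSeries.X := by
      intro l
      rw [map_neg, neg_mul, sub_eq_add_neg]
    rw [Finset.prod_congr rfl fun l _ => h0 l, Finset.prod_one_add]
    refine Finset.sum_congr rfl fun t _ => ?_
    rw [Finset.prod_mul_distrib, Finset.prod_const, map_prod]
  rw [h1, map_sum]
  have h2 : ∀ t ∈ (Finset.univ : Finset (Fin m)).powerset,
      PowerSeries.coeff k (PowerSeries.C (∏ l ∈ t, (- z l)) * PowerSeries.X ^ t.card) =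
        if t.card = k then (-1) ^ k * ∏ l ∈ t, z l else 0 := by
    intro t _
    rw [PowerSeries.coeff_C_mul, PowerSeries.coeff_X_pow]
    by_cases h : t.card = k
    · rw [if_pos h, if_pos h.symm, mul_one, Finset.prod_neg, h]
    · rw [if_neg h, if_neg (fun h' => h h'.symm), mul_zero]
  rw [Finset.sum_congr rfl h2, ← Finset.sum_filter, ← Finset.mul_sum]
  congr 1
  rw [esymm, map_sum]
  have h3 : (Finset.univ : Finset (Fin m)).powerset.filter (fun t => t.card = k) =
      (Finset.univ : Finset (Fin m)).powersetCard k := by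
    ext t
    simp [Finset.mem_powersetCard]
  rw [h3]
  refine Finset.sum_congr rfl fun t _ => ?_
  rw [map_prod]
  exact Finset.prod_congr rfl fun l _ => (eval_X l).symm

private theorem INZ_mul {A M : Type} [CommRing A] [Algebra ℂ A] [AddCommGroup M] [Module ℂ M]
    (E : A →ₗ[ℂ] M) {m : ℕ} (a : Fin m → A) (t : Fin m → ℂ)
    (h : ∀ k c, E (a k * c) = t k • E c) (α : Fin m → ℕ) (c : A) :
    E (MDH.mon a α * c) = (∏ k, t k ^ α k) • E c := by
  classical
  have hp : ∀ (k : Fin m) (q : ℕ) (c : A), E (a k ^ q * c) = t k ^ q • E c := by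
    intro k q
    induction q with
    | zero => intro c; simp
    | succ q ih =>
      intro c
      rw [pow_succ, mul_assoc, ih, h, pow_succ, smul_smul]
  have hs : ∀ (s : Finset (Fin m)) (c : A),
      E ((∏ k ∈ s, a k ^ α k) * c) = (∏ k ∈ s, t k ^ α k) • E c := by
    intro s
    induction s using Finset.induction_on with
    | empty => intro c; simp
    | insert k s hk ih =>
      intro c
      rw [Finset.prod_insert hk, Finset.prod_insert hk, mul_assoc, hp, ih, smul_smul]
  exact hs Finset.univ c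

/-- a polynomial which vanishes at all injective points is zero -/
private theorem INZ_zero {m : ℕ} (Q : MvPolynomial (Fin m) ℂ)
    (h : ∀ z : Fin m → ℂ, Function.Injective z → eval z Q = 0) : Q = 0 := by
  classical
  set D : MvPolynomial (Fin m) ℂ :=
    ∏ p ∈ (Finset.univ : Finset (Fin m × Fin m)).filter (fun p => p.1 ≠ p.2), (X p.1 - X p.2)
    with hD
  have hD0 : D ≠ 0 := by
    rw [hD, Finset.prod_ne_zero_iff]
    intro p hp
    have hp' := (Finset.mem_filter.1 hp).2
    rw [sub_ne_zero]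
    intro h0
    exact hp' (X_injective h0)
  have h1 : Q * D = 0 := by
    apply MvPolynomial.funext
    intro z
    rw [map_mul, map_zero]
    by_cases hz : Function.Injective z
    · rw [h z hz, zero_mul]
    · have h2 : eval z D = 0 := by
        rw [hD, map_prod]
        unfold Function.Injective at hz
        push Not at hz
        obtain ⟨i, j, hij, hne⟩ := hz
        refine Finset.prod_eq_zero (i := (i, j)) (Finset.mem_filter.2 ⟨Finset.mem_univ _, hne⟩) ?_
        simp [hij]
      rw [h2, mul_zero]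
  exact (mul_eq_zero.1 h1).resolve_right hD0

/-- linear independence of the values of the monomials in the elementary symmetric polynomials -/
private theorem INZ_esymm {m : ℕ} (s : Finset (Fin m → ℕ)) (l : (Fin m → ℕ) → ℂ)
    (h : ∀ z : Fin m → ℂ, Function.Injective z →
      ∑ α ∈ s, l α * ∏ k : Fin m, (eval z (esymm (Fin m) ℂ (k.val + 1))) ^ α k = 0) :
    ∀ α ∈ s, l α = 0 := by
  classical
  have h1 : ∑ α ∈ s, C (l α) * ∏ k : Fin m, (esymm (Fin m) ℂ (k.val + 1)) ^ α k =
      (0 : MvPolynomial (Fin m) ℂ) := by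
    apply INZ_zero
    intro z hz
    rw [map_sum, ← h z hz]
    refine Finset.sum_congr rfl fun α _ => ?_
    rw [map_mul, eval_C, map_prod]
    congr 1
    refine Finset.prod_congr rfl fun k _ => ?_
    rw [map_pow]
  set P : MvPolynomial (Fin m) ℂ :=
    ∑ α ∈ s, monomial (Finsupp.equivFunOnFinite.symm α) (l α) with hP
  have h2 : esymmAlgHom (Fin m) ℂ m P = 0 := by
    apply Subtype.ext
    rw [esymmAlgHom_apply, hP, map_sum]
    show _ = (0 : MvPolynomial (Fin m) ℂ)
    rw [← h1]
    refine Finset.sum_congr rfl fun α _ => ?_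
    rw [aeval_monomial, algebraMap_eq, Finsupp.prod_fintype _ _ (fun k => pow_zero _)]
    rfl
  have h3 : P = 0 := esymmAlgHom_fin_injective ℂ (le_refl m) (by rw [h2, map_zero])
  intro α hα
  have h4 : coeff (Finsupp.equivFunOnFinite.symm α) P = 0 := by rw [h3, coeff_zero]
  rw [hP, coeff_sum, Finset.sum_eq_single α] at h4
  · rwa [coeff_monomial, if_pos rfl] at h4
  · intro β _ hβ
    rw [coeff_monomial, if_neg]
    intro h5
    exact hβ (Finsupp.equivFunOnFinite.symm.injective h5)
  · intro h5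
    exact absurd hα h5

theorem thm_INZ (hA : St_ACT) (hU : St_UPG) (hL : St_LZG) : St_INZ := by
  intro ι _ _ a b m hm hlow V hs hV hc
  classical
  obtain ⟨-, hA2⟩ := hA
  obtain ⟨-, -, -, -, hA3, -⟩ := hA2 ι a b
  -- the upper bound
  obtain ⟨⟨hfin1, hup⟩, -⟩ := hU ι a b m hm
  let e1 : (T a b ι ⧸ (Lop (ecC m) : Submodule (S ι) (T a b ι)).restrictScalars ℂ) ≃ₗ[ℂ] V :=
    Submodule.quotientEquivOfIsCompl _ V hc.symm
  have hfin : Module.Finite ℂ V := Module.Finite.equiv e1
  have hle : Module.finrank ℂ V ≤ rr (Fintype.card ι) a b := by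
    rw [← e1.finrank_eq]
    exact hup
  -- the map `V → T / LZ z`
  let Q : (z : Fin m → ℂ) → V →ₗ[ℂ] (T a b ι ⧸ (LZ a b ι z).restrictScalars ℂ) := fun z =>
    ((LZ a b ι z).restrictScalars ℂ).mkQ.comp V.subtype
  have hQ : ∀ z (v : V), Q z v = ((LZ a b ι z).restrictScalars ℂ).mkQ (v : T a b ι) :=
    fun z v => rfl
  have hsurj : ∀ z : Fin m → ℂ, Function.Surjective (Q z) := by
    intro z q
    obtain ⟨c, rfl⟩ := Submodule.mkQ_surjective _ q
    have h1 : c ∈ V ⊔ (LZ a b ι z).restrictScalars ℂ := by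
      rw [(hL ι a b m hm z).2.1 V hV hc.sup_eq_top]
      exact Submodule.mem_top
    obtain ⟨v, hv, l, hl, rfl⟩ := Submodule.mem_sup.1 h1
    refine ⟨⟨v, hv⟩, ?_⟩
    rw [hQ, map_add]
    have h2 : ((LZ a b ι z).restrictScalars ℂ).mkQ l = 0 := by
      rw [Submodule.mkQ_apply, Submodule.Quotient.mk_eq_zero]
      exact hl
    rw [h2, add_zero]
  obtain ⟨z0, hz0⟩ : ∃ z0 : Fin m → ℂ, Function.Injective z0 := by
    refine ⟨fun k : Fin m => ((k.val : ℕ) : ℂ), ?_⟩
    intro a b hab
    have : (a.val : ℂ) = (b.val : ℂ) := hab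
    exact Fin.ext (by exact_mod_cast this)
  have hge : ∀ z : Fin m → ℂ,
      Module.finrank ℂ (T a b ι ⧸ (LZ a b ι z).restrictScalars ℂ) ≤ Module.finrank ℂ V := fun z =>
    LinearMap.finrank_le_finrank_of_surjective (hsurj z)
  have hrank : Module.finrank ℂ V = rr (Fintype.card ι) a b :=
    le_antisymm hle ((hlow z0 hz0).trans (hge z0))
  have hinj : ∀ z : Fin m → ℂ, Function.Injective z → Function.Injective (Q z) := by
    intro z hz
    have : Module.Finite ℂ (T a b ι ⧸ (LZ a b ι z).restrictScalars ℂ) := (hL ι a b m hm z).2.2.1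
    refine (LinearMap.injective_iff_surjective_of_finrank_eq_finrank ?_).2 (hsurj z)
    exact le_antisymm (hrank.trans_le (hlow z hz)) (hge z)
  -- monomials
  have hmon : ∀ (z : Fin m → ℂ) (α : Fin m → ℕ) (c : T a b ι),
      ((LZ a b ι z).restrictScalars ℂ).mkQ (MDH.mon (ecC m) α * c) =
        (∏ k : Fin m, (PowerSeries.coeff (k.val + 1) (ZZ z)) ^ α k) •
          ((LZ a b ι z).restrictScalars ℂ).mkQ c := by
    intro z α c
    refine INZ_mul (((LZ a b ι z).restrictScalars ℂ).mkQ) (ecC m)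
      (fun k => PowerSeries.coeff (k.val + 1) (ZZ z)) (fun k c => ?_) α c
    have h1 := (hL ι a b m hm z).1 (k.val + 1) c
    have h2 : (C (PowerSeries.coeff (k.val + 1) (ZZ z)) : S ι) • c =
        (PowerSeries.coeff (k.val + 1) (ZZ z)) • c := by
      rw [← algebraMap_eq, algebraMap_smul]
    rw [h2] at h1
    rw [← map_smul, ← sub_eq_zero, ← map_sub, Submodule.mkQ_apply, Submodule.Quotient.mk_eq_zero]
    exact h1
  refine ⟨hfin, hrank, ?_, ?_⟩
  · intro s v hv hR
    have h1 : ∀ z : Fin m → ℂ, Function.Injective z → ∑ α ∈ s, (∏ k : Fin m,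
        (PowerSeries.coeff (k.val + 1) (ZZ z)) ^ α k) • v α = 0 := by
      intro z hz
      have hmem : ∑ α ∈ s, (∏ k : Fin m,
          (PowerSeries.coeff (k.val + 1) (ZZ z)) ^ α k) • v α ∈ V :=
        V.sum_mem fun α hα => V.smul_mem _ (hv α hα)
      have hR' : ((LZ a b ι z).restrictScalars ℂ).mkQ (∑ α ∈ s, MDH.mon (ecC m) α * v α) = 0 := by
        rw [Submodule.mkQ_apply, Submodule.Quotient.mk_eq_zero]
        exact (le_sup_left : Rel a b ι ≤ LZ a b ι z) hR
      have h2 : Q z ⟨_, hmem⟩ = 0 := by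
        rw [hQ]
        show ((LZ a b ι z).restrictScalars ℂ).mkQ (∑ α ∈ s, (∏ k : Fin m,
          (PowerSeries.coeff (k.val + 1) (ZZ z)) ^ α k) • v α) = 0
        rw [← hR', map_sum, map_sum]
        refine Finset.sum_congr rfl fun α _ => ?_
        rw [hmon, map_smul]
      have h3 := hinj z hz (h2.trans (map_zero (Q z)).symm)
      exact congrArg Subtype.val h3
    intro α hα
    rw [← Module.forall_dual_apply_eq_zero_iff ℂ]
    intro φ
    have h5 : ∀ α ∈ s, φ (v α) * ∏ k : Fin m, ((-1 : ℂ) ^ (k.val + 1)) ^ α k = 0 := by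
      refine INZ_esymm s (fun α => φ (v α) * ∏ k : Fin m, ((-1 : ℂ) ^ (k.val + 1)) ^ α k)
        (fun z hz => ?_)
      have h4 := congrArg φ (h1 z hz)
      rw [map_sum, map_zero] at h4
      rw [← h4]
      refine Finset.sum_congr rfl fun β _ => ?_
      rw [map_smul, smul_eq_mul, mul_assoc, ← Finset.prod_mul_distrib, mul_comm]
      congr 1
      refine Finset.prod_congr rfl fun k _ => ?_
      rw [INZ_coeff, mul_pow]
    refine (mul_eq_zero.1 (h5 α hα)).resolve_right ?_
    refine Finset.prod_ne_zero_iff.2 (fun k _ => ?_)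
    exact pow_ne_zero _ (pow_ne_zero _ (neg_ne_zero.2 one_ne_zero))
  · intro z hz w
    let e : V ≃ₗ[ℂ] (T a b ι ⧸ (LZ a b ι z).restrictScalars ℂ) :=
      LinearEquiv.ofBijective (Q z) ⟨hinj z hz, hsurj z⟩
    have he : ∀ x, e x = ((LZ a b ι z).restrictScalars ℂ).mkQ (x : T a b ι) := fun x => hQ z x
    have hst : (LZ a b ι z).restrictScalars ℂ ≤
        ((LZ a b ι z).restrictScalars ℂ).comap (actT w) := fun c hc' => hA3 m z w c hc'
    have h1 : e.conj ((actT w).restrict (hs w)) =
        ((LZ a b ι z).restrictScalars ℂ).mapQ ((LZ a b ι z).restrictScalars ℂ) (actT w) hst := by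
      refine LinearMap.ext fun q => ?_
      obtain ⟨v, rfl⟩ := e.surjective q
      rw [LinearEquiv.conj_apply_apply, LinearEquiv.symm_apply_apply, he, he,
        LinearMap.coe_restrict_apply, Submodule.mkQ_apply, Submodule.mkQ_apply,
        Submodule.mapQ_apply]
    unfold qtr
    rw [dif_pos hst, ← h1, LinearMap.trace_conj']

end MDC
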