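import Pool.Agent.MDC.StD

/-!
# MDC, module KPO: positivity
-/

set_option autoImplicit false

open Finset

namespace MDC

namespace KPO

/-- symmetric, zero for negative arguments, non-increasing away from the middle on the lines
`x + y = const` -/
private structure Good (Q : ℤ → ℤ → ℤ) : Prop where
  sym : ∀ x y, Q x y = Q y x
  zero : ∀ x y, x < 0 → Q x y = 0
  nn : ∀ x y, 0 ≤ Q x y
  mono : ∀ x y, y ≤ x → Q (x + 1) (y - 1) ≤ Q x y

private theorem line {Q : ℤ → ℤ → ℤ} (h : Good Q) (n : ℕ) : ∀ x y : ℤ, y ≤ x →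
    Q (x + n) (y - n) ≤ Q x y := by
  induction n with
  | zero => intro x y _; simp
  | succ n ih =>
    intro x y hxy
    have h1 := h.mono (x + n) (y - n) (by omega)
    have h2 := ih x y hxy
    have e1 : x + ((n + 1 : ℕ) : ℤ) = x + n + 1 := by push_cast; ring
    have e2 : y - ((n + 1 : ℕ) : ℤ) = y - n - 1 := by push_cast; ring
    rw [e1, e2]
    exact h1.trans h2

private theorem line2 {Q : ℤ → ℤ → ℤ} (h : Good Q) {x y x' y' : ℤ} (hs : x + y = x' + y')
    (h1 : x - y ≤ x' - y') (h2 : y - x ≤ x' - y') : Q x' y' ≤ Q x y := by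
  rcases le_total y x with hxy | hxy
  · obtain ⟨n, hn⟩ : ∃ n : ℕ, (n : ℤ) = x' - x := ⟨(x' - x).toNat, Int.toNat_of_nonneg (by omega)⟩
    have := line h n x y hxy
    rwa [hn, show x + (x' - x) = x' by ring, show y - (x' - x) = y' by linarith] at this
  · obtain ⟨n, hn⟩ : ∃ n : ℕ, (n : ℤ) = x' - y := ⟨(x' - y).toNat, Int.toNat_of_nonneg (by omega)⟩
    have := line h n y x hxy
    rw [hn, show y + (x' - y) = x' by ring, show x - (x' - y) = y' by linarith] at this
    rwa [h.sym x y]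

private theorem good_sum {Q : ℤ → ℤ → ℤ} (h : Good Q) (c : ℕ) :
    Good (fun x y => ∑ i ∈ range (c + 1), Q (x - i) (y - (c - i))) where
  sym := by
    intro x y
    rw [← Finset.sum_flip]
    refine Finset.sum_congr rfl (fun i hi => ?_)
    rw [h.sym]
    have hi' : i ≤ c := by
      have := mem_range.mp hi
      omega
    rw [Nat.cast_sub hi']
    congr 1
    ring
  zero := by
    intro x y hx
    refine Finset.sum_eq_zero (fun i _ => h.zero _ _ ?_)
    have : (0 : ℤ) ≤ i := Int.natCast_nonneg i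
    omega
  nn := fun x y => Finset.sum_nonneg (fun i _ => h.nn _ _)
  mono := by
    intro x y hxy
    have h1 := Finset.sum_range_sub (fun i : ℕ => Q (x + 1 - i) (y - 1 - (c - i))) (c + 1)
    have h2 : ∑ i ∈ range (c + 1), (Q (x + 1 - ((i + 1 : ℕ) : ℤ)) (y - 1 - (c - ((i + 1 : ℕ) : ℤ))) -
        Q (x + 1 - (i : ℤ)) (y - 1 - (c - (i : ℤ)))) =
        ∑ i ∈ range (c + 1), Q (x - i) (y - (c - i)) -
          ∑ i ∈ range (c + 1), Q (x + 1 - i) (y - 1 - (c - i)) := by
      rw [Finset.sum_sub_distrib]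
      congr 1
      refine Finset.sum_congr rfl (fun i _ => ?_)
      push_cast
      congr 1 <;> ring
    have h3 : Q (x + 1 - ((0 : ℕ) : ℤ)) (y - 1 - (c - ((0 : ℕ) : ℤ))) ≤
        Q (x + 1 - ((c + 1 : ℕ) : ℤ)) (y - 1 - (c - ((c + 1 : ℕ) : ℤ))) := by
      have hc : (0 : ℤ) ≤ c := Int.natCast_nonneg c
      apply line2 h
      · push_cast; ring
      · push_cast; linarith
      · push_cast; linarith
    have h4 := h2.symm.trans h1
    have h5 : (0 : ℤ) ≤ ∑ i ∈ range (c + 1), Q (x - i) (y - (c - i)) -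
          ∑ i ∈ range (c + 1), Q (x + 1 - i) (y - 1 - (c - i)) := by
      rw [h4]
      exact sub_nonneg.mpr h3
    exact sub_nonneg.mp h5

private theorem good_shift {Q : ℤ → ℤ → ℤ} (h : Good Q) : Good (fun x y => Q (x - 1) (y - 1)) where
  sym := fun x y => h.sym _ _
  zero := fun x y hx => h.zero _ _ (by omega)
  nn := fun x y => h.nn _ _
  mono := by
    intro x y hxy
    have h1 := h.mono (x - 1) (y - 1) (by omega)
    rwa [show x - 1 + 1 = x + 1 - 1 by ring] at h1

private theorem good_add {Q Q' : ℤ → ℤ → ℤ} (h : Good Q) (h' : Good Q') :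
    Good (fun x y => Q x y + Q' x y) where
  sym := fun x y => by rw [h.sym, h'.sym]
  zero := fun x y hx => by rw [h.zero _ _ hx, h'.zero _ _ hx, add_zero]
  nn := fun x y => add_nonneg (h.nn _ _) (h'.nn _ _)
  mono := fun x y hxy => add_le_add (h.mono _ _ hxy) (h'.mono _ _ hxy)

/-- extension by zero -/
private def K (l : List ℕ) (x y : ℤ) : ℤ :=
  if 0 ≤ x ∧ 0 ≤ y then (kapl l x.toNat y.toNat : ℤ) else 0

private theorem K_nat (l : List ℕ) (a b : ℕ) : K l a b = kapl l a b := by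
  rw [K, if_pos ⟨Int.natCast_nonneg a, Int.natCast_nonneg b⟩, Int.toNat_natCast, Int.toNat_natCast]

private theorem K_neg (l : List ℕ) {x y : ℤ} (h : x < 0 ∨ y < 0) : K l x y = 0 :=
  if_neg (by omega)

private theorem dsum (Q : ℤ → ℤ → ℤ) (hQ : ∀ x y, x < 0 ∨ y < 0 → Q x y = 0) (a b c : ℕ) :
    ∑ a' ∈ range (a + 1), ∑ b' ∈ range (b + 1),
      (if a' + b' = c then Q ((a : ℤ) - (a' : ℕ)) ((b : ℤ) - (b' : ℕ)) else 0) =
    ∑ i ∈ range (c + 1), Q ((a : ℤ) - i) ((b : ℤ) - (c - i)) := by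
  rw [← Finset.sum_product', ← Finset.sum_filter]
  have h1 : ∑ i ∈ range (c + 1), Q ((a : ℤ) - i) ((b : ℤ) - (c - i)) =
      ∑ p ∈ antidiagonal c, Q ((a : ℤ) - (p.1 : ℕ)) ((b : ℤ) - (p.2 : ℕ)) := by
    rw [Finset.Nat.sum_antidiagonal_eq_sum_range_succ_mk]
    refine Finset.sum_congr rfl (fun i hi => ?_)
    have hi' : i ≤ c := by
      have := mem_range.mp hi
      omega
    change _ = Q ((a : ℤ) - (i : ℕ)) ((b : ℤ) - ((c - i : ℕ) : ℤ))
    rw [Nat.cast_sub hi']
  rw [h1]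
  refine Finset.sum_subset ?_ ?_
  · intro p hp
    rw [mem_filter] at hp
    exact HasAntidiagonal.mem_antidiagonal.mpr hp.2
  · intro p hp hp'
    rw [HasAntidiagonal.mem_antidiagonal] at hp
    apply hQ
    by_contra hcon
    apply hp'
    rw [mem_filter, mem_product, mem_range, mem_range]
    omega

private theorem dsum2 (Q : ℤ → ℤ → ℤ) (hQ : ∀ x y, x < 0 ∨ y < 0 → Q x y = 0) (a b k : ℕ) :
    ∑ a' ∈ range (a + 1), ∑ b' ∈ range (b + 1),
      (if a' + b' = k + 2 ∧ 1 ≤ a' ∧ 1 ≤ b' then Q ((a : ℤ) - (a' : ℕ)) ((b : ℤ) - (b' : ℕ)) else 0) =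
    ∑ i ∈ range (k + 1), Q ((a : ℤ) - 1 - i) ((b : ℤ) - 1 - (k - i)) := by
  rw [← Finset.sum_product', ← Finset.sum_filter]
  have h1 : ∑ i ∈ range (k + 1), Q ((a : ℤ) - 1 - i) ((b : ℤ) - 1 - (k - i)) =
      ∑ p ∈ (antidiagonal k).map ⟨fun p => (p.1 + 1, p.2 + 1), fun p q h => by
        have h1 := congrArg Prod.fst h
        have h2 := congrArg Prod.snd h
        simp only at h1 h2
        exact Prod.ext (by omega) (by omega)⟩,
        Q ((a : ℤ) - (p.1 : ℕ)) ((b : ℤ) - (p.2 : ℕ)) := by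
    rw [Finset.sum_map, Finset.Nat.sum_antidiagonal_eq_sum_range_succ_mk]
    refine Finset.sum_congr rfl (fun i hi => ?_)
    have hi' : i ≤ k := by
      have := mem_range.mp hi
      omega
    change _ = Q ((a : ℤ) - ((i + 1 : ℕ) : ℤ)) ((b : ℤ) - ((k - i + 1 : ℕ) : ℤ))
    push_cast
    rw [Nat.cast_sub hi']
    congr 1 <;> ring
  rw [h1]
  refine Finset.sum_subset ?_ ?_
  · intro p hp
    rw [mem_filter] at hp
    rw [mem_map]
    refine ⟨(p.1 - 1, p.2 - 1), HasAntidiagonal.mem_antidiagonal.mpr ?_, Prod.ext ?_ ?_⟩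
    · change p.1 - 1 + (p.2 - 1) = k
      omega
    · change p.1 - 1 + 1 = p.1
      omega
    · change p.2 - 1 + 1 = p.2
      omega
  · intro p hp hp'
    rw [mem_map] at hp
    obtain ⟨q, hq, rfl⟩ := hp
    rw [HasAntidiagonal.mem_antidiagonal] at hq
    apply hQ
    by_contra hcon
    apply hp'
    rw [mem_filter, mem_product, mem_range, mem_range]
    change ((q.1 + 1 < a + 1 ∧ q.2 + 1 < b + 1) ∧ q.1 + 1 + (q.2 + 1) = k + 2 ∧
      1 ≤ q.1 + 1 ∧ 1 ≤ q.2 + 1)
    change ¬ ((a : ℤ) - ((q.1 + 1 : ℕ) : ℤ) < 0 ∨ (b : ℤ) - ((q.2 + 1 : ℕ) : ℤ) < 0) at hcon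
    omega

private theorem K_cons (k l' : ℕ) (l : List ℕ) (hk : 1 ≤ k) (x y : ℤ) :
    K (k :: l' :: l) x y =
      ∑ i ∈ range (k - 1 + 1), K (l' :: l) (x - i) (y - ((k - 1 : ℕ) - i)) +
      (if 2 ≤ k then ∑ i ∈ range (k - 2 + 1), K (l' :: l) (x - 1 - i) (y - 1 - ((k - 2 : ℕ) - i))
        else 0) := by
  have hQ : ∀ x y, x < 0 ∨ y < 0 → K (l' :: l) x y = 0 := fun x y h => K_neg _ h
  by_cases h : 0 ≤ x ∧ 0 ≤ y
  · obtain ⟨a, rfl⟩ : ∃ a : ℕ, x = a := ⟨x.toNat, (Int.toNat_of_nonneg h.1).symm⟩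
    obtain ⟨b, rfl⟩ : ∃ b : ℕ, y = b := ⟨y.toNat, (Int.toNat_of_nonneg h.2).symm⟩
    rw [K_nat]
    have h1 : ((kapl (k :: l' :: l) a b : ℕ) : ℤ) =
        ∑ a' ∈ range (a + 1), ∑ b' ∈ range (b + 1),
          (if a' + b' = k - 1 then K (l' :: l) ((a : ℤ) - (a' : ℕ)) ((b : ℤ) - (b' : ℕ)) else 0) +
        ∑ a' ∈ range (a + 1), ∑ b' ∈ range (b + 1),
          (if a' + b' = k ∧ 1 ≤ a' ∧ 1 ≤ b' then
            K (l' :: l) ((a : ℤ) - (a' : ℕ)) ((b : ℤ) - (b' : ℕ)) else 0) := by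
      rw [kapl]
      · push_cast
        rw [← Finset.sum_add_distrib]
        refine Finset.sum_congr rfl (fun a' ha' => ?_)
        rw [← Finset.sum_add_distrib]
        refine Finset.sum_congr rfl (fun b' hb' => ?_)
        have ha2 : a' ≤ a := by have := mem_range.mp ha'; omega
        have hb2 : b' ≤ b := by have := mem_range.mp hb'; omega
        have e : K (l' :: l) ((a : ℤ) - (a' : ℕ)) ((b : ℤ) - (b' : ℕ)) =
            (kapl (l' :: l) (a - a') (b - b') : ℤ) := by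
          rw [← K_nat, Nat.cast_sub ha2, Nat.cast_sub hb2]
        rw [e]
        by_cases c1 : a' + b' = k - 1
        · have c2 : ¬ (a' + b' = k ∧ 1 ≤ a' ∧ 1 ≤ b') := by omega
          have c3 : a' + b' + 1 = k ∨ (a' + b' = k ∧ 1 ≤ a' ∧ 1 ≤ b') := by omega
          rw [if_pos c1, if_neg c2, if_pos c3, add_zero]
        · by_cases c2 : a' + b' = k ∧ 1 ≤ a' ∧ 1 ≤ b'
          · rw [if_neg c1, if_pos c2, if_pos (Or.inr c2), zero_add]
          · have c3 : ¬ (a' + b' + 1 = k ∨ (a' + b' = k ∧ 1 ≤ a' ∧ 1 ≤ b')) := by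
              rintro (c3 | c3)
              · omega
              · exact c2 c3
            rw [if_neg c1, if_neg c2, if_neg c3, add_zero]
      · simp
    rw [h1, dsum _ hQ]
    congr 1
    split_ifs with h2
    · obtain ⟨m, rfl⟩ : ∃ m, k = m + 2 := ⟨k - 2, by omega⟩
      rw [dsum2 _ hQ]
      simp
    · refine Finset.sum_eq_zero (fun a' _ => Finset.sum_eq_zero (fun b' _ => if_neg ?_))
      omega
  · rw [K_neg _ (by omega)]
    have h1 : ∀ i ∈ range (k - 1 + 1), K (l' :: l) (x - i) (y - ((k - 1 : ℕ) - i)) = 0 := by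
      intro i hi
      have := mem_range.mp hi
      exact hQ _ _ (by omega)
    rw [Finset.sum_eq_zero h1, zero_add]
    split_ifs with h2
    · refine (Finset.sum_eq_zero (fun i hi => hQ _ _ ?_)).symm
      have := mem_range.mp hi
      omega
    · rfl

private theorem good_K : ∀ l : List ℕ, (∀ k ∈ l, 1 ≤ k) → Good (K l)
  | [], _ =>
    { sym := fun x y => by
        unfold K kapl
        by_cases h : 0 ≤ x ∧ 0 ≤ y
        · rw [if_pos h, if_pos h.symm]
          congr 1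
          simp only [and_comm]
        · rw [if_neg h, if_neg (fun h' => h h'.symm)]
      zero := fun x y hx => K_neg _ (Or.inl hx)
      nn := fun x y => by unfold K; split_ifs <;> simp
      mono := fun x y hxy => by
        by_cases h : 0 ≤ x + 1 ∧ 0 ≤ y - 1
        · obtain ⟨a, ha⟩ : ∃ a : ℕ, x = a := ⟨x.toNat, by omega⟩
          obtain ⟨b, hb⟩ : ∃ b : ℕ, y = ((b + 1 : ℕ) : ℤ) := ⟨(y - 1).toNat, by omega⟩
          subst ha hb
          have e1 : ((a : ℤ) + 1) = ((a + 1 : ℕ) : ℤ) := by push_cast; ring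
          have e2 : (((b + 1 : ℕ) : ℤ) - 1) = (b : ℤ) := by push_cast; ring
          rw [e1, e2, K_nat, K_nat]
          unfold kapl
          simp
        · rw [K_neg _ (by omega)]
          unfold K; split_ifs <;> simp }
  | [k], _ =>
    { sym := fun x y => by
        unfold K kapl
        by_cases h : 0 ≤ x ∧ 0 ≤ y
        · rw [if_pos h, if_pos h.symm]
          congr 1
          rw [add_comm x.toNat]
        · rw [if_neg h, if_neg (fun h' => h h'.symm)]
      zero := fun x y hx => K_neg _ (Or.inl hx)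
      nn := fun x y => by unfold K; split_ifs <;> simp
      mono := fun x y hxy => by
        by_cases h : 0 ≤ x + 1 ∧ 0 ≤ y - 1
        · obtain ⟨a, ha⟩ : ∃ a : ℕ, x = a := ⟨x.toNat, by omega⟩
          obtain ⟨b, hb⟩ : ∃ b : ℕ, y = ((b + 1 : ℕ) : ℤ) := ⟨(y - 1).toNat, by omega⟩
          subst ha hb
          have e1 : ((a : ℤ) + 1) = ((a + 1 : ℕ) : ℤ) := by push_cast; ring
          have e2 : (((b + 1 : ℕ) : ℤ) - 1) = (b : ℤ) := by push_cast; ring
          rw [e1, e2, K_nat, K_nat]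
          unfold kapl
          rw [show a + 1 + b + 1 = a + (b + 1) + 1 by ring]
        · rw [K_neg _ (by omega)]
          unfold K; split_ifs <;> simp }
  | k :: l' :: l, hl => by
    have hk : 1 ≤ k := hl k List.mem_cons_self
    have ih : Good (K (l' :: l)) := good_K (l' :: l) (fun k' hk' => hl k' (List.mem_cons_of_mem _ hk'))
    have e : K (k :: l' :: l) = fun x y =>
        ∑ i ∈ range (k - 1 + 1), K (l' :: l) (x - i) (y - ((k - 1 : ℕ) - i)) +
        (if 2 ≤ k then ∑ i ∈ range (k - 2 + 1), K (l' :: l) (x - 1 - i) (y - 1 - ((k - 2 : ℕ) - i))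
          else 0) := by
      funext x y
      exact K_cons k l' l hk x y
    rw [e]
    refine good_add (good_sum ih (k - 1)) ?_
    by_cases h2 : 2 ≤ k
    · simp only [if_pos h2]
      exact good_shift (good_sum ih (k - 2))
    · simp only [if_neg h2]
      exact ⟨fun _ _ => rfl, fun _ _ _ => rfl, fun _ _ => le_refl _, fun _ _ _ => le_refl _⟩

end KPO

theorem thm_KPO : St_KPO := by
  intro l a b hl hb hab
  have h := (KPO.good_K l hl).mono a b (by exact_mod_cast hab)
  have e1 : ((a : ℤ) + 1) = ((a + 1 : ℕ) : ℤ) := by push_cast; ring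
  have e2 : ((b : ℤ) - 1) = ((b - 1 : ℕ) : ℤ) := by omega
  rw [e1, e2, KPO.K_nat, KPO.K_nat] at h
  exact_mod_cast h

end MDC
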