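import Pool.Agent.MDC.StB

/-!
# MDC, module LZG: generation of `T / LZ`
-/

set_option autoImplicit false

open MvPolynomial

namespace MDC

section elem

variable {a b : ℕ} {ι : Type} [Fintype ι] [DecidableEq ι]

theorem LZG_one {m : ℕ} (z : Fin m → ℂ) (r : ℕ) (c : T a b ι) :
    ec r * c - (C (PowerSeries.coeff r (ZZ z)) : S ι) • c ∈ LZ a b ι z := by
  have h1 : ec r * c - (C (PowerSeries.coeff r (ZZ z)) : S ι) • c = ∑ x : Ix a b ι,
      c x • ((PowerSeries.coeff r (EE x) - C (PowerSeries.coeff r (ZZ z))) • (u x : T a b ι)) := by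
    funext y
    rw [Finset.sum_apply, Finset.sum_eq_single y]
    · rw [Pi.sub_apply, Pi.mul_apply, Pi.smul_apply, Pi.smul_apply, Pi.smul_apply, u,
        Pi.single_eq_same, smul_eq_mul, smul_eq_mul, smul_eq_mul, ec]
      ring
    · intro x _ hx
      rw [Pi.smul_apply, Pi.smul_apply, u, Pi.single_eq_of_ne (Ne.symm hx), smul_zero, smul_zero]
    · intro hy
      exact absurd (Finset.mem_univ y) hy
  rw [h1]
  refine Submodule.sum_mem _ fun x _ => Submodule.smul_mem _ _ ?_
  exact Submodule.mem_sup_right (Submodule.subset_span ⟨r, x, rfl⟩)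

/-- monomials in operators which act as scalars modulo `L` -/
theorem LZG_mon {A : Type} [CommRing A] [Algebra ℂ A] (L : Submodule ℂ A) {m : ℕ}
    (f : Fin m → A) (t : Fin m → ℂ) (h : ∀ k c, f k * c - t k • c ∈ L) (α : Fin m → ℕ) (c : A) :
    MDH.mon f α * c - (∏ k, t k ^ α k) • c ∈ L := by
  classical
  have hp : ∀ (k : Fin m) (q : ℕ) (c : A), f k ^ q * c - t k ^ q • c ∈ L := by
    intro k q
    induction q with
    | zero =>
      intro c
      rw [pow_zero, pow_zero, one_mul, one_smul, sub_self]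
      exact Submodule.zero_mem _
    | succ q ih =>
      intro c
      have h1 := ih (f k * c)
      have h2 := L.smul_mem (t k ^ q) (h k c)
      have h3 : f k ^ (q + 1) * c - t k ^ (q + 1) • c =
          (f k ^ q * (f k * c) - t k ^ q • (f k * c)) + t k ^ q • (f k * c - t k • c) := by
        rw [pow_succ, pow_succ, smul_sub, smul_smul, mul_assoc]
        abel
      rw [h3]
      exact L.add_mem h1 h2
  have hs : ∀ (s : Finset (Fin m)) (c : A),
      (∏ k ∈ s, f k ^ α k) * c - (∏ k ∈ s, t k ^ α k) • c ∈ L := by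
    intro s
    induction s using Finset.induction_on with
    | empty =>
      intro c
      rw [Finset.prod_empty, Finset.prod_empty, one_mul, one_smul, sub_self]
      exact Submodule.zero_mem _
    | insert k s hk ih =>
      intro c
      rw [Finset.prod_insert hk, Finset.prod_insert hk]
      have h1 := hp k (α k) ((∏ k ∈ s, f k ^ α k) * c)
      have h2 := L.smul_mem (t k ^ α k) (ih c)
      have h3 : f k ^ α k * (∏ k ∈ s, f k ^ α k) * c - (t k ^ α k * ∏ k ∈ s, t k ^ α k) • c =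
          (f k ^ α k * ((∏ k ∈ s, f k ^ α k) * c) - t k ^ α k • ((∏ k ∈ s, f k ^ α k) * c)) +
            t k ^ α k • ((∏ k ∈ s, f k ^ α k) * c - (∏ k ∈ s, t k ^ α k) • c) := by
        rw [smul_sub, smul_smul, mul_assoc]
        abel
      rw [h3]
      exact L.add_mem h1 h2
  exact hs Finset.univ c

end elem

theorem thm_LZG (hE : St_EOP) (hA : St_ACT) (hF : St_FDG) (hS : St_SPN) (hC : St_COM)
    (hU : St_UPG) : St_LZG := by
  intro ι _ _ a b m hab z
  obtain ⟨-, -, -, -, -, -, -, hA8, -, -, -⟩ := hA.1 ι a b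
  obtain ⟨-, hRh, -, -, -, hLop⟩ := hA.2 ι a b
  obtain ⟨-, -, hF3, -, -, -, -, -, -⟩ := hF ι a b
  have h2 : ∀ V : Submodule ℂ (T a b ι), IsHomog V →
      V ⊔ (Lop (ecC m) : Submodule (S ι) (T a b ι)).restrictScalars ℂ = ⊤ →
      V ⊔ (LZ a b ι z).restrictScalars ℂ = ⊤ := by
    intro V hV hsup
    have hSP := hS ι a b m (ecC m) V (fun k x => hA8 (k.val + 1) x)
      (fun k c hc => hE ι a b (k.val + 1) c hc) hRh hV hsup
    rw [eq_top_iff]
    rintro c -
    obtain ⟨J, hJ⟩ := hF3 c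
    obtain ⟨v, hv, hr⟩ := hSP J c hJ
    have h3 : ∀ α ∈ MDH.box m J, MDH.mon (ecC m) α * v α -
        (∏ k : Fin m, (PowerSeries.coeff (k.val + 1) (ZZ z)) ^ α k) • v α ∈
          (LZ a b ι z).restrictScalars ℂ := by
      intro α _
      refine LZG_mon ((LZ a b ι z).restrictScalars ℂ) (ecC m)
        (fun k => PowerSeries.coeff (k.val + 1) (ZZ z)) (fun k c => ?_) α (v α)
      have h4 := LZG_one z (k.val + 1) c
      have h5 : (C (PowerSeries.coeff (k.val + 1) (ZZ z)) : S ι) • c =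
          PowerSeries.coeff (k.val + 1) (ZZ z) • c := by
        funext x
        rw [Pi.smul_apply, Pi.smul_apply, smul_eq_mul, C_mul']
      rw [h5] at h4
      exact h4
    have h4 : c = ∑ α ∈ MDH.box m J,
        (∏ k : Fin m, (PowerSeries.coeff (k.val + 1) (ZZ z)) ^ α k) • v α +
        ((c - ∑ α ∈ MDH.box m J, MDH.mon (ecC m) α * v α) +
          ∑ α ∈ MDH.box m J, (MDH.mon (ecC m) α * v α -
            (∏ k : Fin m, (PowerSeries.coeff (k.val + 1) (ZZ z)) ^ α k) • v α)) := by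
      rw [Finset.sum_sub_distrib]
      abel
    rw [h4]
    refine Submodule.add_mem_sup (Submodule.sum_mem _ fun α hα => V.smul_mem _ (hv α hα).1)
      (Submodule.add_mem _ ?_ (Submodule.sum_mem _ h3))
    have h5 : Rel a b ι ≤ LZ a b ι z := le_sup_left
    exact h5 hr
  obtain ⟨V, hV1, -, hV3⟩ := hC ι a b
    ((Lop (ecC m) : Submodule (S ι) (T a b ι)).restrictScalars ℂ) (hLop m).2.1 (hLop m).1
  obtain ⟨⟨f1, f2⟩, -⟩ := hU ι a b m hab
  let e1 : (T a b ι ⧸ (Lop (ecC m) : Submodule (S ι) (T a b ι)).restrictScalars ℂ) ≃ₗ[ℂ] V :=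
    Submodule.quotientEquivOfIsCompl _ V hV3.symm
  have hfin : Module.Finite ℂ V := Module.Finite.equiv e1
  have hle : Module.finrank ℂ V ≤ rr (Fintype.card ι) a b := by
    rw [← e1.finrank_eq]
    exact f2
  obtain ⟨g, hg⟩ : ∃ g : V →ₗ[ℂ] (T a b ι ⧸ (LZ a b ι z).restrictScalars ℂ),
      ∀ v, g v = ((LZ a b ι z).restrictScalars ℂ).mkQ (v : T a b ι) :=
    ⟨((LZ a b ι z).restrictScalars ℂ).mkQ ∘ₗ V.subtype, fun _ => rfl⟩
  have hsur : Function.Surjective g := by
    intro y
    obtain ⟨c, rfl⟩ := Submodule.mkQ_surjective _ y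
    have h3 : c ∈ V ⊔ (LZ a b ι z).restrictScalars ℂ := by
      rw [h2 V hV1 hV3.sup_eq_top]
      exact Submodule.mem_top
    obtain ⟨v, hv, l, hl, hvl⟩ := Submodule.mem_sup.1 h3
    refine ⟨⟨v, hv⟩, ?_⟩
    rw [hg, ← hvl, map_add]
    have h4 : ((LZ a b ι z).restrictScalars ℂ).mkQ l = 0 :=
      (Submodule.Quotient.mk_eq_zero _).2 hl
    rw [h4, add_zero]
  refine ⟨fun r c => LZG_one z r c, h2, Module.Finite.of_surjective g hsur, ?_⟩
  exact (LinearMap.finrank_le_finrank_of_surjective hsur).trans hle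

end MDC
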