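import Pool.Agent.MDC.StC

/-!
# MDC, module NMA: convolution identity for the numbers `rr`
-/

set_option autoImplicit false
set_option linter.unusedVariables false

open Polynomial

namespace MDC

/-- the polynomials `r_m(n)` -/
noncomputable def NMA_P : ℕ → ℕ → Polynomial (Polynomial ℕ)
  | 0, m => if m = 0 then 1 else 0
  | n + 1, m => (m : Polynomial (Polynomial ℕ)) *
      (NMA_P n (m - 1) + (X + C X) * NMA_P n m + X * C X * NMA_P n (m + 1))

theorem NMA_zero (m : ℕ) : NMA_P 0 m = if m = 0 then 1 else 0 := rfl

theorem NMA_succ (n m : ℕ) : NMA_P (n + 1) m = (m : Polynomial (Polynomial ℕ)) *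
      (NMA_P n (m - 1) + (X + C X) * NMA_P n m + X * C X * NMA_P n (m + 1)) := rfl

/-- the convolution identity -/
theorem NMA_conv (n : ℕ) : ∀ i j : ℕ,
    ∑ q ∈ Finset.HasAntidiagonal.antidiagonal n, n.choose q.1 • (NMA_P q.1 i * NMA_P q.2 j) =
      NMA_P n (i + j) := by
  induction n with
  | zero =>
    intro i j
    simp only [Finset.Nat.antidiagonal_zero, Finset.sum_singleton, Nat.choose_self, one_smul,
      NMA_zero]
    by_cases hi : i = 0
    · subst hi
      simp
    · simp [hi]
  | succ n ih =>
    intro i j
    rw [Finset.sum_antidiagonal_choose_succ_nsmul (fun k l => NMA_P k i * NMA_P l j) n]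
    have hsym : ∀ q ∈ Finset.HasAntidiagonal.antidiagonal n, n.choose q.2 = n.choose q.1 := by
      intro q hq
      rw [Finset.HasAntidiagonal.mem_antidiagonal] at hq
      exact (Nat.choose_symm_of_eq_add (by omega)).symm
    have h1 : ∑ q ∈ Finset.HasAntidiagonal.antidiagonal n, n.choose q.1 • (NMA_P q.1 i * NMA_P (q.2 + 1) j) =
        (j : Polynomial (Polynomial ℕ)) * (NMA_P n (i + (j - 1)) + (X + C X) * NMA_P n (i + j) +
          X * C X * NMA_P n (i + (j + 1))) := by
      rw [← ih i (j - 1), ← ih i j, ← ih i (j + 1), Finset.mul_sum, Finset.mul_sum,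
        ← Finset.sum_add_distrib, ← Finset.sum_add_distrib, Finset.mul_sum]
      refine Finset.sum_congr rfl fun q _ => ?_
      rw [NMA_succ]
      simp only [nsmul_eq_mul]
      ring
    have h2 : ∑ q ∈ Finset.HasAntidiagonal.antidiagonal n, n.choose q.2 • (NMA_P (q.1 + 1) i * NMA_P q.2 j) =
        (i : Polynomial (Polynomial ℕ)) * (NMA_P n ((i - 1) + j) + (X + C X) * NMA_P n (i + j) +
          X * C X * NMA_P n ((i + 1) + j)) := by
      rw [← ih (i - 1) j, ← ih i j, ← ih (i + 1) j, Finset.mul_sum, Finset.mul_sum,
        ← Finset.sum_add_distrib, ← Finset.sum_add_distrib, Finset.mul_sum]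
      refine Finset.sum_congr rfl fun q hq => ?_
      rw [NMA_succ, hsym q hq]
      simp only [nsmul_eq_mul]
      ring
    rw [h1, h2, NMA_succ, show i + (j + 1) = i + j + 1 by ring, show i + 1 + j = i + j + 1 by ring]
    rcases i with _ | i
    · simp
    · rcases j with _ | j
      · simp
      · rw [show i + 1 + (j + 1 - 1) = i + 1 + (j + 1) - 1 by omega,
          show i + 1 - 1 + (j + 1) = i + 1 + (j + 1) - 1 by omega]
        push_cast
        ring

theorem NMA_coeff_mul (p q : Polynomial (Polynomial ℕ)) (a b : ℕ) :
    ((p * q).coeff a).coeff b = ∑ x ∈ Finset.HasAntidiagonal.antidiagonal a, ∑ y ∈ Finset.HasAntidiagonal.antidiagonal b,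
      (p.coeff x.1).coeff y.1 * (q.coeff x.2).coeff y.2 := by
  rw [coeff_mul, finsetSum_coeff]
  exact Finset.sum_congr rfl fun x _ => coeff_mul _ _ _

theorem NMA_coeff (n : ℕ) : ∀ m a b : ℕ, ((NMA_P n m).coeff a).coeff b =
    if a + b + m = n then rr n a b else 0 := by
  induction n with
  | zero =>
    intro m a b
    rw [NMA_zero]
    by_cases hm : m = 0
    · subst hm
      rw [if_pos rfl, coeff_one]
      by_cases ha : a = 0
      · subst ha
        rw [if_pos rfl, coeff_one]
        by_cases hb : b = 0
        · subst hb
          simp [rr]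
        · rw [if_neg hb, if_neg (by omega)]
      · rw [if_neg ha, if_neg (by omega), coeff_zero]
    · rw [if_neg hm, if_neg (by omega), coeff_zero, coeff_zero]
  | succ n ih =>
    intro m a b
    have hm : (m : Polynomial (Polynomial ℕ)) = C (C m) := by simp
    have hX : ∀ (p : Polynomial (Polynomial ℕ)), ((X * p).coeff a).coeff b =
        if 0 < a then (p.coeff (a - 1)).coeff b else 0 := by
      intro p
      rcases a with _ | a
      · simp
      · simp [coeff_X_mul]
    have hY : ∀ (p : Polynomial (Polynomial ℕ)) (a' : ℕ), ((C X * p).coeff a').coeff b =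
        if 0 < b then (p.coeff a').coeff (b - 1) else 0 := by
      intro p a'
      rw [coeff_C_mul]
      rcases b with _ | b
      · simp
      · simp [coeff_X_mul]
    rw [NMA_succ, hm, coeff_C_mul, coeff_C_mul, coeff_add, coeff_add, coeff_add, coeff_add,
      add_mul, coeff_add, coeff_add, mul_assoc X (C X), hX, hX, hY, hY, ih, ih, ih, ih, rr]
    rcases Nat.eq_zero_or_pos m with rfl | hm0
    · by_cases h : a + b + 0 = n + 1
      · rw [if_pos h, show n + 1 - a - b = 0 by omega]
        simp
      · rw [if_neg h]
        simp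
    · by_cases h : a + b + m = n + 1
      · rw [if_pos h, show n + 1 - a - b = m by omega, if_pos (by omega)]
        congr 1
        by_cases ha : 0 < a
        · by_cases hb : 0 < b
          · simp only [ha, hb, if_true, and_self]
            rw [if_pos (by omega), if_pos (by omega), if_pos (by omega)]
            ring
          · simp only [ha, hb, if_true, if_false, and_false]
            rw [if_pos (by omega)]
            ring
        · by_cases hb : 0 < b
          · simp only [ha, hb, if_true, if_false, false_and]
            rw [if_pos (by omega)]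
            ring
          · simp only [ha, hb, if_false, false_and]
            ring
      · rw [if_neg h, if_neg (by omega)]
        have h1 : (if 0 < a then (if a - 1 + b + m = n then rr n (a - 1) b else 0) else 0) = 0 := by
          split_ifs <;> first | rfl | omega
        have h2 : (if 0 < b then (if a + (b - 1) + m = n then rr n a (b - 1) else 0) else 0) =
            0 := by
          split_ifs <;> first | rfl | omega
        have h3 : (if 0 < a then (if 0 < b then (if a - 1 + (b - 1) + (m + 1) = n then
            rr n (a - 1) (b - 1) else 0) else 0) else 0) = 0 := by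
          split_ifs <;> first | rfl | omega
        rw [h1, h2, h3]
        simp

theorem thm_NMA : St_NMA := by
  intro n a b m hn hm
  have h1 := NMA_coeff n m a b
  rw [if_pos hn] at h1
  have h2 := NMA_conv n 1 (m - 1)
  rw [show 1 + (m - 1) = m by omega] at h2
  rw [← h1, ← h2, finsetSum_coeff, finsetSum_coeff, Finset.Nat.sum_antidiagonal_eq_sum_range_succ_mk]
  refine Finset.sum_congr rfl fun k hk => ?_
  have hk' : k ≤ n := Nat.lt_succ_iff.1 (Finset.mem_range.1 hk)
  rw [coeff_smul, coeff_smul, NMA_coeff_mul, Finset.Nat.sum_antidiagonal_eq_sum_range_succ_mk,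
    Finset.smul_sum]
  refine Finset.sum_congr rfl fun a1 ha1 => ?_
  rw [Finset.Nat.sum_antidiagonal_eq_sum_range_succ_mk, Finset.smul_sum]
  refine Finset.sum_congr rfl fun b1 hb1 => ?_
  rw [Finset.mem_range] at ha1 hb1
  rw [NMA_coeff, NMA_coeff]
  by_cases h : a1 + b1 + 1 = k
  · rw [if_pos h, if_pos h, if_pos (by omega), smul_eq_mul, mul_assoc]
  · rw [if_neg h, if_neg h]
    simp

end MDC
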