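import Pool.Agent.MDC.StC

/-!
# MDC / NMB: the alternating sum of the numbers `rr`
-/

set_option autoImplicit false

namespace MDC

private theorem NMB_zero (n a b : ℕ) (hn : 1 ≤ n) (h : n ≤ a + b) : rr n a b = 0 := by
  obtain ⟨m, rfl⟩ : ∃ m, n = m + 1 := ⟨n - 1, by omega⟩
  rw [rr]
  have h1 : m + 1 - a - b = 0 := by omega
  rw [h1, zero_mul]

/-- the part of the recursion which does not involve `a - 1` -/
private def NMB_g (n b a : ℕ) : ℤ := (rr n a b : ℤ) + (if 0 < b then (rr n a (b - 1) : ℤ) else 0)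

private theorem NMB_rec (n a b : ℕ) (hn : 1 ≤ n) : (rr (n + 1) a b : ℤ) =
    ((n : ℤ) + 1 - a - b) * (NMB_g n b a + if 0 < a then NMB_g n b (a - 1) else 0) := by
  rcases Nat.lt_or_ge (n + 1) (a + b) with h | h
  · rw [NMB_zero (n + 1) a b (by omega) (by omega)]
    have h1 : NMB_g n b a = 0 := by
      unfold NMB_g
      rw [NMB_zero n a b hn (by omega)]
      split_ifs with hb
      · rw [NMB_zero n a (b - 1) hn (by omega)]
        simp
      · simp
    have h2 : (if 0 < a then NMB_g n b (a - 1) else 0) = 0 := by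
      split_ifs with ha
      · unfold NMB_g
        rw [NMB_zero n (a - 1) b hn (by omega)]
        split_ifs with hb
        · rw [NMB_zero n (a - 1) (b - 1) hn (by omega)]
          simp
        · simp
      · rfl
    rw [h1, h2]
    simp
  · rw [rr]
    have h1 : ((n + 1 - a - b : ℕ) : ℤ) = (n : ℤ) + 1 - a - b := by omega
    push_cast
    rw [← h1]
    unfold NMB_g
    by_cases ha : 0 < a <;> by_cases hb : 0 < b <;> simp [ha, hb] <;> left <;> ring

private theorem NMB_step (n b : ℕ) (hn : 1 ≤ n) :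
    ∑ a ∈ Finset.range (n + 2), (-1 : ℤ) ^ a * (rr (n + 1) a b : ℤ) =
      ∑ a ∈ Finset.range (n + 1), (-1 : ℤ) ^ a * NMB_g n b a := by
  have h1 : ∑ a ∈ Finset.range (n + 2), (-1 : ℤ) ^ a * (rr (n + 1) a b : ℤ) =
      ∑ a ∈ Finset.range (n + 2), (-1 : ℤ) ^ a * (((n : ℤ) + 1 - a - b) * NMB_g n b a) +
      ∑ a ∈ Finset.range (n + 2), (-1 : ℤ) ^ a *
        (((n : ℤ) + 1 - a - b) * if 0 < a then NMB_g n b (a - 1) else 0) := by
    rw [← Finset.sum_add_distrib]
    refine Finset.sum_congr rfl fun a _ => ?_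
    rw [NMB_rec n a b hn]
    ring
  have h2 : NMB_g n b (n + 1) = 0 := by
    unfold NMB_g
    rw [NMB_zero n (n + 1) b hn (by omega)]
    split_ifs with hb
    · rw [NMB_zero n (n + 1) (b - 1) hn (by omega)]
      simp
    · simp
  rw [h1, Finset.sum_range_succ, h2, Finset.sum_range_succ' (n := n + 1)]
  simp only [mul_zero, add_zero, lt_irrefl, if_false, Nat.zero_lt_succ, if_true,
    Nat.add_sub_cancel]
  rw [← Finset.sum_add_distrib]
  refine Finset.sum_congr rfl fun a _ => ?_
  push_cast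
  ring

theorem thm_NMB : St_NMB := by
  intro n b hn
  induction n, hn using Nat.le_induction generalizing b with
  | base =>
    rw [Finset.sum_range_succ, Finset.sum_range_one]
    rcases Nat.eq_zero_or_pos b with rfl | hb
    · simp [rr]
    · rw [NMB_zero 1 0 b le_rfl (by omega), NMB_zero 1 1 b le_rfl (by omega)]
      rw [Nat.choose_eq_zero_of_lt (by omega)]
      simp
  | succ n hn ih =>
    rw [NMB_step n b hn]
    unfold NMB_g
    simp only [mul_add]
    rw [Finset.sum_add_distrib, ih b]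
    obtain ⟨m, rfl⟩ : ∃ m, n = m + 1 := ⟨n - 1, by omega⟩
    rcases Nat.eq_zero_or_pos b with rfl | hb
    · simp
    · obtain ⟨c, rfl⟩ : ∃ c, b = c + 1 := ⟨b - 1, by omega⟩
      simp only [Nat.zero_lt_succ, if_true, Nat.add_sub_cancel]
      rw [ih c, Nat.choose_succ_succ m c]
      push_cast
      ring

end MDC
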