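import Pool.Agent.MDC.DLog

/-!
# MDC NWT: Newton's identities for `EE`
-/

set_option autoImplicit false

open MvPolynomial

namespace MDC

open DLog

section

variable {a b : ℕ} {ι : Type} [Fintype ι] [DecidableEq ι]

theorem NWT_rel (x : Ix a b ι) (k : ℕ) (hk : 1 ≤ k) :
    (QQ k : T a b ι) x = - (k : S ι) * ec k x -
      ∑ q ∈ (Finset.HasAntidiagonal.antidiagonal k).filter (fun p => 1 ≤ p.1 ∧ 1 ≤ p.2),
        (QQ q.2 : T a b ι) x * ec q.1 x := by
  have h := LD_coeff (LD_EE x) k
  rw [PowerSeries.coeff_mul] at h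
  set G := ((Fintype.card ι : ℕ) : PowerSeries (S ι)) - (a : PowerSeries (S ι)) -
      (b : PowerSeries (S ι)) - PP ι + (∑ s, inv (x.1 s) + ∑ t, inv (x.2 t)) with hG
  have hcast : ∀ (m q : ℕ), 1 ≤ q →
      PowerSeries.coeff q ((m : ℕ) : PowerSeries (S ι)) = 0 := by
    intro m q hq
    rw [← map_natCast (PowerSeries.C : S ι →+* PowerSeries (S ι)), PowerSeries.coeff_C]
    simp only [if_neg (by omega : ¬ q = 0)]
  have hinv : ∀ (i : ι) (q : ℕ), PowerSeries.coeff q (inv i) = (X i : S ι) ^ q := by
    intro i q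
    simp [inv]
  have hGq : ∀ q, 1 ≤ q → PowerSeries.coeff q G = - (QQ q : T a b ι) x := by
    intro q hq
    rw [hG, map_add, map_sub, map_sub, map_sub, hcast _ _ hq, hcast _ _ hq, hcast _ _ hq,
      coeff_PP, map_add, map_sum, map_sum]
    simp only [hinv, QQ]
    ring
  have hG0 : PowerSeries.coeff 0 G = 0 := by
    rw [hG, map_add, map_sub, map_sub, map_sub, coeff_PP, map_add, map_sum, map_sum]
    simp only [hinv, pow_zero, Finset.sum_const, Finset.card_univ, Fintype.card_fin, nsmul_eq_mul,
      mul_one, psum]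
    simp only [PowerSeries.coeff_zero_eq_constantCoeff_apply, map_natCast]
    ring
  have hsplit : ∑ p ∈ Finset.HasAntidiagonal.antidiagonal k, PowerSeries.coeff p.1 (EE x) * PowerSeries.coeff p.2 G
      = - (QQ k : T a b ι) x -
        ∑ q ∈ (Finset.HasAntidiagonal.antidiagonal k).filter (fun p => 1 ≤ p.1 ∧ 1 ≤ p.2),
        (QQ q.2 : T a b ι) x * ec q.1 x := by
    rw [← Finset.sum_filter_add_sum_filter_not (Finset.HasAntidiagonal.antidiagonal k)
      (fun p => 1 ≤ p.1 ∧ 1 ≤ p.2)]
    have e1 : ∑ p ∈ (Finset.HasAntidiagonal.antidiagonal k).filter (fun p => 1 ≤ p.1 ∧ 1 ≤ p.2),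
        PowerSeries.coeff p.1 (EE x) * PowerSeries.coeff p.2 G =
        - ∑ q ∈ (Finset.HasAntidiagonal.antidiagonal k).filter (fun p => 1 ≤ p.1 ∧ 1 ≤ p.2),
        (QQ q.2 : T a b ι) x * ec q.1 x := by
      rw [← Finset.sum_neg_distrib]
      refine Finset.sum_congr rfl (fun p hp => ?_)
      rw [hGq _ (Finset.mem_filter.mp hp).2.2]
      unfold ec
      ring
    have e2 : ∑ p ∈ (Finset.HasAntidiagonal.antidiagonal k).filter (fun p => ¬ (1 ≤ p.1 ∧ 1 ≤ p.2)),
        PowerSeries.coeff p.1 (EE x) * PowerSeries.coeff p.2 G = - (QQ k : T a b ι) x := by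
      rw [Finset.sum_eq_single (0, k)]
      · rw [coeff_zero_EE, one_mul, hGq k hk]
      · intro p hp hne
        have hp1 := Finset.mem_filter.mp hp
        have hp2 := Finset.HasAntidiagonal.mem_antidiagonal.mp hp1.1
        have hp3 : p.2 = 0 := by
          by_contra h0
          have h1 : p.1 = 0 := by
            by_contra h1
            exact hp1.2 ⟨by omega, by omega⟩
          exact hne (Prod.ext h1 (by simp only; omega))
        rw [hp3, hG0, mul_zero]
      · intro hn
        exfalso
        apply hn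
        rw [Finset.mem_filter, Finset.HasAntidiagonal.mem_antidiagonal]
        refine ⟨by simp, ?_⟩
        simp
    rw [e1, e2]
    ring
  rw [hsplit] at h
  unfold ec at h ⊢
  linear_combination h

end

theorem thm_NWT (hPOL : St_POL) : St_NWT := by
  intro ι _ _ a b m hm
  have hec : ∀ k, 1 ≤ k → ∀ c : T a b ι, ec k * c ∈ Lop (ecC m) := by
    intro k hk c
    rcases Nat.lt_or_ge m k with h | h
    · refine Submodule.mem_sup_left ?_
      have e : (ec k : T a b ι) * c = ∑ x, c x • (ec k x • (u x : T a b ι)) := by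
        conv_lhs => rw [sum_smul_u c]
        rw [Finset.mul_sum]
        refine Finset.sum_congr rfl (fun x _ => ?_)
        rw [mul_smul_comm, mul_u]
      rw [e]
      refine Submodule.sum_mem _ (fun x _ => Submodule.smul_mem _ _ (RelP_le_Rel ?_))
      exact hPOL ι a b k x (by omega)
    · refine Submodule.mem_sup_right ?_
      refine Submodule.mem_iSup_of_mem (⟨k - 1, by omega⟩ : Fin m) ?_
      refine ⟨c, ?_⟩
      rw [LinearMap.mulLeft_apply]
      unfold ecC
      simp only
      rw [Nat.sub_add_cancel hk]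
  intro k
  induction k using Nat.strong_induction_on with
  | _ k ih =>
    intro hk c
    have e : (QQ k : T a b ι) * c = (- (k : S ι)) • (ec k * c) -
        ∑ q ∈ (Finset.HasAntidiagonal.antidiagonal k).filter (fun p => 1 ≤ p.1 ∧ 1 ≤ p.2),
          QQ q.2 * (ec q.1 * c) := by
      funext x
      simp only [Pi.mul_apply, Pi.sub_apply, Pi.smul_apply, Finset.sum_apply, smul_eq_mul]
      rw [NWT_rel x k hk, sub_mul, Finset.sum_mul]
      congr 1
      · ring
      · refine Finset.sum_congr rfl (fun q _ => ?_)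
        ring
    rw [e]
    refine Submodule.sub_mem _ (Submodule.smul_mem _ _ (hec k hk c))
      (Submodule.sum_mem _ (fun q hq => ?_))
    have hq1 := Finset.mem_filter.mp hq
    have hq2 := Finset.HasAntidiagonal.mem_antidiagonal.mp hq1.1
    exact ih q.2 (by have := hq1.2.1; omega) hq1.2.2 _

end MDC
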