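import Pool.Agent.MDC.StC

/-!
# MDC, module ONE: the case of one point
-/

set_option autoImplicit false
set_option linter.unusedSectionVars false

open MvPolynomial

namespace MDC

section gen

variable {A : Type} [CommRing A]

/-- `1 - y t` -/
noncomputable def ONE_lin (y : A) : PowerSeries A := 1 - PowerSeries.C y * PowerSeries.X

/-- `1 / (1 - y t)` -/
noncomputable def ONE_inv (y : A) : PowerSeries A := PowerSeries.mk (fun q => y ^ q)

/-- `t d/dt` -/
noncomputable def ONE_D (f : PowerSeries A) : PowerSeries A :=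
  PowerSeries.mk (fun r => (r : A) * PowerSeries.coeff r f)

theorem ONE_D_mul (f g : PowerSeries A) : ONE_D (f * g) = f * ONE_D g + ONE_D f * g := by
  ext r
  simp only [ONE_D, PowerSeries.coeff_mk, map_add, PowerSeries.coeff_mul]
  rw [Finset.mul_sum, ← Finset.sum_add_distrib]
  refine Finset.sum_congr rfl fun p hp => ?_
  have h := Finset.HasAntidiagonal.mem_antidiagonal.mp hp
  rw [← h]
  push_cast
  ring

theorem ONE_D_one : ONE_D (1 : PowerSeries A) = 0 := by
  ext r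
  simp only [ONE_D, PowerSeries.coeff_mk, map_zero, PowerSeries.coeff_one]
  by_cases h : r = 0
  · simp [h]
  · simp [h]

theorem ONE_lin_inv (y : A) : ONE_lin y * ONE_inv y = 1 := by
  ext r
  unfold ONE_lin ONE_inv
  rw [sub_mul, one_mul, mul_assoc, map_sub, PowerSeries.coeff_C_mul]
  cases r with
  | zero => simp
  | succ r =>
    rw [PowerSeries.coeff_succ_X_mul, PowerSeries.coeff_mk, PowerSeries.coeff_mk,
      PowerSeries.coeff_one]
    simp [pow_succ']

/-- logarithmic derivative -/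
def ONE_LD (f g : PowerSeries A) : Prop := ONE_D f = f * g

theorem ONE_LD_one : ONE_LD (1 : PowerSeries A) 0 := by
  unfold ONE_LD
  rw [ONE_D_one, mul_zero]

theorem ONE_LD_mul {f g f' g' : PowerSeries A} (h : ONE_LD f g) (h' : ONE_LD f' g') :
    ONE_LD (f * f') (g + g') := by
  unfold ONE_LD at *
  rw [ONE_D_mul, h, h']
  ring

theorem ONE_LD_prod {κ : Type} (s : Finset κ) (f g : κ → PowerSeries A)
    (h : ∀ i, ONE_LD (f i) (g i)) : ONE_LD (∏ i ∈ s, f i) (∑ i ∈ s, g i) := by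
  classical
  induction s using Finset.induction_on with
  | empty => simpa using ONE_LD_one
  | insert i s hi ih =>
    rw [Finset.prod_insert hi, Finset.sum_insert hi]
    exact ONE_LD_mul (h i) ih

theorem ONE_LD_lin (y : A) : ONE_LD (ONE_lin y) (1 - ONE_inv y) := by
  unfold ONE_LD
  have h1 : ONE_lin y * (1 - ONE_inv y) = - (PowerSeries.C y * PowerSeries.X) := by
    rw [mul_sub, ONE_lin_inv]
    unfold ONE_lin
    ring
  rw [h1]
  ext r
  unfold ONE_D ONE_lin
  rw [PowerSeries.coeff_mk, map_sub, map_neg, PowerSeries.coeff_C_mul, PowerSeries.coeff_one,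
    PowerSeries.coeff_X]
  by_cases h : r = 0
  · subst h
    simp
  · by_cases h' : r = 1
    · subst h'
      simp
    · simp [h, h']

theorem ONE_LD_inv (y : A) : ONE_LD (ONE_inv y) (ONE_inv y - 1) := by
  have h1 := ONE_lin_inv y
  have h2 := ONE_D_mul (ONE_lin y) (ONE_inv y)
  have h3 := ONE_LD_lin y
  unfold ONE_LD at *
  rw [h1, ONE_D_one, h3] at h2
  linear_combination (-ONE_inv y) * h2 -
    (ONE_D (ONE_inv y) + (1 - ONE_inv y) * ONE_inv y) * h1

theorem ONE_uniq [Algebra ℂ A] (f f' g : PowerSeries A) (h : ONE_LD f g) (h' : ONE_LD f' g)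
    (h0 : PowerSeries.coeff 0 f = PowerSeries.coeff 0 f') (hg : PowerSeries.coeff 0 g = 0) :
    f = f' := by
  ext r
  induction r using Nat.strong_induction_on with
  | _ r ih =>
    by_cases hr : r = 0
    · subst hr
      exact h0
    · have e : ∀ F : PowerSeries A, ONE_LD F g → (r : A) * PowerSeries.coeff r F =
          ∑ p ∈ Finset.HasAntidiagonal.antidiagonal r, PowerSeries.coeff p.1 F * PowerSeries.coeff p.2 g := by
        intro F hF
        have h1 := congrArg (PowerSeries.coeff r) hF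
        rw [PowerSeries.coeff_mul] at h1
        unfold ONE_D at h1
        rw [PowerSeries.coeff_mk] at h1
        exact h1
      have h2 : (r : A) * PowerSeries.coeff r f = (r : A) * PowerSeries.coeff r f' := by
        rw [e f h, e f' h']
        refine Finset.sum_congr rfl fun p hp => ?_
        have hp' := Finset.HasAntidiagonal.mem_antidiagonal.mp hp
        by_cases hp2 : p.2 = 0
        · rw [hp2, hg, mul_zero, mul_zero]
        · rw [ih p.1 (by omega)]
      have hu : IsUnit (r : A) := by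
        have h3 : (r : A) = algebraMap ℂ A (r : ℂ) := by simp
        rw [h3]
        exact (IsUnit.mk0 (r : ℂ) (by exact_mod_cast hr)).map (algebraMap ℂ A)
      exact hu.mul_left_cancel h2

variable {ι : Type} [Fintype ι] {a b : ℕ}

/-- the series `EE` over an arbitrary ring -/
noncomputable def ONE_EE (y : ι → A) (j : Fin a → A) (k : Fin b → A) : PowerSeries A :=
  (∏ i, ONE_lin (y i)) * (∏ s, ONE_inv (j s)) * ∏ t, ONE_inv (k t)

/-- its logarithmic derivative -/
noncomputable def ONE_G (y : ι → A) (j : Fin a → A) (k : Fin b → A) : PowerSeries A :=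
  ∑ i, (1 - ONE_inv (y i)) + ∑ s, (ONE_inv (j s) - 1) + ∑ t, (ONE_inv (k t) - 1)

theorem ONE_LD_EE (y : ι → A) (j : Fin a → A) (k : Fin b → A) :
    ONE_LD (ONE_EE y j k) (ONE_G y j k) := by
  unfold ONE_EE ONE_G
  exact ONE_LD_mul (ONE_LD_mul (ONE_LD_prod _ _ _ fun i => ONE_LD_lin (y i))
    (ONE_LD_prod _ _ _ fun s => ONE_LD_inv (j s))) (ONE_LD_prod _ _ _ fun t => ONE_LD_inv (k t))

theorem ONE_G_coeff (y : ι → A) (j : Fin a → A) (k : Fin b → A) (r : ℕ) (hr : r ≠ 0) :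
    PowerSeries.coeff r (ONE_G y j k) =
      - ∑ i, y i ^ r + ∑ s, j s ^ r + ∑ t, k t ^ r := by
  unfold ONE_G ONE_inv
  simp only [map_add, map_sum, map_sub, PowerSeries.coeff_mk, PowerSeries.coeff_one, if_neg hr,
    sub_zero, zero_sub, Finset.sum_neg_distrib]

theorem ONE_G_zero (y : ι → A) (j : Fin a → A) (k : Fin b → A) :
    PowerSeries.coeff 0 (ONE_G y j k) = 0 := by
  unfold ONE_G ONE_inv
  simp

theorem ONE_EE_zero (y : ι → A) (j : Fin a → A) (k : Fin b → A) :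
    PowerSeries.coeff 0 (ONE_EE y j k) = 1 := by
  unfold ONE_EE ONE_lin ONE_inv
  rw [PowerSeries.coeff_zero_eq_constantCoeff_apply, map_mul, map_mul, map_prod, map_prod, map_prod]
  simp

theorem ONE_binom {κ : Type} [Fintype κ] (v : κ → A) (c : A) (r : ℕ) :
    ∑ i, (v i + c) ^ r =
      ∑ m ∈ Finset.range (r + 1), (∑ i, v i ^ m) * (c ^ (r - m) * (r.choose m : A)) := by
  simp only [add_pow]
  rw [Finset.sum_comm]
  refine Finset.sum_congr rfl fun m _ => ?_
  rw [Finset.sum_mul]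
  refine Finset.sum_congr rfl fun i _ => ?_
  ring

theorem ONE_shift [Algebra ℂ A] (hcard : a + b + 1 = Fintype.card ι) (y : ι → A)
    (j : Fin a → A) (k : Fin b → A) (c : A) (h : ONE_EE y j k = 1) :
    ONE_EE (fun i => y i + c) (fun s => j s + c) (fun t => k t + c) = ONE_lin c := by
  have hG : ONE_G y j k = 0 := by
    have h1 := ONE_LD_EE y j k
    unfold ONE_LD at h1
    rw [h, ONE_D_one, one_mul] at h1
    exact h1.symm
  have hP : ∀ m : ℕ, m ≠ 0 → - ∑ i, y i ^ m + ∑ s, j s ^ m + ∑ t, k t ^ m = 0 := by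
    intro m hm
    rw [← ONE_G_coeff y j k m hm, hG, map_zero]
  have hP0 : - ∑ i, y i ^ 0 + ∑ s, j s ^ 0 + ∑ t, k t ^ 0 = -1 := by
    have h2 : ((Fintype.card ι : ℕ) : A) = (a : A) + (b : A) + 1 := by
      rw [← hcard]
      push_cast
      ring
    simp only [pow_zero, Finset.sum_const, Finset.card_univ, Fintype.card_fin, nsmul_eq_mul,
      mul_one, h2]
    ring
  have hG' : ONE_G (fun i => y i + c) (fun s => j s + c) (fun t => k t + c) = 1 - ONE_inv c := by
    ext r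
    by_cases hr : r = 0
    · subst hr
      rw [ONE_G_zero]
      unfold ONE_inv
      simp
    · rw [ONE_G_coeff _ _ _ r hr]
      have h3 : PowerSeries.coeff r (1 - ONE_inv c) = - c ^ r := by
        unfold ONE_inv
        rw [map_sub, PowerSeries.coeff_mk, PowerSeries.coeff_one, if_neg hr, zero_sub]
      rw [h3, ONE_binom y c r, ONE_binom j c r, ONE_binom k c r, ← Finset.sum_neg_distrib,
        ← Finset.sum_add_distrib, ← Finset.sum_add_distrib]
      rw [Finset.sum_eq_single 0]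
      · rw [Nat.sub_zero, Nat.choose_zero_right, Nat.cast_one, mul_one]
        linear_combination c ^ r * hP0
      · intro m _ hm
        linear_combination (c ^ (r - m) * (r.choose m : A)) * hP m hm
      · intro h4
        exact absurd (Finset.mem_range.mpr (Nat.succ_pos r)) h4
  refine ONE_uniq _ _ (1 - ONE_inv c) ?_ (ONE_LD_lin c) ?_ ?_
  · rw [← hG']
    exact ONE_LD_EE _ _ _
  · rw [ONE_EE_zero]
    unfold ONE_lin
    simp
  · unfold ONE_inv
    simp

theorem ONE_pws (y : ι → A) (c : A)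
    (h : ∀ r, 1 ≤ r → PowerSeries.coeff r (ONE_lin c * ∑ i, ONE_inv (y i)) = 0) :
    ∀ r : ℕ, ∑ i, y i ^ r = (Fintype.card ι : A) * c ^ r := by
  intro r
  induction r with
  | zero => simp
  | succ r ih =>
    have h1 := h (r + 1) (Nat.succ_pos r)
    unfold ONE_lin at h1
    rw [sub_mul, one_mul, mul_assoc, map_sub, PowerSeries.coeff_C_mul,
      PowerSeries.coeff_succ_X_mul, map_sum, map_sum] at h1
    unfold ONE_inv at h1
    simp only [PowerSeries.coeff_mk] at h1
    rw [ih] at h1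
    rw [pow_succ' c]
    linear_combination h1

theorem ONE_van (y : ι → A) (c : A)
    (h : ∀ r, 1 ≤ r → PowerSeries.coeff r (ONE_lin c * ∑ i, ONE_inv (y i)) = 0) (k : ℕ)
    (hk : 1 ≤ k) : ∑ i, (y i + (-c)) ^ k = 0 := by
  rw [ONE_binom]
  have h1 : ∀ m ∈ Finset.range (k + 1), (∑ i, y i ^ m) * ((-c) ^ (k - m) * (k.choose m : A)) =
      (Fintype.card ι : A) * (c ^ m * (-c) ^ (k - m) * (k.choose m : A)) := by
    intro m _
    rw [ONE_pws y c h m]
    ring
  rw [Finset.sum_congr rfl h1, ← Finset.mul_sum, ← add_pow, add_neg_cancel,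
    zero_pow (by omega), mul_zero]

end gen

section shift

variable {a b : ℕ} {ι : Type} [Fintype ι] [DecidableEq ι]

/-- the shift `y_i ↦ y_i + t` -/
noncomputable def ONE_sh (ι : Type) (t : ℂ) : S ι →ₐ[ℂ] S ι := aeval (fun i => X i + C t)

theorem ONE_sh_X (t : ℂ) (i : ι) : ONE_sh ι t (X i) = X i + C t := by
  unfold ONE_sh
  rw [aeval_X]

theorem ONE_sh_C (t c : ℂ) : ONE_sh ι t (C c) = C c := by
  unfold ONE_sh
  rw [aeval_C]
  rfl

theorem ONE_sh_sh (t t' : ℂ) (h : t + t' = 0) (p : S ι) : ONE_sh ι t (ONE_sh ι t' p) = p := by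
  have h1 : (ONE_sh ι t).comp (ONE_sh ι t') = AlgHom.id ℂ (S ι) := by
    refine MvPolynomial.algHom_ext fun i => ?_
    rw [AlgHom.comp_apply, ONE_sh_X, map_add, ONE_sh_X, ONE_sh_C, AlgHom.id_apply, add_assoc,
      ← C_add, h, C_0, add_zero]
  exact DFunLike.congr_fun h1 p

theorem ONE_sh_ren (t : ℂ) (w : ι → ι) (p : S ι) :
    ONE_sh ι t (rename w p) = rename w (ONE_sh ι t p) := by
  have h1 : (ONE_sh ι t).comp (rename w) = (rename w).comp (ONE_sh ι t) := by
    refine MvPolynomial.algHom_ext fun i => ?_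
    rw [AlgHom.comp_apply, AlgHom.comp_apply, rename_X, ONE_sh_X, ONE_sh_X, map_add, rename_X,
      rename_C]
  exact DFunLike.congr_fun h1 p

/-- the shift on `T` -/
noncomputable def ONE_ph (t : ℂ) : T a b ι →ₗ[ℂ] T a b ι where
  toFun c := fun x => ONE_sh ι t (c x)
  map_add' c c' := by funext x; simp
  map_smul' s c := by funext x; simp

theorem ONE_ph_apply (t : ℂ) (c : T a b ι) (x : Ix a b ι) : ONE_ph t c x = ONE_sh ι t (c x) := rfl

theorem ONE_ph_smul (t : ℂ) (s : S ι) (c : T a b ι) :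
    ONE_ph t (s • c) = ONE_sh ι t s • ONE_ph t c := by
  funext x
  rw [ONE_ph_apply, Pi.smul_apply, Pi.smul_apply, ONE_ph_apply, smul_eq_mul, smul_eq_mul, map_mul]

theorem ONE_ph_u (t : ℂ) (x : Ix a b ι) : ONE_ph t (u x) = u x := by
  funext y
  rw [ONE_ph_apply]
  unfold u
  by_cases h : y = x
  · subst h
    rw [Pi.single_eq_same, map_one]
  · rw [Pi.single_eq_of_ne h, map_zero]

theorem ONE_ph_ph (t t' : ℂ) (h : t + t' = 0) (c : T a b ι) : ONE_ph t (ONE_ph t' c) = c := by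
  funext x
  rw [ONE_ph_apply, ONE_ph_apply, ONE_sh_sh t t' h]

theorem ONE_ph_act (t : ℂ) (w : Equiv.Perm ι) (c : T a b ι) :
    ONE_ph t (actT w c) = actT w (ONE_ph t c) := by
  funext x
  exact ONE_sh_ren t w _

theorem ONE_span (t : ℂ) (K : Submodule (S ι) (T a b ι)) (G : Set (T a b ι))
    (h : ∀ g ∈ G, ONE_ph t g ∈ K) : ∀ c ∈ Submodule.span (S ι) G, ONE_ph t c ∈ K := by
  intro c hc
  induction hc using Submodule.span_induction with
  | mem g hg => exact h g hg
  | zero => rw [map_zero]; exact K.zero_mem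
  | add c c' _ _ h1 h2 => rw [map_add]; exact K.add_mem h1 h2
  | smul s c _ h1 => rw [ONE_ph_smul]; exact K.smul_mem _ h1

theorem ONE_sup (t : ℂ) (K K1 K2 : Submodule (S ι) (T a b ι))
    (h1 : ∀ c ∈ K1, ONE_ph t c ∈ K) (h2 : ∀ c ∈ K2, ONE_ph t c ∈ K) :
    ∀ c ∈ K1 ⊔ K2, ONE_ph t c ∈ K := by
  intro c hc
  obtain ⟨c1, hc1, c2, hc2, rfl⟩ := Submodule.mem_sup.mp hc
  rw [map_add]
  exact K.add_mem (h1 c1 hc1) (h2 c2 hc2)

/-- the binomial theorem for families of relations -/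
theorem ONE_bin (t : ℂ) (K : Submodule (S ι) (T a b ι)) (v : ι → Ix a b ι) (l : ℕ)
    (h : ∀ m, ∑ i : ι, ((X i : S ι) ^ m) • u (v i) ∈ K) :
    ONE_ph t (∑ i : ι, ((X i : S ι) ^ l) • u (v i)) ∈ K := by
  have h1 : ONE_ph t (∑ i : ι, ((X i : S ι) ^ l) • u (v i)) =
      ∑ m ∈ Finset.range (l + 1), ((C t : S ι) ^ (l - m) * (l.choose m : S ι)) •
        ∑ i : ι, ((X i : S ι) ^ m) • u (v i) := by
    rw [map_sum]
    simp only [ONE_ph_smul, ONE_ph_u, map_pow, ONE_sh_X, add_pow, Finset.sum_smul,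
      Finset.smul_sum, smul_smul]
    rw [Finset.sum_comm]
    refine Finset.sum_congr rfl fun m _ => Finset.sum_congr rfl fun i _ => ?_
    congr 1
    ring
  rw [h1]
  exact K.sum_mem fun m _ => K.smul_mem _ (h m)

theorem ONE_rel (t : ℂ) : ∀ c ∈ Rel a b ι, ONE_ph t c ∈ Rel a b ι := by
  have hPR : RelP a b ι ≤ Rel a b ι := le_sup_left
  have hAP : RelA a b ι ≤ RelP a b ι := le_sup_left
  have hR2 : Submodule.span (S ι) ({c : T a b ι | ∃ s x l, c = rTh s x l} ∪
      {c | ∃ t x l, c = rEt t x l}) ≤ Rel a b ι := le_sup_right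
  have hP2 : Submodule.span (S ι) {c : T a b ι | ∃ s t x l, c = rPh s t x l} ≤ RelP a b ι :=
    le_sup_right
  refine ONE_sup t (Rel a b ι) (RelP a b ι) _ ?_ ?_
  · refine ONE_sup t (Rel a b ι) (RelA a b ι) _ ?_ ?_
    · refine ONE_span t _ _ ?_
      rintro g (⟨τ, x, rfl⟩ | ⟨τ, x, rfl⟩)
      · have h1 : ONE_ph t (rA τ x) = rA τ x := by
          unfold rA
          rw [map_sub, map_smul, ONE_ph_u, ONE_ph_u]
        rw [h1]
        exact hPR (hAP (Submodule.subset_span (Or.inl ⟨τ, x, rfl⟩)))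
      · have h1 : ONE_ph t (rB τ x) = rB τ x := by
          unfold rB
          rw [map_sub, map_smul, ONE_ph_u, ONE_ph_u]
        rw [h1]
        exact hPR (hAP (Submodule.subset_span (Or.inr ⟨τ, x, rfl⟩)))
    · refine ONE_span t _ _ ?_
      rintro g ⟨s, q, x, l, rfl⟩
      exact ONE_bin t _ _ l fun m => hPR (hP2 (Submodule.subset_span ⟨s, q, x, m, rfl⟩))
  · refine ONE_span t _ _ ?_
    rintro g (⟨s, x, l, rfl⟩ | ⟨s, x, l, rfl⟩)
    · exact ONE_bin t _ _ l fun m => hR2 (Submodule.subset_span (Or.inl ⟨s, x, m, rfl⟩))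
    · exact ONE_bin t _ _ l fun m => hR2 (Submodule.subset_span (Or.inr ⟨s, x, m, rfl⟩))

/-- the annihilator of `u x` modulo `K` -/
noncomputable def ONE_an (K : Submodule (S ι) (T a b ι)) (x : Ix a b ι) : Ideal (S ι) :=
  K.comap (LinearMap.toSpanSingleton (S ι) (T a b ι) (u x))

theorem ONE_mem_an (K : Submodule (S ι) (T a b ι)) (x : Ix a b ι) (s : S ι) :
    s ∈ ONE_an K x ↔ s • u x ∈ K := Iff.rfl

theorem ONE_map_EE {A : Type} [CommRing A] (ρ : S ι →+* A) (x : Ix a b ι) :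
    PowerSeries.map ρ (EE x) = ONE_EE (fun i => ρ (X i)) (fun s => ρ (X (x.1 s)))
      (fun q => ρ (X (x.2 q))) := by
  have h1 : ∀ i : ι, PowerSeries.map ρ (lin i) = ONE_lin (ρ (X i)) := by
    intro i
    unfold lin ONE_lin
    rw [map_sub, map_mul, map_one, PowerSeries.map_C, PowerSeries.map_X]
  have h2 : ∀ i : ι, PowerSeries.map ρ (inv i) = ONE_inv (ρ (X i)) := by
    intro i
    unfold inv ONE_inv
    ext q
    rw [PowerSeries.coeff_map, PowerSeries.coeff_mk, PowerSeries.coeff_mk, map_pow]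
  unfold EE ONE_EE
  rw [map_mul, map_mul, map_prod, map_prod, map_prod]
  simp only [h1, h2]

theorem ONE_map_PP {A : Type} [CommRing A] (ρ : S ι →+* A) :
    PowerSeries.map ρ (PP ι) = ∑ i : ι, ONE_inv (ρ (X i)) := by
  unfold PP
  rw [map_sum]
  refine Finset.sum_congr rfl fun i _ => ?_
  unfold inv ONE_inv
  ext q
  rw [PowerSeries.coeff_map, PowerSeries.coeff_mk, PowerSeries.coeff_mk, map_pow]

theorem ONE_map_ZZ {A : Type} [CommRing A] (ρ : S ι →+* A) (z : Fin 1 → ℂ) (r : ℕ) :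
    ρ (C (PowerSeries.coeff r (ZZ z))) = PowerSeries.coeff r (ONE_lin (ρ (C (z 0)))) := by
  have h1 : PowerSeries.map (ρ.comp C) (ZZ z) = ONE_lin (ρ (C (z 0))) := by
    unfold ZZ ONE_lin
    rw [Fin.prod_univ_one, map_sub, map_mul, map_one, PowerSeries.map_C, PowerSeries.map_X]
    rfl
  rw [← h1, PowerSeries.coeff_map]
  rfl

/-- the annihilator in `T / LP`: all coefficients of `EE` but the first one -/
theorem ONE_LP_EE (hPOL : St_POL) (hPZZ : St_PZZ) (hn : a + b + 1 = Fintype.card ι)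
    (x : Ix a b ι) (r : ℕ) (hr : 1 ≤ r) : PowerSeries.coeff r (EE x) ∈ ONE_an (LP a b ι) x := by
  have hRL : Rel a b ι ≤ LP a b ι := le_sup_left
  have hPR : RelP a b ι ≤ Rel a b ι := le_sup_left
  by_cases h1 : r = 1
  · subst h1
    have h2 := hRL (hPZZ ι a b 1 x (by omega))
    have h3 : PowerSeries.coeff 1 (EE x * PP ι) ∈ ONE_an (LP a b ι) x := h2
    have h4 : PowerSeries.coeff 1 (EE x * PP ι) = psum ι ℂ 1 +
        ((Fintype.card ι : ℕ) : S ι) * PowerSeries.coeff 1 (EE x) := by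
      have h5 : PowerSeries.coeff 0 (EE x) = (1 : S ι) := by
        have h6 := ONE_map_EE (RingHom.id (S ι)) x
        have h7 := congrArg (PowerSeries.coeff 0) h6
        rw [ONE_EE_zero, PowerSeries.coeff_map] at h7
        exact h7
      have h8 : ∀ q : ℕ, PowerSeries.coeff q (PP ι) = ∑ i : ι, (X i : S ι) ^ q := by
        intro q
        unfold PP inv
        rw [map_sum]
        refine Finset.sum_congr rfl fun i _ => ?_
        rw [PowerSeries.coeff_mk]
      have h9 : (Finset.HasAntidiagonal.antidiagonal 1 : Finset (ℕ × ℕ)) = {(0, 1), (1, 0)} := rfl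
      rw [PowerSeries.coeff_mul, h9, Finset.sum_pair (by decide), h5, h8, h8, one_mul]
      simp only [pow_zero, Finset.sum_const, Finset.card_univ, nsmul_eq_mul, mul_one]
      unfold psum
      ring
    rw [h4] at h3
    have h9 : psum ι ℂ 1 ∈ ONE_an (LP a b ι) x := by
      have h10 : Submodule.span (S ι) {c : T a b ι | ∃ (k : ℕ) (x : Ix a b ι), 1 ≤ k ∧
          c = psum ι ℂ k • u x} ≤ LP a b ι := le_sup_right
      exact h10 (Submodule.subset_span ⟨1, x, le_refl 1, rfl⟩)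
    have h11 := (Ideal.add_mem_iff_right _ h9).mp h3
    have h12 : ((Fintype.card ι : ℕ) : S ι) = C ((Fintype.card ι : ℕ) : ℂ) := by simp
    have h13 : ((Fintype.card ι : ℕ) : ℂ) ≠ 0 := by
      rw [← hn]
      exact_mod_cast Nat.succ_ne_zero (a + b)
    have h14 : PowerSeries.coeff 1 (EE x) = C (((Fintype.card ι : ℕ) : ℂ)⁻¹) *
        (((Fintype.card ι : ℕ) : S ι) * PowerSeries.coeff 1 (EE x)) := by
      rw [h12, ← mul_assoc, ← C_mul, inv_mul_cancel₀ h13, C_1, one_mul]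
    rw [h14]
    exact Ideal.mul_mem_left _ _ h11
  · exact hRL (hPR (hPOL ι a b r x (by omega)))

theorem ONE_EE_const (x : Ix a b ι) : PowerSeries.coeff 0 (EE x) = (1 : S ι) := by
  have h6 := ONE_map_EE (RingHom.id (S ι)) x
  have h7 := congrArg (PowerSeries.coeff 0) h6
  rw [ONE_EE_zero, PowerSeries.coeff_map] at h7
  exact h7

theorem ONE_id1 (hn : a + b + 1 = Fintype.card ι) (z : Fin 1 → ℂ) (x : Ix a b ι)
    (I : Ideal (S ι)) (hI : ∀ r, 1 ≤ r → PowerSeries.coeff r (EE x) ∈ I) (r : ℕ) :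
    ONE_sh ι (z 0) (PowerSeries.coeff r (EE x)) - C (PowerSeries.coeff r (ZZ z)) ∈ I := by
  rw [← Ideal.Quotient.eq]
  have h1 : ONE_EE (fun i : ι => Ideal.Quotient.mk I (X i))
      (fun s => Ideal.Quotient.mk I (X (x.1 s))) (fun q => Ideal.Quotient.mk I (X (x.2 q))) =
      1 := by
    rw [← ONE_map_EE]
    ext r
    rw [PowerSeries.coeff_map, PowerSeries.coeff_one]
    by_cases hr : r = 0
    · subst hr
      rw [ONE_EE_const, map_one, if_pos rfl]
    · rw [if_neg hr, Ideal.Quotient.eq_zero_iff_mem]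
      exact hI r (by omega)
  have h2 := ONE_shift hn _ _ _ (Ideal.Quotient.mk I (C (z 0))) h1
  have h3 := ONE_map_EE ((Ideal.Quotient.mk I).comp (ONE_sh ι (z 0)).toRingHom) x
  have h4 : ∀ i : ι, ((Ideal.Quotient.mk I).comp (ONE_sh ι (z 0)).toRingHom) (X i) =
      Ideal.Quotient.mk I (X i) + Ideal.Quotient.mk I (C (z 0)) := by
    intro i
    rw [RingHom.comp_apply, ← map_add]
    exact congrArg _ (ONE_sh_X (z 0) i)
  simp only [h4] at h3
  rw [h2] at h3
  have h5 := congrArg (PowerSeries.coeff r) h3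
  rw [PowerSeries.coeff_map] at h5
  rw [ONE_map_ZZ (Ideal.Quotient.mk I) z r, ← h5]
  rfl

theorem ONE_id2 (z : Fin 1 → ℂ) (x : Ix a b ι)
    (I : Ideal (S ι)) (hI : ∀ r, PowerSeries.coeff r (EE x) - C (PowerSeries.coeff r (ZZ z)) ∈ I)
    (hI2 : ∀ r, 1 ≤ r → PowerSeries.coeff r (EE x * PP ι) ∈ I) (k : ℕ) (hk : 1 ≤ k) :
    ONE_sh ι (-z 0) (psum ι ℂ k) ∈ I := by
  rw [← Ideal.Quotient.eq_zero_iff_mem]
  have h1 : PowerSeries.map (Ideal.Quotient.mk I) (EE x) =
      ONE_lin (Ideal.Quotient.mk I (C (z 0))) := by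
    ext r
    rw [PowerSeries.coeff_map, ← ONE_map_ZZ, Ideal.Quotient.eq]
    exact hI r
  have h2 : ∀ r, 1 ≤ r → PowerSeries.coeff r (ONE_lin (Ideal.Quotient.mk I (C (z 0))) *
      ∑ i : ι, ONE_inv (Ideal.Quotient.mk I (X i))) = 0 := by
    intro r hr
    rw [← h1, ← ONE_map_PP, ← map_mul, PowerSeries.coeff_map, Ideal.Quotient.eq_zero_iff_mem]
    exact hI2 r hr
  have h3 := ONE_van (fun i : ι => Ideal.Quotient.mk I (X i)) _ h2 k hk
  rw [← h3]
  unfold psum
  rw [map_sum, map_sum]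
  refine Finset.sum_congr rfl fun i _ => ?_
  rw [map_pow, map_pow, ONE_sh_X, map_add, C_neg, map_neg]

/-- `φ` maps `LZ` into `LP` -/
theorem ONE_fwd (hPOL : St_POL) (hPZZ : St_PZZ) (hn : a + b + 1 = Fintype.card ι)
    (z : Fin 1 → ℂ) : ∀ c ∈ LZ a b ι z, ONE_ph (z 0) c ∈ LP a b ι := by
  have hRL : Rel a b ι ≤ LP a b ι := le_sup_left
  refine ONE_sup (z 0) (LP a b ι) (Rel a b ι) _ (fun c hc => hRL (ONE_rel (z 0) c hc)) ?_
  refine ONE_span (z 0) _ _ ?_
  rintro g ⟨r, x, rfl⟩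
  rw [ONE_ph_smul, ONE_ph_u, map_sub, ONE_sh_C]
  exact ONE_id1 hn z x (ONE_an (LP a b ι) x) (ONE_LP_EE hPOL hPZZ hn x) r

/-- `φ⁻¹` maps `LP` into `LZ` -/
theorem ONE_bwd (hPZZ : St_PZZ) (hn : a + b + 1 = Fintype.card ι)
    (z : Fin 1 → ℂ) : ∀ c ∈ LP a b ι, ONE_ph (-z 0) c ∈ LZ a b ι z := by
  have hRL : Rel a b ι ≤ LZ a b ι z := le_sup_left
  have hRL2 : Submodule.span (S ι) {c : T a b ι | ∃ (r : ℕ) (x : Ix a b ι),
    c = (PowerSeries.coeff r (EE x) - C (PowerSeries.coeff r (ZZ z))) • u x} ≤ LZ a b ι z :=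
    le_sup_right
  refine ONE_sup (-z 0) (LZ a b ι z) (Rel a b ι) _ (fun c hc => hRL (ONE_rel (-z 0) c hc)) ?_
  refine ONE_span (-z 0) _ _ ?_
  rintro g ⟨k, x, hk, rfl⟩
  rw [ONE_ph_smul, ONE_ph_u]
  exact ONE_id2 z x (ONE_an (LZ a b ι z) x)
    (fun r => hRL2 (Submodule.subset_span ⟨r, x, rfl⟩))
    (fun r hr => hRL (hPZZ ι a b r x (by omega))) k hk

theorem ONE_iff (hPOL : St_POL) (hPZZ : St_PZZ) (hn : a + b + 1 = Fintype.card ι)
    (z : Fin 1 → ℂ) (c : T a b ι) : ONE_ph (z 0) c ∈ LP a b ι ↔ c ∈ LZ a b ι z := by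
  constructor
  · intro h
    have h1 := ONE_bwd hPZZ hn z _ h
    rwa [ONE_ph_ph _ _ (neg_add_cancel (z 0))] at h1
  · exact ONE_fwd hPOL hPZZ hn z c

/-- `φ` as an equivalence -/
noncomputable def ONE_eq (t : ℂ) : T a b ι ≃ₗ[ℂ] T a b ι :=
  LinearEquiv.ofLinearMap (ONE_ph t) (ONE_ph (-t))
    (LinearMap.ext fun c => ONE_ph_ph _ _ (add_neg_cancel t) c)
    (LinearMap.ext fun c => ONE_ph_ph _ _ (neg_add_cancel t) c)

/-- homogeneous elements of large degree are in `LP` -/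
theorem ONE_deg (L : Submodule ℂ (T a b ι)) (hL : IsHomog L) [Module.Finite ℂ (T a b ι ⧸ L)] :
    ∃ N : ℕ, ∀ d, N ≤ d → ∀ c : T a b ι, (∀ x, (c x).IsHomogeneous d) → c ∈ L := by
  have hmono : Monotone (fun i => (Fd a b ι i).map L.mkQ) := by
    intro i i' h
    exact Submodule.map_mono fun c hc x => (hc x).trans h
  have hsup : iSup (OrderHom.mk _ hmono : ℕ →o Submodule ℂ (T a b ι ⧸ L)) = ⊤ := by
    rw [eq_top_iff]
    rintro v -
    obtain ⟨c, rfl⟩ := Submodule.mkQ_surjective L v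
    have h1 : c ∈ Fd a b ι (Finset.univ.sup fun x => (c x).totalDegree) := fun x =>
      Finset.le_sup (f := fun x => (c x).totalDegree) (Finset.mem_univ x)
    exact Submodule.mem_iSup_of_mem _ (Submodule.mem_map_of_mem h1)
  obtain ⟨N, hN⟩ := (Module.Finite.fg_top (R := ℂ) (M := T a b ι ⧸ L)).stabilizes_of_iSup_eq
    _ hsup
  refine ⟨N + 1, fun d hd c hcd => ?_⟩
  have h2 : L.mkQ c ∈ (⊤ : Submodule ℂ (T a b ι ⧸ L)) := trivial
  rw [hN] at h2
  obtain ⟨f, hf, hfc⟩ := h2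
  have h3 : c - f ∈ L := by
    rw [← L.ker_mkQ, LinearMap.mem_ker, map_sub, hfc, sub_self]
  have h4 := hL _ h3 d
  have h5 : hc d (c - f) = c := by
    funext x
    change homogeneousComponent d (c x - f x) = c x
    rw [map_sub, homogeneousComponent_of_mem (hcd x), if_pos rfl,
      homogeneousComponent_eq_zero _ _ (lt_of_le_of_lt (hf x) hd), sub_zero]
  rwa [h5] at h4

/-- decomposition into homogeneous components -/
theorem ONE_dec (c : T a b ι) : ∃ N : ℕ, c = ∑ i ∈ Finset.range N, hc i c := by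
  refine ⟨(Finset.univ.sup fun x => (c x).totalDegree) + 1, ?_⟩
  funext x
  rw [Finset.sum_apply]
  change c x = ∑ i ∈ Finset.range ((Finset.univ.sup fun x => (c x).totalDegree) + 1),
    homogeneousComponent i (c x)
  have h1 : (c x).totalDegree ≤ Finset.univ.sup fun x => (c x).totalDegree :=
    Finset.le_sup (f := fun x => (c x).totalDegree) (Finset.mem_univ x)
  rw [← Finset.sum_subset (Finset.range_mono (Nat.succ_le_succ h1)),
    sum_homogeneousComponent]
  intro i _ hi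
  exact homogeneousComponent_eq_zero _ _ (by simpa using hi)

theorem ONE_nil (L : Submodule (S ι) (T a b ι)) (hL : IsHomog (L.restrictScalars ℂ))
    [Module.Finite ℂ (T a b ι ⧸ L.restrictScalars ℂ)] :
    ∃ N : ℕ, ∀ (i : ι) (c : T a b ι), (X i : S ι) ^ N • c ∈ L := by
  obtain ⟨N, hN⟩ := ONE_deg (L.restrictScalars ℂ) hL
  refine ⟨N, fun i c => ?_⟩
  obtain ⟨M, hM⟩ := ONE_dec c
  rw [hM, Finset.smul_sum]
  refine L.sum_mem fun d _ => ?_
  refine hN (N + d) (Nat.le_add_right _ _) _ fun x => ?_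
  exact (isHomogeneous_X_pow i N).mul (homogeneousComponent_isHomogeneous d (c x))

end shift

theorem thm_ONE (hPOL : St_POL) (hPZZ : St_PZZ) (hACT : St_ACT) (hUPG : St_UPG) : St_ONE := by
  intro ι _ _ a b hn z
  obtain ⟨hfin, -⟩ := (hUPG ι a b 1 hn).2
  obtain ⟨-, -, hst, hhom, hst2, -⟩ := hACT.2 ι a b
  have hmap : ((LZ a b ι z).restrictScalars ℂ).map
      ((ONE_eq (z 0) : T a b ι ≃ₗ[ℂ] T a b ι) : T a b ι →ₗ[ℂ] T a b ι) =
      (LP a b ι).restrictScalars ℂ := by
    ext c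
    constructor
    · rintro ⟨d, hd, rfl⟩
      exact ONE_fwd hPOL hPZZ hn z d hd
    · intro hc
      exact ⟨ONE_ph (-z 0) c, ONE_bwd hPZZ hn z c hc, ONE_ph_ph _ _ (add_neg_cancel (z 0)) c⟩
  refine ⟨?_, ?_, ?_⟩
  · exact (Submodule.Quotient.equiv _ _ (ONE_eq (z 0)) hmap).finrank_eq
  · intro w
    have hP : (LP a b ι).restrictScalars ℂ ≤ ((LP a b ι).restrictScalars ℂ).comap (actT w) :=
      fun c hc => hst w c hc
    have hZ : (LZ a b ι z).restrictScalars ℂ ≤ ((LZ a b ι z).restrictScalars ℂ).comap (actT w) :=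
      fun c hc => hst2 1 z w c hc
    unfold qtr
    rw [dif_pos hP, dif_pos hZ]
    rw [← LinearMap.trace_conj' _ (Submodule.Quotient.equiv _ _ (ONE_eq (z 0)) hmap)]
    have hc : (Submodule.Quotient.equiv _ _ (ONE_eq (z 0)) hmap).conj
        (((LZ a b ι z).restrictScalars ℂ).mapQ ((LZ a b ι z).restrictScalars ℂ) (actT w) hZ) =
        ((LP a b ι).restrictScalars ℂ).mapQ ((LP a b ι).restrictScalars ℂ) (actT w) hP := by
      refine LinearMap.ext fun v => ?_
      obtain ⟨c, rfl⟩ := Submodule.mkQ_surjective _ v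
      rw [LinearEquiv.conj_apply_apply]
      have h1 : (Submodule.Quotient.equiv _ _ (ONE_eq (z 0)) hmap).symm
          (((LP a b ι).restrictScalars ℂ).mkQ c) =
          ((LZ a b ι z).restrictScalars ℂ).mkQ (ONE_ph (-z 0) c) := rfl
      rw [h1]
      change ((LP a b ι).restrictScalars ℂ).mkQ (ONE_ph (z 0) (actT w (ONE_ph (-z 0) c))) =
        ((LP a b ι).restrictScalars ℂ).mkQ (actT w c)
      rw [ONE_ph_act, ONE_ph_ph _ _ (add_neg_cancel (z 0))]
    rw [hc]
  · intro i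
    obtain ⟨N, hN⟩ := ONE_nil (LP a b ι) hhom
    refine ⟨N, fun c => ?_⟩
    have h1 := ONE_bwd hPZZ hn z _ (hN i (ONE_ph (z 0) c))
    rw [ONE_ph_smul, ONE_ph_ph _ _ (neg_add_cancel (z 0)), map_pow, ONE_sh_X, C_neg] at h1
    rw [Fin.prod_univ_one, sub_eq_add_neg]
    exact h1

end MDC
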