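import Pool.Agent.MDC.StE

/-!
MDC, module ORT: `Har2` is the annihilator of `LP` (port of `MDH/ORT.lean` of helper34).
-/

set_option autoImplicit false

open MvPolynomial

namespace MDC

/-- apolar pairing on `S` -/
private noncomputable def ortP {n : ℕ} (p q : S (Fin n)) : ℂ :=
  ∑ A ∈ p.support, MDH.fac A * coeff A p * coeff A q

private theorem ortP_eq_sum {n : ℕ} (p q : S (Fin n)) (s : Finset (Fin n →₀ ℕ)) (h : p.support ⊆ s) :
    ortP p q = ∑ A ∈ s, MDH.fac A * coeff A p * coeff A q := by
  unfold ortP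
  refine Finset.sum_subset h fun A _ hA => ?_
  rw [notMem_support_iff.1 hA, mul_zero, zero_mul]

private theorem ortP_add_left {n : ℕ} (p p' q : S (Fin n)) :
    ortP (p + p') q = ortP p q + ortP p' q := by
  classical
  have h1 : (p + p').support ⊆ p.support ∪ p'.support := support_add
  rw [ortP_eq_sum (p + p') q _ h1, ortP_eq_sum p q _ Finset.subset_union_left,
    ortP_eq_sum p' q _ Finset.subset_union_right, ← Finset.sum_add_distrib]
  refine Finset.sum_congr rfl fun A _ => ?_
  rw [coeff_add]
  ring

private theorem ortP_smul_left {n : ℕ} (t : ℂ) (p q : S (Fin n)) : ortP (t • p) q = t * ortP p q := by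
  rw [ortP_eq_sum (t • p) q _ support_smul, ortP, Finset.mul_sum]
  refine Finset.sum_congr rfl fun A _ => ?_
  rw [coeff_smul, smul_eq_mul]
  ring

private theorem ortP_zero_left {n : ℕ} (q : S (Fin n)) : ortP (0 : S (Fin n)) q = 0 := by simp [ortP]

private theorem ortP_add_right {n : ℕ} (p q q' : S (Fin n)) :
    ortP p (q + q') = ortP p q + ortP p q' := by
  unfold ortP
  rw [← Finset.sum_add_distrib]
  refine Finset.sum_congr rfl fun A _ => ?_
  rw [coeff_add]
  ring

private theorem ortP_smul_right {n : ℕ} (t : ℂ) (p q : S (Fin n)) : ortP p (t • q) = t * ortP p q := by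
  unfold ortP
  rw [Finset.mul_sum]
  refine Finset.sum_congr rfl fun A _ => ?_
  rw [coeff_smul, smul_eq_mul]
  ring

private theorem ortP_zero_right {n : ℕ} (p : S (Fin n)) : ortP p (0 : S (Fin n)) = 0 := by simp [ortP]

private theorem ortP_sum_right {n : ℕ} {ι : Type} (s : Finset ι) (p : S (Fin n)) (f : ι → S (Fin n)) :
    ortP p (∑ i ∈ s, f i) = ∑ i ∈ s, ortP p (f i) := by
  classical
  induction s using Finset.induction_on with
  | empty => simp [ortP_zero_right]
  | insert a s ha ih => rw [Finset.sum_insert ha, Finset.sum_insert ha, ortP_add_right, ih]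

private theorem ortP_sum_left {n : ℕ} {ι : Type} (s : Finset ι) (f : ι → S (Fin n)) (q : S (Fin n)) :
    ortP (∑ i ∈ s, f i) q = ∑ i ∈ s, ortP (f i) q := by
  classical
  induction s using Finset.induction_on with
  | empty => simp [ortP_zero_left]
  | insert a s ha ih => rw [Finset.sum_insert ha, Finset.sum_insert ha, ortP_add_left, ih]

private theorem ortP_monomial {n : ℕ} (A : Fin n →₀ ℕ) (a : ℂ) (q : S (Fin n)) :
    ortP (monomial A a) q = MDH.fac A * a * coeff A q := by
  rw [ortP_eq_sum (monomial A a) q {A} support_monomial_subset, Finset.sum_singleton,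
    coeff_monomial, if_pos rfl]

private theorem fac_ne_zero {n : ℕ} (A : Fin n →₀ ℕ) : MDH.fac A ≠ 0 := by
  unfold MDH.fac
  exact Finset.prod_ne_zero_iff.2 fun i _ => by exact_mod_cast Nat.factorial_ne_zero _

private theorem ortP_nondeg {n : ℕ} (q : S (Fin n)) (h : ∀ s : S (Fin n), ortP s q = 0) : q = 0 := by
  ext A
  have h1 := h (monomial A 1)
  rw [ortP_monomial, mul_one] at h1
  rw [coeff_zero]
  exact (mul_eq_zero.1 h1).resolve_left (fac_ne_zero A)

private theorem coeff_dmon {n : ℕ} (A B : Fin n →₀ ℕ) (q : S (Fin n)) :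
    coeff B (MDH.dmon A q) =
      (∏ i ∈ A.support, (((A + B) i).descFactorial (A i) : ℂ)) * coeff (A + B) q := by
  classical
  induction q using MvPolynomial.induction_on' with
  | monomial C c =>
    have h1 : MDH.dmon A (monomial C c : S (Fin n)) =
        c • monomial (C - A) (∏ i ∈ A.support, ((C i).descFactorial (A i) : ℂ)) := by
      have h2 : (monomial C c : S (Fin n)) = c • (basisMonomials (Fin n) ℂ) C := by
        rw [coe_basisMonomials, smul_monomial, smul_eq_mul, mul_one]
      rw [h2, map_smul]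
      unfold MDH.dmon
      rw [Module.Basis.constr_basis]
    rw [h1, coeff_smul, coeff_monomial, coeff_monomial, smul_eq_mul]
    by_cases hC : C = A + B
    · subst hC
      rw [if_pos (by rw [add_tsub_cancel_left]), if_pos rfl, mul_comm]
    · rw [if_neg hC, mul_zero]
      split_ifs with h3
      · have h4 : ¬ A ≤ C := by
          intro h5
          apply hC
          rw [← h3, add_tsub_cancel_of_le h5]
        rw [Finsupp.le_def] at h4
        push Not at h4
        obtain ⟨i, hi⟩ := h4
        have h6 : i ∈ A.support := by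
          rw [Finsupp.mem_support_iff]
          omega
        rw [Finset.prod_eq_zero h6, mul_zero]
        rw [Nat.descFactorial_eq_zero_iff_lt.2 hi]
        simp
      · rw [mul_zero]
  | add p q hp hq =>
    rw [map_add, coeff_add, hp, hq, coeff_add, mul_add]

private theorem fac_add {n : ℕ} (A B : Fin n →₀ ℕ) :
    MDH.fac (A + B) = MDH.fac B * ∏ i ∈ A.support, (((A + B) i).descFactorial (A i) : ℂ) := by
  have h1 : ∏ i ∈ A.support, (((A + B) i).descFactorial (A i) : ℂ) =
      ∏ i, (((A + B) i).descFactorial (A i) : ℂ) := by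
    refine Finset.prod_subset (Finset.subset_univ _) fun i _ hi => ?_
    rw [Finsupp.notMem_support_iff.1 hi, Nat.descFactorial_zero, Nat.cast_one]
  rw [h1]
  unfold MDH.fac
  rw [← Finset.prod_mul_distrib]
  refine Finset.prod_congr rfl fun i _ => ?_
  rw [← Nat.cast_mul, Finsupp.add_apply]
  congr 1
  have := Nat.factorial_mul_descFactorial (n := A i + B i) (k := A i) (Nat.le_add_right _ _)
  rw [Nat.add_sub_cancel_left] at this
  exact this.symm

private theorem ortP_adj {n : ℕ} (i : Fin n) (k : ℕ) (p q : S (Fin n)) :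
    ortP ((X i : S (Fin n)) ^ k * p) q = ortP p (MDH.dmon (Finsupp.single i k) q) := by
  induction p using MvPolynomial.induction_on' with
  | monomial B b =>
    rw [X_pow_eq_monomial, monomial_mul, one_mul, ortP_monomial, ortP_monomial, coeff_dmon, fac_add]
    ring
  | add p p' hp hp' => rw [mul_add, ortP_add_left, ortP_add_left, hp, hp']

private theorem pr2_eq {a b n : ℕ} (c c' : T a b (Fin n)) :
    pr2 c c' = ∑ x, ortP (c x) (c' x) := rfl

private theorem pr2_add_left {a b n : ℕ} (c₁ c₂ c' : T a b (Fin n)) :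
    pr2 (c₁ + c₂) c' = pr2 c₁ c' + pr2 c₂ c' := by
  rw [pr2_eq, pr2_eq, pr2_eq, ← Finset.sum_add_distrib]
  exact Finset.sum_congr rfl fun x _ => ortP_add_left _ _ _

private theorem pr2_zero_left {a b n : ℕ} (c' : T a b (Fin n)) :
    pr2 (0 : T a b (Fin n)) c' = 0 := by
  rw [pr2_eq]
  exact Finset.sum_eq_zero fun x _ => ortP_zero_left _

private theorem pr2_u {a b n : ℕ} (s : S (Fin n)) (x : Ix a b (Fin n)) (c : T a b (Fin n)) :
    pr2 (s • u x) c = ortP s (c x) := by
  classical
  rw [pr2_eq, Finset.sum_eq_single x]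
  · congr 1
    rw [Pi.smul_apply, u, Pi.single_eq_same, smul_eq_mul, mul_one]
  · intro y _ hy
    have h1 : (s • (u x : T a b (Fin n))) y = 0 := by
      rw [Pi.smul_apply, u, Pi.single_eq_of_ne hy, smul_zero]
    rw [h1, ortP_zero_left]
  · intro h
    exact absurd (Finset.mem_univ x) h

private theorem pr2_sum_left {a b n : ℕ} {ι : Type} (s : Finset ι) (f : ι → T a b (Fin n))
    (c' : T a b (Fin n)) : pr2 (∑ i ∈ s, f i) c' = ∑ i ∈ s, pr2 (f i) c' := by
  classical
  induction s using Finset.induction_on with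
  | empty => simp [pr2_zero_left]
  | insert a s ha ih => rw [Finset.sum_insert ha, Finset.sum_insert ha, pr2_add_left, ih]

/-- the three families of sums -/
private theorem pr2_gen {a b n : ℕ} (s : S (Fin n)) (y : Fin n → Ix a b (Fin n)) (k : ℕ)
    (c : T a b (Fin n)) :
    pr2 (s • ∑ i : Fin n, ((X i : S (Fin n)) ^ k) • (u (y i) : T a b (Fin n))) c =
      ortP s (∑ i : Fin n, MDH.dmon (Finsupp.single i k) (c (y i))) := by
  rw [Finset.smul_sum, pr2_sum_left, ortP_sum_right]
  refine Finset.sum_congr rfl fun i _ => ?_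
  rw [smul_smul, pr2_u, mul_comm, ortP_adj]

/-- the two families of anticommutation relations -/
private theorem pr2_dif {a b n : ℕ} (s : S (Fin n)) (t : ℂ) (x y : Ix a b (Fin n))
    (c : T a b (Fin n)) :
    pr2 (s • ((u y : T a b (Fin n)) - t • u x)) c = ortP s (c y - t • c x) := by
  have h1 : s • ((u y : T a b (Fin n)) - t • u x) = s • (u y : T a b (Fin n)) +
      ((-t) • s) • (u x : T a b (Fin n)) := by
    rw [smul_sub, smul_assoc, smul_comm s, neg_smul, sub_eq_add_neg]
  rw [h1, pr2_add_left, pr2_u, pr2_u, ortP_smul_left, sub_eq_add_neg, ortP_add_right, ← neg_smul,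
    ortP_smul_right]

private theorem pr2_psum {a b n : ℕ} (k : ℕ) (s : S (Fin n)) (x : Ix a b (Fin n))
    (c : T a b (Fin n)) :
    pr2 (s • ((psum (Fin n) ℂ k : S (Fin n)) • (u x : T a b (Fin n)))) c =
      ortP s (∑ i : Fin n, MDH.dmon (Finsupp.single i k) (c x)) := by
  rw [smul_smul, pr2_u, psum, Finset.mul_sum, ortP_sum_left, ortP_sum_right]
  refine Finset.sum_congr rfl fun i _ => ?_
  rw [mul_comm, ortP_adj]

theorem thm_ORT : St_ORT := by
  intro n a b c
  constructor
  · rintro ⟨h1, h2, h3, h4, h5, h6⟩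
    -- the submodule of the `l` with `pr2 (s • l) c = 0` for all `s`
    let N : Submodule (S (Fin n)) (T a b (Fin n)) :=
      { carrier := {l | ∀ s : S (Fin n), pr2 (s • l) c = 0}
        add_mem' := fun {x y} hx hy s => by rw [smul_add, pr2_add_left, hx s, hy s, add_zero]
        zero_mem' := fun s => by rw [smul_zero, pr2_zero_left]
        smul_mem' := fun t x hx s => by rw [smul_smul]; exact hx (s * t) }
    have hN : LP a b (Fin n) ≤ N := by
      unfold LP Rel RelP RelA
      refine sup_le (sup_le (sup_le ?_ ?_) ?_) ?_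
      · rw [Submodule.span_le]
        rintro x (⟨τ, y, rfl⟩ | ⟨τ, y, rfl⟩)
        · intro s
          unfold rA
          rw [pr2_dif, h1 τ y, sub_self, ortP_zero_right]
        · intro s
          unfold rB
          rw [pr2_dif, h2 τ y, sub_self, ortP_zero_right]
      · rw [Submodule.span_le]
        rintro x ⟨s0, t0, y, k, rfl⟩ s
        unfold rPh
        rw [pr2_gen, h5 s0 t0 y k, ortP_zero_right]
      · rw [Submodule.span_le]
        rintro x (⟨s0, y, k, rfl⟩ | ⟨t0, y, k, rfl⟩)
        · intro s
          unfold rTh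
          rw [pr2_gen, h3 s0 y k, ortP_zero_right]
        · intro s
          unfold rEt
          rw [pr2_gen, h4 t0 y k, ortP_zero_right]
      · rw [Submodule.span_le]
        rintro x ⟨k, y, hk, rfl⟩ s
        rw [pr2_psum, h6 y k hk, ortP_zero_right]
    intro l hl
    have := hN hl 1
    rwa [one_smul] at this
  · intro h
    have hL : ∀ x ∈ LP a b (Fin n), ∀ s : S (Fin n), pr2 (s • x) c = 0 := fun x hx s =>
      h _ (Submodule.smul_mem _ s hx)
    have hR : Rel a b (Fin n) ≤ LP a b (Fin n) := le_sup_left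
    have hRP : RelP a b (Fin n) ≤ Rel a b (Fin n) := le_sup_left
    have hRA : RelA a b (Fin n) ≤ RelP a b (Fin n) := le_sup_left
    refine ⟨fun τ x => ?_, fun τ x => ?_, fun s x k => ?_, fun t x k => ?_, fun s t x k => ?_,
      fun x k hk => ?_⟩
    · rw [← sub_eq_zero]
      apply ortP_nondeg
      intro s
      rw [← pr2_dif]
      exact hL _ (hR (hRP (hRA (Submodule.subset_span (Or.inl ⟨τ, x, rfl⟩))))) s
    · rw [← sub_eq_zero]
      apply ortP_nondeg
      intro s
      rw [← pr2_dif]
      exact hL _ (hR (hRP (hRA (Submodule.subset_span (Or.inr ⟨τ, x, rfl⟩))))) s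
    · apply ortP_nondeg
      intro s'
      rw [← pr2_gen]
      exact hL _ (hR (Submodule.mem_sup_right (Submodule.subset_span (Or.inl ⟨s, x, k, rfl⟩)))) s'
    · apply ortP_nondeg
      intro s'
      rw [← pr2_gen]
      exact hL _ (hR (Submodule.mem_sup_right (Submodule.subset_span (Or.inr ⟨t, x, k, rfl⟩)))) s'
    · apply ortP_nondeg
      intro s'
      rw [← pr2_gen]
      exact hL _ (hR (hRP (Submodule.mem_sup_right (Submodule.subset_span ⟨s, t, x, k, rfl⟩)))) s'
    · apply ortP_nondeg
      intro s'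
      rw [← pr2_psum]
      exact hL _ (Submodule.mem_sup_right (Submodule.subset_span ⟨k, x, hk, rfl⟩)) s'

end MDC
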