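import Pool.Agent.MDC.StA

/-!
# MDC [POL]: the coefficients of `EE` of large index kill the basis vectors (helper35)
-/

set_option autoImplicit false

open MvPolynomial

namespace MDC

section

variable {a b : ℕ} {ι : Type} [Fintype ι] [DecidableEq ι]

private theorem POL_half (L : Submodule (S ι) (T a b ι)) (c : T a b ι) (h : c + c ∈ L) :
    c ∈ L := by
  have h1 : (C (1 / 2 : ℂ) : S ι) • (c + c) ∈ L := L.smul_mem _ h
  have h2 : (C (1 / 2 : ℂ) : S ι) • (c + c) = c := by
    rw [← two_smul (S ι) c, smul_smul]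
    have h3 : (C (1 / 2 : ℂ) : S ι) * 2 = 1 := by
      rw [show (2 : S ι) = C (2 : ℂ) from (map_ofNat C 2).symm, ← C_mul]
      norm_num
    rw [h3, one_smul]
  rwa [h2] at h1

private theorem POL_inj1 (x : Ix a b ι) (h : ¬ Function.Injective x.1) : u x ∈ RelA a b ι := by
  unfold Function.Injective at h
  push Not at h
  obtain ⟨s, s', hs, hne⟩ := h
  apply POL_half
  have h1 : rA (Equiv.swap s s') x ∈ RelA a b ι :=
    Submodule.subset_span (Or.inl ⟨_, _, rfl⟩)
  have h2 : rA (Equiv.swap s s') x = u x + u x := by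
    unfold rA
    have h3 : x.1 ∘ (Equiv.swap s s') = x.1 := by
      funext p
      show x.1 (Equiv.swap s s' p) = x.1 p
      rcases eq_or_ne p s with rfl | hp
      · rw [Equiv.swap_apply_left, hs]
      · rcases eq_or_ne p s' with rfl | hp'
        · rw [Equiv.swap_apply_right, hs]
        · rw [Equiv.swap_apply_of_ne_of_ne hp hp']
    rw [h3, Equiv.Perm.sign_swap hne]
    simp
  rwa [h2] at h1

private theorem POL_inj2 (x : Ix a b ι) (h : ¬ Function.Injective x.2) : u x ∈ RelA a b ι := by
  unfold Function.Injective at h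
  push Not at h
  obtain ⟨s, s', hs, hne⟩ := h
  apply POL_half
  have h1 : rB (Equiv.swap s s') x ∈ RelA a b ι :=
    Submodule.subset_span (Or.inr ⟨_, _, rfl⟩)
  have h2 : rB (Equiv.swap s s') x = u x + u x := by
    unfold rB
    have h3 : x.2 ∘ (Equiv.swap s s') = x.2 := by
      funext p
      show x.2 (Equiv.swap s s' p) = x.2 p
      rcases eq_or_ne p s with rfl | hp
      · rw [Equiv.swap_apply_left, hs]
      · rcases eq_or_ne p s' with rfl | hp'
        · rw [Equiv.swap_apply_right, hs]
        · rw [Equiv.swap_apply_of_ne_of_ne hp hp']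
    rw [h3, Equiv.Perm.sign_swap hne]
    simp
  rwa [h2] at h1

omit [Fintype ι] [DecidableEq ι] in
private theorem POL_lin_inv (i : ι) : (lin i : PowerSeries (S ι)) * inv i = 1 := by
  unfold lin inv
  rw [sub_mul, one_mul, mul_assoc]
  ext n
  rw [map_sub, PowerSeries.coeff_C_mul, PowerSeries.coeff_mk, PowerSeries.coeff_one]
  rcases n with _ | n
  · simp
  · rw [PowerSeries.coeff_succ_X_mul, PowerSeries.coeff_mk, pow_succ']
    simp

/-- permuting the enumeration -/
private theorem POL_ext_comp {n r : ℕ} (s : Fin r ↪ Fin n) (σ : Equiv.Perm (Fin r))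
    (i : Fin r → ι) (y : Fin n → ι) :
    Function.extend s (i ∘ σ) y = Function.extend s i y ∘ (σ.viaFintypeEmbedding s) := by
  funext p
  show Function.extend s (i ∘ σ) y p = Function.extend s i y (σ.viaFintypeEmbedding s p)
  by_cases h : ∃ q, s q = p
  · obtain ⟨q, rfl⟩ := h
    rw [Equiv.Perm.viaFintypeEmbedding_apply_image, s.injective.extend_apply,
      s.injective.extend_apply]
    rfl
  · rw [Equiv.Perm.viaFintypeEmbedding_apply_notMem_range, Function.extend_apply' _ _ _ h,
      Function.extend_apply' _ _ _ h]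
    rintro ⟨q, hq⟩
    exact h ⟨q, hq⟩

private theorem POL_ext_upd {n r : ℕ} (s : Fin r ↪ Fin n) (i : Fin r → ι) (y : Fin n → ι)
    (p : Fin r) (x : ι) :
    Function.extend s (Function.update i p x) y =
      Function.update (Function.extend s i y) (s p) x := by
  funext m
  by_cases h : ∃ q, s q = m
  · obtain ⟨q, rfl⟩ := h
    rw [s.injective.extend_apply]
    rcases eq_or_ne q p with rfl | hq
    · rw [Function.update_self, Function.update_self]
    · rw [Function.update_of_ne hq, Function.update_of_ne (fun h => hq (s.injective h)),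
        s.injective.extend_apply]
  · rw [Function.extend_apply' _ _ _ h, Function.update_of_ne, Function.extend_apply' _ _ _ h]
    rintro rfl
    exact h ⟨p, rfl⟩

private theorem POL_perm1 (x1 : Fin a → ι) (x2 : Fin b → ι) (τ : Equiv.Perm (Fin a)) :
    (RelP a b ι).mkQ (u (x1 ∘ τ, x2)) =
      (((Equiv.Perm.sign τ : ℤ) : ℂ)) • (RelP a b ι).mkQ (u (x1, x2)) := by
  have h1 : rA τ (x1, x2) ∈ RelP a b ι :=
    (le_sup_left : RelA a b ι ≤ RelP a b ι) (Submodule.subset_span (Or.inl ⟨_, _, rfl⟩))
  have h2 := (Submodule.Quotient.mk_eq_zero _).mpr h1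
  unfold rA at h2
  rw [Submodule.Quotient.mk_sub, sub_eq_zero] at h2
  exact h2

private theorem POL_perm2 (x1 : Fin a → ι) (x2 : Fin b → ι) (τ : Equiv.Perm (Fin b)) :
    (RelP a b ι).mkQ (u (x1, x2 ∘ τ)) =
      (((Equiv.Perm.sign τ : ℤ) : ℂ)) • (RelP a b ι).mkQ (u (x1, x2)) := by
  have h1 : rB τ (x1, x2) ∈ RelP a b ι :=
    (le_sup_left : RelA a b ι ≤ RelP a b ι) (Submodule.subset_span (Or.inr ⟨_, _, rfl⟩))
  have h2 := (Submodule.Quotient.mk_eq_zero _).mpr h1
  unfold rB at h2
  rw [Submodule.Quotient.mk_sub, sub_eq_zero] at h2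
  exact h2

private theorem POL_sign {n : ℕ} (τ : Equiv.Perm (Fin n)) (M : Type) [AddCommGroup M] [Module ℂ M]
    (m : M) : (((Equiv.Perm.sign τ : ℤ) : ℂ)) • (((Equiv.Perm.sign τ : ℤ) : ℂ)) • m = m := by
  rcases Int.units_eq_one_or (Equiv.Perm.sign τ) with h | h
  · rw [h]; simp
  · rw [h]; simp

/-- the case of injective tuples -/
private theorem POL_main (hS : St_SYM) (r : ℕ) (x1 : Fin a → ι) (x2 : Fin b → ι)
    (hx1 : Function.Injective x1) (hx2 : Function.Injective x2)
    (hr : Fintype.card ι < r + a + b) :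
    PowerSeries.coeff r (EE ((x1, x2) : Ix a b ι)) • u (x1, x2) ∈ RelP a b ι := by
  classical
  set A : Finset ι := Finset.univ.image x1 with hA
  set B : Finset ι := Finset.univ.image x2 with hB
  have hAc : A.card = a := by rw [hA, Finset.card_image_of_injective _ hx1]; simp
  have hBc : B.card = b := by rw [hB, Finset.card_image_of_injective _ hx2]; simp
  set D : Finset ι := A ∩ B with hD
  set ρ : ℕ := D.card with hρ
  let e : Fin ρ ≃ D := D.equivFin.symm
  let l : Fin ρ → ι := fun q => (e q : ι)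
  have hl : Function.Injective l := Subtype.val_injective.comp e.injective
  have hlD : ∀ q, l q ∈ D := fun q => (e q).2
  have hDl : ∀ i ∈ D, ∃ q, l q = i := by
    intro i hi
    exact ⟨e.symm ⟨i, hi⟩, by show ((e (e.symm ⟨i, hi⟩) : D) : ι) = i; rw [e.apply_symm_apply]⟩
  have hs : ∀ q, ∃ s, x1 s = l q := by
    intro q
    have h := (Finset.mem_inter.mp (hlD q)).1
    obtain ⟨s, -, hs⟩ := Finset.mem_image.mp h
    exact ⟨s, hs⟩
  have ht : ∀ q, ∃ t, x2 t = l q := by
    intro q
    have h := (Finset.mem_inter.mp (hlD q)).2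
    obtain ⟨s, -, hs⟩ := Finset.mem_image.mp h
    exact ⟨s, hs⟩
  choose s₀ hs₀ using hs
  choose t₀ ht₀ using ht
  have hsi : Function.Injective s₀ := by
    intro q q' h
    apply hl
    rw [← hs₀, ← hs₀, h]
  have hti : Function.Injective t₀ := by
    intro q q' h
    apply hl
    rw [← ht₀, ← ht₀, h]
  let s : Fin ρ ↪ Fin a := ⟨s₀, hsi⟩
  let t : Fin ρ ↪ Fin b := ⟨t₀, hti⟩
  have hs1 : ∀ q, x1 (s q) = l q := hs₀
  have ht1 : ∀ q, x2 (t q) = l q := ht₀
  set Z : Finset ι := (A ∪ B) \ D with hZ
  have hDs : D ⊆ A ∪ B := fun i hi => Finset.mem_union_left _ (Finset.mem_inter.mp hi).1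
  have hZc : Z.card + 2 * ρ = a + b := by
    have h1 := Finset.card_sdiff_add_card_eq_card hDs
    have h2 := Finset.card_union_add_card_inter A B
    rw [← hZ, ← hρ] at h1
    rw [← hD, ← hρ, hAc, hBc] at h2
    omega
  let φ : (Fin ρ → ι) → (T a b ι ⧸ RelP a b ι) := fun i =>
    (RelP a b ι).mkQ (u (Function.extend s i x1, Function.extend t i x2))
  have hAP : RelA a b ι ≤ RelP a b ι := le_sup_left
  have hz1 : ∀ y : Ix a b ι, ¬ Function.Injective y.1 → (RelP a b ι).mkQ (u y) = 0 := fun y hy =>
    (Submodule.Quotient.mk_eq_zero _).mpr (hAP (POL_inj1 y hy))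
  have hz2 : ∀ y : Ix a b ι, ¬ Function.Injective y.2 → (RelP a b ι).mkQ (u y) = 0 := fun y hy =>
    (Submodule.Quotient.mk_eq_zero _).mpr (hAP (POL_inj2 y hy))
  have key := hS ι (T a b ι ⧸ RelP a b ι) ρ r φ Z l ?_ ?_ ?_ ?_ hl ?_ ?_
  · -- conclusion
    have hx : φ l = (RelP a b ι).mkQ (u (x1, x2)) := by
      show (RelP a b ι).mkQ (u (Function.extend s l x1, Function.extend t l x2)) = _
      have e1 : Function.extend s l x1 = x1 := by
        funext p
        by_cases h : ∃ q, s q = p
        · obtain ⟨q, rfl⟩ := h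
          rw [s.injective.extend_apply, hs1]
        · rw [Function.extend_apply' _ _ _ h]
      have e2 : Function.extend t l x2 = x2 := by
        funext p
        by_cases h : ∃ q, t q = p
        · obtain ⟨q, rfl⟩ := h
          rw [t.injective.extend_apply, ht1]
        · rw [Function.extend_apply' _ _ _ h]
      rw [e1, e2]
    have hE : EE ((x1, x2) : Ix a b ι) =
        (∏ i ∈ Finset.univ.filter (fun i : ι => i ∉ Z ∧ ∀ q, l q ≠ i), lin i) *
          ∏ q, inv (l q) := by
      have hf : Finset.univ.filter (fun i : ι => i ∉ Z ∧ ∀ q, l q ≠ i) = (A ∪ B)ᶜ := by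
        ext i
        rw [Finset.mem_filter, Finset.mem_compl]
        constructor
        · rintro ⟨-, h1, h2⟩ h3
          apply h1
          rw [hZ, Finset.mem_sdiff]
          refine ⟨h3, fun h4 => ?_⟩
          obtain ⟨q, hq⟩ := hDl i h4
          exact h2 q hq
        · intro h1
          refine ⟨Finset.mem_univ _, fun h2 => h1 (Finset.mem_sdiff.mp h2).1, fun q hq => ?_⟩
          exact h1 (hDs (hq ▸ hlD q))
      have h1 : ∏ p, (inv (x1 p) : PowerSeries (S ι)) = ∏ i ∈ A, inv i := by
        rw [hA, Finset.prod_image (fun p _ p' _ h => hx1 h)]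
      have h2 : ∏ p, (inv (x2 p) : PowerSeries (S ι)) = ∏ i ∈ B, inv i := by
        rw [hB, Finset.prod_image (fun p _ p' _ h => hx2 h)]
      have h3 : ∏ q, (inv (l q) : PowerSeries (S ι)) = ∏ i ∈ D, inv i := by
        have h4 : D = Finset.univ.image l := by
          ext i
          rw [Finset.mem_image]
          constructor
          · intro hi
            obtain ⟨q, hq⟩ := hDl i hi
            exact ⟨q, Finset.mem_univ _, hq⟩
          · rintro ⟨q, -, hq⟩
            exact hq ▸ hlD q
        rw [h4, Finset.prod_image (fun p _ p' _ h => hl h)]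
      have h5 : ∏ i : ι, (lin i : PowerSeries (S ι)) =
          (∏ i ∈ (A ∪ B)ᶜ, lin i) * ∏ i ∈ A ∪ B, lin i := by
        rw [Finset.prod_compl_mul_prod]
      have h6 : (∏ i ∈ A ∪ B, (lin i : PowerSeries (S ι))) * ∏ i ∈ A ∪ B, inv i = 1 := by
        rw [← Finset.prod_mul_distrib]
        exact Finset.prod_eq_one (fun i _ => POL_lin_inv i)
      have h7 : (∏ i ∈ A, (inv i : PowerSeries (S ι))) * ∏ i ∈ B, inv i =
          (∏ i ∈ A ∪ B, inv i) * ∏ i ∈ D, inv i := by
        rw [hD, Finset.prod_union_inter]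
      unfold EE
      rw [hf, h3]
      show (∏ i : ι, lin i) * (∏ p, inv (x1 p)) * (∏ p, inv (x2 p)) = _
      rw [h1, h2, h5, mul_assoc, h7]
      calc (∏ i ∈ (A ∪ B)ᶜ, (lin i : PowerSeries (S ι))) * (∏ i ∈ A ∪ B, lin i) *
            ((∏ i ∈ A ∪ B, inv i) * ∏ i ∈ D, inv i)
          = (∏ i ∈ (A ∪ B)ᶜ, (lin i : PowerSeries (S ι))) *
            ((∏ i ∈ A ∪ B, lin i) * ∏ i ∈ A ∪ B, inv i) * ∏ i ∈ D, inv i := by ring
        _ = _ := by rw [h6, mul_one]
    rw [← hE, hx, ← map_smul] at key
    exact (Submodule.Quotient.mk_eq_zero _).mp key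
  · -- permutations
    intro σ i
    show (RelP a b ι).mkQ (u (Function.extend s (i ∘ σ) x1, Function.extend t (i ∘ σ) x2)) =
      (RelP a b ι).mkQ (u (Function.extend s i x1, Function.extend t i x2))
    rw [POL_ext_comp, POL_ext_comp, POL_perm1, POL_perm2, Equiv.Perm.viaFintypeEmbedding_sign,
      Equiv.Perm.viaFintypeEmbedding_sign]
    exact POL_sign σ _ _
  · -- repeated entries
    intro i hi
    apply hz1
    intro h
    apply hi
    intro q q' hq
    apply s.injective
    apply h
    show Function.extend s i x1 (s q) = Function.extend s i x1 (s q')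
    rw [s.injective.extend_apply, s.injective.extend_apply, hq]
  · -- entries in `Z`
    intro i q hq
    rw [hZ, Finset.mem_sdiff, Finset.mem_union] at hq
    obtain ⟨hq1, hq2⟩ := hq
    rcases hq1 with hq1 | hq1
    · obtain ⟨p, -, hp⟩ := Finset.mem_image.mp hq1
      have hns : ¬ ∃ q', s q' = p := by
        rintro ⟨q', rfl⟩
        apply hq2
        rw [← hp, hs1]
        exact hlD q'
      apply hz1
      intro h
      apply hns
      refine ⟨q, h ?_⟩
      show Function.extend s i x1 (s q) = Function.extend s i x1 p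
      rw [s.injective.extend_apply, Function.extend_apply' _ _ _ hns, hp]
    · obtain ⟨p, -, hp⟩ := Finset.mem_image.mp hq1
      have hns : ¬ ∃ q', t q' = p := by
        rintro ⟨q', rfl⟩
        apply hq2
        rw [← hp, ht1]
        exact hlD q'
      apply hz2
      intro h
      apply hns
      refine ⟨q, h ?_⟩
      show Function.extend t i x2 (t q) = Function.extend t i x2 p
      rw [t.injective.extend_apply, Function.extend_apply' _ _ _ hns, hp]
  · -- relations
    intro p i q
    have h1 : rPh (s p) (t p) (Function.extend s i x1, Function.extend t i x2) q ∈ RelP a b ι :=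
      (le_sup_right : _ ≤ RelP a b ι) (Submodule.subset_span ⟨_, _, _, _, rfl⟩)
    have h2 : (RelP a b ι).mkQ (rPh (s p) (t p)
      (Function.extend s i x1, Function.extend t i x2) q) = 0 :=
      (Submodule.Quotient.mk_eq_zero _).mpr h1
    unfold rPh at h2
    rw [map_sum] at h2
    rw [← h2]
    refine Finset.sum_congr rfl (fun x _ => ?_)
    rw [map_smul]
    show (X x : S ι) ^ q • (RelP a b ι).mkQ (u (Function.extend s (Function.update i p x) x1,
      Function.extend t (Function.update i p x) x2)) = _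
    rw [POL_ext_upd, POL_ext_upd]
  · intro q hq
    exact (Finset.mem_sdiff.mp hq).2 (hlD q)
  · rw [hZc]
    omega

end

/-- [POL] -/
theorem thm_POL (hS : St_SYM) : St_POL := by
  intro ι _ _ a b r x hr
  show PowerSeries.coeff r (EE x) • u x ∈ RelP a b ι
  have hAP : RelA a b ι ≤ RelP a b ι := le_sup_left
  by_cases h1 : Function.Injective x.1
  · by_cases h2 : Function.Injective x.2
    · exact POL_main hS r x.1 x.2 h1 h2 hr
    · exact (RelP a b ι).smul_mem _ (hAP (POL_inj2 x h2))
  · exact (RelP a b ι).smul_mem _ (hAP (POL_inj1 x h1))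

end MDC
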