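import Pool.Agent.MDC.DLog

/-!
# MDC PWR: all power sums are in `Lop thC`
-/

set_option autoImplicit false

open MvPolynomial

namespace MDC

open DLog

theorem thm_PWR (hPOL : St_POL) (hPZZ : St_PZZ) : St_PWR := by
  intro ι _ _ a b m hm
  have hmem : ∀ k : ℕ, 1 ≤ k → ∀ c : T a b ι, psum ι ℂ k • c ∈ Lop (thC m : Fin m → T a b ι) := by
    intro k
    induction k using Nat.strong_induction_on with
    | _ k ih =>
      intro hk c
      rcases Nat.lt_or_ge m k with h | h
      · have hx : ∀ x : Ix a b ι, psum ι ℂ k • (u x : T a b ι) ∈
            Lop (thC m : Fin m → T a b ι) := by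
          intro x
          have h1 := hPZZ ι a b k x (by omega)
          rw [PowerSeries.coeff_mul, Finset.sum_smul] at h1
          have h1' : ∑ p ∈ Finset.HasAntidiagonal.antidiagonal k,
              (PowerSeries.coeff p.1 (EE x) * PowerSeries.coeff p.2 (PP ι)) • (u x : T a b ι) ∈
              Lop (thC m : Fin m → T a b ι) := Submodule.mem_sup_left h1
          rw [← Finset.add_sum_erase _ _ (a := (0, k))
            (Finset.HasAntidiagonal.mem_antidiagonal.mpr (by simp))] at h1'
          have h2 : ∑ p ∈ (Finset.HasAntidiagonal.antidiagonal k).erase (0, k),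
              (PowerSeries.coeff p.1 (EE x) * PowerSeries.coeff p.2 (PP ι)) • (u x : T a b ι) ∈
              Lop (thC m : Fin m → T a b ι) := by
            refine Submodule.sum_mem _ (fun p hp => ?_)
            have hp1 := Finset.mem_erase.mp hp
            have hp2 := Finset.HasAntidiagonal.mem_antidiagonal.mp hp1.2
            rcases Nat.eq_zero_or_pos p.2 with h0 | h0
            · rw [mul_comm, mul_smul, show p.1 = k by omega]
              refine Submodule.smul_mem _ _ (Submodule.mem_sup_left (RelP_le_Rel ?_))
              exact hPOL ι a b k x (by omega)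
            · rw [mul_comm, mul_smul, coeff_PP]
              refine ih p.2 ?_ h0 _
              have : p.1 ≠ 0 := by
                intro h3
                apply hp1.1
                exact Prod.ext h3 (by simp only; omega)
              omega
          have h3 := Submodule.sub_mem _ h1' h2
          rw [add_sub_cancel_right] at h3
          simp only [coeff_zero_EE, coeff_PP, one_mul] at h3
          exact h3
        rw [sum_smul_u c, Finset.smul_sum]
        refine Submodule.sum_mem _ (fun x _ => ?_)
        rw [smul_comm]
        exact Submodule.smul_mem _ _ (hx x)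
      · refine Submodule.mem_sup_right ?_
        refine Submodule.mem_iSup_of_mem (⟨k - 1, by omega⟩ : Fin m) ?_
        refine ⟨c, ?_⟩
        rw [LinearMap.mulLeft_apply]
        funext x
        unfold thC
        simp only [Pi.mul_apply, Pi.smul_apply, smul_eq_mul]
        rw [Nat.sub_add_cancel hk]
  apply le_antisymm
  · unfold LP
    refine sup_le (le_sup_left) (Submodule.span_le.mpr ?_)
    rintro c ⟨k, x, hk, rfl⟩
    exact hmem k hk _
  · unfold Lop
    refine sup_le (le_sup_left) (iSup_le (fun k => ?_))
    rintro c ⟨d, rfl⟩
    rw [LinearMap.mulLeft_apply]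
    have e : (thC m k : T a b ι) * d = ∑ x, d x • (psum ι ℂ (k.val + 1) • (u x : T a b ι)) := by
      conv_lhs => rw [sum_smul_u d]
      rw [Finset.mul_sum]
      refine Finset.sum_congr rfl (fun x _ => ?_)
      rw [mul_smul_comm, mul_u]
      rfl
    rw [e]
    refine Submodule.mem_sup_right (Submodule.sum_mem _ (fun x _ => Submodule.smul_mem _ _ ?_))
    exact Submodule.subset_span ⟨k.val + 1, x, by omega, rfl⟩

end MDC
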