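import Pool.Agent.MDC.StA

/-!
# MDC: the key relation for `a ≥ 1`
-/

set_option autoImplicit false

open MvPolynomial

namespace MDC

section

set_option linter.unusedSectionVars false

variable {a b : ℕ} {ι : Type} [Fintype ι] [DecidableEq ι]

theorem PZT_mu_u (i : ι) (z : Ix a b ι) :
    mu i (u z) = u ((Fin.cons i z.1 : Fin (a + 1) → ι), z.2) := by
  funext w
  change (if w.1 0 = i then (u z : T a b ι) (Fin.tail w.1, w.2) else 0) = _
  unfold u
  rw [Pi.single_apply, Pi.single_apply]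
  by_cases h : w = ((Fin.cons i z.1 : Fin (a + 1) → ι), z.2)
  · subst h
    simp
  · rw [if_neg h]
    split_ifs with h1 h2
    · exfalso
      apply h
      have h3 : Fin.tail w.1 = z.1 := congrArg Prod.fst h2
      have h4 : w.2 = z.2 := congrArg Prod.snd h2
      refine Prod.ext ?_ h4
      change w.1 = Fin.cons i z.1
      rw [← h3, ← h1, Fin.cons_self_tail]
    · rfl
    · rfl

omit [Fintype ι] [DecidableEq ι] in
theorem PZT_lin_inv (j : ι) : lin j * inv j = (1 : PowerSeries (S ι)) := by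
  unfold lin inv
  rw [sub_mul, one_mul, mul_assoc]
  ext n : 1
  rw [map_sub, PowerSeries.coeff_C_mul]
  cases n with
  | zero => simp
  | succ n =>
    rw [PowerSeries.coeff_succ_X_mul, PowerSeries.coeff_mk, PowerSeries.coeff_mk,
      PowerSeries.coeff_one, if_neg (Nat.succ_ne_zero n), pow_succ']
    ring

/-- coefficientwise derivative -/
noncomputable def PZT_D (i : ι) (f : PowerSeries (S ι)) : PowerSeries (S ι) :=
  PowerSeries.mk fun n => pderiv i (PowerSeries.coeff n f)

/-- logarithmic derivative -/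
def PZT_L (i : ι) (f g : PowerSeries (S ι)) : Prop := PZT_D i f = f * g

theorem PZT_D_mul (i : ι) (f g : PowerSeries (S ι)) :
    PZT_D i (f * g) = PZT_D i f * g + f * PZT_D i g := by
  ext n : 1
  unfold PZT_D
  rw [map_add, PowerSeries.coeff_mul, PowerSeries.coeff_mul, PowerSeries.coeff_mk,
    PowerSeries.coeff_mul, map_sum, ← Finset.sum_add_distrib]
  refine Finset.sum_congr rfl fun p _ => ?_
  rw [Derivation.leibniz, PowerSeries.coeff_mk, PowerSeries.coeff_mk]
  simp only [smul_eq_mul]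
  ring

theorem PZT_D_one (i : ι) : PZT_D i (1 : PowerSeries (S ι)) = 0 := by
  ext n : 1
  unfold PZT_D
  rw [PowerSeries.coeff_mk, PowerSeries.coeff_one]
  split_ifs <;> simp

theorem PZT_L_mul {i : ι} {f g f' g' : PowerSeries (S ι)} (h : PZT_L i f g)
    (h' : PZT_L i f' g') : PZT_L i (f * f') (g + g') := by
  unfold PZT_L at *
  rw [PZT_D_mul, h, h']
  ring

theorem PZT_L_prod {i : ι} {κ : Type} (J : Finset κ) (f g : κ → PowerSeries (S ι))
    (h : ∀ s ∈ J, PZT_L i (f s) (g s)) : PZT_L i (∏ s ∈ J, f s) (∑ s ∈ J, g s) := by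
  classical
  induction J using Finset.induction_on with
  | empty =>
    unfold PZT_L
    rw [Finset.prod_empty, Finset.sum_empty, PZT_D_one, mul_zero]
  | insert s J hs ih =>
    rw [Finset.prod_insert hs, Finset.sum_insert hs]
    exact PZT_L_mul (h s (Finset.mem_insert_self s J))
      (ih fun t ht => h t (Finset.mem_insert_of_mem ht))

theorem PZT_L_lin (i j : ι) : PZT_L i (lin j)
    (-(if j = i then (PowerSeries.X : PowerSeries (S ι)) * inv i else 0)) := by
  unfold PZT_L
  have hD : PZT_D i (lin j) = -(if j = i then (PowerSeries.X : PowerSeries (S ι)) else 0) := by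
    ext n : 1
    unfold PZT_D lin
    rw [PowerSeries.coeff_mk, map_sub, PowerSeries.coeff_C_mul, PowerSeries.coeff_one,
      PowerSeries.coeff_X, map_sub, map_neg]
    by_cases hj : j = i
    · subst hj
      rw [if_pos rfl, PowerSeries.coeff_X]
      by_cases h1 : n = 1
      · subst h1
        simp
      · by_cases h0 : n = 0
        · subst h0
          simp
        · simp [h0, h1]
    · rw [if_neg hj, map_zero]
      by_cases h1 : n = 1
      · subst h1
        simp [pderiv_X_of_ne hj]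
      · by_cases h0 : n = 0
        · subst h0
          simp
        · simp [h0, h1]
  rw [hD]
  by_cases hj : j = i
  · subst hj
    rw [if_pos rfl, if_pos rfl]
    have := PZT_lin_inv j
    linear_combination (-(PowerSeries.X : PowerSeries (S ι))) * (-this)
  · rw [if_neg hj, if_neg hj]
    simp

theorem PZT_L_inv (i j : ι) : PZT_L i (inv j)
    (if j = i then (PowerSeries.X : PowerSeries (S ι)) * inv i else 0) := by
  have h1 := PZT_L_lin i j
  unfold PZT_L at *
  set g : PowerSeries (S ι) := if j = i then (PowerSeries.X : PowerSeries (S ι)) * inv i else 0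
  have h2 : PZT_D i (lin j * inv j) = 0 := by rw [PZT_lin_inv, PZT_D_one]
  rw [PZT_D_mul, h1] at h2
  have h3 := PZT_lin_inv j
  -- `lin * D inv = lin * g * inv`
  have h4 : inv j * (lin j * -g * inv j + lin j * PZT_D i (inv j)) = 0 := by
    rw [h2, mul_zero]
  have h5 : inv j * (lin j * -g * inv j + lin j * PZT_D i (inv j)) =
      PZT_D i (inv j) - inv j * g := by
    linear_combination (PZT_D i (inv j) - inv j * g) * h3
  rw [h5] at h4
  exact sub_eq_zero.1 h4

/-- the logarithmic derivative of `EE`, divided by the variable -/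
noncomputable def PZT_G (i : ι) (x : Ix a b ι) : PowerSeries (S ι) :=
  -inv i + (∑ s, if x.1 s = i then inv i else 0) + ∑ t, if x.2 t = i then inv i else 0

theorem PZT_L_EE (i : ι) (x : Ix a b ι) :
    PZT_L i (EE x) ((PowerSeries.X : PowerSeries (S ι)) * PZT_G i x) := by
  have h := PZT_L_mul (PZT_L_mul
    (PZT_L_prod (i := i) Finset.univ (fun j : ι => lin j) _ fun j _ => PZT_L_lin i j)
    (PZT_L_prod (i := i) Finset.univ (fun s => inv (x.1 s)) _ fun s _ => PZT_L_inv i (x.1 s)))
    (PZT_L_prod (i := i) Finset.univ (fun t => inv (x.2 t)) _ fun t _ => PZT_L_inv i (x.2 t))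
  have e : (∑ j : ι, -(if j = i then (PowerSeries.X : PowerSeries (S ι)) * inv i else 0)) +
      (∑ s, if x.1 s = i then (PowerSeries.X : PowerSeries (S ι)) * inv i else 0) +
      (∑ t, if x.2 t = i then (PowerSeries.X : PowerSeries (S ι)) * inv i else 0) =
      (PowerSeries.X : PowerSeries (S ι)) * PZT_G i x := by
    unfold PZT_G
    rw [mul_add, mul_add, Finset.mul_sum, Finset.mul_sum, Finset.sum_neg_distrib,
      Finset.sum_ite_eq' Finset.univ i, if_pos (Finset.mem_univ i)]
    simp only [mul_ite, mul_zero, mul_neg]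
  rw [e] at h
  exact h

theorem PZT_pd (i : ι) (x : Ix a b ι) (r : ℕ) :
    pderiv i (PowerSeries.coeff (r + 1) (EE x)) = PowerSeries.coeff r (EE x * PZT_G i x) := by
  have h := congrArg (PowerSeries.coeff (r + 1)) (PZT_L_EE i x)
  unfold PZT_D at h
  rw [PowerSeries.coeff_mk] at h
  rw [h]
  have e : EE x * (PowerSeries.X * PZT_G i x) = PowerSeries.X * (EE x * PZT_G i x) := by ring
  rw [e, PowerSeries.coeff_succ_X_mul]

/-- derivation of a multiple of `dl (u x)` -/
theorem PZT_dt (hDPA : St_DPA) (hDTH : St_DTH) (s : S ι) (x : Ix (a + 1) b ι) :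
    dt (s • dl (u x)) = ∑ i : ι, pderiv i s • mu i (dl (u x)) := by
  have h1 := (hDPA ι a b).1 x
  have h2 := (hDTH ι a b).1 s
  rw [h1]
  simp only [map_sum, Finset.smul_sum]
  rw [Finset.sum_comm]
  refine Finset.sum_congr rfl fun σ _ => ?_
  rw [smul_comm s, map_smul, h2, Finset.smul_sum]
  refine Finset.sum_congr rfl fun i _ => ?_
  have e : mu i ((((Equiv.Perm.sign σ : ℤ) : ℂ)) •
      (u (Fin.tail (x.1 ∘ σ), x.2) : T a b ι)) = (((Equiv.Perm.sign σ : ℤ) : ℂ)) •
      mu i (u (Fin.tail (x.1 ∘ σ), x.2) : T a b ι) := by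
    rw [← algebraMap_smul (S ι) (((Equiv.Perm.sign σ : ℤ) : ℂ)), map_smul, algebraMap_smul]
  rw [e, PZT_mu_u, smul_comm]

/-- the first sum is a combination of relations -/
theorem PZT_first (hDPA : St_DPA) (r : ℕ) (x : Ix (a + 1) b ι) :
    ∑ i : ι, PowerSeries.coeff r (EE x * inv i) • mu i (dl (u x)) ∈ Rel (a + 1) b ι := by
  have h0 : ∀ (q : ℕ) (z : Ix a b ι), ∑ i : ι, ((X i : S ι) ^ q) • mu i (u z) ∈
      Rel (a + 1) b ι := by
    intro q z
    have e : ∑ i : ι, ((X i : S ι) ^ q) • mu i (u z) =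
        rTh 0 ((Fin.cons (x.1 0) z.1 : Fin (a + 1) → ι), z.2) q := by
      unfold rTh
      refine Finset.sum_congr rfl fun i _ => ?_
      rw [PZT_mu_u, Fin.update_cons_zero]
    rw [e]
    exact Submodule.mem_sup_right (Submodule.subset_span (Or.inl ⟨_, _, _, rfl⟩))
  have h1 : ∀ q : ℕ, ∑ i : ι, ((X i : S ι) ^ q) • mu i (dl (u x)) ∈ Rel (a + 1) b ι := by
    intro q
    rw [(hDPA ι a b).1 x]
    have e : ∑ i : ι, ((X i : S ι) ^ q) • mu i (∑ σ : Equiv.Perm (Fin (a + 1)),
        (((Equiv.Perm.sign σ : ℤ) : ℂ)) • (u (Fin.tail (x.1 ∘ σ), x.2) : T a b ι)) =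
        ∑ σ : Equiv.Perm (Fin (a + 1)), (algebraMap ℂ (S ι) ((Equiv.Perm.sign σ : ℤ) : ℂ)) •
          ∑ i : ι, ((X i : S ι) ^ q) • mu i (u (Fin.tail (x.1 ∘ σ), x.2) : T a b ι) := by
      simp only [map_sum, Finset.smul_sum]
      rw [Finset.sum_comm]
      refine Finset.sum_congr rfl fun σ _ => Finset.sum_congr rfl fun i _ => ?_
      rw [← algebraMap_smul (S ι) (((Equiv.Perm.sign σ : ℤ) : ℂ)), map_smul, smul_comm]
    rw [e]
    exact Submodule.sum_mem _ fun σ _ => Submodule.smul_mem _ _ (h0 q _)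
  have e : ∑ i : ι, PowerSeries.coeff r (EE x * inv i) • mu i (dl (u x)) =
      ∑ p ∈ Finset.HasAntidiagonal.antidiagonal r, PowerSeries.coeff p.1 (EE x) •
        ∑ i : ι, ((X i : S ι) ^ p.2) • mu i (dl (u x)) := by
    simp only [Finset.smul_sum]
    rw [Finset.sum_comm]
    refine Finset.sum_congr rfl fun i _ => ?_
    rw [PowerSeries.coeff_mul, Finset.sum_smul]
    refine Finset.sum_congr rfl fun p _ => ?_
    unfold inv
    rw [PowerSeries.coeff_mk, mul_smul]
  rw [e]
  exact Submodule.sum_mem _ fun p _ => Submodule.smul_mem _ _ (h1 p.2)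

/-- (i) -/
theorem PZT_i (hPOL : St_POL) (hDPA : St_DPA) (R : ℕ) (y : Ix (a + 1) b ι)
    (h : Fintype.card ι < R + (a + 1) + b) :
    PowerSeries.coeff R (EE y) • dl (u y) ∈ Rel a b ι := by
  have h1 := hPOL ι (a + 1) b R y h
  have h2 := (hDPA ι a b).2.2.2 _ h1
  rw [map_smul] at h2
  exact h2

end

theorem PZT_alg {V : Type} [AddCommGroup V] [Module ℂ V] (A B : ℂ) {κ κ' : Type} [Fintype κ]
    [Fintype κ'] (f g : κ → V) (f' g' : κ' → V) :
    A • (∑ s, f s + ∑ t, f' t) - (∑ s, (A • f s - B • g s) + ∑ t, (A • f' t - B • g' t)) =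
      B • (∑ s, g s + ∑ t, g' t) := by
  rw [Finset.sum_sub_distrib, Finset.sum_sub_distrib, ← Finset.smul_sum, ← Finset.smul_sum,
    ← Finset.smul_sum, ← Finset.smul_sum, smul_add, smul_add]
  abel

theorem thm_PZT (hPOL : St_POL) (hDPA : St_DPA) (hDTH : St_DTH) (hCAR : St_CAR) : St_PZT := by
  intro ι _ _ a b r x hn
  -- (ii)
  have h1 := (hDTH ι a b).2.1 _ (PZT_i hPOL hDPA (r + 1) x (by omega))
  rw [PZT_dt hDPA hDTH] at h1
  simp only [PZT_pd] at h1
  set m : ι → T (a + 1) b ι := fun i => mu i (dl (u x)) with hm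
  have e1 : ∑ i : ι, PowerSeries.coeff r (EE x * PZT_G i x) • mu i (dl (u x)) =
      -(∑ i : ι, PowerSeries.coeff r (EE x * inv i) • m i) +
      ∑ s, PowerSeries.coeff r (EE x * inv (x.1 s)) • m (x.1 s) +
      ∑ t, PowerSeries.coeff r (EE x * inv (x.2 t)) • m (x.2 t) := by
    have e2 : ∀ i : ι, PowerSeries.coeff r (EE x * PZT_G i x) • mu i (dl (u x)) =
        -(PowerSeries.coeff r (EE x * inv i) • m i) +
        (∑ s, if x.1 s = i then PowerSeries.coeff r (EE x * inv i) • m i else 0) +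
        ∑ t, if x.2 t = i then PowerSeries.coeff r (EE x * inv i) • m i else 0 := by
      intro i
      unfold PZT_G
      rw [mul_add, mul_add, Finset.mul_sum, Finset.mul_sum, map_add, map_add, map_sum, map_sum,
        add_smul, add_smul, Finset.sum_smul, Finset.sum_smul, mul_neg, map_neg, neg_smul]
      congr 1
      · congr 1
        refine Finset.sum_congr rfl fun s _ => ?_
        split_ifs
        · rfl
        · rw [mul_zero, map_zero, zero_smul]
      · refine Finset.sum_congr rfl fun s _ => ?_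
        split_ifs
        · rfl
        · rw [mul_zero, map_zero, zero_smul]
    rw [Finset.sum_congr rfl fun i _ => e2 i, Finset.sum_add_distrib, Finset.sum_add_distrib,
      Finset.sum_neg_distrib]
    congr 1
    · congr 1
      rw [Finset.sum_comm]
      refine Finset.sum_congr rfl fun s _ => ?_
      rw [Finset.sum_ite_eq Finset.univ (x.1 s), if_pos (Finset.mem_univ _)]
    · rw [Finset.sum_comm]
      refine Finset.sum_congr rfl fun s _ => ?_
      rw [Finset.sum_ite_eq Finset.univ (x.2 s), if_pos (Finset.mem_univ _)]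
  rw [e1] at h1
  have h2 := PZT_first hDPA r x
  have h3 : ∑ s, PowerSeries.coeff r (EE x * inv (x.1 s)) • m (x.1 s) +
      ∑ t, PowerSeries.coeff r (EE x * inv (x.2 t)) • m (x.2 t) ∈ Rel (a + 1) b ι := by
    have h4 := Submodule.add_mem _ h1 h2
    have e3 : -(∑ i : ι, PowerSeries.coeff r (EE x * inv i) • m i) +
      ∑ s, PowerSeries.coeff r (EE x * inv (x.1 s)) • m (x.1 s) +
      ∑ t, PowerSeries.coeff r (EE x * inv (x.2 t)) • m (x.2 t) +
      ∑ i : ι, PowerSeries.coeff r (EE x * inv i) • mu i (dl (u x)) =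
      ∑ s, PowerSeries.coeff r (EE x * inv (x.1 s)) • m (x.1 s) +
      ∑ t, PowerSeries.coeff r (EE x * inv (x.2 t)) • m (x.2 t) := by
      rw [hm]; abel
    rw [e3] at h4
    exact h4
  -- (iii)
  have hle : RelA (a + 1) b ι ≤ Rel (a + 1) b ι := le_trans le_sup_left le_sup_left
  have hca : ∀ e : ι, ((a : ℂ) + 1) • m e - (((a + 1).factorial : ℂ) • u x -
      dl (u ((Fin.cons e x.1 : Fin (a + 2) → ι), x.2))) ∈ Rel (a + 1) b ι := by
    intro e
    have h4 := hle (hCAR ι a b x e)
    have e4 : ((a : ℂ) + 1) • m e - (((a + 1).factorial : ℂ) • u x -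
      dl (u ((Fin.cons e x.1 : Fin (a + 2) → ι), x.2))) =
      dl (u ((Fin.cons e x.1 : Fin (a + 2) → ι), x.2)) + ((a : ℂ) + 1) • mu e (dl (u x)) -
      ((a + 1).factorial : ℂ) • u x := by
      rw [hm]; abel
    rw [e4]
    exact h4
  have hcs : ∀ (g : S ι) (e : ι), g • dl (u ((Fin.cons e x.1 : Fin (a + 2) → ι), x.2)) ∈
      Rel (a + 1) b ι → ((a : ℂ) + 1) • (g • m e) - ((a + 1).factorial : ℂ) • (g • u x) ∈
      Rel (a + 1) b ι := by
    intro g e hg
    have h4 := Submodule.sub_mem _ (Submodule.smul_mem _ g (hca e)) hg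
    have e4 : g • (((a : ℂ) + 1) • m e - (((a + 1).factorial : ℂ) • u x -
      dl (u ((Fin.cons e x.1 : Fin (a + 2) → ι), x.2)))) -
      g • dl (u ((Fin.cons e x.1 : Fin (a + 2) → ι), x.2)) =
      ((a : ℂ) + 1) • (g • m e) - ((a + 1).factorial : ℂ) • (g • u x) := by
      rw [smul_sub, smul_sub, smul_comm g ((a : ℂ) + 1), smul_comm g ((a + 1).factorial : ℂ)]
      abel
    rw [e4] at h4
    exact h4
  have hs : ∀ s, dl (u ((Fin.cons (x.1 s) x.1 : Fin (a + 2) → ι), x.2)) = (0 : T (a + 1) b ι) := by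
    intro s
    have h4 := (hDPA ι (a + 1) b).2.1 (Equiv.swap 0 s.succ)
      ((Fin.cons (x.1 s) x.1 : Fin (a + 2) → ι), x.2)
    have e4 : ((Fin.cons (x.1 s) x.1 : Fin (a + 2) → ι)) ∘ (Equiv.swap 0 s.succ) =
        Fin.cons (x.1 s) x.1 := by
      funext q
      rw [Function.comp_apply]
      by_cases hq0 : q = 0
      · rw [hq0, Equiv.swap_apply_left, Fin.cons_succ, Fin.cons_zero]
      · by_cases hqs : q = s.succ
        · rw [hqs, Equiv.swap_apply_right, Fin.cons_succ, Fin.cons_zero]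
        · rw [Equiv.swap_apply_of_ne_of_ne hq0 hqs]
    simp only at h4
    rw [e4, Equiv.Perm.sign_swap (Fin.succ_ne_zero s).symm] at h4
    simp only [Units.val_neg, Units.val_one, Int.cast_neg, Int.cast_one, neg_smul, one_smul] at h4
    have h5 : (2 : ℂ) • dl (u ((Fin.cons (x.1 s) x.1 : Fin (a + 2) → ι), x.2)) =
        (0 : T (a + 1) b ι) := by
      rw [two_smul]
      nth_rewrite 1 [h4]
      exact neg_add_cancel _
    rcases smul_eq_zero.1 h5 with h6 | h6
    · exact absurd h6 two_ne_zero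
    · exact h6
  have hEE : ∀ t, EE ((Fin.cons (x.2 t) x.1 : Fin (a + 2) → ι), x.2) = EE x * inv (x.2 t) := by
    intro t
    unfold EE
    rw [Fin.prod_univ_succ]
    simp only [Fin.cons_zero, Fin.cons_succ]
    ring
  have h5 : ∀ s, ((a : ℂ) + 1) • (PowerSeries.coeff r (EE x * inv (x.1 s)) • m (x.1 s)) -
      ((a + 1).factorial : ℂ) • (PowerSeries.coeff r (EE x * inv (x.1 s)) • u x) ∈
      Rel (a + 1) b ι := by
    intro s
    apply hcs
    rw [hs s, smul_zero]
    exact Submodule.zero_mem _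
  have h6 : ∀ t, ((a : ℂ) + 1) • (PowerSeries.coeff r (EE x * inv (x.2 t)) • m (x.2 t)) -
      ((a + 1).factorial : ℂ) • (PowerSeries.coeff r (EE x * inv (x.2 t)) • u x) ∈
      Rel (a + 1) b ι := by
    intro t
    apply hcs
    have h7 := PZT_i hPOL hDPA r ((Fin.cons (x.2 t) x.1 : Fin (a + 2) → ι), x.2) (by omega)
    rw [hEE t] at h7
    exact h7
  have hC : ∀ (t : ℂ) (c : T (a + 1) b ι), c ∈ Rel (a + 1) b ι → t • c ∈ Rel (a + 1) b ι := by
    intro t c hc
    rw [← algebraMap_smul (S ι) t]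
    exact Submodule.smul_mem _ _ hc
  have h7 := hC ((a : ℂ) + 1) _ h3
  have h8 := Submodule.sub_mem _ h7 (Submodule.add_mem _
    (Submodule.sum_mem _ fun s (_ : s ∈ Finset.univ) => h5 s)
    (Submodule.sum_mem _ fun t (_ : t ∈ Finset.univ) => h6 t))
  have e8 : ((a : ℂ) + 1) • (∑ s, PowerSeries.coeff r (EE x * inv (x.1 s)) • m (x.1 s) +
      ∑ t, PowerSeries.coeff r (EE x * inv (x.2 t)) • m (x.2 t)) -
      (∑ s, (((a : ℂ) + 1) • (PowerSeries.coeff r (EE x * inv (x.1 s)) • m (x.1 s)) -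
      ((a + 1).factorial : ℂ) • (PowerSeries.coeff r (EE x * inv (x.1 s)) • u x)) +
      ∑ t, (((a : ℂ) + 1) • (PowerSeries.coeff r (EE x * inv (x.2 t)) • m (x.2 t)) -
      ((a + 1).factorial : ℂ) • (PowerSeries.coeff r (EE x * inv (x.2 t)) • u x))) =
      ((a + 1).factorial : ℂ) • (PowerSeries.coeff r (EE x *
        (∑ s, inv (x.1 s) + ∑ t, inv (x.2 t))) • u x) := by
    rw [PZT_alg]
    congr 1
    rw [mul_add, Finset.mul_sum, Finset.mul_sum, map_add, map_sum, map_sum, add_smul,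
      Finset.sum_smul, Finset.sum_smul]
  rw [e8] at h8
  have h9 := hC (((a + 1).factorial : ℂ)⁻¹) _ h8
  rwa [inv_smul_smul₀ (by exact_mod_cast Nat.factorial_ne_zero _)] at h9

end MDC
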