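import Pool.Agent.MDC.StA

/-!
# MDC, module PZZ: the key relation (logarithmic derivative of `EE`)
-/

set_option autoImplicit false

open MvPolynomial

namespace MDC

namespace PZZ

section LD

variable {R : Type} [CommRing R]

/-- `X * f' = f * g` -/
def LD (f g : PowerSeries R) : Prop := PowerSeries.X * PowerSeries.derivative R f = f * g

theorem LD.mul {f1 f2 g1 g2 : PowerSeries R} (h1 : LD f1 g1) (h2 : LD f2 g2) :
    LD (f1 * f2) (g1 + g2) := by
  unfold LD at *
  rw [Derivation.leibniz, smul_eq_mul, smul_eq_mul]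
  calc PowerSeries.X * (f1 * PowerSeries.derivative R f2 + f2 * PowerSeries.derivative R f1)
      = f1 * (PowerSeries.X * PowerSeries.derivative R f2) +
        f2 * (PowerSeries.X * PowerSeries.derivative R f1) := by ring
    _ = f1 * f2 * (g1 + g2) := by rw [h1, h2]; ring

theorem LD.one : LD (1 : PowerSeries R) 0 := by
  unfold LD
  simp

theorem LD.prod {κ : Type} (s : Finset κ) (f g : κ → PowerSeries R)
    (h : ∀ i ∈ s, LD (f i) (g i)) : LD (∏ i ∈ s, f i) (∑ i ∈ s, g i) := by
  classical
  induction s using Finset.induction_on with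
  | empty => simpa using LD.one
  | insert i s hi ih =>
    rw [Finset.prod_insert hi, Finset.sum_insert hi]
    exact LD.mul (h i (Finset.mem_insert_self i s))
      (ih (fun j hj => h j (Finset.mem_insert_of_mem hj)))

theorem LD.coeff {f g : PowerSeries R} (h : LD f g) (r : ℕ) :
    (r : R) * PowerSeries.coeff r f = PowerSeries.coeff r (f * g) := by
  rw [← h]
  cases r with
  | zero => simp
  | succ r =>
    rw [PowerSeries.coeff_succ_X_mul, PowerSeries.coeff_derivative]
    push_cast
    ring

end LD

variable {ι : Type} [Fintype ι] [DecidableEq ι]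

theorem lin_mul_inv (i : ι) : lin i * inv i = 1 := by
  unfold lin inv
  ext n
  rw [sub_mul, one_mul, map_sub, mul_assoc]
  cases n with
  | zero => simp
  | succ n =>
    rw [PowerSeries.coeff_C_mul, PowerSeries.coeff_succ_X_mul, PowerSeries.coeff_mk,
      PowerSeries.coeff_mk, PowerSeries.coeff_one]
    simp [pow_succ, mul_comm]

theorem LD_lin (i : ι) : LD (lin i) (1 - inv i) := by
  unfold LD
  rw [mul_sub, lin_mul_inv]
  unfold lin
  simp [Derivation.leibniz, mul_comm]

theorem LD_inv (i : ι) : LD (inv i) (inv i - 1) := by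
  have h := LD_lin i
  unfold LD at *
  have h1 : PowerSeries.derivative (S ι) (lin i * inv i) = 0 := by
    rw [lin_mul_inv]; simp
  rw [Derivation.leibniz, smul_eq_mul, smul_eq_mul] at h1
  have h2 : PowerSeries.X * (lin i * PowerSeries.derivative (S ι) (inv i)) =
      - (inv i * (PowerSeries.X * PowerSeries.derivative (S ι) (lin i))) := by
    have : PowerSeries.X * (lin i * PowerSeries.derivative (S ι) (inv i) +
      inv i * PowerSeries.derivative (S ι) (lin i)) = 0 := by rw [h1, mul_zero]
    rw [mul_add] at this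
    rw [eq_neg_iff_add_eq_zero, ← this]
    ring
  rw [h] at h2
  have h3 := lin_mul_inv i
  calc PowerSeries.X * PowerSeries.derivative (S ι) (inv i)
      = (lin i * inv i) * (PowerSeries.X * PowerSeries.derivative (S ι) (inv i)) := by
        rw [h3, one_mul]
    _ = inv i * (PowerSeries.X * (lin i * PowerSeries.derivative (S ι) (inv i))) := by ring
    _ = inv i * (inv i - 1) := by
        rw [h2]
        calc inv i * -(inv i * (lin i * (1 - inv i)))
            = (lin i * inv i) * (inv i * (inv i - 1)) := by ring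
          _ = inv i * (inv i - 1) := by rw [h3, one_mul]

theorem LD_EE {a b : ℕ} (x : Ix a b ι) :
    LD (EE x) ((∑ i : ι, (1 - inv i)) + (∑ s, (inv (x.1 s) - 1)) + ∑ t, (inv (x.2 t) - 1)) :=
  LD.mul (LD.mul (LD.prod _ _ _ (fun i _ => LD_lin i)) (LD.prod _ _ _ (fun s _ => LD_inv _)))
    (LD.prod _ _ _ (fun t _ => LD_inv _))

theorem key {a b : ℕ} (x : Ix a b ι) (r : ℕ) :
    PowerSeries.coeff r (EE x * PP ι) =
      PowerSeries.coeff r (EE x * (∑ s, inv (x.1 s) + ∑ t, inv (x.2 t))) +
      ((Fintype.card ι : S ι) - a - b - r) * PowerSeries.coeff r (EE x) := by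
  have h := (LD_EE x).coeff r
  have e : (∑ i : ι, (1 - inv i)) + (∑ s, (inv (x.1 s) - 1)) + ∑ t, (inv (x.2 t) - 1) =
      PowerSeries.C ((Fintype.card ι : S ι) - a - b) - PP ι +
        (∑ s, inv (x.1 s) + ∑ t, inv (x.2 t)) := by
    unfold PP
    simp only [Finset.sum_sub_distrib, Finset.sum_const, Finset.card_univ, Fintype.card_fin,
      nsmul_eq_mul, mul_one, map_sub, map_natCast]
    ring
  rw [e] at h
  have h2 : EE x * (PowerSeries.C ((Fintype.card ι : S ι) - a - b) - PP ι +
        (∑ s, inv (x.1 s) + ∑ t, inv (x.2 t))) =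
      PowerSeries.C ((Fintype.card ι : S ι) - a - b) * EE x - EE x * PP ι +
        EE x * (∑ s, inv (x.1 s) + ∑ t, inv (x.2 t)) := by ring
  rw [h2, map_add, map_sub, PowerSeries.coeff_C_mul] at h
  linear_combination h

end PZZ

theorem thm_PZZ (hPOL : St_POL) (hPZT : St_PZT) (hSWP : St_SWP) : St_PZZ := by
  intro ι _ _ a b r x hr
  have h1 : PowerSeries.coeff r (EE x * (∑ s, inv (x.1 s) + ∑ t, inv (x.2 t))) • u x ∈
      Rel a b ι := by
    cases a with
    | succ a => exact hPZT ι a b r x (by omega)
    | zero =>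
      cases b with
      | zero => simp
      | succ b =>
        have h := hPZT ι b 0 r (x.2, x.1) (by omega)
        obtain ⟨hs1, hs2, hs3⟩ := hSWP ι (b + 1) 0
        have h' := hs2 _ h
        rw [map_smul, hs1] at h'
        have e : EE ((x.2, x.1) : Ix (b + 1) 0 ι) = EE x := (hSWP ι 0 (b + 1)).2.2 x
        rw [e, add_comm (∑ s, inv (((x.2, x.1) : Ix (b + 1) 0 ι).1 s))] at h'
        exact h'
  rw [PZZ.key x r, add_smul]
  refine Submodule.add_mem _ h1 ?_
  rcases Nat.lt_or_ge (Fintype.card ι) (r + a + b) with h | h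
  · rw [mul_smul]
    refine Submodule.smul_mem _ _ ?_
    have h2 := hPOL ι a b r x h
    exact (le_sup_left : RelP a b ι ≤ Rel a b ι) h2
  · have e : Fintype.card ι = r + a + b := le_antisymm hr h
    rw [e]
    push_cast
    have : ((r : S ι) + a + b - a - b - r) = 0 := by ring
    rw [this, zero_mul, zero_smul]
    exact Submodule.zero_mem _

end MDC
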