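import Pool.Agent.MDC.StB

/-!
# MDC [RLB]: relabelling (helper34)
-/

set_option autoImplicit false
set_option linter.unusedSectionVars false

open MvPolynomial

namespace MDC

section RLB

variable {a b : ℕ} {ι ι' : Type} [Fintype ι] [DecidableEq ι] [Fintype ι'] [DecidableEq ι']

/-- relabelling of an index -/
private def RLB_ix (e : ι ≃ ι') (x : Ix a b ι) : Ix a b ι' :=
  (fun s => e (x.1 s), fun t => e (x.2 t))

private theorem RLB_ix_symm (e : ι ≃ ι') (x : Ix a b ι) : RLB_ix e.symm (RLB_ix e x) = x := by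
  simp [RLB_ix]

private theorem RLB_ix_symm' (e : ι ≃ ι') (x : Ix a b ι') : RLB_ix e (RLB_ix e.symm x) = x := by
  simp [RLB_ix]

omit [Fintype ι] [Fintype ι'] [DecidableEq ι] [DecidableEq ι'] in
private theorem RLB_apply (e : ι ≃ ι') (c : T a b ι) (x : Ix a b ι') :
    relb e c x = rename e (c (RLB_ix e.symm x)) := rfl

private theorem RLB_mul (e : ι ≃ ι') (c c' : T a b ι) : relb e (c * c') = relb e c * relb e c' := by
  funext x
  rw [Pi.mul_apply, RLB_apply, RLB_apply, RLB_apply, Pi.mul_apply, map_mul]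

private theorem RLB_smul (e : ι ≃ ι') (s : S ι) (c : T a b ι) :
    relb e (s • c) = rename e s • relb e c := by
  funext x
  rw [Pi.smul_apply, RLB_apply, RLB_apply, Pi.smul_apply, smul_eq_mul, smul_eq_mul, map_mul]

private theorem RLB_u (e : ι ≃ ι') (x : Ix a b ι) : relb e (u x) = u (RLB_ix e x) := by
  funext y
  rw [RLB_apply]
  unfold u
  rw [Pi.single_apply, Pi.single_apply]
  by_cases h : y = RLB_ix e x
  · rw [if_pos h, if_pos (by rw [h, RLB_ix_symm]), map_one]
  · rw [if_neg h, if_neg, map_zero]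
    intro h'
    exact h (by rw [← h', RLB_ix_symm'])

private theorem RLB_symm (e : ι ≃ ι') (c : T a b ι) : relb e.symm (relb e c) = c := by
  funext x
  rw [RLB_apply, RLB_apply, rename_rename]
  have h1 : (e.symm : ι' → ι) ∘ (e : ι → ι') = id := by
    funext i
    simp
  rw [h1, rename_id_apply]
  congr 1
  exact RLB_ix_symm e x

private theorem RLB_symm' (e : ι ≃ ι') (c : T a b ι') : relb e (relb e.symm c) = c := by
  have := RLB_symm e.symm c
  rwa [Equiv.symm_symm] at this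

/-- transport of spans -/
private theorem RLB_span (e : ι ≃ ι') (G : Set (T a b ι)) (N : Submodule (S ι') (T a b ι'))
    (h : ∀ c ∈ G, relb e c ∈ N) : ∀ c ∈ Submodule.span (S ι) G, relb e c ∈ N := by
  intro c hc
  induction hc using Submodule.span_induction with
  | mem c hc => exact h c hc
  | zero => rw [map_zero]; exact N.zero_mem
  | add c c' _ _ h1 h2 => rw [map_add]; exact N.add_mem h1 h2
  | smul s c _ h1 => rw [RLB_smul]; exact N.smul_mem _ h1

private theorem RLB_sup (e : ι ≃ ι') (A B : Submodule (S ι) (T a b ι))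
    (N : Submodule (S ι') (T a b ι')) (hA : ∀ c ∈ A, relb e c ∈ N) (hB : ∀ c ∈ B, relb e c ∈ N) :
    ∀ c ∈ A ⊔ B, relb e c ∈ N := by
  intro c hc
  obtain ⟨x, hx, y, hy, rfl⟩ := Submodule.mem_sup.mp hc
  rw [map_add]
  exact N.add_mem (hA x hx) (hB y hy)

private theorem RLB_iff (N : ∀ (ι : Type) [Fintype ι] [DecidableEq ι], Submodule (S ι) (T a b ι))
    (h : ∀ (ι ι' : Type) [Fintype ι] [DecidableEq ι] [Fintype ι'] [DecidableEq ι'] (e : ι ≃ ι')
      (c : T a b ι), c ∈ N ι → relb e c ∈ N ι') (e : ι ≃ ι') (c : T a b ι) :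
    relb e c ∈ N ι' ↔ c ∈ N ι := by
  refine ⟨fun hc => ?_, h ι ι' e c⟩
  have := h ι' ι e.symm _ hc
  rwa [RLB_symm] at this

private theorem RLB_Xpow (e : ι ≃ ι') (i : ι) (l : ℕ) :
    rename e ((X i : S ι) ^ l) = (X (e i) : S ι') ^ l := by
  rw [map_pow, rename_X]

private theorem RLB_RelA (e : ι ≃ ι') (c : T a b ι) (hc : c ∈ RelA a b ι) :
    relb e c ∈ RelA a b ι' := by
  refine RLB_span e _ _ ?_ c hc
  rintro _ (⟨τ, x, rfl⟩ | ⟨τ, x, rfl⟩)
  · refine Submodule.subset_span (Or.inl ⟨τ, RLB_ix e x, ?_⟩)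
    unfold rA
    rw [map_sub, map_smul, RLB_u, RLB_u]
    rfl
  · refine Submodule.subset_span (Or.inr ⟨τ, RLB_ix e x, ?_⟩)
    unfold rB
    rw [map_sub, map_smul, RLB_u, RLB_u]
    rfl

private theorem RLB_upd {n : ℕ} (e : ι ≃ ι') (j : Fin n → ι) (s : Fin n) (i : ι) :
    (fun q => e (Function.update j s i q)) = Function.update (fun q => e (j q)) s (e i) := by
  funext q
  by_cases h : q = s
  · subst h
    simp
  · simp [Function.update_of_ne h]

private theorem RLB_RelP (e : ι ≃ ι') (c : T a b ι) (hc : c ∈ RelP a b ι) :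
    relb e c ∈ RelP a b ι' := by
  refine RLB_sup e _ _ _ (fun c hc => Submodule.mem_sup_left (RLB_RelA e c hc)) ?_ c hc
  refine RLB_span e _ _ ?_
  rintro _ ⟨s, t, x, l, rfl⟩
  refine Submodule.mem_sup_right (Submodule.subset_span ⟨s, t, RLB_ix e x, l, ?_⟩)
  unfold rPh
  rw [map_sum, ← Equiv.sum_comp e]
  refine Finset.sum_congr rfl fun i _ => ?_
  rw [RLB_smul, RLB_Xpow, RLB_u]
  congr 2
  exact Prod.ext (RLB_upd e x.1 s i) (RLB_upd e x.2 t i)

private theorem RLB_Rel (e : ι ≃ ι') (c : T a b ι) (hc : c ∈ Rel a b ι) :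
    relb e c ∈ Rel a b ι' := by
  refine RLB_sup e _ _ _ (fun c hc => Submodule.mem_sup_left (RLB_RelP e c hc)) ?_ c hc
  refine RLB_span e _ _ ?_
  rintro _ (⟨s, x, l, rfl⟩ | ⟨t, x, l, rfl⟩)
  · refine Submodule.mem_sup_right (Submodule.subset_span (Or.inl ⟨s, RLB_ix e x, l, ?_⟩))
    unfold rTh
    rw [map_sum, ← Equiv.sum_comp e]
    refine Finset.sum_congr rfl fun i _ => ?_
    rw [RLB_smul, RLB_Xpow, RLB_u]
    congr 2
    exact Prod.ext (RLB_upd e x.1 s i) rfl
  · refine Submodule.mem_sup_right (Submodule.subset_span (Or.inr ⟨t, RLB_ix e x, l, ?_⟩))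
    unfold rEt
    rw [map_sum, ← Equiv.sum_comp e]
    refine Finset.sum_congr rfl fun i _ => ?_
    rw [RLB_smul, RLB_Xpow, RLB_u]
    congr 2
    exact Prod.ext rfl (RLB_upd e x.2 t i)

private theorem RLB_EE (e : ι ≃ ι') (x : Ix a b ι) :
    PowerSeries.map (rename e : S ι →ₐ[ℂ] S ι').toRingHom (EE x) = EE (RLB_ix e x) := by
  have hl : ∀ i : ι, PowerSeries.map (rename e : S ι →ₐ[ℂ] S ι').toRingHom (lin i) = lin (e i) := by
    intro i
    unfold lin
    rw [map_sub, map_one, map_mul, PowerSeries.map_C, PowerSeries.map_X]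
    congr 3
    exact rename_X e i
  have hi : ∀ i : ι, PowerSeries.map (rename e : S ι →ₐ[ℂ] S ι').toRingHom (inv i) = inv (e i) := by
    intro i
    unfold inv
    ext1 q
    rw [PowerSeries.coeff_map, PowerSeries.coeff_mk, PowerSeries.coeff_mk]
    exact RLB_Xpow e i q
  unfold EE
  rw [map_mul, map_mul, map_prod, map_prod, map_prod]
  congr 1
  · congr 1
    · rw [← Equiv.prod_comp e]
      exact Finset.prod_congr rfl fun i _ => hl i
    · exact Finset.prod_congr rfl fun s _ => hi _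
  · exact Finset.prod_congr rfl fun s _ => hi _

private theorem RLB_coeff (e : ι ≃ ι') (x : Ix a b ι) (r : ℕ) :
    rename e (PowerSeries.coeff r (EE x)) = PowerSeries.coeff r (EE (RLB_ix e x)) := by
  rw [← RLB_EE, PowerSeries.coeff_map]
  rfl

private theorem RLB_ec (e : ι ≃ ι') (r : ℕ) : relb e (ec r : T a b ι) = ec r := by
  funext x
  rw [RLB_apply]
  unfold ec
  rw [RLB_coeff, RLB_ix_symm']

private theorem RLB_psum (e : ι ≃ ι') (k : ℕ) :
    rename e (psum ι ℂ k) = psum ι' ℂ k := by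
  unfold psum
  rw [map_sum, ← Equiv.sum_comp e]
  exact Finset.sum_congr rfl fun i _ => RLB_Xpow e i k

private theorem RLB_Lop {m : ℕ} (e : ι ≃ ι') (f : Fin m → T a b ι) (f' : Fin m → T a b ι')
    (hf : ∀ k, relb e (f k) = f' k) (c : T a b ι) (hc : c ∈ Lop f) : relb e c ∈ Lop f' := by
  unfold Lop at hc ⊢
  refine RLB_sup e _ _ _ (fun c hc => Submodule.mem_sup_left (RLB_Rel e c hc)) ?_ c hc
  intro c hc
  refine Submodule.mem_sup_right ?_
  induction hc using Submodule.iSup_induction' with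
  | mem k c hc =>
    obtain ⟨d, rfl⟩ := hc
    refine Submodule.mem_iSup_of_mem k ⟨relb e d, ?_⟩
    rw [LinearMap.mulLeft_apply, LinearMap.mulLeft_apply, RLB_mul, hf]
  | zero => rw [map_zero]; exact Submodule.zero_mem _
  | add c c' _ _ h1 h2 => rw [map_add]; exact Submodule.add_mem _ h1 h2

private theorem RLB_LP (e : ι ≃ ι') (c : T a b ι) (hc : c ∈ LP a b ι) :
    relb e c ∈ LP a b ι' := by
  refine RLB_sup e _ _ _ (fun c hc => Submodule.mem_sup_left (RLB_Rel e c hc)) ?_ c hc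
  refine RLB_span e _ _ ?_
  rintro _ ⟨k, x, hk, rfl⟩
  refine Submodule.mem_sup_right (Submodule.subset_span ⟨k, RLB_ix e x, hk, ?_⟩)
  rw [RLB_smul, RLB_psum, RLB_u]

private theorem RLB_LZ {m : ℕ} (z : Fin m → ℂ) (e : ι ≃ ι') (c : T a b ι) (hc : c ∈ LZ a b ι z) :
    relb e c ∈ LZ a b ι' z := by
  refine RLB_sup e _ _ _ (fun c hc => Submodule.mem_sup_left (RLB_Rel e c hc)) ?_ c hc
  refine RLB_span e _ _ ?_
  rintro _ ⟨r, x, rfl⟩
  refine Submodule.mem_sup_right (Submodule.subset_span ⟨r, RLB_ix e x, ?_⟩)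
  rw [RLB_smul, map_sub, RLB_coeff, rename_C, RLB_u]

private theorem RLB_act (e : ι ≃ ι') (w : Equiv.Perm ι) (c : T a b ι) :
    actT (e.permCongr w) (relb e c) = relb e (actT w c) := by
  funext x
  change rename (e.permCongr w) (rename e (c _)) = rename e (rename w (c _))
  rw [rename_rename, rename_rename]
  congr 1
  · congr 1
    funext i
    simp [Equiv.permCongr_apply]
  · congr 1
    refine Prod.ext ?_ ?_
    · funext s
      change e.symm ((e.permCongr w).symm (x.1 s)) = w.symm (e.symm (x.1 s))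
      exact e.symm_apply_apply _
    · funext s
      change e.symm ((e.permCongr w).symm (x.2 s)) = w.symm (e.symm (x.2 s))
      exact e.symm_apply_apply _

/-- relabelling as an equivalence -/
private noncomputable def RLB_equiv (e : ι ≃ ι') : T a b ι ≃ₗ[ℂ] T a b ι' :=
  { (relb e : T a b ι →ₗ[ℂ] T a b ι') with
    invFun := relb e.symm
    left_inv := RLB_symm e
    right_inv := RLB_symm' e }

private theorem RLB_qtr (e : ι ≃ ι') (w : Equiv.Perm ι) (K : Submodule (S ι) (T a b ι))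
    (K' : Submodule (S ι') (T a b ι')) (h : ∀ c, relb e c ∈ K' ↔ c ∈ K) :
    qtr K' (e.permCongr w) = qtr K w := by
  have hiff : K'.restrictScalars ℂ ≤ (K'.restrictScalars ℂ).comap (actT (e.permCongr w)) ↔
      K.restrictScalars ℂ ≤ (K.restrictScalars ℂ).comap (actT w) := by
    constructor
    · intro h1 c hc
      have h2 : relb e c ∈ K'.restrictScalars ℂ := (h c).mpr hc
      have h3 := h1 h2
      rw [Submodule.mem_comap, RLB_act] at h3
      exact (h _).mp h3
    · intro h1 c hc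
      have h2 : relb e.symm c ∈ K.restrictScalars ℂ := by
        change relb e.symm c ∈ K
        rw [← h, RLB_symm']
        exact hc
      have h3 : actT w (relb e.symm c) ∈ K := h1 h2
      rw [← h, ← RLB_act, RLB_symm'] at h3
      exact h3
  by_cases hK : K.restrictScalars ℂ ≤ (K.restrictScalars ℂ).comap (actT w)
  · have hK' := hiff.mpr hK
    unfold qtr
    rw [dif_pos hK, dif_pos hK']
    have hmap : Submodule.map (RLB_equiv e : T a b ι ≃ₗ[ℂ] T a b ι').toLinearMap
        (K.restrictScalars ℂ) = K'.restrictScalars ℂ := by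
      ext c
      constructor
      · rintro ⟨d, hd, rfl⟩
        exact (h d).mpr hd
      · intro hc
        refine ⟨relb e.symm c, ?_, RLB_symm' e c⟩
        change relb e.symm c ∈ K
        rw [← h, RLB_symm']
        exact hc
    rw [← LinearMap.trace_conj' _ (Submodule.Quotient.equiv _ _ (RLB_equiv e) hmap)]
    congr 1
    apply LinearMap.ext
    intro q
    obtain ⟨c, rfl⟩ := Submodule.Quotient.mk_surjective _ q
    rw [LinearEquiv.conj_apply_apply]
    change (K'.restrictScalars ℂ).mkQ (actT (e.permCongr w) c) =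
      (K'.restrictScalars ℂ).mkQ (relb e (actT w (relb e.symm c)))
    rw [← RLB_act, RLB_symm']
  · unfold qtr
    rw [dif_neg hK, dif_neg (fun h' => hK (hiff.mp h'))]

end RLB

theorem thm_RLB : St_RLB := by
  intro ι ι' _ _ _ _ e a b
  have hRel : ∀ c : T a b ι, relb e c ∈ Rel a b ι' ↔ c ∈ Rel a b ι :=
    RLB_iff (fun ι _ _ => Rel a b ι) (fun ι ι' _ _ _ _ e c hc => RLB_Rel e c hc) e
  have hE : ∀ (m : ℕ) (c : T a b ι), relb e c ∈ Lop (ecC m) ↔ c ∈ Lop (ecC m) := fun m =>
    RLB_iff (fun ι _ _ => Lop (ecC m)) (fun ι ι' _ _ _ _ e c hc =>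
      RLB_Lop e _ _ (fun k => RLB_ec e _) c hc) e
  have hT : ∀ (m : ℕ) (c : T a b ι), relb e c ∈ Lop (thC m) ↔ c ∈ Lop (thC m) := fun m =>
    RLB_iff (fun ι _ _ => Lop (thC m)) (fun ι ι' _ _ _ _ e c hc =>
      RLB_Lop e _ _ (fun k => by
        funext x
        exact RLB_psum e _) c hc) e
  have hP : ∀ c : T a b ι, relb e c ∈ LP a b ι' ↔ c ∈ LP a b ι :=
    RLB_iff (fun ι _ _ => LP a b ι) (fun ι ι' _ _ _ _ e c hc => RLB_LP e c hc) e
  have hZ : ∀ (m : ℕ) (z : Fin m → ℂ) (c : T a b ι), relb e c ∈ LZ a b ι' z ↔ c ∈ LZ a b ι z :=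
    fun m z => RLB_iff (fun ι _ _ => LZ a b ι z) (fun ι ι' _ _ _ _ e c hc => RLB_LZ z e c hc) e
  exact ⟨RLB_mul e, RLB_smul e, RLB_u e, RLB_symm e, hRel, RLB_ec e, hE, hT, hP, hZ,
    fun w => RLB_qtr e w _ _ hP, fun m z w => RLB_qtr e w _ _ (hZ m z)⟩

end MDC
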