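import Pool.Agent.MDC.StA

/-!
# MDC, module RLP: relations at level p
-/

set_option autoImplicit false

open MvPolynomial

namespace MDC

theorem RLP_inv {n p : ℕ} (hp : p ≤ n) (i : Fin p) :
    PowerSeries.map (rename (R := ℂ) (Fin.castLE hp)).toRingHom (inv i) =
      inv (Fin.castLE hp i) := by
  refine PowerSeries.ext fun q => ?_
  rw [PowerSeries.coeff_map]
  unfold inv
  rw [PowerSeries.coeff_mk, PowerSeries.coeff_mk]
  change rename (Fin.castLE hp) ((X i : S (Fin p)) ^ q) = X (Fin.castLE hp i) ^ q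
  rw [map_pow, rename_X]

theorem RLP_PP {n p : ℕ} (hp : p ≤ n) :
    PowerSeries.map (rename (R := ℂ) (Fin.castLE hp)).toRingHom (PP (Fin p)) = PPp n p := by
  unfold PP PPp
  rw [map_sum]
  refine Finset.sum_bij (fun i _ => Fin.castLE hp i) (fun i _ => ?_) (fun i _ j _ h => ?_)
    (fun i hi => ?_) (fun i _ => RLP_inv hp i)
  · rw [Finset.mem_filter]
    exact ⟨Finset.mem_univ _, i.2⟩
  · exact Fin.castLE_injective hp h
  · rw [Finset.mem_filter] at hi
    exact ⟨⟨i.val, hi.2⟩, Finset.mem_univ _, rfl⟩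

theorem thm_RLP (hTRP : St_TRP) (hPOL : St_POL) (hPZZ : St_PZZ) : St_RLP := by
  intro n p a b r hp x
  obtain ⟨a1, b1, x1, τ, h1, h2, h3, h4, h5, h6⟩ := hTRP n p a b hp x
  constructor
  · intro hr
    have e1 := h4 _ (hPOL (Fin p) a1 b1 r x1 (by rw [Fintype.card_fin]; omega))
    rw [show (ec r x1 : S (Fin p)) = PowerSeries.coeff r (EE x1) from rfl, h2, h3] at e1
    have e2 : PowerSeries.coeff r (EEp p x) =
        rename (Fin.castLE hp) (PowerSeries.coeff r (EE x1)) := by
      rw [← h6, PowerSeries.coeff_map]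
      rfl
    rw [e2]
    exact e1
  · intro hr
    have e1 := h5 _ (hPZZ (Fin p) a1 b1 r x1 (by rw [Fintype.card_fin]; omega))
    rw [h2, h3] at e1
    have e2 : PowerSeries.coeff r (EEp p x * PPp n p) =
        rename (Fin.castLE hp) (PowerSeries.coeff r (EE x1 * PP (Fin p))) := by
      rw [← h6, ← RLP_PP hp, ← map_mul, PowerSeries.coeff_map]
      rfl
    rw [e2]
    exact e1

end MDC
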