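import Pool.Agent.MDC.StA

/-!
# MDC, module RLQ: the relation at an index with exactly one letter (helper29)
-/

set_option autoImplicit false

open MvPolynomial

namespace MDC

section RLQ

variable {a b n : ℕ}

private lemma rlq_prod {m : ℕ} {α : Type} [CommMonoid α] (G : Fin n → α) (f : Fin m → Fin n)
    (s₀ : Fin m) (i' : Fin n) :
    ∏ s, G (Function.update f s₀ i' s) = G i' * ∏ s ∈ Finset.univ.erase s₀, G (f s) := by
  rw [← Finset.mul_prod_erase Finset.univ (fun s => G (Function.update f s₀ i' s))
    (Finset.mem_univ s₀)]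
  simp only [Function.update_self]
  congr 1
  refine Finset.prod_congr rfl (fun s hs => ?_)
  rw [Function.update_of_ne (Finset.ne_of_mem_erase hs)]

private lemma rlq_sum {m : ℕ} (G : Fin n → ℕ) (f : Fin m → Fin n)
    (s₀ : Fin m) (i' : Fin n) :
    ∑ s, G (Function.update f s₀ i' s) = G i' + ∑ s ∈ Finset.univ.erase s₀, G (f s) := by
  rw [← Finset.add_sum_erase Finset.univ (fun s => G (Function.update f s₀ i' s))
    (Finset.mem_univ s₀)]
  simp only [Function.update_self]
  congr 1
  refine Finset.sum_congr rfl (fun s hs => ?_)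
  rw [Function.update_of_ne (Finset.ne_of_mem_erase hs)]

/-- number of letters, as a sum -/
private lemma rlq_Dp (p : ℕ) (x : Ix a b (Fin n)) :
    Dp p x = (∑ s, if (x.1 s).val < p then 1 else 0) + ∑ t, if (x.2 t).val < p then 1 else 0 := by
  unfold Dp
  rw [Finset.card_filter, Finset.card_filter]

private lemma rlq_EEp (p : ℕ) (x : Ix a b (Fin n)) :
    EEp p x = (∏ i ∈ Finset.univ.filter (fun i : Fin n => i.val < p), lin i) *
      (∏ s, if (x.1 s).val < p then inv (x.1 s) else 1) *
      ∏ t, if (x.2 t).val < p then inv (x.2 t) else 1 := by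
  unfold EEp
  rw [Finset.prod_filter (s := (Finset.univ : Finset (Fin a))),
    Finset.prod_filter (s := (Finset.univ : Finset (Fin b)))]

/-- the general argument -/
private lemma rlq_main (hP : St_RLP) (r : ℕ) (i : Fin n) (x : Ix a b (Fin n))
    (x' : Fin n → Ix a b (Fin n)) (D0 : ℕ → ℕ) (hx : x' i = x)
    (hD : ∀ i' p, Dp p (x' i') = (if i'.val < p then 1 else 0) + D0 p)
    (hE : ∀ i' : Fin n, i'.val < i.val → EEp i.val (x' i') = EEp i.val x * inv i')
    (hR : ∀ q : ℕ, ∑ i' : Fin n, ((X i' : S (Fin n)) ^ q) • u (x' i') ∈ Rel a b (Fin n))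
    (hr : i.val ≤ r + Dp i.val x) :
    PowerSeries.coeff r (EEp i.val x * inv i) • u x ∈
      Rel a b (Fin n) ⊔ Hi 1 i.val x ⊔ Hi 1 (i.val + 1) x := by
  have hDx : ∀ p, Dp p x = (if i.val < p then 1 else 0) + D0 p := fun p => by rw [← hx, hD]
  have h1 : ∑ i' : Fin n, PowerSeries.coeff r (EEp i.val x * inv i') • u (x' i') ∈
      Rel a b (Fin n) := by
    have h2 : ∑ i' : Fin n, PowerSeries.coeff r (EEp i.val x * inv i') • u (x' i') =
        ∑ pq ∈ Finset.HasAntidiagonal.antidiagonal r, PowerSeries.coeff pq.1 (EEp i.val x) •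
          ∑ i' : Fin n, ((X i' : S (Fin n)) ^ pq.2) • u (x' i') := by
      simp only [Finset.smul_sum]
      rw [Finset.sum_comm]
      refine Finset.sum_congr rfl (fun i' _ => ?_)
      rw [PowerSeries.coeff_mul, Finset.sum_smul]
      refine Finset.sum_congr rfl (fun pq _ => ?_)
      rw [smul_smul]
      congr 1
      congr 1
      unfold inv
      rw [PowerSeries.coeff_mk]
    rw [h2]
    exact Submodule.sum_mem _ (fun pq _ => Submodule.smul_mem _ _ (hR pq.2))
  have h3 : ∀ i' : Fin n, i' ≠ i →
      PowerSeries.coeff r (EEp i.val x * inv i') • u (x' i') ∈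
        Rel a b (Fin n) ⊔ Hi 1 i.val x ⊔ Hi 1 (i.val + 1) x := by
    intro i' hi'
    rcases Nat.lt_or_ge i'.val i.val with hlt | hge
    · -- `i' < i`
      have h4 := ((hP n i.val a b r i.isLt.le (x' i')).1 ?_)
      · rw [hE i' hlt] at h4
        refine (sup_le (le_sup_left.trans le_sup_left) ?_ : Rel a b (Fin n) ⊔ Hi 2 i.val (x' i') ≤
          Rel a b (Fin n) ⊔ Hi 1 i.val x ⊔ Hi 1 (i.val + 1) x) h4
        refine le_trans ?_ (le_sup_right.trans le_sup_left)
        unfold Hi
        refine Submodule.span_mono ?_
        rintro c ⟨y, hc, hy1, hy2⟩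
        refine ⟨y, hc, ?_, ?_⟩
        · have e1 := hD i' i.val
          have e2 := hDx i.val
          rw [if_pos hlt] at e1
          rw [if_neg (lt_irrefl _)] at e2
          omega
        · intro p' hp'
          rcases Nat.lt_or_ge i.val p' with hp | hp
          · have e1 := hD i' p'
            have e2 := hDx p'
            rw [if_pos (by omega)] at e1
            rw [if_pos hp] at e2
            have e3 := hy2 p' hp'
            omega
          · have e0 : p' = i.val := by omega
            subst e0
            have e1 := hD i' i.val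
            have e2 := hDx i.val
            rw [if_pos hlt] at e1
            rw [if_neg (lt_irrefl _)] at e2
            omega
      · have e1 := hD i' i.val
        have e2 := hDx i.val
        rw [if_pos hlt] at e1
        rw [if_neg (lt_irrefl _)] at e2
        omega
    · have hgt : i.val < i'.val := by
        rcases Nat.lt_or_eq_of_le hge with h | h
        · exact h
        · exact absurd (Fin.ext h.symm) hi'
      refine (le_sup_right : Hi 1 (i.val + 1) x ≤ _) (Submodule.smul_mem _ _ ?_)
      unfold Hi
      refine Submodule.subset_span ⟨x' i', rfl, ?_, ?_⟩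
      · have e1 := hD i' (i.val + 1)
        have e2 := hDx (i.val + 1)
        rw [if_neg (by omega)] at e1
        rw [if_pos (by omega)] at e2
        omega
      · intro p' hp'
        have e1 := hD i' p'
        have e2 := hDx p'
        rw [if_pos (show i.val < p' by omega)] at e2
        rw [e1, e2]
        split_ifs <;> omega
  have h5 : PowerSeries.coeff r (EEp i.val x * inv i) • u x =
      ∑ i' : Fin n, PowerSeries.coeff r (EEp i.val x * inv i') • u (x' i') -
      ∑ i' ∈ Finset.univ.erase i, PowerSeries.coeff r (EEp i.val x * inv i') • u (x' i') := by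
    rw [← Finset.add_sum_erase Finset.univ _ (Finset.mem_univ i), hx]
    abel
  rw [h5]
  refine Submodule.sub_mem _ ((le_sup_left.trans le_sup_left : Rel a b (Fin n) ≤ _) h1) ?_
  exact Submodule.sum_mem _ (fun i' hi' => h3 i' (Finset.ne_of_mem_erase hi'))

/-- RLQ -/
theorem thm_RLQ (hP : St_RLP) : St_RLQ := by
  intro n a b r i x hw hr
  unfold wd at hw
  have hcase : (∃ s₀, x.1 s₀ = i) ∨ ∃ t₀, x.2 t₀ = i := by
    by_contra hcon
    push Not at hcon
    obtain ⟨h1, h2⟩ := hcon
    rw [Finset.filter_false_of_mem (fun s _ => h1 s),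
      Finset.filter_false_of_mem (fun t _ => h2 t)] at hw
    simp at hw
  rcases hcase with ⟨s₀, hs₀⟩ | ⟨t₀, ht₀⟩
  · refine rlq_main hP r i x (fun i' => (Function.update x.1 s₀ i', x.2))
      (fun p => (∑ s ∈ Finset.univ.erase s₀, if (x.1 s).val < p then 1 else 0) +
        ∑ t, if (x.2 t).val < p then 1 else 0) ?_ ?_ ?_ ?_ hr
    · show (Function.update x.1 s₀ i, x.2) = x
      rw [← hs₀, Function.update_eq_self]
    · intro i' p
      rw [rlq_Dp]
      show (∑ s, if (Function.update x.1 s₀ i' s).val < p then 1 else 0) + _ = _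
      rw [rlq_sum (fun j : Fin n => if j.val < p then 1 else 0), add_assoc]
    · intro i' hi'
      rw [rlq_EEp, rlq_EEp]
      have e1 := rlq_prod (fun j : Fin n => if j.val < i.val then inv j else 1) x.1 s₀ i'
      have e2 := rlq_prod (fun j : Fin n => if j.val < i.val then inv j else 1) x.1 s₀ i
      simp only [lt_irrefl, if_false, one_mul, if_pos hi'] at e1 e2
      rw [← hs₀, Function.update_eq_self, hs₀] at e2
      show _ * (∏ s, if (Function.update x.1 s₀ i' s).val < i.val then
        inv (Function.update x.1 s₀ i' s) else 1) * _ = _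
      rw [e1, e2]
      ring
    · intro q
      refine (le_sup_right : _ ≤ Rel a b (Fin n)) (Submodule.subset_span (Or.inl ?_))
      exact ⟨s₀, x, q, rfl⟩
  · refine rlq_main hP r i x (fun i' => (x.1, Function.update x.2 t₀ i'))
      (fun p => (∑ s, if (x.1 s).val < p then 1 else 0) +
        ∑ t ∈ Finset.univ.erase t₀, if (x.2 t).val < p then 1 else 0) ?_ ?_ ?_ ?_ hr
    · show (x.1, Function.update x.2 t₀ i) = x
      rw [← ht₀, Function.update_eq_self]
    · intro i' p
      rw [rlq_Dp]
      show _ + (∑ t, if (Function.update x.2 t₀ i' t).val < p then 1 else 0) = _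
      rw [rlq_sum (fun j : Fin n => if j.val < p then 1 else 0)]
      ring
    · intro i' hi'
      rw [rlq_EEp, rlq_EEp]
      have e1 := rlq_prod (fun j : Fin n => if j.val < i.val then inv j else 1) x.2 t₀ i'
      have e2 := rlq_prod (fun j : Fin n => if j.val < i.val then inv j else 1) x.2 t₀ i
      simp only [lt_irrefl, if_false, one_mul, if_pos hi'] at e1 e2
      rw [← ht₀, Function.update_eq_self, ht₀] at e2
      show _ * (∏ t, if (Function.update x.2 t₀ i' t).val < i.val then
        inv (Function.update x.2 t₀ i' t) else 1) = _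
      rw [e1, e2]
      ring
    · intro q
      refine (le_sup_right : _ ≤ Rel a b (Fin n)) (Submodule.subset_span (Or.inr ?_))
      exact ⟨t₀, x, q, rfl⟩

end RLQ

end MDC
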