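import Pool.Agent.MDC.StC

/-!
# MDC: [SBP] separating polynomials
-/

set_option autoImplicit false

open MvPolynomial

namespace MDC

section sbp

variable {a b a1 a2 b1 b2 : ℕ} {ι : Type} [Fintype ι] [DecidableEq ι] {B : Finset ι}

lemma SBP_ex1 (p : Ix a1 b1 (In B) × Ix a2 b2 (Out B)) (s : S (In B)) :
    (rename Subtype.val s : S ι) • (u2 p : T2 a1 a2 b1 b2 B) = ex1 (s • u p.1) p.2 := by
  funext x
  simp only [u2, ex1, u, Pi.smul_apply, smul_eq_mul, Pi.single_apply]
  by_cases h2 : x.2 = p.2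
  · by_cases h1 : x.1 = p.1
    · have : x = p := Prod.ext h1 h2
      simp [this]
    · have : x ≠ p := fun h => h1 (by rw [h])
      simp [this, h1]
  · have : x ≠ p := fun h => h2 (by rw [h])
    simp [this, h2]

lemma SBP_ex2 (p : Ix a1 b1 (In B) × Ix a2 b2 (Out B)) (s : S (Out B)) :
    (rename Subtype.val s : S ι) • (u2 p : T2 a1 a2 b1 b2 B) = ex2 p.1 (s • u p.2) := by
  funext x
  simp only [u2, ex2, u, Pi.smul_apply, smul_eq_mul, Pi.single_apply]
  by_cases h1 : x.1 = p.1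
  · by_cases h2 : x.2 = p.2
    · have : x = p := Prod.ext h1 h2
      simp [this]
    · have : x ≠ p := fun h => h2 (by rw [h])
      simp [this, h2]
  · have : x ≠ p := fun h => h1 (by rw [h])
    simp [this, h1]

lemma SBP_sum (g : T2 a1 a2 b1 b2 B) : g = ∑ p, g p • u2 p := by
  funext x
  simp [Finset.sum_apply, u2, Pi.single_apply]

lemma SBP_in (K : Submodule (S (In B)) (T a1 b1 (In B)))
    (K' : Submodule (S (Out B)) (T a2 b2 (Out B))) (s : S (In B))
    (hs : ∀ c : T a1 b1 (In B), s • c ∈ K) (g : T2 a1 a2 b1 b2 B) :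
    (rename Subtype.val s : S ι) • g ∈ K2 K K' := by
  rw [SBP_sum g, Finset.smul_sum]
  refine Submodule.sum_mem _ (fun p _ => ?_)
  rw [smul_comm, SBP_ex1]
  exact Submodule.smul_mem _ _ (Submodule.subset_span (Or.inl ⟨_, hs _, _, rfl⟩))

lemma SBP_out (K : Submodule (S (In B)) (T a1 b1 (In B)))
    (K' : Submodule (S (Out B)) (T a2 b2 (Out B))) (s : S (Out B))
    (hs : ∀ c : T a2 b2 (Out B), s • c ∈ K') (g : T2 a1 a2 b1 b2 B) :
    (rename Subtype.val s : S ι) • g ∈ K2 K K' := by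
  rw [SBP_sum g, Finset.smul_sum]
  refine Submodule.sum_mem _ (fun p _ => ?_)
  rw [smul_comm, SBP_ex2]
  exact Submodule.smul_mem _ _ (Submodule.subset_span (Or.inr ⟨_, _, hs _, rfl⟩))

lemma SBP_nil {m : ℕ} (K : Submodule (S ι) (T a b ι)) (z : Fin m → ℂ) (h : Nil K z) :
    ∃ N : ℕ, ∀ M : ℕ, N ≤ M → ∀ (i : ι) (c : T a b ι),
      (∏ l, ((X i : S ι) - C (z l))) ^ M • c ∈ K := by
  choose N hN using h
  refine ⟨Finset.univ.sup N, fun M hM i c => ?_⟩
  have h1 : N i ≤ M := (Finset.le_sup (Finset.mem_univ i)).trans hM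
  have h2 : M = (M - N i) + N i := by omega
  rw [h2, pow_add, mul_smul]
  exact Submodule.smul_mem _ _ (hN i c)

/-- `∏_{i ∈ B} P(X i) * ∏_{i ∉ B} (1 - P(X i))` -/
noncomputable def SBP_s (P : Polynomial ℂ) (B : Finset ι) : S ι :=
  (∏ i ∈ B, Polynomial.aeval (X i : S ι) P) * ∏ i ∈ Bᶜ, (1 - Polynomial.aeval (X i : S ι) P)

lemma SBP_ren (P : Polynomial ℂ) (w : Equiv.Perm ι) (B : Finset ι) :
    rename w (SBP_s P B) = SBP_s P (B.map w.toEmbedding) := by
  have h1 : ∀ i : ι, rename w (Polynomial.aeval (X i : S ι) P) =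
      Polynomial.aeval (X (w i) : S ι) P := by
    intro i
    rw [← Polynomial.aeval_algHom_apply, rename_X]
  have h2 : (B.map w.toEmbedding)ᶜ = Bᶜ.map w.toEmbedding := by
    ext i
    simp [Finset.mem_map_equiv]
  unfold SBP_s
  rw [h2, Finset.prod_map, Finset.prod_map]
  simp only [map_mul, map_prod, map_sub, map_one, h1]
  rfl

/-- products of elements acting as the identity modulo `K` -/
lemma SBP_prod {M : Type} [AddCommGroup M] [Module (S ι) M] (K : Submodule (S ι) M)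
    (t : Finset ι) (f : ι → S ι) (h : ∀ i ∈ t, ∀ g : M, f i • g - g ∈ K) :
    ∀ g : M, (∏ i ∈ t, f i) • g - g ∈ K := by
  induction t using Finset.induction_on with
  | empty => intro g; simp
  | insert i t hi ih =>
    intro g
    rw [Finset.prod_insert hi]
    have e : (f i * ∏ i ∈ t, f i) • g - g =
        f i • ((∏ i ∈ t, f i) • g - g) + (f i • g - g) := by
      rw [smul_sub, mul_smul]; abel
    rw [e]
    refine K.add_mem (K.smul_mem _ (ih (fun j hj => h j (Finset.mem_insert_of_mem hj)) g)) ?_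
    exact h i (Finset.mem_insert_self i t) g

end sbp

theorem thm_SBP : St_SBP := by
  intro ι _ _ a b m z K K' hz hNil
  -- a common exponent
  have h1 : ∀ q ∈ blk a b ι, ∃ N : ℕ, ∀ M : ℕ, N ≤ M →
      (∀ (i : In q.1) (c : T q.2.1 q.2.2 (In q.1)),
        (∏ _l : Fin 1, ((X i : S (In q.1)) - C (z (Fin.last m)))) ^ M • c ∈ K q) ∧
      (∀ (i : Out q.1) (c : T (a - q.2.1) (b - q.2.2) (Out q.1)),
        (∏ l : Fin m, ((X i : S (Out q.1)) - C (z l.castSucc))) ^ M • c ∈ K' q) := by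
    intro q hq
    obtain ⟨N1, hN1⟩ := SBP_nil _ _ (hNil q hq).1
    obtain ⟨N2, hN2⟩ := SBP_nil _ _ (hNil q hq).2
    exact ⟨max N1 N2, fun M hM => ⟨hN1 M (le_trans (le_max_left _ _) hM),
      hN2 M (le_trans (le_max_right _ _) hM)⟩⟩
  choose! f hf using h1
  set N : ℕ := (blk a b ι).sup f with hN
  have hfN : ∀ q ∈ blk a b ι, f q ≤ N := fun q hq => Finset.le_sup hq
  -- the polynomial
  have hcop : IsCoprime ((Polynomial.X - Polynomial.C (z (Fin.last m))) ^ N)
      ((∏ l : Fin m, (Polynomial.X - Polynomial.C (z l.castSucc))) ^ N) := by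
    refine IsCoprime.pow (IsCoprime.prod_right (fun l _ => ?_))
    refine Polynomial.isCoprime_X_sub_C_of_isUnit_sub ?_
    refine IsUnit.mk0 _ (sub_ne_zero.mpr (fun h => ?_))
    exact absurd (hz h) (Fin.castSucc_lt_last l).ne'
  obtain ⟨U, W, hUW⟩ := hcop
  set P : Polynomial ℂ := W * (∏ l : Fin m, (Polynomial.X - Polynomial.C (z l.castSucc))) ^ N
    with hP
  have hP1 : 1 - P = U * (Polynomial.X - Polynomial.C (z (Fin.last m))) ^ N := by
    rw [hP, ← hUW]; ring
  refine ⟨SBP_s P, SBP_ren P, ?_⟩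
  intro q hq
  have hin : ∀ i ∈ q.1, ∀ g : T2 q.2.1 (a - q.2.1) q.2.2 (b - q.2.2) q.1,
      (1 - Polynomial.aeval (X i : S ι) P) • g ∈ K2 (K q) (K' q) := by
    intro i hi g
    have e1 : (1 - Polynomial.aeval (X i : S ι) P) = Polynomial.aeval (X i : S ι) U *
        (rename Subtype.val ((∏ _l : Fin 1, ((X (⟨i, hi⟩ : In q.1) : S (In q.1)) -
          C (z (Fin.last m)))) ^ N) : S ι) := by
      have e2 : (1 - Polynomial.aeval (X i : S ι) P) = Polynomial.aeval (X i : S ι) (1 - P) := by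
        simp
      rw [e2, hP1]
      simp [map_mul, map_pow, map_sub, MvPolynomial.algebraMap_eq]
    rw [e1, mul_smul]
    exact Submodule.smul_mem _ _ (SBP_in _ _ _ ((hf q hq N (hfN q hq)).1 ⟨i, hi⟩) g)
  have hout : ∀ i, i ∉ q.1 → ∀ g : T2 q.2.1 (a - q.2.1) q.2.2 (b - q.2.2) q.1,
      (Polynomial.aeval (X i : S ι) P) • g ∈ K2 (K q) (K' q) := by
    intro i hi g
    have e1 : (Polynomial.aeval (X i : S ι) P) = Polynomial.aeval (X i : S ι) W *
        (rename Subtype.val ((∏ l : Fin m, ((X (⟨i, hi⟩ : Out q.1) : S (Out q.1)) -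
          C (z l.castSucc))) ^ N) : S ι) := by
      rw [hP]
      simp [map_mul, map_pow, map_sub, map_prod, MvPolynomial.algebraMap_eq]
    rw [e1, mul_smul]
    exact Submodule.smul_mem _ _ (SBP_out _ _ _ ((hf q hq N (hfN q hq)).2 ⟨i, hi⟩) g)
  constructor
  · intro g
    have e3 : ∀ g : T2 q.2.1 (a - q.2.1) q.2.2 (b - q.2.2) q.1,
        (∏ i ∈ q.1, Polynomial.aeval (X i : S ι) P) • g - g ∈ K2 (K q) (K' q) := by
      refine SBP_prod _ _ _ (fun i hi g => ?_)
      have := (K2 (K q) (K' q)).neg_mem (hin i hi g)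
      rw [sub_smul, one_smul, neg_sub] at this
      exact this
    have e4 : ∀ g : T2 q.2.1 (a - q.2.1) q.2.2 (b - q.2.2) q.1,
        (∏ i ∈ q.1ᶜ, (1 - Polynomial.aeval (X i : S ι) P)) • g - g ∈ K2 (K q) (K' q) := by
      refine SBP_prod _ _ _ (fun i hi g => ?_)
      have := (K2 (K q) (K' q)).neg_mem (hout i (Finset.mem_compl.mp hi) g)
      rw [sub_smul, one_smul]
      have e5 : g - Polynomial.aeval (X i : S ι) P • g - g =
          -(Polynomial.aeval (X i : S ι) P • g) := by abel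
      rw [e5]; exact this
    unfold SBP_s
    rw [mul_smul]
    have e6 : ∀ (s s' : S ι), s • s' • g - g = s • (s' • g - g) + (s • g - g) := by
      intro s s'
      rw [smul_sub]; abel
    rw [e6]
    exact Submodule.add_mem _ (Submodule.smul_mem _ _ (e4 g)) (e3 g)
  · intro B' hB' g
    have h7 : (∃ i ∈ B', i ∉ q.1) ∨ ∃ i ∈ q.1, i ∉ B' := by
      by_contra hcon
      push Not at hcon
      exact hB' (Finset.Subset.antisymm (fun i hi => hcon.1 i hi) (fun i hi => hcon.2 i hi))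
    unfold SBP_s
    rcases h7 with ⟨i, hi, hi'⟩ | ⟨i, hi, hi'⟩
    · rw [← Finset.mul_prod_erase B' _ hi, mul_assoc, mul_comm, mul_smul]
      exact Submodule.smul_mem _ _ (hout i hi' g)
    · rw [← Finset.mul_prod_erase B'ᶜ _ (Finset.mem_compl.mpr hi'), mul_left_comm, mul_comm,
        mul_smul]
      exact Submodule.smul_mem _ _ (hin i hi g)

end MDC
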