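import Pool.Agent.MDC.StE

/-!
# MDC, module SLT: the `sl_2` argument (helper49)
-/

set_option autoImplicit false

open MvPolynomial

namespace MDC

section slt

variable {a b n : ℕ}

/-- antisymmetric functions -/
def SLT_An (c : T a b (Fin n)) : Prop :=
  (∀ (τ : Equiv.Perm (Fin a)) (x : Ix a b (Fin n)),
      c (x.1 ∘ τ, x.2) = ((Equiv.Perm.sign τ : ℤ) : ℂ) • c x) ∧
  (∀ (τ : Equiv.Perm (Fin b)) (x : Ix a b (Fin n)),
      c (x.1, x.2 ∘ τ) = ((Equiv.Perm.sign τ : ℤ) : ℂ) • c x)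

theorem SLT_sgn_mul {m : ℕ} (τ : Equiv.Perm (Fin m)) (p : S (Fin n)) :
    ((Equiv.Perm.sign τ : ℤ) : ℂ) • ((Equiv.Perm.sign τ : ℤ) : ℂ) • p = p := by
  rw [smul_smul, ← Int.cast_mul, ← Units.val_mul, Int.units_mul_self, Units.val_one,
    Int.cast_one, one_smul]

theorem SLT_Har_An {c : T a b (Fin n)} (h : c ∈ Har2 a b n) : SLT_An c := ⟨h.1, h.2.1⟩

/-- exchange of the two sets of anticommuting variables -/
noncomputable def SLT_F : T a b (Fin n) →ₗ[ℂ] T b a (Fin n) where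
  toFun c := fun x => c (x.2, x.1)
  map_add' _ _ := rfl
  map_smul' _ _ := rfl

theorem SLT_F_apply (c : T a b (Fin n)) (x : Ix b a (Fin n)) : SLT_F c x = c (x.2, x.1) := rfl

theorem SLT_F_F (c : T a b (Fin n)) : SLT_F (SLT_F c) = c := rfl

theorem SLT_F_An {c : T a b (Fin n)} (h : SLT_An c) : SLT_An (SLT_F c) :=
  ⟨fun τ x => h.2 τ (x.2, x.1), fun τ x => h.1 τ (x.2, x.1)⟩

theorem SLT_F_Har {c : T a b (Fin n)} (h : c ∈ Har2 a b n) : SLT_F c ∈ Har2 b a n := by
  obtain ⟨h1, h2, h3, h4, h5, h6⟩ := h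
  exact ⟨fun τ x => h2 τ (x.2, x.1), fun τ x => h1 τ (x.2, x.1),
    fun s x k => h4 s (x.2, x.1) k, fun t x k => h3 t (x.2, x.1) k,
    fun s t x k => h5 t s (x.2, x.1) k, fun x k hk => h6 (x.2, x.1) k hk⟩

theorem SLT_F_act (w : Equiv.Perm (Fin n)) (c : T a b (Fin n)) :
    SLT_F (actT w c) = actT w (SLT_F c) := rfl

/-- the operator `e` -/
noncomputable def SLT_e : T a (b + 1) (Fin n) →ₗ[ℂ] T (a + 1) b (Fin n) where
  toFun c := fun x => ∑ s : Fin (a + 1), ((Equiv.Perm.sign (Equiv.swap 0 s) : ℤ) : ℂ) •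
    c (Fin.tail (x.1 ∘ Equiv.swap 0 s), Fin.cons (x.1 s) x.2)
  map_add' c c' := by
    funext x
    simp only [Pi.add_apply, smul_add, Finset.sum_add_distrib]
  map_smul' r c := by
    funext x
    simp only [Pi.smul_apply, RingHom.id_apply, Finset.smul_sum]
    refine Finset.sum_congr rfl fun s _ => ?_
    rw [smul_comm]

theorem SLT_e_apply (c : T a (b + 1) (Fin n)) (x : Ix (a + 1) b (Fin n)) :
    SLT_e c x = ∑ s : Fin (a + 1), ((Equiv.Perm.sign (Equiv.swap 0 s) : ℤ) : ℂ) •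
      c (Fin.tail (x.1 ∘ Equiv.swap 0 s), Fin.cons (x.1 s) x.2) := rfl

theorem SLT_tail_swap (i : Fin n) (J : Fin a → Fin n) (s : Fin a) :
    Fin.tail ((Fin.cons i J : Fin (a + 1) → Fin n) ∘ Equiv.swap 0 s.succ) =
      Function.update J s i := by
  funext j
  show (Fin.cons i J : Fin (a + 1) → Fin n) (Equiv.swap 0 s.succ j.succ) = _
  by_cases hj : j = s
  · subst hj
    rw [Equiv.swap_apply_right, Fin.cons_zero, Function.update_self]
  · rw [Equiv.swap_apply_of_ne_of_ne (Fin.succ_ne_zero j)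
      (fun h => hj (Fin.succ_injective _ h)), Fin.cons_succ, Function.update_of_ne hj]

theorem SLT_e_cons (c : T a (b + 1) (Fin n)) (i : Fin n) (J : Fin a → Fin n)
    (K : Fin b → Fin n) :
    SLT_e c (Fin.cons i J, K) = c (J, Fin.cons i K) -
      ∑ s : Fin a, c (Function.update J s i, Fin.cons (J s) K) := by
  rw [SLT_e_apply, Fin.sum_univ_succ, sub_eq_add_neg, ← Finset.sum_neg_distrib]
  congr 1
  · rw [Equiv.swap_self, Equiv.Perm.sign_refl, Units.val_one, Int.cast_one, one_smul]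
    rfl
  · refine Finset.sum_congr rfl fun s _ => ?_
    rw [Equiv.Perm.sign_swap (Fin.succ_ne_zero s).symm, SLT_tail_swap]
    simp

theorem SLT_cons_self (J : Fin (a + 1) → Fin n) : Fin.cons (J 0) (Fin.tail J) = J :=
  Fin.cons_self_tail J

theorem SLT_cons_comp (i : Fin n) (K : Fin b → Fin n) (τ : Equiv.Perm (Fin b)) :
    (Fin.cons i (K ∘ τ) : Fin (b + 1) → Fin n) =
      (Fin.cons i K : Fin (b + 1) → Fin n) ∘ Equiv.Perm.decomposeFin.symm (0, τ) := by
  funext j
  refine Fin.cases ?_ (fun j => ?_) j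
  · simp
  · simp

theorem SLT_decomp (h : Equiv.Perm (Fin (a + 1))) (h0 : h 0 = 0) :
    ∃ τ : Equiv.Perm (Fin a), Equiv.Perm.sign h = Equiv.Perm.sign τ ∧
      ∀ J : Fin (a + 1) → Fin n, Fin.tail (J ∘ h) = Fin.tail J ∘ τ := by
  obtain ⟨⟨p, τ⟩, rfl⟩ := Equiv.Perm.decomposeFin.symm.surjective h
  have hp : p = 0 := by
    rw [Equiv.Perm.decomposeFin_symm_apply_zero] at h0
    exact h0
  subst hp
  refine ⟨τ, ?_, fun J => ?_⟩
  · rw [Equiv.Perm.decomposeFin.symm_sign]
    simp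
  · funext j
    show J (Equiv.Perm.decomposeFin.symm (0, τ) j.succ) = J (τ j).succ
    rw [Equiv.Perm.decomposeFin_symm_apply_succ, Equiv.swap_self, Equiv.refl_apply]

theorem SLT_e_An {c : T a (b + 1) (Fin n)} (h : SLT_An c) : SLT_An (SLT_e c) := by
  obtain ⟨h1, h2⟩ := h
  refine ⟨fun τ x => ?_, fun τ x => ?_⟩
  · rw [SLT_e_apply, SLT_e_apply, Finset.smul_sum]
    refine Eq.trans (Finset.sum_congr rfl fun s _ => ?_) (Equiv.sum_comp τ _)
    obtain ⟨ρ, hρ⟩ : ∃ ρ : Equiv.Perm (Fin (a + 1)),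
        ρ = Equiv.swap 0 (τ s) * (τ * Equiv.swap 0 s) := ⟨_, rfl⟩
    have hρ0 : ρ 0 = 0 := by
      rw [hρ]
      simp
    have hτρ : τ * Equiv.swap 0 s = Equiv.swap 0 (τ s) * ρ := by
      rw [hρ, ← mul_assoc, Equiv.swap_mul_self, one_mul]
    obtain ⟨ρ', hs, ht⟩ := SLT_decomp (n := n) ρ hρ0
    have e1 : Fin.tail ((x.1 ∘ τ) ∘ Equiv.swap 0 s) =
        Fin.tail (x.1 ∘ Equiv.swap 0 (τ s)) ∘ ρ' := by
      rw [← ht]
      congr 1
      funext j
      exact congrArg x.1 (Equiv.congr_fun hτρ j)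
    show ((Equiv.Perm.sign (Equiv.swap 0 s) : ℤ) : ℂ) •
      c (Fin.tail ((x.1 ∘ τ) ∘ Equiv.swap 0 s), Fin.cons (x.1 (τ s)) x.2) = _
    rw [e1, h1 ρ' (Fin.tail (x.1 ∘ Equiv.swap 0 (τ s)), Fin.cons (x.1 (τ s)) x.2), smul_smul,
      smul_smul, ← hs, hρ]
    congr 1
    rw [← Int.cast_mul, ← Int.cast_mul, ← Units.val_mul, ← Units.val_mul]
    congr 2
    rw [Equiv.Perm.sign_mul, Equiv.Perm.sign_mul]
    have h3 := Int.units_mul_self (Equiv.Perm.sign (Equiv.swap 0 s))
    calc Equiv.Perm.sign (Equiv.swap 0 s) * (Equiv.Perm.sign (Equiv.swap 0 (τ s)) *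
          (Equiv.Perm.sign τ * Equiv.Perm.sign (Equiv.swap 0 s))) =
        (Equiv.Perm.sign (Equiv.swap 0 s) * Equiv.Perm.sign (Equiv.swap 0 s)) *
          (Equiv.Perm.sign τ * Equiv.Perm.sign (Equiv.swap 0 (τ s))) := by
            rw [mul_comm (Equiv.Perm.sign (Equiv.swap 0 (τ s))), mul_assoc, mul_assoc,
              mul_comm (Equiv.Perm.sign τ)
                (Equiv.Perm.sign (Equiv.swap 0 s) * Equiv.Perm.sign (Equiv.swap 0 (τ s))),
              mul_assoc, mul_comm (Equiv.Perm.sign τ)]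
      _ = _ := by rw [h3, one_mul]
  · rw [SLT_e_apply, SLT_e_apply, Finset.smul_sum]
    refine Finset.sum_congr rfl fun s _ => ?_
    show ((Equiv.Perm.sign (Equiv.swap 0 s) : ℤ) : ℂ) •
      c (Fin.tail (x.1 ∘ Equiv.swap 0 s), Fin.cons (x.1 s) (x.2 ∘ τ)) = _
    rw [SLT_cons_comp, h2 _ (Fin.tail (x.1 ∘ Equiv.swap 0 s), Fin.cons (x.1 s) x.2),
      Equiv.Perm.decomposeFin.symm_sign, smul_comm]
    simp

/-- two equal entries in the second tuple -/
theorem SLT_eq0 {c : T a b (Fin n)} (h : SLT_An c) (x : Ix a b (Fin n)) (t t' : Fin b)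
    (ht : t ≠ t') (hx : x.2 t = x.2 t') : c x = 0 := by
  have h1 := h.2 (Equiv.swap t t') x
  have h2 : x.2 ∘ Equiv.swap t t' = x.2 := by
    funext j
    show x.2 (Equiv.swap t t' j) = x.2 j
    by_cases h3 : j = t
    · subst h3
      rw [Equiv.swap_apply_left, hx]
    · by_cases h4 : j = t'
      · subst h4
        rw [Equiv.swap_apply_right, hx]
      · rw [Equiv.swap_apply_of_ne_of_ne h3 h4]
  rw [h2, Equiv.Perm.sign_swap ht] at h1
  have h5 : c x = -c x := by
    exact h1.trans (by simp)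
  have h7 : (2 : ℂ) • c x = 0 := by
    rw [two_smul]
    nth_rewrite 1 [h5]
    exact neg_add_cancel _
  exact (smul_eq_zero.1 h7).resolve_left two_ne_zero

theorem SLT_upd_swap (J : Fin (a + 1) → Fin n) (s : Fin (a + 1)) (i : Fin n) :
    Function.update J s i = (Fin.cons i (Fin.tail (J ∘ Equiv.swap 0 s)) :
      Fin (a + 1) → Fin n) ∘ Equiv.swap 0 s := by
  funext j
  show Function.update J s i j = (Fin.cons i (Fin.tail (J ∘ Equiv.swap 0 s)) :
      Fin (a + 1) → Fin n) (Equiv.swap 0 s j)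
  by_cases hj : j = s
  · subst hj
    rw [Equiv.swap_apply_right, Fin.cons_zero, Function.update_self]
  · have h1 : Equiv.swap 0 s j ≠ 0 := by
      intro h
      apply hj
      have h2 := congrArg (Equiv.swap 0 s) h
      rw [Equiv.swap_apply_self, Equiv.swap_apply_left] at h2
      exact h2
    obtain ⟨k, hk⟩ := Fin.exists_succ_eq.2 h1
    rw [← hk, Fin.cons_succ, Function.update_of_ne hj]
    show J j = J (Equiv.swap 0 s k.succ)
    rw [hk, Equiv.swap_apply_self]

theorem SLT_e_upd {c : T (a + 1) b (Fin n)} (h : SLT_An c) (J : Fin (a + 1) → Fin n)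
    (K : Fin b → Fin n) (s : Fin (a + 1)) (i : Fin n) :
    c (Function.update J s i, K) = ((Equiv.Perm.sign (Equiv.swap 0 s) : ℤ) : ℂ) •
      c (Fin.cons i (Fin.tail (J ∘ Equiv.swap 0 s)), K) := by
  rw [SLT_upd_swap]
  exact h.1 (Equiv.swap 0 s) (Fin.cons i (Fin.tail (J ∘ Equiv.swap 0 s)), K)

theorem SLT_e_Har {c : T a (b + 1) (Fin n)} (h : c ∈ Har2 a (b + 1) n) :
    SLT_e c ∈ Har2 (a + 1) b n := by
  have hA := SLT_Har_An h
  have hB := SLT_e_An hA
  obtain ⟨h1, h2, h3, h4, h5, h6⟩ := h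
  refine ⟨hB.1, hB.2, fun s x k => ?_, fun t x k => ?_, fun s t x k => ?_, fun x k hk => ?_⟩
  · have e1 : ∀ i : Fin n, SLT_e c (Function.update x.1 s i, x.2) =
        ((Equiv.Perm.sign (Equiv.swap 0 s) : ℤ) : ℂ) •
          (c (Fin.tail (x.1 ∘ Equiv.swap 0 s), Fin.cons i x.2) -
          ∑ s' : Fin a, c (Function.update (Fin.tail (x.1 ∘ Equiv.swap 0 s)) s' i,
            Fin.cons (Fin.tail (x.1 ∘ Equiv.swap 0 s) s') x.2)) := by
      intro i
      rw [SLT_e_upd hB, SLT_e_cons]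
    simp only [e1, map_smul, map_sub, map_sum]
    rw [← Finset.smul_sum, Finset.sum_sub_distrib, Finset.sum_comm]
    have e2 : ∑ i : Fin n, MDH.dmon (Finsupp.single i k)
        (c (Fin.tail (x.1 ∘ Equiv.swap 0 s), Fin.cons i x.2)) = 0 := by
      have e3 := h4 0 (Fin.tail (x.1 ∘ Equiv.swap 0 s), Fin.cons (x.1 0) x.2) k
      simpa only [Fin.update_cons_zero] using e3
    have e4 : ∀ s' : Fin a, ∑ i : Fin n, MDH.dmon (Finsupp.single i k)
        (c (Function.update (Fin.tail (x.1 ∘ Equiv.swap 0 s)) s' i,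
          Fin.cons (Fin.tail (x.1 ∘ Equiv.swap 0 s) s') x.2)) = 0 := by
      intro s'
      exact h3 s' (Fin.tail (x.1 ∘ Equiv.swap 0 s),
        Fin.cons (Fin.tail (x.1 ∘ Equiv.swap 0 s) s') x.2) k
    rw [e2, Finset.sum_eq_zero (fun s' _ => e4 s'), sub_zero, smul_zero]
  · simp only [SLT_e_apply, map_sum, map_smul]
    rw [Finset.sum_comm]
    refine Finset.sum_eq_zero fun s _ => ?_
    rw [← Finset.smul_sum]
    have e1 := h4 t.succ (Fin.tail (x.1 ∘ Equiv.swap 0 s), Fin.cons (x.1 s) x.2) k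
    simp only [← Fin.cons_update] at e1
    rw [e1, smul_zero]
  · have e1 : ∀ i : Fin n, SLT_e c (Function.update x.1 s i, Function.update x.2 t i) =
        -(((Equiv.Perm.sign (Equiv.swap 0 s) : ℤ) : ℂ) •
          ∑ s' : Fin a, c (Function.update (Fin.tail (x.1 ∘ Equiv.swap 0 s)) s' i,
            Fin.cons (Fin.tail (x.1 ∘ Equiv.swap 0 s) s') (Function.update x.2 t i))) := by
      intro i
      rw [SLT_e_upd hB, SLT_e_cons]
      have e2 : c (Fin.tail (x.1 ∘ Equiv.swap 0 s), Fin.cons i (Function.update x.2 t i)) = 0 := by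
        refine SLT_eq0 hA _ 0 t.succ (Fin.succ_ne_zero t).symm ?_
        show (Fin.cons i (Function.update x.2 t i) : Fin (b + 1) → Fin n) 0 =
          (Fin.cons i (Function.update x.2 t i) : Fin (b + 1) → Fin n) t.succ
        rw [Fin.cons_zero, Fin.cons_succ, Function.update_self]
      rw [e2, zero_sub, smul_neg]
    simp only [e1, map_neg, map_smul, map_sum]
    rw [Finset.sum_neg_distrib, ← Finset.smul_sum, Finset.sum_comm]
    have e4 : ∀ s' : Fin a, ∑ i : Fin n, MDH.dmon (Finsupp.single i k)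
        (c (Function.update (Fin.tail (x.1 ∘ Equiv.swap 0 s)) s' i,
          Fin.cons (Fin.tail (x.1 ∘ Equiv.swap 0 s) s') (Function.update x.2 t i))) = 0 := by
      intro s'
      have e5 := h5 s' t.succ (Fin.tail (x.1 ∘ Equiv.swap 0 s),
        Fin.cons (Fin.tail (x.1 ∘ Equiv.swap 0 s) s') x.2) k
      simpa only [← Fin.cons_update] using e5
    rw [Finset.sum_eq_zero (fun s' _ => e4 s'), smul_zero, neg_zero]
  · simp only [SLT_e_apply, map_sum, map_smul]
    rw [Finset.sum_comm]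
    refine Finset.sum_eq_zero fun s _ => ?_
    rw [← Finset.smul_sum, h6 _ k hk, smul_zero]

theorem SLT_e_act (w : Equiv.Perm (Fin n)) (c : T a (b + 1) (Fin n)) :
    SLT_e (actT w c) = actT w (SLT_e c) := by
  funext x
  show ∑ s : Fin (a + 1), ((Equiv.Perm.sign (Equiv.swap 0 s) : ℤ) : ℂ) •
      rename w (c (fun j => w⁻¹ (Fin.tail (x.1 ∘ Equiv.swap 0 s) j),
        fun j => w⁻¹ ((Fin.cons (x.1 s) x.2 : Fin (b + 1) → Fin n) j))) =
    rename w (∑ s : Fin (a + 1), ((Equiv.Perm.sign (Equiv.swap 0 s) : ℤ) : ℂ) •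
      c (Fin.tail ((fun j => w⁻¹ (x.1 j)) ∘ Equiv.swap 0 s),
        Fin.cons (w⁻¹ (x.1 s)) (fun j => w⁻¹ (x.2 j))))
  rw [map_sum]
  refine Finset.sum_congr rfl fun s _ => ?_
  rw [map_smul]
  congr 3
  refine Prod.ext rfl ?_
  funext j
  refine Fin.cases ?_ (fun j => ?_) j
  · rfl
  · rfl

/-- the exchange operator -/
noncomputable def SLT_X (c : T a b (Fin n)) : T a b (Fin n) := fun x =>
  ∑ s : Fin a, ∑ t : Fin b, c (Function.update x.1 s (x.2 t), Function.update x.2 t (x.1 s))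

theorem SLT_X_F (c : T a b (Fin n)) : SLT_X (SLT_F c) = SLT_F (SLT_X c) := by
  funext x
  show ∑ s : Fin b, ∑ t : Fin a, c (Function.update x.2 t (x.1 s),
      Function.update x.1 s (x.2 t)) =
    ∑ s : Fin a, ∑ t : Fin b, c (Function.update x.2 s (x.1 t), Function.update x.1 t (x.2 s))
  rw [Finset.sum_comm]

theorem SLT_ef {c : T (a + 1) b (Fin n)} (h : SLT_An c) :
    SLT_e (SLT_F (SLT_e (SLT_F c))) = ((a : ℂ) + 1) • c - SLT_X c := by
  funext x
  have hs : ∀ s : Fin (a + 1), ((Equiv.Perm.sign (Equiv.swap 0 s) : ℤ) : ℂ) •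
      SLT_F (SLT_e (SLT_F c)) (Fin.tail (x.1 ∘ Equiv.swap 0 s), Fin.cons (x.1 s) x.2) =
      c x - ∑ t : Fin b, c (Function.update x.1 s (x.2 t), Function.update x.2 t (x.1 s)) := by
    intro s
    rw [SLT_F_apply]
    show ((Equiv.Perm.sign (Equiv.swap 0 s) : ℤ) : ℂ) •
      SLT_e (SLT_F c) (Fin.cons (x.1 s) x.2, Fin.tail (x.1 ∘ Equiv.swap 0 s)) = _
    rw [SLT_e_cons, smul_sub, Finset.smul_sum]
    congr 1
    · show ((Equiv.Perm.sign (Equiv.swap 0 s) : ℤ) : ℂ) •
        c (Fin.cons (x.1 s) (Fin.tail (x.1 ∘ Equiv.swap 0 s)), x.2) = c x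
      rw [← SLT_e_upd h, Function.update_eq_self]
    · refine Finset.sum_congr rfl fun t _ => ?_
      show ((Equiv.Perm.sign (Equiv.swap 0 s) : ℤ) : ℂ) •
        c (Fin.cons (x.2 t) (Fin.tail (x.1 ∘ Equiv.swap 0 s)),
          Function.update x.2 t (x.1 s)) = _
      rw [← SLT_e_upd h]
  rw [SLT_e_apply, Finset.sum_congr rfl fun s _ => hs s, Finset.sum_sub_distrib,
    Finset.sum_const, Finset.card_univ, Fintype.card_fin]
  show (a + 1) • c x - SLT_X c x = ((a : ℂ) + 1) • c x - SLT_X c x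
  congr 1
  rw [← Nat.cast_smul_eq_nsmul ℂ]
  push_cast
  rfl

theorem SLT_fe {c : T a (b + 1) (Fin n)} (h : SLT_An c) :
    SLT_F (SLT_e (SLT_F (SLT_e c))) = ((b : ℂ) + 1) • c - SLT_X c := by
  have h1 := congrArg SLT_F (SLT_ef (SLT_F_An h))
  rw [SLT_F_F] at h1
  rw [h1, map_sub, map_smul, SLT_F_F, SLT_X_F, SLT_F_F]

/-- the eigenvalues of the exchange operator -/
theorem SLT_inj : ∀ (b a : ℕ) (c : T a b (Fin n)), SLT_An c → b ≤ a + 1 → ∀ μ : ℕ, b < μ →
    SLT_X c = (μ : ℂ) • c → c = 0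
  | 0, a, c, _, _, μ, hμ, hX => by
    have h1 : SLT_X c = 0 := by
      funext x
      show ∑ s : Fin a, ∑ t : Fin 0, c (Function.update x.1 s (x.2 t),
        Function.update x.2 t (x.1 s)) = 0
      simp
    rw [h1] at hX
    have h2 : (μ : ℂ) ≠ 0 := by
      have : μ ≠ 0 := by omega
      exact_mod_cast this
    exact (smul_eq_zero.1 hX.symm).resolve_left h2
  | b + 1, a, c, hc, hab, μ, hμ, hX => by
    have h1 := SLT_fe hc
    rw [hX, ← sub_smul] at h1
    have h2 := SLT_ef (SLT_e_An hc)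
    have h3 : SLT_e (SLT_F (SLT_e (SLT_F (SLT_e c)))) = (((b : ℂ) + 1) - μ) • SLT_e c := by
      rw [h1, map_smul]
    rw [h3] at h2
    have h4 : SLT_X (SLT_e c) = ((a + 1 + μ - (b + 1) : ℕ) : ℂ) • SLT_e c := by
      have h5 : ((a + 1 + μ - (b + 1) : ℕ) : ℂ) = ((a : ℂ) + 1) - (((b : ℂ) + 1) - μ) := by
        rw [Nat.cast_sub (by omega)]
        push_cast
        ring
      rw [h5, sub_smul, h2]
      abel
    have h6 : SLT_e c = 0 := by
      refine SLT_inj b (a + 1) (SLT_e c) (SLT_e_An hc) (by omega) _ (by omega) h4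
    rw [h6, map_zero, map_zero, map_zero] at h1
    have h7 : ((b : ℂ) + 1) - μ ≠ 0 := by
      intro h8
      have h9 : ((b + 1 : ℕ) : ℂ) = (μ : ℂ) := by
        push_cast
        exact sub_eq_zero.1 h8
      have h10 : b + 1 = μ := by exact_mod_cast h9
      omega
    exact (smul_eq_zero.1 h1.symm).resolve_left h7

theorem SLT_Gar {c : T a (b + 1) (Fin n)} (h : SLT_An c) : Gar c ↔ SLT_e c = 0 := by
  constructor
  · intro hG
    funext x
    have h1 : x = (Fin.cons (x.1 0) (Fin.tail x.1), x.2) := by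
      rw [Fin.cons_self_tail]
    rw [h1, SLT_e_cons, hG 0 (Fin.tail x.1, Fin.cons (x.1 0) x.2)]
    simp only [Fin.cons_zero, Fin.update_cons_zero, sub_self]
    rfl
  · intro he t x
    have h1 : ∀ x : Ix a (b + 1) (Fin n), c x =
        ∑ s : Fin a, c (Function.update x.1 s (x.2 0), Function.update x.2 0 (x.1 s)) := by
      intro x
      have h2 := congrFun he (Fin.cons (x.2 0) x.1, Fin.tail x.2)
      rw [SLT_e_cons] at h2
      have h3 := sub_eq_zero.1 h2
      rw [Fin.cons_self_tail] at h3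
      have h4 : c x = c (x.1, x.2) := rfl
      rw [h4, h3]
      refine Finset.sum_congr rfl fun s _ => ?_
      congr 2
      rw [← Fin.update_cons_zero (α := fun _ => Fin n) (x.2 0), Fin.cons_self_tail]
    have h5 := h1 (x.1, x.2 ∘ Equiv.swap 0 t)
    have h6 : ∀ s : Fin a, Function.update (x.2 ∘ Equiv.swap 0 t) 0 (x.1 s) =
        Function.update x.2 t (x.1 s) ∘ Equiv.swap 0 t := by
      intro s
      funext j
      show _ = Function.update x.2 t (x.1 s) (Equiv.swap 0 t j)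
      by_cases hj : j = 0
      · subst hj
        rw [Function.update_self, Equiv.swap_apply_left, Function.update_self]
      · rw [Function.update_of_ne hj, Function.update_of_ne]
        · rfl
        · intro hh
          apply hj
          have h7 := congrArg (Equiv.swap 0 t) hh
          rw [Equiv.swap_apply_self, Equiv.swap_apply_right] at h7
          exact h7
    rw [h.2 (Equiv.swap 0 t) x] at h5
    have h8 := congrArg (fun p => ((Equiv.Perm.sign (Equiv.swap 0 t) : ℤ) : ℂ) • p) h5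
    simp only [SLT_sgn_mul, Finset.smul_sum] at h8
    rw [h8]
    refine Finset.sum_congr rfl fun s _ => ?_
    rw [h6 s]
    have h9 := h.2 (Equiv.swap 0 t) (Function.update x.1 s (x.2 t),
      Function.update x.2 t (x.1 s))
    have h10 : (x.2 ∘ Equiv.swap 0 t) 0 = x.2 t := by
      show x.2 (Equiv.swap 0 t 0) = x.2 t
      rw [Equiv.swap_apply_left]
    rw [h10]
    show ((Equiv.Perm.sign (Equiv.swap 0 t) : ℤ) : ℂ) • c (Function.update x.1 s (x.2 t),
      Function.update x.2 t (x.1 s) ∘ Equiv.swap 0 t) = _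
    rw [h9, SLT_sgn_mul]

/-- traces and exact sequences -/
theorem SLT_trace {V W K : Type*} [AddCommGroup V] [Module ℂ V] [Module.Finite ℂ V]
    [AddCommGroup W] [Module ℂ W] [Module.Finite ℂ W] [AddCommGroup K] [Module ℂ K]
    [Module.Finite ℂ K] (A : V →ₗ[ℂ] V) (B : W →ₗ[ℂ] W) (C : K →ₗ[ℂ] K) (e : V →ₗ[ℂ] W)
    (i : K →ₗ[ℂ] V) (hi : Function.Injective i) (he : Function.Surjective e)
    (hex : ∀ v, e v = 0 ↔ ∃ k, i k = v) (hA : ∀ v, e (A v) = B (e v))
    (hC : ∀ k, A (i k) = i (C k)) :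
    LinearMap.trace ℂ V A = LinearMap.trace ℂ K C + LinearMap.trace ℂ W B := by
  obtain ⟨g, hg⟩ := e.exists_rightInverse_of_surjective (LinearMap.range_eq_top.2 he)
  obtain ⟨r, hr⟩ := i.exists_leftInverse_of_injective (LinearMap.ker_eq_bot.2 hi)
  have hg' : ∀ x, e (g x) = x := fun x => LinearMap.congr_fun hg x
  have hr' : ∀ k, r (i k) = k := fun k => LinearMap.congr_fun hr k
  obtain ⟨P, hP⟩ : ∃ P : V →ₗ[ℂ] K, P = r ∘ₗ (LinearMap.id - g ∘ₗ e) := ⟨_, rfl⟩
  have hiP : ∀ v, i (P v) = v - g (e v) := by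
    intro v
    obtain ⟨k, hk⟩ := (hex (v - g (e v))).1 (by rw [map_sub, hg', sub_self])
    rw [hP]
    show i (r (v - g (e v))) = v - g (e v)
    rw [← hk, hr']
  have hPi : ∀ k, P (i k) = k := by
    intro k
    apply hi
    rw [hiP, (hex (i k)).2 ⟨k, rfl⟩, map_zero, sub_zero]
  have h1 : A = i ∘ₗ (C ∘ₗ P) + (A ∘ₗ g) ∘ₗ e := by
    ext v
    show A v = i (C (P v)) + A (g (e v))
    rw [← hC, hiP, ← map_add, sub_add_cancel]
  have h2 : (C ∘ₗ P) ∘ₗ i = C := by
    ext k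
    show C (P (i k)) = C k
    rw [hPi]
  have h3 : e ∘ₗ (A ∘ₗ g) = B := by
    ext x
    show e (A (g x)) = B x
    rw [hA, hg']
  rw [h1, map_add, LinearMap.trace_comp_comm', h2, LinearMap.trace_comp_comm', h3]

theorem SLT_HK_act {w : Equiv.Perm (Fin n)} {c : T a b (Fin n)} (h : Gar c) :
    Gar (actT w c) := by
  intro t x
  have h1 := h t (fun j => w⁻¹ (x.1 j), fun j => w⁻¹ (x.2 j))
  have h2 := congrArg (rename (R := ℂ) w) h1
  rw [map_sum] at h2
  show rename w (c (fun j => w⁻¹ (x.1 j), fun j => w⁻¹ (x.2 j))) = _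
  rw [h2]
  refine Finset.sum_congr rfl fun s _ => ?_
  show _ = rename w (c (fun j => w⁻¹ (Function.update x.1 s (x.2 t) j),
    fun j => w⁻¹ (Function.update x.2 t (x.1 s) j)))
  have e1 : (fun j => w⁻¹ (Function.update x.1 s (x.2 t) j)) =
      Function.update (fun j => w⁻¹ (x.1 j)) s (w⁻¹ (x.2 t)) := by
    funext j
    by_cases hj : j = s
    · subst hj
      simp
    · simp [Function.update_of_ne hj]
  have e2 : (fun j => w⁻¹ (Function.update x.2 t (x.1 s) j)) =
      Function.update (fun j => w⁻¹ (x.2 j)) t (w⁻¹ (x.1 s)) := by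
    funext j
    by_cases hj : j = t
    · subst hj
      simp
    · simp [Function.update_of_ne hj]
  rw [e1, e2]

theorem SLT_htr {V : Submodule ℂ (T a b (Fin n))} (w : Equiv.Perm (Fin n))
    (h : ∀ c ∈ V, actT w c ∈ V) :
    htr V w = LinearMap.trace ℂ V ((actT w).restrict h) := by
  unfold htr
  rw [dif_pos h]

end slt

theorem thm_SLT (hD : St_DUA) : St_SLT := by
  intro n a b hn hab
  obtain ⟨hst, hfin, -⟩ := hD n a b hn
  have hHK : ∀ w : Equiv.Perm (Fin n), ∀ c ∈ HK a b n, actT w c ∈ HK a b n :=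
    fun w c hc => ⟨hst w c hc.1, SLT_HK_act hc.2⟩
  have hle : HK a b n ≤ Har2 a b n := fun c hc => hc.1
  have hfinK : Module.Finite ℂ (HK a b n) := Submodule.finiteDimensional_of_le hle
  refine ⟨hHK, hfinK, fun w => ?_⟩
  rcases Nat.eq_zero_or_pos b with hb | hb
  · subst hb
    have h1 : HK a 0 n = Har2 a 0 n := by
      ext c
      exact ⟨fun h => h.1, fun h => ⟨h, fun t => t.elim0⟩⟩
    rw [if_pos rfl, h1, sub_zero]
  · obtain ⟨b, rfl⟩ : ∃ b', b = b' + 1 := ⟨b - 1, by omega⟩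
    rw [if_neg (by omega)]
    show htr (HK a (b + 1) n) w = htr (Har2 a (b + 1) n) w - htr (Har2 (a + 1) b n) w
    obtain ⟨hst2, hfin2, -⟩ := hD n (a + 1) b hn
    rw [SLT_htr w (hHK w), SLT_htr w (hst w), SLT_htr w (hst2 w)]
    -- the map `e`
    obtain ⟨E, hE⟩ : ∃ E : Har2 a (b + 1) n →ₗ[ℂ] Har2 (a + 1) b n,
        E = (SLT_e (a := a) (b := b) (n := n)).restrict (fun c hc => SLT_e_Har hc) := ⟨_, rfl⟩
    have hE' : ∀ v : Har2 a (b + 1) n, ((E v : Har2 (a + 1) b n) : T (a + 1) b (Fin n)) =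
        SLT_e (v : T a (b + 1) (Fin n)) := by
      intro v
      rw [hE]
      rfl
    obtain ⟨G, hG⟩ : ∃ G : Har2 (a + 1) b n →ₗ[ℂ] Har2 a (b + 1) n,
        G = (SLT_F ∘ₗ SLT_e ∘ₗ SLT_F : T (a + 1) b (Fin n) →ₗ[ℂ] T a (b + 1) (Fin n)).restrict
          (fun c hc => SLT_F_Har (SLT_e_Har (SLT_F_Har hc))) := ⟨_, rfl⟩
    have hG' : ∀ v : Har2 (a + 1) b n, ((G v : Har2 a (b + 1) n) : T a (b + 1) (Fin n)) =
        SLT_F (SLT_e (SLT_F (v : T (a + 1) b (Fin n)))) := by
      intro v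
      rw [hG]
      rfl
    have hinj : Function.Injective (E ∘ₗ G) := by
      rw [← LinearMap.ker_eq_bot, LinearMap.ker_eq_bot']
      intro v hv
      have h1 : SLT_e (SLT_F (SLT_e (SLT_F (v : T (a + 1) b (Fin n))))) = 0 := by
        have h2 : ((E (G v) : Har2 (a + 1) b n) : T (a + 1) b (Fin n)) = 0 := by
          have h3 : E (G v) = 0 := hv
          rw [h3]
          rfl
        rw [hE', hG'] at h2
        exact h2
      rw [SLT_ef (SLT_Har_An v.2), sub_eq_zero] at h1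
      have h4 := SLT_inj b (a + 1) (v : T (a + 1) b (Fin n)) (SLT_Har_An v.2) (by omega)
        (a + 1) (by omega) (by rw [← h1]; push_cast; rfl)
      exact Subtype.ext h4
    have hsurj : Function.Surjective E := by
      have h1 : Function.Surjective (E ∘ₗ G) := LinearMap.surjective_of_injective hinj
      intro v
      obtain ⟨u, hu⟩ := h1 v
      exact ⟨G u, hu⟩
    have hmain := SLT_trace ((actT w).restrict (hst w)) ((actT w).restrict (hst2 w))
      ((actT w).restrict (hHK w)) E (Submodule.inclusion hle) (Submodule.inclusion_injective hle)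
      hsurj (by
        intro v
        constructor
        · intro hv
          have h1 : SLT_e (v : T a (b + 1) (Fin n)) = 0 := by
            rw [← hE', hv]
            rfl
          exact ⟨⟨v, v.2, (SLT_Gar (SLT_Har_An v.2)).2 h1⟩, rfl⟩
        · rintro ⟨k, rfl⟩
          apply Subtype.ext
          rw [hE']
          exact (SLT_Gar (SLT_Har_An k.2.1)).1 k.2.2) (by
        intro v
        apply Subtype.ext
        rw [hE']
        show SLT_e (actT w (v : T a (b + 1) (Fin n))) =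
          actT w ((E v : Har2 (a + 1) b n) : T (a + 1) b (Fin n))
        rw [hE', SLT_e_act]) (by
        intro k
        rfl)
    rw [hmain]
    ring

end MDC
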