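import Pool.Agent.MDC.StC

/-!
# MDC: [SRJ] joint surjectivity
-/

set_option autoImplicit false

open MvPolynomial

namespace MDC

section srj

variable {a b a1 a2 b1 b2 : ℕ} {ι : Type} [Fintype ι] [DecidableEq ι] {B : Finset ι}

lemma SRJ_sum (g : T2 a1 a2 b1 b2 B) : g = ∑ p, g p • u2 p := by
  funext x
  simp [Finset.sum_apply, u2, Pi.single_apply]

lemma SRJ_mono (K L : Submodule (S (In B)) (T a1 b1 (In B)))
    (K' L' : Submodule (S (Out B)) (T a2 b2 (Out B))) (h : K ≤ L) (h' : K' ≤ L') :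
    (K2 K K' : Submodule (S ι) (T2 a1 a2 b1 b2 B)) ≤ K2 L L' := by
  refine Submodule.span_mono ?_
  rintro g (⟨c1, hc1, y, rfl⟩ | ⟨y, c2, hc2, rfl⟩)
  · exact Or.inl ⟨c1, h hc1, y, rfl⟩
  · exact Or.inr ⟨y, c2, h' hc2, rfl⟩

lemma SRJ_blk {q : Finset ι × ℕ × ℕ} (hq : q ∈ blk a b ι) : q.2.1 ≤ a ∧ q.2.2 ≤ b := by
  unfold blk at hq
  simp only [Finset.mem_filter, Finset.mem_product, Finset.mem_range] at hq
  omega

lemma SRJ_evq (B : Finset ι) (a1 b1 : ℕ) (h1 : a1 ≤ a) (h2 : b1 ≤ b) (c : T a b ι) :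
    evq (B, a1, b1) c =
      ev B (Nat.add_sub_of_le h1) (Nat.add_sub_of_le h2) c := by
  unfold evq
  rw [dif_pos ⟨h1, h2⟩]

/-- the preimage of `h` -/
noncomputable def SRJ_c (h1 : a1 + a2 = a) (h2 : b1 + b2 = b) (s : S ι)
    (h : T2 a1 a2 b1 b2 B) : T a b ι :=
  ∑ p, (C (((a1.factorial * a2.factorial * b1.factorial * b2.factorial : ℕ) : ℂ))⁻¹ * h p * s) •
    u (jn h1 h2 p)

lemma SRJ_one (hEVS : St_EVS) (K : Submodule (S (In B)) (T a1 b1 (In B)))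
    (K' : Submodule (S (Out B)) (T a2 b2 (Out B))) (hA : RelA a1 b1 (In B) ≤ K)
    (hA' : RelA a2 b2 (Out B) ≤ K') (h1 : a1 + a2 = a) (h2 : b1 + b2 = b) (s : S ι)
    (hs : ∀ g : T2 a1 a2 b1 b2 B, s • g - g ∈ K2 K K') (h : T2 a1 a2 b1 b2 B) :
    ev B h1 h2 (SRJ_c h1 h2 s h) - h ∈ K2 K K' := by
  unfold SRJ_c
  have hk0 : ((a1.factorial * a2.factorial * b1.factorial * b2.factorial : ℕ) : ℂ) ≠ 0 :=
    Nat.cast_ne_zero.mpr (Nat.mul_ne_zero (Nat.mul_ne_zero (Nat.mul_ne_zero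
      (Nat.factorial_ne_zero _) (Nat.factorial_ne_zero _)) (Nat.factorial_ne_zero _))
      (Nat.factorial_ne_zero _))
  have hE0 := fun p => SRJ_mono _ _ _ _ hA hA' ((hEVS ι B a b a1 a2 b1 b2 h1 h2 p).1)
  revert hk0 hE0
  generalize ((a1.factorial * a2.factorial * b1.factorial * b2.factorial : ℕ) : ℂ) = k
  intro hk0 hE0
  have hc : (C k⁻¹ * C k : S ι) = 1 := by
    rw [← C_mul, inv_mul_cancel₀ hk0, C_1]
  have e0 : ev B h1 h2 (∑ p, (C k⁻¹ * h p * s) • u (jn h1 h2 p)) - h =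
      ∑ p, ((C k⁻¹ * h p * s) • (ev B h1 h2 (u (jn h1 h2 p)) - k • u2 p) +
            h p • (s • u2 p - u2 p)) := by
    have e4 : ∀ p, ((C k⁻¹ * h p * s) • (ev B h1 h2 (u (jn h1 h2 p)) - k • u2 p) +
            h p • (s • u2 p - u2 p)) =
            (C k⁻¹ * h p * s) • ev B h1 h2 (u (jn h1 h2 p)) - h p • u2 p := by
      intro p
      have e2 : (k • u2 p : T2 a1 a2 b1 b2 B) = (C k : S ι) • u2 p := by
        funext x
        simp [MvPolynomial.smul_eq_C_mul]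
      have e3 : (C k⁻¹ * h p * s) * C k = h p * s := by
        calc (C k⁻¹ * h p * s) * C k = (C k⁻¹ * C k) * (h p * s) := by ring
          _ = h p * s := by rw [hc, one_mul]
      rw [e2, smul_sub, smul_smul, e3, smul_sub, smul_smul]
      abel
    rw [Finset.sum_congr rfl (fun p _ => e4 p), Finset.sum_sub_distrib, ← SRJ_sum h, map_sum]
    simp only [map_smul]
  rw [e0]
  refine Submodule.sum_mem _ (fun p _ => ?_)
  exact Submodule.add_mem _ (Submodule.smul_mem _ _ (hE0 p)) (Submodule.smul_mem _ _ (hs _))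

lemma SRJ_two (hEVS : St_EVS) (h1 : a1 + a2 = a) (h2 : b1 + b2 = b) (s : S ι)
    (h : T2 a1 a2 b1 b2 B) (a1' a2' b1' b2' : ℕ) (h1' : a1' + a2' = a) (h2' : b1' + b2' = b)
    (hne : a1' ≠ a1 ∨ b1' ≠ b1) :
    (ev B h1' h2' (SRJ_c h1 h2 s h) : T2 a1' a2' b1' b2' B) = 0 := by
  unfold SRJ_c
  rw [map_sum]
  refine Finset.sum_eq_zero (fun p _ => ?_)
  rw [map_smul, (hEVS ι B a b a1 a2 b1 b2 h1 h2 p).2 a1' a2' b1' b2' h1' h2' hne, smul_zero]

lemma SRJ_three {M : Type} [AddCommGroup M] [Module (S ι) M] (φ : T a b ι →ₗ[S ι] M)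
    (N : Submodule (S ι) M) (h1 : a1 + a2 = a) (h2 : b1 + b2 = b) (s : S ι)
    (h : T2 a1 a2 b1 b2 B) (hs : ∀ g : M, s • g ∈ N) : φ (SRJ_c h1 h2 s h) ∈ N := by
  unfold SRJ_c
  rw [map_sum]
  refine Submodule.sum_mem _ (fun p _ => ?_)
  rw [map_smul, mul_smul]
  exact Submodule.smul_mem _ _ (hs _)

end srj

theorem thm_SRJ (hEVS : St_EVS) : St_SRJ := by
  intro ι _ _ a b K K' sB hA hsB g
  have key : ∀ q0 ∈ blk a b ι, ∀ h : T2 q0.2.1 (a - q0.2.1) q0.2.2 (b - q0.2.2) q0.1,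
      ∃ c : T a b ι, evq q0 c - h ∈ K2 (K q0) (K' q0) ∧
        ∀ q ∈ blk a b ι, q ≠ q0 → evq q c ∈ K2 (K q) (K' q) := by
    rintro ⟨B, a1, b1⟩ hq0 h
    have hle := SRJ_blk hq0
    have h1 : a1 + (a - a1) = a := Nat.add_sub_of_le hle.1
    have h2 : b1 + (b - b1) = b := Nat.add_sub_of_le hle.2
    refine ⟨SRJ_c h1 h2 (sB B) h, ?_, ?_⟩
    · rw [SRJ_evq B a1 b1 hle.1 hle.2]
      exact SRJ_one hEVS _ _ (hA _ hq0).1 (hA _ hq0).2 h1 h2 (sB B) (hsB _ hq0).1 h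
    · rintro ⟨B', a1', b1'⟩ hq hne
      have hle' := SRJ_blk hq
      by_cases hB : B' = B
      · subst hB
        have hne' : a1' ≠ a1 ∨ b1' ≠ b1 := by
          by_contra hcon
          push Not at hcon
          exact hne (by rw [hcon.1, hcon.2])
        rw [SRJ_evq B' a1' b1' hle'.1 hle'.2, SRJ_two hEVS h1 h2 (sB B') h a1' (a - a1') b1'
          (b - b1') (Nat.add_sub_of_le hle'.1) (Nat.add_sub_of_le hle'.2) hne']
        exact Submodule.zero_mem _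
      · exact SRJ_three _ _ h1 h2 (sB B) h ((hsB _ hq).2 B (fun h => hB h.symm))
  choose! c hc1 hc2 using key
  refine ⟨∑ q0 ∈ blk a b ι, c q0 (g q0), fun q hq => ?_⟩
  rw [map_sum, ← Finset.add_sum_erase _ _ hq, add_sub_right_comm]
  refine Submodule.add_mem _ (hc1 q hq (g q)) (Submodule.sum_mem _ (fun q' hq' => ?_))
  rw [Finset.mem_erase] at hq'
  exact hc2 q' hq'.2 (g q') q hq hq'.1.symm

end MDC
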