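import Pool.Agent.MDC.StC

/-!
# MDC, module STP: the induction step for at least two points
-/

set_option autoImplicit false

open MvPolynomial

namespace MDC

/-- dimension count -/
theorem STP_lin {V Q : Type} [AddCommGroup V] [Module ℂ V] (s : Finset Q) (W : Q → Type)
    [∀ q, AddCommGroup (W q)] [∀ q, Module ℂ (W q)] (K : ∀ q, Submodule ℂ (W q))
    (e : ∀ q, V →ₗ[ℂ] W q) (L : Submodule ℂ V) (n : ℕ)
    (hfin : ∀ q ∈ s, Module.Finite ℂ (W q ⧸ K q))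
    (hsum : ∑ q ∈ s, Module.finrank ℂ (W q ⧸ K q) = n) (hL : Module.Finite ℂ (V ⧸ L))
    (hLn : Module.finrank ℂ (V ⧸ L) ≤ n) (hle : ∀ q ∈ s, ∀ c ∈ L, e q c ∈ K q)
    (hsurj : ∀ g : ∀ q, W q, ∃ c, ∀ q ∈ s, e q c - g q ∈ K q) (c : V)
    (hc : ∀ q ∈ s, e q c ∈ K q) : c ∈ L := by
  classical
  have hfin' : ∀ q : s, Module.Finite ℂ (W q ⧸ K q) := fun q => hfin q q.2
  obtain ⟨Φ, hΦ⟩ : ∃ Φ : V →ₗ[ℂ] (∀ q : s, W q ⧸ K q), ∀ c q, Φ c q = (K q).mkQ (e q c) :=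
    ⟨LinearMap.pi fun q => (K q).mkQ ∘ₗ e q, fun _ _ => rfl⟩
  have hΦL : L ≤ LinearMap.ker Φ := by
    intro c hc
    rw [LinearMap.mem_ker]
    funext q
    rw [hΦ]
    exact (Submodule.Quotient.mk_eq_zero (K q)).2 (hle q q.2 c hc)
  obtain ⟨Ψ, hΨ⟩ : ∃ Ψ : (V ⧸ L) →ₗ[ℂ] (∀ q : s, W q ⧸ K q), ∀ c, Ψ (L.mkQ c) = Φ c :=
    ⟨L.liftQ Φ hΦL, fun _ => rfl⟩
  have hsur : Function.Surjective Ψ := by
    intro y
    have h1 : ∀ q : s, ∃ g : W q, (K q).mkQ g = y q := fun q => Submodule.mkQ_surjective _ (y q)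
    choose g hg using h1
    obtain ⟨c, hc⟩ := hsurj (fun q => if h : q ∈ s then g ⟨q, h⟩ else 0)
    refine ⟨L.mkQ c, ?_⟩
    funext q
    obtain ⟨q, hq⟩ := q
    have h2 := hc q hq
    rw [dif_pos hq] at h2
    rw [hΨ, hΦ, ← hg ⟨q, hq⟩]
    exact (Submodule.Quotient.eq (K q)).2 h2
  have hker : LinearMap.ker Ψ = ⊥ := by
    have h1 := LinearMap.finrank_range_add_finrank_ker Ψ
    rw [LinearMap.range_eq_top.2 hsur, finrank_top, Module.finrank_pi_fintype] at h1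
    have h2 : ∑ q : s, Module.finrank ℂ (W q ⧸ K q) = n := by
      rw [← hsum]
      exact Finset.sum_coe_sort s (fun q => Module.finrank ℂ (W q ⧸ K q))
    rw [h2] at h1
    apply Submodule.finrank_eq_zero.1
    omega
  have h3 : L.mkQ c ∈ LinearMap.ker Ψ := by
    rw [LinearMap.mem_ker, hΨ]
    funext q
    rw [hΦ]
    exact (Submodule.Quotient.mk_eq_zero (K q)).2 (hc q q.2)
  rw [hker, Submodule.mem_bot] at h3
  exact (Submodule.Quotient.mk_eq_zero L).1 h3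

theorem STP_sum (hN : St_NMA) (ι : Type) [Fintype ι] [DecidableEq ι] (a b m : ℕ)
    (h : a + b + (m + 2) = Fintype.card ι) :
    ∑ q ∈ blk a b ι, rr q.1.card q.2.1 q.2.2 *
      rr (Fintype.card ι - q.1.card) (a - q.2.1) (b - q.2.2) = rr (Fintype.card ι) a b := by
  obtain ⟨f, hf⟩ : ∃ f : ℕ → ℕ, ∀ k, f k = ∑ a1 ∈ Finset.range (a + 1),
      ∑ b1 ∈ Finset.range (b + 1), if a1 + b1 + 1 = k then
        rr k a1 b1 * rr (Fintype.card ι - k) (a - a1) (b - b1) else 0 := ⟨_, fun _ => rfl⟩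
  have h1 : ∑ q ∈ blk a b ι, rr q.1.card q.2.1 q.2.2 *
      rr (Fintype.card ι - q.1.card) (a - q.2.1) (b - q.2.2) =
      ∑ B : Finset ι, f B.card := by
    unfold blk
    rw [Finset.sum_filter, Finset.sum_product]
    refine Finset.sum_congr rfl fun B _ => ?_
    rw [Finset.sum_product, hf]
  rw [h1, ← Finset.powerset_univ, Finset.sum_powerset_apply_card,
    hN (Fintype.card ι) a b (m + 2) h (by omega), Finset.card_univ]
  refine Finset.sum_congr rfl fun k _ => ?_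
  rw [hf, smul_eq_mul, Finset.mul_sum]
  refine Finset.sum_congr rfl fun a1 _ => ?_
  rw [Finset.mul_sum]
  refine Finset.sum_congr rfl fun b1 _ => ?_
  rw [mul_ite, mul_zero, mul_assoc]

section elem

variable {a1 a2 b1 b2 : ℕ} {ι : Type} [DecidableEq ι] {B : Finset ι}

theorem STP_u1 (p : Ix a1 b1 (In B) × Ix a2 b2 (Out B)) :
    u2 p = ex1 (u p.1) p.2 := by
  funext r
  unfold u2 ex1 u
  by_cases h2 : r.2 = p.2
  · rw [if_pos h2]
    by_cases h1 : r.1 = p.1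
    · have h3 : r = p := Prod.ext h1 h2
      rw [h3, Pi.single_eq_same, Pi.single_eq_same, map_one]
    · have h3 : r ≠ p := fun h => h1 (by rw [h])
      rw [Pi.single_eq_of_ne h3, Pi.single_eq_of_ne h1, map_zero]
  · have h3 : r ≠ p := fun h => h2 (by rw [h])
    rw [if_neg h2, Pi.single_eq_of_ne h3]

theorem STP_u2 (p : Ix a1 b1 (In B) × Ix a2 b2 (Out B)) :
    u2 p = ex2 p.1 (u p.2) := by
  funext r
  unfold u2 ex2 u
  by_cases h1 : r.1 = p.1
  · rw [if_pos h1]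
    by_cases h2 : r.2 = p.2
    · have h3 : r = p := Prod.ext h1 h2
      rw [h3, Pi.single_eq_same, Pi.single_eq_same, map_one]
    · have h3 : r ≠ p := fun h => h2 (by rw [h])
      rw [Pi.single_eq_of_ne h3, Pi.single_eq_of_ne h2, map_zero]
  · have h3 : r ≠ p := fun h => h1 (by rw [h])
    rw [if_neg h1, Pi.single_eq_of_ne h3]

theorem STP_e1 (s : S (In B)) (c : T a1 b1 (In B)) (y : Ix a2 b2 (Out B)) :
    ex1 (s • c) y = rename Subtype.val s • ex1 c y := by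
  funext p
  rw [Pi.smul_apply]
  unfold ex1
  by_cases h : p.2 = y
  · rw [if_pos h, if_pos h, Pi.smul_apply, smul_eq_mul, smul_eq_mul, map_mul]
  · rw [if_neg h, if_neg h, smul_zero]

theorem STP_e2 (s : S (Out B)) (c : T a2 b2 (Out B)) (y : Ix a1 b1 (In B)) :
    ex2 y (s • c) = rename Subtype.val s • ex2 y c := by
  funext p
  rw [Pi.smul_apply]
  unfold ex2
  by_cases h : p.1 = y
  · rw [if_pos h, if_pos h, Pi.smul_apply, smul_eq_mul, smul_eq_mul, map_mul]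
  · rw [if_neg h, if_neg h, smul_zero]

theorem STP_all [Fintype ι] (L : Submodule (S ι) (T2 a1 a2 b1 b2 B)) (s : S ι)
    (h : ∀ p : Ix a1 b1 (In B) × Ix a2 b2 (Out B), s • u2 p ∈ L) (g : T2 a1 a2 b1 b2 B) :
    s • g ∈ L := by
  have h1 : g = ∑ p, g p • u2 p := by
    funext r
    rw [Finset.sum_apply, Finset.sum_eq_single r]
    · rw [Pi.smul_apply, u2, Pi.single_eq_same, smul_eq_mul, mul_one]
    · intro p _ hp
      rw [Pi.smul_apply, u2, Pi.single_eq_of_ne (Ne.symm hp), smul_zero]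
    · intro hr
      exact absurd (Finset.mem_univ r) hr
  rw [h1, Finset.smul_sum]
  refine Submodule.sum_mem _ fun p _ => ?_
  rw [smul_comm]
  exact Submodule.smul_mem _ _ (h p)

theorem STP_nil [Fintype ι] {m : ℕ} (z : Fin (m + 1) → ℂ) (K : Submodule (S (In B)) (T a1 b1 (In B)))
    (K' : Submodule (S (Out B)) (T a2 b2 (Out B))) (hK : Nil K (fun _ : Fin 1 => z (Fin.last m)))
    (hK' : Nil K' (fun l : Fin m => z l.castSucc)) (i : ι) :
    ∃ N : ℕ, ∀ g : T2 a1 a2 b1 b2 B, (∏ l, ((X i : S ι) - C (z l))) ^ N • g ∈ K2 K K' := by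
  rw [Fin.prod_univ_castSucc]
  by_cases hi : i ∈ B
  · obtain ⟨N, hN⟩ := hK ⟨i, hi⟩
    rw [Fin.prod_univ_one] at hN
    refine ⟨N, STP_all _ _ fun p => ?_⟩
    rw [mul_pow, mul_smul, STP_u1]
    refine Submodule.smul_mem _ _ (Submodule.subset_span (Or.inl ⟨_, hN (u p.1), p.2, ?_⟩))
    rw [STP_e1, map_pow, map_sub, rename_X, rename_C]
  · obtain ⟨N, hN⟩ := hK' ⟨i, hi⟩
    refine ⟨N, STP_all _ _ fun p => ?_⟩
    rw [mul_pow, mul_comm, mul_smul, STP_u2]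
    refine Submodule.smul_mem _ _ (Submodule.subset_span (Or.inr ⟨p.1, _, hN (u p.2), ?_⟩))
    rw [STP_e2, map_pow, map_prod]
    congr 2
    refine Finset.prod_congr rfl fun l _ => ?_
    rw [map_sub, rename_X, rename_C]

end elem

theorem STP_stb {ι : Type} [Fintype ι] [DecidableEq ι] (B : Finset ι) (w : Equiv.Perm ι)
    (h : B.map w.toEmbedding = B) : Stb B w := by
  intro i
  constructor
  · intro hi
    rw [← h, Finset.mem_map] at hi
    obtain ⟨j, hj, hji⟩ := hi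
    have h1 : j = i := w.injective hji
    rw [← h1]
    exact hj
  · intro hi
    rw [← h, Finset.mem_map]
    exact ⟨i, hi, rfl⟩

theorem thm_STP (hA : St_ACT) (hG : St_LZG) (hT : St_TEN) (hE : St_EVE) (hB : St_SBP)
    (hR : St_SRJ) (hC : St_TRC) (hN : St_NMA) : St_STP := by
  intro ι _ _ a b m hab IH z hz
  obtain ⟨K, hK⟩ : ∃ K : FamP ι, ∀ q, K q =
      LZ q.2.1 q.2.2 (In q.1) (fun _ : Fin 1 => z (Fin.last (m + 1))) := ⟨_, fun _ => rfl⟩
  obtain ⟨K', hK'⟩ : ∃ K' : FamN a b ι, ∀ q, K' q =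
      LZ (a - q.2.1) (b - q.2.2) (Out q.1) (fun l : Fin (m + 1) => z l.castSucc) :=
    ⟨_, fun _ => rfl⟩
  have hblk : ∀ q ∈ blk a b ι, q.2.1 ≤ a ∧ q.2.2 ≤ b ∧ q.2.1 + q.2.2 + 1 = q.1.card := by
    intro q hq
    unfold blk at hq
    rw [Finset.mem_filter, Finset.mem_product, Finset.mem_product, Finset.mem_range,
      Finset.mem_range] at hq
    obtain ⟨⟨-, h1, h2⟩, h3⟩ := hq
    exact ⟨by omega, by omega, h3⟩
  have hcardI : ∀ B : Finset ι, Fintype.card (In B) = B.card := fun B => Fintype.card_coe B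
  have hcardO : ∀ B : Finset ι, Fintype.card (Out B) = Fintype.card ι - B.card := by
    intro B
    have h1 := Fintype.card_subtype_compl (fun i : ι => i ∈ B)
    rw [Fintype.card_coe] at h1
    exact h1
  have hle : ∀ B : Finset ι, B.card ≤ Fintype.card ι := fun B => Finset.card_le_univ B
  have hG1 : ∀ q ∈ blk a b ι, Good (In q.1) q.2.1 q.2.2 1 := by
    intro q hq
    obtain ⟨h1, h2, h3⟩ := hblk q hq
    refine IH (In q.1) q.2.1 q.2.2 1 ?_ le_rfl ?_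
    · rw [hcardI]
      omega
    · rw [hcardI]
      exact h3
  have hG2 : ∀ q ∈ blk a b ι, Good (Out q.1) (a - q.2.1) (b - q.2.2) (m + 1) := by
    intro q hq
    obtain ⟨h1, h2, h3⟩ := hblk q hq
    have h4 := hle q.1
    refine IH (Out q.1) (a - q.2.1) (b - q.2.2) (m + 1) ?_ (by omega) ?_
    · rw [hcardO]
      omega
    · rw [hcardO]
      omega
  have hz1 : Function.Injective (fun _ : Fin 1 => z (Fin.last (m + 1))) :=
    Function.injective_of_subsingleton _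
  have hz2 : Function.Injective (fun l : Fin (m + 1) => z l.castSucc) :=
    hz.comp (Fin.castSucc_injective _)
  have hnil : ∀ q ∈ blk a b ι, Nil (K q) (fun _ : Fin 1 => z (Fin.last (m + 1))) ∧
      Nil (K' q) (fun l : Fin (m + 1) => z l.castSucc) := by
    intro q hq
    rw [hK, hK']
    exact ⟨((hG1 q hq).2.2 _ hz1).2.2.2, ((hG2 q hq).2.2 _ hz2).2.2.2⟩
  have hten : ∀ q ∈ blk a b ι, Module.Finite ℂ
      (T2 q.2.1 (a - q.2.1) q.2.2 (b - q.2.2) q.1 ⧸ (K2 (K q) (K' q)).restrictScalars ℂ) ∧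
      Module.finrank ℂ
      (T2 q.2.1 (a - q.2.1) q.2.2 (b - q.2.2) q.1 ⧸ (K2 (K q) (K' q)).restrictScalars ℂ) =
        rr q.1.card q.2.1 q.2.2 * rr (Fintype.card ι - q.1.card) (a - q.2.1) (b - q.2.2) ∧
      ∀ w : Equiv.Perm ι, Stb q.1 w →
        (∀ g ∈ K2 (K q) (K' q), act2 q.1 w g ∈ K2 (K q) (K' q)) ∧
        tr2 (K2 (K q) (K' q)) w = qtr (LP q.2.1 q.2.2 (In q.1)) (resP q.1 w) *
            qtr (LP (a - q.2.1) (b - q.2.2) (Out q.1)) (resN q.1 w) := by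
    intro q hq
    obtain ⟨f1, r1, t1, -⟩ := (hG1 q hq).2.2 _ hz1
    obtain ⟨f2, r2, t2, -⟩ := (hG2 q hq).2.2 _ hz2
    rw [← hK] at f1 r1
    rw [← hK'] at f2 r2
    obtain ⟨g1, g2, g3⟩ := hT ι q.1 q.2.1 (a - q.2.1) q.2.2 (b - q.2.2) (K q) (K' q) f1 f2
    refine ⟨g1, ?_, fun w hw => ?_⟩
    · rw [g2, r1, r2, hcardI, hcardO]
    · have s1 : IsStab ((K q).restrictScalars ℂ) := by
        rw [hK]
        exact (hA.2 (In q.1) q.2.1 q.2.2).2.2.2.2.1 1 _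
      have s2 : IsStab ((K' q).restrictScalars ℂ) := by
        rw [hK']
        exact (hA.2 (Out q.1) (a - q.2.1) (b - q.2.2)).2.2.2.2.1 (m + 1) _
      obtain ⟨g4, g5⟩ := g3 w hw s1 s2
      refine ⟨g4, ?_⟩
      rw [g5, hK, hK', t1, t2]
  obtain ⟨sB, hs1, hs2⟩ := hB ι a b (m + 1) z K K' hz hnil
  have hRA : ∀ q ∈ blk a b ι, RelA q.2.1 q.2.2 (In q.1) ≤ K q ∧
      RelA (a - q.2.1) (b - q.2.2) (Out q.1) ≤ K' q := by
    intro q _
    rw [hK, hK']
    exact ⟨le_sup_left.trans (le_sup_left.trans le_sup_left),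
      le_sup_left.trans (le_sup_left.trans le_sup_left)⟩
  have hsurj := hR ι a b K K' sB hRA hs2
  have hev : ∀ q ∈ blk a b ι, ∀ c ∈ LZ a b ι z, evq q c ∈ K2 (K q) (K' q) := by
    intro q hq c hc
    obtain ⟨h1, h2, h3⟩ := hblk q hq
    rw [hK, hK']
    unfold evq
    rw [dif_pos ⟨h1, h2⟩]
    exact hE ι q.1 a b q.2.1 (a - q.2.1) q.2.2 (b - q.2.2) (m + 1) _ _ z c hc
  have hsum : ∑ q ∈ blk a b ι, Module.finrank ℂ
      (T2 q.2.1 (a - q.2.1) q.2.2 (b - q.2.2) q.1 ⧸ (K2 (K q) (K' q)).restrictScalars ℂ) =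
      rr (Fintype.card ι) a b := by
    rw [← STP_sum hN ι a b m hab]
    exact Finset.sum_congr rfl fun q hq => (hten q hq).2.1
  obtain ⟨-, -, hf, hfr⟩ := hG ι a b (m + 2) hab z
  have hiff : ∀ c : T a b ι, c ∈ LZ a b ι z ↔ ∀ q ∈ blk a b ι, evq q c ∈ K2 (K q) (K' q) := by
    intro c
    refine ⟨fun hc q hq => hev q hq c hc, fun hc => ?_⟩
    have h1 := STP_lin (blk a b ι) (fun q => T2 q.2.1 (a - q.2.1) q.2.2 (b - q.2.2) q.1)
      (fun q => (K2 (K q) (K' q)).restrictScalars ℂ)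
      (fun q => (evq q : T a b ι →ₗ[S ι] _).restrictScalars ℂ)
      ((LZ a b ι z).restrictScalars ℂ) _ (fun q hq => (hten q hq).1) hsum hf hfr
      (fun q hq c hc => hev q hq c hc) hsurj c hc
    exact h1
  have hstab : IsStab ((LZ a b ι z).restrictScalars ℂ) := (hA.2 ι a b).2.2.2.2.1 (m + 2) z
  obtain ⟨c1, c2, c3⟩ := hC ι a b K K' sB (LZ a b ι z) hstab (fun q hq => (hten q hq).1)
    (fun q hq w hw => ((hten q hq).2.2 w hw).1) hs1 hs2 hsurj hiff
  refine ⟨c1, ?_, fun i => ?_, fun w => ?_⟩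
  · rw [c2, hsum]
  · have h1 : ∀ q : Finset ι × ℕ × ℕ, ∃ N : ℕ, q ∈ blk a b ι →
        ∀ g : T2 q.2.1 (a - q.2.1) q.2.2 (b - q.2.2) q.1,
          (∏ l, ((X i : S ι) - C (z l))) ^ N • g ∈ K2 (K q) (K' q) := by
      intro q
      by_cases hq : q ∈ blk a b ι
      · obtain ⟨N, hN⟩ := STP_nil z (K q) (K' q) (hnil q hq).1 (hnil q hq).2 i
        exact ⟨N, fun _ => hN⟩
      · exact ⟨0, fun h => absurd h hq⟩
    choose N hN using h1
    refine ⟨∑ q ∈ blk a b ι, N q, fun c => ?_⟩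
    rw [hiff]
    intro q hq
    have h2 : N q ≤ ∑ q ∈ blk a b ι, N q := Finset.single_le_sum (fun _ _ => Nat.zero_le _) hq
    obtain ⟨r, hr⟩ := Nat.exists_eq_add_of_le h2
    rw [map_smul, hr, add_comm (N q) r, pow_add, mul_smul]
    exact Submodule.smul_mem _ _ (hN q hq _)
  · rw [c3 w]
    refine Finset.sum_congr rfl fun q hq => ?_
    rw [Finset.mem_filter] at hq
    exact ((hten q hq.1).2.2 w (STP_stb q.1 w hq.2)).2

end MDC
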