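import Pool.Agent.MDC.StA

/-!
# MDC, module SWP: exchange of the two sets of letters (helper55)
-/

set_option autoImplicit false

open MvPolynomial

namespace MDC

section

variable {a b : ℕ} {ι : Type} [Fintype ι] [DecidableEq ι]

theorem SWP_apply (c : T a b ι) (y : Ix b a ι) : sw c y = c (y.2, y.1) := rfl

theorem SWP_u (x : Ix a b ι) : sw (u x) = u (x.2, x.1) := by
  funext y
  rw [SWP_apply]
  unfold u
  by_cases h : y = (x.2, x.1)
  · subst h
    rw [Pi.single_eq_same, Pi.single_eq_same]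
  · rw [Pi.single_eq_of_ne h, Pi.single_eq_of_ne]
    intro h'
    apply h
    rw [← h']

theorem SWP_smul (t : ℂ) (c : T a b ι) : sw (t • c) = t • sw c := rfl

theorem SWP_rA (τ : Equiv.Perm (Fin a)) (x : Ix a b ι) : sw (rA τ x) = rB τ (x.2, x.1) := by
  unfold rA rB
  rw [map_sub, SWP_smul, SWP_u, SWP_u]

theorem SWP_rB (τ : Equiv.Perm (Fin b)) (x : Ix a b ι) : sw (rB τ x) = rA τ (x.2, x.1) := by
  unfold rA rB
  rw [map_sub, SWP_smul, SWP_u, SWP_u]

theorem SWP_rTh (s : Fin a) (x : Ix a b ι) (l : ℕ) : sw (rTh s x l) = rEt s (x.2, x.1) l := by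
  unfold rTh rEt
  rw [map_sum]
  refine Finset.sum_congr rfl fun i _ => ?_
  rw [map_smul, SWP_u]

theorem SWP_rEt (t : Fin b) (x : Ix a b ι) (l : ℕ) : sw (rEt t x l) = rTh t (x.2, x.1) l := by
  unfold rTh rEt
  rw [map_sum]
  refine Finset.sum_congr rfl fun i _ => ?_
  rw [map_smul, SWP_u]

theorem SWP_rPh (s : Fin a) (t : Fin b) (x : Ix a b ι) (l : ℕ) :
    sw (rPh s t x l) = rPh t s (x.2, x.1) l := by
  unfold rPh
  rw [map_sum]
  refine Finset.sum_congr rfl fun i _ => ?_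
  rw [map_smul, SWP_u]

theorem SWP_rel : Rel a b ι ≤ (Rel b a ι).comap (sw (a := a) (b := b) (ι := ι)).toLinearMap := by
  have hA : RelA b a ι ≤ Rel b a ι := le_sup_left.trans le_sup_left
  have hPs : ∀ s t (x : Ix b a ι) l, rPh s t x l ∈ Rel b a ι := fun s t x l =>
    (le_sup_left : RelP b a ι ≤ Rel b a ι)
      ((le_sup_right : _ ≤ RelP b a ι) (Submodule.subset_span ⟨s, t, x, l, rfl⟩))
  have hTh : ∀ s (x : Ix b a ι) l, rTh s x l ∈ Rel b a ι := fun s x l =>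
    (le_sup_right : _ ≤ Rel b a ι) (Submodule.subset_span (Or.inl ⟨s, x, l, rfl⟩))
  have hEt : ∀ t (x : Ix b a ι) l, rEt t x l ∈ Rel b a ι := fun t x l =>
    (le_sup_right : _ ≤ Rel b a ι) (Submodule.subset_span (Or.inr ⟨t, x, l, rfl⟩))
  unfold Rel
  refine sup_le (sup_le ?_ ?_) ?_
  · unfold RelA
    rw [Submodule.span_le]
    rintro c (⟨τ, x, rfl⟩ | ⟨τ, x, rfl⟩)
    · change sw (rA τ x) ∈ Rel b a ι
      rw [SWP_rA]
      exact hA (Submodule.subset_span (Or.inr ⟨τ, _, rfl⟩))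
    · change sw (rB τ x) ∈ Rel b a ι
      rw [SWP_rB]
      exact hA (Submodule.subset_span (Or.inl ⟨τ, _, rfl⟩))
  · rw [Submodule.span_le]
    rintro c ⟨s, t, x, l, rfl⟩
    change sw (rPh s t x l) ∈ Rel b a ι
    rw [SWP_rPh]
    exact hPs _ _ _ _
  · rw [Submodule.span_le]
    rintro c (⟨s, x, l, rfl⟩ | ⟨t, x, l, rfl⟩)
    · change sw (rTh s x l) ∈ Rel b a ι
      rw [SWP_rTh]
      exact hEt _ _ _
    · change sw (rEt t x l) ∈ Rel b a ι
      rw [SWP_rEt]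
      exact hTh _ _ _

end

theorem thm_SWP : St_SWP := by
  intro ι _ _ a b
  refine ⟨SWP_u, fun c hc => SWP_rel hc, fun x => ?_⟩
  unfold EE
  exact mul_right_comm _ _ _

end MDC
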