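import Pool.Agent.MDC.StA

/-!
# MDC, module SYM: the symmetrisation argument (helper55)
-/

set_option autoImplicit false

open MvPolynomial

namespace MDC

/-! ### power series -/

theorem SYM_lin_inv {ι : Type} (i : ι) : lin i * inv i = 1 := by
  unfold lin inv
  ext n
  rw [sub_mul, one_mul, map_sub, PowerSeries.coeff_mk, mul_assoc, PowerSeries.coeff_C_mul]
  cases n with
  | zero => simp
  | succ n =>
    rw [PowerSeries.coeff_succ_X_mul, PowerSeries.coeff_mk, PowerSeries.coeff_one,
      if_neg (Nat.succ_ne_zero n), pow_succ, mul_comm, sub_self]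

theorem SYM_deg {ι : Type} [DecidableEq ι] (s : Finset ι) : ∀ N : ℕ, s.card < N →
    PowerSeries.coeff N (∏ i ∈ s, lin i) = 0 := by
  induction s using Finset.induction_on with
  | empty =>
    intro N hN
    rw [Finset.prod_empty, PowerSeries.coeff_one, if_neg (by rw [Finset.card_empty] at hN; omega)]
  | insert a s ha ih =>
    intro N hN
    rw [Finset.card_insert_of_notMem ha] at hN
    obtain ⟨M, rfl⟩ : ∃ M, N = M + 1 := ⟨N - 1, by omega⟩
    rw [Finset.prod_insert ha]
    nth_rewrite 1 [lin]
    rw [sub_mul, one_mul, map_sub, mul_assoc, PowerSeries.coeff_C_mul,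
      PowerSeries.coeff_succ_X_mul, ih (M + 1) (by omega), ih M (by omega), mul_zero, sub_zero]

/-- the product of the `lin` over `O` and the `inv` over an injective tuple in `O` -/
theorem SYM_prod {ι : Type} [DecidableEq ι] {r : ℕ} (O : Finset ι) (i : Fin r → ι)
    (hi : Function.Injective i) (hO : ∀ q, i q ∈ O) :
    (∏ o ∈ O, lin o) * ∏ q, inv (i q) = ∏ o ∈ O \ Finset.univ.image i, lin o := by
  have h1 : Finset.univ.image i ⊆ O := by
    intro x hx
    obtain ⟨q, _, rfl⟩ := Finset.mem_image.1 hx
    exact hO q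
  have h2 : ∏ o ∈ Finset.univ.image i, lin o = ∏ q, lin (i q) :=
    Finset.prod_image fun a _ b _ h => hi h
  rw [← Finset.prod_sdiff h1, h2, mul_assoc, ← Finset.prod_mul_distrib]
  rw [Finset.prod_congr rfl fun q _ => SYM_lin_inv (i q), Finset.prod_const_one, mul_one]

/-! ### the sums -/

theorem SYM_sum {ι M : Type} [Fintype ι] [DecidableEq ι] [AddCommGroup M] {r : ℕ} (p : Fin r)
    (x0 : ι) (F : (Fin r → ι) → M) (W : (Fin r → ι) → Prop) [DecidablePred W]
    (hW : ∀ i x, W (Function.update i p x) ↔ W i)
    (hF : ∀ i, ∑ x, F (Function.update i p x) = 0) : ∑ i, (if W i then F i else 0) = 0 := by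
  rw [← (Equiv.funSplitAt p ι).symm.sum_comp, Fintype.sum_prod_type_right]
  refine Finset.sum_eq_zero fun j _ => ?_
  have h : ∀ x, (Equiv.funSplitAt p ι).symm (x, j) =
      Function.update ((Equiv.funSplitAt p ι).symm (x0, j)) p x := by
    intro x
    funext q
    by_cases hq : q = p
    · subst hq
      rw [Function.update_self]
      simp [Equiv.funSplitAt, Equiv.piSplitAt]
    · rw [Function.update_of_ne hq]
      simp [Equiv.funSplitAt, Equiv.piSplitAt, hq]
  by_cases hw : W ((Equiv.funSplitAt p ι).symm (x0, j))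
  · refine (Finset.sum_congr rfl fun x _ => ?_).trans (hF ((Equiv.funSplitAt p ι).symm (x0, j)))
    rw [h x, if_pos ((hW _ _).2 hw)]
  · refine Finset.sum_eq_zero fun x _ => ?_
    rw [h x, if_neg fun h' => hw ((hW _ _).1 h')]

/-- all the sums with a given pattern vanish if the one with the empty pattern does -/
theorem SYM_pat {ι M : Type} [Fintype ι] [DecidableEq ι] [AddCommGroup M] {r : ℕ}
    (F : (Fin r → ι) → M) (R : Finset ι) (x0 : Fin r → ι)
    (hF : ∀ p i, ∑ x, F (Function.update i p x) = 0)
    (h0 : ∑ i : Fin r → ι, (if ∀ q, i q ∉ R then F i else 0) = 0) (P : Finset (Fin r)) :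
    ∑ i : Fin r → ι, (if ∀ q, (i q ∈ R ↔ q ∈ P) then F i else 0) = 0 := by
  induction P using Finset.induction_on with
  | empty =>
    refine Eq.trans (Finset.sum_congr rfl fun i _ => ?_) h0
    refine if_congr ?_ rfl rfl
    simp
  | insert p P hp ih =>
    have h1 := SYM_sum p (x0 p) F (fun i => ∀ q, q ≠ p → (i q ∈ R ↔ q ∈ P)) (fun i x => by
      refine forall_congr' fun q => forall_congr' fun hq => ?_
      rw [Function.update_of_ne hq]) (hF p)
    have h2 : ∀ i : Fin r → ι, (if ∀ q, q ≠ p → (i q ∈ R ↔ q ∈ P) then F i else 0) =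
        (if ∀ q, (i q ∈ R ↔ q ∈ insert p P) then F i else 0) +
          (if ∀ q, (i q ∈ R ↔ q ∈ P) then F i else 0) := by
      intro i
      by_cases hc : ∀ q, q ≠ p → (i q ∈ R ↔ q ∈ P)
      · rw [if_pos hc]
        by_cases hpR : i p ∈ R
        · rw [if_pos, if_neg, add_zero]
          · intro h3
            exact hp ((h3 p).1 hpR)
          · intro q
            by_cases hq : q = p
            · rw [hq]
              exact ⟨fun _ => Finset.mem_insert_self _ _, fun _ => hpR⟩
            · rw [hc q hq, Finset.mem_insert]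
              exact ⟨fun h => Or.inr h, fun h => h.resolve_left hq⟩
        · rw [if_neg, if_pos, zero_add]
          · intro q
            by_cases hq : q = p
            · rw [hq]
              exact ⟨fun h => absurd h hpR, fun h => absurd h hp⟩
            · exact hc q hq
          · intro h3
            exact hpR ((h3 p).2 (Finset.mem_insert_self _ _))
      · rw [if_neg hc, if_neg, if_neg, add_zero]
        · intro h3
          exact hc fun q _ => h3 q
        · intro h3
          refine hc fun q hq => ?_
          rw [h3 q, Finset.mem_insert]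
          exact ⟨fun h => h.resolve_left hq, fun h => Or.inr h⟩
    rw [Finset.sum_congr rfl fun i _ => h2 i, Finset.sum_add_distrib, ih, add_zero] at h1
    exact h1

/-- the relation for the coefficients -/
theorem SYM_rel {ι : Type} [Fintype ι] [DecidableEq ι] {M : Type} [AddCommGroup M]
    [Module (S ι) M] (r N : ℕ) (φ : (Fin r → ι) → M) (G : PowerSeries (S ι))
    (h : ∀ (p : Fin r) (i : Fin r → ι) (q : ℕ),
      ∑ x : ι, (X x : S ι) ^ q • φ (Function.update i p x) = 0) (p : Fin r) (i : Fin r → ι) :
    ∑ x, PowerSeries.coeff N (G * ∏ q, inv (Function.update i p x q)) •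
      φ (Function.update i p x) = 0 := by
  have h1 : ∀ x, PowerSeries.coeff N (G * ∏ q, inv (Function.update i p x q)) =
      ∑ ab ∈ Finset.HasAntidiagonal.antidiagonal N,
        PowerSeries.coeff ab.1 (G * ∏ q ∈ Finset.univ.erase p, inv (i q)) * (X x : S ι) ^ ab.2 := by
    intro x
    have h2 : ∏ q, inv (Function.update i p x q) =
        (∏ q ∈ Finset.univ.erase p, inv (i q)) * inv x := by
      rw [← Finset.prod_erase_mul _ _ (Finset.mem_univ p), Function.update_self]
      congr 1
      refine Finset.prod_congr rfl fun q hq => ?_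
      rw [Function.update_of_ne (Finset.ne_of_mem_erase hq)]
    rw [h2, ← mul_assoc, PowerSeries.coeff_mul]
    refine Finset.sum_congr rfl fun ab _ => ?_
    congr 1
    unfold inv
    rw [PowerSeries.coeff_mk]
  rw [Finset.sum_congr rfl fun x _ => by rw [h1 x, Finset.sum_smul], Finset.sum_comm]
  refine Finset.sum_eq_zero fun ab _ => ?_
  rw [Finset.sum_congr rfl fun x _ => mul_smul _ _ _, ← Finset.smul_sum, h p i ab.2, smul_zero]

theorem SYM_cancel {ι : Type} {M : Type} [AddCommGroup M] [Module (S ι) M] (n : ℕ) (hn : n ≠ 0)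
    (m : M) (h : n • m = 0) : m = 0 := by
  have h1 : (C ((n : ℂ)⁻¹) : S ι) • (n • m) = m := by
    rw [← Nat.cast_smul_eq_nsmul (S ι), smul_smul]
    have h2 : (C ((n : ℂ)⁻¹) : S ι) * (n : S ι) = 1 := by
      rw [← map_natCast (C : ℂ →+* S ι) n, ← map_mul, inv_mul_cancel₀ (by exact_mod_cast hn),
        map_one]
    rw [h2, one_smul]
  rw [← h1, h, smul_zero]

theorem thm_SYM : St_SYM := by
  intro ι _ _ M _ _ r N φ Z l hperm hinj hZ hrel hl hlZ hcard
  classical
  obtain ⟨O, hO⟩ : ∃ O : Finset ι, O = Finset.univ.filter (fun i : ι => i ∉ Z ∧ ∀ q, l q ≠ i) :=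
    ⟨_, rfl⟩
  obtain ⟨R, hR⟩ : ∃ R : Finset ι, R = Finset.univ.image l := ⟨_, rfl⟩
  rw [← hO]
  have hRc : R.card = r := by
    rw [hR, Finset.card_image_of_injective _ hl, Finset.card_univ, Fintype.card_fin]
  have hmR : ∀ x, x ∈ R ↔ ∃ q, l q = x := by
    intro x
    rw [hR, Finset.mem_image]
    simp
  have hmO : ∀ x, x ∈ O ↔ x ∉ Z ∧ x ∉ R := by
    intro x
    rw [hO, Finset.mem_filter, hmR]
    push Not
    simp
  have hcO : O.card + (Z.card + r) = Fintype.card ι := by
    have h1 : O = (Z ∪ R)ᶜ := by
      ext x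
      rw [hmO, Finset.mem_compl, Finset.mem_union]
      tauto
    have h2 : (Z ∪ R).card = Z.card + r := by
      rw [Finset.card_union_of_disjoint, hRc]
      rw [Finset.disjoint_left]
      intro x hx hxR
      obtain ⟨q, rfl⟩ := (hmR x).1 hxR
      exact hlZ q hx
    rw [h1, Finset.card_compl, h2]
    have h3 : (Z ∪ R).card ≤ Fintype.card ι := Finset.card_le_univ _
    omega
  obtain ⟨F, hFd⟩ : ∃ F : (Fin r → ι) → M, ∀ i, F i =
      PowerSeries.coeff N ((∏ o ∈ O, lin o) * ∏ q, inv (i q)) • φ i := ⟨_, fun _ => rfl⟩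
  have hF : ∀ p i, ∑ x, F (Function.update i p x) = 0 := by
    intro p i
    rw [Finset.sum_congr rfl fun x _ => hFd _]
    exact SYM_rel r N φ _ hrel p i
  have h0 : ∑ i : Fin r → ι, (if ∀ q, i q ∉ R then F i else 0) = 0 := by
    refine Finset.sum_eq_zero fun i _ => ?_
    split_ifs with hi
    · rw [hFd]
      by_cases h1 : φ i = 0
      · rw [h1, smul_zero]
      · have h2 : Function.Injective i := by
          by_contra h
          exact h1 (hinj i h)
        have h3 : ∀ q, i q ∈ O := fun q => (hmO _).2 ⟨fun h => h1 (hZ i q h), hi q⟩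
        rw [SYM_prod O i h2 h3, SYM_deg, zero_smul]
        have h4 : (Finset.univ.image i).card = r := by
          rw [Finset.card_image_of_injective _ h2, Finset.card_univ, Fintype.card_fin]
        have h5 : Finset.univ.image i ⊆ O := by
          intro x hx
          obtain ⟨q, _, rfl⟩ := Finset.mem_image.1 hx
          exact h3 q
        rw [Finset.card_sdiff_of_subset h5, h4]
        have := Finset.card_le_card h5
        omega
    · rfl
  have hall := SYM_pat F R l hF h0 Finset.univ
  have hsum : ∑ i : Fin r → ι, (if ∀ q, (i q ∈ R ↔ q ∈ Finset.univ) then F i else 0) =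
      ∑ σ : Equiv.Perm (Fin r), F (l ∘ σ) := by
    symm
    refine Finset.sum_of_injOn (fun σ : Equiv.Perm (Fin r) => l ∘ σ) ?_ ?_ ?_ ?_
    · intro σ _ τ _ h
      ext q
      have h1 := hl (congrFun h q)
      exact congrArg Fin.val h1
    · intro σ _
      exact Finset.mem_coe.2 (Finset.mem_univ _)
    · intro i _ hi
      split_ifs with hc
      · rw [hFd]
        by_cases h1 : φ i = 0
        · rw [h1, smul_zero]
        · exfalso
          have h2 : Function.Injective i := by
            by_contra h
            exact h1 (hinj i h)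
          choose f hf using fun q => (hmR (i q)).1 ((hc q).2 (Finset.mem_univ q))
          have hfi : Function.Injective f := by
            intro a b hab
            apply h2
            rw [← hf a, ← hf b, hab]
          apply hi
          refine ⟨Equiv.ofBijective f (Finite.injective_iff_bijective.1 hfi),
            Finset.mem_coe.2 (Finset.mem_univ _), ?_⟩
          funext q
          exact hf q
      · rfl
    · intro σ _
      rw [if_pos]
      intro q
      exact ⟨fun _ => Finset.mem_univ _, fun _ => (hmR _).2 ⟨σ q, rfl⟩⟩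
  have hconst : ∀ σ : Equiv.Perm (Fin r), F (l ∘ σ) = F l := by
    intro σ
    rw [hFd, hFd, hperm]
    congr 2
    congr 1
    exact Equiv.prod_comp σ fun q => inv (l q)
  rw [hsum, Finset.sum_congr rfl fun σ _ => hconst σ, Finset.sum_const, Finset.card_univ,
    Fintype.card_perm, Fintype.card_fin] at hall
  have := SYM_cancel (ι := ι) r.factorial (Nat.factorial_ne_zero r) (F l) hall
  rw [hFd] at this
  exact this

end MDC
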