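import Pool.Agent.MDC.StC
import Mathlib.LinearAlgebra.TensorProduct.RightExactness

/-!
# MDC, module TEN: the quotient of `T2` is the tensor product of the quotients
-/

set_option autoImplicit false
set_option linter.unusedSectionVars false

open MvPolynomial TensorProduct

namespace MDC

section TEN

variable {a1 a2 b1 b2 : ℕ} {ι : Type} [Fintype ι] [DecidableEq ι] {B : Finset ι}

/-- product of a polynomial in the variables in `B` and one in the others -/
noncomputable def TEN_e (B : Finset ι) : S (In B) ⊗[ℂ] S (Out B) →ₐ[ℂ] S ι :=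
  Algebra.TensorProduct.lift (rename Subtype.val) (rename Subtype.val) fun _ _ => Commute.all _ _

/-- splitting of the variables -/
noncomputable def TEN_f (B : Finset ι) : S ι →ₐ[ℂ] S (In B) ⊗[ℂ] S (Out B) :=
  aeval fun i => if h : i ∈ B then X ⟨i, h⟩ ⊗ₜ 1 else 1 ⊗ₜ X ⟨i, h⟩

theorem TEN_e_tmul (x : S (In B)) (y : S (Out B)) :
    TEN_e B (x ⊗ₜ y) = rename Subtype.val x * rename Subtype.val y := by
  simp [TEN_e]

theorem TEN_fe (t : S (In B) ⊗[ℂ] S (Out B)) : TEN_f B (TEN_e B t) = t := by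
  have h : (TEN_f B).comp (TEN_e B) = AlgHom.id ℂ _ := by
    refine Algebra.TensorProduct.ext ?_ ?_
    · refine MvPolynomial.algHom_ext fun i => ?_
      simp [TEN_e, TEN_f, i.2]
    · refine MvPolynomial.algHom_ext fun i => ?_
      simp [TEN_e, TEN_f, i.2]
  exact DFunLike.congr_fun h t

theorem TEN_ef (s : S ι) : TEN_e B (TEN_f B s) = s := by
  have h : (TEN_e B).comp (TEN_f B) = AlgHom.id ℂ _ := by
    refine MvPolynomial.algHom_ext fun i => ?_
    by_cases hi : i ∈ B
    · simp [TEN_e, TEN_f, hi]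
    · simp [TEN_e, TEN_f, hi]
  exact DFunLike.congr_fun h s

/-- the pointwise product -/
noncomputable def TEN_P : T a1 b1 (In B) ⊗[ℂ] T a2 b2 (Out B) →ₗ[ℂ] T2 a1 a2 b1 b2 B :=
  TensorProduct.lift (LinearMap.mk₂ ℂ
    (fun c1 c2 => fun p => rename Subtype.val (c1 p.1) * rename Subtype.val (c2 p.2))
    (fun c c' d => by funext p; simp [add_mul])
    (fun t c d => by funext p; simp)
    (fun c d d' => by funext p; simp [mul_add])
    (fun t c d => by funext p; simp))

theorem TEN_P_tmul (c1 : T a1 b1 (In B)) (c2 : T a2 b2 (Out B))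
    (p : Ix a1 b1 (In B) × Ix a2 b2 (Out B)) :
    TEN_P (c1 ⊗ₜ[ℂ] c2) p = rename Subtype.val (c1 p.1) * rename Subtype.val (c2 p.2) := rfl

/-- the inverse of `TEN_P` -/
noncomputable def TEN_Q : T2 a1 a2 b1 b2 B →ₗ[ℂ] T a1 b1 (In B) ⊗[ℂ] T a2 b2 (Out B) :=
  ∑ p : Ix a1 b1 (In B) × Ix a2 b2 (Out B),
    (TensorProduct.map (LinearMap.single ℂ (fun _ : Ix a1 b1 (In B) => S (In B)) p.1)
      (LinearMap.single ℂ (fun _ : Ix a2 b2 (Out B) => S (Out B)) p.2)) ∘ₗ
      (TEN_f B).toLinearMap ∘ₗ (LinearMap.proj p)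

theorem TEN_Q_apply (g : T2 a1 a2 b1 b2 B) :
    TEN_Q g = ∑ p : Ix a1 b1 (In B) × Ix a2 b2 (Out B),
      TensorProduct.map (LinearMap.single ℂ (fun _ : Ix a1 b1 (In B) => S (In B)) p.1)
      (LinearMap.single ℂ (fun _ : Ix a2 b2 (Out B) => S (Out B)) p.2) (TEN_f B (g p)) := by
  simp only [TEN_Q, LinearMap.sum_apply]
  rfl

theorem TEN_QP (t : T a1 b1 (In B) ⊗[ℂ] T a2 b2 (Out B)) : TEN_Q (TEN_P t) = t := by
  have h : TEN_Q ∘ₗ TEN_P = (LinearMap.id : T a1 b1 (In B) ⊗[ℂ] T a2 b2 (Out B) →ₗ[ℂ] _) := by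
    refine TensorProduct.ext' fun c1 c2 => ?_
    rw [LinearMap.comp_apply, TEN_Q_apply, LinearMap.id_apply]
    have h1 : ∀ p : Ix a1 b1 (In B) × Ix a2 b2 (Out B),
        TensorProduct.map (LinearMap.single ℂ (fun _ : Ix a1 b1 (In B) => S (In B)) p.1)
        (LinearMap.single ℂ (fun _ : Ix a2 b2 (Out B) => S (Out B)) p.2)
          (TEN_f B (TEN_P (c1 ⊗ₜ[ℂ] c2) p)) =
        (Pi.single p.1 (c1 p.1) : T a1 b1 (In B)) ⊗ₜ[ℂ] (Pi.single p.2 (c2 p.2) : T a2 b2 (Out B)) := by
      intro p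
      rw [TEN_P_tmul, ← TEN_e_tmul, TEN_fe, TensorProduct.map_tmul]
      rfl
    rw [Finset.sum_congr rfl fun p _ => h1 p, Fintype.sum_prod_type]
    have h2 : ∑ x : Ix a1 b1 (In B), (Pi.single x (c1 x) : T a1 b1 (In B)) = c1 :=
      Finset.univ_sum_single c1
    have h3 : ∑ x : Ix a2 b2 (Out B), (Pi.single x (c2 x) : T a2 b2 (Out B)) = c2 :=
      Finset.univ_sum_single c2
    conv_rhs => rw [← h2, ← h3]
    rw [TensorProduct.sum_tmul]
    refine Finset.sum_congr rfl fun x _ => ?_
    rw [TensorProduct.tmul_sum]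
  exact DFunLike.congr_fun h t

theorem TEN_PQ (g : T2 a1 a2 b1 b2 B) : TEN_P (TEN_Q g) = g := by
  have key : ∀ (p q : Ix a1 b1 (In B) × Ix a2 b2 (Out B)) (t : S (In B) ⊗[ℂ] S (Out B)),
      TEN_P (TensorProduct.map (LinearMap.single ℂ (fun _ : Ix a1 b1 (In B) => S (In B)) p.1)
      (LinearMap.single ℂ (fun _ : Ix a2 b2 (Out B) => S (Out B)) p.2) t) q =
      if q = p then TEN_e B t else 0 := by
    intro p q t
    induction t using TensorProduct.induction_on with
    | zero => simp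
    | tmul x y =>
      rw [TensorProduct.map_tmul, TEN_P_tmul, TEN_e_tmul]
      simp only [LinearMap.single_apply]
      by_cases h1 : q.1 = p.1
      · by_cases h2 : q.2 = p.2
        · have h3 : q = p := Prod.ext h1 h2
          subst h3
          simp
        · have h3 : q ≠ p := fun h => h2 (by rw [h])
          rw [if_neg h3, Pi.single_eq_of_ne h2]
          simp
      · have h3 : q ≠ p := fun h => h1 (by rw [h])
        rw [if_neg h3, Pi.single_eq_of_ne h1]
        simp
    | add x y hx hy =>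
      rw [map_add, map_add, Pi.add_apply, hx, hy, map_add]
      split_ifs <;> simp
  funext q
  rw [TEN_Q_apply, map_sum, Finset.sum_apply]
  rw [Finset.sum_congr rfl fun p _ => key p q _]
  rw [Finset.sum_ite_eq]
  simp [TEN_ef]

/-- the map onto the tensor product of the quotients -/
noncomputable def TEN_R (K : Submodule (S (In B)) (T a1 b1 (In B)))
    (K' : Submodule (S (Out B)) (T a2 b2 (Out B))) : T2 a1 a2 b1 b2 B →ₗ[ℂ]
    (T a1 b1 (In B) ⧸ K.restrictScalars ℂ) ⊗[ℂ] (T a2 b2 (Out B) ⧸ K'.restrictScalars ℂ) :=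
  TensorProduct.map (K.restrictScalars ℂ).mkQ (K'.restrictScalars ℂ).mkQ ∘ₗ TEN_Q

theorem TEN_R_P (K : Submodule (S (In B)) (T a1 b1 (In B)))
    (K' : Submodule (S (Out B)) (T a2 b2 (Out B))) (t : T a1 b1 (In B) ⊗[ℂ] T a2 b2 (Out B)) :
    TEN_R K K' (TEN_P t) =
      TensorProduct.map (K.restrictScalars ℂ).mkQ (K'.restrictScalars ℂ).mkQ t := by
  rw [TEN_R, LinearMap.comp_apply, TEN_QP]

theorem TEN_R_surj (K : Submodule (S (In B)) (T a1 b1 (In B)))
    (K' : Submodule (S (Out B)) (T a2 b2 (Out B))) : Function.Surjective (TEN_R K K') := by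
  intro z
  obtain ⟨t, ht⟩ := TensorProduct.map_surjective (Submodule.mkQ_surjective (K.restrictScalars ℂ))
    (Submodule.mkQ_surjective (K'.restrictScalars ℂ)) z
  exact ⟨TEN_P t, by rw [TEN_R_P, ht]⟩

theorem TEN_smul (f : S (In B)) (h : S (Out B)) (c1 : T a1 b1 (In B)) (c2 : T a2 b2 (Out B)) :
    (rename Subtype.val f * rename Subtype.val h : S ι) • TEN_P (c1 ⊗ₜ[ℂ] c2) =
      TEN_P ((f • c1) ⊗ₜ[ℂ] (h • c2)) := by
  funext p
  rw [Pi.smul_apply, TEN_P_tmul, TEN_P_tmul, Pi.smul_apply, Pi.smul_apply, smul_eq_mul, smul_eq_mul,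
    smul_eq_mul, map_mul, map_mul]
  ring

theorem TEN_ex1 (c1 : T a1 b1 (In B)) (y : Ix a2 b2 (Out B)) :
    (ex1 c1 y : T2 a1 a2 b1 b2 B) = TEN_P (c1 ⊗ₜ[ℂ] (Pi.single y 1 : T a2 b2 (Out B))) := by
  funext p
  rw [TEN_P_tmul, ex1]
  by_cases h : p.2 = y
  · subst h
    simp
  · rw [if_neg h, Pi.single_eq_of_ne h]
    simp

theorem TEN_ex2 (y : Ix a1 b1 (In B)) (c2 : T a2 b2 (Out B)) :
    (ex2 y c2 : T2 a1 a2 b1 b2 B) = TEN_P ((Pi.single y 1 : T a1 b1 (In B)) ⊗ₜ[ℂ] c2) := by
  funext p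
  rw [TEN_P_tmul, ex2]
  by_cases h : p.1 = y
  · subst h
    simp
  · rw [if_neg h, Pi.single_eq_of_ne h]
    simp

theorem TEN_R_K2 (K : Submodule (S (In B)) (T a1 b1 (In B)))
    (K' : Submodule (S (Out B)) (T a2 b2 (Out B))) (g : T2 a1 a2 b1 b2 B) (hg : g ∈ K2 K K') :
    TEN_R K K' g = 0 := by
  have key : ∀ s : S ι, TEN_R K K' (s • g) = 0 := by
    refine Submodule.span_induction (p := fun g _ => ∀ s : S ι, TEN_R K K' (s • g) = 0)
      ?_ ?_ ?_ ?_ hg
    · rintro x (⟨c1, hc1, y, rfl⟩ | ⟨y, c2, hc2, rfl⟩) s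
      · rw [← TEN_ef (B := B) s, TEN_ex1]
        generalize TEN_f B s = t
        induction t using TensorProduct.induction_on with
        | zero => simp
        | tmul f h =>
          rw [TEN_e_tmul, TEN_smul, TEN_R_P, TensorProduct.map_tmul]
          have h1 : (K.restrictScalars ℂ).mkQ (f • c1) = 0 := by
            rw [Submodule.mkQ_apply, Submodule.Quotient.mk_eq_zero]
            exact K.smul_mem f hc1
          rw [h1, TensorProduct.zero_tmul]
        | add x y hx hy => rw [map_add, add_smul, map_add, hx, hy, add_zero]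
      · rw [← TEN_ef (B := B) s, TEN_ex2]
        generalize TEN_f B s = t
        induction t using TensorProduct.induction_on with
        | zero => simp
        | tmul f h =>
          rw [TEN_e_tmul, TEN_smul, TEN_R_P, TensorProduct.map_tmul]
          have h1 : (K'.restrictScalars ℂ).mkQ (h • c2) = 0 := by
            rw [Submodule.mkQ_apply, Submodule.Quotient.mk_eq_zero]
            exact K'.smul_mem h hc2
          rw [h1, TensorProduct.tmul_zero]
        | add x y hx hy => rw [map_add, add_smul, map_add, hx, hy, add_zero]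
    · intro s
      simp
    · intro x y _ _ hx hy s
      rw [smul_add, map_add, hx, hy, add_zero]
    · intro r x _ hx s
      rw [smul_smul]
      exact hx _
  have := key 1
  rwa [one_smul] at this

theorem TEN_K2_R (K : Submodule (S (In B)) (T a1 b1 (In B)))
    (K' : Submodule (S (Out B)) (T a2 b2 (Out B))) (g : T2 a1 a2 b1 b2 B)
    (hg : TEN_R K K' g = 0) : g ∈ K2 K K' := by
  have h1 : TEN_Q g ∈ LinearMap.ker
      (TensorProduct.map (K.restrictScalars ℂ).mkQ (K'.restrictScalars ℂ).mkQ) := hg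
  rw [TensorProduct.map_ker (LinearMap.exact_subtype_mkQ _) (Submodule.mkQ_surjective _)
    (LinearMap.exact_subtype_mkQ _) (Submodule.mkQ_surjective _), Submodule.mem_sup] at h1
  obtain ⟨x, ⟨t, rfl⟩, y, ⟨t', rfl⟩, hxy⟩ := h1
  rw [← TEN_PQ g, ← hxy, map_add]
  clear hxy
  refine Submodule.add_mem _ ?_ ?_
  · induction t using TensorProduct.induction_on with
    | zero => simp
    | tmul c k =>
      rw [LinearMap.lTensor_tmul]
      have h2 : ∑ x : Ix a1 b1 (In B), (Pi.single x (c x) : T a1 b1 (In B)) = c :=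
        Finset.univ_sum_single c
      rw [← h2, TensorProduct.sum_tmul, map_sum]
      refine Submodule.sum_mem _ fun x _ => ?_
      have h3 : TEN_P ((Pi.single x (c x) : T a1 b1 (In B)) ⊗ₜ[ℂ]
          ((K'.restrictScalars ℂ).subtype k)) =
          (rename Subtype.val (c x) : S ι) • (ex2 x (k : T a2 b2 (Out B)) : T2 a1 a2 b1 b2 B) := by
        have h4 := TEN_smul (c x) 1 (Pi.single x 1 : T a1 b1 (In B)) (k : T a2 b2 (Out B))
        rw [map_one, mul_one, one_smul, ← TEN_ex2] at h4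
        rw [h4, ← Pi.single_smul, smul_eq_mul, mul_one]
        rfl
      rw [h3]
      exact Submodule.smul_mem _ _ (Submodule.subset_span (Or.inr ⟨x, k, k.2, rfl⟩))
    | add x y hx hy =>
      rw [map_add, map_add]
      exact Submodule.add_mem _ hx hy
  · induction t' using TensorProduct.induction_on with
    | zero => simp
    | tmul k c =>
      rw [LinearMap.rTensor_tmul]
      have h2 : ∑ x : Ix a2 b2 (Out B), (Pi.single x (c x) : T a2 b2 (Out B)) = c :=
        Finset.univ_sum_single c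
      rw [← h2, TensorProduct.tmul_sum, map_sum]
      refine Submodule.sum_mem _ fun x _ => ?_
      have h3 : TEN_P (((K.restrictScalars ℂ).subtype k) ⊗ₜ[ℂ]
          (Pi.single x (c x) : T a2 b2 (Out B))) =
          (rename Subtype.val (c x) : S ι) • (ex1 (k : T a1 b1 (In B)) x : T2 a1 a2 b1 b2 B) := by
        have h4 := TEN_smul 1 (c x) (k : T a1 b1 (In B)) (Pi.single x 1 : T a2 b2 (Out B))
        rw [map_one, one_mul, one_smul, ← TEN_ex1] at h4
        rw [h4, ← Pi.single_smul, smul_eq_mul, mul_one]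
        rfl
      rw [h3]
      exact Submodule.smul_mem _ _ (Submodule.subset_span (Or.inl ⟨k, k.2, x, rfl⟩))
    | add x y hx hy =>
      rw [map_add, map_add]
      exact Submodule.add_mem _ hx hy

theorem TEN_ker (K : Submodule (S (In B)) (T a1 b1 (In B)))
    (K' : Submodule (S (Out B)) (T a2 b2 (Out B))) :
    LinearMap.ker (TEN_R K K' : T2 a1 a2 b1 b2 B →ₗ[ℂ] _) = (K2 K K').restrictScalars ℂ := by
  ext g
  exact ⟨fun h => TEN_K2_R K K' g h, fun h => TEN_R_K2 K K' g h⟩

/-- the isomorphism -/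
noncomputable def TEN_E (K : Submodule (S (In B)) (T a1 b1 (In B)))
    (K' : Submodule (S (Out B)) (T a2 b2 (Out B))) :
    (T2 a1 a2 b1 b2 B ⧸ (K2 K K').restrictScalars ℂ) ≃ₗ[ℂ]
    (T a1 b1 (In B) ⧸ K.restrictScalars ℂ) ⊗[ℂ] (T a2 b2 (Out B) ⧸ K'.restrictScalars ℂ) :=
  (Submodule.quotEquivOfEq _ _ (TEN_ker K K').symm) ≪≫ₗ
    LinearMap.quotKerEquivOfSurjective (TEN_R K K') (TEN_R_surj K K')

theorem TEN_E_mk (K : Submodule (S (In B)) (T a1 b1 (In B)))
    (K' : Submodule (S (Out B)) (T a2 b2 (Out B))) (g : T2 a1 a2 b1 b2 B) :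
    TEN_E K K' (Submodule.Quotient.mk g) = TEN_R K K' g := rfl

theorem TEN_act (w : Equiv.Perm ι) (hw : Stb B w) (t : T a1 b1 (In B) ⊗[ℂ] T a2 b2 (Out B)) :
    act2 B w (TEN_P t) =
      TEN_P (TensorProduct.map (actT (resP B w)) (actT (resN B w)) t) := by
  induction t using TensorProduct.induction_on with
  | zero => simp
  | add x y hx hy => rw [map_add, map_add, hx, hy, map_add, map_add]
  | tmul c d =>
    rw [TensorProduct.map_tmul]
    funext p
    have h1 : ∀ x : S (In B), rename w (rename Subtype.val x) =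
        rename Subtype.val (rename (resP B w) x) := by
      intro x
      rw [rename_rename, rename_rename]
      congr 1
      have : (w : ι → ι) ∘ (Subtype.val : In B → ι) = Subtype.val ∘ (resP B w) := by
        funext i
        simp [resP, hw]
      rw [this]
    have h2 : ∀ x : S (Out B), rename w (rename Subtype.val x) =
        rename Subtype.val (rename (resN B w) x) := by
      intro x
      rw [rename_rename, rename_rename]
      congr 1
      have : (w : ι → ι) ∘ (Subtype.val : Out B → ι) = Subtype.val ∘ (resN B w) := by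
        funext i
        simp [resN, hw]
      rw [this]
    rw [TEN_P_tmul]
    simp only [act2, actT, LinearMap.coe_mk, AddHom.coe_mk]
    rw [← h1, ← h2, ← map_mul]
    rfl

/-- the action on the quotients -/
theorem TEN_RA (K : Submodule (S (In B)) (T a1 b1 (In B)))
    (K' : Submodule (S (Out B)) (T a2 b2 (Out B))) (w : Equiv.Perm ι) (hw : Stb B w)
    (h : K.restrictScalars ℂ ≤ (K.restrictScalars ℂ).comap (actT (resP B w)))
    (h' : K'.restrictScalars ℂ ≤ (K'.restrictScalars ℂ).comap (actT (resN B w)))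
    (g : T2 a1 a2 b1 b2 B) :
    TEN_R K K' (act2 B w g) = TensorProduct.map
      ((K.restrictScalars ℂ).mapQ (K.restrictScalars ℂ) (actT (resP B w)) h)
      ((K'.restrictScalars ℂ).mapQ (K'.restrictScalars ℂ) (actT (resN B w)) h')
      (TEN_R K K' g) := by
  rw [← TEN_PQ g, TEN_act w hw, TEN_R_P, TEN_R_P]
  generalize TEN_Q g = t
  induction t using TensorProduct.induction_on with
  | zero => simp
  | add x y hx hy => rw [map_add, map_add, hx, hy, map_add, map_add]
  | tmul c d =>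
    rw [TensorProduct.map_tmul, TensorProduct.map_tmul, TensorProduct.map_tmul,
      TensorProduct.map_tmul]
    rfl

end TEN

theorem thm_TEN : St_TEN := by
  intro ι _ _ B a1 a2 b1 b2 K K' hf hf'
  have hfin : Module.Finite ℂ (T2 a1 a2 b1 b2 B ⧸ (K2 K K').restrictScalars ℂ) :=
    Module.Finite.equiv (TEN_E K K').symm
  refine ⟨hfin, ?_, ?_⟩
  · rw [(TEN_E K K').finrank_eq, Module.finrank_tensorProduct]
  · intro w hw hK hK'
    have h : K.restrictScalars ℂ ≤ (K.restrictScalars ℂ).comap (actT (resP B w)) :=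
      fun c hc => hK _ c hc
    have h' : K'.restrictScalars ℂ ≤ (K'.restrictScalars ℂ).comap (actT (resN B w)) :=
      fun c hc => hK' _ c hc
    have hst : ∀ g ∈ K2 K K', act2 B w g ∈ K2 K K' := by
      intro g hg
      refine TEN_K2_R K K' _ ?_
      rw [TEN_RA K K' w hw h h', TEN_R_K2 K K' g hg, map_zero]
    refine ⟨hst, ?_⟩
    have h2 : (K2 K K').restrictScalars ℂ ≤ ((K2 K K').restrictScalars ℂ).comap (act2 B w) :=
      fun g hg => hst g hg
    rw [tr2, dif_pos h2, qtr, dif_pos h, qtr, dif_pos h', ← LinearMap.trace_tensorProduct',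
      ← LinearMap.trace_conj' _ (TEN_E K K')]
    congr 1
    refine LinearMap.ext fun z => ?_
    obtain ⟨y, rfl⟩ := (TEN_E K K').surjective z
    obtain ⟨g, rfl⟩ := Submodule.Quotient.mk_surjective _ y
    rw [LinearEquiv.conj_apply_apply, LinearEquiv.symm_apply_apply, Submodule.mapQ_apply, TEN_E_mk,
      TEN_E_mk, TEN_RA K K' w hw h h']

end MDC
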