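import Pool.Agent.MDC.StC

/-!
# MDC: dimension and trace formula for a decomposition by idempotents
-/

set_option autoImplicit false

open MvPolynomial

namespace MDC

/-- trace of an operator on a product by diagonal blocks -/
private theorem TRC_tr {V : Type} [AddCommGroup V] [Module ℂ V] {I : Type} [Fintype I]
    [DecidableEq I] (W : I → Type) [∀ i, AddCommGroup (W i)] [∀ i, Module ℂ (W i)]
    [∀ i, Module.Finite ℂ (W i)] (e : V ≃ₗ[ℂ] (∀ i, W i)) (f : V →ₗ[ℂ] V) :
    LinearMap.trace ℂ V f = ∑ i, LinearMap.trace ℂ (W i)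
      ((LinearMap.proj i ∘ₗ e.toLinearMap) ∘ₗ
        (f ∘ₗ (e.symm.toLinearMap ∘ₗ LinearMap.single ℂ W i))) := by
  have : Module.Finite ℂ V := Module.Finite.equiv e.symm
  have h1 : f = ∑ i, (f ∘ₗ (e.symm.toLinearMap ∘ₗ LinearMap.single ℂ W i)) ∘ₗ
      (LinearMap.proj i ∘ₗ e.toLinearMap) := by
    ext v
    have h2 : v = e.symm (∑ i, Pi.single i (e v i)) := by
      rw [Finset.univ_sum_single, LinearEquiv.symm_apply_apply]
    rw [LinearMap.sum_apply]
    conv_lhs => rw [h2]
    rw [map_sum, map_sum]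
    rfl
  conv_lhs => rw [h1]
  rw [map_sum]
  exact Finset.sum_congr rfl fun i _ => LinearMap.trace_comp_comm' _ _

private theorem TRC_act {a b : ℕ} {ι : Type} [Fintype ι] [DecidableEq ι] (w : Equiv.Perm ι)
    (s : S ι) (c : T a b ι) : actT w (s • c) = rename w s • actT w c := by
  funext x
  change rename w (s * c _) = rename w s * rename w (c _)
  rw [map_mul]

private theorem TRC_stb {ι : Type} [Fintype ι] [DecidableEq ι] (B : Finset ι)
    (w : Equiv.Perm ι) : B.map w.toEmbedding = B ↔ Stb B w := by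
  constructor
  · intro h i
    constructor
    · intro hi
      rw [← h, Finset.mem_map] at hi
      obtain ⟨j, hj, hji⟩ := hi
      have : j = i := w.injective hji
      rwa [this] at hj
    · intro hi
      rw [← h]
      exact Finset.mem_map_of_mem _ hi
  · intro h
    ext i
    rw [Finset.mem_map]
    constructor
    · rintro ⟨j, hj, rfl⟩
      exact (h j).2 hj
    · intro hi
      refine ⟨w.symm i, (h _).1 ?_, by simp⟩
      simpa using hi

theorem thm_TRC (hEVW : St_EVW) : St_TRC := by
  classical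
  intro ι _ _ a b K K' sB K0 hst hfin hK2 hsB hid hsur hK0
  -- the components
  obtain ⟨Q, hQ⟩ : ∃ Q : Finset (Finset ι × ℕ × ℕ), Q = blk a b ι := ⟨_, rfl⟩
  let W : Q → Type := fun q =>
    T2 q.1.2.1 (a - q.1.2.1) q.1.2.2 (b - q.1.2.2) q.1.1 ⧸ (K2 (K q.1) (K' q.1)).restrictScalars ℂ
  have hWf : ∀ q : Q, Module.Finite ℂ (W q) := fun q => hfin q.1 (by rw [← hQ]; exact q.2)
  have hle : ∀ q : Q, K0.restrictScalars ℂ ≤
      ((K2 (K q.1) (K' q.1)).restrictScalars ℂ).comap ((evq q.1).restrictScalars ℂ) := by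
    intro q c hc
    exact (hK0 c).1 hc q.1 (by rw [← hQ]; exact q.2)
  let Φ : (T a b ι ⧸ K0.restrictScalars ℂ) →ₗ[ℂ] (∀ q, W q) := LinearMap.pi fun q =>
    (K0.restrictScalars ℂ).mapQ ((K2 (K q.1) (K' q.1)).restrictScalars ℂ)
      ((evq q.1).restrictScalars ℂ) (hle q)
  have hΦ : ∀ (c : T a b ι) (q : Q), Φ (Submodule.Quotient.mk c) q =
      Submodule.Quotient.mk (evq q.1 c) := fun c q => rfl
  have hinj : Function.Injective Φ := by
    rw [← LinearMap.ker_eq_bot, LinearMap.ker_eq_bot']
    intro v hv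
    obtain ⟨c, rfl⟩ := Submodule.Quotient.mk_surjective _ v
    rw [Submodule.Quotient.mk_eq_zero]
    refine (hK0 c).2 fun q hq => ?_
    have h1 := congrFun hv ⟨q, by rw [hQ]; exact hq⟩
    rw [hΦ] at h1
    exact (Submodule.Quotient.mk_eq_zero _).1 h1
  have hsurj : Function.Surjective Φ := by
    intro h
    have hg : ∀ q : Q, ∃ g : T2 q.1.2.1 (a - q.1.2.1) q.1.2.2 (b - q.1.2.2) q.1.1,
        (Submodule.Quotient.mk g : W q) = h q := fun q => Submodule.Quotient.mk_surjective _ (h q)
    choose g hg using hg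
    obtain ⟨c, hc⟩ := hsur (fun q => if hq : q ∈ Q then g ⟨q, hq⟩ else 0)
    refine ⟨Submodule.Quotient.mk c, ?_⟩
    funext q
    rw [hΦ, ← hg q]
    have h1 := hc q.1 (by rw [← hQ]; exact q.2)
    rw [dif_pos q.2] at h1
    exact (Submodule.Quotient.eq _).2 h1
  let e : (T a b ι ⧸ K0.restrictScalars ℂ) ≃ₗ[ℂ] (∀ q, W q) :=
    LinearEquiv.ofBijective Φ ⟨hinj, hsurj⟩
  have he : ∀ v, e v = Φ v := fun v => rfl
  refine ⟨Module.Finite.equiv e.symm, ?_, ?_⟩
  · rw [e.finrank_eq, Module.finrank_pi_fintype, ← hQ, ← Finset.sum_coe_sort Q]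
  · intro w
    have hq1 : qtr K0 w = LinearMap.trace ℂ (T a b ι ⧸ K0.restrictScalars ℂ)
        ((K0.restrictScalars ℂ).mapQ (K0.restrictScalars ℂ) (actT w) (fun c hc => hst w c hc)) := by
      unfold qtr
      rw [dif_pos]
    rw [hq1, TRC_tr W e, ← hQ, Finset.sum_filter, ← Finset.sum_coe_sort Q]
    refine Finset.sum_congr rfl fun q _ => ?_
    have hqb : q.1 ∈ blk a b ι := by rw [← hQ]; exact q.2
    -- lifts
    have hlift : ∀ g : T2 q.1.2.1 (a - q.1.2.1) q.1.2.2 (b - q.1.2.2) q.1.1, ∃ c : T a b ι,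
        e.symm (Pi.single q (Submodule.Quotient.mk g : W q)) = Submodule.Quotient.mk c ∧
        evq q.1 c - g ∈ K2 (K q.1) (K' q.1) ∧
        ∀ q' ∈ blk a b ι, q' ≠ q.1 → evq q' c ∈ K2 (K q') (K' q') := by
      intro g
      obtain ⟨c, hc⟩ := Submodule.Quotient.mk_surjective _
        (e.symm (Pi.single q (Submodule.Quotient.mk g : W q)))
      have h1 : Φ (Submodule.Quotient.mk c) = Pi.single q (Submodule.Quotient.mk g : W q) := by
        rw [← he, hc, LinearEquiv.apply_symm_apply]
      refine ⟨c, hc.symm, ?_, ?_⟩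
      · have h2 := congrFun h1 q
        rw [hΦ, Pi.single_eq_same] at h2
        exact (Submodule.Quotient.eq _).1 h2
      · intro q' hq' hne
        have h2 := congrFun h1 ⟨q', by rw [hQ]; exact hq'⟩
        rw [hΦ, Pi.single_eq_of_ne (by
          intro h3
          exact hne (congrArg (fun t : Q => t.1) h3))] at h2
        exact (Submodule.Quotient.mk_eq_zero _).1 h2
    by_cases hw : q.1.1.map w.toEmbedding = q.1.1
    · rw [if_pos hw]
      have hS := (TRC_stb q.1.1 w).1 hw
      have hK2' : (K2 (K q.1) (K' q.1)).restrictScalars ℂ ≤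
          ((K2 (K q.1) (K' q.1)).restrictScalars ℂ).comap (act2 q.1.1 w) :=
        fun g hg => hK2 q.1 hqb w hS g hg
      unfold tr2
      rw [dif_pos hK2']
      congr 1
      refine LinearMap.ext fun v => ?_
      obtain ⟨g, rfl⟩ := Submodule.Quotient.mk_surjective _ v
      obtain ⟨c, hc1, hc2, -⟩ := hlift g
      change Φ ((K0.restrictScalars ℂ).mapQ (K0.restrictScalars ℂ) (actT w)
        (fun c hc => hst w c hc) (e.symm (Pi.single q (Submodule.Quotient.mk g : W q)))) q =
          Submodule.Quotient.mk (act2 q.1.1 w g)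
      rw [hc1]
      change (Submodule.Quotient.mk (evq q.1 (actT w c)) : W q) = _
      refine (Submodule.Quotient.eq _).2 ?_
      have hab : q.1.2.1 ≤ a ∧ q.1.2.2 ≤ b := by
        unfold blk at hqb
        rw [Finset.mem_filter, Finset.mem_product, Finset.mem_product, Finset.mem_range,
          Finset.mem_range] at hqb
        omega
      have h3 : evq q.1 (actT w c) = act2 q.1.1 w (evq q.1 c) := by
        unfold evq
        rw [dif_pos hab]
        exact hEVW ι q.1.1 a b _ _ _ _ _ _ w hS c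
      rw [h3, ← map_sub]
      exact hK2 q.1 hqb w hS _ hc2
    · rw [if_neg hw]
      have h0 : ((LinearMap.proj q ∘ₗ e.toLinearMap) ∘ₗ
          (((K0.restrictScalars ℂ).mapQ (K0.restrictScalars ℂ) (actT w)
            (fun c hc => hst w c hc)) ∘ₗ (e.symm.toLinearMap ∘ₗ LinearMap.single ℂ W q))) = 0 := by
        refine LinearMap.ext fun v => ?_
        obtain ⟨g, rfl⟩ := Submodule.Quotient.mk_surjective _ v
        obtain ⟨c, hc1, hc2, hc3⟩ := hlift g
        change Φ ((K0.restrictScalars ℂ).mapQ (K0.restrictScalars ℂ) (actT w)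
          (fun c hc => hst w c hc) (e.symm (Pi.single q (Submodule.Quotient.mk g : W q)))) q = 0
        rw [hc1]
        change (Submodule.Quotient.mk (evq q.1 (actT w c)) : W q) = 0
        rw [Submodule.Quotient.mk_eq_zero]
        -- `c` and `sB B • c` agree
        have h4 : sB q.1.1 • c - c ∈ K0 := by
          refine (hK0 _).2 fun q' hq' => ?_
          rw [map_sub, map_smul]
          by_cases hqq : q' = q.1
          · rw [hqq]
            exact (hid q.1 hqb).1 _
          · exact Submodule.sub_mem _ (Submodule.smul_mem _ _ (hc3 q' hq' hqq)) (hc3 q' hq' hqq)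
        have h5 := hst w _ h4
        rw [map_sub, TRC_act, hsB] at h5
        have h6 := (hK0 _).1 h5 q.1 hqb
        rw [map_sub, map_smul] at h6
        have h7 := (hid q.1 hqb).2 _ hw (evq q.1 (actT w c))
        have h8 := Submodule.sub_mem _ h7 h6
        rw [sub_sub_cancel] at h8
        exact h8
      rw [h0, map_zero]

end MDC
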