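import Pool.Agent.MDC.StA

/-!
# MDC [TRP]: transfer of relations from `Fin p` to `Fin n` (helper2)
-/

set_option autoImplicit false

open MvPolynomial

namespace MDC

/-! ## Products over the indices below `p` -/

private theorem TRP_prod {n p : ℕ} (hp : p ≤ n) {N : Type} [CommMonoid N] (f : Fin n → N) :
    ∏ i : Fin p, f (Fin.castLE hp i) =
      ∏ i ∈ Finset.univ.filter (fun i : Fin n => i.val < p), f i := by
  refine Finset.prod_bij (fun i _ => Fin.castLE hp i) ?_ ?_ ?_ ?_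
  · intro i _
    exact Finset.mem_filter.mpr ⟨Finset.mem_univ _, i.isLt⟩
  · intro i _ j _ h
    exact Fin.castLE_injective hp h
  · intro i hi
    exact ⟨⟨i.val, (Finset.mem_filter.mp hi).2⟩, Finset.mem_univ _, rfl⟩
  · intro i _
    rfl

private theorem TRP_sum {n p : ℕ} (hp : p ≤ n) {N : Type} [AddCommMonoid N] (f : Fin n → N) :
    ∑ i : Fin p, f (Fin.castLE hp i) =
      ∑ i ∈ Finset.univ.filter (fun i : Fin n => i.val < p), f i := by
  refine Finset.sum_bij (fun i _ => Fin.castLE hp i) ?_ ?_ ?_ ?_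
  · intro i _
    exact Finset.mem_filter.mpr ⟨Finset.mem_univ _, i.isLt⟩
  · intro i _ j _ h
    exact Fin.castLE_injective hp h
  · intro i hi
    exact ⟨⟨i.val, (Finset.mem_filter.mp hi).2⟩, Finset.mem_univ _, rfl⟩
  · intro i _
    rfl

/-! ## Extension of tuples -/

section ext

variable {n p k k1 : ℕ} (hp : p ≤ n) (ρ : Fin k1 → Fin k) (w : Fin k → Fin n)

/-- the tuple `w` with the entries at the positions `ρ i` replaced by `v i` -/
private noncomputable def TRP_e (v : Fin k1 → Fin p) : Fin k → Fin n :=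
  Function.extend ρ (fun i => Fin.castLE hp (v i)) w

variable {ρ}

private theorem TRP_e_apply (hρ : Function.Injective ρ) (v : Fin k1 → Fin p) (i : Fin k1) :
    TRP_e hp ρ w v (ρ i) = Fin.castLE hp (v i) := hρ.extend_apply _ _ _

private theorem TRP_e_not (v : Fin k1 → Fin p) (s : Fin k) (hs : s ∉ Set.range ρ) :
    TRP_e hp ρ w v s = w s := Function.extend_apply' _ _ _ hs

private theorem TRP_e_perm (hρ : Function.Injective ρ) (v : Fin k1 → Fin p)
    (σ : Equiv.Perm (Fin k1)) :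
    TRP_e hp ρ w (v ∘ σ) = TRP_e hp ρ w v ∘ (σ.viaFintypeEmbedding ⟨ρ, hρ⟩) := by
  funext s
  by_cases hs : s ∈ Set.range ρ
  · obtain ⟨i, rfl⟩ := hs
    have h1 : (σ.viaFintypeEmbedding ⟨ρ, hρ⟩) (ρ i) = ρ (σ i) :=
      Equiv.Perm.viaFintypeEmbedding_apply_image σ ⟨ρ, hρ⟩ i
    rw [Function.comp_apply, h1, TRP_e_apply hp w hρ, TRP_e_apply hp w hρ]
    rfl
  · have h1 : (σ.viaFintypeEmbedding ⟨ρ, hρ⟩) s = s :=
      Equiv.Perm.viaFintypeEmbedding_apply_notMem_range σ ⟨ρ, hρ⟩ hs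
    rw [Function.comp_apply, h1, TRP_e_not hp w _ _ hs, TRP_e_not hp w _ _ hs]

private theorem TRP_e_update (hρ : Function.Injective ρ) (v : Fin k1 → Fin p) (s : Fin k1)
    (i : Fin p) : TRP_e hp ρ w (Function.update v s i) =
      Function.update (TRP_e hp ρ w v) (ρ s) (Fin.castLE hp i) := by
  funext q
  by_cases hq : q ∈ Set.range ρ
  · obtain ⟨j, rfl⟩ := hq
    rw [TRP_e_apply hp w hρ]
    by_cases hj : j = s
    · subst hj
      rw [Function.update_self, Function.update_self]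
    · rw [Function.update_of_ne hj, Function.update_of_ne (fun h => hj (hρ h)),
        TRP_e_apply hp w hρ]
  · have h1 : q ≠ ρ s := fun h => hq ⟨s, h.symm⟩
    rw [TRP_e_not hp w _ _ hq, Function.update_of_ne h1, TRP_e_not hp w _ _ hq]

private theorem TRP_e_self (hρ : Function.Injective ρ) (v : Fin k1 → Fin p)
    (hv : ∀ i, Fin.castLE hp (v i) = w (ρ i)) : TRP_e hp ρ w v = w := by
  funext s
  by_cases hs : s ∈ Set.range ρ
  · obtain ⟨i, rfl⟩ := hs
    rw [TRP_e_apply hp w hρ, hv]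
  · exact TRP_e_not hp w _ _ hs

variable (hw : ∀ s, s ∈ Set.range ρ ↔ (w s).val < p)

include hw

private theorem TRP_cnt (w' : Fin k → Fin n) (hw' : ∀ s, s ∉ Set.range ρ → w' s = w s) (p' : ℕ)
    (hp' : p ≤ p') : (Finset.univ.filter (fun s => (w' s).val < p')).card ≤
      (Finset.univ.filter (fun s => (w s).val < p')).card := by
  apply Finset.card_le_card
  intro s hs
  have h1 := (Finset.mem_filter.mp hs).2
  refine Finset.mem_filter.mpr ⟨Finset.mem_univ _, ?_⟩
  by_cases h : s ∈ Set.range ρ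
  · exact ((hw s).mp h).trans_le hp'
  · rw [← hw' s h]
    exact h1

private theorem TRP_cnt1 (w' : Fin k → Fin n) (hw' : ∀ s, s ∉ Set.range ρ → w' s = w s)
    (s0 : Fin k) (h0 : s0 ∈ Set.range ρ) (h1 : p ≤ (w' s0).val) :
    (Finset.univ.filter (fun s => (w' s).val < p)).card + 1 ≤
      (Finset.univ.filter (fun s => (w s).val < p)).card := by
  have h2 : s0 ∉ Finset.univ.filter (fun s => (w' s).val < p) := by
    intro h
    have := (Finset.mem_filter.mp h).2
    omega
  rw [← Finset.card_insert_of_notMem h2]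
  apply Finset.card_le_card
  intro s hs
  rw [Finset.mem_insert] at hs
  refine Finset.mem_filter.mpr ⟨Finset.mem_univ _, ?_⟩
  rcases hs with rfl | hs
  · exact (hw s).mp h0
  · by_cases h : s ∈ Set.range ρ
    · exact (hw s).mp h
    · rw [← hw' s h]
      exact (Finset.mem_filter.mp hs).2

end ext

/-! ## The map -/

section tau

variable {n p a b a1 b1 : ℕ} (hp : p ≤ n) (x : Ix a b (Fin n)) (α : Fin a1 → Fin a)
  (β : Fin b1 → Fin b)

private noncomputable def TRP_y (y : Ix a1 b1 (Fin p)) : Ix a b (Fin n) :=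
  (TRP_e hp α x.1 y.1, TRP_e hp β x.2 y.2)

private noncomputable def TRP_t : T a1 b1 (Fin p) →+ T a b (Fin n) where
  toFun c := ∑ y, rename (Fin.castLE hp) (c y) • u (TRP_y hp x α β y)
  map_zero' := by simp
  map_add' c c' := by simp [add_smul, Finset.sum_add_distrib]

private theorem TRP_t_def (c : T a1 b1 (Fin p)) : TRP_t hp x α β c =
    ∑ y, rename (Fin.castLE hp) (c y) • u (TRP_y hp x α β y) := rfl

private theorem TRP_t_smul (s : S (Fin p)) (c : T a1 b1 (Fin p)) :
    TRP_t hp x α β (s • c) = rename (Fin.castLE hp) s • TRP_t hp x α β c := by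
  rw [TRP_t_def, TRP_t_def, Finset.smul_sum]
  refine Finset.sum_congr rfl fun y _ => ?_
  rw [Pi.smul_apply, smul_eq_mul, map_mul, mul_smul]

private theorem TRP_t_u (y : Ix a1 b1 (Fin p)) :
    TRP_t hp x α β (u y) = u (TRP_y hp x α β y) := by
  rw [TRP_t_def, Finset.sum_eq_single y]
  · unfold u
    rw [Pi.single_eq_same, map_one, one_smul]
  · intro z _ hz
    have : (u y : T a1 b1 (Fin p)) z = 0 := by
      unfold u
      exact Pi.single_eq_of_ne hz _
    rw [this, map_zero, zero_smul]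
  · intro h
    exact absurd (Finset.mem_univ _) h

private theorem TRP_C (q : ℂ) (c : T a b (Fin n)) : q • c = (C q : S (Fin n)) • c := by
  funext z
  rw [Pi.smul_apply, Pi.smul_apply, smul_eq_mul, MvPolynomial.smul_eq_C_mul]

private theorem TRP_t_C (q : ℂ) (c : T a1 b1 (Fin p)) :
    TRP_t hp x α β (q • c) = q • TRP_t hp x α β c := by
  rw [TRP_C, TRP_C, TRP_t_smul, rename_C]

/-- the elements which are mapped into `N` -/
private noncomputable def TRP_K (N : Submodule (S (Fin n)) (T a b (Fin n))) :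
    Submodule (S (Fin p)) (T a1 b1 (Fin p)) where
  carrier := {c | TRP_t hp x α β c ∈ N}
  add_mem' := by
    intro c c' h h'
    change TRP_t hp x α β (c + c') ∈ N
    rw [map_add]
    exact N.add_mem h h'
  zero_mem' := by
    change TRP_t hp x α β 0 ∈ N
    rw [map_zero]
    exact N.zero_mem
  smul_mem' := by
    intro s c h
    change TRP_t hp x α β (s • c) ∈ N
    rw [TRP_t_smul]
    exact N.smul_mem _ h

variable {α β} (hα : Function.Injective α) (hβ : Function.Injective β)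

include hα in
private theorem TRP_rA (σ : Equiv.Perm (Fin a1)) (y : Ix a1 b1 (Fin p)) :
    TRP_t hp x α β (rA σ y) =
      rA (σ.viaFintypeEmbedding ⟨α, hα⟩) (TRP_y hp x α β y) := by
  unfold rA
  rw [map_sub, TRP_t_C, TRP_t_u, TRP_t_u, Equiv.Perm.viaFintypeEmbedding_sign]
  unfold TRP_y
  rw [TRP_e_perm hp x.1 hα]

include hβ in
private theorem TRP_rB (σ : Equiv.Perm (Fin b1)) (y : Ix a1 b1 (Fin p)) :
    TRP_t hp x α β (rB σ y) =
      rB (σ.viaFintypeEmbedding ⟨β, hβ⟩) (TRP_y hp x α β y) := by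
  unfold rB
  rw [map_sub, TRP_t_C, TRP_t_u, TRP_t_u, Equiv.Perm.viaFintypeEmbedding_sign]
  unfold TRP_y
  rw [TRP_e_perm hp x.2 hβ]

private theorem TRP_split (f : Fin n → T a b (Fin n)) :
    ∑ i : Fin p, f (Fin.castLE hp i) =
      ∑ i, f i - ∑ i ∈ Finset.univ.filter (fun i : Fin n => ¬ i.val < p), f i := by
  rw [TRP_sum hp f, eq_sub_iff_add_eq]
  exact Finset.sum_filter_add_sum_filter_not _ _ _

private theorem TRP_t_X (l : ℕ) (i : Fin p) (y : Ix a1 b1 (Fin p)) :
    TRP_t hp x α β (((X i : S (Fin p)) ^ l) • u y) =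
      ((X (Fin.castLE hp i) : S (Fin n)) ^ l) • u (TRP_y hp x α β y) := by
  rw [TRP_t_smul, TRP_t_u, map_pow, rename_X]

include hα in
private theorem TRP_rTh (s : Fin a1) (y : Ix a1 b1 (Fin p)) (l : ℕ) :
    TRP_t hp x α β (rTh s y l) = rTh (α s) (TRP_y hp x α β y) l -
      ∑ i ∈ Finset.univ.filter (fun i : Fin n => ¬ i.val < p), ((X i : S (Fin n)) ^ l) •
        u (Function.update (TRP_y hp x α β y).1 (α s) i, (TRP_y hp x α β y).2) := by
  unfold rTh
  rw [map_sum, ← TRP_split hp (fun i => ((X i : S (Fin n)) ^ l) •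
        u (Function.update (TRP_y hp x α β y).1 (α s) i, (TRP_y hp x α β y).2))]
  refine Finset.sum_congr rfl fun i _ => ?_
  rw [TRP_t_X]
  unfold TRP_y
  rw [TRP_e_update hp x.1 hα]

include hβ in
private theorem TRP_rEt (t : Fin b1) (y : Ix a1 b1 (Fin p)) (l : ℕ) :
    TRP_t hp x α β (rEt t y l) = rEt (β t) (TRP_y hp x α β y) l -
      ∑ i ∈ Finset.univ.filter (fun i : Fin n => ¬ i.val < p), ((X i : S (Fin n)) ^ l) •
        u ((TRP_y hp x α β y).1, Function.update (TRP_y hp x α β y).2 (β t) i) := by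
  unfold rEt
  rw [map_sum, ← TRP_split hp (fun i => ((X i : S (Fin n)) ^ l) •
        u ((TRP_y hp x α β y).1, Function.update (TRP_y hp x α β y).2 (β t) i))]
  refine Finset.sum_congr rfl fun i _ => ?_
  rw [TRP_t_X]
  unfold TRP_y
  rw [TRP_e_update hp x.2 hβ]

include hα hβ in
private theorem TRP_rPh (s : Fin a1) (t : Fin b1) (y : Ix a1 b1 (Fin p)) (l : ℕ) :
    TRP_t hp x α β (rPh s t y l) = rPh (α s) (β t) (TRP_y hp x α β y) l -
      ∑ i ∈ Finset.univ.filter (fun i : Fin n => ¬ i.val < p), ((X i : S (Fin n)) ^ l) •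
        u (Function.update (TRP_y hp x α β y).1 (α s) i,
          Function.update (TRP_y hp x α β y).2 (β t) i) := by
  unfold rPh
  rw [map_sum, ← TRP_split hp (fun i => ((X i : S (Fin n)) ^ l) •
        u (Function.update (TRP_y hp x α β y).1 (α s) i,
          Function.update (TRP_y hp x α β y).2 (β t) i))]
  refine Finset.sum_congr rfl fun i _ => ?_
  rw [TRP_t_X]
  unfold TRP_y
  rw [TRP_e_update hp x.1 hα, TRP_e_update hp x.2 hβ]

variable (hwα : ∀ s, s ∈ Set.range α ↔ (x.1 s).val < p)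
  (hwβ : ∀ s, s ∈ Set.range β ↔ (x.2 s).val < p)

private theorem TRP_ge {i : Fin n} (hi : i ∈ Finset.univ.filter (fun i : Fin n => ¬ i.val < p)) :
    p ≤ i.val := by
  have := (Finset.mem_filter.mp hi).2
  omega

private theorem TRP_upd {k k1 : ℕ} {ρ : Fin k1 → Fin k} (w : Fin k → Fin n)
    (v : Fin k1 → Fin p) (s : Fin k1) (i : Fin n) (q : Fin k) (hq : q ∉ Set.range ρ) :
    Function.update (TRP_e hp ρ w v) (ρ s) i q = w q := by
  have h1 : q ≠ ρ s := fun h => hq ⟨s, h.symm⟩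
  rw [Function.update_of_ne h1, TRP_e_not hp w _ _ hq]

include hwα hwβ

private theorem TRP_hi1 (s : Fin a1) (y : Ix a1 b1 (Fin p)) (i : Fin n) (hi : p ≤ i.val) :
    u (Function.update (TRP_y hp x α β y).1 (α s) i, (TRP_y hp x α β y).2) ∈ Hi 1 p x := by
  refine Submodule.subset_span ⟨_, rfl, ?_, ?_⟩
  · have h1 := TRP_cnt1 x.1 hwα (Function.update (TRP_y hp x α β y).1 (α s) i)
      (fun q hq => TRP_upd hp x.1 y.1 s i q hq) (α s) ⟨s, rfl⟩ (by
        rw [Function.update_self]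
        exact hi)
    have h2 := TRP_cnt x.2 hwβ (TRP_y hp x α β y).2 (fun q hq => TRP_e_not hp x.2 y.2 q hq) p le_rfl
    exact (Nat.add_right_comm _ _ _).le.trans (add_le_add h1 h2)
  · intro p' hp'
    have h1 := TRP_cnt x.1 hwα (Function.update (TRP_y hp x α β y).1 (α s) i)
      (fun q hq => TRP_upd hp x.1 y.1 s i q hq) p' hp'
    have h2 := TRP_cnt x.2 hwβ (TRP_y hp x α β y).2 (fun q hq => TRP_e_not hp x.2 y.2 q hq) p' hp'
    exact add_le_add h1 h2

private theorem TRP_hi1' (t : Fin b1) (y : Ix a1 b1 (Fin p)) (i : Fin n) (hi : p ≤ i.val) :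
    u ((TRP_y hp x α β y).1, Function.update (TRP_y hp x α β y).2 (β t) i) ∈ Hi 1 p x := by
  refine Submodule.subset_span ⟨_, rfl, ?_, ?_⟩
  · have h1 := TRP_cnt1 x.2 hwβ (Function.update (TRP_y hp x α β y).2 (β t) i)
      (fun q hq => TRP_upd hp x.2 y.2 t i q hq) (β t) ⟨t, rfl⟩ (by
        rw [Function.update_self]
        exact hi)
    have h2 := TRP_cnt x.1 hwα (TRP_y hp x α β y).1 (fun q hq => TRP_e_not hp x.1 y.1 q hq) p le_rfl
    exact (Nat.add_assoc _ _ _).le.trans (add_le_add h2 h1)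
  · intro p' hp'
    have h1 := TRP_cnt x.2 hwβ (Function.update (TRP_y hp x α β y).2 (β t) i)
      (fun q hq => TRP_upd hp x.2 y.2 t i q hq) p' hp'
    have h2 := TRP_cnt x.1 hwα (TRP_y hp x α β y).1 (fun q hq => TRP_e_not hp x.1 y.1 q hq) p' hp'
    exact add_le_add h2 h1

private theorem TRP_hi2 (s : Fin a1) (t : Fin b1) (y : Ix a1 b1 (Fin p)) (i : Fin n)
    (hi : p ≤ i.val) :
    u (Function.update (TRP_y hp x α β y).1 (α s) i,
      Function.update (TRP_y hp x α β y).2 (β t) i) ∈ Hi 2 p x := by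
  refine Submodule.subset_span ⟨_, rfl, ?_, ?_⟩
  · have h1 := TRP_cnt1 x.1 hwα (Function.update (TRP_y hp x α β y).1 (α s) i)
      (fun q hq => TRP_upd hp x.1 y.1 s i q hq) (α s) ⟨s, rfl⟩ (by
        rw [Function.update_self]
        exact hi)
    have h2 := TRP_cnt1 x.2 hwβ (Function.update (TRP_y hp x α β y).2 (β t) i)
      (fun q hq => TRP_upd hp x.2 y.2 t i q hq) (β t) ⟨t, rfl⟩ (by
        rw [Function.update_self]
        exact hi)
    exact (Nat.add_add_add_comm _ _ 1 1).le.trans (add_le_add h1 h2)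
  · intro p' hp'
    have h1 := TRP_cnt x.1 hwα (Function.update (TRP_y hp x α β y).1 (α s) i)
      (fun q hq => TRP_upd hp x.1 y.1 s i q hq) p' hp'
    have h2 := TRP_cnt x.2 hwβ (Function.update (TRP_y hp x α β y).2 (β t) i)
      (fun q hq => TRP_upd hp x.2 y.2 t i q hq) p' hp'
    exact add_le_add h1 h2

include hα hβ

private theorem TRP_relP : RelP a1 b1 (Fin p) ≤
    TRP_K hp x α β (Rel a b (Fin n) ⊔ Hi 2 p x) := by
  refine sup_le (Submodule.span_le.mpr ?_) (Submodule.span_le.mpr ?_)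
  · rintro c (⟨σ, y, rfl⟩ | ⟨σ, y, rfl⟩)
    · change TRP_t hp x α β (rA σ y) ∈ Rel a b (Fin n) ⊔ Hi 2 p x
      rw [TRP_rA hp x hα]
      exact Submodule.mem_sup_left (Submodule.mem_sup_left (Submodule.mem_sup_left
        (Submodule.subset_span (Or.inl ⟨_, _, rfl⟩))))
    · change TRP_t hp x α β (rB σ y) ∈ Rel a b (Fin n) ⊔ Hi 2 p x
      rw [TRP_rB hp x hβ]
      exact Submodule.mem_sup_left (Submodule.mem_sup_left (Submodule.mem_sup_left
        (Submodule.subset_span (Or.inr ⟨_, _, rfl⟩))))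
  · rintro c ⟨s, t, y, l, rfl⟩
    change TRP_t hp x α β (rPh s t y l) ∈ Rel a b (Fin n) ⊔ Hi 2 p x
    rw [TRP_rPh hp x hα hβ]
    refine Submodule.sub_mem _ ?_ ?_
    · exact Submodule.mem_sup_left (Submodule.mem_sup_left (Submodule.mem_sup_right
        (Submodule.subset_span ⟨_, _, _, _, rfl⟩)))
    · refine Submodule.mem_sup_right (Submodule.sum_mem _ fun i hi => Submodule.smul_mem _ _ ?_)
      exact TRP_hi2 hp x hwα hwβ s t y i (TRP_ge hi)

private theorem TRP_rel : Rel a1 b1 (Fin p) ≤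
    TRP_K hp x α β (Rel a b (Fin n) ⊔ Hi 1 p x) := by
  refine sup_le ?_ (Submodule.span_le.mpr ?_)
  · intro c hc
    have h1 := TRP_relP hp x hα hβ hwα hwβ hc
    have h2 : Hi 2 p x ≤ Hi 1 p x := by
      refine Submodule.span_mono ?_
      rintro c ⟨y, h3, h4, h5⟩
      exact ⟨y, h3, by omega, h5⟩
    exact sup_le_sup_left h2 _ h1
  · rintro c (⟨s, y, l, rfl⟩ | ⟨t, y, l, rfl⟩)
    · change TRP_t hp x α β (rTh s y l) ∈ Rel a b (Fin n) ⊔ Hi 1 p x
      rw [TRP_rTh hp x hα]
      refine Submodule.sub_mem _ ?_ ?_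
      · exact Submodule.mem_sup_left (Submodule.mem_sup_right
          (Submodule.subset_span (Or.inl ⟨_, _, _, rfl⟩)))
      · refine Submodule.mem_sup_right (Submodule.sum_mem _ fun i hi => Submodule.smul_mem _ _ ?_)
        exact TRP_hi1 hp x hwα hwβ s y i (TRP_ge hi)
    · change TRP_t hp x α β (rEt t y l) ∈ Rel a b (Fin n) ⊔ Hi 1 p x
      rw [TRP_rEt hp x hβ]
      refine Submodule.sub_mem _ ?_ ?_
      · exact Submodule.mem_sup_left (Submodule.mem_sup_right
          (Submodule.subset_span (Or.inr ⟨_, _, _, rfl⟩)))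
      · refine Submodule.mem_sup_right (Submodule.sum_mem _ fun i hi => Submodule.smul_mem _ _ ?_)
        exact TRP_hi1' hp x hwα hwβ t y i (TRP_ge hi)

end tau

/-! ## Power series -/

private theorem TRP_inv {n p : ℕ} (hp : p ≤ n) (i : Fin p) :
    PowerSeries.map (rename (R := ℂ) (Fin.castLE hp)).toRingHom (inv i) =
      inv (Fin.castLE hp i) := by
  apply PowerSeries.ext
  intro q
  rw [PowerSeries.coeff_map]
  unfold inv
  rw [PowerSeries.coeff_mk, PowerSeries.coeff_mk]
  change rename (Fin.castLE hp) ((X i : S (Fin p)) ^ q) = _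
  rw [map_pow, rename_X]

private theorem TRP_lin {n p : ℕ} (hp : p ≤ n) (i : Fin p) :
    PowerSeries.map (rename (R := ℂ) (Fin.castLE hp)).toRingHom (lin i) =
      lin (Fin.castLE hp i) := by
  unfold lin
  rw [map_sub, map_one, map_mul, PowerSeries.map_C, PowerSeries.map_X]
  have : (rename (R := ℂ) (Fin.castLE hp)).toRingHom (X i : S (Fin p)) =
      X (Fin.castLE hp i) := rename_X _ _
  rw [this]

private theorem TRP_pos {n p k : ℕ} (w : Fin k → Fin n) :
    ∃ ρ : Fin (Finset.univ.filter (fun s => (w s).val < p)).card → Fin k,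
      Function.Injective ρ ∧ (∀ s, s ∈ Set.range ρ ↔ (w s).val < p) ∧
      ∀ (N : Type) [CommMonoid N] (f : Fin k → N), ∏ i, f (ρ i) =
        ∏ s ∈ Finset.univ.filter (fun s => (w s).val < p), f s := by
  set A := Finset.univ.filter (fun s => (w s).val < p) with hA
  refine ⟨fun i => (A.equivFin.symm i : Fin k), ?_, ?_, ?_⟩
  · intro i j h
    exact A.equivFin.symm.injective (Subtype.ext h)
  · intro s
    constructor
    · rintro ⟨i, rfl⟩
      exact (Finset.mem_filter.mp (A.equivFin.symm i).2).2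
    · intro hs
      have hsA : s ∈ A := Finset.mem_filter.mpr ⟨Finset.mem_univ _, hs⟩
      refine ⟨A.equivFin ⟨s, hsA⟩, ?_⟩
      change ((A.equivFin.symm (A.equivFin ⟨s, hsA⟩) : A) : Fin k) = s
      rw [Equiv.symm_apply_apply]
  · intro N _ f
    rw [Equiv.prod_comp A.equivFin.symm (fun z : A => f (z : Fin k)), Finset.prod_coe_sort]

/-- [TRP] -/
theorem thm_TRP : St_TRP := by
  intro n p a b hp x
  obtain ⟨α, hα, hwα, hPα⟩ := TRP_pos (p := p) x.1
  obtain ⟨β, hβ, hwβ, hPβ⟩ := TRP_pos (p := p) x.2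
  have ha : ∀ i, (x.1 (α i)).val < p := fun i => (hwα _).mp ⟨i, rfl⟩
  have hb : ∀ i, (x.2 (β i)).val < p := fun i => (hwβ _).mp ⟨i, rfl⟩
  refine ⟨_, _, (fun i => ⟨(x.1 (α i)).val, ha i⟩, fun j => ⟨(x.2 (β j)).val, hb j⟩),
    TRP_t hp x α β, rfl, TRP_t_smul hp x α β, ?_, ?_, ?_, ?_⟩
  · rw [TRP_t_u]
    unfold TRP_y
    rw [TRP_e_self hp x.1 hα _ (fun i => rfl), TRP_e_self hp x.2 hβ _ (fun i => rfl)]
  · intro c hc
    exact TRP_relP hp x hα hβ hwα hwβ hc
  · intro c hc
    exact TRP_rel hp x hα hβ hwα hwβ hc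
  · unfold EE EEp
    rw [map_mul, map_mul, map_prod, map_prod, map_prod]
    congr 1
    · congr 1
      · rw [← TRP_prod hp (fun i : Fin n => lin i)]
        exact Finset.prod_congr rfl fun i _ => TRP_lin hp i
      · rw [← hPα _ (fun s => inv (x.1 s))]
        exact Finset.prod_congr rfl fun i _ => TRP_inv hp _
    · rw [← hPβ _ (fun s => inv (x.2 s))]
      exact Finset.prod_congr rfl fun i _ => TRP_inv hp _

end MDC
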