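import Pool.Agent.MDC.StA

/-!
# MDC / UPB: the upper bound for the dimension of `T / L`, `ι = Fin n`
-/

set_option autoImplicit false

open MvPolynomial

namespace MDC

/-! ### fibres -/

private theorem UPB_prod {M : Type*} [CommMonoid M] {a n : ℕ} (f : Fin a → Fin n) (h : Fin n → M)
    (p : ℕ) : ∏ s ∈ Finset.univ.filter (fun s => (f s).val < p), h (f s) =
      ∏ i ∈ Finset.univ.filter (fun i : Fin n => i.val < p),
        h i ^ (Finset.univ.filter (fun s => f s = i)).card := by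
  rw [← Finset.prod_fiberwise_of_maps_to' (s := Finset.univ.filter (fun s => (f s).val < p))
    (g := f) (t := Finset.univ.filter (fun i : Fin n => i.val < p)) (by simp) h]
  refine Finset.prod_congr rfl fun i hi => ?_
  rw [Finset.prod_const, Finset.filter_filter]
  congr 2
  ext s
  simp only [Finset.mem_filter, Finset.mem_univ, true_and] at hi ⊢
  constructor
  · exact fun h => h.2
  · intro h
    exact ⟨by rw [h]; exact hi, h⟩

private theorem UPB_sum {M : Type*} [AddCommMonoid M] {a n : ℕ} (f : Fin a → Fin n) (h : Fin n → M)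
    (p : ℕ) : ∑ s ∈ Finset.univ.filter (fun s => (f s).val < p), h (f s) =
      ∑ i ∈ Finset.univ.filter (fun i : Fin n => i.val < p),
        (Finset.univ.filter (fun s => f s = i)).card • h i := by
  rw [← Finset.sum_fiberwise_of_maps_to' (s := Finset.univ.filter (fun s => (f s).val < p))
    (g := f) (t := Finset.univ.filter (fun i : Fin n => i.val < p)) (by simp) h]
  refine Finset.sum_congr rfl fun i hi => ?_
  rw [Finset.sum_const, Finset.filter_filter]
  congr 2
  ext s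
  simp only [Finset.mem_filter, Finset.mem_univ, true_and] at hi ⊢
  constructor
  · exact fun h => h.2
  · intro h
    exact ⟨by rw [h]; exact hi, h⟩

private theorem UPB_Dp {a b n : ℕ} (p : ℕ) (x : Ix a b (Fin n)) : Dp p x = pw (wd x) p := by
  unfold Dp pw wd
  rw [Finset.sum_add_distrib]
  have h1 := UPB_sum x.1 (fun _ => 1) p
  have h2 := UPB_sum x.2 (fun _ => 1) p
  simp only [Finset.sum_const, smul_eq_mul, mul_one] at h1 h2
  rw [h1, h2]

private theorem UPB_EEp {a b n : ℕ} (p : ℕ) (x : Ix a b (Fin n)) : EEp p x = Wp (wd x) p := by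
  unfold EEp Wp wd
  rw [mul_assoc]
  congr 1
  simp_rw [pow_add]
  rw [Finset.prod_mul_distrib, UPB_prod x.1 inv p, UPB_prod x.2 inv p]

private theorem UPB_pws {a b n : ℕ} (x : Ix a b (Fin n)) (k : ℕ) :
    (∑ q, (X (x.1 q) : S (Fin n)) ^ k + ∑ q, (X (x.2 q) : S (Fin n)) ^ k) =
      ∑ i, (wd x i : S (Fin n)) * X i ^ k := by
  have h1 := UPB_sum x.1 (fun i => (X i : S (Fin n)) ^ k) n
  have h2 := UPB_sum x.2 (fun i => (X i : S (Fin n)) ^ k) n
  simp only [Fin.is_lt, Finset.filter_true] at h1 h2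
  rw [h1, h2, ← Finset.sum_add_distrib]
  refine Finset.sum_congr rfl fun i _ => ?_
  unfold wd
  rw [nsmul_eq_mul, nsmul_eq_mul, Nat.cast_add, add_mul]

private theorem UPB_Dp_le {a b n : ℕ} (p : ℕ) (x : Ix a b (Fin n)) : Dp p x ≤ a + b := by
  unfold Dp
  refine add_le_add ((Finset.card_filter_le _ _).trans (by simp))
    ((Finset.card_filter_le _ _).trans (by simp))

/-! ### the weight -/

private theorem UPB_digits (N : ℕ) (f : ℕ → ℕ) (hf : ∀ p, f p ≤ N) : ∀ p,
    ∑ q ∈ Finset.range p, f q * (N + 1) ^ q < (N + 1) ^ p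
  | 0 => by simp
  | p + 1 => by
    rw [Finset.sum_range_succ, pow_succ]
    have h1 := UPB_digits N f hf p
    have h2 : f p * (N + 1) ^ p ≤ N * (N + 1) ^ p := Nat.mul_le_mul_right _ (hf p)
    nlinarith

private theorem UPB_wt (N n p : ℕ) (f g : ℕ → ℕ) (hf : ∀ p, f p ≤ N) (hp : p ≤ n)
    (h1 : f p + 1 ≤ g p) (h2 : ∀ q, p ≤ q → f q ≤ g q) :
    ∑ q ∈ Finset.range (n + 1), f q * (N + 1) ^ q <
      ∑ q ∈ Finset.range (n + 1), g q * (N + 1) ^ q := by
  have h3 : ∀ h : ℕ → ℕ, ∑ q ∈ Finset.range (n + 1), h q * (N + 1) ^ q =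
      ∑ q ∈ Finset.range p, h q * (N + 1) ^ q + (h p * (N + 1) ^ p +
        ∑ q ∈ Finset.Ico (p + 1) (n + 1), h q * (N + 1) ^ q) := by
    intro h
    rw [← Finset.sum_range_add_sum_Ico _ (show p ≤ n + 1 by omega),
      Finset.sum_eq_sum_Ico_succ_bot (show p < n + 1 by omega)]
  rw [h3 f, h3 g]
  have h4 := UPB_digits N f hf p
  have h5 : ∑ q ∈ Finset.Ico (p + 1) (n + 1), f q * (N + 1) ^ q ≤
      ∑ q ∈ Finset.Ico (p + 1) (n + 1), g q * (N + 1) ^ q := by
    refine Finset.sum_le_sum fun q hq => Nat.mul_le_mul_right _ (h2 q ?_)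
    have := (Finset.mem_Ico.1 hq).1
    omega
  have h6 : (f p + 1) * (N + 1) ^ p ≤ g p * (N + 1) ^ p := Nat.mul_le_mul_right _ h1
  rw [add_mul, one_mul] at h6
  omega

/-- the weight of a monomial -/
private def UPBr {a b n : ℕ} (x : Ix a b (Fin n)) : ℕ :=
  ∑ q ∈ Finset.range (n + 1), (a + b - Dp q x) * (a + b + 1) ^ q

private theorem UPBr_lt {a b n : ℕ} (x y : Ix a b (Fin n)) (δ p : ℕ) (hδ : 1 ≤ δ) (hp : p ≤ n)
    (h1 : Dp p y + δ ≤ Dp p x) (h2 : ∀ q, p ≤ q → Dp q y ≤ Dp q x) : UPBr x < UPBr y := by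
  refine UPB_wt (a + b) n p (fun q => a + b - Dp q x) (fun q => a + b - Dp q y)
    (fun q => Nat.sub_le _ _) hp ?_ ?_
  · have h3 := UPB_Dp_le p x
    show a + b - Dp p x + 1 ≤ a + b - Dp p y
    omega
  · intro q hq
    have h3 := h2 q hq
    show a + b - Dp q x ≤ a + b - Dp q y
    omega

/-! ### subsets -/

/-- the `d`-subsets of `Fin n` -/
private abbrev UPBI (d n : ℕ) : Type := ↥((Finset.univ : Finset (Fin n)).powersetCard d)

/-- increasing enumeration of a `d`-subset -/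
private noncomputable def UPBe {d n : ℕ} (t : UPBI d n) : Fin d → Fin n :=
  ⇑(t.1.orderEmbOfFin ((Finset.mem_powersetCard.1 t.2).2))

private theorem UPBe_inj {d n : ℕ} (t : UPBI d n) : Function.Injective (UPBe t) :=
  (t.1.orderEmbOfFin ((Finset.mem_powersetCard.1 t.2).2)).injective

private theorem UPBe_range {d n : ℕ} (t : UPBI d n) : Set.range (UPBe t) = ↑t.1 :=
  Finset.range_orderEmbOfFin _ _

private theorem UPBe_mem {d n : ℕ} (t : UPBI d n) (a : Fin d) : UPBe t a ∈ t.1 :=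
  Finset.orderEmbOfFin_mem _ _ _

private theorem UPBe_surj {d n : ℕ} (t : UPBI d n) {j : Fin n} (hj : j ∈ t.1) :
    ∃ a, UPBe t a = j := by
  have h : j ∈ Set.range (UPBe t) := by rw [UPBe_range]; exact hj
  exact h

/-- the subset of an injective tuple -/
private def UPBim {d n : ℕ} (j : Fin d → Fin n) (hj : Function.Injective j) : UPBI d n :=
  ⟨Finset.univ.image j, by
    rw [Finset.mem_powersetCard]
    exact ⟨Finset.subset_univ _, by rw [Finset.card_image_of_injective _ hj]; simp⟩⟩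

private theorem UPB_perm {d n : ℕ} (j : Fin d → Fin n) (hj : Function.Injective j) :
    ∃ τ : Equiv.Perm (Fin d), UPBe (UPBim j hj) ∘ τ = j := by
  have h1 : ∀ a, ∃ b, UPBe (UPBim j hj) b = j a := fun a =>
    UPBe_surj _ (by simp [UPBim])
  choose f hf using h1
  have hfi : Function.Injective f := by
    intro a b hab
    apply hj
    rw [← hf a, ← hf b, hab]
  have hfb : Function.Bijective f := Finite.injective_iff_bijective.1 hfi
  exact ⟨Equiv.ofBijective f hfb, by funext a; exact hf a⟩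

private theorem UPB_cnt {d n : ℕ} (f : Fin d → Fin n) (hf : Function.Injective f) (i : Fin n) :
    (Finset.univ.filter (fun s => f s = i)).card = if i ∈ Finset.univ.image f then 1 else 0 := by
  split_ifs with h
  · obtain ⟨s, _, hs⟩ := Finset.mem_image.1 h
    rw [Finset.card_eq_one]
    refine ⟨s, ?_⟩
    ext s'
    simp only [Finset.mem_filter, Finset.mem_univ, true_and, Finset.mem_singleton]
    constructor
    · intro h'
      exact hf (h'.trans hs.symm)
    · rintro rfl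
      exact hs
  · rw [Finset.card_eq_zero, Finset.filter_eq_empty_iff]
    intro s _ hs
    exact h (Finset.mem_image.2 ⟨s, Finset.mem_univ _, hs⟩)

private theorem UPBe_image {d n : ℕ} (t : UPBI d n) : Finset.univ.image (UPBe t) = t.1 := by
  ext i
  simp only [Finset.mem_image, Finset.mem_univ, true_and]
  exact ⟨fun ⟨a, ha⟩ => ha ▸ UPBe_mem t a, fun hi => UPBe_surj t hi⟩

/-- the monomial of a pair of subsets -/
private noncomputable def UPBx {a b n : ℕ} (t : UPBI a n × UPBI b n) : Ix a b (Fin n) :=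
  (UPBe t.1, UPBe t.2)

private theorem UPBx_wd {a b n : ℕ} (t : UPBI a n × UPBI b n) (i : Fin n) :
    wd (UPBx t) i = (if i ∈ t.1.1 then 1 else 0) + (if i ∈ t.2.1 then 1 else 0) := by
  unfold wd
  show (Finset.univ.filter (fun s => UPBe t.1 s = i)).card +
    (Finset.univ.filter (fun s => UPBe t.2 s = i)).card = _
  rw [UPB_cnt _ (UPBe_inj t.1), UPB_cnt _ (UPBe_inj t.2), UPBe_image, UPBe_image]

private theorem UPB_wd_im {a b n : ℕ} (y : Ix a b (Fin n)) (h1 : Function.Injective y.1)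
    (h2 : Function.Injective y.2) : wd (UPBx (UPBim y.1 h1, UPBim y.2 h2)) = wd y := by
  funext i
  rw [UPBx_wd]
  unfold wd
  rw [UPB_cnt _ h1, UPB_cnt _ h2]
  rfl

private theorem UPBr_im {a b n : ℕ} (y : Ix a b (Fin n)) (h1 : Function.Injective y.1)
    (h2 : Function.Injective y.2) : UPBr (UPBx (UPBim y.1 h1, UPBim y.2 h2)) = UPBr y := by
  unfold UPBr
  refine Finset.sum_congr rfl fun q _ => ?_
  rw [UPB_Dp, UPB_Dp, UPB_wd_im]

/-! ### generators -/

private theorem UPB_decomp {a b n : ℕ} (c : T a b (Fin n)) :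
    c = ∑ x, c x • (u x : T a b (Fin n)) := by
  funext j
  rw [Finset.sum_apply, Finset.sum_eq_single j]
  · simp [u]
  · intro b _ hb
    simp [u, Ne.symm hb]
  · simp

private theorem UPB_rA {a b n : ℕ} {L : Submodule (S (Fin n)) (T a b (Fin n))}
    (hL : Rel a b (Fin n) ≤ L) (τ : Equiv.Perm (Fin a)) (x : Ix a b (Fin n)) : rA τ x ∈ L :=
  hL (Submodule.mem_sup_left (Submodule.mem_sup_left (Submodule.subset_span (Or.inl ⟨_, _, rfl⟩))))

private theorem UPB_rB {a b n : ℕ} {L : Submodule (S (Fin n)) (T a b (Fin n))}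
    (hL : Rel a b (Fin n) ≤ L) (τ : Equiv.Perm (Fin b)) (x : Ix a b (Fin n)) : rB τ x ∈ L :=
  hL (Submodule.mem_sup_left (Submodule.mem_sup_left (Submodule.subset_span (Or.inr ⟨_, _, rfl⟩))))

private theorem UPB_two {a b n : ℕ} {L : Submodule (S (Fin n)) (T a b (Fin n))}
    (x : T a b (Fin n)) (h : (2 : ℂ) • x ∈ L) : x ∈ L := by
  have h4 := Submodule.smul_of_tower_mem L (2⁻¹ : ℂ) h
  rw [smul_smul] at h4
  norm_num at h4
  exact h4

private theorem UPB_swap {d n : ℕ} (j : Fin d → Fin n) (hj : ¬ Function.Injective j) :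
    ∃ τ : Equiv.Perm (Fin d), Equiv.Perm.sign τ = -1 ∧ j ∘ τ = j := by
  rw [Function.Injective] at hj
  push Not at hj
  obtain ⟨a, b, hab, hne⟩ := hj
  refine ⟨Equiv.swap a b, Equiv.Perm.sign_swap hne, ?_⟩
  funext x
  simp only [Function.comp_apply]
  rcases eq_or_ne x a with rfl | hxa
  · rw [Equiv.swap_apply_left, hab]
  · rcases eq_or_ne x b with rfl | hxb
    · rw [Equiv.swap_apply_right, hab]
    · rw [Equiv.swap_apply_of_ne_of_ne hxa hxb]

private theorem UPB_non {a b n : ℕ} {L : Submodule (S (Fin n)) (T a b (Fin n))}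
    (hL : Rel a b (Fin n) ≤ L) (y : Ix a b (Fin n))
    (hy : ¬ (Function.Injective y.1 ∧ Function.Injective y.2)) : (u y : T a b (Fin n)) ∈ L := by
  rw [not_and_or] at hy
  rcases hy with hy | hy
  · obtain ⟨τ, h1, h2⟩ := UPB_swap y.1 hy
    have h3 := UPB_rA hL τ y
    unfold rA at h3
    rw [h1, h2] at h3
    refine UPB_two _ ?_
    have h4 : (2 : ℂ) • (u y : T a b (Fin n)) =
        u (y.1, y.2) - (((-1 : ℤˣ) : ℤ) : ℂ) • u y := by
      simp only [Units.val_neg, Units.val_one, Int.cast_neg, Int.cast_one, neg_smul, one_smul,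
        sub_neg_eq_add]
      rw [two_smul]
    rw [h4]
    exact h3
  · obtain ⟨τ, h1, h2⟩ := UPB_swap y.2 hy
    have h3 := UPB_rB hL τ y
    unfold rB at h3
    rw [h1, h2] at h3
    refine UPB_two _ ?_
    have h4 : (2 : ℂ) • (u y : T a b (Fin n)) =
        u (y.1, y.2) - (((-1 : ℤˣ) : ℤ) : ℂ) • u y := by
      simp only [Units.val_neg, Units.val_one, Int.cast_neg, Int.cast_one, neg_smul, one_smul,
        sub_neg_eq_add]
      rw [two_smul]
    rw [h4]
    exact h3

/-- the generators of the quotient -/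
private noncomputable def UPBv {a b n : ℕ} (L : Submodule (S (Fin n)) (T a b (Fin n)))
    (t : UPBI a n × UPBI b n) : T a b (Fin n) ⧸ L := Submodule.Quotient.mk (u (UPBx t))

private theorem UPB_mk {a b n : ℕ} {L : Submodule (S (Fin n)) (T a b (Fin n))}
    (hL : Rel a b (Fin n) ≤ L) (y : Ix a b (Fin n)) (h1 : Function.Injective y.1)
    (h2 : Function.Injective y.2) :
    ∃ c : S (Fin n), (Submodule.Quotient.mk (u y) : T a b (Fin n) ⧸ L) =
      c • UPBv L (UPBim y.1 h1, UPBim y.2 h2) := by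
  obtain ⟨τ, hτ⟩ := UPB_perm y.1 h1
  obtain ⟨τ', hτ'⟩ := UPB_perm y.2 h2
  have h3 := UPB_rA hL τ (UPBx (UPBim y.1 h1, UPBim y.2 h2))
  have h4 := UPB_rB hL τ' (y.1, UPBe (UPBim y.2 h2))
  unfold rA at h3
  unfold rB at h4
  have e3 : (UPBx (UPBim y.1 h1, UPBim y.2 h2)).1 ∘ τ = y.1 := hτ
  have e4 : ((y.1, UPBe (UPBim y.2 h2)) : Ix a b (Fin n)).2 ∘ τ' = y.2 := hτ'
  rw [e3] at h3
  rw [e4] at h4
  have h5 := (Submodule.Quotient.eq L).2 h3
  have h6 := (Submodule.Quotient.eq L).2 h4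
  refine ⟨algebraMap ℂ (S (Fin n)) (((Equiv.Perm.sign τ' : ℤ) : ℂ)) *
    algebraMap ℂ (S (Fin n)) (((Equiv.Perm.sign τ : ℤ) : ℂ)), ?_⟩
  have h7 : (Submodule.Quotient.mk (u y) : T a b (Fin n) ⧸ L) =
      Submodule.Quotient.mk ((((Equiv.Perm.sign τ' : ℤ) : ℂ)) •
        u (y.1, UPBe (UPBim y.2 h2))) := h6
  have h8 : (Submodule.Quotient.mk (u (y.1, UPBe (UPBim y.2 h2))) : T a b (Fin n) ⧸ L) =
      Submodule.Quotient.mk ((((Equiv.Perm.sign τ : ℤ) : ℂ)) •
        u (UPBx (UPBim y.1 h1, UPBim y.2 h2))) := h5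
  rw [h7, Submodule.Quotient.mk_smul, h8, Submodule.Quotient.mk_smul, mul_smul, algebraMap_smul,
    algebraMap_smul]
  rfl

private theorem UPB_ann {n : ℕ} {Q : Type} [AddCommGroup Q] [Module (MDH.S n) Q] {ι : Type}
    (v : ι → Q) (ρ : ι → ℕ) (t : ι) (s : MDH.S n) : s ∈ MDH.AnnF v ρ t ↔
      s • v t ∈ Submodule.span (MDH.S n) {x | ∃ t', ρ t < ρ t' ∧ x = v t'} := by
  unfold MDH.AnnF
  rw [Submodule.mem_comap, LinearMap.toSpanSingleton_apply]

/-- the span of the higher generators -/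
private noncomputable def UPBs {a b n : ℕ} (L : Submodule (S (Fin n)) (T a b (Fin n)))
    (t : UPBI a n × UPBI b n) : Submodule (S (Fin n)) (T a b (Fin n) ⧸ L) :=
  Submodule.span (S (Fin n)) {x | ∃ t', UPBr (UPBx t) < UPBr (UPBx t') ∧ x = UPBv L t'}

private theorem UPB_hi {a b n : ℕ} {L : Submodule (S (Fin n)) (T a b (Fin n))}
    (hL : Rel a b (Fin n) ≤ L) (t : UPBI a n × UPBI b n) (δ p : ℕ) (hδ : 1 ≤ δ) (hp : p ≤ n) :
    Hi δ p (UPBx t) ≤ (UPBs L t).comap L.mkQ := by
  unfold Hi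
  rw [Submodule.span_le]
  rintro _ ⟨y, rfl, h1, h2⟩
  show L.mkQ (u y) ∈ UPBs L t
  by_cases hy : Function.Injective y.1 ∧ Function.Injective y.2
  · obtain ⟨c, hc⟩ := UPB_mk hL y hy.1 hy.2
    rw [Submodule.mkQ_apply, hc]
    refine Submodule.smul_mem _ _ (Submodule.subset_span ⟨_, ?_, rfl⟩)
    rw [UPBr_im]
    exact UPBr_lt _ _ δ p hδ hp h1 h2
  · rw [Submodule.mkQ_apply, (Submodule.Quotient.mk_eq_zero L).2 (UPB_non hL y hy)]
    exact Submodule.zero_mem _

private theorem UPB_rel {a b n : ℕ} {L : Submodule (S (Fin n)) (T a b (Fin n))}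
    (hL : Rel a b (Fin n) ≤ L) (t : UPBI a n × UPBI b n) :
    Rel a b (Fin n) ≤ (UPBs L t).comap L.mkQ := by
  intro z hz
  show L.mkQ z ∈ UPBs L t
  rw [Submodule.mkQ_apply, (Submodule.Quotient.mk_eq_zero L).2 (hL hz)]
  exact Submodule.zero_mem _

/-! ### the series at an index with two letters -/

private theorem UPB_lininv {n : ℕ} (i : Fin n) : (lin i * inv i : PowerSeries (S (Fin n))) = 1 := by
  unfold lin inv
  ext k : 1
  rw [sub_mul, one_mul, map_sub, mul_assoc, PowerSeries.coeff_C_mul]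
  cases k with
  | zero => simp
  | succ k =>
    rw [PowerSeries.coeff_succ_X_mul, PowerSeries.coeff_mk, PowerSeries.coeff_mk, pow_succ]
    simp [mul_comm]

private theorem UPB_filter {n : ℕ} (i : Fin n) :
    Finset.univ.filter (fun j : Fin n => j.val < i.val + 1) =
      insert i (Finset.univ.filter (fun j : Fin n => j.val < i.val)) := by
  ext j
  simp only [Finset.mem_filter, Finset.mem_univ, true_and, Finset.mem_insert]
  constructor
  · intro h
    rcases Nat.lt_succ_iff_lt_or_eq.1 h with h | h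
    · exact Or.inr h
    · exact Or.inl (Fin.ext h)
  · rintro (rfl | h) <;> omega

private theorem UPB_Wp {n : ℕ} (w : Fin n → ℕ) (i : Fin n) (hi : w i = 2) :
    Wp w (i.val + 1) = Wp w i.val * inv i := by
  unfold Wp
  rw [UPB_filter, Finset.prod_insert (by simp), Finset.prod_insert (by simp), hi]
  have h := UPB_lininv i
  calc _ = (lin i * inv i) * ((∏ i ∈ Finset.univ.filter (fun j : Fin n => j.val < i.val), lin i) *
        (∏ i ∈ Finset.univ.filter (fun j : Fin n => j.val < i.val), inv i ^ w i) * inv i) := by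
        ring
    _ = _ := by rw [h, one_mul]

private theorem UPB_pw {n : ℕ} (w : Fin n → ℕ) (i : Fin n) :
    pw w (i.val + 1) = w i + pw w i.val := by
  unfold pw
  rw [UPB_filter, Finset.sum_insert (by simp)]

theorem thm_UPB (hFIL : MDH.St_FIL) (hRLP : St_RLP) (hRLQ : St_RLQ) (hIDL : St_IDL)
    (hCNW : St_CNW) : St_UPB := by
  intro n a b L s hs hL hps
  -- generation
  have hspan : Submodule.span (S (Fin n)) (Set.range (UPBv L)) = ⊤ := by
    rw [eq_top_iff]
    rintro x -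
    obtain ⟨c, rfl⟩ := Submodule.Quotient.mk_surjective L x
    rw [UPB_decomp c]
    have e : (Submodule.Quotient.mk (∑ j, c j • (u j : T a b (Fin n))) : T a b (Fin n) ⧸ L) =
        ∑ j, c j • (Submodule.Quotient.mk (u j) : T a b (Fin n) ⧸ L) := by
      rw [← Submodule.mkQ_apply, map_sum]
      simp only [map_smul, Submodule.mkQ_apply]
    rw [e]
    refine Submodule.sum_mem _ fun j _ => Submodule.smul_mem _ _ ?_
    by_cases hj : Function.Injective j.1 ∧ Function.Injective j.2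
    · obtain ⟨c', hc'⟩ := UPB_mk hL j hj.1 hj.2
      rw [hc']
      exact Submodule.smul_mem _ _ (Submodule.subset_span ⟨_, rfl⟩)
    · rw [(Submodule.Quotient.mk_eq_zero L).2 (UPB_non hL j hj)]
      exact Submodule.zero_mem _
  -- the ideals
  have hid : ∀ t : UPBI a n × UPBI b n,
      Module.Finite ℂ (S (Fin n) ⧸ MDH.AnnF (UPBv L) (fun t => UPBr (UPBx t)) t) ∧
      Module.finrank ℂ (S (Fin n) ⧸ MDH.AnnF (UPBv L) (fun t => UPBr (UPBx t)) t) ≤
        cw (wd (UPBx t)) := by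
    intro t
    have hann : ∀ z : S (Fin n), z • u (UPBx t) ∈ (UPBs L t).comap L.mkQ →
        z ∈ MDH.AnnF (UPBv L) (fun t => UPBr (UPBx t)) t := by
      intro z hz
      rw [UPB_ann]
      exact hz
    have hrel := UPB_rel hL t
    refine hIDL n (MDH.AnnF (UPBv L) (fun t => UPBr (UPBx t)) t) (wd (UPBx t)) s hs ?_ ?_ ?_ ?_
    · intro i
      rw [UPBx_wd]
      split_ifs <;> omega
    · intro i r h1 h2
      have h3 : wd (UPBx t) i ≤ 2 := by
        rw [UPBx_wd]
        split_ifs <;> omega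
      rcases Nat.lt_or_ge (wd (UPBx t) i) 2 with h4 | h4
      · have h5 : wd (UPBx t) i = 1 := by omega
        have h6 := hRLQ n a b r i (UPBx t) h5 (by rw [UPB_Dp]; exact h2)
        rw [UPB_EEp] at h6
        refine hann _ ?_
        exact (sup_le (sup_le hrel (UPB_hi hL t 1 _ le_rfl (le_of_lt i.2)))
          (UPB_hi hL t 1 _ le_rfl i.2)) h6
      · have h5 : wd (UPBx t) i = 2 := by omega
        have h6 := (hRLP n (i.val + 1) a b r i.2 (UPBx t)).1 (by
          rw [UPB_Dp, UPB_pw, h5]; omega)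
        rw [UPB_EEp, UPB_Wp _ _ h5] at h6
        refine hann _ ?_
        exact (sup_le hrel (UPB_hi hL t 2 _ (by norm_num) i.2)) h6
    · intro i r h5 h2
      have h6 := (hRLP n (i.val + 1) a b r i.2 (UPBx t)).2 (by
        rw [UPB_Dp, UPB_pw, h5]; omega)
      rw [UPB_EEp, UPB_Wp _ _ h5] at h6
      refine hann _ ?_
      exact (sup_le hrel (UPB_hi hL t 1 _ le_rfl i.2)) h6
    · intro k hk
      have h1 := hps (UPBx t) k hk
      refine hann _ ?_
      have h2 : (psum (Fin n) ℂ k - (s : S (Fin n)) *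
          (∑ q, (X ((UPBx t).1 q) : S (Fin n)) ^ k + ∑ q, (X ((UPBx t).2 q) : S (Fin n)) ^ k)) =
          ∑ i, (1 - (s : S (Fin n)) * (wd (UPBx t) i : S (Fin n))) * X i ^ k := by
        rw [UPB_pws, psum, Finset.mul_sum, ← Finset.sum_sub_distrib]
        refine Finset.sum_congr rfl fun i _ => ?_
        ring
      rw [h2] at h1
      show L.mkQ _ ∈ UPBs L t
      rw [Submodule.mkQ_apply, (Submodule.Quotient.mk_eq_zero L).2 h1]
      exact Submodule.zero_mem _
  obtain ⟨hfin, hle⟩ := hFIL n (T a b (Fin n) ⧸ L) (UPBI a n × UPBI b n) (UPBv L)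
    (fun t => UPBr (UPBx t)) hspan (fun t => (hid t).1)
  refine ⟨hfin, hle.trans ?_⟩
  rw [← hCNW n a b, Fintype.sum_prod_type,
    ← Finset.sum_coe_sort ((Finset.univ : Finset (Fin n)).powersetCard a)]
  refine Finset.sum_le_sum fun A _ => ?_
  rw [← Finset.sum_coe_sort ((Finset.univ : Finset (Fin n)).powersetCard b)]
  refine Finset.sum_le_sum fun B _ => (hid (A, B)).2.trans (le_of_eq ?_)
  congr 1
  funext i
  exact UPBx_wd (A, B) i

end MDC
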