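import Pool.Agent.MDC.StB

/-!
# MDC, module UPG: the upper bound for every index set (helper55)
-/

set_option autoImplicit false

open MvPolynomial

namespace MDC

section

variable {a b : ℕ} {ι : Type} [Fintype ι] [DecidableEq ι]

theorem UPG_mul_u (f : T a b ι) (x : Ix a b ι) : f * u x = f x • u x := by
  funext y
  change f y * u x y = f x * u x y
  by_cases h : y = x
  · rw [h]
  · have h0 : (u x : T a b ι) y = 0 := Pi.single_eq_of_ne h 1
    rw [h0, mul_zero, mul_zero]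

end

/-- transport of the bound from a quotient by a restricted submodule -/
theorem UPG_res {ι : Type} [Fintype ι] [DecidableEq ι] {a b N : ℕ}
    (L : Submodule (S ι) (T a b ι))
    (h : Module.Finite ℂ (T a b ι ⧸ L) ∧ Module.finrank ℂ (T a b ι ⧸ L) ≤ N) :
    Module.Finite ℂ (T a b ι ⧸ L.restrictScalars ℂ) ∧
      Module.finrank ℂ (T a b ι ⧸ L.restrictScalars ℂ) ≤ N := by
  obtain ⟨h1, h2⟩ := h
  have e : (T a b ι ⧸ L.restrictScalars ℂ) ≃ₗ[ℂ] (T a b ι ⧸ L) :=
    Submodule.Quotient.restrictScalarsEquiv ℂ L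
  refine ⟨Module.Finite.equiv e.symm, ?_⟩
  rw [LinearEquiv.finrank_eq e]
  exact h2

/-- transport along a linear equivalence -/
theorem UPG_tr {M M' : Type} [AddCommGroup M] [Module ℂ M] [AddCommGroup M'] [Module ℂ M']
    (f : M →ₗ[ℂ] M') (g : M' →ₗ[ℂ] M) (hgf : ∀ c, g (f c) = c) (hfg : ∀ c, f (g c) = c)
    (L : Submodule ℂ M) (L' : Submodule ℂ M') (hL : ∀ c, f c ∈ L' ↔ c ∈ L) (N : ℕ)
    (h : Module.Finite ℂ (M' ⧸ L') ∧ Module.finrank ℂ (M' ⧸ L') ≤ N) :
    Module.Finite ℂ (M ⧸ L) ∧ Module.finrank ℂ (M ⧸ L) ≤ N := by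
  obtain ⟨h1, h2⟩ := h
  let F : M ≃ₗ[ℂ] M' := LinearEquiv.ofLinearMap f g (LinearMap.ext hfg) (LinearMap.ext hgf)
  have hmap : L.map (F : M →ₗ[ℂ] M') = L' := by
    ext c
    rw [Submodule.mem_map]
    constructor
    · rintro ⟨d, hd, rfl⟩
      exact (hL d).mpr hd
    · intro hc
      refine ⟨g c, ?_, hfg c⟩
      rw [← hL, hfg]
      exact hc
  have e : (M ⧸ L) ≃ₗ[ℂ] (M' ⧸ L') := Submodule.Quotient.equiv L L' F hmap
  refine ⟨Module.Finite.equiv e.symm, ?_⟩
  rw [LinearEquiv.finrank_eq e]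
  exact h2

theorem thm_UPG (hU : St_UPB) (hR : St_RLB) (hN : St_NWT) : St_UPG := by
  intro ι _ _ a b m hm
  obtain ⟨e, -⟩ : ∃ e : ι ≃ Fin (Fintype.card ι), True := ⟨Fintype.equivFin ι, trivial⟩
  obtain ⟨-, -, -, hinv, -, -, hec, -, hLP, -⟩ := hR ι (Fin (Fintype.card ι)) e a b
  obtain ⟨-, -, -, hinv', -⟩ := hR (Fin (Fintype.card ι)) ι e.symm a b
  have hfg : ∀ c : T a b (Fin (Fintype.card ι)), relb e (relb e.symm c) = c := fun c => hinv' c
  have hm' : a + b + m = Fintype.card (Fin (Fintype.card ι)) := by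
    rw [Fintype.card_fin]; exact hm
  constructor
  · refine UPG_tr (relb e) (relb e.symm) hinv hfg
      ((Lop (ecC m) : Submodule (S ι) (T a b ι)).restrictScalars ℂ)
      ((Lop (ecC m) : Submodule (S (Fin (Fintype.card ι)))
        (T a b (Fin (Fintype.card ι)))).restrictScalars ℂ) (fun c => hec m c) _ ?_
    refine UPG_res _ (hU _ a b (Lop (ecC m)) 1 le_rfl le_sup_left ?_)
    intro x k hk
    have h := hN (Fin (Fintype.card ι)) a b m hm' k hk (u x)
    rw [UPG_mul_u] at h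
    have h1 : psum (Fin (Fintype.card ι)) ℂ k - ((1 : ℕ) : S (Fin (Fintype.card ι))) *
        (∑ q, (X (x.1 q) : S (Fin (Fintype.card ι))) ^ k +
          ∑ q, (X (x.2 q) : S (Fin (Fintype.card ι))) ^ k) = QQ k x := by
      rw [Nat.cast_one, one_mul]
      rfl
    rw [h1]
    exact h
  · refine UPG_tr (relb e) (relb e.symm) hinv hfg ((LP a b ι).restrictScalars ℂ)
      ((LP a b (Fin (Fintype.card ι))).restrictScalars ℂ) (fun c => hLP c) _ ?_
    refine UPG_res _ (hU _ a b (LP a b (Fin (Fintype.card ι))) 0 (Nat.zero_le 1) le_sup_left ?_)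
    intro x k hk
    rw [Nat.cast_zero, zero_mul, sub_zero]
    exact Submodule.mem_sup_right (Submodule.subset_span ⟨k, x, hk, rfl⟩)

end MDC
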