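import Pool.Agent.MDH.CHN
import Pool.Agent.MDH.CYC
import Pool.Agent.MDH.FIL
import Pool.Agent.MDH.GRO
import Pool.Agent.MDH.INA
import Pool.Agent.MDH.TRA
import Pool.Agent.MDH.WEY
import Pool.Agent.MDH.DHC
import Pool.Agent.MDH.PCY
import Pool.Agent.MDC.SYM
import Pool.Agent.MDC.POL
import Pool.Agent.MDC.EOP
import Pool.Agent.MDC.DPA
import Pool.Agent.MDC.DTH
import Pool.Agent.MDC.CAR
import Pool.Agent.MDC.PZT
import Pool.Agent.MDC.SWP
import Pool.Agent.MDC.PZZ
import Pool.Agent.MDC.TOP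
import Pool.Agent.MDC.PWR
import Pool.Agent.MDC.NWT
import Pool.Agent.MDC.TRP
import Pool.Agent.MDC.RLP
import Pool.Agent.MDC.RLQ
import Pool.Agent.MDC.IDL
import Pool.Agent.MDC.CNW
import Pool.Agent.MDC.UPB
import Pool.Agent.MDC.RLB
import Pool.Agent.MDC.UPG
import Pool.Agent.MDC.ACT
import Pool.Agent.MDC.FDG
import Pool.Agent.MDC.COM
import Pool.Agent.MDC.SPN
import Pool.Agent.MDC.LZG
import Pool.Agent.MDC.TEN
import Pool.Agent.MDC.EVR
import Pool.Agent.MDC.EVE
import Pool.Agent.MDC.EVW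
import Pool.Agent.MDC.EVS
import Pool.Agent.MDC.SBP
import Pool.Agent.MDC.SRJ
import Pool.Agent.MDC.TRC
import Pool.Agent.MDC.NMA
import Pool.Agent.MDC.NMB
import Pool.Agent.MDC.STP
import Pool.Agent.MDC.INZ
import Pool.Agent.MDC.CRR
import Pool.Agent.MDC.ONE
import Pool.Agent.MDC.DST
import Pool.Agent.MDC.EXA
import Pool.Agent.MDC.EXB
import Pool.Agent.MDC.DIM
import Pool.Agent.MDC.IND
import Pool.Agent.MDC.FRP
import Pool.Agent.MDC.FRI
import Pool.Agent.MDC.FLT
import Pool.Agent.MDC.GGA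
import Pool.Agent.MDC.GGB
import Pool.Agent.MDC.GGC
import Pool.Agent.MDC.KPO
import Pool.Agent.MDC.FFG
import Pool.Agent.MDC.ORT
import Pool.Agent.MDC.DUA
import Pool.Agent.MDC.SLT
import Pool.Agent.MDC.HWA
import Pool.Agent.MDC.HWB
import Pool.Agent.MDC.HWC
import Pool.Agent.MDC.HWD
import Pool.Agent.MDC.HWL
import Pool.Agent.MDC.FIN

/-!
# MDC: assembly of Theorem C (MP_ffc753_co)
-/

set_option autoImplicit false

namespace MDC

theorem all_SYM : St_SYM := thm_SYM

theorem all_POL : St_POL := thm_POL all_SYM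

theorem all_EOP : St_EOP := thm_EOP

theorem all_DPA : St_DPA := thm_DPA

theorem all_DTH : St_DTH := thm_DTH

theorem all_CAR : St_CAR := thm_CAR

theorem all_PZT : St_PZT := thm_PZT all_POL all_DPA all_DTH all_CAR

theorem all_SWP : St_SWP := thm_SWP

theorem all_PZZ : St_PZZ := thm_PZZ all_POL all_PZT all_SWP

theorem all_TOP : St_TOP := thm_TOP all_PZZ

theorem all_PWR : St_PWR := thm_PWR all_POL all_PZZ

theorem all_NWT : St_NWT := thm_NWT all_POL

theorem all_TRP : St_TRP := thm_TRP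

theorem all_RLP : St_RLP := thm_RLP all_TRP all_POL all_PZZ

theorem all_RLQ : St_RLQ := thm_RLQ all_RLP

theorem all_IDL : St_IDL := thm_IDL MDH.thm_CHN (MDH.thm_CYC MDH.thm_CHN)

theorem all_CNW : St_CNW := thm_CNW

theorem all_UPB : St_UPB := thm_UPB MDH.thm_FIL all_RLP all_RLQ all_IDL all_CNW

theorem all_RLB : St_RLB := thm_RLB

theorem all_UPG : St_UPG := thm_UPG all_UPB all_RLB all_NWT

theorem all_ACT : St_ACT := thm_ACT

theorem all_FDG : St_FDG := thm_FDG

theorem all_COM : St_COM := thm_COM all_ACT all_FDG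

theorem all_SPN : St_SPN := thm_SPN all_FDG

theorem all_LZG : St_LZG := thm_LZG all_EOP all_ACT all_FDG all_SPN all_COM all_UPG

theorem all_TEN : St_TEN := thm_TEN

theorem all_EVR : St_EVR := thm_EVR

theorem all_EVE : St_EVE := thm_EVE all_EVR

theorem all_EVW : St_EVW := thm_EVW

theorem all_EVS : St_EVS := thm_EVS

theorem all_SBP : St_SBP := thm_SBP

theorem all_SRJ : St_SRJ := thm_SRJ all_EVS

theorem all_TRC : St_TRC := thm_TRC all_EVW

theorem all_NMA : St_NMA := thm_NMA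

theorem all_NMB : St_NMB := thm_NMB

theorem all_STP : St_STP := thm_STP all_ACT all_LZG all_TEN all_EVE all_SBP all_SRJ all_TRC all_NMA

theorem all_INZ : St_INZ := thm_INZ all_ACT all_UPG all_LZG

theorem all_CRR : St_CRR := thm_CRR all_INZ all_EOP all_PWR all_UPG all_ACT all_FDG all_COM all_SPN (MDH.thm_INA MDH.thm_GRO) MDH.thm_TRA

theorem all_ONE : St_ONE := thm_ONE all_POL all_PZZ all_ACT all_UPG

theorem all_DST : St_DST := thm_DST

theorem all_EXA : St_EXA := thm_EXA all_DST all_DTH all_TOP all_UPG all_ACT all_FDG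

theorem all_EXB : St_EXB := thm_EXB

theorem all_DIM : St_DIM := thm_DIM all_EXA all_EXB all_TOP all_UPG all_ACT all_NMB

theorem all_IND : St_IND := thm_IND all_STP all_CRR all_ONE all_DIM all_UPG all_LZG

theorem all_FRP : St_FRP := thm_FRP

theorem all_FRI : St_FRI := thm_FRI

theorem all_FLT : St_FLT := thm_FLT all_FRP all_FRI

theorem all_GGA : St_GGA := thm_GGA

theorem all_GGB : St_GGB := thm_GGB all_GGA

theorem all_GGC : St_GGC := thm_GGC

theorem all_KPO : St_KPO := thm_KPO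

theorem all_FFG : St_FFG := thm_FFG all_IND all_EXA all_EXB all_RLB all_TOP all_FRP all_FRI all_FLT all_GGA all_GGB

theorem all_ORT : St_ORT := thm_ORT

theorem all_DUA : St_DUA := thm_DUA all_ORT all_TOP all_UPG all_ACT all_FDG all_COM

theorem all_SLT : St_SLT := thm_SLT all_DUA

theorem all_HWA : St_HWA := thm_HWA (MDH.thm_DHC MDH.thm_WEY)

theorem all_HWB : St_HWB := thm_HWB (MDH.thm_DHC MDH.thm_WEY)

theorem all_HWC : St_HWC := thm_HWC

theorem all_HWD : St_HWD := thm_HWD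

theorem all_HWL : St_HWL := thm_HWL all_HWA all_HWB all_HWC all_HWD

theorem all_FIN : St_FIN := thm_FIN all_HWL all_SLT all_DUA all_FFG all_GGC all_KPO MDH.thm_PCY

end MDC
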