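import Pool.Agent.MDH.Defs

/-!
# Multivariate diagonal harmonics (problem MP_ffc753_co): definitions for the two-column theorem

The variables are `x_{sj}`, `s ∈ Fin r`, `j ∈ Fin n`; the last set of variables is `s = r - 1`
(the one whose parameter `q_r` is set to `1`). `MDH.DH r n` is the space `DH_n^r` and
`MDH.act r n w` the action of `w ∈ S_n` (`Pool/Agent/MDH/Defs.lean`).
-/

set_option autoImplicit false

open MvPolynomial

namespace MDC

/-- polarisation operator `∑_j x_{sj} ∂/∂x_{s'j}` -/
noncomputable def pol (r n : ℕ) (s s' : Fin r) :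
    MvPolynomial (Fin r × Fin n) ℂ →ₗ[ℂ] MvPolynomial (Fin r × Fin n) ℂ where
  toFun p := ∑ j : Fin n, X (s, j) * pderiv (s', j) p
  map_add' p q := by simp [mul_add, Finset.sum_add_distrib]
  map_smul' t p := by simp [Finset.smul_sum]

/-- The highest weight vectors of weight `λ = (2^b, 1^(a-b))` in `DH_n^r` for the action of
`GL_{r-1}` on the first `r - 1` sets of variables: the harmonic polynomials of degree `λ_s` in the
`s`-th set of variables for all `s ≠ r - 1` (any degree in the last set `r - 1`) which are killed by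
the operators `∑_j x_{sj} ∂/∂x_{s'j}`, `s < s' < r - 1` (sets numbered from `0`). -/
noncomputable def hwPart (r n a b : ℕ) : Submodule ℂ (MvPolynomial (Fin r × Fin n) ℂ) where
  carrier := {p | p ∈ MDH.DH r n ∧
    (∀ A ∈ p.support, ∀ s : Fin r, s.val + 1 < r →
      ∑ j : Fin n, A (s, j) = if s.val < b then 2 else if s.val < a then 1 else 0) ∧
    ∀ s s' : Fin r, s < s' → s'.val + 1 < r → pol r n s s' p = 0}
  add_mem' := by
    rintro p q ⟨h1, h2, h3⟩ ⟨h1', h2', h3'⟩
    refine ⟨?_, ?_, ?_⟩
    · intro f hf hf0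
      have e : MDH.diffOp f (p + q) = MDH.diffOp f p + MDH.diffOp f q := by
        simp only [MDH.diffOp, map_add, smul_add, Finset.sum_add_distrib]
      rw [e, h1 f hf hf0, h1' f hf hf0, add_zero]
    · intro A hA s hs
      classical
      rcases Finset.mem_union.mp (MvPolynomial.support_add hA) with h | h
      · exact h2 A h s hs
      · exact h2' A h s hs
    · intro s s' h hs
      rw [map_add, h3 s s' h hs, h3' s s' h hs, add_zero]
  zero_mem' := by
    refine ⟨?_, ?_, ?_⟩
    · intro f hf hf0
      simp [MDH.diffOp]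
    · intro A hA
      simp at hA
    · intro s s' _ _
      simp
  smul_mem' := by
    rintro c p ⟨h1, h2, h3⟩
    refine ⟨?_, ?_, ?_⟩
    · intro f hf hf0
      have e : MDH.diffOp f (c • p) = c • MDH.diffOp f p := by
        simp only [MDH.diffOp, map_smul, Finset.smul_sum]
        exact Finset.sum_congr rfl (fun A _ => smul_comm _ _ _)
      rw [e, h1 f hf hf0, smul_zero]
    · intro A hA s hs
      exact h2 A (MvPolynomial.support_smul hA) s hs
    · intro s s' h hs
      rw [map_smul, h3 s s' h hs, smul_zero]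

/-- The coefficient of `u^a v^b` in the polynomial
`h_{k_r - 1}(u,v) ∏_{i < r} (h_{k_i - 1}(u,v) + u v h_{k_i - 2}(u,v))`, `l = [k_1, …, k_r]`, where
`h_k(u,v) = ∑_{i+j=k} u^i v^j` (`h_{-1} = 0`): the monomials `u^a' v^b'` of `h_{k-1}` are those with
`a' + b' = k - 1`, the monomials of `u v h_{k-2}` those with `a' + b' = k`, `a', b' ≥ 1`. -/
def kapl : List ℕ → ℕ → ℕ → ℕ
  | [], a, b => if a = 0 ∧ b = 0 then 1 else 0
  | [k], a, b => if a + b + 1 = k then 1 else 0
  | k :: l, a, b => ∑ a' ∈ Finset.range (a + 1), ∑ b' ∈ Finset.range (b + 1),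
      (if a' + b' + 1 = k ∨ (a' + b' = k ∧ 1 ≤ a' ∧ 1 ≤ b') then kapl l (a - a') (b - b') else 0)

/-- Theorem C (for fixed `r, n, a, b`): the highest weight space of weight `(2^b, 1^(a-b))` is finite
dimensional and `S_n`-stable, and its Frobenius characteristic is a non-negative integral
combination of the `e_c`, `c` a composition of `n`, with explicit coefficients. -/
def TheoremC (r n a b : ℕ) : Prop :=
  ∃ hV : ∀ w, ∀ p ∈ hwPart r n a b, MDH.act r n w p ∈ hwPart r n a b,
    Module.Finite ℂ (hwPart r n a b) ∧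
    ∃ κ : Composition n → ℕ,
      (∀ c, (κ c : ℤ) = kapl c.blocks a b - (if b = 0 then 0 else kapl c.blocks (a + 1) (b - 1))) ∧
      ∀ N : ℕ, MDH.frobChar n N (MDH.charOn (hwPart r n a b) hV) =
        ∑ c : Composition n, κ c • (c.blocks.map (fun k => esymm (Fin N) ℂ k)).prod

end MDC
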