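import Pool.Agent.MDH.St
import Pool.Agent.MDC.Defs

/-!
# MDC: definitions for Theorem C (MP_ffc753_co)

Two sets of anticommuting variables `θ, η` and commuting variables `y_i = X i`, `i ∈ ι`.
`S ι = ℂ[y_i]`, `T a b ι` = all functions `Ix a b ι → S ι`, where `x = (j, k) ∈ Ix a b ι` stands for
the monomial `u x = θ_{j_1} ⋯ θ_{j_a} η_{k_1} ⋯ η_{k_b}`. `T a b ι` is a commutative ring (pointwise
operations) and a free `S ι`-module with basis `u x`. `Rel` is the submodule of the relations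
`∑ h(y_i) θ_i = 0`, `∑ h(y_i) η_i = 0`, `∑ h(y_i) θ_i η_i = 0` and anticommutation, so
`T / Rel = R^{(a,b)}`; `RelP` uses only anticommutation and the last family.
-/

set_option autoImplicit false

open MvPolynomial

namespace MDC

abbrev S (ι : Type) : Type := MvPolynomial ι ℂ

abbrev Ix (a b : ℕ) (ι : Type) : Type := (Fin a → ι) × (Fin b → ι)

abbrev T (a b : ℕ) (ι : Type) : Type := Ix a b ι → S ι

section defs

variable {a b : ℕ} {ι : Type} [Fintype ι] [DecidableEq ι]

/-- basis vector -/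
noncomputable def u (x : Ix a b ι) : T a b ι := Pi.single x 1

/-- anticommutation of the `θ` -/
noncomputable def rA (τ : Equiv.Perm (Fin a)) (x : Ix a b ι) : T a b ι :=
  u (x.1 ∘ τ, x.2) - (((Equiv.Perm.sign τ : ℤ) : ℂ)) • u x

/-- anticommutation of the `η` -/
noncomputable def rB (τ : Equiv.Perm (Fin b)) (x : Ix a b ι) : T a b ι :=
  u (x.1, x.2 ∘ τ) - (((Equiv.Perm.sign τ : ℤ) : ℂ)) • u x

/-- `∑_i y_i^l θ_i (…)`, position `s` of the first tuple -/
noncomputable def rTh (s : Fin a) (x : Ix a b ι) (l : ℕ) : T a b ι :=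
  ∑ i : ι, ((X i : S ι) ^ l) • u (Function.update x.1 s i, x.2)

/-- `∑_i y_i^l η_i (…)`, position `t` of the second tuple -/
noncomputable def rEt (t : Fin b) (x : Ix a b ι) (l : ℕ) : T a b ι :=
  ∑ i : ι, ((X i : S ι) ^ l) • u (x.1, Function.update x.2 t i)

/-- `∑_i y_i^l θ_i η_i (…)`, positions `s`, `t` -/
noncomputable def rPh (s : Fin a) (t : Fin b) (x : Ix a b ι) (l : ℕ) : T a b ι :=
  ∑ i : ι, ((X i : S ι) ^ l) • u (Function.update x.1 s i, Function.update x.2 t i)

variable (a b ι)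

/-- submodule of the anticommutation relations -/
noncomputable def RelA : Submodule (S ι) (T a b ι) :=
  Submodule.span (S ι) ({c | ∃ τ x, c = rA τ x} ∪ {c | ∃ τ x, c = rB τ x})

/-- anticommutation and `∑ h(y_i) θ_i η_i = 0` -/
noncomputable def RelP : Submodule (S ι) (T a b ι) :=
  RelA a b ι ⊔ Submodule.span (S ι) {c | ∃ s t x l, c = rPh s t x l}

/-- all relations -/
noncomputable def Rel : Submodule (S ι) (T a b ι) :=
  RelP a b ι ⊔ Submodule.span (S ι) ({c | ∃ s x l, c = rTh s x l} ∪ {c | ∃ t x l, c = rEt t x l})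

variable {a b ι}

/-- the geometric series `1 / (1 - y_i t) = ∑ y_i^q t^q` -/
noncomputable def inv (i : ι) : PowerSeries (S ι) := PowerSeries.mk (fun q => (X i : S ι) ^ q)

/-- `1 - y_i t` -/
noncomputable def lin (i : ι) : PowerSeries (S ι) := 1 - PowerSeries.C (X i : S ι) * PowerSeries.X

/-- `∏_i (1 - y_i t) / (∏_s (1 - y_{j_s} t) ∏_t (1 - y_{k_t} t))` -/
noncomputable def EE (x : Ix a b ι) : PowerSeries (S ι) :=
  (∏ i : ι, lin i) * (∏ s, inv (x.1 s)) * ∏ t, inv (x.2 t)

/-- `∑_i 1 / (1 - y_i t)`, the generating series of the power sums -/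
noncomputable def PP (ι : Type) [Fintype ι] : PowerSeries (S ι) := ∑ i : ι, inv i

/-- coefficient of `t^r` of `EE` -/
noncomputable def ec (r : ℕ) : T a b ι := fun x => PowerSeries.coeff r (EE x)

/-- the operators `ec 1, …, ec m` -/
noncomputable def ecC (m : ℕ) (k : Fin m) : T a b ι := ec (k.val + 1)

/-- the power sums `p_1, …, p_m` -/
noncomputable def thC (m : ℕ) (k : Fin m) : T a b ι := fun _ => psum ι ℂ (k.val + 1)

/-- `p_k - ∑_s y_{j_s}^k - ∑_t y_{k_t}^k` -/
noncomputable def QQ (k : ℕ) : T a b ι := fun x =>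
  psum ι ℂ k - (∑ s, (X (x.1 s) : S ι) ^ k + ∑ t, (X (x.2 t) : S ι) ^ k)

/-- `Rel + ∑_k f_k T` -/
noncomputable def Lop {m : ℕ} (f : Fin m → T a b ι) : Submodule (S ι) (T a b ι) :=
  Rel a b ι ⊔ ⨆ k, LinearMap.range (LinearMap.mulLeft (S ι) (f k))

variable (a b ι)

/-- `Rel + ∑_{k ≥ 1} p_k T`; `T / LP` is the part of bidegree `(a, b)` of the coinvariant ring -/
noncomputable def LP : Submodule (S ι) (T a b ι) :=
  Rel a b ι ⊔ Submodule.span (S ι) {c | ∃ (k : ℕ) (x : Ix a b ι), 1 ≤ k ∧ c = psum ι ℂ k • u x}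

/-- `∏_l (1 - z_l t)` -/
noncomputable def ZZ {m : ℕ} (z : Fin m → ℂ) : PowerSeries ℂ :=
  ∏ l, (1 - PowerSeries.C (z l) * PowerSeries.X)

/-- `Rel` and the relations saying that `EE` acts as `∏_l (1 - z_l t)` -/
noncomputable def LZ {m : ℕ} (z : Fin m → ℂ) : Submodule (S ι) (T a b ι) :=
  Rel a b ι ⊔ Submodule.span (S ι) {c | ∃ (r : ℕ) (x : Ix a b ι),
    c = (PowerSeries.coeff r (EE x) - C (PowerSeries.coeff r (ZZ z))) • u x}

variable {a b ι}

/-- action of the permutations: `(w·c)(x) = w(c(w⁻¹ x))` -/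
noncomputable def actT (w : Equiv.Perm ι) : T a b ι →ₗ[ℂ] T a b ι where
  toFun c := fun x => rename w (c (fun s => w⁻¹ (x.1 s), fun t => w⁻¹ (x.2 t)))
  map_add' c c' := by funext x; simp
  map_smul' t c := by funext x; simp

/-- trace of `w` on `T / K` (`0` if `K` is not stable) -/
noncomputable def qtr (K : Submodule (S ι) (T a b ι)) (w : Equiv.Perm ι) : ℂ := by
  classical
  exact if h : K.restrictScalars ℂ ≤ (K.restrictScalars ℂ).comap (actT w) then
    LinearMap.trace ℂ (T a b ι ⧸ K.restrictScalars ℂ)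
      ((K.restrictScalars ℂ).mapQ (K.restrictScalars ℂ) (actT w) h)
  else 0

/-- degree filtration -/
noncomputable def Fd (a b : ℕ) (ι : Type) (i : ℕ) : Submodule ℂ (T a b ι) where
  carrier := {c | ∀ x, (c x).totalDegree ≤ i}
  add_mem' := fun {c c'} h h' x => le_trans (totalDegree_add _ _) (max_le (h x) (h' x))
  zero_mem' := fun x => by simp
  smul_mem' := fun t c h x => le_trans (totalDegree_smul_le _ _) (h x)

/-- homogeneous component of degree `i` -/
noncomputable def hc (i : ℕ) : T a b ι →ₗ[ℂ] T a b ι where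
  toFun c := fun x => homogeneousComponent i (c x)
  map_add' c c' := by funext x; simp
  map_smul' t c := by funext x; simp

def IsHomog (L : Submodule ℂ (T a b ι)) : Prop := ∀ c ∈ L, ∀ i, hc i c ∈ L

def IsStab (L : Submodule ℂ (T a b ι)) : Prop := ∀ w, ∀ c ∈ L, actT w c ∈ L

end defs

/-- the numbers `dim R^{(a,b)} / (p) = rr n a b` -/
def rr : ℕ → ℕ → ℕ → ℕ
  | 0, a, b => if a = 0 ∧ b = 0 then 1 else 0
  | n + 1, a, b => (n + 1 - a - b) * (rr n a b + (if 0 < a then rr n (a - 1) b else 0) +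
      (if 0 < b then rr n a (b - 1) else 0) + (if 0 < a ∧ 0 < b then rr n (a - 1) (b - 1) else 0))

end MDC
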