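import Pool.Agent.MDC.StA

/-!
# MDC: the logarithmic derivative of the series `EE` (used by PZZ, NWT, PWR, TOP)
-/

set_option autoImplicit false

open MvPolynomial

namespace MDC

namespace DLog

section ld

variable {R : Type} [CommRing R]

/-- `G` is the logarithmic derivative `X F' / F` of `F` -/
def LD (F G : PowerSeries R) : Prop := PowerSeries.X * PowerSeries.derivative R F = F * G

theorem LD_mul {F G F' G' : PowerSeries R} (h : LD F G) (h' : LD F' G') :
    LD (F * F') (G + G') := by
  unfold LD at *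
  rw [Derivation.leibniz, smul_eq_mul, smul_eq_mul]
  linear_combination F' * h + F * h'

theorem LD_one : LD (1 : PowerSeries R) 0 := by
  simp [LD]

theorem LD_prod {κ : Type} (s : Finset κ) (F G : κ → PowerSeries R)
    (h : ∀ i ∈ s, LD (F i) (G i)) : LD (∏ i ∈ s, F i) (∑ i ∈ s, G i) := by
  classical
  induction s using Finset.induction_on with
  | empty => simpa using LD_one
  | insert i s hi ih =>
    rw [Finset.prod_insert hi, Finset.sum_insert hi]
    exact LD_mul (h i (Finset.mem_insert_self i s))
      (ih (fun j hj => h j (Finset.mem_insert_of_mem hj)))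

theorem coeff_X_mul_derivative (F : PowerSeries R) (r : ℕ) :
    PowerSeries.coeff r (PowerSeries.X * PowerSeries.derivative R F) =
      (r : R) * PowerSeries.coeff r F := by
  rcases r with _ | r
  · simp
  · rw [PowerSeries.coeff_succ_X_mul, PowerSeries.coeff_derivative]
    push_cast
    ring

theorem LD_coeff {F G : PowerSeries R} (h : LD F G) (r : ℕ) :
    (r : R) * PowerSeries.coeff r F = PowerSeries.coeff r (F * G) := by
  rw [← coeff_X_mul_derivative, h]

end ld

section lininv

variable {ι : Type}

theorem lin_mul_inv (i : ι) : lin i * inv i = 1 := by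
  unfold lin inv
  ext n
  rw [sub_mul, one_mul, map_sub, PowerSeries.coeff_mk, mul_assoc, PowerSeries.coeff_C_mul]
  rcases n with _ | n
  · simp
  · rw [PowerSeries.coeff_succ_X_mul, PowerSeries.coeff_mk, PowerSeries.coeff_one]
    simp only [Nat.succ_ne_zero, if_false]
    ring

theorem LD_lin (i : ι) : LD (lin i) (1 - inv i) := by
  unfold LD
  rw [mul_sub, lin_mul_inv]
  unfold lin
  rw [map_sub, Derivation.map_one_eq_zero, Derivation.leibniz]
  simp only [smul_eq_mul, PowerSeries.derivative_X, PowerSeries.derivative_C, mul_one, mul_zero,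
    add_zero]
  ring

theorem LD_inv (i : ι) : LD (inv i) (inv i - 1) := by
  have h1 := lin_mul_inv i
  have h2 : PowerSeries.derivative (S ι) (lin i * inv i) = 0 := by
    rw [h1]; simp
  rw [Derivation.leibniz, smul_eq_mul, smul_eq_mul] at h2
  have h3 : PowerSeries.X * PowerSeries.derivative (S ι) (lin i) = lin i * (1 - inv i) := LD_lin i
  unfold LD
  -- lin * X inv' = - inv * X lin' = - inv * lin * (1 - inv) = inv - 1
  have h4 : lin i * (PowerSeries.X * PowerSeries.derivative (S ι) (inv i)) =
      lin i * (inv i * (inv i - 1)) := by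
    linear_combination PowerSeries.X * h2 - inv i * h3
  calc PowerSeries.X * PowerSeries.derivative (S ι) (inv i)
      = inv i * (lin i * (PowerSeries.X * PowerSeries.derivative (S ι) (inv i))) := by
        rw [← mul_assoc, mul_comm (inv i) (lin i), h1, one_mul]
    _ = inv i * (lin i * (inv i * (inv i - 1))) := by rw [h4]
    _ = inv i * (inv i - 1) := by
        rw [← mul_assoc, mul_comm (inv i) (lin i), h1, one_mul]

end lininv

section ee

variable {a b : ℕ} {ι : Type} [Fintype ι] [DecidableEq ι]

theorem LD_EE (x : Ix a b ι) :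
    LD (EE x) (((Fintype.card ι : ℕ) : PowerSeries (S ι)) - (a : PowerSeries (S ι)) -
      (b : PowerSeries (S ι)) - PP ι + (∑ s, inv (x.1 s) + ∑ t, inv (x.2 t))) := by
  have h1 : LD (∏ i : ι, lin i) (∑ i : ι, (1 - inv i)) :=
    LD_prod _ _ _ (fun i _ => LD_lin i)
  have h2 : LD (∏ s, inv (x.1 s)) (∑ s, (inv (x.1 s) - 1)) :=
    LD_prod _ _ _ (fun s _ => LD_inv (x.1 s))
  have h3 : LD (∏ t, inv (x.2 t)) (∑ t, (inv (x.2 t) - 1)) :=
    LD_prod _ _ _ (fun s _ => LD_inv (x.2 s))
  have h := LD_mul (LD_mul h1 h2) h3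
  have e : (∑ i : ι, (1 - inv i)) + ∑ s, (inv (x.1 s) - 1) + ∑ t, (inv (x.2 t) - 1) =
      ((Fintype.card ι : ℕ) : PowerSeries (S ι)) - (a : PowerSeries (S ι)) -
      (b : PowerSeries (S ι)) - PP ι + (∑ s, inv (x.1 s) + ∑ t, inv (x.2 t)) := by
    unfold PP
    simp only [Finset.sum_sub_distrib, Finset.sum_const, Finset.card_univ, Fintype.card_fin,
      nsmul_eq_mul, mul_one]
    ring
  rw [e] at h
  exact h

theorem coeff_PP (q : ℕ) : PowerSeries.coeff q (PP ι) = psum ι ℂ q := by
  unfold PP inv
  rw [map_sum]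
  simp [PowerSeries.coeff_mk, psum]

theorem coeff_zero_EE (x : Ix a b ι) : PowerSeries.coeff 0 (EE x) = 1 := by
  unfold EE
  rw [PowerSeries.coeff_zero_eq_constantCoeff_apply, map_mul, map_mul, map_prod, map_prod,
    map_prod]
  have h1 : ∀ i : ι, PowerSeries.constantCoeff (lin i) = 1 := by
    intro i
    simp [lin]
  have h2 : ∀ i : ι, PowerSeries.constantCoeff (inv i) = 1 := by
    intro i
    rw [← PowerSeries.coeff_zero_eq_constantCoeff_apply]
    simp [inv]
  simp [h1, h2]

/-- the coefficients of the logarithmic derivative -/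
theorem EE_rec (x : Ix a b ι) (r : ℕ) :
    PowerSeries.coeff r (EE x * PP ι) =
      PowerSeries.coeff r (EE x * (∑ s, inv (x.1 s) + ∑ t, inv (x.2 t))) +
      ((Fintype.card ι : S ι) - (a : S ι) - (b : S ι) - (r : S ι)) *
        PowerSeries.coeff r (EE x) := by
  have h := LD_coeff (LD_EE x) r
  have e : EE x * (((Fintype.card ι : ℕ) : PowerSeries (S ι)) - (a : PowerSeries (S ι)) -
      (b : PowerSeries (S ι)) - PP ι + (∑ s, inv (x.1 s) + ∑ t, inv (x.2 t))) =
      PowerSeries.C ((Fintype.card ι : S ι) - (a : S ι) - (b : S ι)) * EE x - EE x * PP ι +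
        EE x * (∑ s, inv (x.1 s) + ∑ t, inv (x.2 t)) := by
    simp only [map_sub, map_natCast]
    ring
  rw [e, map_add, map_sub, PowerSeries.coeff_C_mul] at h
  linear_combination h

/-- every element is the sum of its components -/
theorem sum_smul_u (c : T a b ι) : c = ∑ x, c x • (u x : T a b ι) := by
  classical
  funext y
  rw [Finset.sum_apply]
  simp only [u, Pi.smul_apply, Pi.single_apply, smul_eq_mul, mul_ite, mul_one, mul_zero]
  rw [Finset.sum_ite_eq]
  simp

theorem mul_u (c : T a b ι) (x : Ix a b ι) : c * (u x : T a b ι) = c x • (u x : T a b ι) := by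
  funext y
  by_cases h : y = x
  · subst h
    simp [u]
  · simp [u, Pi.single_apply, h]

theorem RelP_le_Rel : RelP a b ι ≤ Rel a b ι := le_sup_left

theorem RelA_le_RelP : RelA a b ι ≤ RelP a b ι := le_sup_left

end ee

end DLog

end MDC
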