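import Pool.Agent.MDC.StC

/-!
# MDC, module EVW: equivariance of the evaluation maps (helper55)
-/

set_option autoImplicit false

open MvPolynomial

namespace MDC

section

variable {ι : Type} [Fintype ι] [DecidableEq ι]

theorem EVW_resP {B : Finset ι} {w : Equiv.Perm ι} (h : Stb B w) (i : In B) :
    (((resP B w)⁻¹ i : In B) : ι) = w⁻¹ i.1 := by
  have h1 : ∀ j : In B, ((resP B w j : In B) : ι) = w j.1 := by
    intro j
    unfold resP
    rw [dif_pos h]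
    rfl
  have h2 := h1 ((resP B w)⁻¹ i)
  have h3 : (resP B w) ((resP B w)⁻¹ i) = i := Equiv.apply_symm_apply _ i
  rw [h3] at h2
  rw [h2]
  exact (Equiv.symm_apply_apply w _).symm

theorem EVW_resN {B : Finset ι} {w : Equiv.Perm ι} (h : Stb B w) (i : Out B) :
    (((resN B w)⁻¹ i : Out B) : ι) = w⁻¹ i.1 := by
  have h1 : ∀ j : Out B, ((resN B w j : Out B) : ι) = w j.1 := by
    intro j
    unfold resN
    rw [dif_pos h]
    rfl
  have h2 := h1 ((resN B w)⁻¹ i)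
  have h3 : (resN B w) ((resN B w)⁻¹ i) = i := Equiv.apply_symm_apply _ i
  rw [h3] at h2
  rw [h2]
  exact (Equiv.symm_apply_apply w _).symm

omit [Fintype ι] [DecidableEq ι] in
theorem EVW_app {m n : ℕ} (f f' : Fin m → ι) (g g' : Fin n → ι) (w : ι → ι)
    (hf : ∀ i, f' i = w (f i)) (hg : ∀ i, g' i = w (g i)) (q : Fin (m + n)) :
    Fin.append f' g' q = w (Fin.append f g q) := by
  refine Fin.addCases (fun i => ?_) (fun i => ?_) q
  · rw [Fin.append_left, Fin.append_left, hf]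
  · rw [Fin.append_right, Fin.append_right, hg]

end

theorem thm_EVW : St_EVW := by
  intro ι _ _ B a b a1 a2 b1 b2 h1 h2 w hw c
  funext p
  change ∑ σ : Equiv.Perm (Fin a), ∑ τ : Equiv.Perm (Fin b),
      ((((Equiv.Perm.sign σ : ℤ) * (Equiv.Perm.sign τ : ℤ) : ℤ)) : ℂ) •
        rename w (c (fun s => w⁻¹ ((jn h1 h2 p).1 (σ s)), fun t => w⁻¹ ((jn h1 h2 p).2 (τ t)))) =
    rename w (∑ σ : Equiv.Perm (Fin a), ∑ τ : Equiv.Perm (Fin b),
      ((((Equiv.Perm.sign σ : ℤ) * (Equiv.Perm.sign τ : ℤ) : ℤ)) : ℂ) •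
        c ((jn h1 h2 ((fun s => (resP B w)⁻¹ (p.1.1 s), fun t => (resP B w)⁻¹ (p.1.2 t)),
          (fun s => (resN B w)⁻¹ (p.2.1 s), fun t => (resN B w)⁻¹ (p.2.2 t)))).1 ∘ σ,
          (jn h1 h2 ((fun s => (resP B w)⁻¹ (p.1.1 s), fun t => (resP B w)⁻¹ (p.1.2 t)),
          (fun s => (resN B w)⁻¹ (p.2.1 s), fun t => (resN B w)⁻¹ (p.2.2 t)))).2 ∘ τ))
  rw [map_sum]
  refine Finset.sum_congr rfl fun σ _ => ?_
  rw [map_sum]
  refine Finset.sum_congr rfl fun τ _ => ?_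
  rw [map_smul]
  have e1 : (jn h1 h2 ((fun s => (resP B w)⁻¹ (p.1.1 s), fun t => (resP B w)⁻¹ (p.1.2 t)),
      (fun s => (resN B w)⁻¹ (p.2.1 s), fun t => (resN B w)⁻¹ (p.2.2 t)))).1 ∘ σ =
      fun s => w⁻¹ ((jn h1 h2 p).1 (σ s)) := by
    funext s
    exact EVW_app _ _ _ _ (w⁻¹ : Equiv.Perm ι) (fun i => EVW_resP hw _) (fun i => EVW_resN hw _) _
  have e2 : (jn h1 h2 ((fun s => (resP B w)⁻¹ (p.1.1 s), fun t => (resP B w)⁻¹ (p.1.2 t)),
      (fun s => (resN B w)⁻¹ (p.2.1 s), fun t => (resN B w)⁻¹ (p.2.2 t)))).2 ∘ τ =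
      fun t => w⁻¹ ((jn h1 h2 p).2 (τ t)) := by
    funext s
    exact EVW_app _ _ _ _ (w⁻¹ : Equiv.Perm ι) (fun i => EVW_resP hw _) (fun i => EVW_resN hw _) _
  rw [e1, e2]

end MDC
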