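import Pool.Agent.MDC.StD

/-!
# MDC, module GGA: recursion of the generating function (helper92)
-/

set_option autoImplicit false

open MvPolynomial

namespace MDC

/-- the coefficient of `u^a v^b` -/
noncomputable def GGA_cf {N : ℕ} (p : UV N) (a b : ℕ) : MvPolynomial (Fin N) ℂ :=
  coeff (Finsupp.single (0 : Fin 2) a + Finsupp.single (1 : Fin 2) b) p

theorem GGA_ev0 (a b : ℕ) :
    (Finsupp.single (0 : Fin 2) a + Finsupp.single (1 : Fin 2) b) 0 = a := by
  simp

theorem GGA_ev1 (a b : ℕ) :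
    (Finsupp.single (0 : Fin 2) a + Finsupp.single (1 : Fin 2) b) 1 = b := by
  simp

theorem GGA_ext (x : Fin 2 →₀ ℕ) :
    Finsupp.single (0 : Fin 2) (x 0) + Finsupp.single (1 : Fin 2) (x 1) = x := by
  ext i
  fin_cases i
  · exact GGA_ev0 _ _
  · exact GGA_ev1 _ _

theorem GGA_mul {N : ℕ} (p q : UV N) (a b : ℕ) : GGA_cf (p * q) a b =
    ∑ a1 ∈ Finset.range (a + 1), ∑ b1 ∈ Finset.range (b + 1),
      GGA_cf p a1 b1 * GGA_cf q (a - a1) (b - b1) := by
  unfold GGA_cf
  rw [coeff_mul, ← Finset.sum_product']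
  refine Finset.sum_nbij' (fun x => (x.1 0, x.1 1))
    (fun y => (Finsupp.single (0 : Fin 2) y.1 + Finsupp.single (1 : Fin 2) y.2,
      Finsupp.single (0 : Fin 2) (a - y.1) + Finsupp.single (1 : Fin 2) (b - y.2))) ?_ ?_ ?_ ?_ ?_
  · intro x hx
    rw [Finset.HasAntidiagonal.mem_antidiagonal] at hx
    have h0 := DFunLike.congr_fun hx 0
    have h1 := DFunLike.congr_fun hx 1
    rw [Finsupp.add_apply, GGA_ev0] at h0
    rw [Finsupp.add_apply, GGA_ev1] at h1
    rw [Finset.mem_product, Finset.mem_range, Finset.mem_range]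
    constructor
    · change x.1 0 < a + 1
      omega
    · change x.1 1 < b + 1
      omega
  · intro y hy
    rw [Finset.mem_product, Finset.mem_range, Finset.mem_range] at hy
    rw [Finset.HasAntidiagonal.mem_antidiagonal]
    ext i
    fin_cases i
    · change (Finsupp.single (0 : Fin 2) y.1 + Finsupp.single (1 : Fin 2) y.2) 0 +
        (Finsupp.single (0 : Fin 2) (a - y.1) + Finsupp.single (1 : Fin 2) (b - y.2)) 0 =
        (Finsupp.single (0 : Fin 2) a + Finsupp.single (1 : Fin 2) b) 0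
      rw [GGA_ev0, GGA_ev0, GGA_ev0]
      omega
    · change (Finsupp.single (0 : Fin 2) y.1 + Finsupp.single (1 : Fin 2) y.2) 1 +
        (Finsupp.single (0 : Fin 2) (a - y.1) + Finsupp.single (1 : Fin 2) (b - y.2)) 1 =
        (Finsupp.single (0 : Fin 2) a + Finsupp.single (1 : Fin 2) b) 1
      rw [GGA_ev1, GGA_ev1, GGA_ev1]
      omega
  · intro x hx
    rw [Finset.HasAntidiagonal.mem_antidiagonal] at hx
    have h0 := DFunLike.congr_fun hx 0
    have h1 := DFunLike.congr_fun hx 1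
    rw [Finsupp.add_apply, GGA_ev0] at h0
    rw [Finsupp.add_apply, GGA_ev1] at h1
    refine Prod.ext (GGA_ext x.1) ?_
    change Finsupp.single (0 : Fin 2) (a - x.1 0) + Finsupp.single (1 : Fin 2) (b - x.1 1) = x.2
    rw [← GGA_ext x.2]
    have e0 : a - x.1 0 = x.2 0 := by omega
    have e1 : b - x.1 1 = x.2 1 := by omega
    rw [e0, e1]
  · intro y _
    exact Prod.ext (GGA_ev0 _ _) (GGA_ev1 _ _)
  · intro x hx
    rw [Finset.HasAntidiagonal.mem_antidiagonal] at hx
    have h0 := DFunLike.congr_fun hx 0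
    have h1 := DFunLike.congr_fun hx 1
    rw [Finsupp.add_apply, GGA_ev0] at h0
    rw [Finsupp.add_apply, GGA_ev1] at h1
    have e0 : a - x.1 0 = x.2 0 := by omega
    have e1 : b - x.1 1 = x.2 1 := by omega
    change coeff x.1 p * coeff x.2 q =
      coeff (Finsupp.single (0 : Fin 2) (x.1 0) + Finsupp.single (1 : Fin 2) (x.1 1)) p *
      coeff (Finsupp.single (0 : Fin 2) (a - x.1 0) + Finsupp.single (1 : Fin 2) (b - x.1 1)) q
    rw [e0, e1, GGA_ext, GGA_ext]

theorem GGA_add {N : ℕ} (p q : UV N) (a b : ℕ) :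
    GGA_cf (p + q) a b = GGA_cf p a b + GGA_cf q a b := coeff_add _ _ _

theorem GGA_sub {N : ℕ} (p q : UV N) (a b : ℕ) :
    GGA_cf (p - q) a b = GGA_cf p a b - GGA_cf q a b := coeff_sub _ _ _ _

theorem GGA_neg {N : ℕ} (p : UV N) (a b : ℕ) :
    GGA_cf (-p) a b = -GGA_cf p a b := coeff_neg _ _ _

theorem GGA_zero {N : ℕ} (a b : ℕ) : GGA_cf (0 : UV N) a b = 0 := coeff_zero _

theorem GGA_sum {N : ℕ} {α : Type} (s : Finset α) (f : α → UV N) (a b : ℕ) :
    GGA_cf (∑ i ∈ s, f i) a b = ∑ i ∈ s, GGA_cf (f i) a b := coeff_sum _ _ _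

theorem GGA_one {N : ℕ} (a b : ℕ) :
    GGA_cf (1 : UV N) a b = if a = 0 ∧ b = 0 then 1 else 0 := by
  unfold GGA_cf
  rw [coeff_one]
  by_cases h : a = 0 ∧ b = 0
  · obtain ⟨rfl, rfl⟩ := h
    simp
  · rw [if_neg h, if_neg]
    intro h1
    apply h
    constructor
    · have := DFunLike.congr_fun h1 0
      rw [GGA_ev0] at this
      exact this.symm
    · have := DFunLike.congr_fun h1 1
      rw [GGA_ev1] at this
      exact this.symm

theorem GGA_mon {N : ℕ} (i j : ℕ) (r : MvPolynomial (Fin N) ℂ) (a b : ℕ) :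
    GGA_cf ((X 0 : UV N) ^ i * X 1 ^ j * C r) a b = if i = a ∧ j = b then r else 0 := by
  have h : ((X 0 : UV N) ^ i * X 1 ^ j * C r) =
      monomial (Finsupp.single (0 : Fin 2) i + Finsupp.single (1 : Fin 2) j) r := by
    rw [X_pow_eq_monomial, X_pow_eq_monomial, monomial_mul, mul_comm, C_mul_monomial]
    simp
  unfold GGA_cf
  rw [h, coeff_monomial]
  by_cases hc : i = a ∧ j = b
  · obtain ⟨rfl, rfl⟩ := hc
    simp
  · rw [if_neg hc, if_neg]
    intro h1
    apply hc
    constructor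
    · have := DFunLike.congr_fun h1 0
      rw [GGA_ev0, GGA_ev0] at this
      exact this
    · have := DFunLike.congr_fun h1 1
      rw [GGA_ev1, GGA_ev1] at this
      exact this

/-- coefficients of `h_k(u, v) r` -/
theorem GGA_hh {N : ℕ} (k : ℕ) (r : MvPolynomial (Fin N) ℂ) (a b : ℕ) :
    GGA_cf (hh N k * C r) a b = if a + b = k then r else 0 := by
  unfold hh
  rw [Finset.sum_mul, GGA_sum]
  simp only [GGA_mon]
  by_cases h : a + b = k
  · rw [if_pos h, Finset.sum_eq_single a]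
    · rw [if_pos ⟨rfl, by omega⟩]
    · intro i _ hi
      rw [if_neg (fun h1 => hi h1.1)]
    · intro h1
      exact absurd (Finset.mem_range.2 (by omega)) h1
  · rw [if_neg h]
    refine Finset.sum_eq_zero fun i hi => ?_
    rw [if_neg]
    rintro ⟨rfl, h2⟩
    have := Finset.mem_range.1 hi
    omega

/-- coefficients of `u v h_k(u, v) r` -/
theorem GGA_uvhh {N : ℕ} (k : ℕ) (r : MvPolynomial (Fin N) ℂ) (a b : ℕ) :
    GGA_cf ((X 0 : UV N) * X 1 * hh N k * C r) a b =
      if a + b = k + 2 ∧ 1 ≤ a ∧ 1 ≤ b then r else 0 := by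
  have h0 : (X 0 : UV N) * X 1 * hh N k * C r =
      ∑ i ∈ Finset.range (k + 1), (X 0 : UV N) ^ (i + 1) * X 1 ^ (k - i + 1) * C r := by
    unfold hh
    rw [Finset.mul_sum, Finset.sum_mul]
    refine Finset.sum_congr rfl fun i _ => ?_
    ring
  rw [h0, GGA_sum]
  simp only [GGA_mon]
  by_cases h : a + b = k + 2 ∧ 1 ≤ a ∧ 1 ≤ b
  · rw [if_pos h, Finset.sum_eq_single (a - 1)]
    · rw [if_pos ⟨by omega, by omega⟩]
    · intro i _ hi
      rw [if_neg (fun h1 => hi (by omega))]
    · intro h1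
      exact absurd (Finset.mem_range.2 (by omega)) h1
  · rw [if_neg h]
    refine Finset.sum_eq_zero fun i hi => ?_
    rw [if_neg]
    rintro ⟨h1, h2⟩
    have := Finset.mem_range.1 hi
    omega

theorem GGA_AA {N : ℕ} (k a b : ℕ) : GGA_cf (PowerSeries.coeff k (AA N)) a b =
    if a + b + 1 = k then esymm (Fin N) ℂ k else 0 := by
  unfold AA
  rw [PowerSeries.coeff_mk]
  by_cases hk : k = 0
  · subst hk
    rw [if_pos rfl, GGA_zero, if_neg (by omega)]
  · rw [if_neg hk, GGA_hh]
    by_cases h : a + b = k - 1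
    · rw [if_pos h, if_pos (by omega)]
    · rw [if_neg h, if_neg (by omega)]

theorem GGA_NN {N : ℕ} (k a b : ℕ) (hk : 1 ≤ k) : GGA_cf (PowerSeries.coeff k (NN N)) a b =
    -(if a + b = k ∧ 1 ≤ a ∧ 1 ≤ b then esymm (Fin N) ℂ k else 0) := by
  unfold NN
  rw [PowerSeries.coeff_mk, if_neg (by omega)]
  by_cases hk1 : k = 1
  · subst hk1
    rw [if_pos rfl, GGA_zero, if_neg (by omega), neg_zero]
  · rw [if_neg hk1, GGA_neg, GGA_uvhh]
    congr 1
    by_cases h : a + b = k ∧ 1 ≤ a ∧ 1 ≤ b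
    · rw [if_pos h, if_pos (by omega)]
    · rw [if_neg h, if_neg (by omega)]

theorem GGA_NN0 {N : ℕ} : PowerSeries.coeff 0 (NN N) = 1 := by
  unfold NN
  rw [PowerSeries.coeff_mk, if_pos rfl]

theorem GGA_AA0 {N : ℕ} : PowerSeries.coeff 0 (AA N) = 0 := by
  unfold AA
  rw [PowerSeries.coeff_mk, if_pos rfl]

/-- the basic identity -/
theorem GGA_FS {N : ℕ} : FS N * (NN N - AA N) = NN N := by
  unfold FS
  have h : (NN N - AA N) * PowerSeries.invOfUnit (NN N - AA N) 1 = 1 := by
    apply PowerSeries.mul_invOfUnit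
    rw [← PowerSeries.coeff_zero_eq_constantCoeff_apply, map_sub, GGA_NN0, GGA_AA0, sub_zero,
      Units.val_one]
  rw [mul_assoc, mul_comm (PowerSeries.invOfUnit _ _), h, mul_one]

/-- the series `L = AA / NN` -/
noncomputable def GGA_L (N : ℕ) : PowerSeries (UV N) := AA N * PowerSeries.invOfUnit (NN N) 1

theorem GGA_LNN {N : ℕ} : NN N * PowerSeries.invOfUnit (NN N) 1 = 1 := by
  apply PowerSeries.mul_invOfUnit
  rw [← PowerSeries.coeff_zero_eq_constantCoeff_apply, GGA_NN0, Units.val_one]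

theorem GGA_L1 {N : ℕ} : GGA_L N * NN N = AA N := by
  unfold GGA_L
  rw [mul_assoc, mul_comm (PowerSeries.invOfUnit _ _), GGA_LNN, mul_one]

theorem GGA_rec {N : ℕ} : FS N = 1 + GGA_L N * FS N := by
  have h1 : FS N * (1 - GGA_L N) = 1 := by
    have h2 : FS N * (1 - GGA_L N) * NN N = NN N := by
      have h3 : FS N * (1 - GGA_L N) * NN N = FS N * (NN N - GGA_L N * NN N) := by ring
      rw [h3, GGA_L1, GGA_FS]
    calc FS N * (1 - GGA_L N) = FS N * (1 - GGA_L N) * (NN N * PowerSeries.invOfUnit (NN N) 1) := by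
          rw [GGA_LNN, mul_one]
      _ = (FS N * (1 - GGA_L N) * NN N) * PowerSeries.invOfUnit (NN N) 1 := by ring
      _ = 1 := by rw [h2, GGA_LNN]
  linear_combination h1

/-- `L_k` is homogeneous of degree `k - 1` -/
theorem GGA_Lhom {N : ℕ} (k : ℕ) : ∀ a b : ℕ, a + b + 1 ≠ k →
    GGA_cf (PowerSeries.coeff k (GGA_L N)) a b = 0 := by
  induction k using Nat.strong_induction_on with
  | _ k ih =>
    intro a b hab
    have h1 := congrArg (fun F => GGA_cf (PowerSeries.coeff k F) a b) (GGA_L1 (N := N))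
    beta_reduce at h1
    rw [PowerSeries.coeff_mul, Finset.Nat.sum_antidiagonal_eq_sum_range_succ
      (fun i j => PowerSeries.coeff i (GGA_L N) * PowerSeries.coeff j (NN N)),
      Finset.sum_range_succ, Nat.sub_self, GGA_NN0, mul_one, GGA_add, GGA_sum, GGA_AA,
      if_neg hab, Finset.sum_eq_zero, zero_add] at h1
    · exact h1
    · intro i hi
      have hi' := Finset.mem_range.1 hi
      rw [GGA_mul]
      refine Finset.sum_eq_zero fun a1 ha1 => Finset.sum_eq_zero fun b1 hb1 => ?_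
      have ha1' := Finset.mem_range.1 ha1
      have hb1' := Finset.mem_range.1 hb1
      by_cases h2 : a1 + b1 + 1 = i
      · rw [GGA_NN _ _ _ (by omega), if_neg, neg_zero, mul_zero]
        omega
      · rw [ih i hi' a1 b1 h2, zero_mul]

/-- the recursion on coefficients -/
theorem GGA_coef {N : ℕ} (n a b : ℕ) : GGA_cf (PowerSeries.coeff n (FS N)) a b =
    (if n = 0 ∧ a = 0 ∧ b = 0 then 1 else 0) +
    ∑ k ∈ Finset.range (n + 1), ∑ a1 ∈ Finset.range (a + 1), ∑ b1 ∈ Finset.range (b + 1),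
      if a1 + b1 + 1 = k then GGA_cf (PowerSeries.coeff k (GGA_L N)) a1 b1 *
        GGA_cf (PowerSeries.coeff (n - k) (FS N)) (a - a1) (b - b1) else 0 := by
  conv_lhs => rw [GGA_rec]
  rw [map_add, GGA_add]
  congr 1
  · rw [PowerSeries.coeff_one]
    by_cases hn : n = 0
    · rw [if_pos hn, GGA_one]
      simp [hn]
    · rw [if_neg hn, GGA_zero]
      simp [hn]
  · rw [PowerSeries.coeff_mul, Finset.Nat.sum_antidiagonal_eq_sum_range_succ
      (fun i j => PowerSeries.coeff i (GGA_L N) * PowerSeries.coeff j (FS N)), GGA_sum]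
    refine Finset.sum_congr rfl fun k _ => ?_
    rw [GGA_mul]
    refine Finset.sum_congr rfl fun a1 _ => Finset.sum_congr rfl fun b1 _ => ?_
    split_ifs with h
    · rfl
    · rw [GGA_Lhom k a1 b1 h, zero_mul]

theorem GGA_one0 {N : ℕ} (a b : ℕ) : GGA_cf (PowerSeries.coeff 0 (FS N)) a b =
    if a = 0 ∧ b = 0 then 1 else 0 := by
  rw [GGA_coef]
  rw [Finset.sum_eq_zero, add_zero]
  · simp
  · intro k hk
    have hk' := Finset.mem_range.1 hk
    refine Finset.sum_eq_zero fun a1 _ => Finset.sum_eq_zero fun b1 _ => ?_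
    rw [if_neg (by omega)]

theorem GGA_deg {N : ℕ} (n : ℕ) : ∀ a b : ℕ, 1 ≤ n → n ≤ a + b →
    GGA_cf (PowerSeries.coeff n (FS N)) a b = 0 := by
  induction n using Nat.strong_induction_on with
  | _ n ih =>
    intro a b hn hab
    rw [GGA_coef, if_neg (by omega), zero_add]
    refine Finset.sum_eq_zero fun k hk => Finset.sum_eq_zero fun a1 ha1 =>
      Finset.sum_eq_zero fun b1 hb1 => ?_
    have hk' := Finset.mem_range.1 hk
    have ha1' := Finset.mem_range.1 ha1
    have hb1' := Finset.mem_range.1 hb1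
    split_ifs with h
    · by_cases hkn : k = n
      · subst hkn
        rw [Nat.sub_self, GGA_one0, if_neg (by omega), mul_zero]
      · rw [ih (n - k) (by omega) _ _ (by omega) (by omega), mul_zero]
    · rfl

theorem GGA_top {N : ℕ} (n a b : ℕ) (h : a + b + 1 = n) :
    GGA_cf (PowerSeries.coeff n (FS N)) a b = GGA_cf (PowerSeries.coeff n (GGA_L N)) a b := by
  rw [GGA_coef, if_neg (by omega), zero_add, Finset.sum_eq_single n]
  · rw [Finset.sum_eq_single a, Finset.sum_eq_single b]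
    · rw [if_pos h, Nat.sub_self, Nat.sub_self, Nat.sub_self, GGA_one0, if_pos ⟨rfl, rfl⟩, mul_one]
    · intro b1 hb1 hne
      have := Finset.mem_range.1 hb1
      rw [if_neg (by omega)]
    · intro h1
      exact absurd (Finset.mem_range.2 (Nat.lt_succ_self b)) h1
    · intro a1 ha1 hne
      have := Finset.mem_range.1 ha1
      refine Finset.sum_eq_zero fun b1 hb1 => ?_
      have := Finset.mem_range.1 hb1
      rw [if_neg (by omega)]
    · intro h1
      exact absurd (Finset.mem_range.2 (Nat.lt_succ_self a)) h1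
  · intro k hk hne
    have hk' := Finset.mem_range.1 hk
    refine Finset.sum_eq_zero fun a1 ha1 => Finset.sum_eq_zero fun b1 hb1 => ?_
    have ha1' := Finset.mem_range.1 ha1
    have hb1' := Finset.mem_range.1 hb1
    split_ifs with h2
    · rw [GGA_deg (n - k) _ _ (by omega) (by omega), mul_zero]
    · rfl
  · intro h1
    exact absurd (Finset.mem_range.2 (Nat.lt_succ_self n)) h1

theorem thm_GGA : St_GGA := by
  intro N
  refine ⟨fun a b => GGA_one0 a b, fun n a b hn hab => GGA_deg n a b hn hab,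
    fun n a b m hm hm2 => ?_⟩
  change GGA_cf (PowerSeries.coeff n (FS N)) a b = _
  rw [GGA_coef, if_neg (by omega), zero_add]
  refine Finset.sum_congr rfl fun k _ => Finset.sum_congr rfl fun a1 _ =>
    Finset.sum_congr rfl fun b1 _ => ?_
  split_ifs with h
  · change _ = GGA_cf (PowerSeries.coeff k (FS N)) a1 b1 * _
    rw [GGA_top k a1 b1 h]
    rfl
  · rfl

end MDC
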