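import Pool.Agent.MDC.Core

/-!
# MDC, frozen statements A: the relations and the upper bound

Every `St_X` is proved in its own file `Pool/Agent/MDC/X.lean` as `theorem MDC.thm_X ... : St_X`,
the hypotheses being exactly the statements listed in its docstring. `t` is the variable of the
power series. `RelP ≤ Rel`, `RelA ≤ RelP` are clear.
-/

set_option autoImplicit false

open MvPolynomial

namespace MDC

/-- MODULE SYM (from nothing). Abstract form of the relations for `θ_i η_i`.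
Let `O` = the `i` with `i ∉ Z`, `l q ≠ i ∀ q`, so `|O| = n - |Z| - r`; put
`g(i) = coeff_N ((∏_{o ∈ O} (1 - y_o t)) ∏_q inv (i q))` for `i : Fin r → ι`. For every `p` and `i`:
`∑_x g(i[p → x]) • φ(i[p → x]) = 0`, because `inv x = ∑ y_x^q t^q`, so
`g(i[p → x]) = ∑_{q ≤ N} (coefficient independent of x) y_x^q`. Call `β(i)` the number of `q` with
`i q ∈ {l 1, …, l r}`, and `S_q = ∑_{i, β(i) = q} g(i) • φ(i)`. Sum the relations over all `p` and
all `(i_{p'})_{p' ≠ p}` of which exactly `q` are among the `l`: every `i` with `β(i) = q + 1` occurs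
for the `q + 1` positions `p` with `i p` among the `l`, every `i` with `β(i) = q` for the `r - q`
other positions. So `(q + 1) S_{q+1} + (r - q) S_q = 0` for `q < r`. `S_0 = 0`: if `φ(i) ≠ 0` then
`i` is injective with values in `O` and `g(i)` is the coefficient of `t^N` of a product of
`|O| - r < N` factors `1 - y t` (`lin x * inv x = 1`). Hence `S_r = 0` (a multiple by a natural
number `≠ 0` can be cancelled, `ℂ ⊆ S ι`). In `S_r` only the injective `i`, `i = l ∘ σ`, count: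
`S_r = r! g(l) • φ(l)`. -/
def St_SYM : Prop :=
  ∀ (ι : Type) [Fintype ι] [DecidableEq ι] (M : Type) [AddCommGroup M] [Module (S ι) M]
    (r N : ℕ) (φ : (Fin r → ι) → M) (Z : Finset ι) (l : Fin r → ι),
    (∀ (σ : Equiv.Perm (Fin r)) (i : Fin r → ι), φ (i ∘ σ) = φ i) →
    (∀ i : Fin r → ι, ¬ Function.Injective i → φ i = 0) →
    (∀ (i : Fin r → ι) (q : Fin r), i q ∈ Z → φ i = 0) →
    (∀ (p : Fin r) (i : Fin r → ι) (q : ℕ),
      ∑ x : ι, (X x : S ι) ^ q • φ (Function.update i p x) = 0) →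
    Function.Injective l → (∀ q, l q ∉ Z) →
    Fintype.card ι < Z.card + 2 * r + N →
    PowerSeries.coeff N ((∏ i ∈ Finset.univ.filter (fun i : ι => i ∉ Z ∧ ∀ q, l q ≠ i), lin i) *
      ∏ q, inv (l q)) • φ l = 0

/-- MODULE POL (from St_SYM).
If `x.1` or `x.2` is not injective then `u x ∈ RelA` (a transposition `τ` with `x.1 ∘ τ = x.1` gives
`rA τ x = 2 u x`). Otherwise let `D` be the set of the common values of `x.1` and `x.2`,
`ρ = |D|`, `l : Fin ρ → ι` an enumeration of `D`, `s q`, `t q` the positions with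
`x.1 (s q) = l q = x.2 (t q)`, `Z` the set of the other values of `x.1`, `x.2`, so
`|Z| = a + b - 2 ρ`. Apply SYM with `M = T / RelP`, `φ(i) = u` of `x` with the entries at the
positions `s q` of the first and `t q` of the second tuple replaced by `i q`
(`Function.extend s i x.1`), `N = r`: simultaneous permutation of the positions `s` and `t` has sign
`(+1)`; repeated entries give `0`; the sums are the `rPh`. `EE x` is the series of SYM because
`lin i * inv i = 1`. -/
def St_POL : Prop :=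
  ∀ (ι : Type) [Fintype ι] [DecidableEq ι] (a b r : ℕ) (x : Ix a b ι),
    Fintype.card ι < r + a + b → ec r x • u x ∈ RelP a b ι

/-- MODULE EOP (from nothing). Multiplication by `ec r` preserves `Rel`.
It is `S`-linear, check generators. `EE` is invariant under permutations of the entries (`rA`,
`rB`). `rTh s x l`: `EE (x.1[s → i], x.2) = G * inv i` with `G` independent of `i`, so
`ec r * rTh s x l = ∑_{q ≤ r} coeff_{r-q} G • rTh s x (l + q)`; the same for `rEt`; for `rPh` the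
factor is `inv i ^ 2`. -/
def St_EOP : Prop :=
  ∀ (ι : Type) [Fintype ι] [DecidableEq ι] (a b r : ℕ), ∀ c ∈ Rel a b ι, ec r * c ∈ Rel a b ι

section ops

variable {a b : ℕ} {ι : Type} [Fintype ι] [DecidableEq ι]

/-- `u x ↦ ∑_σ sgn(σ) u (x.1 ∘ σ without its first entry, x.2)` (`a!` times the derivative
`∑_i ∂/∂θ_i`) -/
noncomputable def dl : T (a + 1) b ι →ₗ[S ι] T a b ι where
  toFun c := fun y => ∑ σ : Equiv.Perm (Fin (a + 1)), ∑ i : ι,
    (((Equiv.Perm.sign σ : ℤ) : ℂ)) • c ((Fin.cons i y.1 : Fin (a + 1) → ι) ∘ σ.symm, y.2)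
  map_add' c c' := by funext y; simp [Finset.sum_add_distrib]
  map_smul' t c := by
    funext y
    simp only [Pi.smul_apply, smul_eq_mul, RingHom.id_apply, Finset.mul_sum, mul_smul_comm]

/-- the same with the removed index `i` weighted by `y_i` (`a!` times `∑_i y_i ∂/∂θ_i`) -/
noncomputable def dst : T (a + 1) b ι →ₗ[S ι] T a b ι where
  toFun c := fun y => ∑ σ : Equiv.Perm (Fin (a + 1)), ∑ i : ι,
    (((Equiv.Perm.sign σ : ℤ) : ℂ)) • (X i *
      c ((Fin.cons i y.1 : Fin (a + 1) → ι) ∘ σ.symm, y.2))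
  map_add' c c' := by funext y; simp [mul_add, Finset.sum_add_distrib]
  map_smul' t c := by
    funext y
    simp only [Pi.smul_apply, smul_eq_mul, RingHom.id_apply, Finset.mul_sum, mul_smul_comm]
    refine Finset.sum_congr rfl (fun σ _ => Finset.sum_congr rfl (fun i _ => ?_))
    congr 1
    ring

/-- `∑_i θ_i ∂/∂y_i` -/
noncomputable def dt : T a b ι →ₗ[ℂ] T (a + 1) b ι where
  toFun c := fun x => pderiv (x.1 0) (c (Fin.tail x.1, x.2))
  map_add' c c' := by funext x; simp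
  map_smul' t c := by funext x; simp

/-- multiplication by `θ_i` -/
noncomputable def mu (i : ι) : T a b ι →ₗ[S ι] T (a + 1) b ι where
  toFun c := fun x => if x.1 0 = i then c (Fin.tail x.1, x.2) else 0
  map_add' c c' := by funext x; by_cases h : x.1 0 = i <;> simp [h]
  map_smul' t c := by funext x; by_cases h : x.1 0 = i <;> simp [h]

/-- exchange of the two sets of variables -/
noncomputable def sw : T a b ι ≃ₗ[S ι] T b a ι where
  toFun c := fun x => c (x.2, x.1)
  invFun c := fun x => c (x.2, x.1)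
  map_add' _ _ := rfl
  map_smul' _ _ := rfl
  left_inv _ := rfl
  right_inv _ := rfl

end ops

/-- MODULE DPA (from nothing).
(1) is a computation (`cons i y ∘ σ⁻¹ = x` iff `i = x (σ 0)`, `y = tail (x ∘ σ)`); (2) substitute
`σ ↦ τ σ`; (3) from (1), (2) and permutations of `x.2` (they commute with `dl`): `dl` kills `rA τ x`
and maps `rB τ x` into `RelA`; (4) `dl (rPh s t x l) = ∑_σ sgn(σ) (…)`: if `σ 0 = s` the term is
`rEt t (tail (x.1 ∘ σ), x.2) l`, otherwise it is `rPh s' t (tail (x.1 ∘ σ), x.2) l` with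
`s'.succ = σ⁻¹ s`. -/
def St_DPA : Prop :=
  ∀ (ι : Type) [Fintype ι] [DecidableEq ι] (a b : ℕ),
    (∀ x : Ix (a + 1) b ι, dl (u x) = ∑ σ : Equiv.Perm (Fin (a + 1)),
      (((Equiv.Perm.sign σ : ℤ) : ℂ)) • u (Fin.tail (x.1 ∘ σ), x.2)) ∧
    (∀ (τ : Equiv.Perm (Fin (a + 1))) (x : Ix (a + 1) b ι),
      dl (u (x.1 ∘ τ, x.2)) = (((Equiv.Perm.sign τ : ℤ) : ℂ)) • dl (u x)) ∧
    (∀ c ∈ RelA (a + 1) b ι, dl c ∈ RelA a b ι) ∧
    (∀ c ∈ RelP (a + 1) b ι, dl c ∈ Rel a b ι)

/-- MODULE DTH (from nothing).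
(1) is a computation. (2) `dt (s • g) = ∑_i ∂_i s • mu i g + s • dt g`; for the generators `g` of
`Rel a b`: `mu i g` is a generator of `Rel (a+1) b` (positions shifted by one; for `rA` extend `τ`
by `0 ↦ 0`), and `dt g ∈ Rel`: `dt (rA τ x) = 0`, `dt (rTh s x l) = ∑_i l y_i^(l-1)
u (cons i (x.1[s → i]), x.2) ∈ RelA` (non-injective tuples), the same for `rPh`, and
`dt (rEt t x l) = ∑_i l y_i^(l-1) u (cons i x.1, x.2[t → i])` is a multiple of an `rPh` at the
positions `0, t`. (3) `dt (p_k c) - p_k dt c = ∑_i k y_i^(k-1) mu i c ∈ Rel`, an `rTh` at the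
position `0` for `c = s • u x` (`k ≥ 1`; for `k = 0` it is `0`). (4) follows from (1). -/
def St_DTH : Prop :=
  ∀ (ι : Type) [Fintype ι] [DecidableEq ι] (a b : ℕ),
    (∀ (s : S ι) (x : Ix a b ι), dt (s • u x) = ∑ i : ι,
      pderiv i s • u ((Fin.cons i x.1 : Fin (a + 1) → ι), x.2)) ∧
    (∀ c ∈ Rel a b ι, dt c ∈ Rel (a + 1) b ι) ∧
    (∀ (k : ℕ) (c : T a b ι), dt (psum ι ℂ k • c) - psum ι ℂ k • dt c ∈ Rel (a + 1) b ι) ∧
    (∀ c ∈ LP a b ι, dt c ∈ LP (a + 1) b ι)

/-- MODULE CAR (from nothing). `{∂, θ_i} = 1`, with the factorials of the normalisation.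
In `dl (u (cons i x.1, x.2)) = ∑_{σ ∈ S_{a+2}} sgn(σ) u (tail (cons i x.1 ∘ σ), x.2)` the `σ` with
`σ 0 = 0` give `∑_{σ' ∈ S_{a+1}} sgn(σ') u (x.1 ∘ σ', x.2) ≡ (a+1)! u x` modulo `RelA`. If
`σ 0 ≠ 0`, then `i` occupies a position `p ≥ 0` of the tail; moving it to the front, the tail
becomes `cons i (…)` where `(…)` is `x.1 ∘ σ'` without its first entry; for each of the `a + 1`
values of `p` the sum over these `σ` is `≡ - mu i (dl (u x))`. (One can write
`σ = (0 1)-type cycle ∘ (decomposeFin …)`, or compare with `∂ u(j) = ∑_s (-1)^s u(j without s)`,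
`dl = a! ∂` modulo `RelA`.) -/
def St_CAR : Prop :=
  ∀ (ι : Type) [Fintype ι] [DecidableEq ι] (a b : ℕ) (x : Ix (a + 1) b ι) (i : ι),
    dl (u ((Fin.cons i x.1 : Fin (a + 2) → ι), x.2)) + ((a : ℂ) + 1) • mu i (dl (u x)) -
      ((a + 1).factorial : ℂ) • u x ∈ RelA (a + 1) b ι

/-- MODULE PZT (from St_POL, St_DPA, St_DTH, St_CAR). The key relation, for `a + 1 ≥ 1` letters `θ`.
Let `n = card ι`. (i) For all `c`, `y : Ix (c+1) b ι` and `R` with `n < R + (c+1) + b`:
`coeff_R (EE y) • dl (u y) ∈ Rel c b` (apply the `S`-linear map `dl` to POL, DPA (4)).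
(ii) Take `y = x`, `R = r + 1` and apply `dt` (DTH (2)); `dl (u x)` is a combination with constant
coefficients of basis vectors, so by DTH (1) `∑_i ∂_i(coeff_{r+1} (EE x)) • mu i (dl (u x)) ∈ Rel`.
With `∂_i (lin i) = - t`, `∂_i (inv i) = t inv i ^ 2`: `∂_i (EE x) = t EE x (n_i - 1) inv i`, where
`n_i` is the number of entries `i` of `x.1`, `x.2` together. So modulo `Rel (a+1) b`
`0 ≡ - ∑_i coeff_r (EE x * inv i) • mu i (dl (u x)) + ∑_{e} coeff_r (EE x * inv e) • mu e (dl (u x))`,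
`e` running over all entries of `x.1` and of `x.2`; the first sum is in `Rel` (expand
`inv i = ∑ y_i^q t^q`, `rTh` at position `0`). (iii) Multiply by `a + 1` and use CAR:
`(a+1) mu e (dl (u x)) ≡ (a+1)! u x - dl (u (cons e x.1, x.2))`. If `e` is an entry of `x.1` then
`dl (u (cons e x.1, x.2)) = 0` (DPA (2) with a transposition). If `e` is an entry of `x.2` then
`coeff_r (EE x * inv e) = coeff_r (EE (cons e x.1, x.2))` and (i) with `y = (cons e x.1, x.2)`,
`R = r` applies (`n < r + (a+2) + b`). What remains is `(a+1)!` times the claim. -/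
def St_PZT : Prop :=
  ∀ (ι : Type) [Fintype ι] [DecidableEq ι] (a b r : ℕ) (x : Ix (a + 1) b ι),
    Fintype.card ι ≤ r + (a + 1) + b →
    PowerSeries.coeff r (EE x * (∑ s, inv (x.1 s) + ∑ t, inv (x.2 t))) • u x ∈ Rel (a + 1) b ι

/-- MODULE SWP (from nothing). Clear from the definitions (`rA ↔ rB`, `rTh ↔ rEt`, `rPh ↔ rPh`). -/
def St_SWP : Prop :=
  ∀ (ι : Type) [Fintype ι] [DecidableEq ι] (a b : ℕ),
    (∀ x : Ix a b ι, sw (u x) = u (x.2, x.1)) ∧
    (∀ c ∈ Rel a b ι, sw c ∈ Rel b a ι) ∧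
    (∀ x : Ix a b ι, EE (x.2, x.1) = EE x)

/-- MODULE PZZ (from St_POL, St_PZT, St_SWP). The key relation.
`X * d/dX EE x = EE x * (n - a - b - PP + ∑_s inv (x.1 s) + ∑_t inv (x.2 t))`, `n = card ι`, because
`X * (lin i)' = lin i * (1 - inv i)` and `X * (inv i)' = inv i * (inv i - 1)`. Compare the
coefficients of `t^r`: `coeff_r (EE x * PP) = coeff_r (EE x * (∑ inv + ∑ inv)) + (n - a - b - r)
coeff_r (EE x)`. If `n < r + a + b` the last term times `u x` is in `RelP` (POL); if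
`n = r + a + b` its factor is `0`. The first term is PZT if `a ≥ 1`, and PZT with SWP if `b ≥ 1`; if
`a = b = 0` it is `0` (empty sums). -/
def St_PZZ : Prop :=
  ∀ (ι : Type) [Fintype ι] [DecidableEq ι] (a b r : ℕ) (x : Ix a b ι),
    Fintype.card ι ≤ r + a + b → PowerSeries.coeff r (EE x * PP ι) • u x ∈ Rel a b ι

/-- MODULE TOP (from St_PZZ). `Rel = ⊤` if `a + b ≥ card ι ≥ 1`: PZZ with `r = 0` says
`(card ι) • u x ∈ Rel`. -/
def St_TOP : Prop :=
  ∀ (ι : Type) [Fintype ι] [DecidableEq ι] (a b : ℕ), 1 ≤ Fintype.card ι →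
    Fintype.card ι ≤ a + b → Rel a b ι = ⊤

/-- MODULE PWR (from St_POL, St_PZZ). All power sums are in `Lop thC`.
By strong induction on `k ≥ 1`: `p_k • c ∈ Lop thC` for all `c`; it is enough to treat `c = s • u x`.
For `k ≤ m` it is the definition. For `k > m` PZZ with `r = k`:
`∑_{q ≤ k} p_q ec_{k-q}(x) • u x ∈ Rel` (`coeff_q PP = p_q`); for `q < k - m` the term is in `Rel`
by POL (this includes `q = 0`), for `k - m ≤ q < k` it is in `Lop thC` by induction. -/
def St_PWR : Prop :=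
  ∀ (ι : Type) [Fintype ι] [DecidableEq ι] (a b m : ℕ), a + b + m = Fintype.card ι →
    LP a b ι = Lop (thC m)

/-- MODULE NWT (from St_POL). Newton's identities for `EE`.
`X * d/dX EE x = - EE x * ∑_{k ≥ 1} QQ_k(x) t^k` (same computation as in PZZ), so
`QQ_k(x) = - k ec_k(x) - ∑_{1 ≤ q < k} QQ_q(x) ec_{k-q}(x)`. Strong induction on `k`:
`QQ_k * c ∈ Lop ecC` for all `c`; `ec_k * c ∈ Lop ecC` for `1 ≤ k ≤ m` by definition and
`ec_k * c ∈ Rel` for `k > m` by POL. -/
def St_NWT : Prop :=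
  ∀ (ι : Type) [Fintype ι] [DecidableEq ι] (a b m : ℕ), a + b + m = Fintype.card ι →
    ∀ k : ℕ, 1 ≤ k → ∀ c : T a b ι, QQ k * c ∈ Lop (ecC m)

/-! ## The upper bound, `ι = Fin n` -/

section prefx

variable {a b n : ℕ}

/-- number of letters with index `< p` -/
def Dp (p : ℕ) (x : Ix a b (Fin n)) : ℕ :=
  (Finset.univ.filter (fun s => (x.1 s).val < p)).card +
    (Finset.univ.filter (fun t => (x.2 t).val < p)).card

/-- the series `EE` of the part of `x` with indices `< p` -/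
noncomputable def EEp (p : ℕ) (x : Ix a b (Fin n)) : PowerSeries (S (Fin n)) :=
  (∏ i ∈ Finset.univ.filter (fun i : Fin n => i.val < p), lin i) *
    (∏ s ∈ Finset.univ.filter (fun s => (x.1 s).val < p), inv (x.1 s)) *
    ∏ t ∈ Finset.univ.filter (fun t => (x.2 t).val < p), inv (x.2 t)

noncomputable def PPp (n p : ℕ) : PowerSeries (S (Fin n)) :=
  ∑ i ∈ Finset.univ.filter (fun i : Fin n => i.val < p), inv i

/-- span of the `u y` which are higher than `x` at level `p` (by `δ`) -/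
noncomputable def Hi (δ p : ℕ) (x : Ix a b (Fin n)) : Submodule (S (Fin n)) (T a b (Fin n)) :=
  Submodule.span (S (Fin n)) {c | ∃ y : Ix a b (Fin n), c = u y ∧ Dp p y + δ ≤ Dp p x ∧
    ∀ p', p ≤ p' → Dp p' y ≤ Dp p' x}

/-- word of the multiplicities -/
def wd (x : Ix a b (Fin n)) (i : Fin n) : ℕ :=
  (Finset.univ.filter (fun s => x.1 s = i)).card + (Finset.univ.filter (fun t => x.2 t = i)).card

/-- partial sums of a word -/
def pw (w : Fin n → ℕ) (p : ℕ) : ℕ := ∑ i ∈ Finset.univ.filter (fun i : Fin n => i.val < p), w i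

noncomputable def Wp (w : Fin n → ℕ) (p : ℕ) : PowerSeries (S (Fin n)) :=
  (∏ i ∈ Finset.univ.filter (fun i : Fin n => i.val < p), lin i) *
    ∏ i ∈ Finset.univ.filter (fun i : Fin n => i.val < p), inv i ^ w i

/-- the bound attached to a word -/
def cw (w : Fin n → ℕ) : ℕ :=
  (n - ∑ i, w i).factorial * ∏ i : Fin n, (if w i = 0 then 1 else
    if w i = 1 then i.val - pw w i.val else (i.val - pw w i.val) * (i.val - pw w i.val - 1))

end prefx

/-- MODULE TRP (from nothing). Transfer of relations from `Fin p` to `Fin n`.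
`a1`, `b1`: numbers of positions `s`, `t` with `x.1 s < p`, `x.2 t < p`; `α : Fin a1 → Fin a`,
`β : Fin b1 → Fin b` enumerations of these positions; `x1 = (x.1 ∘ α, x.2 ∘ β)`. For
`y : Ix a1 b1 (Fin p)` let `y⁺ = (Function.extend α (castLE ∘ y.1) x.1, …)`, and
`τ c = ∑_y rename (castLE) (c y) • u (y⁺)`. On generators: `τ (rA σ y) ∈ RelA` (extend `σ` by the
identity to `Fin a`), `τ (rTh s y l) = rTh (α s) (y⁺) l - ∑_{i ≥ p} y_i^l u (y⁺ with i at α s)`, and
for `i ≥ p` the new tuple has `Dp p` smaller by `1` than `Dp p (y⁺) = Dp p x` and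
`Dp p'` at most `Dp p' x` for `p' ≥ p`; for `rPh` two letters leave, so `Dp p` drops by `2`. -/
def St_TRP : Prop :=
  ∀ (n p a b : ℕ) (hp : p ≤ n) (x : Ix a b (Fin n)), ∃ (a1 b1 : ℕ) (x1 : Ix a1 b1 (Fin p))
    (τ : T a1 b1 (Fin p) →+ T a b (Fin n)), a1 + b1 = Dp p x ∧
    (∀ (s : S (Fin p)) (c : T a1 b1 (Fin p)), τ (s • c) = rename (Fin.castLE hp) s • τ c) ∧
    τ (u x1) = u x ∧
    (∀ c ∈ RelP a1 b1 (Fin p), τ c ∈ Rel a b (Fin n) ⊔ Hi 2 p x) ∧
    (∀ c ∈ Rel a1 b1 (Fin p), τ c ∈ Rel a b (Fin n) ⊔ Hi 1 p x) ∧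
    PowerSeries.map (rename (R := ℂ) (Fin.castLE hp)).toRingHom (EE x1) = EEp p x

/-- MODULE RLP (from St_TRP, St_POL, St_PZZ). Apply `τ` of TRP to POL and PZZ for `ι = Fin p`
(`Fintype.card (Fin p) = p`). -/
def St_RLP : Prop :=
  ∀ (n p a b r : ℕ), p ≤ n → ∀ x : Ix a b (Fin n),
    (p < r + Dp p x → PowerSeries.coeff r (EEp p x) • u x ∈ Rel a b (Fin n) ⊔ Hi 2 p x) ∧
    (p ≤ r + Dp p x →
      PowerSeries.coeff r (EEp p x * PPp n p) • u x ∈ Rel a b (Fin n) ⊔ Hi 1 p x)

/-- MODULE RLQ (from St_RLP). The relation at an index `i` which carries exactly one letter.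
Say `x.1 s₀ = i` (the case of `x.2` is the same with `rEt`). `∑_{i'} coeff_r (EEp i x * inv i')
• u (x.1[s₀ → i'], x.2) ∈ Rel` (expand `inv i'`; `EEp i x` does not depend on `i'`). The terms
`i' > i` are in `Hi 1 (i+1) x`. For `i' < i` the new tuple `x'` has `Dp i x' = Dp i x + 1`,
`EEp i x' = EEp i x * inv i'`, so by RLP (`p = i`) the term is in `Rel ⊔ Hi 2 i x'`, and
`Hi 2 i x' ≤ Hi 1 i x` (`Dp p' x' = Dp p' x` for `p' ≥ i + 1`). -/
def St_RLQ : Prop :=
  ∀ (n a b r : ℕ) (i : Fin n) (x : Ix a b (Fin n)), wd x i = 1 → i.val ≤ r + Dp i.val x →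
    PowerSeries.coeff r (EEp i.val x * inv i) • u x ∈
      Rel a b (Fin n) ⊔ Hi 1 i.val x ⊔ Hi 1 (i.val + 1) x

/-- MODULE IDL (from MDH.St_CHN, MDH.St_CYC). Bound for `dim S / I`.
Downward induction on `p ≤ n` of the statement: let `J ≥ I` be an ideal, `g : Fin n → Fin n`,
`K ⊆ {i < p}` with: `g k = k` for `k ∈ K`; `g i ∈ K`, `X i - X (g i) ∈ J` for all `i < p`; and
`∑_{i < p, g i = k} (1 - w i) = 1` (in `ℤ`) for `k ∈ K` (so `|K| = p - pw w p`). Then `S / J` is
finite with `finrank ≤ (n - ∑ w)! ∏_{i ≥ p}` (factor of `i` in `cw`). For `p = 0`, `J = I`,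
`K = ∅` this is the claim. `p = n`: CYC with `β k = ∑_{g i = k} (1 - s w i)`, which is the number of
the `i` with `g i = k` for `s = 0` and `1` for `s = 1`, so positive; `|K|! = (n - ∑ w)!`. Step, let
`i = p`, `h = |K| = i - pw w i`. Modulo `J` the series `Wp w i` is `∏_{k ∈ K} (1 - y_k t)` (group the
factors by `g`, `lin * inv = 1`). If `w i = 0`: add `i` to `K`, `g i = i`. If `w i ≥ 1`: modulo `J`,
`coeff_h (∏_{k ∈ K} (1 - y_k t) * inv i) = ∏_{k ∈ K} (y_i - y_k)`, so this product is in `J` and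
CHN applies to the list of the `X i - X k`, `k ∈ K`: `h` terms, in the term of `k` we have
`X i - X k ∈ J' = J ⊔ (X i - X k)`. If `w i = 1` take `g i = k`, same `K`. If `w i = 2` (then
`h ≥ 1` as `k ∈ K`) the other hypothesis with `r = h - 1`: modulo `J'` the series is
`∏_{k' ≠ k} (1 - y_{k'} t) * ∑_{l ∈ K} b_l inv l`, where `b_l` = number of `i' ≤ i` in the class of
`l` (`i` in the class of `k`); the coefficient of `t^(h-1)` of the terms `l ≠ k` is `0` (degree
`h - 2` polynomial), and that of `l = k` is `b_k ∏_{k' ≠ k} (y_k - y_{k'})`, `b_k ≥ 1`. So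
`∏_{k' ∈ K \ k} (X k - X k') ∈ J'`: CHN again, `h - 1` terms; in the term of `k'` remove `k'` from
`K`, send the class of `k'` and `i` to `k` (weights: `1 + 1 + (1 - 2) + … `: the sum over the new
class is `1 + 1 - 1 = 1`). -/
def St_IDL : Prop :=
  ∀ (n : ℕ) (I : Ideal (S (Fin n))) (w : Fin n → ℕ) (s : ℕ), s ≤ 1 → (∀ i, w i ≤ 2) →
    (∀ (i : Fin n) (r : ℕ), 1 ≤ w i → i.val ≤ r + pw w i.val →
      PowerSeries.coeff r (Wp w i.val * inv i) ∈ I) →
    (∀ (i : Fin n) (r : ℕ), w i = 2 → i.val ≤ r + pw w i.val + 1 →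
      PowerSeries.coeff r (Wp w i.val * inv i * PPp n (i.val + 1)) ∈ I) →
    (∀ k : ℕ, 1 ≤ k → ∑ i, (1 - (s : S (Fin n)) * (w i : S (Fin n))) * X i ^ k ∈ I) →
    Module.Finite ℂ (S (Fin n) ⧸ I) ∧ Module.finrank ℂ (S (Fin n) ⧸ I) ≤ cw w

/-- MODULE CNW (from nothing). Recursion on `n` (split by the last index in or not in `A`, `B`):
with `W n a b = ∑ ∏ (factors)`, `h = n - a - b`: `W (n+1) a b = W n a b + (n+1-a-b) (W n (a-1) b +
W n a (b-1)) + (n+2-a-b) (n+1-a-b) W n (a-1) (b-1)`, and `cw`-sum `= (n-a-b)! W n a b`; compare with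
`rr`. For `a + b ≥ n ≥ 1` both sides vanish (careful with the truncated subtraction: once the height
`i - pw w i` would become negative a factor `0` has occurred; for `a + b ≥ n ≥ 1` a factor `0`
always occurs). -/
def St_CNW : Prop :=
  ∀ (n a b : ℕ),
    ∑ A ∈ (Finset.univ : Finset (Fin n)).powersetCard a,
      ∑ B ∈ (Finset.univ : Finset (Fin n)).powersetCard b,
        cw (fun i : Fin n => (if i ∈ A then 1 else 0) + (if i ∈ B then 1 else 0)) = rr n a b

/-- MODULE UPB (from MDH.St_FIL, St_RLP, St_RLQ, St_IDL, St_CNW). The upper bound.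
Apply FIL to `Q = T / L`, index set = pairs `(A, B)` of subsets with `|A| = a`, `|B| = b`,
`v_{A,B}` = class of `u x_{A,B}`, `x_{A,B}` = the increasing enumerations, and
`ρ = ∑_{p ≤ n} (a + b - Dp p x) (a + b + 1)^p`. The `v` generate `Q` (non-injective tuples are in
`RelA`, reordering gives a sign), and `ρ` depends only on the values of a tuple. A `u y` in
`Hi δ p x`, `δ ≥ 1`, `p ≤ n`, is `0` or `±` a `v` with larger `ρ`. The ideal `Ann` of `v_{A,B}`
satisfies the hypotheses of IDL with `w = wd x`: `EEp p x = Wp (wd x) p`, `Dp p x = pw (wd x) p`. If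
`w i = 1`: RLQ. If `w i = 2`: RLP with `p = i + 1`, since `EEp (i+1) x = EEp i x * lin i * inv i ^ 2
= EEp i x * inv i` and `Dp (i+1) x = Dp i x + 2`. Power sums: the hypothesis on `L`
(`∑_s X (x.1 s)^k + ∑_t X (x.2 t)^k = ∑_i w i X i ^ k`). Sum with CNW. -/
def St_UPB : Prop :=
  ∀ (n a b : ℕ) (L : Submodule (S (Fin n)) (T a b (Fin n))) (s : ℕ), s ≤ 1 →
    Rel a b (Fin n) ≤ L →
    (∀ (x : Ix a b (Fin n)) (k : ℕ), 1 ≤ k →
      (psum (Fin n) ℂ k - (s : S (Fin n)) *
        (∑ q, (X (x.1 q) : S (Fin n)) ^ k + ∑ q, (X (x.2 q) : S (Fin n)) ^ k)) • u x ∈ L) →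
    Module.Finite ℂ (T a b (Fin n) ⧸ L) ∧ Module.finrank ℂ (T a b (Fin n) ⧸ L) ≤ rr n a b

end MDC
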