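import Pool.Agent.MDC.StA

/-!
# MDC, frozen statements B: general tools (relabelling, grading, complements)
-/

set_option autoImplicit false

open MvPolynomial

namespace MDC

section relb

variable {a b : ℕ} {ι ι' : Type} [Fintype ι] [DecidableEq ι] [Fintype ι'] [DecidableEq ι']

/-- relabelling -/
noncomputable def relb (e : ι ≃ ι') : T a b ι →ₗ[ℂ] T a b ι' where
  toFun c := fun x => rename e (c (fun s => e.symm (x.1 s), fun t => e.symm (x.2 t)))
  map_add' c c' := by funext x; simp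
  map_smul' t c := by funext x; simp

end relb

/-- MODULE RLB (from nothing). Everything is transported by a bijection `e : ι ≃ ι'`.
`relb e.symm` is inverse to `relb e`, generators go to generators, `rename e` of the coefficients of
`EE x` are those of `EE (e ∘ x)`; the last two: `relb e` induces an isomorphism of the quotients
which intertwines `actT w` and `actT (e w e⁻¹)` (`LinearMap.trace_conj'`); the stability conditions
in `qtr` are equivalent. -/
def St_RLB : Prop :=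
  ∀ (ι ι' : Type) [Fintype ι] [DecidableEq ι] [Fintype ι'] [DecidableEq ι'] (e : ι ≃ ι')
    (a b : ℕ),
    (∀ c c' : T a b ι, relb e (c * c') = relb e c * relb e c') ∧
    (∀ (s : S ι) (c : T a b ι), relb e (s • c) = rename e s • relb e c) ∧
    (∀ x : Ix a b ι, relb e (u x) = u (fun s => e (x.1 s), fun t => e (x.2 t))) ∧
    (∀ c : T a b ι, relb e.symm (relb e c) = c) ∧
    (∀ c : T a b ι, relb e c ∈ Rel a b ι' ↔ c ∈ Rel a b ι) ∧
    (∀ r : ℕ, relb e (ec r : T a b ι) = ec r) ∧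
    (∀ (m : ℕ) (c : T a b ι), relb e c ∈ Lop (ecC m) ↔ c ∈ Lop (ecC m)) ∧
    (∀ (m : ℕ) (c : T a b ι), relb e c ∈ Lop (thC m) ↔ c ∈ Lop (thC m)) ∧
    (∀ c : T a b ι, relb e c ∈ LP a b ι' ↔ c ∈ LP a b ι) ∧
    (∀ (m : ℕ) (z : Fin m → ℂ) (c : T a b ι), relb e c ∈ LZ a b ι' z ↔ c ∈ LZ a b ι z) ∧
    (∀ w : Equiv.Perm ι, qtr (LP a b ι') (e.permCongr w) = qtr (LP a b ι) w) ∧
    (∀ (m : ℕ) (z : Fin m → ℂ) (w : Equiv.Perm ι),
      qtr (LZ a b ι' z) (e.permCongr w) = qtr (LZ a b ι z) w)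

/-- MODULE UPG (from St_UPB, St_RLB, St_NWT). The upper bound for every `ι`.
For `ι = Fin n`: UPB with `L = Lop (ecC m)`, `s = 1` (NWT: `QQ k x • u x = QQ k * u x ∈ Lop (ecC m)`),
and with `L = LP`, `s = 0`. Quotients by `L` and by
`L.restrictScalars ℂ` are isomorphic (`Submodule.Quotient.restrictScalarsEquiv`). General `ι`: RLB
with `Fintype.equivFin`. -/
def St_UPG : Prop :=
  ∀ (ι : Type) [Fintype ι] [DecidableEq ι] (a b m : ℕ), a + b + m = Fintype.card ι →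
    (Module.Finite ℂ (T a b ι ⧸ (Lop (ecC m) : Submodule (S ι) (T a b ι)).restrictScalars ℂ) ∧
      Module.finrank ℂ (T a b ι ⧸ (Lop (ecC m) : Submodule (S ι) (T a b ι)).restrictScalars ℂ) ≤
        rr (Fintype.card ι) a b) ∧
    (Module.Finite ℂ (T a b ι ⧸ (LP a b ι).restrictScalars ℂ) ∧
      Module.finrank ℂ (T a b ι ⧸ (LP a b ι).restrictScalars ℂ) ≤ rr (Fintype.card ι) a b)

/-- MODULE ACT (from nothing). Elementary properties of the action and of the grading; compare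
`Pool/Agent/MDH/ACT.lean`, where the same is done for one set of variables. `LZ` is stable because
`EE (w x)` is the image of `EE x` under `rename w`. -/
def St_ACT : Prop :=
  (∀ (ι : Type) [Fintype ι] [DecidableEq ι] (a b : ℕ),
    (∀ c : T a b ι, actT 1 c = c) ∧
    (∀ (w w' : Equiv.Perm ι) (c : T a b ι), actT (w * w') c = actT w (actT w' c)) ∧
    (∀ (w : Equiv.Perm ι) (c c' : T a b ι), actT w (c * c') = actT w c * actT w c') ∧
    (∀ (w : Equiv.Perm ι) (s : S ι) (c : T a b ι), actT w (s • c) = rename w s • actT w c) ∧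
    (∀ (w : Equiv.Perm ι) (x : Ix a b ι),
      actT w (u x) = u (fun s => w (x.1 s), fun t => w (x.2 t))) ∧
    (∀ (w : Equiv.Perm ι) (r : ℕ), actT w (ec r : T a b ι) = ec r) ∧
    (∀ (w : Equiv.Perm ι) (m : ℕ) (k : Fin m), actT w (thC m k : T a b ι) = thC m k) ∧
    (∀ (r : ℕ) (x : Ix a b ι), (ec r x).IsHomogeneous r) ∧
    (∀ (m : ℕ) (k : Fin m) (x : Ix a b ι), (thC m k x).IsHomogeneous (k.val + 1)) ∧
    (∀ (w : Equiv.Perm ι) (i : ℕ), ∀ c ∈ Fd a b ι i, actT w c ∈ Fd a b ι i) ∧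
    (∀ (w : Equiv.Perm ι) (i : ℕ) (c : T a b ι), actT w (hc i c) = hc i (actT w c))) ∧
  (∀ (ι : Type) [Fintype ι] [DecidableEq ι] (a b : ℕ),
    IsStab ((Rel a b ι).restrictScalars ℂ) ∧ IsHomog ((Rel a b ι).restrictScalars ℂ) ∧
    IsStab ((LP a b ι).restrictScalars ℂ) ∧ IsHomog ((LP a b ι).restrictScalars ℂ) ∧
    (∀ (m : ℕ) (z : Fin m → ℂ), IsStab ((LZ a b ι z).restrictScalars ℂ)) ∧
    (∀ m : ℕ, IsStab ((Lop (ecC m) : Submodule (S ι) (T a b ι)).restrictScalars ℂ) ∧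
      IsHomog ((Lop (ecC m) : Submodule (S ι) (T a b ι)).restrictScalars ℂ) ∧
      IsStab ((Lop (thC m) : Submodule (S ι) (T a b ι)).restrictScalars ℂ) ∧
      IsHomog ((Lop (thC m) : Submodule (S ι) (T a b ι)).restrictScalars ℂ)))

/-- MODULE FDG (from nothing). The filtration `Fd`; compare `Pool/Agent/MDH/FDG.lean`. -/
def St_FDG : Prop :=
  ∀ (ι : Type) [Fintype ι] [DecidableEq ι] (a b : ℕ),
    Monotone (Fd a b ι) ∧
    (∀ i : ℕ, Module.Finite ℂ (Fd a b ι i)) ∧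
    (∀ c : T a b ι, ∃ i, c ∈ Fd a b ι i) ∧
    (∀ (i : ℕ) (c : T a b ι), hc i c ∈ Fd a b ι i) ∧
    (∀ i : ℕ, ∀ c ∈ Fd a b ι i, c = ∑ i' ∈ Finset.range (i + 1), hc i' c) ∧
    (∀ (i i' : ℕ) (c : T a b ι), hc i (hc i' c) = if i = i' then hc i c else 0) ∧
    (∀ (q i : ℕ) (f : T a b ι), (∀ x, (f x).IsHomogeneous q) → ∀ c ∈ Fd a b ι i,
      f * c ∈ Fd a b ι (i + q)) ∧
    (∀ (q i : ℕ) (f : T a b ι), (∀ x, (f x).IsHomogeneous q) → ∀ c : T a b ι,
      hc (i + q) (f * c) = f * hc i c) ∧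
    (∀ (q i : ℕ) (f : T a b ι), (∀ x, (f x).IsHomogeneous q) → ∀ c : T a b ι, i < q →
      hc i (f * c) = 0)

/-- MODULE COM (from St_ACT, St_FDG). Homogeneous stable complements; as
`Pool/Agent/MDH/COM.lean` (average a homogenised projection over `Equiv.Perm ι`). -/
def St_COM : Prop :=
  ∀ (ι : Type) [Fintype ι] [DecidableEq ι] (a b : ℕ) (L : Submodule ℂ (T a b ι)),
    IsHomog L → IsStab L →
      ∃ V : Submodule ℂ (T a b ι), IsHomog V ∧ IsStab V ∧ IsCompl V L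

/-- MODULE SPN (from St_FDG). Spanning property; as `Pool/Agent/MDH/SPN.lean`. -/
def St_SPN : Prop :=
  ∀ (ι : Type) [Fintype ι] [DecidableEq ι] (a b m : ℕ) (f : Fin m → T a b ι)
    (V : Submodule ℂ (T a b ι)),
    (∀ k x, (f k x).IsHomogeneous (k.val + 1)) →
    (∀ k, ∀ c ∈ Rel a b ι, f k * c ∈ Rel a b ι) →
    IsHomog ((Rel a b ι).restrictScalars ℂ) → IsHomog V →
    V ⊔ (Lop f).restrictScalars ℂ = ⊤ →
    MDH.SP (Fd a b ι) f ((Rel a b ι).restrictScalars ℂ) V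

/-- MODULE LZG (from St_EOP, St_ACT, St_FDG, St_SPN, St_COM, St_UPG). Generation of `T / LZ`.
(1) `ec r * c - C (coeff_r ZZ) • c ∈ LZ` and `ec r * LZ ≤ LZ` (generators `u x`, EOP).
(2) By SPN every `c ∈ Fd J` is `∑_α mon ecC α * v_α` modulo `Rel`, and by (1)
`mon ecC α * v ≡ (∏_k coeff_{k+1}(ZZ z)^{α_k}) • v` modulo `LZ`. (3) Take the complement `V` of COM:
`V → T / LZ` is onto and `V ≃ T / Lop ecC` has dimension `≤ rr` (UPG). -/
def St_LZG : Prop :=
  ∀ (ι : Type) [Fintype ι] [DecidableEq ι] (a b m : ℕ), a + b + m = Fintype.card ι →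
    ∀ z : Fin m → ℂ,
    (∀ (r : ℕ) (c : T a b ι), ec r * c - (C (PowerSeries.coeff r (ZZ z)) : S ι) • c ∈
      LZ a b ι z) ∧
    (∀ V : Submodule ℂ (T a b ι), IsHomog V →
      V ⊔ (Lop (ecC m) : Submodule (S ι) (T a b ι)).restrictScalars ℂ = ⊤ →
      V ⊔ (LZ a b ι z).restrictScalars ℂ = ⊤) ∧
    Module.Finite ℂ (T a b ι ⧸ (LZ a b ι z).restrictScalars ℂ) ∧
    Module.finrank ℂ (T a b ι ⧸ (LZ a b ι z).restrictScalars ℂ) ≤ rr (Fintype.card ι) a b

end MDC
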