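import Pool.Agent.MDC.StB

/-!
# MDC, frozen statements C: blocks and the induction

For a subset `B` of `ι` there is an evaluation map `ev : R_ι → R_B ⊗ R_{ι \ B}`; on `R_B` only the
bidegrees `(a1, b1)` with `a1 + b1 + 1 = |B|` are used. `LZ z`, `z : Fin (m+1) → ℂ`, goes to
`LZ (z_last)` on `B` and `LZ (z_0, …, z_{m-1})` on the complement.
-/

set_option autoImplicit false

open MvPolynomial

namespace MDC

section blocks

variable {a b a1 a2 b1 b2 : ℕ} {ι : Type} [Fintype ι] [DecidableEq ι]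

abbrev In (B : Finset ι) : Type := {i : ι // i ∈ B}

abbrev Out (B : Finset ι) : Type := {i : ι // i ∉ B}

abbrev T2 (a1 a2 b1 b2 : ℕ) (B : Finset ι) : Type := Ix a1 b1 (In B) × Ix a2 b2 (Out B) → S ι

noncomputable def u2 {B : Finset ι} (p : Ix a1 b1 (In B) × Ix a2 b2 (Out B)) :
    T2 a1 a2 b1 b2 B := Pi.single p 1

/-- concatenation -/
def jn {B : Finset ι} (h1 : a1 + a2 = a) (h2 : b1 + b2 = b)
    (p : Ix a1 b1 (In B) × Ix a2 b2 (Out B)) : Ix a b ι :=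
  (fun s => Fin.append (fun q => (p.1.1 q).1) (fun q => (p.2.1 q).1) (Fin.cast h1.symm s),
   fun t => Fin.append (fun q => (p.1.2 q).1) (fun q => (p.2.2 q).1) (Fin.cast h2.symm t))

/-- the evaluation map (antisymmetrised restriction) -/
noncomputable def ev (B : Finset ι) (h1 : a1 + a2 = a) (h2 : b1 + b2 = b) :
    T a b ι →ₗ[S ι] T2 a1 a2 b1 b2 B where
  toFun c := fun p => ∑ σ : Equiv.Perm (Fin a), ∑ τ : Equiv.Perm (Fin b),
    ((((Equiv.Perm.sign σ : ℤ) * (Equiv.Perm.sign τ : ℤ) : ℤ)) : ℂ) •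
      c ((jn h1 h2 p).1 ∘ σ, (jn h1 h2 p).2 ∘ τ)
  map_add' c c' := by funext p; simp [Finset.sum_add_distrib]
  map_smul' t c := by
    funext p
    simp only [Pi.smul_apply, smul_eq_mul, RingHom.id_apply, Finset.mul_sum, mul_smul_comm]

/-- `c1 ⊗ u y` -/
noncomputable def ex1 {B : Finset ι} (c1 : T a1 b1 (In B)) (y : Ix a2 b2 (Out B)) :
    T2 a1 a2 b1 b2 B := fun p => if p.2 = y then rename Subtype.val (c1 p.1) else 0

/-- `u y ⊗ c2` -/
noncomputable def ex2 {B : Finset ι} (y : Ix a1 b1 (In B)) (c2 : T a2 b2 (Out B)) :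
    T2 a1 a2 b1 b2 B := fun p => if p.1 = y then rename Subtype.val (c2 p.2) else 0

/-- `K ⊗ T + T ⊗ K'` -/
noncomputable def K2 {B : Finset ι} (K : Submodule (S (In B)) (T a1 b1 (In B)))
    (K' : Submodule (S (Out B)) (T a2 b2 (Out B))) : Submodule (S ι) (T2 a1 a2 b1 b2 B) :=
  Submodule.span (S ι) ({g | ∃ c1 ∈ K, ∃ y, g = ex1 c1 y} ∪ {g | ∃ y, ∃ c2 ∈ K', g = ex2 y c2})

/-- `w` stabilises `B` -/
def Stb (B : Finset ι) (w : Equiv.Perm ι) : Prop := ∀ i, w i ∈ B ↔ i ∈ B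

/-- restriction of `w` to `B` -/
noncomputable def resP (B : Finset ι) (w : Equiv.Perm ι) : Equiv.Perm (In B) := by
  classical
  exact if h : Stb B w then w.subtypePerm (p := fun i => i ∈ B) h else 1

/-- restriction of `w` to the complement of `B` -/
noncomputable def resN (B : Finset ι) (w : Equiv.Perm ι) : Equiv.Perm (Out B) := by
  classical
  exact if h : Stb B w then w.subtypePerm (p := fun i => i ∉ B) (fun i => not_congr (h i)) else 1

/-- action of `w` on `T2` (if `w` stabilises `B`) -/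
noncomputable def act2 (B : Finset ι) (w : Equiv.Perm ι) :
    T2 a1 a2 b1 b2 B →ₗ[ℂ] T2 a1 a2 b1 b2 B where
  toFun g := fun p => rename w (g ((fun s => (resP B w)⁻¹ (p.1.1 s), fun t => (resP B w)⁻¹ (p.1.2 t)),
    (fun s => (resN B w)⁻¹ (p.2.1 s), fun t => (resN B w)⁻¹ (p.2.2 t))))
  map_add' c c' := by funext p; simp
  map_smul' t c := by funext p; simp

/-- trace of `w` on `T2 / K` (`0` if `K` is not stable) -/
noncomputable def tr2 {B : Finset ι} (K : Submodule (S ι) (T2 a1 a2 b1 b2 B))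
    (w : Equiv.Perm ι) : ℂ := by
  classical
  exact if h : K.restrictScalars ℂ ≤ (K.restrictScalars ℂ).comap (act2 B w) then
    LinearMap.trace ℂ (T2 a1 a2 b1 b2 B ⧸ K.restrictScalars ℂ)
      ((K.restrictScalars ℂ).mapQ (K.restrictScalars ℂ) (act2 B w) h)
  else 0

/-- `∏_l (y_i - z_l)` is nilpotent on `T / K` for every `i` -/
def Nil {m : ℕ} (K : Submodule (S ι) (T a b ι)) (z : Fin m → ℂ) : Prop :=
  ∀ i : ι, ∃ N : ℕ, ∀ c : T a b ι, (∏ l, ((X i : S ι) - C (z l))) ^ N • c ∈ K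

variable (a b ι)

/-- the index set of the blocks: `q = (B, a1, b1)` with `a1 + b1 + 1 = |B|` -/
def blk : Finset (Finset ι × ℕ × ℕ) :=
  ((Finset.univ : Finset (Finset ι)) ×ˢ Finset.range (a + 1) ×ˢ Finset.range (b + 1)).filter
    (fun q => q.2.1 + q.2.2 + 1 = q.1.card)

variable {a b ι}

/-- the component of index `q` of the evaluation -/
noncomputable def evq (q : Finset ι × ℕ × ℕ) :
    T a b ι →ₗ[S ι] T2 q.2.1 (a - q.2.1) q.2.2 (b - q.2.2) q.1 := by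
  classical
  exact if h : q.2.1 ≤ a ∧ q.2.2 ≤ b then
    ev q.1 (Nat.add_sub_of_le h.1) (Nat.add_sub_of_le h.2) else 0

end blocks

/-- families of submodules `K q`, `K' q` -/
abbrev FamP (ι : Type) [Fintype ι] [DecidableEq ι] : Type :=
  (q : Finset ι × ℕ × ℕ) → Submodule (S (In q.1)) (T q.2.1 q.2.2 (In q.1))

abbrev FamN (a b : ℕ) (ι : Type) [Fintype ι] [DecidableEq ι] : Type :=
  (q : Finset ι × ℕ × ℕ) → Submodule (S (Out q.1)) (T (a - q.2.1) (b - q.2.2) (Out q.1))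

/-- MODULE TEN (from nothing). `T2 / K2 K K' ≃ (T / K) ⊗ (T / K')`.
`Ψ : T a1 b1 (In B) ⊗[ℂ] T a2 b2 (Out B) → T2`, `c1 ⊗ c2 ↦ (p ↦ rename val (c1 p.1) *
rename val (c2 p.2))` is a `ℂ`-linear bijection (monomials of `S ι` = pairs of monomials of
`S (In B)` and `S (Out B)`, times the index sets). The image of `K ⊗ T + T ⊗ K'` is `K2 K K'` (the
`S ι`-span is the `ℂ`-span because `S ι` is spanned by the products of a polynomial of `S (In B)`
and one of `S (Out B)`, and `K`, `K'` are submodules). Use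
`TensorProduct.quotientTensorQuotientEquiv`, `Module.finrank_tensorProduct`,
`LinearMap.trace_tensorProduct'`; `act2 B w` corresponds to `actT (resP B w) ⊗ actT (resN B w)`. -/
def St_TEN : Prop :=
  ∀ (ι : Type) [Fintype ι] [DecidableEq ι] (B : Finset ι) (a1 a2 b1 b2 : ℕ)
    (K : Submodule (S (In B)) (T a1 b1 (In B))) (K' : Submodule (S (Out B)) (T a2 b2 (Out B))),
    Module.Finite ℂ (T a1 b1 (In B) ⧸ K.restrictScalars ℂ) →
    Module.Finite ℂ (T a2 b2 (Out B) ⧸ K'.restrictScalars ℂ) →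
    Module.Finite ℂ (T2 a1 a2 b1 b2 B ⧸ (K2 K K').restrictScalars ℂ) ∧
    Module.finrank ℂ (T2 a1 a2 b1 b2 B ⧸ (K2 K K').restrictScalars ℂ) =
      Module.finrank ℂ (T a1 b1 (In B) ⧸ K.restrictScalars ℂ) *
        Module.finrank ℂ (T a2 b2 (Out B) ⧸ K'.restrictScalars ℂ) ∧
    ∀ w : Equiv.Perm ι, Stb B w → IsStab (K.restrictScalars ℂ) → IsStab (K'.restrictScalars ℂ) →
      (∀ g ∈ K2 K K', act2 B w g ∈ K2 K K') ∧
      tr2 (K2 K K') w = qtr K (resP B w) * qtr K' (resN B w)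

/-- MODULE EVR (from nothing). `ev` maps `Rel` into `K2 Rel Rel`.
Check generators. `ev (u (x.1 ∘ τ, x.2)) = sgn τ • ev (u x)` (substitute `σ`), so `rA`, `rB` go to
`0`. `ev (u x) = ∑_{σ,τ} sgn • [x = jn p ∘ (σ, τ)] u2 p`. For `rTh s x l` and fixed `σ, τ`: the entry
`i` at position `s` of `x.1` is at position `σ s` of `jn p`, which is either one of the first `a1`
positions (then `i` must be in `B`, and the sum over `i ∈ B` is `ex1 (rTh …)`) or one of the last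
`a2` (`i ∉ B`, `ex2 (rTh …)`), the other entries being fixed; or it is `0`. For `rPh s t x l`: if
both positions are in the `B`-part: `ex1 (rPh …)`; both in the other part: `ex2 (rPh …)`; one in
each: `i ∈ B` and `i ∉ B` is impossible, `0`. -/
def St_EVR : Prop :=
  ∀ (ι : Type) [Fintype ι] [DecidableEq ι] (B : Finset ι) (a b a1 a2 b1 b2 : ℕ)
    (h1 : a1 + a2 = a) (h2 : b1 + b2 = b), ∀ c ∈ Rel a b ι,
    ev B h1 h2 c ∈ K2 (Rel a1 b1 (In B)) (Rel a2 b2 (Out B))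

/-- MODULE EVE (from St_EVR). `ev` maps `LZ z` into `K2 (LZ z_last) (LZ z')`.
For `x = jn p ∘ (σ, τ)`: `EE x = EE (jn p) = (image of EE p.1) * (image of EE p.2)` (images in
`PowerSeries (S ι)` under `rename Subtype.val`), and `ZZ z = ZZ (z_last) * ZZ z'`. With
`A_q, B_q` the coefficients of the two series and `α_q`, `β_q` those of the `ZZ`s:
`∑_q (A_q B_{r-q} - α_q β_{r-q}) = ∑_q (A_q - α_q) B_{r-q} + α_q (B_{r-q} - β_{r-q})`, so
`(coeff_r (EE x) - C (coeff_r (ZZ z))) • u2 p ∈ K2 (LZ ..) (LZ ..)`. -/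
def St_EVE : Prop :=
  ∀ (ι : Type) [Fintype ι] [DecidableEq ι] (B : Finset ι) (a b a1 a2 b1 b2 m : ℕ)
    (h1 : a1 + a2 = a) (h2 : b1 + b2 = b) (z : Fin (m + 1) → ℂ), ∀ c ∈ LZ a b ι z,
    ev B h1 h2 c ∈ K2 (LZ a1 b1 (In B) (fun _ : Fin 1 => z (Fin.last m)))
      (LZ a2 b2 (Out B) (fun l : Fin m => z l.castSucc))

/-- MODULE EVW (from nothing). Equivariance: `jn (w p) = w (jn p)` if `w` stabilises `B`. -/
def St_EVW : Prop :=
  ∀ (ι : Type) [Fintype ι] [DecidableEq ι] (B : Finset ι) (a b a1 a2 b1 b2 : ℕ)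
    (h1 : a1 + a2 = a) (h2 : b1 + b2 = b) (w : Equiv.Perm ι), Stb B w → ∀ c : T a b ι,
    ev B h1 h2 (actT w c) = act2 B w (ev B h1 h2 c)

/-- MODULE EVS (from nothing). Values on monomials.
`ev (u (jn p0)) = ∑_{σ,τ} sgn ∑_p [jn p ∘ (σ, τ) = jn p0] u2 p`. The positions of `jn p0` with
entries in `B` are the first `a1` (resp. `b1`) ones. So `jn p ∘ (σ, τ) = jn p0` forces the number of
`B`-entries to agree: (2) follows; and for the same `a1, b1`, `σ` preserves the first `a1`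
positions, `σ = σ1 ⊕ σ2`, `p0.1.1 = p.1.1 ∘ σ1`, etc.; the sum is over all `(σ1, σ2, τ1, τ2)`, with
`u2 p ≡ sgn • u2 p0` modulo `K2 RelA RelA`. -/
def St_EVS : Prop :=
  ∀ (ι : Type) [Fintype ι] [DecidableEq ι] (B : Finset ι) (a b a1 a2 b1 b2 : ℕ)
    (h1 : a1 + a2 = a) (h2 : b1 + b2 = b) (p : Ix a1 b1 (In B) × Ix a2 b2 (Out B)),
    (ev B h1 h2 (u (jn h1 h2 p)) -
      ((a1.factorial * a2.factorial * b1.factorial * b2.factorial : ℕ) : ℂ) • u2 p ∈
        K2 (RelA a1 b1 (In B)) (RelA a2 b2 (Out B))) ∧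
    ∀ (a1' a2' b1' b2' : ℕ) (h1' : a1' + a2' = a) (h2' : b1' + b2' = b),
      (a1' ≠ a1 ∨ b1' ≠ b1) →
      (ev B h1' h2' (u (jn h1 h2 p)) : T2 a1' a2' b1' b2' B) = 0

/-- MODULE SBP (from nothing). Separating polynomials.
Let `N` be larger than all exponents in the `Nil` hypotheses (finitely many `q ∈ blk`, `i`). As `z`
is injective there is `P ∈ ℂ[x]` with `P ≡ 1 mod (x - z_last)^N`, `P ≡ 0 mod ∏_{l<m} (x - z_l)^N`.
`sB B = ∏_{i ∈ B} P(X i) * ∏_{i ∉ B} (1 - P(X i))`. For `q ∈ blk`, `i ∈ q.1`: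
`(X i - z_last)^N • g ∈ K2 (K q) (K' q)` for all `g` (it is enough for `g = S`-multiples of
`u2 (y1, y2) = ex1 (u y1) y2`), so `P(X i) • g - g ∈ K2`; for `i ∉ q.1`: `P(X i) • g ∈ K2`. -/
def St_SBP : Prop :=
  ∀ (ι : Type) [Fintype ι] [DecidableEq ι] (a b m : ℕ) (z : Fin (m + 1) → ℂ)
    (K : FamP ι) (K' : FamN a b ι), Function.Injective z →
    (∀ q ∈ blk a b ι, Nil (K q) (fun _ : Fin 1 => z (Fin.last m)) ∧
      Nil (K' q) (fun l : Fin m => z l.castSucc)) →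
    ∃ sB : Finset ι → S ι,
      (∀ (w : Equiv.Perm ι) (B : Finset ι), rename w (sB B) = sB (B.map w.toEmbedding)) ∧
      ∀ q ∈ blk a b ι, (∀ g : T2 q.2.1 (a - q.2.1) q.2.2 (b - q.2.2) q.1,
        sB q.1 • g - g ∈ K2 (K q) (K' q)) ∧
        ∀ B' : Finset ι, B' ≠ q.1 → ∀ g : T2 q.2.1 (a - q.2.1) q.2.2 (b - q.2.2) q.1,
          sB B' • g ∈ K2 (K q) (K' q)

/-- MODULE SRJ (from St_EVS). Joint surjectivity.
It is enough to reach, for one `q0 ∈ blk`, one `p` and one `s ∈ S ι`, the family which is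
`s • u2 p` at `q0` and `0` at the others: take `c = (1 / (a1! a2! b1! b2!)) • (s * sB q0.1) •
u (jn p)` (EVS (1), (2) for the `q` with `q.1 = q0.1`; `sB q0.1` kills the others;
`K2` is monotone). -/
def St_SRJ : Prop :=
  ∀ (ι : Type) [Fintype ι] [DecidableEq ι] (a b : ℕ) (K : FamP ι) (K' : FamN a b ι)
    (sB : Finset ι → S ι),
    (∀ q ∈ blk a b ι, RelA q.2.1 q.2.2 (In q.1) ≤ K q ∧
      RelA (a - q.2.1) (b - q.2.2) (Out q.1) ≤ K' q) →
    (∀ q ∈ blk a b ι, (∀ g : T2 q.2.1 (a - q.2.1) q.2.2 (b - q.2.2) q.1,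
        sB q.1 • g - g ∈ K2 (K q) (K' q)) ∧
        ∀ B' : Finset ι, B' ≠ q.1 → ∀ g : T2 q.2.1 (a - q.2.1) q.2.2 (b - q.2.2) q.1,
          sB B' • g ∈ K2 (K q) (K' q)) →
    ∀ g : (q : Finset ι × ℕ × ℕ) → T2 q.2.1 (a - q.2.1) q.2.2 (b - q.2.2) q.1,
      ∃ c : T a b ι, ∀ q ∈ blk a b ι, evq q c - g q ∈ K2 (K q) (K' q)

/-- MODULE TRC (from St_EVW). Dimension and trace formula.
The evaluations induce an isomorphism `T / K0 ≃ ∏_{q ∈ blk} T2 / K2 (K q) (K' q)` (hypotheses).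
`e_B` = multiplication by `sB B` on `T / K0` corresponds to the projection onto the factors with
`q.1 = B`; `∑_B e_B = 1`, `e_B e_B' = δ e_B`, `w e_B = e_{w B} w`. So
`trace w = ∑_B trace (w e_B) = ∑_B trace (e_B w e_B)`, `0` if `w B ≠ B`; for `w B = B` the operator
`w` on the image of `e_B`, i.e. on `∏_{q.1 = B} T2 / K2`, is the product of the `act2 B w` (EVW),
whose trace is the sum. (`B.map w = B ↔ Stb B w`.) -/
def St_TRC : Prop :=
  ∀ (ι : Type) [Fintype ι] [DecidableEq ι] (a b : ℕ) (K : FamP ι) (K' : FamN a b ι)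
    (sB : Finset ι → S ι) (K0 : Submodule (S ι) (T a b ι)),
    IsStab (K0.restrictScalars ℂ) →
    (∀ q ∈ blk a b ι, Module.Finite ℂ
      (T2 q.2.1 (a - q.2.1) q.2.2 (b - q.2.2) q.1 ⧸ (K2 (K q) (K' q)).restrictScalars ℂ)) →
    (∀ q ∈ blk a b ι, ∀ w, Stb q.1 w → ∀ g ∈ K2 (K q) (K' q), act2 q.1 w g ∈ K2 (K q) (K' q)) →
    (∀ (w : Equiv.Perm ι) (B : Finset ι), rename w (sB B) = sB (B.map w.toEmbedding)) →
    (∀ q ∈ blk a b ι, (∀ g : T2 q.2.1 (a - q.2.1) q.2.2 (b - q.2.2) q.1,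
        sB q.1 • g - g ∈ K2 (K q) (K' q)) ∧
        ∀ B' : Finset ι, B' ≠ q.1 → ∀ g : T2 q.2.1 (a - q.2.1) q.2.2 (b - q.2.2) q.1,
          sB B' • g ∈ K2 (K q) (K' q)) →
    (∀ g : (q : Finset ι × ℕ × ℕ) → T2 q.2.1 (a - q.2.1) q.2.2 (b - q.2.2) q.1,
      ∃ c : T a b ι, ∀ q ∈ blk a b ι, evq q c - g q ∈ K2 (K q) (K' q)) →
    (∀ c : T a b ι, c ∈ K0 ↔ ∀ q ∈ blk a b ι, evq q c ∈ K2 (K q) (K' q)) →
    Module.Finite ℂ (T a b ι ⧸ K0.restrictScalars ℂ) ∧
    Module.finrank ℂ (T a b ι ⧸ K0.restrictScalars ℂ) = ∑ q ∈ blk a b ι,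
      Module.finrank ℂ
        (T2 q.2.1 (a - q.2.1) q.2.2 (b - q.2.2) q.1 ⧸ (K2 (K q) (K' q)).restrictScalars ℂ) ∧
    ∀ w : Equiv.Perm ι, qtr K0 w = ∑ q ∈ (blk a b ι).filter
      (fun q => q.1.map w.toEmbedding = q.1), tr2 (K2 (K q) (K' q)) w

/-- MODULE NMA (from nothing). Convolution identity for `rr`.
Write `m = n - a - b` and think of `rr n a b` as the coefficient of `u^a v^b` in `r_m(n)`, where
`r_m(n+1) = m (r_{m-1}(n) + (u + v) r_m(n) + u v r_{m+1}(n))`, `r_0(0) = 1`. Claim for `m ≥ 1`: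
`r_m(n) = ∑_k C(n,k) r_1(k) r_{m-1}(n-k)` (all `m ≥ 1`; also `r_0(n) = 0` for `n ≥ 1`). Induction on
`n`, for all `m ≥ 1`: `s_m(n+1) = ∑_k C(n,k) (r_1(k+1) r_{m-1}(n-k) + r_1(k) r_{m-1}(n+1-k))`;
insert the recursion: `r_1(k+1) = r_0(k) + (u+v) r_1(k) + uv r_2(k)` and (for `m ≥ 2`)
`r_{m-1}(n+1-k) = (m-1) (r_{m-2} + (u+v) r_{m-1} + uv r_m)(n-k)`; by induction and associativity of
the convolution `(r_2 * r_{m-1})(n) = r_{m+1}(n)`, `(r_1 * r_{j})(n) = r_{j+1}(n)`, total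
`= r_{m-1} + (u+v) r_m + uv r_{m+1} + (m-1)(r_{m-1} + (u+v) r_m + uv r_{m+1})`. For the statement
below (`m ≥ 2`) the terms with `a1 + b1 + 1 ≠ k` are not there because `r_1(k)` only contains the
`(a1, b1)` with `a1 + b1 + 1 = k`. -/
def St_NMA : Prop :=
  ∀ (n a b m : ℕ), a + b + m = n → 2 ≤ m →
    rr n a b = ∑ k ∈ Finset.range (n + 1), ∑ a1 ∈ Finset.range (a + 1), ∑ b1 ∈ Finset.range (b + 1),
      if a1 + b1 + 1 = k then n.choose k * rr k a1 b1 * rr (n - k) (a - a1) (b - b1) else 0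

/-- MODULE NMB (from nothing). Induction on `n`: with `m' = n - a - b ≥ 1` the number `rr n a b`
contributes to the sum for `n + 1` with the coefficient `(m'+1) - m'` of `v^b` and
`m' - (m' - 1)` of `v^(b+1)`: `Σ_{n+1}(b) = Σ_n(b) + Σ_n(b-1)` for `n ≥ 1`; `Σ_1(b) = [b = 0]`. -/
def St_NMB : Prop :=
  ∀ (n b : ℕ), 1 ≤ n →
    ∑ a ∈ Finset.range (n + 1), (-1 : ℤ) ^ a * (rr n a b : ℤ) = ((n - 1).choose b : ℤ)

/-- the induction statement -/
def Good (ι : Type) [Fintype ι] [DecidableEq ι] (a b m : ℕ) : Prop :=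
  Module.Finite ℂ (T a b ι ⧸ (LP a b ι).restrictScalars ℂ) ∧
  Module.finrank ℂ (T a b ι ⧸ (LP a b ι).restrictScalars ℂ) = rr (Fintype.card ι) a b ∧
  ∀ z : Fin m → ℂ, Function.Injective z →
    Module.Finite ℂ (T a b ι ⧸ (LZ a b ι z).restrictScalars ℂ) ∧
    Module.finrank ℂ (T a b ι ⧸ (LZ a b ι z).restrictScalars ℂ) = rr (Fintype.card ι) a b ∧
    (∀ w : Equiv.Perm ι, qtr (LZ a b ι z) w = qtr (LP a b ι) w) ∧
    Nil (LZ a b ι z) z

/-- MODULE STP (from St_ACT, St_LZG, St_TEN, St_EVE, St_SBP, St_SRJ, St_TRC, St_NMA).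
The step for `m + 2 ≥ 2` points. Take `K q = LZ (z_last)` on `In q.1`, `K' q = LZ (z_0, …, z_m)` on
`Out q.1`; for `q ∈ blk` the types `In q.1`, `Out q.1` have fewer elements than `ι`
(`|In| = a1 + b1 + 1`, `|Out| = (a - a1) + (b - b1) + (m + 1)`), so `Good` holds with `m' = 1` and
`m' = m + 1`: finite quotients of dimensions `rr`, `Nil`. By TEN the `T2 / K2` have dimension
`rr |B| a1 b1 * rr (n - |B|) (a - a1) (b - b1)` and by NMA the sum over `blk` is `rr n a b`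
(`C(n,k)` subsets with `k` elements). By EVE and SRJ (with the `sB` of SBP) the evaluations induce a
surjection of `T / LZ z` onto the product; `dim T / LZ z ≤ rr n a b` (LZG), so it is bijective:
`c ∈ LZ z ↔ ∀ q ∈ blk, evq q c ∈ K2`. TRC, TEN and `Good` (traces) give the trace formula
(`K`, `K'` are stable: ACT). `Nil`: the product over all `l` kills every factor for large `N`. -/
def St_STP : Prop :=
  ∀ (ι : Type) [Fintype ι] [DecidableEq ι] (a b m : ℕ), a + b + (m + 2) = Fintype.card ι →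
    (∀ (ι' : Type) [Fintype ι'] [DecidableEq ι'] (a' b' m' : ℕ),
      Fintype.card ι' < Fintype.card ι → 1 ≤ m' → a' + b' + m' = Fintype.card ι' →
        Good ι' a' b' m') →
    ∀ z : Fin (m + 2) → ℂ, Function.Injective z →
      Module.Finite ℂ (T a b ι ⧸ (LZ a b ι z).restrictScalars ℂ) ∧
      Module.finrank ℂ (T a b ι ⧸ (LZ a b ι z).restrictScalars ℂ) = rr (Fintype.card ι) a b ∧
      Nil (LZ a b ι z) z ∧
      ∀ w : Equiv.Perm ι, qtr (LZ a b ι z) w =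
        ∑ q ∈ (blk a b ι).filter (fun q => q.1.map w.toEmbedding = q.1),
          qtr (LP q.2.1 q.2.2 (In q.1)) (resP q.1 w) *
            qtr (LP (a - q.2.1) (b - q.2.2) (Out q.1)) (resN q.1 w)

/-- MODULE INZ (from St_ACT, St_UPG, St_LZG). Compare `Pool/Agent/MDH/VPR.lean`.
`V ≃ T / Lop ecC` has dimension `≤ rr` (UPG); for injective `z` the map `V → T / LZ z` is onto (LZG)
and the target has dimension `≥ rr`: it is bijective and commutes with `w`, which gives the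
dimension and the traces. `INJ`: let `∑_{α ∈ s} mon ecC α * v_α ∈ Rel`. For every injective `z`, by
LZG (1), `∑_α (∏_k coeff_{k+1}(ZZ z)^{α_k}) • v_α ∈ LZ z`, so it is `0` in `V`. As
`coeff_k (ZZ z) = (-1)^k e_k(z)`, for a linear form `λ` on `V` the polynomial
`∑_α λ(v_α) ∏_k ((-1)^{k+1} e_{k+1})^{α_k}` in `z` vanishes at all injective `z`, so it is `0`
(multiply by `∏_{i<j} (z_i - z_j)`), and the `e_k` are algebraically independent. There is an
injective `z : Fin m → ℂ`. -/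
def St_INZ : Prop :=
  ∀ (ι : Type) [Fintype ι] [DecidableEq ι] (a b m : ℕ), a + b + m = Fintype.card ι →
    (∀ z : Fin m → ℂ, Function.Injective z → rr (Fintype.card ι) a b ≤
      Module.finrank ℂ (T a b ι ⧸ (LZ a b ι z).restrictScalars ℂ)) →
    ∀ (V : Submodule ℂ (T a b ι)) (hs : IsStab V), IsHomog V →
      IsCompl V ((Lop (ecC m) : Submodule (S ι) (T a b ι)).restrictScalars ℂ) →
      Module.Finite ℂ V ∧ Module.finrank ℂ V = rr (Fintype.card ι) a b ∧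
      MDH.INJ (ecC m) ((Rel a b ι).restrictScalars ℂ) V ∧
      ∀ z : Fin m → ℂ, Function.Injective z → ∀ w : Equiv.Perm ι,
        qtr (LZ a b ι z) w = LinearMap.trace ℂ V ((actT w).restrict (hs w))

/-- MODULE CRR (from St_INZ, St_EOP, St_PWR, St_UPG, St_ACT, St_FDG, St_COM, St_SPN, MDH.St_INA,
MDH.St_TRA). Compare `Pool/Agent/MDH/COR.lean`. Let `V_E` be a homogeneous stable complement of
`Lop ecC` and `V_P` one of `Lop thC = LP` (COM, PWR). `SP` for both by SPN (`thC` preserves `Rel`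
because it is multiplication by an element of `S ι`). `INJ ecC` for `V_E` by INZ,
`finrank V_P ≤ rr = finrank V_E` by UPG, so `INJ thC` for `V_P` by INA. TRA with `g = actT w`: the
traces agree; for `w = 1` the dimensions agree. `T / LP ≃ V_P` gives the claims (trace of `mapQ`). -/
def St_CRR : Prop :=
  ∀ (ι : Type) [Fintype ι] [DecidableEq ι] (a b m : ℕ), a + b + m = Fintype.card ι →
    (∀ z : Fin m → ℂ, Function.Injective z → rr (Fintype.card ι) a b ≤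
      Module.finrank ℂ (T a b ι ⧸ (LZ a b ι z).restrictScalars ℂ)) →
    Module.Finite ℂ (T a b ι ⧸ (LP a b ι).restrictScalars ℂ) ∧
    Module.finrank ℂ (T a b ι ⧸ (LP a b ι).restrictScalars ℂ) = rr (Fintype.card ι) a b ∧
    ∀ z : Fin m → ℂ, Function.Injective z → ∀ w : Equiv.Perm ι,
      qtr (LZ a b ι z) w = qtr (LP a b ι) w

/-- MODULE ONE (from St_POL, St_PZZ, St_ACT, St_UPG). One point, `n = a + b + 1`.
(i) `ec r * c ∈ LP` for `r ≥ 1`: `r ≥ 2` by POL, `r = 1`: PZZ with `r = 1` says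
`(p_1 + n ec_1(x)) • u x ∈ Rel`. (ii) `PP` acts on `T / LZ z` as `n / (1 - z t)`: by PZZ the
coefficients `r ≥ 1` of `EE x * PP` kill `u x` and `EE` acts as `1 - z t`; so
`(p_k - n z^k) • u x ∈ LZ z`. (iii) Let `φ : T → T`, `(φ c)(x) = c(x)(y_i ↦ y_i + z)`, bijective.
`φ (LZ z) ≤ LP`: generators of `Rel` go to `Rel` (binomial theorem); `EE x (y + z) =
(1 - z t)^(n-a-b) EE x (y) (t / (1 - z t)) = (1 - z t) ∑_r ec_r(x) (t / (1 - z t))^r` which is
`1 - z t` modulo `LP` by (i). `φ⁻¹ (LP) ≤ LZ z`: `∑_i (y_i - z)^k = ∑_j C(k,j) p_j (-z)^(k-j)` acts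
as `n (z - z)^k = 0` for `k ≥ 1` by (ii). `φ` commutes with `actT w`. So `T / LZ z ≃ T / LP`
compatibly with `w`. (iv) `T / LP` is finite dimensional and graded, so `y_i` is nilpotent on it;
`(y_i - z)^N c ∈ LZ z`. -/
def St_ONE : Prop :=
  ∀ (ι : Type) [Fintype ι] [DecidableEq ι] (a b : ℕ), a + b + 1 = Fintype.card ι →
    ∀ z : Fin 1 → ℂ,
      Module.finrank ℂ (T a b ι ⧸ (LZ a b ι z).restrictScalars ℂ) =
        Module.finrank ℂ (T a b ι ⧸ (LP a b ι).restrictScalars ℂ) ∧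
      (∀ w : Equiv.Perm ι, qtr (LZ a b ι z) w = qtr (LP a b ι) w) ∧
      Nil (LZ a b ι z) z

end MDC
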