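import Pool.Agent.MDC.StC

/-!
# MDC, frozen statements D: the case of one point, Frobenius characteristics
-/

set_option autoImplicit false

open MvPolynomial

namespace MDC

section defsD

variable {a b : ℕ} {ι : Type} [Fintype ι] [DecidableEq ι]

/-- Euler operator -/
noncomputable def Eu (c : T a b ι) : T a b ι := fun x => ∑ i : ι, X i * pderiv i (c x)

variable (b ι)

/-- anticommutation and `∑_i η_i` in degree `0` -/
noncomputable def Kz : Submodule ℂ ((Fin b → ι) → ℂ) :=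
  Submodule.span ℂ ({c | ∃ (τ : Equiv.Perm (Fin b)) (k : Fin b → ι),
      c = Pi.single (k ∘ τ) 1 - ((Equiv.Perm.sign τ : ℤ) : ℂ) • Pi.single k 1} ∪
    {c | ∃ (t : Fin b) (k : Fin b → ι), c = ∑ i : ι, Pi.single (Function.update k t i) 1})

variable {b ι}

noncomputable def acz (w : Equiv.Perm ι) : ((Fin b → ι) → ℂ) →ₗ[ℂ] ((Fin b → ι) → ℂ) where
  toFun c := fun k => c (fun t => w⁻¹ (k t))
  map_add' _ _ := rfl
  map_smul' _ _ := rfl

/-- trace of `w` on `Λ^b(ℂ^ι) / (∑ η_i)` -/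
noncomputable def qz (b : ℕ) (w : Equiv.Perm ι) : ℂ := by
  classical
  exact if h : Kz b ι ≤ (Kz b ι).comap (acz w) then
    LinearMap.trace ℂ (((Fin b → ι) → ℂ) ⧸ Kz b ι) ((Kz b ι).mapQ (Kz b ι) (acz w) h)
  else 0

/-- trace of `w` on `Λ^c(ℂ^ι)` -/
noncomputable def lt (c : ℕ) (w : Equiv.Perm ι) : ℂ := by
  classical
  exact ((c.factorial : ℂ))⁻¹ * ∑ σ : Equiv.Perm (Fin c), ((Equiv.Perm.sign σ : ℤ) : ℂ) *
    (((Finset.univ : Finset (Fin c → ι)).filter (fun k => (fun t => w (k t)) = k ∘ σ)).card : ℂ)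

/-- Frobenius characteristic in `N` variables -/
noncomputable def frobI (ι : Type) [Fintype ι] [DecidableEq ι] (N : ℕ) (χ : Equiv.Perm ι → ℂ) :
    MvPolynomial (Fin N) ℂ :=
  (((Fintype.card ι).factorial : ℂ))⁻¹ • ∑ w : Equiv.Perm ι, χ w •
    ∑ g ∈ (Finset.univ : Finset (ι → Fin N)).filter (fun g => g ∘ w = g),
      ∏ i, (X (g i) : MvPolynomial (Fin N) ℂ)

end defsD

/-- MODULE DST (from nothing). The homotopy. (1) on generators: `dst (rA τ x) = 0`,
`dst (rB τ x)` is a combination of `rB`s, `dst (rTh s x l)`: for `σ 0 = s` the term is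
`∑_i y_i^(l+1) u (tail (x.1 ∘ σ), x.2) = p_(l+1) u (…) ∈ LP`, otherwise an `rTh`; `dst (rPh s t x l)`:
for `σ 0 = s` it is `rEt t (…) (l+1)`; `dst (p_k u x) = p_k dst (u x)`. (2) `{∑ θ_i ∂_{y_i},
∑ y_j ∂_{θ_j}} = ∑ y_i ∂_{y_i} + ∑ θ_i ∂_{θ_i}` with the factorials (`dst = a! d^*` modulo `RelA`);
compute both terms on `s • u x` as in CAR. (3)–(6) are direct. -/
def St_DST : Prop :=
  ∀ (ι : Type) [Fintype ι] [DecidableEq ι] (a b : ℕ),
    (∀ c ∈ LP (a + 1) b ι, dst c ∈ LP a b ι) ∧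
    (∀ c : T (a + 1) b ι, dst (dt c) + ((a : ℂ) + 1) • dt (dst c) -
      ((a + 1).factorial : ℂ) • (Eu c + ((a : ℂ) + 1) • c) ∈ RelA (a + 1) b ι) ∧
    (∀ c : T 0 b ι, dst (dt c) = Eu c) ∧
    (∀ (w : Equiv.Perm ι) (c : T (a + 1) b ι), dst (actT w c) = actT w (dst c)) ∧
    (∀ (w : Equiv.Perm ι) (c : T a b ι), dt (actT w c) = actT w (dt c)) ∧
    (∀ (q : ℕ) (c : T (a + 1) b ι), dst (hc q c) = hc (q + 1) (dst c)) ∧
    (∀ (q : ℕ) (c : T a b ι), dt (hc (q + 1) c) = hc q (dt c)) ∧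
    (∀ c : T a b ι, dt (hc 0 c) = 0) ∧
    (∀ (q : ℕ) (c : T a b ι), Eu (hc q c) = (q : ℂ) • hc q c)

/-- MODULE EXA (from St_DST, St_DTH, St_TOP, St_UPG, St_ACT, St_FDG). Exactness.
`M_a = T a b ι / LP` is finite dimensional (UPG; it is `0` for `a + b ≥ card ι` by TOP), `dt`, `dst`
induce `d : M_a → M_{a+1}`, `d* : M_{a+1} → M_a` (DTH (4), DST (1)), they commute with `w`; let
`δ = d*/(a!)`; on the part of `y`-degree `q` of `M_a`: `δ d + d δ = q + a` (for `a = 0`: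
`δ d = q`), by DST (2), (3). Let `P^e` be the projection of `M_a` to the part of `y`-degree `e - a`
(`hc (e - a)`, `0` if `e < a`). For `e ≥ 1`: `e trace (w P^e | M_a) = X_a + X_{a-1}` with
`X_a = trace (w P^e δ d | M_a)`, because `trace (w P^e d δ | M_a) = trace (w P^e δ d | M_{a-1})`
(cyclicity of the trace, `d P^e = P^e d`, `δ P^e = P^e δ`). So `∑_a (-1)^a trace (w P^e | M_a) = 0`
(`X_{-1} = 0`, `X_{card ι} = 0`). Sum over `e` (finitely many non-zero). What remains is `e = 0`: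
`a = 0` and `y`-degree `0`: the quotient of `{c : T 0 b ι | c = hc 0 c} ≅ ((Fin b → ι) → ℂ)` by its
intersection with `LP 0 b ι`, which is `Kz b ι` (`LP` is homogeneous, generated by homogeneous
elements of which only the `rB` and the `rEt t x 0` have degree `0`). -/
def St_EXA : Prop :=
  ∀ (ι : Type) [Fintype ι] [DecidableEq ι] (b : ℕ) (w : Equiv.Perm ι), 1 ≤ Fintype.card ι →
    ∑ a ∈ Finset.range (Fintype.card ι + 1), (-1 : ℂ) ^ a * qtr (LP a b ι) w = qz b w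

/-- MODULE EXB (from nothing). Exactness of the multiplication by `∑ η_i` on `Λ(ℂ^ι)`.
`A_c = ((Fin c → ι) → ℂ) / (anticommutation)`; the trace of `w` on `A_c` is `lt c w` (`A_c` is
isomorphic to the image of the projection `P = (1/c!) ∑_σ sgn(σ) (k ↦ k ∘ σ)`,
`trace (w P) = lt c w`). `E : A_c → A_{c+1}`, `u(k) ↦ ∑_i u(cons i k)`, and
`D : A_{c+1} → A_c`, `u(k) ↦ ∑_σ sgn(σ) u(tail (k ∘ σ))`, satisfy
`D E + (c + 1) E D = (c+1)! · card ι` on `A_{c+1}` (as CAR in StA), `D E = card ι` on `A_0`. As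
`card ι ≠ 0` the sequence `0 → A_0 → A_1 → ⋯ → A_b → A_b / E(A_{b-1}) → 0` is exact, and
`A_b / E(A_{b-1})` is the space of `qz`; everything commutes with `w`. -/
def St_EXB : Prop :=
  ∀ (ι : Type) [Fintype ι] [DecidableEq ι] (b : ℕ) (w : Equiv.Perm ι), 1 ≤ Fintype.card ι →
    qz b w = ∑ j ∈ Finset.range (b + 1), (-1 : ℂ) ^ j * lt (b - j) w

/-- MODULE DIM (from St_EXA, St_EXB, St_TOP, St_UPG, St_ACT, St_NMB).
Take `w = 1` in EXA and EXB: `qtr (LP a b ι) 1 = finrank (T / LP)` (`LP` is stable, `actT 1 = id`),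
`lt c 1 = C(n, c)` (`∑_σ sgn(σ) #{k | k = k ∘ σ}`: non-injective `k` cancel, an injective `k` is
fixed by `σ = 1` only), `∑_j (-1)^j C(n, b - j) = C(n - 1, b)`. The dimensions for `a' + b ≥ n` are
`0` (TOP) and for `a' + b + 2 ≤ n` they are `rr` by hypothesis; compare with NMB. -/
def St_DIM : Prop :=
  ∀ (ι : Type) [Fintype ι] [DecidableEq ι] (a b : ℕ), a + b + 1 = Fintype.card ι →
    (∀ a' b' m' : ℕ, 2 ≤ m' → a' + b' + m' = Fintype.card ι →
      Module.finrank ℂ (T a' b' ι ⧸ (LP a' b' ι).restrictScalars ℂ) =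
        rr (Fintype.card ι) a' b') →
    Module.finrank ℂ (T a b ι ⧸ (LP a b ι).restrictScalars ℂ) = rr (Fintype.card ι) a b

/-- MODULE IND (from St_STP, St_CRR, St_ONE, St_DIM, St_UPG, St_LZG). Strong induction on
`card ι`. For `m ≥ 2`: STP gives everything about `LZ z`, then CRR (its hypothesis holds for every
injective `z` by STP) gives the part about `LP` and the equality of the traces; the trace formula
of STP (for one injective `z : Fin (m+2) → ℂ`) becomes the second claim. For `m = 1`: DIM, ONE, UPG,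
LZG (finiteness). -/
def St_IND : Prop :=
  (∀ (ι : Type) [Fintype ι] [DecidableEq ι] (a b m : ℕ), 1 ≤ m → a + b + m = Fintype.card ι →
    Good ι a b m) ∧
  (∀ (ι : Type) [Fintype ι] [DecidableEq ι] (a b m : ℕ), a + b + (m + 2) = Fintype.card ι →
    ∀ w : Equiv.Perm ι, qtr (LP a b ι) w =
      ∑ q ∈ (blk a b ι).filter (fun q => q.1.map w.toEmbedding = q.1),
        qtr (LP q.2.1 q.2.2 (In q.1)) (resP q.1 w) *
          qtr (LP (a - q.2.1) (b - q.2.2) (Out q.1)) (resN q.1 w))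

/-! ## Frobenius characteristics -/

/-- MODULE FRP (from nothing). Product formula. The pairs `(w, B)` with `w B = B` correspond to the
triples `(B, w1, w2)`, `w1 ∈ Perm (In B)`, `w2 ∈ Perm (Out B)` (`w1 = resP B w`, `w2 = resN B w`,
`Equiv.Perm.subtypeCongr`), the `g` with `g ∘ w = g` to the pairs `(g1, g2)` with
`g1 ∘ w1 = g1`, `g2 ∘ w2 = g2`. -/
def St_FRP : Prop :=
  ∀ (ι : Type) [Fintype ι] [DecidableEq ι] (N : ℕ) (χ1 : (B : Finset ι) → Equiv.Perm (In B) → ℂ)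
    (χ2 : (B : Finset ι) → Equiv.Perm (Out B) → ℂ),
    ∑ w : Equiv.Perm ι, (∑ B ∈ (Finset.univ : Finset (Finset ι)).filter
        (fun B => B.map w.toEmbedding = B), χ1 B (resP B w) * χ2 B (resN B w)) •
      ∑ g ∈ (Finset.univ : Finset (ι → Fin N)).filter (fun g => g ∘ w = g),
        ∏ i, (X (g i) : MvPolynomial (Fin N) ℂ) =
    ∑ B : Finset ι, ((B.card.factorial * (Fintype.card ι - B.card).factorial : ℕ) : ℂ) •
      (frobI (In B) N (χ1 B) * frobI (Out B) N (χ2 B))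

/-- MODULE FRI (from nothing). Relabelling, and the two basic examples: `∑_w sgn(w) p_w = n! e_n`
(for a non-injective `g` the sum of the signs of the `w` with `g ∘ w = g` is `0`) and
`∑_w p_w = n! h_n` (`h_n = ∑_{s : Sym} …`; the number of `g` with a given multiset of values times the
number of `w` with `g ∘ w = g` is `n!`). -/
def St_FRI : Prop :=
  (∀ (ι ι' : Type) [Fintype ι] [DecidableEq ι] [Fintype ι'] [DecidableEq ι'] (e : ι ≃ ι') (N : ℕ)
    (χ : Equiv.Perm ι' → ℂ), frobI ι' N χ = frobI ι N (fun w => χ (e.permCongr w))) ∧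
  (∀ (ι : Type) [Fintype ι] [DecidableEq ι] (N : ℕ),
    frobI ι N (fun w => ((Equiv.Perm.sign w : ℤ) : ℂ)) = esymm (Fin N) ℂ (Fintype.card ι)) ∧
  (∀ (ι : Type) [Fintype ι] [DecidableEq ι] (N : ℕ),
    frobI ι N (fun _ => 1) = hsymm (Fin N) ℂ (Fintype.card ι))

/-- MODULE FLT (from St_FRP, St_FRI). Frobenius characteristic of `Λ^c(ℂ^ι)`:
`lt c w = ∑_{B, |B| = c, w B = B} sgn(resP B w)` (in `lt`, the non-injective `k` cancel by
`σ ↦ σ ∘ (transposition)`; for injective `k` with image `B` the equation `w ∘ k = k ∘ σ` says that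
`w B = B` and that `σ` is the restriction of `w`; each `B` has `c!` enumerations `k`). Then FRP with
`χ1 B = sgn` if `|B| = c` and `0` otherwise, `χ2 = 1`. -/
def St_FLT : Prop :=
  ∀ (ι : Type) [Fintype ι] [DecidableEq ι] (N c : ℕ),
    frobI ι N (lt c) = if c ≤ Fintype.card ι then
      esymm (Fin N) ℂ c * hsymm (Fin N) ℂ (Fintype.card ι - c) else 0

/-! ## The generating function -/

section gen

/-- `ℂ[x_1, …, x_N][u, v]` -/
abbrev UV (N : ℕ) : Type := MvPolynomial (Fin 2) (MvPolynomial (Fin N) ℂ)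

/-- `h_k(u, v)` -/
noncomputable def hh (N k : ℕ) : UV N :=
  ∑ i ∈ Finset.range (k + 1), (X 0 : UV N) ^ i * (X 1 : UV N) ^ (k - i)

/-- `∑_{k ≥ 1} h_{k-1}(u,v) e_k t^k` -/
noncomputable def AA (N : ℕ) : PowerSeries (UV N) :=
  PowerSeries.mk (fun k => if k = 0 then 0 else hh N (k - 1) * C (esymm (Fin N) ℂ k))

/-- `1 - ∑_{k ≥ 2} u v h_{k-2}(u,v) e_k t^k` -/
noncomputable def NN (N : ℕ) : PowerSeries (UV N) :=
  PowerSeries.mk (fun k => if k = 0 then 1 else if k = 1 then 0 else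
    -((X 0 : UV N) * X 1 * hh N (k - 2) * C (esymm (Fin N) ℂ k)))

/-- `NN / (NN - AA)` -/
noncomputable def FS (N : ℕ) : PowerSeries (UV N) := NN N * PowerSeries.invOfUnit (NN N - AA N) 1

/-- coefficient of `t^n u^a v^b` of `FS` -/
noncomputable def GG (N n a b : ℕ) : MvPolynomial (Fin N) ℂ :=
  coeff (Finsupp.single (0 : Fin 2) a + Finsupp.single (1 : Fin 2) b)
    (PowerSeries.coeff n (FS N))

end gen

/-- MODULE GGA (from nothing). `FS * (NN - AA) = NN` (the constant coefficient of `NN - AA` is `1`).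
Let `L = AA / NN`; `FS * (1 - L) = 1`. The coefficient `L_k` of `t^k` is homogeneous of degree
`k - 1` in `u, v` (`AA_k` has degree `k - 1`, `NN_k` degree `k`, `k ≥ 1`), `L_0 = 0`. So
`FS_n = ∑_{1 ≤ k ≤ n} L_k FS_{n-k}` for `n ≥ 1`, `FS_0 = 1`; `FS_n` has only terms of degree
`≤ n - 1` for `n ≥ 1` (induction), and its part of degree `n - 1` is `L_n` (in `L_k FS_{n-k}`,
`k < n`, the degree is at most `n - 2`). Hence (1), (2) and, for `a + b ≤ n - 2`, (3). -/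
def St_GGA : Prop :=
  ∀ N : ℕ,
    (∀ a b : ℕ, GG N 0 a b = if a = 0 ∧ b = 0 then 1 else 0) ∧
    (∀ n a b : ℕ, 1 ≤ n → n ≤ a + b → GG N n a b = 0) ∧
    (∀ n a b m : ℕ, a + b + m = n → 2 ≤ m → GG N n a b =
      ∑ k ∈ Finset.range (n + 1), ∑ a1 ∈ Finset.range (a + 1), ∑ b1 ∈ Finset.range (b + 1),
        if a1 + b1 + 1 = k then GG N k a1 b1 * GG N (n - k) (a - a1) (b - b1) else 0)

/-- MODULE GGB (from St_GGA). Specialisation `u = -1`.
Apply the ring homomorphism `u ↦ -1` (`UV N → Sym[v]`, e.g. to `Polynomial (MvPolynomial (Fin N) ℂ)`)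
to `FS * (NN - AA) = NN`. `(1 + v) h_{k-1}(-1, v) = v^k - (-1)^k`, so `AA_k - NN_k ↦ (-1)^(k-1) e_k`
for `k ≥ 1` (`h_{k-1} + u v h_{k-2} ↦ (-1)^(k-1)`): `NN - AA ↦ E(-t) = ∑ (-1)^k e_k t^k`, and
`(1 + v) NN ↦ E(v t) + v E(-t)` (the coefficient of `t^k`, `k ≥ 1`, is
`v (v^(k-1) - (-1)^(k-1)) e_k = (v^k + v (-1)^k) e_k`). With `H(t) = ∑ h_k t^k`, `H(t) E(-t) = 1`
(the relation `∑_k (-1)^k e_k h_{n-k} = 0`, `n ≥ 1`; prove it, for instance from
`E(-t) = ∏_i (1 - x_i t)`, `H(t) = ∏_i 1/(1 - x_i t)`): `(1 + v) FS ↦ E(v t) H(t) + v`. Compare the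
coefficients of `t^n`, `n ≥ 1`: `(1 + v) ∑_b v^b g_b = ∑_c v^c e_c h_{n-c}`, where
`g_b = ∑_a (-1)^a GG n a b` (`GG n a b = 0` for `a + b ≥ n`), so `g_b = ∑_j (-1)^j e_{b-j}
h_{n-b+j}`. -/
def St_GGB : Prop :=
  ∀ N n b : ℕ, 1 ≤ n →
    ∑ a ∈ Finset.range (n + 1), (-1 : MvPolynomial (Fin N) ℂ) ^ a * GG N n a b =
      ∑ j ∈ Finset.range (b + 1), (-1 : MvPolynomial (Fin N) ℂ) ^ j *
        (if b - j ≤ n then esymm (Fin N) ℂ (b - j) * hsymm (Fin N) ℂ (n - (b - j)) else 0)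

/-- MODULE GGC (from nothing). Expansion in the `e_α`.
`FS * (NN - AA) = NN` gives, for `n ≥ 1`, `FS_n = AA_n + ∑_{1 ≤ k < n} (AA_k - NN_k) FS_{n-k}`
(the terms `k = n`: `(AA_n - NN_n) FS_0 + NN_n = AA_n`), with `AA_k - NN_k = (h_{k-1} + u v h_{k-2})
e_k` (`h_{-1} = 0`). Take the coefficient of `u^a v^b` and compare with the recursion of `kapl` along
the first block of a composition (the monomials of `u v h_{k-2}` are the `u^a' v^b'` with
`a' + b' = k`, `a', b' ≥ 1`; this is empty for `k = 1`). -/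
def St_GGC : Prop :=
  ∀ N n a b : ℕ, GG N n a b = ∑ c : Composition n, (kapl c.blocks a b) •
    (c.blocks.map (fun k => esymm (Fin N) ℂ k)).prod

/-- MODULE KPO (from nothing). Positivity. Call `P : ℕ → ℕ → ℕ` good if `P a b = P b a` and
`P (a+1) (b-1) ≤ P a b` for `1 ≤ b ≤ a`. For good `P` and `c ≥ 0` let `(h_c P)(a, b) =
∑_{a'+b'=c, a' ≤ a, b' ≤ b} P (a-a') (b-b')`. It is symmetric, and with `D = a + b - c` (if
`a + b ≥ c`; otherwise both sides are `0`)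
`(h_c P)(a, b) - (h_c P)(a+1, b-1) = P(a - c, D - a + c) - P(a+1, D-a-1)` (telescoping, `P = 0`
for negative arguments), which is `≥ 0`: on the line `a + b = D` a good `P` is symmetric and
non-increasing away from the middle and `|a - c - D/2| ≤ a + 1 - D/2` because `b ≤ a`. Also
`(u v P)(a,b) = P(a-1, b-1)` (`0` if `a = 0` or `b = 0`) is good, sums are good. The function of
`[k]` is `h_{k-1}` and that of `k :: l` is `h_{k-1} P + u v h_{k-2} P`. -/
def St_KPO : Prop :=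
  ∀ (l : List ℕ) (a b : ℕ), (∀ k ∈ l, 1 ≤ k) → 1 ≤ b → b ≤ a →
    kapl l (a + 1) (b - 1) ≤ kapl l a b

/-- MODULE FFG (from St_IND, St_EXA, St_EXB, St_RLB, St_TOP, St_FRP, St_FRI, St_FLT, St_GGA,
St_GGB). Strong induction on `n`, for all `a, b`. `n = 0`: `T a b (Fin 0)` is `0` unless
`a = b = 0`, and `LP 0 0 (Fin 0) = ⊥`. `a + b ≥ n ≥ 1`: both sides `0` (TOP: `LP = ⊤`; GGA (2)).
`a + b + m = n`, `m ≥ 2`: insert IND (2) into `frobI (Fin n)`, apply FRP for every `(a1, b1)`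
(`χ1 B = qtr (LP a1 b1 (In B))` if `a1 + b1 + 1 = |B|`, else `0`), and use FRI (1), RLB to replace
`In B`, `Out B` by `Fin |B|`, `Fin (n - |B|)`: `n! F_n(a,b) = ∑_k C(n,k) k! (n-k)! ∑_{a1+b1+1=k}
F_k(a1,b1) F_{n-k}(a-a1,b-b1)`; compare with GGA (3) and the induction hypothesis (`k = a1 + b1 + 1
≤ a + b + 1 < n` and `k ≥ 1`). `a + b = n - 1`: apply `frobI` to EXA, EXB (linear in
`χ`): `∑_{a'} (-1)^a' F_n(a', b) = ∑_j (-1)^j frobI (lt (b - j))`, FLT, and compare with GGB: all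
terms but `a' = a` are known to agree. -/
def St_FFG : Prop :=
  ∀ N n a b : ℕ, frobI (Fin n) N (qtr (LP a b (Fin n))) = GG N n a b

end MDC
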