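import Pool.Agent.MDC.StD

/-!
# MDC, frozen statements E: duality, highest weight vectors, the theorem
-/

set_option autoImplicit false

open MvPolynomial

namespace MDC

section defsE

variable {a b n : ℕ}

/-- apolar pairing -/
noncomputable def pr2 (c c' : T a b (Fin n)) : ℂ :=
  ∑ x : Ix a b (Fin n), ∑ A ∈ (c x).support, MDH.fac A * coeff A (c x) * coeff A (c' x)

/-- the harmonic functions: solutions of the dual differential equations -/
noncomputable def Har2 (a b n : ℕ) : Submodule ℂ (T a b (Fin n)) where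
  carrier := {c |
    (∀ (τ : Equiv.Perm (Fin a)) (x : Ix a b (Fin n)),
      c (x.1 ∘ τ, x.2) = ((Equiv.Perm.sign τ : ℤ) : ℂ) • c x) ∧
    (∀ (τ : Equiv.Perm (Fin b)) (x : Ix a b (Fin n)),
      c (x.1, x.2 ∘ τ) = ((Equiv.Perm.sign τ : ℤ) : ℂ) • c x) ∧
    (∀ (s : Fin a) (x : Ix a b (Fin n)) (k : ℕ),
      ∑ i : Fin n, MDH.dmon (Finsupp.single i k) (c (Function.update x.1 s i, x.2)) = 0) ∧
    (∀ (t : Fin b) (x : Ix a b (Fin n)) (k : ℕ),
      ∑ i : Fin n, MDH.dmon (Finsupp.single i k) (c (x.1, Function.update x.2 t i)) = 0) ∧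
    (∀ (s : Fin a) (t : Fin b) (x : Ix a b (Fin n)) (k : ℕ),
      ∑ i : Fin n, MDH.dmon (Finsupp.single i k)
        (c (Function.update x.1 s i, Function.update x.2 t i)) = 0) ∧
    (∀ (x : Ix a b (Fin n)) (k : ℕ), 1 ≤ k →
      ∑ i : Fin n, MDH.dmon (Finsupp.single i k) (c x) = 0)}
  add_mem' := by
    rintro c c' ⟨h1, h2, h3, h4, h5, h6⟩ ⟨h1', h2', h3', h4', h5', h6'⟩
    refine ⟨fun τ x => ?_, fun τ x => ?_, fun s x k => ?_, fun t x k => ?_, fun s t x k => ?_,
      fun x k hk => ?_⟩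
    · simp only [Pi.add_apply, h1 τ x, h1' τ x, smul_add]
    · simp only [Pi.add_apply, h2 τ x, h2' τ x, smul_add]
    · simp only [Pi.add_apply, map_add, Finset.sum_add_distrib, h3 s x k, h3' s x k, add_zero]
    · simp only [Pi.add_apply, map_add, Finset.sum_add_distrib, h4 t x k, h4' t x k, add_zero]
    · simp only [Pi.add_apply, map_add, Finset.sum_add_distrib, h5 s t x k, h5' s t x k, add_zero]
    · simp only [Pi.add_apply, map_add, Finset.sum_add_distrib, h6 x k hk, h6' x k hk, add_zero]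
  zero_mem' := by
    refine ⟨fun τ x => ?_, fun τ x => ?_, fun s x k => ?_, fun t x k => ?_, fun s t x k => ?_,
      fun x k hk => ?_⟩ <;> simp
  smul_mem' := by
    rintro r c ⟨h1, h2, h3, h4, h5, h6⟩
    refine ⟨fun τ x => ?_, fun τ x => ?_, fun s x k => ?_, fun t x k => ?_, fun s t x k => ?_,
      fun x k hk => ?_⟩
    · simp only [Pi.smul_apply, h1 τ x]; rw [smul_comm]
    · simp only [Pi.smul_apply, h2 τ x]; rw [smul_comm]
    · simp only [Pi.smul_apply, map_smul, ← Finset.smul_sum, h3 s x k, smul_zero]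
    · simp only [Pi.smul_apply, map_smul, ← Finset.smul_sum, h4 t x k, smul_zero]
    · simp only [Pi.smul_apply, map_smul, ← Finset.smul_sum, h5 s t x k, smul_zero]
    · simp only [Pi.smul_apply, map_smul, ← Finset.smul_sum, h6 x k hk, smul_zero]

/-- Garnir relation -/
def Gar (c : T a b (Fin n)) : Prop :=
  ∀ (t : Fin b) (x : Ix a b (Fin n)),
    c x = ∑ s : Fin a, c (Function.update x.1 s (x.2 t), Function.update x.2 t (x.1 s))

/-- harmonic functions which satisfy the Garnir relation -/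
noncomputable def HK (a b n : ℕ) : Submodule ℂ (T a b (Fin n)) where
  carrier := {c | c ∈ Har2 a b n ∧ Gar c}
  add_mem' := by
    rintro c c' ⟨h1, h2⟩ ⟨h1', h2'⟩
    refine ⟨Submodule.add_mem _ h1 h1', fun t x => ?_⟩
    simp only [Pi.add_apply, Finset.sum_add_distrib]
    rw [← h2 t x, ← h2' t x]
  zero_mem' := ⟨Submodule.zero_mem _, fun t x => by simp⟩
  smul_mem' := by
    rintro r c ⟨h1, h2⟩
    refine ⟨Submodule.smul_mem _ r h1, fun t x => ?_⟩
    simp only [Pi.smul_apply, ← Finset.smul_sum]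
    rw [← h2 t x]

/-- trace of `w` on `V` (`0` if `V` is not stable) -/
noncomputable def htr (V : Submodule ℂ (T a b (Fin n))) (w : Equiv.Perm (Fin n)) : ℂ := by
  classical
  exact if h : ∀ c ∈ V, actT w c ∈ V then LinearMap.trace ℂ V ((actT w).restrict h) else 0

/-- `p ↦ (x ↦ ∑_σ sgn(σ) (∏_t ∂_{t, x.2 t}) (∏_s ∂_{σ s, x.1 s}) p)`, restricted to the last set of
variables -/
noncomputable def psi {r : ℕ} (h : a < r) (hb : b ≤ a) :
    MvPolynomial (Fin r × Fin n) ℂ →ₗ[ℂ] T a b (Fin n) where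
  toFun p := fun x => aeval (R := ℂ)
    (fun q : Fin r × Fin n => if q.1.val + 1 = r then (X q.2 : S (Fin n)) else 0)
    (∑ σ : Equiv.Perm (Fin a), ((Equiv.Perm.sign σ : ℤ) : ℂ) • MDH.dmon
      (∑ t : Fin b, Finsupp.single ((⟨t.val, by omega⟩ : Fin r), x.2 t) 1 +
        ∑ s : Fin a, Finsupp.single ((⟨(σ s).val, by omega⟩ : Fin r), x.1 s) 1) p)
  map_add' p q := by
    funext x
    simp only [map_add, smul_add, Finset.sum_add_distrib, Pi.add_apply]
  map_smul' c p := by
    funext x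
    simp only [map_smul, map_sum, RingHom.id_apply, Pi.smul_apply, Finset.smul_sum]
    refine Finset.sum_congr rfl (fun σ _ => ?_)
    rw [smul_comm]

/-- `c ↦ ∑_x (∏_s x_{s, x.1 s}) (∏_t x_{t, x.2 t}) c(x)(last set)` -/
noncomputable def psi' {r : ℕ} (h : a < r) (hb : b ≤ a) :
    T a b (Fin n) →ₗ[ℂ] MvPolynomial (Fin r × Fin n) ℂ where
  toFun c := ∑ x : Ix a b (Fin n),
    (∏ s : Fin a, X ((⟨s.val, by omega⟩ : Fin r), x.1 s)) *
      (∏ t : Fin b, X ((⟨t.val, by omega⟩ : Fin r), x.2 t)) *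
      rename (fun i : Fin n => ((⟨r - 1, by omega⟩ : Fin r), i)) (c x)
  map_add' c c' := by simp [mul_add, Finset.sum_add_distrib]
  map_smul' r c := by simp [Finset.smul_sum]

end defsE

/-- MODULE ORT (from nothing). `Har2` is the annihilator of `LP`; as `Pool/Agent/MDH/ORT.lean`.
`pr2 (y_i^k • c) c' = pr2 c (∂_i^k c')`; `pr2 (s • g) c = 0` for all `s ∈ S` and a generator `g` of
`LP` is exactly one of the six conditions (nondegeneracy of the pairing on `S`); `LP` is spanned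
over `ℂ` by the `s • g`. -/
def St_ORT : Prop :=
  ∀ (n a b : ℕ) (c : T a b (Fin n)), c ∈ Har2 a b n ↔ ∀ l ∈ LP a b (Fin n), pr2 l c = 0

/-- MODULE DUA (from St_ORT, St_TOP, St_UPG, St_ACT, St_FDG, St_COM). As `Pool/Agent/MDH/DUA.lean`.
`V` a homogeneous stable complement of `LP` (finite dimensional by UPG; `LP = ⊤` if `a + b ≥ n`).
`Har2 → Dual ℂ V`, `c ↦ pr2 · c`, is bijective and `pr2 (w c) (w c') = pr2 c c'`; so
`trace (w | Har2) = trace (w⁻¹ | V) = qtr LP w⁻¹`. -/
def St_DUA : Prop :=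
  ∀ (n a b : ℕ), 1 ≤ n →
    (∀ w : Equiv.Perm (Fin n), ∀ c ∈ Har2 a b n, actT w c ∈ Har2 a b n) ∧
    Module.Finite ℂ (Har2 a b n) ∧
    ∀ w : Equiv.Perm (Fin n), htr (Har2 a b n) w = qtr (LP a b (Fin n)) w⁻¹

/-- MODULE SLT (from St_DUA). `sl_2` acting on the two sets of anticommuting variables.
`e : T a (b+1) → T (a+1) b`, `(e c)(x) = ∑_{s : Fin (a+1)} (-1)^s c (x.1 ∘ s.succAbove,
cons (x.1 s) x.2)`, and `f : T (a+1) b → T a (b+1)`, `(f c)(x) = ∑_{t : Fin (b+1)} (-1)^t
c (cons (x.2 t) x.1, x.2 ∘ t.succAbove)`. (i) They map `Har2` to `Har2` (e.g. for the condition at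
the position `s0` of the first tuple of `e c`: the terms `s ≠ s0` give the same condition for `c`,
the term `s = s0` the condition for the position `0` of the second tuple; in the mixed condition the
term `s = s0` has two equal entries in the second tuple, so it vanishes), and commute with `actT w`.
(ii) On antisymmetric functions in `T a b`: `e f - f e = a - b` (`e f = 0` if `a = 0`, `f e = 0` if
`b = 0`). (iii) For `c ∈ Har2 a (b+1)`: `(e c)(cons (k t) j, k without t) = (-1)^t (c(j,k) -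
∑_s c(update j s (k t), update k t (j s)))`, so `Gar c ↔ e c = 0`. (iv) `e : Har2 a b → Har2 (a+1)
(b-1)` is onto for `1 ≤ b ≤ a`: let `v ∈ Har2 (a+1) (b-1)`, `e^N v = 0` (`N = b` will do). Induction
on `N`; `N = 0` is clear. Let `x = e^(N-1) v`, so `e x = 0`, of weight `μ = a - b + 2 N` (weight =
difference of the two degrees). Then `e^N f^N x = κ x` with `κ = ∏_{i=1}^N i (μ - i + 1) ≠ 0`
(`μ - i + 1 ≥ a - b + N + 1 > 0`). `v' = v - κ⁻¹ e f^N x` satisfies `e^(N-1) v' = 0`, so `v'` is in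
the image and so is `v`. (v) So `0 → HK a b n → Har2 a b n → Har2 (a+1) (b-1) n → 0` is exact (and
`HK a 0 n = Har2 a 0 n`): the traces. -/
def St_SLT : Prop :=
  ∀ (n a b : ℕ), 1 ≤ n → b ≤ a →
    (∀ w : Equiv.Perm (Fin n), ∀ c ∈ HK a b n, actT w c ∈ HK a b n) ∧
    Module.Finite ℂ (HK a b n) ∧
    ∀ w : Equiv.Perm (Fin n), htr (HK a b n) w =
      htr (Har2 a b n) w - (if b = 0 then 0 else htr (Har2 (a + 1) (b - 1) n) w)

/-- MODULE HWA (from MDH.St_DHC). `psi` maps `hwPart` to `HK`. Let `p ∈ hwPart`,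
`Δ_J p = ∑_σ sgn(σ) ∏_s ∂_{σ s, J s} p` (rows `0, …, a-1`), `psi p (J, K) =
∏_{t<b} ∂_{t, K t} Δ_J p` (all `x`-degrees in the sets `≠ r-1` are used up, so this only involves the
last set). (1) Antisymmetry in `J` is clear. (2) `Δ_J` commutes with `pol s s'` for `s, s' < a`
(`[pol s s', ∂_{s,l}] = - ∂_{s',l}`, a determinant with two equal rows vanishes), so `Δ_J p` is
killed by `pol t t'`, `t < t' < b`, and has degree `1` in the sets `< b`: hence
`∏_t ∂_{t, K t} Δ_J p` is antisymmetric in `K`. (3) Garnir: expand the determinant with the `a + 1`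
rows `0; 0, 1, …, a-1` and the columns `K 0, J 0, …, J (a-1)` along its first row: it vanishes, so
`∂_{0,K 0} Δ_J = ∑_s ∂_{0,J s} Δ_{J[s → K 0]}`; this is the relation for `t = 0`, use (2) for the
other `t`. (4) The differential equations: `∑_i ∂_i^k psi p (J[s → i], K)` is a sum of operators
`∏ (…)` applied to `∑_i ∂_{s',i} ∂_{last,i}^k p`, which is `0` by DHC (`A = e_{s'} + k e_last`); the
mixed condition uses `A = e_t + e_{s'} + k e_last`, the last one `A = k e_last`
(`diffOp (pps A) = ∑_i dmon (…)`; `dmon (A + B) = dmon A ∘ dmon B`). -/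
def St_HWA : Prop :=
  ∀ (r n a b : ℕ) (h : a < r) (hb : b ≤ a), ∀ p ∈ hwPart r n a b, psi h hb p ∈ HK a b n

/-- MODULE HWB (from MDH.St_DHC). `psi'` maps `Har2` to `hwPart`. Degrees: clear. `pol s s'`,
`s < s' < r - 1`: if `s' ≥ a` nothing of degree `> 0` in the set `s'`. If `s' < a`: `pol s s'` replaces
`x_{s', x.1 s'}` by `x_{s, x.1 s'}` (sum `0` by antisymmetry in the positions `s, s'` of `x.1`) or,
if `s' < b`, `x_{s', x.2 s'}` by `x_{s, x.2 s'}` (antisymmetry of `x.2`). Harmonicity by DHC: for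
`A ≠ 0` apply `diffOp (pps A) = ∑_i dmon (∑_s A_s e_{s,i})`: `A = k e_last`: last condition of
`Har2`; one derivative in a set `s < a` (or two in different sets, or `∂_{s,i}^2`) hits
`x_{s, x.1 s}` or `x_{s, x.2 s}`: the conditions for one position of `x.1`, one of `x.2`, the mixed
one, or two positions of the same tuple, where `∑_i (∂_i^k c)(… i … i …) = 0` by antisymmetry; three
or more letters: two in the same tuple; degree too large: `0`. -/
def St_HWB : Prop :=
  ∀ (r n a b : ℕ) (h : a < r) (hb : b ≤ a), ∀ c ∈ Har2 a b n, psi' h hb c ∈ hwPart r n a b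

/-- MODULE HWC (from nothing). `psi (psi' c) = κ c` on antisymmetric functions with Garnir relation.
`psi (psi' c) (J, K) = ∑_σ sgn(σ) ∑_{Q ⊆ Fin b} c (J ∘ σ⁻¹ with K t at the positions t ∈ Q,
K with J (σ⁻¹ t) at the positions t ∈ Q)`: in the set `t < b` the two derivatives `∂_{t, K t}`,
`∂_{t, J (σ⁻¹ t)}` hit `x_{t, x.1 t} x_{t, x.2 t}` in one of the two ways (`dmon` with a double
derivative has the factor `2`). By antisymmetry in the first tuple this is `∑_Q ∑_σ
c (J[σ⁻¹ t → K t, t ∈ Q], K[t → J (σ⁻¹ t), t ∈ Q]) = ∑_Q (a - |Q|)! Y_Q` with `Y_Q = ∑_f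
c (J[f t → K t], K[t → J (f t)])`, `f` over the injections `Q → Fin a`. Claim `Y_Q = |Q|! c(J, K)`:
induction; let `t0 ∈ Q`, `Q' = Q \ t0`; for fixed `f` on `Q'`, with `J'`, `K'` the tuples after the
exchanges of `Q'`, Garnir at `t0` gives `∑_{s ∉ f(Q')} c (J'[s → K t0], K'[t0 → J s]) = c (J', K') -
∑_{t ∈ Q'} c (J'[f t → K t0], K'[t0 → K t])`, and by antisymmetry in the positions `t`, `t0` of the
second tuple the term of `t` is minus the configuration in which `t0` is exchanged with `f t` and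
`t` is not exchanged. So `Y_Q = Y_{Q'} + ∑_{t ∈ Q'} Y_{Q \ t} = |Q| (|Q|-1)! c(J,K)`. -/
def St_HWC : Prop :=
  ∀ (r n a b : ℕ) (h : a < r) (hb : b ≤ a), ∀ c ∈ HK a b n,
    psi h hb (psi' h hb c) =
      ((∑ q ∈ Finset.range (b + 1), b.choose q * (a - q).factorial * q.factorial : ℕ) : ℂ) • c

/-- MODULE HWD (from nothing). `psi` is injective on the polynomials with the degrees of `hwPart`
which are killed by the `pol s s'` (Capelli). Let `psi p = 0`. `Δ_J p` (see HWA) has degree `1` in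
the sets `< b` and `0` in the sets `b, …, r-2`, so it is determined by the
`∏_t ∂_{t, K t} Δ_J p`: `Δ_J p = 0` for all `J`. Let, for `m ≤ a`,
`C_m p = ∑_{J : {m..a-1} → Fin n} ∑_{σ ∈ Perm {m..a-1}} sgn(σ) (∏_s x_{s, J s}) (∏_s ∂_{σ s, J s}) p`,
so `C_a p = p` and `C_0 p = ∑_J ∏_s x_{s, J s} Δ_J p = 0`. Claim: `C_m p = (λ_m + a - 1 - m) C_{m+1} p`
with `λ_m = 2` (`m < b`), `1` (`b ≤ m < a`), so all factors are positive and `p = 0`.
Proof of the claim: if `σ m = m`, the factor `∑_{J m} x_{m, J m} ∂_{m, J m}` can be moved to the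
right, next to `p` (no other `∂_{m, ·}` occurs): it gives `λ_m p`; these `σ` contribute
`λ_m C_{m+1} p`. If `σ m = m' ≠ m`, let `s0 = σ⁻¹ m`; move `x_{m, J m}` to the right past
`∂_{m, J s0}`: `x_{m,J m} ∂_{m,J s0} = ∂_{m,J s0} x_{m,J m} - [J m = J s0]`. The first term contains
`∑_{J m} x_{m, J m} ∂_{m', J m} p = pol m m' p = 0`, the second is minus the term of `C_{m+1} p`
for `σ'` with `σ' s0 = m'` and `σ' = σ` elsewhere, `sgn σ = - sgn σ'`: contribution `+`, and every
`σ'` arises from `a - 1 - m` permutations `σ` (choice of `s0`). -/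
def St_HWD : Prop :=
  ∀ (r n a b : ℕ) (h : a < r) (hb : b ≤ a), ∀ p ∈ hwPart r n a b, psi h hb p = 0 → p = 0

/-- MODULE HWL (from St_HWA, St_HWB, St_HWC, St_HWD). `hwPart ≃ HK`, compatible with `S_n`.
`hwPart` is `S_n`-stable (`act w` commutes with `pol`, preserves `DH` and the degrees),
`psi (act w p) = actT w (psi p)` (`dmon (w A) (act w p) = act w (dmon A p)`). `psi` restricted to
`hwPart` is injective (HWD) with values in `HK` (HWA) and surjective:
`c = psi (κ⁻¹ psi' c)` (HWB, HWC, `κ > 0`). -/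
def St_HWL : Prop :=
  ∀ (r n a b : ℕ), b ≤ a → a < r →
    (∀ w, ∀ p ∈ hwPart r n a b, MDH.act r n w p ∈ hwPart r n a b) ∧
    ∃ φ : hwPart r n a b ≃ₗ[ℂ] HK a b n, ∀ w (p q : hwPart r n a b),
      (q : MvPolynomial (Fin r × Fin n) ℂ) = MDH.act r n w p →
      ((φ q : HK a b n) : T a b (Fin n)) = actT w ((φ p : HK a b n) : T a b (Fin n))

/-- MODULE FIN (from St_HWL, St_SLT, St_DUA, St_FFG, St_GGC, St_KPO, MDH.St_PCY). Theorem C.
The character of `hwPart` is `w ↦ htr (HK a b n) w = qtr (LP a b) w⁻¹ - [b ≥ 1] qtr (LP (a+1) (b-1))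
w⁻¹`. `frobChar` is `frobI (Fin n)` by PCY, and `frobI (χ ∘ inverse) = frobI χ` (`g ∘ w = g` iff
`g ∘ w⁻¹ = g`). So the Frobenius characteristic is `GG N n a b - [b ≥ 1] GG N n (a+1) (b-1)` (FFG),
and GGC gives the expansion; the coefficients are `≥ 0` by KPO (the blocks of a composition are
positive); `κ c = kapl c.blocks a b - kapl c.blocks (a+1) (b-1)` in `ℕ`. -/
def St_FIN : Prop :=
  ∀ (r n a b : ℕ), 1 ≤ n → b ≤ a → a < r → TheoremC r n a b

end MDC
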