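import Pool.Agent.MDC.DLog

/-!
# MDC TOP: `Rel = ⊤` if `a + b ≥ card ι ≥ 1`
-/

set_option autoImplicit false

open MvPolynomial

namespace MDC

open DLog

theorem thm_TOP (hPZZ : St_PZZ) : St_TOP := by
  intro ι _ _ a b h1 h2
  have hu : ∀ x : Ix a b ι, (u x : T a b ι) ∈ Rel a b ι := by
    intro x
    have h := hPZZ ι a b 0 x (by omega)
    have e : PowerSeries.coeff 0 (EE x * PP ι) = (Fintype.card ι : S ι) := by
      rw [PowerSeries.coeff_mul, Finset.Nat.antidiagonal_zero, Finset.sum_singleton, coeff_zero_EE,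
        coeff_PP, one_mul]
      simp [psum]
    rw [e] at h
    have h3 := Submodule.smul_mem _ (C ((Fintype.card ι : ℂ)⁻¹) : S ι) h
    rw [smul_smul] at h3
    have hne : (Fintype.card ι : ℂ) ≠ 0 := by
      exact_mod_cast (by omega : Fintype.card ι ≠ 0)
    have e2 : (C ((Fintype.card ι : ℂ)⁻¹) : S ι) * (Fintype.card ι : S ι) = 1 := by
      rw [← map_natCast (C : ℂ →+* S ι), ← map_mul, inv_mul_cancel₀ hne, map_one]
    rw [e2, one_smul] at h3
    exact h3
  refine eq_top_iff.mpr (fun c _ => ?_)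
  rw [sum_smul_u c]
  exact Submodule.sum_mem _ (fun x _ => Submodule.smul_mem _ _ (hu x))

end MDC
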